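import Pool.Agent.Lib.MP_250511_an.SB.SpecF

/-!
# MP_250511_an : module ARA, the local conformal coordinate of the quadratic differential `h dz ^ 2`
-/

set_option autoImplicit false

namespace Pool.Agent.Lib.MP250511.SB

open Complex Metric Set MeasureTheory Filter Topology
open scoped Real ENNReal ComplexConjugate ContDiff

namespace ARAM

/-- a holomorphic square root of `h` near `z₁`, and a primitive of it that vanishes at `z₁` -/
theorem prim (h : ℂ → ℂ) (z₁ : ℂ) (δ : ℝ) (hδ : 0 < δ) (hh : AnalyticOnNhd ℂ h (ball z₁ δ))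
    (h0 : h z₁ ≠ 0) : ∃ (δ₁ : ℝ) (k ξ : ℂ → ℂ), 0 < δ₁ ∧ δ₁ ≤ δ ∧
      (∀ z ∈ ball z₁ δ₁, k z ≠ 0 ∧ k z ^ 2 = h z) ∧
      (∀ z ∈ ball z₁ δ₁, HasDerivAt ξ (k z) z) ∧ ξ z₁ = 0 := by
  have hz₁ : z₁ ∈ ball z₁ δ := mem_ball_self hδ
  have hcont : ContinuousAt (fun z => h z / h z₁) z₁ := by
    exact (hh z₁ hz₁).continuousAt.div_const _
  have hslit : ∀ᶠ z in 𝓝 z₁, h z / h z₁ ∈ slitPlane := by
    apply hcont.eventually_mem
    apply isOpen_slitPlane.mem_nhds
    simp only [div_self h0]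
    exact one_mem_slitPlane
  obtain ⟨ε, hε, hεs⟩ := Metric.eventually_nhds_iff_ball.mp hslit
  obtain ⟨c, hc⟩ := IsAlgClosed.exists_pow_nat_eq (h z₁) (n := 2) (by norm_num)
  have hc0 : c ≠ 0 := by
    rintro rfl
    apply h0
    rw [← hc]
    norm_num
  set δ₁ : ℝ := min ε δ with hδ₁
  have hδ₁pos : 0 < δ₁ := lt_min hε hδ
  have hδ₁le : δ₁ ≤ δ := min_le_right _ _
  have hδ₁ε : δ₁ ≤ ε := min_le_left _ _
  set k : ℂ → ℂ := fun z => c * Complex.exp (Complex.log (h z / h z₁) / 2) with hk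
  have hkd : DifferentiableOn ℂ k (ball z₁ δ₁) := by
    intro z hz
    apply DifferentiableAt.differentiableWithinAt
    have hs := hεs z (ball_subset_ball hδ₁ε hz)
    have hd : DifferentiableAt ℂ (fun z => h z / h z₁) z :=
      (hh z (ball_subset_ball hδ₁le hz)).differentiableAt.div_const _
    have h2 : DifferentiableAt ℂ (fun z => Complex.log (h z / h z₁)) z := hd.clog hs
    exact ((h2.div_const 2).cexp).const_mul c
  have hk2 : ∀ z ∈ ball z₁ δ₁, k z ≠ 0 ∧ k z ^ 2 = h z := by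
    intro z hz
    have hs := hεs z (ball_subset_ball hδ₁ε hz)
    have hne : h z / h z₁ ≠ 0 := slitPlane_ne_zero hs
    refine ⟨mul_ne_zero hc0 (Complex.exp_ne_zero _), ?_⟩
    simp only [hk]
    rw [mul_pow, hc, ← Complex.exp_nat_mul]
    have : ((2 : ℕ) : ℂ) * (Complex.log (h z / h z₁) / 2) = Complex.log (h z / h z₁) := by
      push_cast
      ring
    rw [this, Complex.exp_log hne]
    field_simp
  obtain ⟨F, hF⟩ := hkd.isExactOn_ball
  refine ⟨δ₁, k, fun z => F z - F z₁, hδ₁pos, hδ₁le, hk2, ?_, by simp⟩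
  intro z hz
  exact (hF z hz).sub_const _

/-- a disc of radius `2 η` contains the square `Box η` -/
theorem box_sub (η : ℝ) : Box η ⊆ ball 0 (2 * η) := by
  intro q hq
  rw [mem_ball_zero_iff]
  have h1 := Complex.norm_le_abs_re_add_abs_im q
  have h2 := hq.1
  have h3 := hq.2
  linarith

theorem box_open (η : ℝ) : IsOpen (Box η) := by
  have h1 : IsOpen {q : ℂ | |q.re| < η} :=
    isOpen_lt (Complex.continuous_re.abs) continuous_const
  have h2 : IsOpen {q : ℂ | |q.im| < η} :=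
    isOpen_lt (Complex.continuous_im.abs) continuous_const
  exact h1.inter h2

end ARAM

open ARAM in
theorem specARA : SpecARA := by
  intro h z₁ δ hδ hh h0
  obtain ⟨δ₁, k, ξ, hδ₁, hδ₁le, hk, hξ, hξ0⟩ := prim h z₁ δ hδ hh h0
  have hz₁ : z₁ ∈ ball z₁ δ₁ := mem_ball_self hδ₁
  have hξd : DifferentiableOn ℂ ξ (ball z₁ δ₁) := fun z hz =>
    (hξ z hz).differentiableAt.differentiableWithinAt
  have hξa : AnalyticOnNhd ℂ ξ (ball z₁ δ₁) := hξd.analyticOnNhd isOpen_ball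
  have hd1 : deriv ξ z₁ = k z₁ := (hξ z₁ hz₁).deriv
  have hk1 : deriv ξ z₁ ≠ 0 := by
    rw [hd1]
    exact (hk z₁ hz₁).1
  let i : ℂ ≃L[ℂ] ℂ := .unitsEquivAut ℂ (.mk0 _ hk1)
  have hfd : HasStrictFDerivAt ξ i.toContinuousLinearMap z₁ := (hξa z₁ hz₁).hasStrictDerivAt
  let R : OpenPartialHomeomorph ℂ ℂ := hfd.toOpenPartialHomeomorph _
  have hRc : ∀ z, R z = ξ z := fun z => rfl
  have hx : z₁ ∈ R.source := HasStrictFDerivAt.mem_toOpenPartialHomeomorph_source _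
  have h0t : (0 : ℂ) ∈ R.target := by
    have := R.map_source hx
    rw [hRc, hξ0] at this
    exact this
  have hs0 : R.symm 0 = z₁ := by
    have := R.left_inv hx
    rw [hRc, hξ0] at this
    exact this
  set V : Set ℂ := R.target ∩ R.symm ⁻¹' (ball z₁ δ₁) with hV
  have hVo : IsOpen V := R.isOpen_inter_preimage_symm isOpen_ball
  have h0V : (0 : ℂ) ∈ V := ⟨h0t, by
    show R.symm 0 ∈ ball z₁ δ₁
    rw [hs0]
    exact hz₁⟩
  obtain ⟨ε, hε, hεV⟩ := Metric.isOpen_iff.mp hVo 0 h0V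
  set η : ℝ := ε / 2 with hη
  have hηpos : 0 < η := by positivity
  have hBV : Box η ⊆ V := by
    refine (box_sub η).trans ?_
    have : 2 * η = ε := by rw [hη]; ring
    rw [this]
    exact hεV
  have hder : ∀ q ∈ Box η, HasDerivAt R.symm (k (R.symm q))⁻¹ q := by
    intro q hq
    have hqV := hBV hq
    have hb : R.symm q ∈ ball z₁ δ₁ := hqV.2
    exact R.hasDerivAt_symm hqV.1 (hk _ hb).1 (hξ _ hb)
  have hW : R.source ∩ ball z₁ δ₁ ∩ ξ ⁻¹' (Box η) ∈ 𝓝 z₁ := by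
    refine inter_mem (inter_mem (R.open_source.mem_nhds hx) (isOpen_ball.mem_nhds hz₁)) ?_
    have hc : ContinuousAt ξ z₁ := (hξ z₁ hz₁).continuousAt
    apply hc.preimage_mem_nhds
    rw [hξ0]
    apply (box_open η).mem_nhds
    exact ⟨by simpa using hηpos, by simpa using hηpos⟩
  obtain ⟨δ', hδ', hδ's⟩ := Metric.mem_nhds_iff.mp hW
  have hle : δ' ⊓ δ₁ ≤ δ' := inf_le_left
  have hsub : ball z₁ (δ' ⊓ δ₁) ⊆ R.source ∩ ball z₁ δ₁ ∩ ξ ⁻¹' (Box η) :=
    (ball_subset_ball hle).trans hδ's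
  refine ⟨ξ, R.symm, δ' ⊓ δ₁, η, lt_inf_iff.mpr ⟨hδ', hδ₁⟩, inf_le_right.trans hδ₁le, hηpos,
    ?_, ?_, hξ0, ?_, ?_, ?_, ?_⟩
  · exact hξa.mono (fun z hz => (hsub hz).1.2)
  · intro a ha b hb hab
    have h1 := R.left_inv (hsub ha).1.1
    have h2 := R.left_inv (hsub hb).1.1
    rw [hRc] at h1 h2
    rw [← h1, ← h2, hab]
  · intro z hz
    refine ⟨(hsub hz).2, ?_⟩
    have h1 := R.left_inv (hsub hz).1.1
    rw [hRc] at h1
    exact h1
  · have hdo : DifferentiableOn ℂ R.symm (Box η) := fun q hq =>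
      (hder q hq).differentiableAt.differentiableWithinAt
    exact hdo.analyticOnNhd (box_open η)
  · intro a ha b hb hab
    have h1 := R.right_inv (hBV ha).1
    have h2 := R.right_inv (hBV hb).1
    rw [← h1, ← h2, hab]
  · intro q hq
    have hb : R.symm q ∈ ball z₁ δ₁ := (hBV hq).2
    refine ⟨ball_subset_ball hδ₁le hb, ?_⟩
    rw [(hder q hq).deriv, ← (hk _ hb).2, inv_pow]
    exact mul_inv_cancel₀ (pow_ne_zero 2 (hk _ hb).1)

end Pool.Agent.Lib.MP250511.SB
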