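import Pool.Agent.Lib.MP_250511_an.SB.SpecF

/-!
# MP_250511_an, SB: module ARB (the structure of the complement in the conformal coordinate)
-/

set_option autoImplicit false

namespace Pool.Agent.Lib.MP250511.SB

open Complex Metric Set MeasureTheory Filter Topology
open scoped Real ENNReal ComplexConjugate ContDiff

namespace ARBM

/-- the logarithmic derivative of `‖h‖` along a real curve -/
theorem hasDerivAt_log_norm {h : ℝ → ℂ} {h' : ℂ} {s : ℝ} (hh : HasDerivAt h h' s)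
    (h0 : h s ≠ 0) : HasDerivAt (fun t : ℝ => Real.log ‖h t‖) ((h' / h s).re) s := by
  have h1 : HasDerivAt (fun t : ℝ => ‖h t‖ ^ 2) (2 * inner ℝ (h s) h') s := hh.norm_sq
  have hn : ‖h s‖ ^ 2 ≠ 0 := by
    have := norm_pos_iff.2 h0
    positivity
  have h2 := (h1.log hn).const_mul (1 / 2 : ℝ)
  have e : 1 / 2 * (2 * inner ℝ (h s) h' / ‖h s‖ ^ 2) = (h' / h s).re := by
    rw [Complex.inner, Complex.div_re, Complex.normSq_eq_norm_sq, Complex.mul_re, Complex.conj_re,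
      Complex.conj_im]
    ring
  rw [e] at h2
  have e2 : (fun t : ℝ => (1 / 2 : ℝ) * Real.log (‖h t‖ ^ 2)) = fun t => Real.log ‖h t‖ := by
    funext t
    rw [Real.log_pow]
    push_cast
    ring
  rwa [e2] at h2

theorem box_open (η : ℝ) : IsOpen (Box η) := by
  have h1 : IsOpen {q : ℂ | |q.re| < η} := isOpen_lt (Complex.continuous_re.abs) continuous_const
  have h2 : IsOpen {q : ℂ | |q.im| < η} := isOpen_lt (Complex.continuous_im.abs) continuous_const
  exact h1.inter h2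

theorem abs_conv {η x y a b : ℝ} (hx : |x| < η) (hy : |y| < η) (ha : 0 ≤ a) (hb : 0 ≤ b)
    (hab : a + b = 1) : |a * x + b * y| < η := by
  have h := (convex_Ioo (-η) η) (x := x) (abs_lt.1 hx) (y := y) (abs_lt.1 hy) ha hb hab
  exact abs_lt.2 h

theorem box_convex (η : ℝ) : Convex ℝ (Box η) := by
  intro x hx y hy a b ha hb hab
  refine ⟨?_, ?_⟩
  · have e : (a • x + b • y).re = a * x.re + b * y.re := by simp
    rw [e]
    exact abs_conv hx.1 hy.1 ha hb hab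
  · have e : (a • x + b • y).im = a * x.im + b * y.im := by simp
    rw [e]
    exact abs_conv hx.2 hy.2 ha hb hab

/-- the hypotheses of ARB -/
structure Hyp (f g : ℂ → ℂ) (Ω : Set ℂ) (ψ : ℂ → ℂ) (η : ℝ) : Prop where
  P : Pair f g Ω
  pos : 0 < η
  an : AnalyticOnNhd ℂ ψ (Box η)
  inj : InjOn ψ (Box η)
  eq : ∀ q ∈ Box η, ψ q ∈ Ω → qG g (ψ q) * deriv ψ q ^ 2 = 1
  null : volume (ψ '' Box η \ Ω) = 0
  out : ψ 0 ∉ Ω

open Classical in
/-- `- log ‖g ∘ ψ‖`, extended by `0` -/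
noncomputable def GG (g ψ : ℂ → ℂ) (Ω : Set ℂ) (q : ℂ) : ℝ :=
  if ψ q ∈ Ω then -Real.log ‖g (ψ q)‖ else 0

theorem GG_in {g ψ : ℂ → ℂ} {Ω : Set ℂ} {q : ℂ} (h : ψ q ∈ Ω) :
    GG g ψ Ω q = -Real.log ‖g (ψ q)‖ := if_pos h

theorem GG_out {g ψ : ℂ → ℂ} {Ω : Set ℂ} {q : ℂ} (h : ψ q ∉ Ω) : GG g ψ Ω q = 0 := if_neg h

variable {f g : ℂ → ℂ} {Ω : Set ℂ} {ψ : ℂ → ℂ} {η : ℝ}

theorem gne (H : Hyp f g Ω ψ η) {q : ℂ} (hq : q ∈ Box η) (hi : ψ q ∈ Ω) : g (ψ q) ≠ 0 := by
  intro h0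
  have := H.eq q hq hi
  rw [qG, h0, div_zero] at this
  simp at this

theorem pm (H : Hyp f g Ω ψ η) {q : ℂ} (hq : q ∈ Box η) (hi : ψ q ∈ Ω) :
    deriv g (ψ q) / g (ψ q) * deriv ψ q = 1 ∨ deriv g (ψ q) / g (ψ q) * deriv ψ q = -1 := by
  apply mul_self_eq_one_iff.1
  have := H.eq q hq hi
  rw [qG, ← mul_pow, sq] at this
  exact this

theorem GG_pos (H : Hyp f g Ω ψ η) {q : ℂ} (hq : q ∈ Box η) (hi : ψ q ∈ Ω) :
    0 < GG g ψ Ω q := by
  rw [GG_in hi]
  have h1 := Real.log_neg (norm_pos_iff.2 (gne H hq hi)) (H.P.gm _ hi)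
  linarith

theorem mem_of_GG_ne {q : ℂ} (h : GG g ψ Ω q ≠ 0) : ψ q ∈ Ω := by
  by_contra hc
  exact h (GG_out hc)

theorem nhds_in (H : Hyp f g Ω ψ η) {q : ℂ} (hq : q ∈ Box η) (hi : ψ q ∈ Ω) :
    ∀ᶠ w in 𝓝 q, w ∈ Box η ∧ ψ w ∈ Ω := by
  have h1 : ∀ᶠ w in 𝓝 q, w ∈ Box η := (box_open η).mem_nhds hq
  have h2 : ∀ᶠ w in 𝓝 q, ψ w ∈ Ω := (H.an q hq).continuousAt.eventually (H.P.op.mem_nhds hi)
  exact h1.and h2

theorem GG_cont (H : Hyp f g Ω ψ η) {q : ℂ} (hq : q ∈ Box η) : ContinuousAt (GG g ψ Ω) q := by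
  by_cases hi : ψ q ∈ Ω
  · have h1 : ContinuousAt (fun w => g (ψ w)) q :=
      ContinuousAt.comp (g := g) (H.P.gan _ hi).continuousAt (H.an q hq).continuousAt
    have h2 : ContinuousAt (fun w => -Real.log ‖g (ψ w)‖) q :=
      (h1.norm.log (norm_ne_zero_iff.2 (gne H hq hi))).neg
    refine h2.congr ?_
    filter_upwards [nhds_in H hq hi] with w hw
    exact (GG_in hw.2).symm
  · rw [Metric.continuousAt_iff']
    intro ε hε
    have hexp : Real.exp (-ε) < 1 := by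
      rw [Real.exp_lt_one_iff]
      linarith
    obtain ⟨δ, hδ, hb⟩ := H.P.bd (ψ q) hi (Real.exp (-ε)) hexp
    have h1 : ∀ᶠ w in 𝓝 q, dist (ψ w) (ψ q) < δ :=
      (Metric.continuousAt_iff'.1 (H.an q hq).continuousAt) δ hδ
    have h2 : ∀ᶠ w in 𝓝 q, w ∈ Box η := (box_open η).mem_nhds hq
    filter_upwards [h1, h2] with w hw hw2
    rw [GG_out hi, Real.dist_eq, sub_zero]
    by_cases hwi : ψ w ∈ Ω
    · have h3 := hb _ hwi hw
      have hpos := GG_pos H hw2 hwi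
      rw [abs_of_pos hpos, GG_in hwi]
      have h4 : -ε < Real.log ‖g (ψ w)‖ :=
        (Real.lt_log_iff_exp_lt (norm_pos_iff.2 (gne H hw2 hwi))).2 h3
      linarith
    · rw [GG_out hwi, abs_zero]
      exact hε

theorem GG_der (H : Hyp f g Ω ψ η) {c : ℝ → ℂ} {c' : ℂ} {t : ℝ} (hc : HasDerivAt c c' t)
    (hq : c t ∈ Box η) (hi : ψ (c t) ∈ Ω) :
    HasDerivAt (fun s => GG g ψ Ω (c s)) (-(c').re) t ∨
      HasDerivAt (fun s => GG g ψ Ω (c s)) ((c').re) t := by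
  have h1 : HasDerivAt g (deriv g (ψ (c t))) (ψ (c t)) :=
    (H.P.gan _ hi).differentiableAt.hasDerivAt
  have h2 : HasDerivAt ψ (deriv ψ (c t)) (c t) := (H.an _ hq).differentiableAt.hasDerivAt
  have h3 : HasDerivAt (fun s : ℝ => ψ (c s)) (deriv ψ (c t) * c') t :=
    HasDerivAt.comp (h₂ := ψ) t h2 hc
  have h4 : HasDerivAt (fun s : ℝ => g (ψ (c s))) (deriv g (ψ (c t)) * (deriv ψ (c t) * c')) t :=
    HasDerivAt.comp (h₂ := g) t h1 h3
  have h5 := (hasDerivAt_log_norm h4 (gne H hq hi)).neg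
  have hev : ∀ᶠ s in 𝓝 t, GG g ψ Ω (c s) = -Real.log ‖g (ψ (c s))‖ := by
    have := hc.continuousAt.eventually (nhds_in H hq hi)
    filter_upwards [this] with s hs
    exact GG_in hs.2
  have e0 : deriv g (ψ (c t)) * (deriv ψ (c t) * c') / g (ψ (c t)) =
      (deriv g (ψ (c t)) / g (ψ (c t)) * deriv ψ (c t)) * c' := by ring
  have h6 : HasDerivAt (fun s => GG g ψ Ω (c s))
      (-(deriv g (ψ (c t)) * (deriv ψ (c t) * c') / g (ψ (c t))).re) t :=
    h5.congr_of_eventuallyEq hev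
  rw [e0] at h6
  rcases pm H hq hi with h | h
  · left
    rw [h, one_mul] at h6
    exact h6
  · right
    rw [h] at h6
    simpa using h6

theorem vert (H : Hyp f g Ω ψ η) {u v : ℝ} (hu : |u| < η) (hv : |v| < η)
    (hp : 0 < GG g ψ Ω ((u : ℂ) + (v : ℂ) * I)) :
    ∀ t : ℝ, |t| < η → GG g ψ Ω ((u : ℂ) + (t : ℂ) * I) = GG g ψ Ω ((u : ℂ) + (v : ℂ) * I) := by
  have hmem : ∀ t : ℝ, |t| < η → (u : ℂ) + (t : ℂ) * I ∈ Box η := by
    intro t ht
    refine ⟨?_, ?_⟩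
    · simpa using hu
    · simpa using ht
  have hder : ∀ t : ℝ, HasDerivAt (fun s : ℝ => (u : ℂ) + (s : ℂ) * I) I t := by
    intro t
    have h1 : HasDerivAt (fun s : ℝ => (s : ℂ)) 1 t := Complex.ofRealCLM.hasDerivAt
    simpa using (h1.mul_const I).const_add (u : ℂ)
  set C : ℝ := GG g ψ Ω ((u : ℂ) + (v : ℂ) * I) with hC
  set φ : ℝ → ℝ := fun t => GG g ψ Ω ((u : ℂ) + (t : ℂ) * I) with hφ
  have hcont : ∀ t : ℝ, |t| < η → ContinuousAt φ t := by
    intro t ht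
    exact ContinuousAt.comp (g := GG g ψ Ω) (GG_cont H (hmem t ht)) (hder t).continuousAt
  have hder0 : ∀ t : ℝ, |t| < η → 0 < φ t → HasDerivAt φ 0 t := by
    intro t ht hpt
    have := GG_der H (hder t) (hmem t ht) (mem_of_GG_ne (ne_of_gt hpt))
    rcases this with h | h
    · simpa using h
    · simpa using h
  have hopen : IsOpen {t : ℝ | |t| < η ∧ φ t = C} := by
    rw [isOpen_iff_mem_nhds]
    intro t ht
    have h1 : ∀ᶠ s in 𝓝 t, |s| < η := by
      have : IsOpen {s : ℝ | |s| < η} := isOpen_lt continuous_abs continuous_const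
      exact this.mem_nhds ht.1
    have h2 : ∀ᶠ s in 𝓝 t, 0 < φ s := by
      have h3 : 0 < φ t := by
        rw [ht.2]
        exact hp
      exact (hcont t ht.1).eventually (lt_mem_nhds h3)
    obtain ⟨ε, hε, hball⟩ := Metric.eventually_nhds_iff.1 (h1.and h2)
    refine Metric.mem_nhds_iff.2 ⟨ε, hε, ?_⟩
    intro s hs
    refine ⟨(hball hs).1, ?_⟩
    have hdiff : DifferentiableOn ℝ φ (ball t ε) := fun x hx =>
      (hder0 x (hball hx).1 (hball hx).2).differentiableAt.differentiableWithinAt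
    have hz : (ball t ε).EqOn (deriv φ) 0 := fun x hx =>
      (hder0 x (hball hx).1 (hball hx).2).deriv
    have := isOpen_ball.is_const_of_deriv_eq_zero (convex_ball t ε).isPreconnected hdiff hz hs
      (mem_ball_self hε)
    rw [this]
    exact ht.2
  have hsub : Ioo (-η) η ⊆ {t : ℝ | |t| < η ∧ φ t = C} := by
    refine isPreconnected_Ioo.subset_of_closure_inter_subset hopen ⟨v, abs_lt.1 hv, hv, rfl⟩ ?_
    rintro t ⟨ht1, ht2⟩
    have ht : |t| < η := abs_lt.2 ht2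
    refine ⟨ht, ?_⟩
    have h1 : Tendsto φ (𝓝[{t : ℝ | |t| < η ∧ φ t = C}] t) (𝓝 (φ t)) :=
      (hcont t ht).tendsto.mono_left nhdsWithin_le_nhds
    have h2 : Tendsto φ (𝓝[{t : ℝ | |t| < η ∧ φ t = C}] t) (𝓝 C) := by
      refine tendsto_const_nhds.congr' ?_
      filter_upwards [self_mem_nhdsWithin] with s hs
      exact hs.2.symm
    have : (𝓝[{t : ℝ | |t| < η ∧ φ t = C}] t).NeBot := mem_closure_iff_nhdsWithin_neBot.1 ht1
    exact tendsto_nhds_unique h1 h2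
  intro t ht
  exact (hsub (abs_lt.1 ht)).2

theorem mem_box_of_re {q : ℂ} (hq : q ∈ Box η) (hη : 0 < η) : ((q.re : ℝ) : ℂ) ∈ Box η := by
  refine ⟨?_, ?_⟩
  · simpa using hq.1
  · simpa using hη

theorem mem_box_real {x : ℝ} (hx : |x| < η) : ((x : ℝ) : ℂ) ∈ Box η := by
  have hη : 0 < η := lt_of_le_of_lt (abs_nonneg _) hx
  refine ⟨?_, ?_⟩
  · simpa using hx
  · simpa using hη

theorem GG_nonneg (H : Hyp f g Ω ψ η) {q : ℂ} (hq : q ∈ Box η) : 0 ≤ GG g ψ Ω q := by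
  by_cases hi : ψ q ∈ Ω
  · exact (GG_pos H hq hi).le
  · rw [GG_out hi]

theorem GG_re (H : Hyp f g Ω ψ η) {q : ℂ} (hq : q ∈ Box η) :
    GG g ψ Ω q = GG g ψ Ω ((q.re : ℝ) : ℂ) := by
  have hz : |(0 : ℝ)| < η := by
    rw [abs_zero]
    exact H.pos
  have e1 : ((q.re : ℝ) : ℂ) + ((q.im : ℝ) : ℂ) * I = q := Complex.re_add_im q
  have e2 : ((q.re : ℝ) : ℂ) + ((0 : ℝ) : ℂ) * I = ((q.re : ℝ) : ℂ) := by simp
  rcases (GG_nonneg H hq).eq_or_lt with h | h
  · rcases (GG_nonneg H (mem_box_of_re hq H.pos)).eq_or_lt with h' | h'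
    · rw [← h, ← h']
    · have h3 := vert H (u := q.re) (v := 0) hq.1 hz (by rw [e2]; exact h') q.im hq.2
      rw [e1, e2] at h3
      exact h3
  · have h3 := vert H (u := q.re) (v := q.im) hq.1 hq.2 (by rw [e1]; exact h) 0 hz
    rw [e1, e2] at h3
    exact h3.symm

theorem open_image (H : Hyp f g Ω ψ η) : ∀ s ⊆ Box η, IsOpen s → IsOpen (ψ '' s) := by
  rcases H.an.is_constant_or_isOpen (box_convex η).isPreconnected with ⟨w, hw⟩ | h
  · exfalso
    have hη := H.pos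
    have h0 : ((0 : ℝ) : ℂ) ∈ Box η := mem_box_real (by rw [abs_zero]; exact hη)
    have h1 : ((η / 2 : ℝ) : ℂ) ∈ Box η := mem_box_real (by
      rw [abs_of_pos (by positivity)]
      linarith)
    have h2 := H.inj h0 h1 ((hw _ h0).trans (hw _ h1).symm)
    rw [Complex.ofReal_inj] at h2
    linarith
  · exact h

theorem noint (H : Hyp f g Ω ψ η) {a b : ℝ} (hab : a < b) (ha : -η < a) (hb : b < η) :
    ∃ x ∈ Ioo a b, ψ (x : ℂ) ∈ Ω := by
  by_contra hcon
  push Not at hcon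
  set s : Set ℂ := {q : ℂ | (a < q.re ∧ q.re < b) ∧ |q.im| < η} with hs
  have hsub : s ⊆ Box η := by
    intro q hq
    exact ⟨abs_lt.2 ⟨ha.trans hq.1.1, hq.1.2.trans hb⟩, hq.2⟩
  have hopen : IsOpen s := by
    have h1 : IsOpen {q : ℂ | a < q.re} := isOpen_lt continuous_const Complex.continuous_re
    have h2 : IsOpen {q : ℂ | q.re < b} := isOpen_lt Complex.continuous_re continuous_const
    have h3 : IsOpen {q : ℂ | |q.im| < η} :=
      isOpen_lt (Complex.continuous_im.abs) continuous_const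
    exact (h1.inter h2).inter h3
  have hne : s.Nonempty := by
    refine ⟨(((a + b) / 2 : ℝ) : ℂ), ⟨?_, ?_⟩, ?_⟩
    · rw [Complex.ofReal_re]
      linarith
    · rw [Complex.ofReal_re]
      linarith
    · rw [Complex.ofReal_im, abs_zero]
      exact H.pos
  have hout : ψ '' s ⊆ ψ '' Box η \ Ω := by
    rintro _ ⟨q, hq, rfl⟩
    refine ⟨mem_image_of_mem _ (hsub hq), ?_⟩
    intro hi
    have h1 := GG_pos H (hsub hq) hi
    rw [GG_re H (hsub hq), GG_out (hcon q.re hq.1)] at h1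
    exact lt_irrefl _ h1
  have hpos : 0 < volume (ψ '' s) :=
    (open_image H s hsub hopen).measure_pos volume (hne.image ψ)
  have h0 := measure_mono_null hout H.null
  rw [h0] at hpos
  exact lt_irrefl _ hpos

theorem hor_der (H : Hyp f g Ω ψ η) {x : ℝ} (hx : |x| < η) (hi : ψ (x : ℂ) ∈ Ω) :
    HasDerivAt (fun s : ℝ => GG g ψ Ω (s : ℂ)) (-1) x ∨
      HasDerivAt (fun s : ℝ => GG g ψ Ω (s : ℂ)) 1 x := by
  have h1 : HasDerivAt (fun s : ℝ => (s : ℂ)) 1 x := Complex.ofRealCLM.hasDerivAt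
  have h2 := GG_der H h1 (mem_box_real hx) hi
  simpa using h2

theorem hor_cont (H : Hyp f g Ω ψ η) {x : ℝ} (hx : |x| < η) :
    ContinuousAt (fun s : ℝ => GG g ψ Ω (s : ℂ)) x :=
  ContinuousAt.comp (g := GG g ψ Ω) (GG_cont H (mem_box_real hx))
    Complex.continuous_ofReal.continuousAt

theorem no_two (H : Hyp f g Ω ψ η) {a b : ℝ} (hab : a < b) (ha : -η < a) (hb : b < η)
    (hia : ψ (a : ℂ) ∉ Ω) (hib : ψ (b : ℂ) ∉ Ω) : False := by
  obtain ⟨x, hx, hxi⟩ := noint H hab ha hb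
  have habs : ∀ y ∈ Icc a b, |y| < η := fun y hy =>
    abs_lt.2 ⟨lt_of_lt_of_le ha hy.1, lt_of_le_of_lt hy.2 hb⟩
  have hcont : ContinuousOn (fun s : ℝ => GG g ψ Ω (s : ℂ)) (Icc a b) := fun y hy =>
    (hor_cont H (habs y hy)).continuousWithinAt
  obtain ⟨c, hc, hmax⟩ := isCompact_Icc.exists_isMaxOn (nonempty_Icc.2 hab.le) hcont
  have hpos : 0 < GG g ψ Ω (c : ℂ) :=
    lt_of_lt_of_le (GG_pos H (mem_box_real (habs x (Ioo_subset_Icc_self hx))) hxi)
      (hmax (Ioo_subset_Icc_self hx))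
  have hca : a ≠ c := by
    intro h
    rw [← h, GG_out hia] at hpos
    exact lt_irrefl _ hpos
  have hcb : c ≠ b := by
    intro h
    rw [h, GG_out hib] at hpos
    exact lt_irrefl _ hpos
  have hlm : IsLocalMax (fun s : ℝ => GG g ψ Ω (s : ℂ)) c :=
    hmax.isLocalMax (Icc_mem_nhds (lt_of_le_of_ne hc.1 hca) (lt_of_le_of_ne hc.2 hcb))
  rcases hor_der H (habs c hc) (mem_of_GG_ne (ne_of_gt hpos)) with h | h
  · have := hlm.hasDerivAt_eq_zero h
    norm_num at this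
  · have := hlm.hasDerivAt_eq_zero h
    norm_num at this

theorem in_of_ne (H : Hyp f g Ω ψ η) {x : ℝ} (hx : |x| < η) (hne : x ≠ 0) : ψ (x : ℂ) ∈ Ω := by
  by_contra hcon
  have h := abs_lt.1 hx
  have hη := H.pos
  have h0 : ψ ((0 : ℝ) : ℂ) ∉ Ω := by
    rw [Complex.ofReal_zero]
    exact H.out
  rcases lt_or_gt_of_ne hne with h1 | h1
  · exact no_two H h1 h.1 hη hcon h0
  · exact no_two H h1 (by linarith) h.2 h0 hcon

theorem GG_abs (H : Hyp f g Ω ψ η) {x : ℝ} (hx : |x| < η) : GG g ψ Ω (x : ℂ) = |x| := by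
  have h := abs_lt.1 hx
  have hη := H.pos
  have h0 : GG g ψ Ω ((0 : ℝ) : ℂ) = 0 := by
    apply GG_out
    rw [Complex.ofReal_zero]
    exact H.out
  rcases lt_trichotomy x 0 with hneg | hz | hpos
  · obtain ⟨c, hc, hslope⟩ := exists_deriv_eq_slope (fun s : ℝ => GG g ψ Ω (s : ℂ)) hneg
      (fun y hy => (hor_cont H (abs_lt.2 ⟨by linarith [hy.1], by linarith [hy.2]⟩)).continuousWithinAt)
      (fun y hy => by
        have hy' : |y| < η := abs_lt.2 ⟨by linarith [hy.1], by linarith [hy.2]⟩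
        rcases hor_der H hy' (in_of_ne H hy' hy.2.ne) with h | h
        · exact h.differentiableAt.differentiableWithinAt
        · exact h.differentiableAt.differentiableWithinAt)
    have hgp := GG_pos H (mem_box_real hx) (in_of_ne H hx hneg.ne)
    have hc' : |c| < η := abs_lt.2 ⟨by linarith [hc.1], by linarith [hc.2]⟩
    rw [abs_of_neg hneg]
    simp only [h0] at hslope
    rcases hor_der H hc' (in_of_ne H hc' hc.2.ne) with h | h
    · rw [h.deriv, eq_div_iff (by linarith)] at hslope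
      linarith
    · rw [h.deriv, eq_div_iff (by linarith)] at hslope
      linarith
  · rw [hz, h0, abs_zero]
  · obtain ⟨c, hc, hslope⟩ := exists_deriv_eq_slope (fun s : ℝ => GG g ψ Ω (s : ℂ)) hpos
      (fun y hy => (hor_cont H (abs_lt.2 ⟨by linarith [hy.1], by linarith [hy.2]⟩)).continuousWithinAt)
      (fun y hy => by
        have hy' : |y| < η := abs_lt.2 ⟨by linarith [hy.1], by linarith [hy.2]⟩
        rcases hor_der H hy' (in_of_ne H hy' hy.1.ne') with h | h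
        · exact h.differentiableAt.differentiableWithinAt
        · exact h.differentiableAt.differentiableWithinAt)
    have hgp := GG_pos H (mem_box_real hx) (in_of_ne H hx hpos.ne')
    have hc' : |c| < η := abs_lt.2 ⟨by linarith [hc.1], by linarith [hc.2]⟩
    rw [abs_of_pos hpos]
    simp only [h0] at hslope
    rcases hor_der H hc' (in_of_ne H hc' hc.1.ne') with h | h
    · rw [h.deriv, eq_div_iff (by linarith)] at hslope
      linarith
    · rw [h.deriv, eq_div_iff (by linarith)] at hslope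
      linarith

end ARBM

open ARBM in
theorem specARB : SpecARB := by
  intro f g Ω ψ η hP hη han hinj heq hnull hout q hq
  have H : Hyp f g Ω ψ η := ⟨hP, hη, han, hinj, heq, hnull, hout⟩
  have hG : GG g ψ Ω q = |q.re| := by
    rw [GG_re H hq, GG_abs H hq.1]
  refine ⟨⟨fun h => ?_, fun h => ?_⟩, fun h => ?_⟩
  · rw [GG_out h] at hG
    exact abs_eq_zero.1 hG.symm
  · intro hi
    have := GG_pos H hq hi
    rw [hG, h, abs_zero] at this
    exact lt_irrefl _ this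
  · rw [← hG, GG_in h]

end Pool.Agent.Lib.MP250511.SB
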