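import Pool.Agent.Lib.MP_250511_an.SB.SpecZ

/-!
# MP_250511_an, module AZ: the complement of every extremal domain for `S` has measure zero
-/

set_option autoImplicit false

namespace Pool.Agent.Lib.MP250511.SB

open Complex Metric Set MeasureTheory Filter Topology
open scoped Real ENNReal ComplexConjugate ContDiff

theorem specAZ (hEXF : SpecEXF) (hLCF : SpecLCF) (hZK : SpecZK) (hZL : SpecZL) : SpecAZ := by
  intro f hU hrho
  obtain ⟨g, hE⟩ := hEXF f hU hrho
  have hP : Pair f g (f '' ball 0 1) := hE.toPair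
  set Ω : Set ℂ := f '' ball 0 1 with hΩ
  have h0Ω : (0 : ℂ) ∈ Ω := ⟨0, mem_ball_self one_pos, hP.zero⟩
  have hint : interior Ωᶜ = ∅ := hZK f g Ω S.toReal hE
  have hKK : volume (KK Ω S.toReal) = 0 := hZL Ω S.toReal hE.pos hP.op
  have hloc : volume (Ωᶜ \ KK Ω S.toReal) = 0 := by
    refine measure_null_of_locally_null _ ?_
    rintro z ⟨hzΩ, hzK⟩
    have hz0 : z ≠ 0 := fun h => hzΩ (h ▸ h0Ω)
    obtain ⟨δ, hδ, _, h, _, _, hvol⟩ := hLCF f g Ω S.toReal hE z hz0 hzK
    have hne : (Ω ∩ ball z δ).Nonempty := by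
      by_contra hcon
      rw [Set.not_nonempty_iff_eq_empty] at hcon
      have hsub : ball z δ ⊆ Ωᶜ := by
        intro w hw hwΩ
        have : w ∈ Ω ∩ ball z δ := ⟨hwΩ, hw⟩
        rw [hcon] at this
        exact this
      have hzi : z ∈ interior Ωᶜ := interior_maximal hsub isOpen_ball (mem_ball_self hδ)
      rw [hint] at hzi
      exact hzi
    refine ⟨ball z δ \ Ω, ?_, hvol hne⟩
    refine mem_of_superset (inter_mem_nhdsWithin _ (ball_mem_nhds z hδ)) ?_
    rintro w ⟨⟨hwΩ, _⟩, hwb⟩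
    exact ⟨hwb, hwΩ⟩
  have hsub : Ωᶜ ⊆ (Ωᶜ \ KK Ω S.toReal) ∪ KK Ω S.toReal := by
    intro z hz
    by_cases hk : z ∈ KK Ω S.toReal
    · exact Or.inr hk
    · exact Or.inl ⟨hz, hk⟩
  exact measure_mono_null hsub (measure_union_null hloc hKK)

end Pool.Agent.Lib.MP250511.SB
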