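import Pool.Agent.Lib.MP_250511_an.Defs

/-!
# MP_250511_an : `S < S₁` (the schlicht Bloch constant is smaller than its starlike analogue)

Plan.  Suppose `S = S₁ = ρ`.  The starlike constant is attained (EXI) by a starlike `Ω = f(D)`,
`R(Ω) = f'(0) = 1`, inradius `ρ`, and by `S = S₁` every conformal map `F` of the disc onto ANY simply
connected `U ∋ 0` satisfies `ρ |F'(0)| ≤ inradius(U)` (structure `Ext`).  Let `E` be the complement,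
`KK` = the points of `E` touched by a disc of radius `ρ` in `Ω`.
(1) GRO, FRO: a bigger simply connected domain contains a disc of radius `> ρ`; the front point of
every ray of `E` is in `KK`.
(2) NOI: `E` has empty interior (`N` small pockets: the inradius grows by `C ℓ²`, `C` independent of
`N`, the conformal radius by `N c ℓ²`).
(3) FRE: every ray of `E` contains points not in `KK`.
(4) VAR, WEY, LOC: stationarity under every smooth deformation supported off `KK`: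
`(g'/g)²` (`g = f⁻¹`) extends holomorphically across the free points.
(5) K1-K5, SYM: every ray of `E` is a symmetry axis of `Ω`.
(6) FIN: there are infinitely many rays, so `Ω` is invariant under all rotations: a disc,
contradiction to (2).

Conventions.  File `Lib/MP_250511_an/SB/XXX.lean`, `import Pool.Agent.Lib.MP_250511_an.SB.Spec`,
`namespace Pool.Agent.Lib.MP250511.SB`, `theorem specXXX (hYYY : SpecYYY) .. : SpecXXX` with the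
hypotheses in the order of `Uses`, own lemmas in `namespace XXXM`.
-/

set_option autoImplicit false

namespace Pool.Agent.Lib.MP250511.SB

open Complex Metric Set MeasureTheory Filter Topology
open scoped Real ENNReal ComplexConjugate ContDiff

noncomputable section

/-! ## Definitions -/

/-- `F` maps the unit disc conformally onto `U`, and `F 0 = 0`. -/
structure Conf (F : ℂ → ℂ) (U : Set ℂ) : Prop where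
  an : AnalyticOnNhd ℂ F (ball 0 1)
  inj : InjOn F (ball 0 1)
  im : F '' ball 0 1 = U
  zero : F 0 = 0

/-- `F` maps the unit disc conformally onto `U`, `F 0 = 0`, and `G` is the inverse. -/
structure Pair (F G : ℂ → ℂ) (U : Set ℂ) : Prop extends Conf F U where
  op : IsOpen U
  dF : ∀ w ∈ ball (0 : ℂ) 1, deriv F w ≠ 0
  gan : AnalyticOnNhd ℂ G U
  gm : ∀ z ∈ U, ‖G z‖ < 1
  FG : ∀ z ∈ U, F (G z) = z
  GF : ∀ w ∈ ball (0 : ℂ) 1, G (F w) = w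
  dG : ∀ z ∈ U, deriv G z ≠ 0
  dGF : ∀ w ∈ ball (0 : ℂ) 1, deriv G (F w) * deriv F w = 1
  bd : ∀ z₀ : ℂ, z₀ ∉ U → ∀ s : ℝ, s < 1 → ∃ δ > 0, ∀ z ∈ U, dist z z₀ < δ → s < ‖G z‖

/-- An extremal starlike domain `Ω` (`f : D → Ω`, `g` its inverse) which is extremal among ALL
simply connected domains. -/
structure Ext (f g : ℂ → ℂ) (Ω : Set ℂ) (ρ : ℝ) : Prop extends Pair f g Ω where
  one : deriv f 0 = 1
  star : StarConvex ℝ (0 : ℂ) Ω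
  pos : 0 < ρ
  inr : ∀ (c : ℂ) (r : ℝ), ball c r ⊆ Ω → r ≤ ρ
  ext : ∀ (F : ℂ → ℂ) (U : Set ℂ), Conf F U → ∀ ρ' : ℝ,
    (∀ (c : ℂ) (r : ℝ), ball c r ⊆ U → r ≤ ρ') → ρ * ‖deriv F 0‖ ≤ ρ'

/-- the points of the complement touched by a disc of radius `ρ` contained in `Ω` -/
def KK (Ω : Set ℂ) (ρ : ℝ) : Set ℂ := {p | p ∉ Ω ∧ ∃ c : ℂ, ball c ρ ⊆ Ω ∧ dist p c = ρ}

/-- `p` is the first point of the complement on its ray -/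
def Front (Ω : Set ℂ) (p : ℂ) : Prop := p ∉ Ω ∧ ∀ s : ℝ, 0 ≤ s → s < 1 → (s : ℂ) * p ∈ Ω

/-- the union of the half-open segments `(0, z]`, `z ∈ ball ζ ℓ` -/
def Poc (ζ : ℂ) (ℓ : ℝ) : Set ℂ := {w | ∃ s : ℝ, 0 < s ∧ s ≤ 1 ∧ ∃ z ∈ ball ζ ℓ, w = (s : ℂ) * z}

/-- `Ω` with the first `k` pockets added -/
def UU (Ω : Set ℂ) (ζ : ℕ → ℂ) (ℓ : ℝ) (k : ℕ) : Set ℂ := Ω ∪ {w | ∃ j < k, w ∈ Poc (ζ j) ℓ}

/-- the quadratic form `x² - B y²`, `z = (x + i y) e` -/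
def Phi (B : ℝ) (e z : ℂ) : ℝ := (z * conj e).re ^ 2 - B * (z * conj e).im ^ 2

/-- a wall point `ζ`: touched by `ball c ρ ⊆ Ω` not tangentially to the ray, with a parabolic region
of the complement behind it; `(ζ - c)/ρ` is the unit normal. -/
structure Wall (Ω : Set ℂ) (ρ κ L δ M : ℝ) (c ζ : ℂ) : Prop where
  sub : ball c ρ ⊆ Ω
  dist_eq : dist ζ c = ρ
  out : ζ ∉ Ω
  norm_le : ‖ζ‖ ≤ M
  nt : κ ≤ (conj (ζ - c) * ζ).re / ρ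
  wall : ∀ α β : ℝ, |α| ≤ δ → |β| ≤ δ → L * β ^ 2 ≤ α →
    ζ + ((α : ℂ) + (β : ℂ) * I) * ((ζ - c) / (ρ : ℂ)) ∉ Ω

/-- `∂φ/∂z` -/
def dZ (φ : ℂ → ℂ) (z : ℂ) : ℂ := (fderiv ℝ φ z 1 - I * fderiv ℝ φ z I) / 2

/-- `∂φ/∂z̄` -/
def dB (φ : ℂ → ℂ) (z : ℂ) : ℂ := (fderiv ℝ φ z 1 + I * fderiv ℝ φ z I) / 2

/-- the Jacobian -/
def Jac (φ : ℂ → ℂ) (z : ℂ) : ℝ := ‖dZ φ z‖ ^ 2 - ‖dB φ z‖ ^ 2

/-- the quadratic differential `(g'/g)²` -/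
def qG (g : ℂ → ℂ) (z : ℂ) : ℂ := (deriv g z / g z) ^ 2

/-- the change of the energy density under `φ` -/
def XQ (q φ : ℂ → ℂ) (z : ℂ) : ℝ :=
  (2 * ‖q z‖ * ‖dB φ z‖ ^ 2 - 2 * (conj (dZ φ z) * dB φ z * q z).re) / Jac φ z

/-- the energy density after `φ` -/
def YQ (q φ : ℂ → ℂ) (z : ℂ) : ℝ :=
  (‖q z‖ * (‖dZ φ z‖ ^ 2 + ‖dB φ z‖ ^ 2) - 2 * (conj (dZ φ z) * dB φ z * q z).re) / Jac φ z

/-- a `C¹` diffeomorphism of the plane which is the identity off `ball z₀ δ` -/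
structure Dif (φ ψ : ℂ → ℂ) (z₀ : ℂ) (δ : ℝ) : Prop where
  sm : ContDiff ℝ 1 φ
  sm' : ContDiff ℝ 1 ψ
  l : ∀ z, ψ (φ z) = z
  r : ∀ z, φ (ψ z) = z
  id : ∀ z, z ∉ ball z₀ δ → φ z = z
  jac : ∀ z, 0 < Jac φ z

/-- local data at a real point `x₁` of the complement: `k² = (g'/g)²` on `Ω ∩ ball x₁ δ`, the
complement is radially saturated in the ball, and contains the real points of the ball. -/
structure Loc (g : ℂ → ℂ) (Ω : Set ℂ) (x₁ δ : ℝ) (k : ℂ → ℂ) : Prop where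
  pos : 0 < δ
  lt : δ < x₁
  an : AnalyticOnNhd ℂ k (ball (x₁ : ℂ) δ)
  ne : ∀ z ∈ ball (x₁ : ℂ) δ, k z ≠ 0
  pm : ∀ z ∈ Ω ∩ ball (x₁ : ℂ) δ, deriv g z / g z = k z ∨ deriv g z / g z = - k z
  rad : ∀ z ∈ ball (x₁ : ℂ) δ, z ∉ Ω → ∀ s : ℝ, 0 < s → (s : ℂ) * z ∈ ball (x₁ : ℂ) δ →
    (s : ℂ) * z ∉ Ω
  re : ∀ x : ℝ, (x : ℂ) ∈ ball (x₁ : ℂ) δ → (x : ℂ) ∉ Ω

/-! ## Two base facts -/

theorem star_mul {Ω : Set ℂ} (h : StarConvex ℝ (0 : ℂ) Ω) {z : ℂ} (hz : z ∈ Ω) {s : ℝ}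
    (h0 : 0 ≤ s) (h1 : s ≤ 1) : (s : ℂ) * z ∈ Ω := by
  have := h hz (a := 1 - s) (b := s) (by linarith) h0 (by ring)
  simpa [Complex.real_smul] using this

theorem out_mul {Ω : Set ℂ} (h : StarConvex ℝ (0 : ℂ) Ω) {z : ℂ} (hz : z ∉ Ω) {s : ℝ}
    (h1 : 1 ≤ s) : (s : ℂ) * z ∉ Ω := by
  intro hs
  apply hz
  have hs0 : (s : ℂ) ≠ 0 := by
    rw [Complex.ofReal_ne_zero]
    linarith
  have := star_mul h hs (s := s⁻¹) (inv_nonneg.2 (by linarith)) (inv_le_one_of_one_le₀ h1)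
  rwa [Complex.ofReal_inv, ← mul_assoc, inv_mul_cancel₀ hs0, one_mul] at this

/-! ## Conformal maps -/

/-- PAI [100].  Uses: nothing.  Proof: `G = Function.invFunOn F (ball 0 1)`.  Everything but `bd` is in
`Pool/Agent/Lib/MP_250511_an/INV.lean` (`INVM.open_image`, `inv_cont`, `deriv_ne_of_inj`, `specINV`;
differentiable at every point of the open set `U` gives `AnalyticOnNhd`).  `bd`: for `s < 0` every `δ`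
works; for `0 ≤ s < 1` the set `F '' closedBall 0 s` is compact, so closed, and does not contain
`z₀ ∉ U`; take `δ` with `ball z₀ δ` disjoint from it. -/
def SpecPAI : Prop := ∀ (F : ℂ → ℂ) (U : Set ℂ), Conf F U → ∃ G : ℂ → ℂ, Pair F G U

/-- RMT [90].  Riemann mapping theorem.  Uses: nothing.  Proof: Mathlib's
`Complex.exists_mapsTo_unitBall_injOn_deriv_ne_zero` gives an injective holomorphic `h` from `U` into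
the disc; `D' = {h z - h 0 : z ∈ U}` is open (open mapping), bounded, simply connected (`h` is a
homeomorphism onto its image, `Topology.IsEmbedding.isSimplyConnected_image` on the subtype) and
contains `0`; `MP87.RMT.main` of `Pool/Agent/Lib/MP_87ece0_an/Lower.lean` gives
`F₁ : D' → D` bijective holomorphic with `F₁ 0 = 0`; `F` = the inverse of `z ↦ F₁ (h z - h 0)`
(`Function.invFunOn`, holomorphic: see `INVM` in `Lib/MP_250511_an/INV.lean`). -/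
def SpecRMT : Prop := ∀ U : Set ℂ, IsOpen U → IsSimplyConnected U → U ≠ univ → (0 : ℂ) ∈ U →
  ∃ F : ℂ → ℂ, Conf F U

/-- GAN [120].  The gain lemma.  Uses: nothing.  Proof: `p ≠ 0` as `h 0 = 0`.  With
`φ_a z = (z - a)/(1 - conj a z)`, `φ_p ∘ h` is zero free on the disc, so it has a holomorphic square
root `s` (the disc is simply connected: `Complex.exists_continuousOn_pow_eq` or a holomorphic
logarithm, `DifferentiableOn.isExactOn_ball`), `|s| < 1`, `b = s 0`, `|b|² = |p|`.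
`H = φ_b ∘ s` maps the disc to itself, `H 0 = 0`, so `|H' 0| ≤ 1`, i.e. `|s' 0| ≤ 1 - |b|²`; and
`2 b s'(0) = (1 - |p|²) h'(0)`.  Hence `|h' 0| ≤ 2 |b| (1 - |p|) / (1 - |p|²) = 2 √a / (1 + a)`,
`a = |p|`, and `2 √a/(1 + a) = 1 - (1 - √a)²/(1 + a) ≤ 1 - (1 - a)²/8`. -/
def SpecGAN : Prop := ∀ h : ℂ → ℂ, AnalyticOnNhd ℂ h (ball 0 1) → (∀ z ∈ ball (0 : ℂ) 1, ‖h z‖ < 1) →
  h 0 = 0 → ∀ p : ℂ, ‖p‖ < 1 → (∀ z ∈ ball (0 : ℂ) 1, h z ≠ p) →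
  ‖deriv h 0‖ ≤ 1 - (1 - ‖p‖) ^ 2 / 8

/-- PIK [100].  Schwarz-Pick.  Uses: nothing.  Proof: let `a = G c`, `b = G z`, and
`φ = (b - a)/(1 - conj a b)`.  The Schwarz lemma for `φ_a ∘ G` on `ball c r` gives
`|φ| ≤ dist z c / r ≤ s` (`0 ≤ s`).  From `1 - |φ|² = (1 - |a|²)(1 - |b|²)/|1 - conj a b|²
≤ (1 - |a|²)(1 - |b|²)/(1 - |a||b|)²` one gets `||b| - |a||/(1 - |a||b|) ≤ |φ| ≤ s`, so
`|b| ≤ (|a| + s)/(1 + s|a|)` and `1 - |b| ≥ (1 - s)(1 - |a|)/(1 + s |a|) ≥ (1 - s)(1 - |a|)/2`; the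
same with `a`, `b` exchanged. -/
def SpecPIK : Prop := ∀ (G : ℂ → ℂ) (c : ℂ) (r : ℝ), AnalyticOnNhd ℂ G (ball c r) →
  (∀ z ∈ ball c r, ‖G z‖ < 1) → ∀ z ∈ ball c r, ∀ s : ℝ, s < 1 → dist z c ≤ s * r →
  (1 - s) * (1 - ‖G c‖) / 2 ≤ 1 - ‖G z‖ ∧ (1 - s) * (1 - ‖G z‖) / 2 ≤ 1 - ‖G c‖

/-! ## Enlargements -/

/-- STC [30].  Uses: nothing.  Proof: star-convex nonempty sets are contractible
(`StarConvex.contractibleSpace`), contractible spaces are simply connected. -/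
def SpecSTC : Prop := ∀ U : Set ℂ, StarConvex ℝ (0 : ℂ) U → (0 : ℂ) ∈ U → IsSimplyConnected U

/-- POC [80].  Uses: nothing.  Proof: `Poc ζ ℓ` is the union over `0 < s ≤ 1` of the images of
`ball ζ ℓ` under `z ↦ s z` (homeomorphisms), so open; if `w = s z` and `0 < t ≤ 1` then
`t w = (t s) z ∈ Poc`, and `0 ∈ Ω`. -/
def SpecPOC : Prop := (∀ (ζ : ℂ) (ℓ : ℝ), IsOpen (Poc ζ ℓ)) ∧
  (∀ (Ω : Set ℂ) (ζ : ℕ → ℂ) (ℓ : ℝ) (k : ℕ), IsOpen Ω → StarConvex ℝ (0 : ℂ) Ω → (0 : ℂ) ∈ Ω →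
    IsOpen (UU Ω ζ ℓ k) ∧ StarConvex ℝ (0 : ℂ) (UU Ω ζ ℓ k)) ∧
  (∀ (Ω : Set ℂ) (ζ : ℂ) (ℓ : ℝ), IsOpen Ω → StarConvex ℝ (0 : ℂ) Ω → (0 : ℂ) ∈ Ω →
    IsOpen (Ω ∪ Poc ζ ℓ) ∧ StarConvex ℝ (0 : ℂ) (Ω ∪ Poc ζ ℓ))

/-- GRO [100].  Uses: PAI RMT GAN.  A bigger simply connected domain contains a bigger disc.  Proof: if
`U = univ` take a big ball.  Otherwise suppose that all balls in `U` have radius `≤ ρ`; let `F`, `G`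
be a `Pair` for `U` (RMT, PAI; `0 = f 0 ∈ Ω ⊆ U`).  `Ext.ext` with `ρ' = ρ` gives `|F'(0)| ≤ 1`.  Let
`p₀ ∈ U \ Ω`, `p = G p₀`; `h = G ∘ f` is analytic from the disc to the disc, `h 0 = 0`, omits `p`
(`h w = p` gives `f w = F p = p₀ ∉ Ω`), so `|h'(0)| ≤ 1 - (1-|p|)²/8 < 1` by GAN; but
`f = F ∘ h`, so `1 = |f'(0)| = |F'(0)| |h'(0)| < 1`. -/
def SpecGRO : Prop := ∀ (f g : ℂ → ℂ) (Ω : Set ℂ) (ρ : ℝ), Ext f g Ω ρ → ∀ U : Set ℂ, IsOpen U →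
  IsSimplyConnected U → Ω ⊆ U → U ≠ Ω → ∃ (c : ℂ) (r : ℝ), ball c r ⊆ U ∧ ρ < r

/-- KCL [80].  Uses: nothing.  Proof: if `ball (c_n) ρ ⊆ Ω` and `c_n → c` then `ball c ρ ⊆ Ω` (a point
`z` with `|z - c| < ρ` has `|z - c_n| < ρ` for large `n`).  So the set in the second statement is
closed and bounded.  First statement: `p_n → p`, `p_n ∈ KK`, centres `c_n` bounded, take a convergent
subsequence; `Ωᶜ` is closed. -/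
def SpecKCL : Prop := ∀ (Ω : Set ℂ) (ρ : ℝ), 0 < ρ → IsOpen Ω → IsClosed (KK Ω ρ) ∧
  ∀ M : ℝ, IsCompact {c : ℂ | ball c ρ ⊆ Ω ∧ ‖c‖ ≤ M}

/-- PER [150].  Uses: nothing.  Perturbations away from `KK` do not change the inradius.  Proof: if not,
then for infinitely many `n` there are `c`, `r > ρ` with `ball c r` disjoint from `En n`; as
`ball c r ⊄ Ω` it contains some `e ∉ Ω`, `e ∉ En n`, so `e ∈ Z` (for large `n`).  Replace the ball by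
`ball c' r'` with `r' = min r (ρ + 1/(n+1))`, `c' = c + (e - c)(r - r')/r`: it is contained in
`ball c r`, and `|c' - e| = |c - e| r'/r < r'`.  Pass to a subsequence: `e_n → e ∈ Z`, `e ∉ Ω`
(closed), `c'_n → c`, `r'_n → ρ`, `|e - c| ≤ ρ`.  `ball c ρ ⊆ Ω`: if `x ∈ ball c ρ`, `x ∉ Ω`, take
`u n ∈ En n`, `u n → x`; then `|u n - c'_n| < ρ < r'_n` for large `n` of the subsequence,
contradiction.  So `|e - c| = ρ` and `e ∈ KK ∩ Z`. -/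
def SpecPER : Prop := ∀ (Ω : Set ℂ) (ρ : ℝ), 0 < ρ → IsOpen Ω →
  (∀ (c : ℂ) (r : ℝ), ball c r ⊆ Ω → r ≤ ρ) → ∀ Z : Set ℂ, IsCompact Z → Disjoint Z (KK Ω ρ) →
  ∀ En : ℕ → Set ℂ, (∀ᶠ n in atTop, ∀ e, e ∉ Ω → e ∉ Z → e ∈ En n) →
  (∀ e, e ∉ Ω → ∃ u : ℕ → ℂ, (∀ᶠ n in atTop, u n ∈ En n) ∧ Tendsto u atTop (𝓝 e)) →
  ∀ᶠ n in atTop, ∀ (c : ℂ) (r : ℝ), (∀ e ∈ En n, e ∉ ball c r) → r ≤ ρ

/-- FRO [150].  Uses: GRO STC POC KCL PER.  Front points are touched.  Proof: suppose `p ∉ KK`; by KCL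
there is `d > 0` with `Z = closedBall p d` disjoint from `KK`.  `U_n = Ω ∪ Poc p (1/(n+1))` is open and
star-convex (POC), so simply connected (STC), and contains `p ∉ Ω`; so by GRO it contains a ball of
radius `> ρ`.  PER with `En n = (U_n)ᶜ` gives a contradiction: (a) for large `n`,
`Poc p (1/(n+1)) \ Ω ⊆ Z`: let `w = s z`, `|z - p| < 1/(n+1)`; for `s ≤ 1 - t` the point `s p` is in
the compact segment `[0, (1-t) p] ⊆ Ω`, which has a neighbourhood of some size `ε(t)` in `Ω`, so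
`w ∈ Ω` if `1/(n+1) < ε(t)`; for `s > 1 - t`, `|w - p| ≤ t |p| + 1/(n+1)`.  (b) for `e ∉ Ω`, `e ≠ p`,
the same estimate shows `e ∉ Poc p (1/(n+1))` for large `n`, so `u n = e` works; for `e = p` take
`u n = (1 + 2/((n+1)|p|)) p`: it is not in `Ω` (`out_mul`) and its norm is `> |p| + 1/(n+1)`, while
the points of `Poc p (1/(n+1))` have norm `< |p| + 1/(n+1)`. -/
def SpecFRO : Prop := ∀ (f g : ℂ → ℂ) (Ω : Set ℂ) (ρ : ℝ), Ext f g Ω ρ → ∀ p : ℂ, Front Ω p →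
  p ∈ KK Ω ρ

/-! ## The complement has empty interior -/

/-- WAA [200].  Uses: FRO KCL.  Contact points of hyperbolas.  Proof: let `M = |w₀| + δ₀` and
`ball 0 c₀ ⊆ Ω`.  For `z ≠ 0` with `s z ∈ ball w₀ δ₀`, `s > 0`, the point `(M/|z|) z` is not in `Ω`
(`out_mul`).  So on such rays there is a front point `t z`, `t = inf {t ≥ 0 : t z ∉ Ω}` (closed set),
with norm in `[c₀, M]`.  Choose `B` large and `η` small so that for unit `e` with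
`|e - w₀/|w₀|| ≤ η` every `z` with `x > 0`, `B y² ≤ x²` (`z = (x + i y) e`) satisfies
`|z/|z| - w₀/|w₀|| ≤ η + 2/√B < δ₀/|w₀|`, so lies on such a ray.  Fix `e`, let `m` be the supremum of
`Phi B e p` over the front points `p` with `x > 0`, `Phi B e p > 0`; the front point on the ray of `e`
gives `m ≥ c₀²`, and `Phi ≤ |p|² ≤ M²`.  A maximising sequence has a convergent subsequence with limit
`ζ`; `c₀ ≤ |ζ| ≤ M`, `Phi ζ = m`, `x(ζ) ≥ 0` and `x(ζ)² ≥ m ≥ c₀²` so `x(ζ) ≥ c₀`; `ζ ∈ KK` by FRO and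
KCL.  If `x(z) > 0`, `Phi z ≥ m` and `z ∈ Ω` then the front point of the ray of `z` is `s z`, `s > 1`,
and `Phi (s z) = s² Phi z > m`, contradiction. -/
def SpecWAA : Prop := ∀ (f g : ℂ → ℂ) (Ω : Set ℂ) (ρ : ℝ), Ext f g Ω ρ → ∀ (w₀ : ℂ) (δ₀ : ℝ),
  0 < δ₀ → ball w₀ δ₀ ⊆ Ωᶜ → ∃ B η c₀ M : ℝ, 1 < B ∧ 0 < η ∧ 0 < c₀ ∧ c₀ ≤ M ∧
  ∀ e : ℂ, ‖e‖ = 1 → ‖e - w₀ / (‖w₀‖ : ℂ)‖ ≤ η → ∃ (ζ : ℂ) (m : ℝ), ζ ∈ KK Ω ρ ∧ c₀ ≤ ‖ζ‖ ∧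
    ‖ζ‖ ≤ M ∧ c₀ ^ 2 ≤ m ∧ Phi B e ζ = m ∧ c₀ ≤ (ζ * conj e).re ∧
    ∀ z : ℂ, 0 < (z * conj e).re → m ≤ Phi B e z → z ∉ Ω

/-- WAB [200].  Uses: nothing.  From a contact point to a wall.  Proof: let `n = (ζ - c)/ρ` (unit),
`ν = (1 - B) ζ + (1 + B) conj ζ e²` (the gradient): `Phi (ζ + h) = Phi ζ + Re (conj ν h) + Phi h`,
`Re (conj ν ζ) = 2 m`.  (1) For `h` with `Re (conj n h) < 0` and small `t > 0`, `ζ + t h ∈ ball c ρ ⊆ Ω`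
so `Phi (ζ + t h) < m` (as `x > 0` there), so `Re (conj ν h) ≤ 0` (`t → 0`).  Taking `h = (-ε ± i) n`,
`ε → 0`, and `h = - n`: `ν = a n` with `a ≥ 0` real, `a = ‖ν‖`; this is the first claim.  (2)
`a Re (conj n ζ) = 2 m ≥ 2 c₀²`, `2 c₀²/M ≤ a ≤ 2 (1 + B) M`; so `Re (conj n ζ) ≥ c₀²/((1+B) M)`
`= κ`.  (3) for `h = (α + i β) n`: `Phi (ζ + h) - m = a α + Phi h ≥ (2c₀²/M) α - B (α² + β²) ≥ 0` if
`L β² ≤ α ≤ δ`, `L = B M / c₀²`, `δ ≤ c₀²/(B M)`, and the real part stays positive if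
`2 δ ≤ c₀/2`. -/
def SpecWAB : Prop := ∀ (ρ B c₀ M : ℝ), 0 < ρ → 1 < B → 0 < c₀ → c₀ ≤ M →
  ∃ κ > 0, ∃ L > 0, ∃ δ > 0, ∀ (Ω : Set ℂ) (e ζ c : ℂ) (m : ℝ), ‖e‖ = 1 → ball c ρ ⊆ Ω →
    dist ζ c = ρ → ζ ∉ Ω → c₀ ≤ ‖ζ‖ → ‖ζ‖ ≤ M → c₀ ^ 2 ≤ m → Phi B e ζ = m →
    c₀ ≤ (ζ * conj e).re → (∀ z : ℂ, 0 < (z * conj e).re → m ≤ Phi B e z → z ∉ Ω) →
    (((1 - B : ℝ) : ℂ) * ζ + ((1 + B : ℝ) : ℂ) * conj ζ * e ^ 2 =
      (‖((1 - B : ℝ) : ℂ) * ζ + ((1 + B : ℝ) : ℂ) * conj ζ * e ^ 2‖ : ℂ) * ((ζ - c) / (ρ : ℂ))) ∧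
    ((1 - B : ℝ) : ℂ) * ζ + ((1 + B : ℝ) : ℂ) * conj ζ * e ^ 2 ≠ 0 ∧
    Wall Ω ρ κ L δ M c ζ

/-- WAL [150].  Uses: WAA WAB.  Infinitely many uniform wall points.  Proof: let `ball w₀ δ₀ ⊆ Ωᶜ`;
`w₀ ≠ 0` (as `0 ∈ Ω`).  Take unit vectors `e_j = (w₀/|w₀|) exp(i η'/(j+1))`, `η' ≤ η` and `η' < 1`,
pairwise distinct and `e_i ≠ - e_j`; WAA gives `ζ_j, m_j`, `ζ_j ∈ KK` gives `c_j`, WAB gives the walls.
Injectivity: suppose `ζ_i = ζ_j = ζ`.  Apply WAB to `e_i` and `e_j` with the SAME `c = c_i`: the two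
vectors `u = A + b e_i²`, `v = A + b e_j²`, `A = (1-B) ζ`, `b = (1+B) conj ζ`, are nonzero and both
positive multiples of `(ζ - c)/ρ`, so `u = λ v`, `λ > 0`.  `|u - A| = |b| = |v - A|` and `|b| > |A|`:
from `λ²|v|² - 2λ Re(conj A v) = |v|² - 2 Re(conj A v) = |b|² - |A|² > 0`; if `λ ≠ 1` then
`2 Re (conj A v) = (λ+1)|v|²`, so `|b|² - |A|² = -λ |v|² < 0`, contradiction.  So `u = v`,
`e_i² = e_j²`, `e_i = e_j`. -/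
def SpecWAL : Prop := ∀ (f g : ℂ → ℂ) (Ω : Set ℂ) (ρ : ℝ), Ext f g Ω ρ → (interior Ωᶜ).Nonempty →
  ∃ κ > 0, ∃ L > 0, ∃ δ > 0, ∃ M > 0, ∃ c ζ : ℕ → ℂ, Function.Injective ζ ∧
    ∀ j, Wall Ω ρ κ L δ M (c j) (ζ j)

/-- PKA [120].  Uses: nothing.  Pockets are local.  Proof: let `w = s z`, `z = ζ + ξ`, `|ξ| < ℓ`, and
`τ = A ℓ`, `A = 4/κ`.  `(1-τ) z - c = (ζ - c) + ξ - τ z`, so
`|(1-τ) z - c|² = ρ² + 2 Re (conj (ζ-c) (ξ - τ z)) + |ξ - τ z|²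
≤ ρ² + 2 ρ ℓ - 2 τ (ρ κ - ρ ℓ) + (ℓ + τ (M+1))²`, and for `ℓ ≤ min(1, κ/2)` this is at most
`ρ² + 2ρℓ - τ ρ κ + ℓ² (1 + A (M+1))² = ρ² - 2ρℓ + ℓ² (1 + A (M+1))² < ρ²` for small `ℓ`.  So
`(1-τ) z ∈ ball c ρ ⊆ Ω`; if `s ≤ 1 - τ` then `w = s z ∈ Ω` by star-convexity.  So `s > 1 - τ` and
`|w - ζ| ≤ |z - ζ| + (1 - s) |z| ≤ ℓ + A ℓ (M + 1)`; `C = 1 + A (M + 1)`. -/
def SpecPKA : Prop := ∀ (ρ κ M : ℝ), 0 < ρ → 0 < κ → 0 < M → ∃ C ≥ 1, ∃ ℓ₀ > 0,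
  ∀ (Ω : Set ℂ) (c ζ : ℂ) (ℓ : ℝ), StarConvex ℝ (0 : ℂ) Ω → ball c ρ ⊆ Ω → dist ζ c = ρ →
    ‖ζ‖ ≤ M → κ ≤ (conj (ζ - c) * ζ).re / ρ → 0 < ℓ → ℓ ≤ ℓ₀ →
    ∀ w ∈ Poc ζ ℓ, w ∉ Ω → ‖w - ζ‖ ≤ C * ℓ

/-- PKB [220].  Uses: PKA.  The inradius of the domain with `N` pockets.  Proof: `C₁` from PKA,
`D = 3 C₁ ℓ`.  Let `σ > 0` be smaller than all `|ζ_i - ζ_j|`, `i ≠ j < N`.  Last claim: if
`ζ_k ∈ Poc ζ_j ℓ`, `j < k`, then (`ζ_k ∉ Ω`) `|ζ_k - ζ_j| ≤ C₁ ℓ < σ`.  Let `ball c' r' ⊆ UU`,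
`r' > ρ`.  Let `p ∈ ball c' r'`, `p ∉ Ω`, so `p ∈ Poc ζ_j ℓ`, `|p - ζ_j| ≤ C₁ ℓ`.  With
`n = (ζ_j - c_j)/ρ` write `p = ζ_j + (α₀ + i β₀) n`.  `|p - c_j| ≥ ρ` gives
`2 ρ α₀ + α₀² + β₀² ≥ 0`, so `α₀ ≥ -(C₁ℓ)²/(2ρ)`.  Put `α' = α₀ + (C₁ℓ)²/(2ρ) + L (4 C₁ ℓ)²`,
`s_± = ζ_j + (α' + i (β₀ ± D)) n`; `α' ≥ L (β₀ ± D)²`, so `s_± ∉ Ω` (wall; small `ℓ`).
`s_± ∉ Poc ζ_j ℓ` since otherwise `|s_± - ζ_j| ≤ C₁ ℓ`, but `|β₀ ± D| ≥ 2 C₁ ℓ`; `s_± ∉ Poc ζ_i ℓ`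
for `i ≠ j` since otherwise `|ζ_i - ζ_j| ≤ C₁ ℓ + |α'| + 4 C₁ ℓ < σ`.  So `s_± ∉ UU`,
`|s_± - c'| ≥ r'`.  `p' = (s_+ + s_-)/2 = ζ_j + (α' + i β₀) n`, parallelogram law:
`|p' - c'|² = (|s_+ - c'|² + |s_- - c'|²)/2 - D² ≥ r'² - 9 C₁² ℓ²`, so
`|p' - c'| ≥ r' - 9 C₁² ℓ²/ρ` (if `9 C₁²ℓ² ≤ ρ²`), and `|p - p'| = α' - α₀ = C₂ ℓ²`.  So
`|p - c'| ≥ r' - C ℓ²`, `C = C₂ + 9 C₁²/ρ`; hence `ball c' (r' - C ℓ²) ⊆ Ω` and `r' ≤ ρ + C ℓ²`.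
`C` does not depend on `N`. -/
def SpecPKB : Prop := ∀ (Ω : Set ℂ) (ρ κ L δ M : ℝ), 0 < ρ → 0 < κ → 0 < L → 0 < δ → 0 < M →
  StarConvex ℝ (0 : ℂ) Ω → (∀ (c : ℂ) (r : ℝ), ball c r ⊆ Ω → r ≤ ρ) → ∀ c ζ : ℕ → ℂ,
  Function.Injective ζ → (∀ j, Wall Ω ρ κ L δ M (c j) (ζ j)) → ∃ C > 0, ∀ N : ℕ, ∃ ℓ₁ > 0,
  ∀ ℓ : ℝ, 0 < ℓ → ℓ ≤ ℓ₁ →
    (∀ (c' : ℂ) (r' : ℝ), ball c' r' ⊆ UU Ω ζ ℓ N → r' ≤ ρ + C * ℓ ^ 2) ∧
    (∀ k < N, ζ k ∉ UU Ω ζ ℓ k)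

/-- PKC [120].  Uses: PIK KCL.  Proof: the set `{c : ball c ρ ⊆ Ω, ‖c‖ ≤ M + ρ}` is compact and
contained in `Ω` (`c ∈ ball c ρ`), so `‖g‖ ≤ b₁ < 1` on it (empty set: any `b₁`).  `h = G ∘ f` maps the
disc to the disc, `h 0 = 0`, so `‖G c‖ = ‖h (g c)‖ ≤ ‖g c‖ ≤ b₁` (Schwarz; `f 0 = 0`, `G (F 0) = 0`).
Let `z' = ζ - (ℓ/2)(ζ - c)/ρ`.  PIK on `ball c ρ`, `s = 1 - ℓ/(2ρ)`:
`1 - ‖G z'‖ ≥ (ℓ/(2ρ)) (1 - b₁)/2`.  PIK (second part) on `ball ζ ℓ`, `s = 1/2`: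
`1 - ‖G ζ‖ ≥ (1/2)(1 - ‖G z'‖)/2`.  So `b = (1 - b₁)/(16 ρ)`. -/
def SpecPKC : Prop := ∀ (f g : ℂ → ℂ) (Ω : Set ℂ) (ρ : ℝ), Ext f g Ω ρ → ∀ M : ℝ, ∃ b > 0,
  ∀ (c ζ : ℂ) (ℓ : ℝ) (U : Set ℂ) (F G : ℂ → ℂ), ball c ρ ⊆ Ω → dist ζ c = ρ → ‖ζ‖ ≤ M →
    0 < ℓ → ℓ ≤ ρ → Pair F G U → Ω ⊆ U → ball ζ ℓ ⊆ U → b * ℓ ≤ 1 - ‖G ζ‖

/-- PKD [150].  Uses: PAI RMT GAN STC POC.  The gain of `N` pockets.  Proof: by induction on `k ≤ N`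
there is `F_k` with `Conf F_k (UU Ω ζ ℓ k)` and `1 + k x ≤ ‖F_k'(0)‖`, `x = (bℓ)²/8`.  `k = 0`:
`F_0 = f`, `UU Ω ζ ℓ 0 = Ω`.  Step: `U' = UU Ω ζ ℓ (k+1)` is open, star-convex, so simply connected, and
`≠ univ` (it is contained in `UU Ω ζ ℓ N ≠ univ`), so it has a `Pair F G` (RMT, PAI).  `h = G ∘ F_k`
maps the disc to the disc, `h 0 = 0`, omits `p = G (ζ k)` (`h w = p` gives `F_k w = F (G ζ_k) = ζ_k`,
not in `UU Ω ζ ℓ k`); `1 - ‖p‖ ≥ b ℓ`, so `‖h'(0)‖ ≤ 1 - x` by GAN, `F_k = F ∘ h`,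
`‖F'(0)‖ ≥ ‖F_k'(0)‖/(1 - x) ≥ (1 + k x)(1 + x) ≥ 1 + (k+1) x` (`0 < x < 1`; `b ℓ ≤ 1`). -/
def SpecPKD : Prop := ∀ (f g : ℂ → ℂ) (Ω : Set ℂ) (ρ : ℝ), Ext f g Ω ρ → ∀ (b ℓ : ℝ) (N : ℕ)
  (ζ : ℕ → ℂ), 0 < b → 0 < ℓ → b * ℓ ≤ 1 → UU Ω ζ ℓ N ≠ univ → (∀ k < N, ζ k ∉ UU Ω ζ ℓ k) →
  (∀ k < N, ∀ (U : Set ℂ) (F G : ℂ → ℂ), Pair F G U → Ω ⊆ U → ball (ζ k) ℓ ⊆ U →
    b * ℓ ≤ 1 - ‖G (ζ k)‖) →
  ∃ F : ℂ → ℂ, Conf F (UU Ω ζ ℓ N) ∧ 1 + N * ((b * ℓ) ^ 2 / 8) ≤ ‖deriv F 0‖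

/-- NOI [80].  Uses: WAL PKB PKC PKD.  Proof: otherwise WAL gives walls, PKB `C`, PKC `b`; take `N` with
`ρ N b²/8 > C`, then `ℓ ≤ min(ℓ₁, ρ, 1/b)`; PKD gives `F`, and `Ext.ext` with
`ρ' = ρ + C ℓ²` gives `ρ (1 + N b² ℓ²/8) ≤ ρ + C ℓ²`, contradiction.  (`UU ≠ univ` since the radii of
balls in `UU` are bounded.) -/
def SpecNOI : Prop := ∀ (f g : ℂ → ℂ) (Ω : Set ℂ) (ρ : ℝ), Ext f g Ω ρ → interior Ωᶜ = ∅

/-! ## Free points -/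

/-- FLT [150].  Uses: nothing.  No flat strips.  Proof: suppose `ball (x e + ρ n) ρ ⊆ Ω` for all
`x ∈ I = Ioo r₁ r₂` (`e, n` orthonormal).  (1) `x e + 2ρ n ∉ Ω` for `x ∈ I`: otherwise
`ball (x e + 2ρ n) η₀ ⊆ Ω`, and for small `η > 0` the ball with centre `x e + (ρ+η) n` and radius
`ρ + η` is contained in `Ω` (contradiction): let `X e + Y n` be one of its points, so `0 < Y`,
`(X-x)² + (Y-ρ)² < ρ² + 2ηY`, `Y < 2ρ + 2η`; let `[x-d, x+d] ⊆ I`.  If `|X - x| ≤ d` and `Y < 2ρ` it is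
in `ball (X e + ρ n) ρ`; if `Y ≥ 2ρ` then `(X-x)² < 2ηY ≤ 2η(2ρ+2η)` is small and the point is in
`ball (x e + 2ρ n) η₀`; if `|X - x| > d`, with `x' = x ± d` (sign of `X - x`),
`(X-x')² ≤ (X-x)² - d²`, so `(X-x')² + (Y-ρ)² < ρ² + 2ηY - d² ≤ ρ²` for small `η`.  (2) the open
nonempty set `{α e + β n : β > 2ρ, r₁ < 2ρα/β < r₂}` is contained in `Ωᶜ` (it is
`s (x e + 2ρ n)`, `s = β/(2ρ) > 1`, `x = 2ρα/β`; `out_mul`), contradiction. -/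
def SpecFLT : Prop := ∀ (Ω : Set ℂ) (ρ : ℝ), 0 < ρ → IsOpen Ω → StarConvex ℝ (0 : ℂ) Ω →
  (∀ (c : ℂ) (r : ℝ), ball c r ⊆ Ω → r ≤ ρ) → interior Ωᶜ = ∅ → ∀ e n : ℂ, ‖e‖ = 1 →
  (n = I * e ∨ n = -(I * e)) → ∀ r₁ r₂ : ℝ, r₁ < r₂ →
  ¬ ∀ x ∈ Ioo r₁ r₂, ball ((x : ℂ) * e + (ρ : ℂ) * n) ρ ⊆ Ω

/-- FRE [150].  Uses: FLT.  Every ray of the complement has a free point.  Proof: suppose `s p ∈ KK` for
all `s > 1`.  Let `e = p/|p|`.  For `s > 1` there is `c` with `ball c ρ ⊆ Ω`, `|s p - c| = ρ`; the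
points `s' p`, `s' ≥ 1`, are not in `Ω` (`out_mul`), so `|s' p - c|² ≥ ρ²` with equality at `s' = s`;
expanding in `s' - s` (both signs) gives `Re (conj p (c - s p)) = 0`, so `c = s p ± ρ i e`.  Let `R_±`
be the set of `s > 1` with `ball (s p ± ρ i e) ρ ⊆ Ω`: relatively closed in `(1, ∞)`, and
`R_+ ∪ R_- = (1, ∞)`.  If `R_+` contains an open interval we are done by FLT (`x = s |p|`);
otherwise `R_-` is dense in `(1, ∞)`, so all of it, and FLT applies to `R_-`. -/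
def SpecFRE : Prop := ∀ (Ω : Set ℂ) (ρ : ℝ), 0 < ρ → IsOpen Ω → StarConvex ℝ (0 : ℂ) Ω →
  (∀ (c : ℂ) (r : ℝ), ball c r ⊆ Ω → r ≤ ρ) → interior Ωᶜ = ∅ → ∀ p : ℂ, p ≠ 0 → p ∉ Ω →
  ∃ s : ℝ, 1 < s ∧ (s : ℂ) * p ∉ KK Ω ρ

/-- RAD [80].  Uses: FRO.  Radial saturation off `KK`.  Proof: `s ≥ 1`: `out_mul`.  Let `s < 1` and
suppose `s z ∈ Ω`; `s* = inf {t ≥ 0 : t z ∉ Ω}` (closed set containing `1`), `s < s* ≤ 1`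
(`star_mul`), `s* z` is a front point, so in `KK` by FRO, and it is on the segment from `s z` to `z`,
so in the ball: contradiction. -/
def SpecRAD : Prop := ∀ (f g : ℂ → ℂ) (Ω : Set ℂ) (ρ : ℝ), Ext f g Ω ρ → ∀ (z₀ : ℂ) (δ : ℝ),
  Disjoint (ball z₀ δ) (KK Ω ρ) → ∀ z ∈ ball z₀ δ, z ∉ Ω → ∀ s : ℝ, 0 < s →
  (s : ℂ) * z ∈ ball z₀ δ → (s : ℂ) * z ∉ Ω

/-! ## The variation -/

/-- DIF [180].  Uses: nothing.  Proof: `v` is `C^∞` with compact support, so `‖Dv‖ ≤ K`, `v` is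
`K`-Lipschitz.  For `|ε| K ≤ 1/2`, `φ = id + ε v` is a homeomorphism of the plane (it approximates the
identity: `ApproximatesLinearOn.toHomeomorph`, or the contraction principle), its derivative
`id + ε Dv` is invertible, so the inverse is `C¹` (`Homeomorph.contDiff_symm` or
`OpenPartialHomeomorph.contDiffAt_symm`).  `dZ φ = 1 + ε dZ v`, `dB φ = ε dB v`, `|dZ v|, |dB v| ≤ K`:
`Jac φ ≥ (1 - |ε| K)² - (|ε| K)² > 0` for `|ε| K < 1/2`. -/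
def SpecDIF : Prop := ∀ v : ℂ → ℂ, ContDiff ℝ ∞ v → HasCompactSupport v → ∀ (z₀ : ℂ) (δ : ℝ),
  tsupport v ⊆ ball z₀ δ → ∃ ε₀ > 0, ∀ ε : ℝ, |ε| < ε₀ →
  ∃ ψ : ℂ → ℂ, Dif (fun z => z + (ε : ℂ) * v z) ψ z₀ δ

/-- HOM [70].  Uses: nothing.  Proof: `φ` is a homeomorphism of the plane (inverse `ψ`), so
`φ '' U` is open and simply connected iff `U` is (`Homeomorph.isSimplyConnected_image`).  `U` is the
image of `univ` (subtype `ball 0 1`) under the open embedding `F ∘ Subtype.val` (injective,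
continuous, open: open mapping theorem, see `INVM.open_image` in `Lib/MP_250511_an/INV.lean`), and the
ball is contractible (convex). -/
def SpecHOM : Prop := ∀ (F φ ψ : ℂ → ℂ) (U : Set ℂ) (z₀ : ℂ) (δ : ℝ), Conf F U → IsOpen U →
  Dif φ ψ z₀ δ → IsOpen (φ '' U) ∧ IsSimplyConnected (φ '' U)

/-- INQ [100].  Uses: nothing.  Proof: `f` is continuous at `0` with `f 0 = 0`, so there is `r > 0` with
`f (ball 0 r)` in a neighbourhood of `0` disjoint from `closedBall z₀ δ`; so `‖g z‖ ≥ r` on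
`W = Ω ∩ ball z₀ δ`.  Area formula for the injective holomorphic `g`
(`lintegral_image_eq_lintegral_abs_det_fderiv_mul`; the real determinant of the derivative is
`‖g'‖²`): `∫_W ‖g'/g‖² = ∫_{g(W)} ‖w‖⁻² ≤ π/r²`. -/
def SpecINQ : Prop := ∀ (f g : ℂ → ℂ) (Ω : Set ℂ), Pair f g Ω → ∀ (z₀ : ℂ) (δ : ℝ),
  (0 : ℂ) ∉ closedBall z₀ δ → IntegrableOn (qG g) (Ω ∩ ball z₀ δ)

/-- FLU [130].  Uses: nothing.  Proof: area formula as in INQ: `g` maps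
`{z ∈ Ω : exp(-L) < ‖g z‖}` bijectively onto `{exp(-L) < ‖w‖ < 1}`, so the integral is
`∫_{exp(-L) < ‖w‖ < 1} ‖w‖⁻² = 2π ∫_{exp(-L)}^1 dr/r = 2πL` (`Complex.lintegral_comp_polarCoord_symm`).
-/
def SpecFLU : Prop := ∀ (f g : ℂ → ℂ) (Ω : Set ℂ), Pair f g Ω → ∀ L : ℝ, 0 < L →
  ∫⁻ z in {z | z ∈ Ω ∧ Real.exp (-L) < ‖g z‖}, ENNReal.ofReal ‖qG g z‖ =
    ENNReal.ofReal (2 * π * L)

/-- ENE [220].  Uses: nothing.  The radial energy inequality.  Proof: for a unit vector `e^{iθ}` and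
`r₀ < s < 1`, `m - u(s e^{iθ}) ≤ u(r₀ e^{iθ}) - u(s e^{iθ}) ≤ ∫_{r₀}^s ‖Du‖ dr
≤ (∫_{r₀}^s ‖Du‖² r dr)^{1/2} (log (s/r₀))^{1/2}` (Cauchy-Schwarz).  With `s → 1`:
`m² ≤ log(1/r₀) ∫_{r₀}^1 ‖Du(r e^{iθ})‖² r dr` (as lintegrals).  Integrate over `θ ∈ (-π, π)`
(`Complex.lintegral_comp_polarCoord_symm`). -/
def SpecENE : Prop := ∀ (u : ℂ → ℝ) (r₀ m : ℝ), 0 < r₀ → r₀ < 1 → 0 ≤ m →
  ContDiffOn ℝ 1 u (ball 0 1 \ {0}) → (∀ ζ : ℂ, ‖ζ‖ = r₀ → m ≤ u ζ) →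
  (∀ ε > 0, ∃ s < 1, ∀ ζ : ℂ, s < ‖ζ‖ → ‖ζ‖ < 1 → u ζ ≤ ε) →
  ENNReal.ofReal (2 * π * m ^ 2 / Real.log (1 / r₀)) ≤
    ∫⁻ ζ in {ζ : ℂ | r₀ < ‖ζ‖ ∧ ‖ζ‖ < 1}, ENNReal.ofReal (‖fderiv ℝ u ζ‖ ^ 2)

/-- LIN [80].  Uses: nothing.  Linear algebra.  Proof: `l h = Re (λ h)` with `‖l‖ = |λ|`.  The hypothesis
says `λ a + conj λ conj b = P`, `P = -p`; so `λ (|a|² - |b|²) = P conj a - conj P conj b` and
`|λ|² (|a|² - |b|²)² = |p|²(|a|² + |b|²) - 2 Re (conj a b p²)`. -/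
def SpecLIN : Prop := ∀ (a b p : ℂ) (l : ℂ →L[ℝ] ℝ), ‖b‖ < ‖a‖ →
  (∀ h : ℂ, l (a * h + b * conj h) = -(p * h).re) →
  ‖l‖ ^ 2 * (‖a‖ ^ 2 - ‖b‖ ^ 2) =
    (‖p‖ ^ 2 * (‖a‖ ^ 2 + ‖b‖ ^ 2) - 2 * (conj a * b * p ^ 2).re) / (‖a‖ ^ 2 - ‖b‖ ^ 2)

/-- CHV [280].  Uses: LIN.  Change of variables.  Proof: let `Ψ = G ∘ φ` on `Ω`: injective,
`Ψ '' Ω = ball 0 1`, real derivative `h ↦ a h + b conj h`, `a = G'(φ z) dZ φ z`,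
`b = G'(φ z) dB φ z`, determinant `|a|² - |b|² = |G'|² Jac φ > 0`.  Let
`A = {z ∈ Ω : r₀ < ‖Ψ z‖}`; `Ψ '' A` is the annulus and `A ⊆ {z ∈ Ω : exp(-L) < ‖g z‖}` (hypothesis
with `ζ = Ψ z`: `ψ (F (Ψ z)) = z`).  With `u ζ = - log ‖g (ψ (F ζ))‖`, `u ∘ Ψ = - log ‖g‖` on `Ω`,
whose derivative is `h ↦ - Re (p h)`, `p = g'/g`; `u` is differentiable at `Ψ z ≠ 0`.  LIN:
`‖Du(Ψ z)‖² (|a|² - |b|²) = YQ (qG g) φ z` (`|G'|²` cancels, `‖p‖² = ‖qG g z‖`).  Area formula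
(`lintegral_image_eq_lintegral_abs_det_fderiv_mul`): left side `= ∫⁻_A ofReal (YQ) ≤` right side. -/
def SpecCHV : Prop := ∀ (f g F G φ ψ : ℂ → ℂ) (Ω : Set ℂ) (z₀ : ℂ) (δ r₀ L : ℝ), Pair f g Ω →
  (0 : ℂ) ∉ closedBall z₀ δ → Dif φ ψ z₀ δ → Pair F G (φ '' Ω) → 0 < r₀ → r₀ < 1 →
  (∀ ζ : ℂ, r₀ < ‖ζ‖ → ‖ζ‖ < 1 → Real.exp (-L) < ‖g (ψ (F ζ))‖) →
  ∫⁻ ζ in {ζ : ℂ | r₀ < ‖ζ‖ ∧ ‖ζ‖ < 1},
      ENNReal.ofReal (‖fderiv ℝ (fun w => - Real.log ‖g (ψ (F w))‖) ζ‖ ^ 2) ≤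
    ∫⁻ z in {z | z ∈ Ω ∧ Real.exp (-L) < ‖g z‖}, ENNReal.ofReal (YQ (qG g) φ z)

/-- NEA [130].  Uses: nothing.  Estimates near `0`.  Proof: near `0`, `φ = ψ = id` (`0 ∉ closedBall`),
`f 0 = F 0 = 0`, `φ 0 = 0`.  `g ∘ F` is analytic near `0` with value `0` and derivative
`g'(0) F'(0)`, `|g'(0)| = 1`; so `‖g (F ζ)‖ ≤ a ‖ζ‖ (1 + C ‖ζ‖)` for small `ζ`.  `G ∘ f` is analytic
near `0` with derivative of norm `1/a`: `‖G (f w)‖ ≤ (‖w‖/a)(1 + C‖w‖)` for small `w`.  First claim: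
let `w = g (ψ (F ζ))`, and suppose `‖w‖ ≤ t`; then `ψ (F ζ) = f w`, small, so
`F ζ = φ (f w) = f w`, `ζ = G (f w)`, `‖ζ‖ ≤ (t/a)(1 + C t)`. -/
def SpecNEA : Prop := ∀ (f g F G φ ψ : ℂ → ℂ) (Ω : Set ℂ) (z₀ : ℂ) (δ : ℝ), Pair f g Ω →
  deriv f 0 = 1 → (0 : ℂ) ∉ closedBall z₀ δ → Dif φ ψ z₀ δ → Pair F G (φ '' Ω) →
  ∃ C > 0, ∃ t₀ > 0, ∀ t : ℝ, 0 < t → t < t₀ →
    (t / ‖deriv F 0‖) * (1 + C * t) < 1 ∧
    (∀ ζ : ℂ, (t / ‖deriv F 0‖) * (1 + C * t) < ‖ζ‖ → ‖ζ‖ < 1 → t < ‖g (ψ (F ζ))‖) ∧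
    (∀ ζ : ℂ, ‖ζ‖ = (t / ‖deriv F 0‖) * (1 + C * t) →
      ‖g (ψ (F ζ))‖ ≤ ‖deriv F 0‖ * ‖ζ‖ * (1 + C * ‖ζ‖))

/-- VIN [180].  Uses: INQ FLU ENE CHV NEA.  Energy inequality.  Proof: `a = ‖F'(0)‖ ≤ 1`.  For small
`t = exp(-L)` put `r₀ = (t/a)(1 + C t)`, `m = - log (a r₀ (1 + C r₀)) = L - ε₁`,
`ε₁ = log(1 + C t) + log (1 + C r₀) → 0`.  NEA, ENE (for `u = - log ‖g (ψ (F ζ))‖`, `C¹` off `0`;
`u → 0` at the circle: `ψ (F ζ)` leaves every compact subset of `Ω`) and CHV give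
`2π m²/log(1/r₀) ≤ ∫⁻ YQ` over `Ω_L = {z ∈ Ω : exp(-L) < ‖g z‖}`.  `log (1/r₀) = L + log a
- log (1 + C t) ≤ L`, so `2π m²/log(1/r₀) ≥ 2π (L - ε₁)²/L ≥ 2π (L - 2 ε₁)`.  `YQ = ‖q‖ + XQ` and
`YQ ≥ 0`; `XQ = 0` a.e. off `ball z₀ δ` (`φ` = identity there, the sphere is a null set), `XQ` is
integrable on `W = Ω ∩ ball z₀ δ` (`|XQ| ≤ C' ‖q‖`, INQ) and `W ⊆ Ω_L` for large `L`.  By FLU
`∫⁻_{Ω_L} YQ = ofReal (2πL + ∫_W XQ)`.  So `∫_W XQ ≥ - 4π ε₁`; let `L → ∞`. -/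
def SpecVIN : Prop := ∀ (f g F G φ ψ : ℂ → ℂ) (Ω : Set ℂ) (z₀ : ℂ) (δ : ℝ), Pair f g Ω →
  deriv f 0 = 1 → (0 : ℂ) ∉ closedBall z₀ δ → Dif φ ψ z₀ δ → Pair F G (φ '' Ω) →
  ‖deriv F 0‖ ≤ 1 → 0 ≤ ∫ z in Ω ∩ ball z₀ δ, XQ (qG g) φ z

/-- VAA [120].  Uses: PER.  Proof: if not, there are `ε_n → 0` and `F_n` with `Conf F_n (φ_n '' Ω)`,
`‖F_n'(0)‖ > 1`, `φ_n = id + ε_n v`.  For large `n`, `φ_n` is bijective (DIF is a hypothesis here: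
`hd`).  PER with `Z = tsupport v` and `En n = (φ_n '' Ω)ᶜ = φ_n '' Ωᶜ`: `e ∉ Z` gives `φ_n e = e`;
`u n = φ_n e → e`.  So for large `n` all balls in `φ_n '' Ω` have radius `≤ ρ`, and `Ext.ext` gives
`ρ ‖F_n'(0)‖ ≤ ρ`. -/
def SpecVAA : Prop := ∀ (f g : ℂ → ℂ) (Ω : Set ℂ) (ρ : ℝ), Ext f g Ω ρ → ∀ (z₀ : ℂ) (δ : ℝ),
  Disjoint (ball z₀ δ) (KK Ω ρ) → ∀ v : ℂ → ℂ, ContDiff ℝ ∞ v → HasCompactSupport v →
  tsupport v ⊆ ball z₀ δ →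
  (∃ ε₀ > 0, ∀ ε : ℝ, |ε| < ε₀ → ∃ ψ : ℂ → ℂ, Dif (fun z => z + (ε : ℂ) * v z) ψ z₀ δ) →
  ∃ ε₁ > 0, ∀ ε : ℝ, |ε| < ε₁ → ∀ F : ℂ → ℂ, Conf F ((fun z => z + (ε : ℂ) * v z) '' Ω) →
    ‖deriv F 0‖ ≤ 1

/-- VAB [150].  Uses: nothing.  The first variation.  Proof: `dZ φ = 1 + ε dZ v`, `dB φ = ε dB v`,
`|dZ v|, |dB v| ≤ K`.  For `|ε| ≤ 1/(4K+4)`: `|XQ q φ z + 2 ε Re (dB v z * q z)| ≤ C ε² ‖q z‖`.  So
`0 ≤ ∫ XQ ≤ -2ε Re ∫ dB v q + C ε² ∫ ‖q‖`; divide by `ε > 0` and by `ε < 0` and let `ε → 0`.  (If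
`XQ` is not integrable its integral is `0`, but it is: measurable and bounded by `C' ‖q‖`.) -/
def SpecVAB : Prop := ∀ (W : Set ℂ) (q v : ℂ → ℂ), MeasurableSet W → IntegrableOn q W →
  ContDiff ℝ ∞ v → HasCompactSupport v →
  (∃ ε₁ > 0, ∀ ε : ℝ, |ε| < ε₁ → 0 ≤ ∫ z in W, XQ q (fun z => z + (ε : ℂ) * v z) z) →
  (∫ z in W, dB v z * q z).re = 0

/-- VAR [120].  Uses: PAI RMT HOM DIF INQ VIN VAA VAB.  Stationarity.  Proof: by VAB for `v` and for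
`i v` (`dB (i v) = i dB v`) it is enough to show `0 ≤ ∫_W XQ (qG g) φ_ε` for small `ε`.  DIF: `φ_ε` is
a `Dif`; `φ_ε '' Ω` is open and simply connected (HOM), contains `0 = φ_ε 0`, is `≠ univ`
(`Ω ≠ univ` as its balls have radius `≤ ρ`, `φ_ε` bijective); RMT, PAI: `Pair F G (φ_ε '' Ω)`;
`‖F'(0)‖ ≤ 1` by VAA; VIN. -/
def SpecVAR : Prop := ∀ (f g : ℂ → ℂ) (Ω : Set ℂ) (ρ : ℝ), Ext f g Ω ρ → ∀ (z₀ : ℂ) (δ : ℝ),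
  0 < δ → (0 : ℂ) ∉ closedBall z₀ δ → Disjoint (ball z₀ δ) (KK Ω ρ) → ∀ v : ℂ → ℂ,
  ContDiff ℝ ∞ v → HasCompactSupport v → tsupport v ⊆ ball z₀ δ →
  ∫ z in Ω ∩ ball z₀ δ, dB v z * qG g z = 0

/-- WEY [280].  Uses: nothing.  Weyl's lemma for `∂/∂z̄`.  Proof: let `w₀ = w` on `ball z₀ δ` and `0`
elsewhere (integrable), `η_n` a normed `ContDiffBump` at `0` with outer radius `→ 0`, `< δ/8`,
`w_n = η_n ⋆ w₀` (`C^∞`).  For `z ∈ ball z₀ (7δ/8)`: `dB w_n z = ∫ (dB η_n)(z - x) w₀ x dx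
= - ∫ dB (x ↦ η_n (z - x)) x * w₀ x dx = 0` (test function with support in `ball z₀ δ`); so `w_n` is
holomorphic there (real differentiable with `dB = 0`).  Mean value property over discs of radius
`δ/8`: `|w_n| ≤ (64/(π δ²)) ‖w₀‖₁` on `ball z₀ (6δ/8)`, uniformly in `n`.  `w_n → w₀` a.e.
(`ContDiffBump.ae_convolution_tendsto_right_of_locallyIntegrable`).  By Montel (equi-Lipschitz on
`ball z₀ (5δ/8)`, see `MP87.RMT.lip_ball`, `MP87.RMT.locUnif` in `Lib/MP_87ece0_an/Lower.lean`: take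
the pointwise limit along an ultrafilter `≤ atTop`) there is a holomorphic limit `h` on
`ball z₀ (δ/2)`, and `h = w₀` a.e. there.  (Other proof: `h z = - (1/π) ∫ dB χ x w x /(z - x) dx`,
`χ` a cutoff, and the Cauchy transform of test functions.) -/
def SpecWEY : Prop := ∀ (z₀ : ℂ) (δ : ℝ) (w : ℂ → ℂ), 0 < δ → IntegrableOn w (ball z₀ δ) →
  (∀ v : ℂ → ℂ, ContDiff ℝ ∞ v → HasCompactSupport v → tsupport v ⊆ ball z₀ δ →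
    ∫ z in ball z₀ δ, dB v z * w z = 0) →
  ∃ h : ℂ → ℂ, AnalyticOnNhd ℂ h (ball z₀ (δ / 2)) ∧
    w =ᵐ[volume.restrict (ball z₀ (δ / 2))] h

/-- LOC [90].  Uses: KCL INQ VAR WEY.  Proof: `KK` is closed, `z₀ ≠ 0`: take `δ₁` with
`ball z₀ δ₁` disjoint from `KK` and `0 ∉ closedBall z₀ δ₁`.  `w = indicator Ω (qG g)` is integrable on the
ball (INQ), VAR gives the hypothesis of WEY; `δ = δ₁/2`; two continuous functions on the open set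
`Ω ∩ ball z₀ δ` that agree a.e. agree everywhere. -/
def SpecLOC : Prop := ∀ (f g : ℂ → ℂ) (Ω : Set ℂ) (ρ : ℝ), Ext f g Ω ρ → ∀ z₀ : ℂ, z₀ ≠ 0 →
  z₀ ∉ KK Ω ρ → ∃ δ > 0, Disjoint (ball z₀ δ) (KK Ω ρ) ∧ (0 : ℂ) ∉ ball z₀ δ ∧
  ∃ h : ℂ → ℂ, AnalyticOnNhd ℂ h (ball z₀ δ) ∧ ∀ z ∈ Ω ∩ ball z₀ δ, qG g z = h z

/-! ## Symmetry -/

/-- ROT [80].  Uses: nothing.  Rotations.  Proof: routine (`ball`s are rotated to balls). -/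
def SpecROT : Prop := ∀ (f g : ℂ → ℂ) (Ω : Set ℂ) (ρ : ℝ), Ext f g Ω ρ → ∀ e : ℂ, ‖e‖ = 1 →
  Ext (fun w => conj e * f (e * w)) (fun z => conj e * g (e * z)) {z | e * z ∈ Ω} ρ

/-- KA [150].  Uses: NOI FRE RAD LOC.  Proof: FRE: `s > 1` with `s x₀ ∉ KK`; LOC at `z₀ = s x₀` gives
`δ`, `h`; shrink `δ` so that the real points of `ball z₀ δ` are `> x₀` (so not in `Ω`).  `Ω` meets the
ball (NOI), and `qG g ≠ 0` on `Ω \ {0}` (`dG`; `g z = 0` only for `z = 0`), so `h` is not identically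
zero, its zeros are isolated, and there is a real `x₁` in the ball with `h x₁ ≠ 0`.  On a small ball
`ball x₁ δ₁`, `|h - h x₁| < |h x₁|`, so `k z = c (h z / h x₁)^(1/2)`, `c² = h x₁`, is analytic,
zero-free, `k² = h = (g'/g)²` on `Ω`.  `rad`: RAD. -/
def SpecKA : Prop := ∀ (f g : ℂ → ℂ) (Ω : Set ℂ) (ρ : ℝ), Ext f g Ω ρ → ∀ x₀ : ℝ, 0 < x₀ →
  (x₀ : ℂ) ∉ Ω → ∃ (x₁ δ : ℝ) (k : ℂ → ℂ), Loc g Ω x₁ δ k

/-- KB [150].  Uses: nothing.  Proof: suppose `Re k(x) ≠ 0`, `x` real in the ball.  On a small ball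
`B' = ball x δ'`, `Re (z k z)` has constant sign and `|Re (z k z)| ≥ c > 0`.  Fix `τ > 0` such that
`s z ∈ B'` for `s ∈ [1, 1+τ]` and `z` near `x`.  Let `z ∈ Ω` near `x` (exists since
`interior Ωᶜ = ∅`); `s z ∈ Ω` for `s ∈ [1, 1+τ]` (else `z ∉ Ω` by `rad` with `1/s`).  The function
`y s = - log ‖g (s z)‖` has derivative `- Re (z p (s z))`, `p = g'/g`, continuous, and
`|Re (z p (s z))| = |Re (s z k (s z))|/s ≥ c/2`, so it has constant sign and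
`|y (1+τ) - y 1| ≥ c τ/2`.  When `z → x` in `Ω`, `y 1 → 0` and `y (1+τ) → 0` (`bd` at `x` and at the
real point `(1+τ) x`, both not in `Ω` by `re`): contradiction. -/
def SpecKB : Prop := ∀ (f g : ℂ → ℂ) (Ω : Set ℂ) (x₁ δ : ℝ) (k : ℂ → ℂ), Pair f g Ω →
  interior Ωᶜ = ∅ → Loc g Ω x₁ δ k → ∀ x : ℝ, (x : ℂ) ∈ ball (x₁ : ℂ) δ → (k x).re = 0

/-- KC [280].  Uses: nothing.  Proof: `k x₁ = i κ₁`, `κ₁ ≠ 0` real, so on a small ball `B'` around `x₁`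
`Im (z k z)` has constant sign and `|Im (z k z)| ≥ c > 0`.  (1) Suppose `z_a, z_b ∈ B'` are not in `Ω`
and have different arguments; by `rad` (for small `B'`) we may take `z_a = x₁ e^{iψ_a}`,
`z_b = x₁ e^{iψ_b}`, `ψ_a < ψ_b`.  As `interior Ωᶜ = ∅`, and again by `rad`, some
`x₁ e^{iψ_c} ∈ Ω`, `ψ_a < ψ_c < ψ_b`.  Let `(ψ₁, ψ₂)` be the maximal interval around `ψ_c` with
`x₁ e^{iψ} ∈ Ω` (end points not in `Ω`).  `y ψ = - log ‖g (x₁ e^{iψ})‖` tends to `0` at both ends and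
has derivative `- Re (i z p z) = Im (z p z) = ± Im (z k z) ≠ 0`: contradiction to Rolle.  So all
points of `Ωᶜ ∩ B'` have argument `0`, i.e. `z ∉ Ω ↔ Im z = 0` in `B'` (`re` for the converse).  (2)
The two half balls are connected (convex), `p/k` is continuous with values `±1` there, so constant
`σ_+`, `σ_-`.  `y ψ > 0` for `ψ ≠ 0` small and `y → 0` at `0`: so `y' > 0` for some `ψ > 0`, i.e.
`σ_+ Im (z k) > 0`, and `y' < 0` for some `ψ < 0`, i.e. `σ_- Im (z k) < 0`: `σ_- = - σ_+`. -/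
def SpecKC : Prop := ∀ (f g : ℂ → ℂ) (Ω : Set ℂ) (x₁ δ : ℝ) (k : ℂ → ℂ), Pair f g Ω →
  interior Ωᶜ = ∅ → Loc g Ω x₁ δ k →
  (∀ x : ℝ, (x : ℂ) ∈ ball (x₁ : ℂ) δ → (k x).re = 0) →
  ∃ δ' > 0, δ' ≤ δ ∧ (∀ z ∈ ball (x₁ : ℂ) δ', z ∉ Ω ↔ z.im = 0) ∧
    ∃ σ : ℂ, (∀ z ∈ ball (x₁ : ℂ) δ', 0 < z.im → deriv g z / g z = σ * k z) ∧
      (∀ z ∈ ball (x₁ : ℂ) δ', z.im < 0 → deriv g z / g z = -(σ * k z)) ∧ (σ = 1 ∨ σ = -1)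

/-- KD [70].  Uses: nothing.  Proof: `z ↦ conj (k (conj z)) + k z` is analytic on the ball and vanishes
at its real points; identity theorem (`AnalyticOnNhd.eqOn_zero_of_preconnected_of_frequently_eq_zero`).
-/
def SpecKD : Prop := ∀ (x₁ δ : ℝ) (k : ℂ → ℂ), 0 < δ → AnalyticOnNhd ℂ k (ball (x₁ : ℂ) δ) →
  (∀ x : ℝ, (x : ℂ) ∈ ball (x₁ : ℂ) δ → (k x).re = 0) →
  ∀ z ∈ ball (x₁ : ℂ) δ, conj (k (conj z)) = - k z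

/-- KE [180].  Uses: nothing.  Proof: `g* z = conj (g (conj z))` is analytic on `Ω* = {z : conj z ∈ Ω}`.
`U = Ω ∩ Ω*` is open and star-convex, so preconnected.  `g' g* - g (g*)'` is analytic on `U` and
vanishes on `V` (open, nonempty; `g, g*` are nonzero on `V` as `0 ∉ V`), so on `U`.  Near `0`:
`g = z a`, `g* = z b` with `a, b` analytic (`dslope`), `a 0 = g'(0) = 1`, `b 0 = 1`
(`deriv g 0 = 1` from `dGF`, `deriv f 0 = 1`); so `z² (a' b - a b') = 0`, `(a/b)' = 0` near `0`,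
`a = b` near `0`, hence `g = g*` near `0` and on `U` (identity theorem).  Let `z ∈ Ω` and suppose
`conj z ∉ Ω`.  Let `s* = inf {s ∈ [0,1] : conj (s z) ∉ Ω}` (closed set, contains `1`; `s* > 0`),
`z₂ = s* z ∈ Ω`, `conj z₂ ∉ Ω`.  For `s ↑ s*`: `s z ∈ U`, `‖g (s z)‖ = ‖g (conj (s z))‖ → 1` by `bd`,
but `→ ‖g z₂‖ < 1`. -/
def SpecKE : Prop := ∀ (f g : ℂ → ℂ) (Ω : Set ℂ), Pair f g Ω → deriv f 0 = 1 →
  StarConvex ℝ (0 : ℂ) Ω → ∀ V : Set ℂ, IsOpen V → V.Nonempty → (0 : ℂ) ∉ V → V ⊆ Ω →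
  (∀ z ∈ V, conj z ∈ Ω) →
  (∀ z ∈ V, deriv g z / g z = conj (deriv g (conj z) / g (conj z))) → ∀ z ∈ Ω, conj z ∈ Ω

/-- SYM [100].  Uses: NOI ROT KA KB KC KD KE.  Proof: let `p ∉ Ω`, `p = |p| e` (`p ≠ 0` since `0 ∈ Ω`).
By ROT we get an `Ext` for `Ω_e = {z : e z ∈ Ω}`, and `|p| ∉ Ω_e`.  KA, KB, KC, KD give `x₁, δ', k, σ`;
on the upper half ball `V` (`0 ∉ V`, `V ⊆ Ω_e`): `conj (p (conj z)) = conj (- σ k (conj z))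
= σ k z = p z` (`σ` real; KD).  KE: `Ω_e` is symmetric with respect to conjugation.  For `z ∈ Ω`:
`conj e z ∈ Ω_e`, so `e conj z ∈ Ω_e`, so `e² conj z ∈ Ω`, and `e² = p/conj p`. -/
def SpecSYM : Prop := ∀ (f g : ℂ → ℂ) (Ω : Set ℂ) (ρ : ℝ), Ext f g Ω ρ → ∀ p : ℂ, p ∉ Ω →
  ∀ z ∈ Ω, p / conj p * conj z ∈ Ω

/-- FIN [200].  Uses: nothing.  Proof: `Ω ≠ univ`.  Let `Θ` be the set of unit `e` with `t e ∉ Ω` for some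
`t > 0`.  (1) `Θ` is infinite: otherwise there is a unit `a` with distance `d > 0` to `Θ`, and
`ball (R a) (R d/4)` is contained in `Ω` (a point `z` of it has `z/|z|` at distance `≤ d/2` of `a`, so
not in `Θ`), impossible for large `R`.  (2) for every `ε > 0` there are `e₁ ≠ e₂` in `Θ` with
`|e₁ - e₂| < ε` (compact circle), and `a = e₁² conj(e₂)²` satisfies `a ≠ 1` (for `ε < 1`),
`|a - 1| ≤ 2ε`.  The map `z ↦ e² conj z`, `e ∈ Θ`, maps `Ω` to `Ω` and is an involution, so it maps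
`Ωᶜ` to `Ωᶜ`; hence `z ↦ a z` maps `Ωᶜ` to `Ωᶜ`.  (3) let `p ∉ Ω`; the powers `a^k` are `2ε`-dense in
the circle, so (`Ωᶜ` closed, `ε → 0`) the whole circle `|z| = |p|` is in `Ωᶜ`, and by `out_mul` all
`z` with `|z| ≥ |p|` are: `Ωᶜ` has interior, contradiction. -/
def SpecFIN : Prop := ∀ (Ω : Set ℂ) (ρ : ℝ), IsOpen Ω → StarConvex ℝ (0 : ℂ) Ω → (0 : ℂ) ∈ Ω →
  interior Ωᶜ = ∅ → (∀ (c : ℂ) (r : ℝ), ball c r ⊆ Ω → r ≤ ρ) →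
  (∀ p : ℂ, p ∉ Ω → ∀ z ∈ Ω, p / conj p * conj z ∈ Ω) → False

/-! ## The extremal starlike domain -/

/-- the landed lower bound (`Pool.Agent.Results.MP_250511_an.BlochConstant.result`) -/
def SpecBLO : Prop := ENNReal.ofReal (3 / 5) ≤ S

/-- LBD [150].  Uses: BLO.  Local bounds from the covering constant.  Proof: let `z` be in the disc,
`φ ζ = (ζ + z)/(1 + conj z ζ)` (a bijection of the disc, `φ'(0) = 1 - |z|²`), `μ = f'(z)(1 - |z|²)`,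
`μ ≠ 0` (INV.lean), `h ζ = (f (φ ζ) - f z)/μ`.  `Univ h`, and a ball `ball c r` in `h(D)` gives the
ball `ball (μ c + f z) (|μ| r)` in `f(D)`, so `|μ| rho h ≤ rho f ≤ 2`; `3/5 ≤ S ≤ rho h` gives
`|μ| ≤ 10/3`, `‖f' z‖ ≤ 4/(1 - ‖z‖)`; and `‖f z‖ ≤ ‖z‖ sup ‖f'‖ ≤ 4/(1 - ‖z‖)`. -/
def SpecLBD : Prop := ∀ f : ℂ → ℂ, Univ f → rho f ≤ ENNReal.ofReal 2 → ∀ z ∈ ball (0 : ℂ) 1,
  ‖f z‖ ≤ 4 / (1 - ‖z‖)

/-- EXM [200].  Uses: LBD.  Compactness.  Proof: for every `z` in the disc the values `F n z` stay in a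
compact set, so have a limit `f₀ z` along the ultrafilter `hyperfilter ℕ`; locally uniform convergence:
apply `MP87.RMT.locUnif` (`Lib/MP_87ece0_an/Lower.lean`) on `ball 0 r`, `r < 1`, to
`(1 - r)/4 * F n`.  `f₀` is analytic (`TendstoLocallyUniformlyOn.differentiableOn`), `f₀ 0 = 0`,
`f₀'(0) = 1` (`TendstoLocallyUniformlyOn.deriv`), so not constant, and injective by
`MP87.RMT.hurwitz`. -/
def SpecEXM : Prop := ∀ F : ℕ → ℂ → ℂ, (∀ n, Univ (F n)) → (∀ n, rho (F n) ≤ ENNReal.ofReal 2) →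
  ∃ f₀ : ℂ → ℂ, Univ f₀ ∧
    TendstoLocallyUniformlyOn F f₀ (hyperfilter ℕ : Filter ℕ) (ball 0 1)

/-- EXS [120].  Uses: nothing.  Starlikeness of the limit.  Proof: let `z` be in the disc, `0 ≤ t ≤ 1`;
`t F n z ∈ F n (D)`, so `t F n z = F n (ω n)`, and `|ω n| ≤ |z|` by the Schwarz lemma for
`z' ↦ (F n)⁻¹ (t F n z')` (analytic: `Lib/MP_250511_an/INV.lean`), value `0` at `0`.  The `ω n` have a
limit `w`, `|w| ≤ |z|`, along the ultrafilter, and `F n (ω n) → f₀ w` (locally uniform convergence),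
so `t f₀ z = f₀ w ∈ f₀(D)`. -/
def SpecEXS : Prop := ∀ (F : ℕ → ℂ → ℂ) (f₀ : ℂ → ℂ), (∀ n, Univ (F n)) →
  (∀ n, StarConvex ℝ (0 : ℂ) (F n '' ball 0 1)) → Univ f₀ →
  TendstoLocallyUniformlyOn F f₀ (hyperfilter ℕ : Filter ℕ) (ball 0 1) →
  StarConvex ℝ (0 : ℂ) (f₀ '' ball 0 1)

/-- EXR [150].  Uses: nothing.  Compact discs in the limit domain.  Proof: if not, for ultrafilter-many `n`
there is `w n ∈ closedBall c r` with `w n ∉ F n (D)`; let `w` be the limit of `w n` along the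
ultrafilter, `w ∈ closedBall c r ⊆ f₀(D)`, `w = f₀ a`.  Choose `s > 0` with
`closedBall a s ⊆ ball 0 1`; `f₀` is injective, so `|f₀ z - f₀ a| ≥ 2ε > 0` on the sphere; for most `n`,
`|F n z - F n a| ≥ ε` on the sphere, so `ball (F n a) (ε/2) ⊆ F n '' closedBall a s`
(`DiffContOnCl.ball_subset_image_closedBall`), and `w n ∈ ball (F n a) (ε/2)` for most `n`
(`F n a → w`, `w n → w`): contradiction. -/
def SpecEXR : Prop := ∀ (F : ℕ → ℂ → ℂ) (f₀ : ℂ → ℂ), (∀ n, Univ (F n)) → Univ f₀ →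
  TendstoLocallyUniformlyOn F f₀ (hyperfilter ℕ : Filter ℕ) (ball 0 1) →
  ∀ (c : ℂ) (r : ℝ), closedBall c r ⊆ f₀ '' ball 0 1 →
  ∀ᶠ n in (hyperfilter ℕ : Filter ℕ), closedBall c r ⊆ F n '' ball 0 1

/-- EXI [120].  Uses: EXM EXS EXR.  The starlike constant is attained.  Proof: `S₁ ≤ rho id ≤ 1`, so there
is a sequence of starlike `Univ (F n)` with `rho (F n) ≤ S₁ + 1/(n+1) ≤ 2`.  EXM, EXS give `f₀`.  Let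
`ball c r ⊆ f₀(D)`, `0 < r' < r`; `closedBall c r' ⊆ f₀(D)`, so by EXR for infinitely many `n`
(`hyperfilter ≤ cofinite`) `ball c r' ⊆ F n (D)`, `ofReal r' ≤ rho (F n) ≤ S₁ + 1/(n+1)`; so
`ofReal r' ≤ S₁`, and `r' → r`. -/
def SpecEXI : Prop := ∃ f₀ : ℂ → ℂ, Univ f₀ ∧ StarConvex ℝ (0 : ℂ) (f₀ '' ball 0 1) ∧ rho f₀ = S₁

/-- EXT [120].  Uses: PAI EXI.  Proof: `f = f₀`, `Ω = f(D)`, `g` from PAI, `ρ = S₁.toReal`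
(`S₁ ≤ rho id ≤ 1` finite; positive: `Ω` is open and contains `0`, so `rho f > 0`).  `inr`: definition
of `rho`.  `ext`: let `Conf F U`, all balls in `U` of radius `≤ ρ'`; `λ = F'(0) ≠ 0` (PAI);
`h = F/λ` is `Univ`, a ball `ball c r ⊆ h(D)` gives `ball (λ c) (|λ| r) ⊆ U`, so
`rho h ≤ ofReal (ρ'/|λ|)`, and `ρ = S₁ = S ≤ rho h`. -/
def SpecEXT : Prop := S = S₁ → ∃ (f g : ℂ → ℂ) (Ω : Set ℂ) (ρ : ℝ), Ext f g Ω ρ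

/-! ## The theorem -/

/-- the main theorem from the modules -/
theorem main_of (hNOI : SpecNOI) (hSYM : SpecSYM) (hFIN : SpecFIN) (hEXT : SpecEXT) : S < S₁ := by
  have hle : S ≤ S₁ := by
    unfold S S₁
    exact le_iInf fun f => le_iInf fun hf => iInf_le_of_le f (iInf_le_of_le hf.1 le_rfl)
  refine lt_of_le_of_ne hle fun h => ?_
  obtain ⟨f, g, Ω, ρ, hE⟩ := hEXT h
  have h0 : (0 : ℂ) ∈ Ω := by
    rw [← hE.im]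
    exact ⟨0, by simp, hE.zero⟩
  exact hFIN Ω ρ hE.op hE.star h0 (hNOI f g Ω ρ hE) hE.inr (hSYM f g Ω ρ hE)

end

end Pool.Agent.Lib.MP250511.SB
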