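import Pool.Agent.Lib.MP_250511_an.Geo.All
import Pool.Agent.Lib.MP_250511_an.Geo.TMO
import Pool.Agent.Lib.MP_250511_an.Geo.TAB
import Pool.Agent.Lib.MP_250511_an.Geo.SEM
import Pool.Agent.Lib.MP_250511_an.Geo.PTS
import Pool.Agent.Lib.MP_250511_an.Geo.MTS
import Pool.Agent.Lib.MP_250511_an.Geo.EAB
import Pool.Agent.Lib.MP_250511_an.Geo.AFF
import Pool.Agent.Lib.MP_250511_an.Geo.VPS
import Pool.Agent.Lib.MP_250511_an.Geo.COV
import Pool.Agent.Lib.MP_250511_an.Geo.SYM
import Pool.Agent.Lib.MP_250511_an.Geo.BND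
import Pool.Agent.Lib.MP_250511_an.FIN
import Pool.Agent.Lib.MP_250511_an.INV
import Pool.Agent.Lib.MP_250511_an.CIR
import Pool.Agent.Lib.MP_250511_an.HIT
import Pool.Agent.Lib.MP_250511_an.OMC
import Pool.Agent.Lib.MP_250511_an.BLO
import Pool.Agent.Lib.MP_250511_an.ROT
import Pool.Agent.Lib.MP_250511_an.ALG
import Pool.Agent.Lib.MP_250511_an.PRS
import Pool.Agent.Lib.MP_250511_an.SQR
import Pool.Agent.Lib.MP_250511_an.LFT
import Pool.Agent.Lib.MP_250511_an.STA
import Pool.Agent.Lib.MP_250511_an.PAR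
import Pool.Agent.Lib.MP_250511_an.POL
import Pool.Agent.Lib.MP_250511_an.LOW
import Pool.Agent.Lib.MP_250511_an.UPA
import Pool.Agent.Lib.MP_250511_an.UPB
import Pool.Agent.Lib.MP_250511_an.UPC
import Pool.Agent.Lib.MP_250511_an.UPP
import Pool.Agent.Lib.MP_250511_an.ARE
import Pool.Agent.Lib.MP_250511_an.SB.Spec

/-!
Problem MP_250511_an, `S < S₁`: the landed lower bound `S ≥ 3/5` (same assembly as
`Pool/Agent/Results/MP_250511_an/BlochConstant.lean`).
-/

set_option autoImplicit false

namespace Pool.Agent.Lib.MP250511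

open Pool.Agent.Lib.MP250511.GEOM Metric
open scoped ENNReal

namespace BLOA

theorem specPRSall : SpecPRS := specPRS specROT (specLFT specSQR)
  (specARE specSTA (specLOW specPAR specPOL)
    (specUPP (specUPA specPAR specPOL) specUPB specUPC)) specALG

theorem specGEOall : SpecGEO := specGEO specEAB specAFF (specVPS specTMO specEAB)
  (specPTS specTMO specTAB specSEM) (specMTS specTMO) specCOV specSYM specBND

/-- The schlicht Bloch constant `S` is at least `3/5`. -/
theorem lower : ENNReal.ofReal (3 / 5) ≤ S :=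
  specFIN specBLO specROT (specOMC specINV) specPRSall (specHIT (specCIR specINV)) specGEOall

end BLOA

theorem SB.specBLO : SB.SpecBLO := BLOA.lower

end Pool.Agent.Lib.MP250511
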