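import Pool.Agent.Lib.MP_250511_an.SB.SpecU

/-! Module CHT: a chart of definite size. -/

set_option autoImplicit false

namespace Pool.Agent.Lib.MP250511.SB

open Complex Metric Set MeasureTheory Filter Topology
open scoped Real ENNReal ComplexConjugate ContDiff

noncomputable section

namespace CHTM

/-- the square root near `1` -/
def sqr (w : ℂ) : ℂ := Complex.exp (Complex.log w / 2)

theorem sqr_sq {w : ℂ} (hw : w ≠ 0) : sqr w ^ 2 = w := by
  unfold sqr
  rw [← Complex.exp_nat_mul]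
  push_cast
  rw [mul_div_cancel₀ _ (two_ne_zero' ℂ), Complex.exp_log hw]

theorem sqr_re {w : ℂ} : 0 ≤ (sqr w).re := by
  unfold sqr
  rw [Complex.exp_re]
  apply mul_nonneg (Real.exp_pos _).le
  have h : (Complex.log w / 2).im = Complex.arg w / 2 := by
    rw [Complex.div_ofNat_im, Complex.log_im]
  rw [h]
  apply Real.cos_nonneg_of_neg_pi_div_two_le_of_le
  · have := Complex.neg_pi_lt_arg w
    linarith
  · have := Complex.arg_le_pi w
    linarith

theorem sqr_sub {w : ℂ} (hw : w ≠ 0) : ‖sqr w - 1‖ ≤ ‖w - 1‖ := by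
  have h1 : (sqr w - 1) * (sqr w + 1) = w - 1 := by
    have := sqr_sq hw
    linear_combination this
  have h2 : 1 ≤ ‖sqr w + 1‖ := by
    refine le_trans ?_ (Complex.re_le_norm _)
    rw [Complex.add_re, Complex.one_re]
    have := sqr_re (w := w)
    linarith
  rw [← h1, norm_mul]
  exact le_mul_of_one_le_right (norm_nonneg _) h2

theorem near {w : ℂ} (hw : ‖w - 1‖ ≤ 1 / 100) : w ∈ slitPlane ∧ w ≠ 0 := by
  have h1 : 0 < w.re := by
    have h2 : |(w - 1).re| ≤ ‖w - 1‖ := Complex.abs_re_le_norm _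
    rw [Complex.sub_re, Complex.one_re] at h2
    have h3 := (abs_le.1 (h2.trans hw)).1
    linarith
  refine ⟨Or.inl h1, fun h => ?_⟩
  rw [h, Complex.zero_re] at h1
  exact lt_irrefl _ h1

theorem box_open (η : ℝ) : IsOpen (Box η) := by
  unfold Box
  exact (isOpen_lt (Complex.continuous_re.abs) continuous_const).inter
    (isOpen_lt (Complex.continuous_im.abs) continuous_const)

theorem box_norm {η : ℝ} {q : ℂ} (hq : q ∈ Box η) : ‖q‖ ≤ 2 * η := by
  have h1 := Complex.norm_le_abs_re_add_abs_im q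
  have h2 : |q.re| < η := hq.1
  have h3 : |q.im| < η := hq.2
  linarith

theorem mem_box {η : ℝ} {q : ℂ} (hq : ‖q‖ < η) : q ∈ Box η :=
  ⟨(Complex.abs_re_le_norm q).trans_lt hq, (Complex.abs_im_le_norm q).trans_lt hq⟩

/-- surjectivity by the contraction principle -/
theorem surj {ξ : ℂ → ℂ} {z₁ k₁ : ℂ} {L : ℝ} (hL : 0 < L) (hk : k₁ ≠ 0) (h0 : ξ z₁ = 0)
    (hξ : ∀ z ∈ ball z₁ L, ∀ z' ∈ ball z₁ L, ‖ξ z - ξ z' - k₁ * (z - z')‖ ≤
      ‖k₁‖ * ‖z - z'‖ / 100) {q : ℂ} (hq : ‖q‖ ≤ ‖k₁‖ * L / 2) :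
    ∃ z ∈ ball z₁ L, ξ z = q := by
  have hkp : 0 < ‖k₁‖ := norm_pos_iff.2 hk
  set s : Set ℂ := closedBall z₁ (3 * L / 4) with hs
  have hsub : s ⊆ ball z₁ L := closedBall_subset_ball (by linarith)
  set T : ℂ → ℂ := fun z => z - (ξ z - q) / k₁ with hT
  have hz₁ : z₁ ∈ s := mem_closedBall_self (by positivity)
  have hcon : ∀ z ∈ s, ∀ z' ∈ s, ‖T z - T z'‖ ≤ ‖z - z'‖ / 100 := by
    intro z hz z' hz'
    have h1 : T z - T z' = -((ξ z - ξ z' - k₁ * (z - z')) / k₁) := by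
      simp only [hT]
      field_simp
      ring
    rw [h1, norm_neg, norm_div, div_le_iff₀ hkp]
    have := hξ z (hsub hz) z' (hsub hz')
    linarith
  have hmaps : MapsTo T s s := by
    intro z hz
    have h1 := hcon z hz z₁ hz₁
    have h2 : ‖T z₁ - z₁‖ ≤ L / 2 := by
      have h3 : T z₁ - z₁ = q / k₁ := by
        simp only [hT, h0]
        ring
      rw [h3, norm_div, div_le_iff₀ hkp]
      linarith
    have h4 : ‖z - z₁‖ ≤ 3 * L / 4 := by
      rw [← dist_eq_norm]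
      exact mem_closedBall.1 hz
    rw [hs, mem_closedBall, dist_eq_norm]
    have h5 : T z - z₁ = (T z - T z₁) + (T z₁ - z₁) := by ring
    rw [h5]
    refine (norm_add_le _ _).trans ?_
    linarith
  have hlip : ContractingWith (1 / 100) (hmaps.restrict T s s) := by
    constructor
    · rw [div_lt_one (by norm_num)]
      norm_num
    · apply LipschitzWith.of_dist_le_mul
      intro x y
      have h1 := hcon x.1 x.2 y.1 y.2
      show dist (T x.1) (T y.1) ≤ _ * dist x.1 y.1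
      rw [dist_eq_norm, dist_eq_norm]
      have h2 : ((1 / 100 : NNReal) : ℝ) = 1 / 100 := by norm_num
      rw [h2]
      linarith
  obtain ⟨z, hz, hfix, -⟩ := ContractingWith.exists_fixedPoint' isClosed_closedBall.isComplete
    hmaps hlip hz₁ (edist_ne_top _ _)
  refine ⟨z, hsub hz, ?_⟩
  have h1 : z - (ξ z - q) / k₁ = z := hfix
  have h2 : (ξ z - q) / k₁ = 0 := by
    have h3 : (ξ z - q) / k₁ = z - (z - (ξ z - q) / k₁) := by ring
    rw [h3, h1, sub_self]
  rcases div_eq_zero_iff.1 h2 with h3 | h3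
  · exact sub_eq_zero.1 h3
  · exact absurd h3 hk

end CHTM

open CHTM in
theorem specCHT : SpecCHT := by
  intro H z₁ L hL hH hz hne
  obtain ⟨k₁, hk₁⟩ := IsAlgClosed.exists_pow_nat_eq (H z₁) (n := 2) two_pos
  have hk0 : k₁ ≠ 0 := by
    rintro rfl
    apply hz
    rw [← hk₁]
    ring
  have hkp : 0 < ‖k₁‖ := norm_pos_iff.2 hk0
  set k : ℂ → ℂ := fun z => k₁ * sqr (H z / H z₁) with hk
  have hkk : ∀ z ∈ ball z₁ L, k z ^ 2 = H z := by
    intro z hz'
    simp only [hk]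
    rw [mul_pow, sqr_sq (near (hne z hz')).2, hk₁, mul_div_cancel₀ _ hz]
  have hksub : ∀ z ∈ ball z₁ L, ‖k z - k₁‖ ≤ ‖k₁‖ / 100 := by
    intro z hz'
    have h1 : k z - k₁ = k₁ * (sqr (H z / H z₁) - 1) := by
      simp only [hk]
      ring
    rw [h1, norm_mul]
    have h2 := (sqr_sub (near (hne z hz')).2).trans (hne z hz')
    have h3 := mul_le_mul_of_nonneg_left h2 hkp.le
    linarith
  have hkne : ∀ z ∈ ball z₁ L, k z ≠ 0 := by
    intro z hz' h
    have h1 := hksub z hz'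
    rw [h, zero_sub, norm_neg] at h1
    linarith
  have hkd : DifferentiableOn ℂ k (ball z₁ L) := by
    have h1 : DifferentiableOn ℂ (fun z => H z / H z₁) (ball z₁ L) :=
      hH.differentiableOn.div_const _
    have h2 : DifferentiableOn ℂ (fun z => Complex.log (H z / H z₁)) (ball z₁ L) :=
      fun z hz' => (h1 z hz').clog (near (hne z hz')).1
    exact (h2.div_const 2).cexp.const_mul k₁
  obtain ⟨F, hF⟩ := hkd.isExactOn_ball
  set ξ : ℂ → ℂ := fun z => F z - F z₁ with hξdef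
  have hξd : ∀ z ∈ ball z₁ L, HasDerivAt ξ (k z) z := fun z hz' => (hF z hz').sub_const _
  have h0 : ξ z₁ = 0 := by simp only [hξdef, sub_self]
  have hξ : ∀ z ∈ ball z₁ L, ∀ z' ∈ ball z₁ L, ‖ξ z - ξ z' - k₁ * (z - z')‖ ≤
      ‖k₁‖ * ‖z - z'‖ / 100 := by
    intro z hz' z' hz''
    have h1 : ∀ x ∈ ball z₁ L, HasDerivWithinAt (fun z => ξ z - k₁ * z) (k x - k₁) (ball z₁ L) x := by
      intro x hx
      have h2 := (hξd x hx).sub ((hasDerivAt_id x).const_mul k₁)
      rw [mul_one] at h2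
      exact h2.hasDerivWithinAt
    have h2 := (convex_ball z₁ L).norm_image_sub_le_of_norm_hasDerivWithin_le h1 hksub hz'' hz'
    have h3 : ξ z - k₁ * z - (ξ z' - k₁ * z') = ξ z - ξ z' - k₁ * (z - z') := by ring
    rw [h3] at h2
    linarith
  have hlow : ∀ z ∈ ball z₁ L, ∀ z' ∈ ball z₁ L, ‖k₁‖ * ‖z - z'‖ ≤ 2 * ‖ξ z - ξ z'‖ := by
    intro z hz' z' hz''
    have h1 := hξ z hz' z' hz''
    have h2 : k₁ * (z - z') = (ξ z - ξ z') - (ξ z - ξ z' - k₁ * (z - z')) := by ring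
    have h3 : ‖k₁‖ * ‖z - z'‖ ≤ ‖ξ z - ξ z'‖ + ‖ξ z - ξ z' - k₁ * (z - z')‖ := by
      rw [← norm_mul]
      conv_lhs => rw [h2]
      exact norm_sub_le _ _
    have h4 : 0 ≤ ‖k₁‖ * ‖z - z'‖ := by positivity
    linarith
  have hinj : InjOn ξ (ball z₁ L) := by
    intro z hz' z' hz'' h
    have h1 := hlow z hz' z' hz''
    rw [h, sub_self, norm_zero, mul_zero] at h1
    have h2 : ‖z - z'‖ ≤ 0 := by
      by_contra h3
      push Not at h3
      have := mul_pos hkp h3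
      linarith
    exact sub_eq_zero.1 (norm_le_zero_iff.1 h2)
  set η : ℝ := ‖k₁‖ * L / 4 with hη
  have hηp : 0 < η := by positivity
  have hsurj : ∀ q ∈ Box η, ∃ z ∈ ball z₁ L, ξ z = q := by
    intro q hq
    apply surj hL hk0 h0 hξ
    have := box_norm hq
    rw [hη] at this
    linarith
  set ψ : ℂ → ℂ := Function.invFunOn ξ (ball z₁ L) with hψ
  have hψm : ∀ q ∈ Box η, ψ q ∈ ball z₁ L := fun q hq =>
    Function.invFunOn_mem (hsurj q hq)
  have hψe : ∀ q ∈ Box η, ξ (ψ q) = q := fun q hq =>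
    Function.invFunOn_eq (hsurj q hq)
  have hψi : ∀ z ∈ ball z₁ L, ξ z ∈ Box η → ψ (ξ z) = z := fun z hz' hb =>
    hinj (hψm _ hb) hz' (hψe _ hb)
  have hψc : ∀ q ∈ Box η, ContinuousAt ψ q := by
    intro q hq
    have h1 : ∀ᶠ q' in 𝓝 q, ‖ψ q' - ψ q‖ ≤ (2 / ‖k₁‖) * ‖q' - q‖ := by
      filter_upwards [(box_open η).mem_nhds hq] with q' hq'
      have h2 := hlow _ (hψm q' hq') _ (hψm q hq)
      rw [hψe q' hq', hψe q hq] at h2
      rw [div_mul_eq_mul_div, le_div_iff₀ hkp]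
      linarith
    rw [ContinuousAt, tendsto_iff_norm_sub_tendsto_zero]
    have h2 : Tendsto (fun q' => (2 / ‖k₁‖) * ‖q' - q‖) (𝓝 q) (𝓝 0) := by
      have h3 : Continuous fun q' : ℂ => (2 / ‖k₁‖) * ‖q' - q‖ := by fun_prop
      have h4 := h3.tendsto q
      simpa using h4
    exact squeeze_zero' (Filter.Eventually.of_forall fun q' => norm_nonneg _) h1 h2
  have hψd : ∀ q ∈ Box η, HasDerivAt ψ (k (ψ q))⁻¹ q := by
    intro q hq
    apply HasDerivAt.of_local_left_inverse (hψc q hq) (hξd _ (hψm q hq)) (hkne _ (hψm q hq))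
    filter_upwards [(box_open η).mem_nhds hq] with q' hq'
    exact hψe q' hq'
  refine ⟨ψ, η, k₁, hηp, hk0, ?_, ?_, ?_, ?_, ?_⟩
  · have h1 : DifferentiableOn ℂ ψ (Box η) := fun q hq =>
      (hψd q hq).differentiableAt.differentiableWithinAt
    exact h1.analyticOnNhd (box_open η)
  · intro q hq q' hq' h
    rw [← hψe q hq, ← hψe q' hq', h]
  · have h1 := hψi z₁ (mem_ball_self hL) (by rw [h0]; exact mem_box (by rwa [norm_zero]))
    rwa [h0] at h1
  · intro q hq
    refine ⟨hψm q hq, ?_⟩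
    rw [(hψd q hq).deriv, ← hkk _ (hψm q hq), inv_pow]
    exact mul_inv_cancel₀ (pow_ne_zero 2 (hkne _ (hψm q hq)))
  · intro z hz'
    have hzb : z ∈ ball z₁ L := ball_subset_ball (by linarith) hz'
    have h1 := hξ z hzb z₁ (mem_ball_self hL)
    rw [h0, sub_zero] at h1
    have h2 : ‖z - z₁‖ < L / 8 := by
      rw [← dist_eq_norm]
      exact mem_ball.1 hz'
    have h3 : ‖ξ z‖ < η := by
      have h4 : ξ z = k₁ * (z - z₁) + (ξ z - k₁ * (z - z₁)) := by ring
      have h5 : ‖ξ z‖ ≤ ‖k₁ * (z - z₁)‖ + ‖ξ z - k₁ * (z - z₁)‖ := by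
        conv_lhs => rw [h4]
        exact norm_add_le _ _
      rw [norm_mul] at h5
      have h6 := mul_lt_mul_of_pos_left h2 hkp
      rw [hη]
      have h7 : 0 < ‖k₁‖ * L := by positivity
      linarith
    exact ⟨ξ z, mem_box h3, hψi z hzb (mem_box h3), h1⟩

end

end Pool.Agent.Lib.MP250511.SB
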