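import Pool.Agent.Lib.MP_250511_an.SB.Spec

/-!
# CHV: change of variables
-/

set_option autoImplicit false

namespace Pool.Agent.Lib.MP250511.SB

open Complex Metric Set MeasureTheory Filter Topology
open scoped Real ENNReal ComplexConjugate ContDiff

noncomputable section

namespace CHVM

/-- the real linear map `h ↦ a h + b conj h` -/
def lmap (a b : ℂ) : ℂ →L[ℝ] ℂ :=
  a • (ContinuousLinearMap.id ℝ ℂ) + b • (conjCLE : ℂ →L[ℝ] ℂ)

lemma lmap_apply (a b h : ℂ) : lmap a b h = a * h + b * conj h := by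
  simp [lmap]

lemma lmap_det (a b : ℂ) : (lmap a b).det = ‖a‖ ^ 2 - ‖b‖ ^ 2 := by
  show LinearMap.det ((lmap a b : ℂ →L[ℝ] ℂ) : ℂ →ₗ[ℝ] ℂ) = _
  rw [← LinearMap.det_toMatrix Complex.basisOneI, Matrix.det_fin_two]
  simp only [LinearMap.toMatrix_apply, Complex.coe_basisOneI, Matrix.cons_val_zero,
    Matrix.cons_val_one, ContinuousLinearMap.coe_coe, lmap_apply, Complex.coe_basisOneI_repr]
  rw [← Complex.normSq_eq_norm_sq, ← Complex.normSq_eq_norm_sq]
  simp [Complex.normSq_apply]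
  ring

lemma fderiv_eq (φ : ℂ → ℂ) (z : ℂ) : fderiv ℝ φ z = lmap (dZ φ z) (dB φ z) := by
  ext h
  rw [lmap_apply]
  have h1 : h = h.re • (1 : ℂ) + h.im • I := by
    apply Complex.ext <;> simp
  have h2 : fderiv ℝ φ z h = (h.re : ℂ) * fderiv ℝ φ z 1 + (h.im : ℂ) * fderiv ℝ φ z I := by
    conv_lhs => rw [h1]
    rw [map_add, map_smul, map_smul, Complex.real_smul, Complex.real_smul]
  have h3 : h = (h.re : ℂ) + (h.im : ℂ) * I := (Complex.re_add_im h).symm
  have h4 : conj h = (h.re : ℂ) - (h.im : ℂ) * I := by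
    apply Complex.ext <;> simp
  rw [h2, h4]
  conv_rhs => rw [h3]
  simp only [dZ, dB, Complex.add_re, Complex.ofReal_re, Complex.mul_re, Complex.I_re, mul_zero,
    Complex.ofReal_im, Complex.I_im, mul_one, sub_self, add_zero, Complex.add_im, Complex.mul_im,
    zero_add]
  linear_combination ((h.im : ℂ) * fderiv ℝ φ z I) * I_sq

lemma hasFDerivAt_log_norm {g : ℂ → ℂ} {z : ℂ} {g' : ℂ →L[ℝ] ℂ} (hg : HasFDerivAt g g' z)
    (h0 : g z ≠ 0) :
    HasFDerivAt (fun w => Real.log ‖g w‖)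
      ((‖g z‖ ^ 2)⁻¹ • ((innerSL ℝ (g z)).comp g')) z := by
  have h1 := (hg.norm_sq).log (by positivity)
  have h2 := h1.const_mul (1 / 2 : ℝ)
  have h3 : (fun w => (1 / 2 : ℝ) * Real.log (‖g w‖ ^ 2)) = fun w => Real.log ‖g w‖ := by
    funext w
    rw [Real.log_pow]
    push_cast
    ring
  rw [h3] at h2
  refine h2.congr_fderiv ?_
  ext h
  simp
  ring

end CHVM

open CHVM in
theorem specCHV (hLIN : SpecLIN) : SpecCHV := by
  intro f g F G φ ψ Ω z₀ δ r₀ L hP _ hD hQ hr0 hr1 hL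
  set A : Set ℂ := {z | z ∈ Ω ∧ r₀ < ‖G (φ z)‖} with hA
  have hφc : Continuous φ := hD.sm.continuous
  have hGc : ContinuousOn (fun z => G (φ z)) Ω := by
    intro z hz
    exact ((hQ.gan (φ z) ⟨z, hz, rfl⟩).continuousAt.comp hφc.continuousAt).continuousWithinAt
  have hAo : IsOpen A := by
    have h1 := hGc.norm.isOpen_inter_preimage hP.op (isOpen_Ioi (a := r₀))
    have h2 : A = Ω ∩ (fun z => ‖G (φ z)‖) ⁻¹' Ioi r₀ := by
      ext z; simp [hA]
    rw [h2]; exact h1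
  have himg : (fun z => G (φ z)) '' A = {ζ : ℂ | r₀ < ‖ζ‖ ∧ ‖ζ‖ < 1} := by
    ext ζ
    constructor
    · rintro ⟨z, ⟨hz, hz'⟩, rfl⟩
      exact ⟨hz', hQ.gm _ ⟨z, hz, rfl⟩⟩
    · rintro ⟨h1, h2⟩
      have h3 : F ζ ∈ φ '' Ω := by
        rw [← hQ.im]
        exact ⟨ζ, by simpa using h2, rfl⟩
      obtain ⟨z, hz, hz'⟩ := h3
      have h4 : G (φ z) = ζ := by
        rw [hz']
        exact hQ.GF ζ (by simpa using h2)
      exact ⟨z, ⟨hz, by rw [h4]; exact h1⟩, h4⟩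
  have hψ : ∀ z ∈ Ω, ψ (F (G (φ z))) = z := by
    intro z hz
    rw [hQ.FG _ ⟨z, hz, rfl⟩, hD.l]
  have hinj : InjOn (fun z => G (φ z)) A := by
    intro z hz w hw h
    have h1 := hψ z hz.1
    have h2 := hψ w hw.1
    have h3 : G (φ z) = G (φ w) := h
    rw [h3] at h1
    exact h1.symm.trans h2
  have hsub : A ⊆ {z | z ∈ Ω ∧ Real.exp (-L) < ‖g z‖} := by
    intro z hz
    refine ⟨hz.1, ?_⟩
    have h1 := hL (G (φ z)) hz.2 (hQ.gm _ ⟨z, hz.1, rfl⟩)
    rwa [hψ z hz.1] at h1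
  have hder : ∀ z ∈ Ω, HasFDerivAt (fun z => G (φ z))
      (lmap (deriv G (φ z) * dZ φ z) (deriv G (φ z) * dB φ z)) z := by
    intro z hz
    have h1 : HasDerivAt G (deriv G (φ z)) (φ z) :=
      (hQ.gan (φ z) ⟨z, hz, rfl⟩).differentiableAt.hasDerivAt
    have h2 : HasFDerivAt φ (fderiv ℝ φ z) z :=
      (hD.sm.differentiable (by norm_num) z).hasFDerivAt
    have h3 := (h1.hasFDerivAt.restrictScalars ℝ).comp z h2
    refine h3.congr_fderiv ?_
    rw [fderiv_eq]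
    ext h
    simp [lmap_apply]
    ring
  rw [← himg, lintegral_image_eq_lintegral_abs_det_fderiv_mul volume hAo.measurableSet
    (fun z hz => (hder z hz.1).hasFDerivWithinAt) hinj]
  refine le_trans (le_of_eq ?_) (lintegral_mono_set hsub)
  refine setLIntegral_congr_fun hAo.measurableSet ?_
  intro z hz
  have hzΩ := hz.1
  have hζ : G (φ z) ∈ ball (0 : ℂ) 1 := by
    have := hQ.gm _ ⟨z, hzΩ, rfl⟩
    simpa using this
  have hgz : g z ≠ 0 := by
    have h1 := (hsub hz).2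
    intro h0
    rw [h0, norm_zero] at h1
    exact absurd h1 (not_lt.mpr (Real.exp_pos _).le)
  have hG' : deriv G (φ z) ≠ 0 := hQ.dG _ ⟨z, hzΩ, rfl⟩
  have hjac : 0 < Jac φ z := hD.jac z
  set d := deriv G (φ z) with hd
  have hd0 : 0 < ‖d‖ := norm_pos_iff.mpr hG'
  -- the derivative of `u`
  have hgd : HasDerivAt g (deriv g z) z := (hP.gan z hzΩ).differentiableAt.hasDerivAt
  have hu : DifferentiableAt ℝ (fun w => - Real.log ‖g (ψ (F w))‖) (G (φ z)) := by
    have h1 : DifferentiableAt ℝ F (G (φ z)) :=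
      ((hQ.an _ hζ).differentiableAt).restrictScalars ℝ
    have h2 : DifferentiableAt ℝ ψ (F (G (φ z))) := hD.sm'.differentiable (by norm_num) _
    have h3 : DifferentiableAt ℝ g (ψ (F (G (φ z)))) := by
      rw [hψ z hzΩ]
      exact ((hP.gan z hzΩ).differentiableAt).restrictScalars ℝ
    have h4 : DifferentiableAt ℝ (fun w => g (ψ (F w))) (G (φ z)) :=
      h3.comp (G (φ z)) (h2.comp (G (φ z)) h1)
    have h5 : g (ψ (F (G (φ z)))) ≠ 0 := by rw [hψ z hzΩ]; exact hgz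
    exact (hasFDerivAt_log_norm h4.hasFDerivAt h5).differentiableAt.neg
  set l : ℂ →L[ℝ] ℝ := fderiv ℝ (fun w => - Real.log ‖g (ψ (F w))‖) (G (φ z)) with hl
  have hcomp : HasFDerivAt (fun w => - Real.log ‖g w‖)
      (l.comp (lmap (d * dZ φ z) (d * dB φ z))) z := by
    have h1 := HasFDerivAt.comp z (f := fun z => G (φ z))
      (g := fun w => - Real.log ‖g (ψ (F w))‖) hu.hasFDerivAt (hder z hzΩ)
    refine h1.congr_of_eventuallyEq ?_
    filter_upwards [hP.op.mem_nhds hzΩ] with w hw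
    simp only [Function.comp]
    rw [hψ w hw]
  have hlog : HasFDerivAt (fun w => - Real.log ‖g w‖)
      (-((‖g z‖ ^ 2)⁻¹ • ((innerSL ℝ (g z)).comp
        ((ContinuousLinearMap.toSpanSingleton ℂ (deriv g z)).restrictScalars ℝ)))) z :=
    (hasFDerivAt_log_norm (hgd.hasFDerivAt.restrictScalars ℝ) hgz).neg
  have heq := hcomp.unique hlog
  have hkey : ∀ h : ℂ, l ((d * dZ φ z) * h + (d * dB φ z) * conj h) =
      -((deriv g z / g z) * h).re := by
    intro h
    have h1 := congrArg (fun m : ℂ →L[ℝ] ℝ => m h) heq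
    simp only [ContinuousLinearMap.comp_apply, lmap_apply] at h1
    rw [h1]
    simp only [neg_apply, smul_apply,
      ContinuousLinearMap.comp_apply, innerSL_apply_apply, smul_eq_mul,
      ContinuousLinearMap.coe_restrictScalars', ContinuousLinearMap.toSpanSingleton_apply,
      Complex.inner]
    congr 1
    have h2 : (deriv g z / g z) * h = ((‖g z‖ ^ 2)⁻¹ : ℝ) * (h * deriv g z * conj (g z)) := by
      rw [← Complex.normSq_eq_norm_sq]
      have h3 : (g z) * conj (g z) = (normSq (g z) : ℂ) := Complex.mul_conj _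
      have h4 : (normSq (g z) : ℂ) ≠ 0 := by
        exact_mod_cast (Complex.normSq_pos.mpr hgz).ne'
      push_cast
      rw [← h3]
      have h5 : conj (g z) ≠ 0 := by
        intro h; exact hgz (by simpa using h)
      field_simp
    rw [h2, Complex.re_ofReal_mul]
  have hab : ‖d * dB φ z‖ < ‖d * dZ φ z‖ := by
    rw [norm_mul, norm_mul]
    refine mul_lt_mul_of_pos_left ?_ hd0
    have h1 : ‖dB φ z‖ ^ 2 < ‖dZ φ z‖ ^ 2 := by
      have := hjac; unfold Jac at this; linarith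
    exact lt_of_pow_lt_pow_left₀ 2 (norm_nonneg _) h1
  have hlin := hLIN (d * dZ φ z) (d * dB φ z) (deriv g z / g z) l hab hkey
  have hdet : (lmap (d * dZ φ z) (d * dB φ z)).det = ‖d * dZ φ z‖ ^ 2 - ‖d * dB φ z‖ ^ 2 :=
    lmap_det _ _
  have hdp : 0 < ‖d * dZ φ z‖ ^ 2 - ‖d * dB φ z‖ ^ 2 := by
    have := pow_lt_pow_left₀ hab (norm_nonneg _) (by norm_num : (2 : ℕ) ≠ 0)
    linarith
  show ENNReal.ofReal |(lmap (d * dZ φ z) (d * dB φ z)).det| * ENNReal.ofReal (‖l‖ ^ 2) =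
    ENNReal.ofReal (YQ (qG g) φ z)
  rw [hdet, abs_of_pos hdp, ← ENNReal.ofReal_mul hdp.le, mul_comm, hlin]
  congr 1
  unfold YQ qG
  have h1 : ‖d * dZ φ z‖ ^ 2 - ‖d * dB φ z‖ ^ 2 = ‖d‖ ^ 2 * Jac φ z := by
    rw [norm_mul, norm_mul]; unfold Jac; ring
  have h2 : conj (d * dZ φ z) * (d * dB φ z) * (deriv g z / g z) ^ 2 =
      ((‖d‖ ^ 2 : ℝ) : ℂ) * (conj (dZ φ z) * dB φ z * (deriv g z / g z) ^ 2) := by
    have h3 : ((‖d‖ ^ 2 : ℝ) : ℂ) = conj d * d := by
      rw [← Complex.normSq_eq_norm_sq, Complex.normSq_eq_conj_mul_self]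
    rw [h3, map_mul]
    ring
  rw [h1, h2, Complex.re_ofReal_mul, norm_mul, norm_mul, norm_pow]
  have h4 : Jac φ z ≠ 0 := hjac.ne'
  have h5 : ‖d‖ ≠ 0 := hd0.ne'
  field_simp

end

end Pool.Agent.Lib.MP250511.SB
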