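import Pool.Agent.Lib.MP_250511_an.SB.SpecE

/-!
# Module CPX: the complex form of the Euler-Lagrange equation.
-/

set_option autoImplicit false

namespace Pool.Agent.Lib.MP250511.SB

open Complex Metric Set MeasureTheory Filter Topology
open scoped Real ENNReal ComplexConjugate ContDiff

noncomputable section

namespace CPXM

theorem dB_mul_I (v : ℂ → ℂ) (hv : ContDiff ℝ ∞ v) (z : ℂ) :
    dB (fun w => I * v w) z = I * dB v z := by
  have hd : DifferentiableAt ℝ v z := (hv.differentiable (by simp)) z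
  unfold dB
  rw [fderiv_const_mul hd I]
  simp only [smul_apply, smul_eq_mul]
  ring

theorem dB_zero (z : ℂ) : dB (fun _ => (0 : ℂ)) z = 0 := by
  unfold dB
  simp

theorem int1 {Ω : Set ℂ} {ρ : ℝ} {ν : Measure (ℂ × ℂ)} (hf : IsFiniteMeasure ν)
    (h0 : ν (CC Ω ρ)ᶜ = 0) (w : ℂ × ℂ → ℂ) (hw : Continuous w) (C : ℝ) (hC : ∀ x, ‖w x‖ ≤ C) :
    Integrable (fun x : ℂ × ℂ => conj (x.2 - x.1) * w x) ν := by
  have hm : Continuous (fun x : ℂ × ℂ => conj (x.2 - x.1) * w x) :=
    (Complex.continuous_conj.comp (continuous_snd.sub continuous_fst)).mul hw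
  refine Integrable.of_bound hm.aestronglyMeasurable (ρ * C) ?_
  have hae : ∀ᵐ x ∂ν, x ∈ CC Ω ρ := by
    rw [ae_iff]
    exact h0
  filter_upwards [hae] with x hx
  have hd : ‖x.2 - x.1‖ = ρ := by
    rw [← dist_eq_norm]
    exact hx.2.2
  have hρ : 0 ≤ ρ := by
    rw [← hd]
    exact norm_nonneg _
  rw [norm_mul, RCLike.norm_conj, hd]
  exact mul_le_mul_of_nonneg_left (hC x) hρ

theorem re1 {Ω : Set ℂ} {ρ : ℝ} {ν : Measure (ℂ × ℂ)} (hf : IsFiniteMeasure ν)
    (h0 : ν (CC Ω ρ)ᶜ = 0) (v b : ℂ → ℂ) (hv : Continuous v) (hvc : HasCompactSupport v)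
    (hb : Continuous b) (hbc : HasCompactSupport b) :
    ∫ x, VF ρ v b x ∂ν = (∫ x, conj (x.2 - x.1) * (v x.2 - b x.1) ∂ν).re / ρ := by
  obtain ⟨C1, hC1⟩ := hvc.exists_bound_of_continuous hv
  obtain ⟨C2, hC2⟩ := hbc.exists_bound_of_continuous hb
  have hi := int1 hf h0 (fun x : ℂ × ℂ => v x.2 - b x.1)
    ((hv.comp continuous_snd).sub (hb.comp continuous_fst)) (C1 + C2)
    (fun x => (norm_sub_le _ _).trans (add_le_add (hC1 _) (hC2 _)))
  unfold VF
  rw [integral_div]
  congr 1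
  exact Complex.reCLM.integral_comp_comm hi

end CPXM

theorem specCPX : SpecCPX := by
  intro g Ω ρ ν hρ hf h0 H
  have key : ∀ v b : ℂ → ℂ, ContDiff ℝ ∞ v → HasCompactSupport v → (0 : ℂ) ∉ tsupport v →
      Continuous b → HasCompactSupport b →
      ρ ^ 2 / π * (∫ z in Ω, dB v z * qG g z).re =
        (∫ x, conj (x.2 - x.1) * (v x.2 - b x.1) ∂ν).re := by
    intro v b hv hvc hv0 hb hbc
    have h1 := H v b hv hvc hv0 hb hbc
    rw [CPXM.re1 hf h0 v b hv.continuous hvc hb hbc] at h1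
    have h2 : ρ ^ 2 / π * (∫ z in Ω, dB v z * qG g z).re =
        ρ * (ρ / π * (∫ z in Ω, dB v z * qG g z).re) := by ring
    rw [h2, h1, mul_div_assoc']
    exact mul_div_cancel_left₀ _ hρ.ne'
  have z1 : ContDiff ℝ ∞ (fun _ : ℂ => (0 : ℂ)) := contDiff_const
  have z2 : HasCompactSupport (fun _ : ℂ => (0 : ℂ)) := HasCompactSupport.zero
  have z3 : (0 : ℂ) ∉ tsupport (fun _ : ℂ => (0 : ℂ)) := by
    have : tsupport (fun _ : ℂ => (0 : ℂ)) = ∅ := by
      rw [tsupport_eq_empty_iff]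
      rfl
    rw [this]
    exact notMem_empty _
  have z4 : Continuous (fun _ : ℂ => (0 : ℂ)) := continuous_const
  refine ⟨?_, ?_⟩
  · intro v hv hvc hv0
    have a1 := key v (fun _ => 0) hv hvc hv0 z4 z2
    have hIc : HasCompactSupport (fun w => I * v w) := hvc.mul_left
    have hI0 : (0 : ℂ) ∉ tsupport (fun w => I * v w) :=
      fun h => hv0 (tsupport_mul_subset_right h)
    have a2 := key (fun w => I * v w) (fun _ => 0) (contDiff_const.mul hv) hIc hI0 z4 z2
    have e1 : ∫ z in Ω, dB (fun w => I * v w) z * qG g z =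
        I * ∫ z in Ω, dB v z * qG g z := by
      rw [← integral_const_mul]
      congr 1
      funext z
      rw [CPXM.dB_mul_I v hv z, mul_assoc]
    have e2 : ∫ x, conj (x.2 - x.1) * (I * v x.2 - 0) ∂ν =
        I * ∫ x, conj (x.2 - x.1) * v x.2 ∂ν := by
      rw [← integral_const_mul]
      congr 1
      funext x
      ring
    have e3 : ∫ x, conj (x.2 - x.1) * (v x.2 - 0) ∂ν =
        ∫ x, conj (x.2 - x.1) * v x.2 ∂ν := by
      simp only [sub_zero]
    rw [e3] at a1
    rw [e1, e2, I_mul_re, I_mul_re] at a2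
    apply Complex.ext
    · rw [re_ofReal_mul]
      exact a1
    · rw [im_ofReal_mul]
      linarith
  · intro b hb hbc
    have hIb : Continuous (fun w => I * b w) := continuous_const.mul hb
    have hIc : HasCompactSupport (fun w => I * b w) := hbc.mul_left
    have a1 := key (fun _ => 0) b z1 z2 z3 hb hbc
    have a2 := key (fun _ => 0) (fun w => I * b w) z1 z2 z3 hIb hIc
    have e0 : ∫ z in Ω, dB (fun _ => (0 : ℂ)) z * qG g z = 0 := by
      simp only [CPXM.dB_zero, zero_mul, integral_zero]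
    have e1 : ∫ x, conj (x.2 - x.1) * (0 - b x.1) ∂ν =
        (-1) * ∫ x, conj (x.2 - x.1) * b x.1 ∂ν := by
      rw [← integral_const_mul]
      congr 1
      funext x
      ring
    have e2 : ∫ x, conj (x.2 - x.1) * (0 - I * b x.1) ∂ν =
        (-I) * ∫ x, conj (x.2 - x.1) * b x.1 ∂ν := by
      rw [← integral_const_mul]
      congr 1
      funext x
      ring
    rw [e0, e1] at a1
    rw [e0, e2] at a2
    simp only [zero_re, mul_zero, neg_mul, one_mul, neg_re, I_mul_re, neg_neg] at a1 a2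
    apply Complex.ext
    · rw [zero_re]
      linarith
    · rw [zero_im]
      linarith

end

end Pool.Agent.Lib.MP250511.SB
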