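import Pool.Agent.Lib.MP_250511_an.SB.SpecE

/-!
# MP_250511_an, module CUT: the cut off scaling fields
-/

set_option autoImplicit false

namespace Pool.Agent.Lib.MP250511.SB

open Complex Metric Set MeasureTheory Filter Topology
open scoped Real ENNReal ComplexConjugate ContDiff

noncomputable section

namespace CUTM

theorem chi_contDiff (R : ℝ) : ContDiff ℝ ∞ (chi R) := by
  have h1 : ContDiff ℝ ∞ (fun z : ℂ => 2 - ‖z‖ ^ 2 / R ^ 2) :=
    contDiff_const.sub ((contDiff_norm_sq ℝ).div_const (R ^ 2))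
  exact Real.smoothTransition.contDiff.comp h1

theorem chi_nonneg (R : ℝ) (z : ℂ) : 0 ≤ chi R z := Real.smoothTransition.nonneg _

theorem chi_le_one (R : ℝ) (z : ℂ) : chi R z ≤ 1 := Real.smoothTransition.le_one _

theorem chi_one (R : ℝ) (hR : 0 < R) (z : ℂ) (hz : ‖z‖ ≤ R) : chi R z = 1 := by
  refine Real.smoothTransition.one_of_one_le ?_
  have h1 : ‖z‖ ^ 2 / R ^ 2 ≤ 1 := by
    rw [div_le_one (by positivity)]
    exact pow_le_pow_left₀ (norm_nonneg z) hz 2
  linarith

theorem chi_zero (R : ℝ) (hR : 0 < R) (z : ℂ) (hz : 2 * R ^ 2 ≤ ‖z‖ ^ 2) : chi R z = 0 := by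
  refine Real.smoothTransition.zero_of_nonpos ?_
  have h1 : 2 ≤ ‖z‖ ^ 2 / R ^ 2 := by
    rw [le_div_iff₀ (by positivity)]
    exact hz
  linarith

theorem chi_far (R : ℝ) (hR : 0 < R) (z : ℂ) (hz : z ∉ closedBall (0 : ℂ) (2 * R)) : chi R z = 0 := by
  refine chi_zero R hR z ?_
  have h1 : 2 * R < ‖z‖ := by
    rw [mem_closedBall, dist_zero_right, not_le] at hz
    exact hz
  have h2 : (2 * R) ^ 2 ≤ ‖z‖ ^ 2 := pow_le_pow_left₀ (by positivity) h1.le 2
  nlinarith [sq_nonneg R]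

theorem ofReal_contDiff (u : ℂ → ℝ) (hu : ContDiff ℝ ∞ u) : ContDiff ℝ ∞ (fun z => ((u z : ℝ) : ℂ)) :=
  Complex.ofRealCLM.contDiff.comp hu

end CUTM

open CUTM in
theorem specCUT : SpecCUT := by
  intro r R hr hR
  refine ⟨chi_contDiff R, ?_, ?_, ?_, ?_, ?_, fun z => ⟨chi_nonneg R z, chi_le_one R z⟩, chi_one R hR,
    chi_zero R hR⟩
  · exact contDiff_id.mul (ofReal_contDiff _ ((chi_contDiff R).mul (contDiff_const.sub (chi_contDiff r))))
  · refine HasCompactSupport.intro (isCompact_closedBall (0 : ℂ) (2 * R)) fun z hz => ?_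
    simp only [vR, chi_far R hR z hz, zero_mul, Complex.ofReal_zero, mul_zero]
  · rw [notMem_tsupport_iff_eventuallyEq]
    filter_upwards [closedBall_mem_nhds (0 : ℂ) hr] with z hz
    rw [mem_closedBall, dist_zero_right] at hz
    simp only [vR, chi_one r hr z hz, sub_self, mul_zero, Complex.ofReal_zero, Pi.zero_apply]
  · exact continuous_id.mul (ofReal_contDiff _ (chi_contDiff R)).continuous
  · refine HasCompactSupport.intro (isCompact_closedBall (0 : ℂ) (2 * R)) fun z hz => ?_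
    simp only [bR, chi_far R hR z hz, Complex.ofReal_zero, mul_zero]

end

end Pool.Agent.Lib.MP250511.SB
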