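import Pool.Agent.Lib.MP_250511_an.SB.SpecR

/-!
# Module CVZ: the test fields
-/

set_option autoImplicit false

namespace Pool.Agent.Lib.MP250511.SB

open Complex Metric Set MeasureTheory Filter Topology
open scoped Real ENNReal ComplexConjugate ContDiff

noncomputable section

namespace CVZM

/-! ### `∂̄` -/

theorem dB_congr {u v : ℂ → ℂ} {z : ℂ} (h : u =ᶠ[𝓝 z] v) : dB u z = dB v z := by
  unfold dB
  rw [h.fderiv_eq]

theorem dB_const (c z : ℂ) : dB (fun _ => c) z = 0 := by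
  unfold dB
  simp

theorem dB_mul {u v : ℂ → ℂ} {z : ℂ} (hu : DifferentiableAt ℝ u z) (hv : DifferentiableAt ℝ v z) :
    dB (fun z => u z * v z) z = u z * dB v z + v z * dB u z := by
  unfold dB
  rw [fderiv_fun_mul hu hv]
  simp only [_root_.add_apply, _root_.smul_apply, smul_eq_mul]
  ring

theorem dB_hol {u : ℂ → ℂ} {z : ℂ} (hu : DifferentiableAt ℂ u z) : dB u z = 0 := by
  unfold dB
  have h1 : fderiv ℝ u z = (fderiv ℂ u z).restrictScalars ℝ := hu.fderiv_restrictScalars ℝ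
  rw [h1]
  have h2 : fderiv ℂ u z I = I * fderiv ℂ u z 1 := by
    have h3 := (fderiv ℂ u z).map_smul I 1
    rw [smul_eq_mul, mul_one, smul_eq_mul] at h3
    exact h3
  rw [ContinuousLinearMap.coe_restrictScalars', h2, ← mul_assoc, I_mul_I]
  ring

/-! ### the transition function -/

theorem dT1 {t : ℝ} (ht : 1 ≤ t) : deriv Real.smoothTransition t = 0 := by
  refine IsLocalMax.deriv_eq_zero (Eventually.of_forall fun s => ?_)
  rw [Real.smoothTransition.one_of_one_le ht]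
  exact Real.smoothTransition.le_one s

theorem dT0 {t : ℝ} (ht : t ≤ 0) : deriv Real.smoothTransition t = 0 := by
  refine IsLocalMin.deriv_eq_zero (Eventually.of_forall fun s => ?_)
  rw [Real.smoothTransition.zero_of_nonpos ht]
  exact Real.smoothTransition.nonneg s

theorem Ker_in {r : ℝ} (hr : 0 < r) {z : ℂ} (hz : ‖z‖ ≤ r) : Ker r z = 0 := by
  unfold Ker
  rw [dT1]
  · simp
  · have h1 : ‖z‖ ^ 2 / r ^ 2 ≤ 1 := by
      rw [div_le_one (by positivity)]
      exact pow_le_pow_left₀ (norm_nonneg _) hz 2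
    linarith

theorem Ker_out {r : ℝ} (hr : 0 < r) {z : ℂ} (hz : 2 * r ^ 2 ≤ ‖z‖ ^ 2) : Ker r z = 0 := by
  unfold Ker
  rw [dT0]
  · simp
  · have h1 : 2 ≤ ‖z‖ ^ 2 / r ^ 2 := by
      rw [le_div_iff₀ (by positivity)]
      exact hz
    linarith

theorem sq_bound {r x : ℝ} (hr : 0 < r) (hx : 2 * r ≤ x) : 2 * r ^ 2 ≤ x ^ 2 := by nlinarith

/-- where `Ker` does not vanish -/
theorem Ker_ne {r : ℝ} (hr : 0 < r) {z : ℂ} (hz : Ker r z ≠ 0) : r < ‖z‖ ∧ ‖z‖ < 2 * r := by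
  constructor
  · by_contra h
    exact hz (Ker_in hr (not_lt.mp h))
  · by_contra h
    exact hz (Ker_out hr (sq_bound hr (not_lt.mp h)))

theorem hchi (R : ℝ) (z : ℂ) : HasFDerivAt (chi R)
    (deriv Real.smoothTransition (2 - ‖z‖ ^ 2 / R ^ 2) • -((R ^ 2)⁻¹ • ((2 : ℝ) • innerSL ℝ z))) z := by
  have h1 : HasFDerivAt (fun z : ℂ => ‖z‖ ^ 2) ((2 : ℝ) • innerSL ℝ z) z := by
    have h0 := (hasStrictFDerivAt_norm_sq z).hasFDerivAt
    rw [two_smul] at h0 ⊢
    exact h0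
  have h2 : HasFDerivAt (fun z : ℂ => 2 - ‖z‖ ^ 2 / R ^ 2) (-((R ^ 2)⁻¹ • ((2 : ℝ) • innerSL ℝ z))) z := by
    have h3 := (h1.const_mul ((R ^ 2)⁻¹)).const_sub 2
    refine h3.congr_of_eventuallyEq (Eventually.of_forall fun w => ?_)
    show 2 - ‖w‖ ^ 2 / R ^ 2 = 2 - (R ^ 2)⁻¹ * ‖w‖ ^ 2
    ring
  have h4 : HasDerivAt Real.smoothTransition (deriv Real.smoothTransition (2 - ‖z‖ ^ 2 / R ^ 2))
      (2 - ‖z‖ ^ 2 / R ^ 2) := by
    have h5 : ContDiff ℝ 1 Real.smoothTransition := Real.smoothTransition.contDiff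
    exact (h5.differentiable (by norm_num) _).hasDerivAt
  exact h4.comp_hasFDerivAt z h2

theorem dchi (R : ℝ) (z : ℂ) : DifferentiableAt ℝ (fun z => ((chi R z : ℝ) : ℂ)) z :=
  (ofRealCLM.hasFDerivAt.comp z (hchi R z)).differentiableAt

theorem dB_chi (R : ℝ) (z : ℂ) : dB (fun z => ((chi R z : ℝ) : ℂ)) z = -(Ker R z * z) := by
  have h1 : fderiv ℝ (fun z => ((chi R z : ℝ) : ℂ)) z = ofRealCLM.comp
      (deriv Real.smoothTransition (2 - ‖z‖ ^ 2 / R ^ 2) • -((R ^ 2)⁻¹ • ((2 : ℝ) • innerSL ℝ z))) :=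
    (ofRealCLM.hasFDerivAt.comp z (hchi R z)).fderiv
  unfold dB
  rw [h1]
  have h2 : ∀ w : ℂ, (ofRealCLM.comp
      (deriv Real.smoothTransition (2 - ‖z‖ ^ 2 / R ^ 2) • -((R ^ 2)⁻¹ • ((2 : ℝ) • innerSL ℝ z)))) w =
      ((deriv Real.smoothTransition (2 - ‖z‖ ^ 2 / R ^ 2) * -((R ^ 2)⁻¹ * (2 * (conj z * w).re)) : ℝ) : ℂ) := by
    intro w
    simp [Complex.inner, mul_comm]
    ring
  rw [h2, h2]
  have h3 : (conj z * 1).re = z.re := by simp
  have h4 : (conj z * I).re = z.im := by simp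
  rw [h3, h4]
  unfold Ker
  have h5 : z = (z.re : ℂ) + (z.im : ℂ) * I := (re_add_im z).symm
  set T := deriv Real.smoothTransition (2 - ‖z‖ ^ 2 / R ^ 2) with hT
  have h6 : -(((T / R ^ 2 : ℝ) : ℂ) * z) = -(((T / R ^ 2 : ℝ) : ℂ) * ((z.re : ℂ) + (z.im : ℂ) * I)) := by
    rw [← h5]
  rw [h6]
  push_cast
  ring

/-! ### the first field -/

theorem dB_one_sub {u : ℂ → ℂ} {z : ℂ} : dB (fun z => 1 - u z) z = -dB u z := by
  unfold dB
  rw [fderiv_const_sub]
  simp only [_root_.neg_apply]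
  ring

theorem cR_eq (r R : ℝ) : cR r R = fun z => ((chi R z : ℝ) : ℂ) * (1 - ((chi r z : ℝ) : ℂ)) := by
  funext z
  unfold cR
  push_cast
  ring

theorem dB_cR (hCUT : SpecCUT) {r R : ℝ} (hr : 0 < r) (hR : 2 * r < R) (z : ℂ) :
    dB (cR r R) z = Ker r z * z - Ker R z * z := by
  obtain ⟨-, -, -, -, -, -, -, hin, -⟩ := hCUT r R hr (by linarith)
  obtain ⟨-, -, -, -, -, -, -, -, hout⟩ := hCUT r r hr hr
  have h0 : DifferentiableAt ℝ (fun z => (1 : ℂ) - ((chi r z : ℝ) : ℂ)) z :=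
    (differentiableAt_const _).sub (dchi r z)
  rw [cR_eq, dB_mul (dchi R z) h0, dB_one_sub, dB_chi, dB_chi]
  have h1 : ((chi R z : ℝ) : ℂ) * Ker r z = Ker r z := by
    by_cases h : Ker r z = 0
    · rw [h, mul_zero]
    · have h2 := Ker_ne hr h
      rw [hin z (by linarith), ofReal_one, one_mul]
  have h3 : ((chi r z : ℝ) : ℂ) * Ker R z = 0 := by
    by_cases h : Ker R z = 0
    · rw [h, mul_zero]
    · have h2 := Ker_ne (by linarith : 0 < R) h
      rw [hout z (sq_bound hr (by linarith)), ofReal_zero, zero_mul]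
  linear_combination z * h1 + z * h3

theorem cR_smooth (hCUT : SpecCUT) {r R : ℝ} (hr : 0 < r) (hR : 2 * r < R) : ContDiff ℝ ∞ (cR r R) := by
  have h1 := (hCUT r R hr (by linarith)).1
  have h2 := (hCUT r r hr hr).1
  have h3 : ContDiff ℝ ∞ fun z => chi R z * (1 - chi r z) := h1.mul (contDiff_const.sub h2)
  exact ofRealCLM.contDiff.comp h3

theorem cR_compact (hCUT : SpecCUT) {r R : ℝ} (hr : 0 < r) (hR : 2 * r < R) : HasCompactSupport (cR r R) := by
  obtain ⟨-, -, -, -, -, -, -, -, hout⟩ := hCUT r R hr (by linarith)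
  refine HasCompactSupport.of_support_subset_isCompact (isCompact_closedBall (0 : ℂ) (2 * R)) fun z hz => ?_
  rw [mem_closedBall_zero_iff]
  by_contra h
  refine hz ?_
  unfold cR
  rw [hout z (sq_bound (by linarith) (not_le.mp h).le), zero_mul, ofReal_zero]

theorem cR_zero (hCUT : SpecCUT) {r R : ℝ} (hr : 0 < r) (_hR : 2 * r < R) : (0 : ℂ) ∉ tsupport (cR r R) := by
  obtain ⟨-, -, -, -, -, -, -, hin, -⟩ := hCUT r r hr hr
  rw [notMem_tsupport_iff_eventuallyEq]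
  filter_upwards [ball_mem_nhds (0 : ℂ) hr] with z hz
  unfold cR
  rw [hin z (mem_ball_zero_iff.mp hz).le, sub_self, mul_zero, ofReal_zero]
  rfl

/-! ### the second field -/

theorem a_eq (ζ : ℂ) (δ : ℝ) : (fun z => ((1 - chi δ (z - ζ) : ℝ) : ℂ)) = fun z => 1 - ((chi δ (z - ζ) : ℝ) : ℂ) := by
  funext z
  push_cast
  ring

theorem dB_shift (δ : ℝ) (ζ z : ℂ) : dB (fun z => ((chi δ (z - ζ) : ℝ) : ℂ)) z = -(Ker δ (z - ζ) * (z - ζ)) := by
  rw [← dB_chi δ (z - ζ)]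
  unfold dB
  rw [fderiv_comp_sub (f := fun z => ((chi δ z : ℝ) : ℂ))]

theorem dshift (δ : ℝ) (ζ z : ℂ) : DifferentiableAt ℝ (fun z => ((chi δ (z - ζ) : ℝ) : ℂ)) z :=
  (dchi δ (z - ζ)).comp z (differentiableAt_id.sub_const ζ)

theorem vZ_near (hCUT : SpecCUT) {r R δ : ℝ} (hr : 0 < r) (hδ : 0 < δ) (ζ : ℂ) :
    vZ ζ δ r R =ᶠ[𝓝 ζ] fun _ => 0 := by
  obtain ⟨-, -, -, -, -, -, -, hin, -⟩ := hCUT r δ hr hδ
  filter_upwards [ball_mem_nhds ζ hδ] with z hz
  unfold vZ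
  rw [hin (z - ζ) (mem_ball_iff_norm.mp hz).le, sub_self, ofReal_zero, mul_zero, zero_mul]

end CVZM

open CVZM in
theorem specCVZ (hCUT : SpecCUT) : SpecCVZ := by
  intro r R hr hR
  refine ⟨⟨cR_smooth hCUT hr hR, cR_compact hCUT hr hR, cR_zero hCUT hr hR, dB_cR hCUT hr hR⟩, ?_⟩
  intro ζ δ hδ h1 h2
  have hR0 : 0 < R := by linarith
  have hsm := cR_smooth hCUT hr hR
  refine ⟨?_, ?_, ?_, ?_⟩
  · -- smoothness
    rw [contDiff_iff_contDiffAt]
    intro z
    by_cases hz : z = ζ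
    · rw [hz]
      exact contDiffAt_const.congr_of_eventuallyEq (vZ_near hCUT hr hδ ζ)
    · have h3 : ContDiffAt ℝ ∞ (fun z : ℂ => (z - ζ)⁻¹) z :=
        (contDiffAt_id.sub contDiffAt_const).inv (sub_ne_zero.mpr hz)
      have h4 : ContDiff ℝ ∞ (fun z : ℂ => ((1 - chi δ (z - ζ) : ℝ) : ℂ)) := by
        have h5 := (hCUT r δ hr hδ).1
        have h6 : ContDiff ℝ ∞ fun z : ℂ => 1 - chi δ (z - ζ) :=
          contDiff_const.sub (h5.comp (contDiff_id.sub contDiff_const))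
        exact ofRealCLM.contDiff.comp h6
      exact (h3.mul h4.contDiffAt).mul hsm.contDiffAt
  · exact (cR_compact hCUT hr hR).mul_left
  · have h3 := cR_zero hCUT hr hR
    rw [notMem_tsupport_iff_eventuallyEq] at h3 ⊢
    filter_upwards [h3] with z hz
    unfold vZ
    rw [hz]
    simp
  · intro z
    by_cases hz : z = ζ
    · rw [hz, dB_congr (vZ_near hCUT hr hδ ζ), dB_const, sub_self, div_zero, mul_zero, mul_zero,
        Ker_in hδ (by rw [norm_zero]; exact hδ.le)]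
      ring
    · have hz' : z - ζ ≠ 0 := sub_ne_zero.mpr hz
      have hhol : DifferentiableAt ℂ (fun z : ℂ => (z - ζ)⁻¹) z :=
        (differentiableAt_id.sub_const ζ).inv hz'
      have ha : DifferentiableAt ℝ (fun z : ℂ => ((1 - chi δ (z - ζ) : ℝ) : ℂ)) z := by
        rw [a_eq]
        exact (differentiableAt_const _).sub (dshift δ ζ z)
      have hc : DifferentiableAt ℝ (cR r R) z := (hsm.differentiable (by simp)) z
      have e1 : dB (vZ ζ δ r R) z = dB (fun z => ((z - ζ)⁻¹ * ((1 - chi δ (z - ζ) : ℝ) : ℂ)) * cR r R z) z := rfl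
      have hka : DifferentiableAt ℝ (fun z => (z - ζ)⁻¹ * ((1 - chi δ (z - ζ) : ℝ) : ℂ)) z :=
        (hhol.restrictScalars ℝ).mul ha
      rw [e1, dB_mul hka hc, dB_mul (hhol.restrictScalars ℝ) ha, dB_hol hhol,
        a_eq, dB_one_sub, dB_shift, dB_cR hCUT hr hR]
      obtain ⟨-, -, -, -, -, -, -, hinR, -⟩ := hCUT r R hr hR0
      obtain ⟨-, -, -, -, -, -, -, -, houtr⟩ := hCUT r r hr hr
      obtain ⟨-, -, -, -, -, -, -, -, houtδ⟩ := hCUT r δ hr hδ
      have n1 : ‖ζ‖ ≤ ‖z‖ + ‖z - ζ‖ := by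
        have h3 := norm_sub_le z (z - ζ)
        rwa [sub_sub_cancel] at h3
      have n2 : ‖z‖ ≤ ‖ζ‖ + ‖z - ζ‖ := by
        have h3 := norm_add_le ζ (z - ζ)
        rwa [add_sub_cancel] at h3
      have k1 : cR r R z * Ker δ (z - ζ) = Ker δ (z - ζ) := by
        by_cases h : Ker δ (z - ζ) = 0
        · rw [h, mul_zero]
        · have h3 := Ker_ne hδ h
          have h4 : cR r R z = 1 := by
            unfold cR
            rw [hinR z (by linarith), houtr z (sq_bound hr (by linarith)), sub_zero, one_mul, ofReal_one]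
          rw [h4, one_mul]
      have k2 : ((chi δ (z - ζ) : ℝ) : ℂ) * Ker r z = 0 := by
        by_cases h : Ker r z = 0
        · rw [h, mul_zero]
        · have h3 := Ker_ne hr h
          rw [houtδ (z - ζ) (sq_bound hδ (by linarith)), ofReal_zero, zero_mul]
      have k3 : ((chi δ (z - ζ) : ℝ) : ℂ) * Ker R z = 0 := by
        by_cases h : Ker R z = 0
        · rw [h, mul_zero]
        · have h3 := Ker_ne hR0 h
          rw [houtδ (z - ζ) (sq_bound hδ (by linarith)), ofReal_zero, zero_mul]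
      push_cast
      field_simp
      linear_combination (z - ζ) * k1 - z * k2 + z * k3

end

end Pool.Agent.Lib.MP250511.SB
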