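import Pool.Agent.Lib.MP_250511_an.SB.SpecE

set_option autoImplicit false

namespace Pool.Agent.Lib.MP250511.SB

open Complex Metric Set MeasureTheory Filter Topology
open scoped Real ENNReal ComplexConjugate ContDiff

namespace DCHM

/-- the derivative of the cutoff -/
theorem chiD (R : ℝ) (z : ℂ) : HasFDerivAt (chi R)
    (deriv Real.smoothTransition (2 - ‖z‖ ^ 2 / R ^ 2) • (-((R ^ 2)⁻¹ • ((2 : ℝ) • innerSL ℝ z)))) z := by
  have h1 : HasFDerivAt (fun z : ℂ => ‖z‖ ^ 2) ((2 : ℝ) • innerSL ℝ z) z := by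
    have h0 := (hasStrictFDerivAt_norm_sq z).hasFDerivAt
    refine h0.congr_fderiv ?_
    ext w
    simp
    ring
  have h2 : HasFDerivAt (fun z : ℂ => 2 - ‖z‖ ^ 2 / R ^ 2) (-((R ^ 2)⁻¹ • ((2 : ℝ) • innerSL ℝ z))) z := by
    have h0 := (h1.const_mul ((R ^ 2)⁻¹)).const_sub 2
    refine h0.congr_of_eventuallyEq (Eventually.of_forall (fun w => ?_))
    simp only
    rw [div_eq_inv_mul]
  have h3 : HasDerivAt Real.smoothTransition (deriv Real.smoothTransition (2 - ‖z‖ ^ 2 / R ^ 2))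
      (2 - ‖z‖ ^ 2 / R ^ 2) :=
    ((Real.smoothTransition.contDiff (n := 1)).differentiable one_ne_zero _).hasDerivAt
  exact h3.comp_hasFDerivAt z h2

/-- the real derivative of `z chi` -/
theorem zchiD (R : ℝ) (z : ℂ) : HasFDerivAt (fun z : ℂ => z * ((chi R z : ℝ) : ℂ))
    (z • (Complex.ofRealCLM.comp (deriv Real.smoothTransition (2 - ‖z‖ ^ 2 / R ^ 2) •
      (-((R ^ 2)⁻¹ • ((2 : ℝ) • innerSL ℝ z))))) + ((chi R z : ℝ) : ℂ) • ContinuousLinearMap.id ℝ ℂ) z :=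
  (hasFDerivAt_id z).mul (Complex.ofRealCLM.hasFDerivAt.comp z (chiD R z))

theorem dBz (R : ℝ) (z : ℂ) : dB (fun z => z * ((chi R z : ℝ) : ℂ)) z =
      -(((deriv Real.smoothTransition (2 - ‖z‖ ^ 2 / R ^ 2) : ℝ) : ℂ) * (z ^ 2 / (R : ℂ) ^ 2)) := by
  unfold dB
  rw [(zchiD R z).fderiv]
  obtain ⟨T, hT⟩ : ∃ T : ℝ, T = deriv Real.smoothTransition (2 - ‖z‖ ^ 2 / R ^ 2) := ⟨_, rfl⟩
  rw [← hT]
  have e1 : innerSL ℝ z (1 : ℂ) = z.re := by simp [Complex.inner]
  have e2 : innerSL ℝ z I = z.im := by simp [Complex.inner]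
  simp only [add_apply, smul_apply, ContinuousLinearMap.coe_comp, Function.comp_apply, neg_apply,
    ContinuousLinearMap.coe_id', id_eq, smul_eq_mul, Complex.ofRealCLM_apply]
  rw [e1, e2]
  push_cast
  have hz : z = (z.re : ℂ) + (z.im : ℂ) * I := (Complex.re_add_im z).symm
  have hI : I * I = -1 := Complex.I_mul_I
  have e3 : (z * ((T : ℂ) * -(((R : ℂ) ^ 2)⁻¹ * (2 * (z.re : ℂ)))) + ((chi R z : ℝ) : ℂ) * 1 +
      I * (z * ((T : ℂ) * -(((R : ℂ) ^ 2)⁻¹ * (2 * (z.im : ℂ)))) + ((chi R z : ℝ) : ℂ) * I)) / 2 =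
      -((T : ℂ) * (z * ((z.re : ℂ) + (z.im : ℂ) * I) / (R : ℂ) ^ 2)) + ((chi R z : ℝ) : ℂ) * (1 + I * I) / 2 := by
    ring
  rw [e3, hI, ← hz]
  ring

theorem derivT_zero {x : ℝ} (hx : x < 0 ∨ 1 < x) : deriv Real.smoothTransition x = 0 := by
  rcases hx with hx | hx
  · have h1 : Real.smoothTransition =ᶠ[𝓝 x] fun _ => (0 : ℝ) := by
      filter_upwards [Iio_mem_nhds hx] with y hy
      exact Real.smoothTransition.zero_of_nonpos (le_of_lt hy)
    rw [h1.deriv_eq, deriv_const]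
  · have h1 : Real.smoothTransition =ᶠ[𝓝 x] fun _ => (1 : ℝ) := by
      filter_upwards [Ioi_mem_nhds hx] with y hy
      exact Real.smoothTransition.one_of_one_le (le_of_lt hy)
    rw [h1.deriv_eq, deriv_const]

end DCHM

open DCHM

/-- the derivative of the cut off scaling field -/
theorem specDCH (hCUT : SpecCUT) : SpecDCH := by
  refine ⟨fun R _ z => dBz R z, ?_, ?_⟩
  · have hcont : Continuous (deriv Real.smoothTransition) :=
      (Real.smoothTransition.contDiff (n := 1)).continuous_deriv le_rfl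
    obtain ⟨B, hB⟩ := isCompact_Icc.exists_bound_of_continuousOn (s := Icc (0 : ℝ) 1) hcont.continuousOn
    have hB0 : 0 ≤ B := le_trans (norm_nonneg _) (hB 0 ⟨le_rfl, zero_le_one⟩)
    refine ⟨B * 2, by positivity, fun R hR z => ?_⟩
    rw [dBz, norm_neg, norm_mul, norm_div, norm_pow, norm_pow, Complex.norm_real, Complex.norm_real]
    obtain ⟨x, hx⟩ : ∃ x : ℝ, x = 2 - ‖z‖ ^ 2 / R ^ 2 := ⟨_, rfl⟩
    have hR2 : ‖R‖ ^ 2 = R ^ 2 := by rw [Real.norm_eq_abs, sq_abs]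
    rw [← hx, hR2]
    have hq : ‖z‖ ^ 2 / R ^ 2 = 2 - x := by rw [hx]; ring
    rw [hq]
    have hq0 : 0 ≤ 2 - x := by rw [← hq]; positivity
    by_cases h0 : x < 0 ∨ 1 < x
    · rw [derivT_zero h0, norm_zero, zero_mul]
      positivity
    · push Not at h0
      exact mul_le_mul (hB x ⟨h0.1, h0.2⟩) (by linarith [h0.1]) hq0 hB0
  · intro r R hr hrR z
    have hR : 0 < R := by linarith
    obtain ⟨_, _, _, _, _, _, _, hr1, hr2⟩ := hCUT r r hr hr
    obtain ⟨_, _, _, _, _, _, _, hR1, _⟩ := hCUT R R hR hR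
    have he : vR r R = fun z => z * ((chi R z : ℝ) : ℂ) - z * ((chi r z : ℝ) : ℂ) := by
      funext w
      have h1 : chi R w * chi r w = chi r w := by
        by_cases hw : 2 * r ^ 2 ≤ ‖w‖ ^ 2
        · rw [hr2 w hw, mul_zero]
        · push Not at hw
          have hw' : ‖w‖ ≤ R := by
            apply le_of_lt
            apply lt_of_pow_lt_pow_left₀ 2 hR.le
            nlinarith
          rw [hR1 w hw', one_mul]
      have h2 : chi R w * (1 - chi r w) = chi R w - chi r w := by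
        rw [mul_sub, mul_one, h1]
      unfold vR
      rw [h2]
      push_cast
      ring
    rw [he]
    unfold dB
    have h3 : fderiv ℝ (fun z : ℂ => z * ((chi R z : ℝ) : ℂ) - z * ((chi r z : ℝ) : ℂ)) z = _ :=
      ((zchiD R z).sub (zchiD r z)).fderiv
    rw [h3, (zchiD R z).fderiv, (zchiD r z).fderiv]
    simp only [sub_apply]
    ring

end Pool.Agent.Lib.MP250511.SB
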