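import Pool.Agent.Lib.MP_250511_an.SB.SpecE

/-!
# DIG (MP_250511_an): small deformations of the plane are diffeomorphisms (general support)
-/

set_option autoImplicit false

namespace Pool.Agent.Lib.MP250511.SB

open Complex Metric Set MeasureTheory Filter Topology
open scoped Real ENNReal ComplexConjugate ContDiff

namespace DIGM

/-- the deformation -/
noncomputable def ph (v : ℂ → ℂ) (ε : ℝ) : ℂ → ℂ := fun z => z + (ε : ℂ) * v z

lemma ph_eq (v : ℂ → ℂ) (ε : ℝ) : ph v ε = fun z => z + ε • v z := by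
  funext z
  simp [ph]

lemma approx {v : ℂ → ℂ} {C : NNReal} (hv : LipschitzWith C v) (ε : ℝ) :
    ApproximatesLinearOn (ph v ε) ((ContinuousLinearEquiv.refl ℝ ℂ : ℂ ≃L[ℝ] ℂ) : ℂ →L[ℝ] ℂ) univ
      (‖ε‖₊ * C) := by
  intro x _ y _
  have h : ph v ε x - ph v ε y - (ContinuousLinearEquiv.refl ℝ ℂ : ℂ ≃L[ℝ] ℂ) (x - y) =
      ε • (v x - v y) := by
    rw [ph_eq]
    simp only [ContinuousLinearEquiv.coe_refl', id_eq, real_smul]
    ring
  have h2 := hv.dist_le_mul x y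
  rw [dist_eq_norm, dist_eq_norm] at h2
  change ‖ph v ε x - ph v ε y - (ContinuousLinearEquiv.refl ℝ ℂ : ℂ ≃L[ℝ] ℂ) (x - y)‖ ≤ _
  rw [h, norm_smul]
  push_cast
  calc ‖ε‖ * ‖v x - v y‖ ≤ ‖ε‖ * (C * ‖x - y‖) := by gcongr
    _ = ‖ε‖ * C * ‖x - y‖ := by ring

lemma hasF {v : ℂ → ℂ} (hv : ContDiff ℝ ∞ v) (ε : ℝ) (z : ℂ) :
    HasFDerivAt (ph v ε) (ContinuousLinearMap.id ℝ ℂ + ε • fderiv ℝ v z) z := by
  rw [ph_eq]
  have h1 : DifferentiableAt ℝ v z := (hv.differentiable (by simp)).differentiableAt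
  exact (hasFDerivAt_id z).add (h1.hasFDerivAt.const_smul ε)

end DIGM

open DIGM in
theorem specDIG : SpecDIG := by
  intro v hv hc K hs
  obtain ⟨C, hC⟩ := hv.lipschitzWith_of_hasCompactSupport hc (by simp)
  have hK : ∀ z, ‖fderiv ℝ v z‖ ≤ C := fun z => norm_fderiv_le_of_lipschitz ℝ hC
  have hC0 : (0 : ℝ) ≤ C := C.2
  refine ⟨1 / (2 * ((C : ℝ) + 1)), by positivity, ?_⟩
  intro ε hε
  have hεC : |ε| * C < 1 / 2 := by
    have h1 : |ε| * (2 * ((C : ℝ) + 1)) < 1 := by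
      rw [lt_div_iff₀ (by positivity)] at hε
      exact hε
    have h2 : 0 ≤ |ε| := abs_nonneg ε
    nlinarith
  have hN : Subsingleton ℂ ∨ ‖ε‖₊ * C <
      ‖((ContinuousLinearEquiv.refl ℝ ℂ : ℂ ≃L[ℝ] ℂ).symm : ℂ →L[ℝ] ℂ)‖₊⁻¹ := by
    right
    have h1 : ‖((ContinuousLinearEquiv.refl ℝ ℂ : ℂ ≃L[ℝ] ℂ).symm : ℂ →L[ℝ] ℂ)‖₊ = 1 := by
      have : ‖((ContinuousLinearEquiv.refl ℝ ℂ : ℂ ≃L[ℝ] ℂ).symm : ℂ →L[ℝ] ℂ)‖ = 1 :=
        ContinuousLinearMap.norm_id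
      exact NNReal.eq this
    rw [h1, inv_one, ← NNReal.coe_lt_coe]
    push_cast
    rw [Real.norm_eq_abs]
    linarith
  let h := (approx hC ε).toHomeomorph (ph v ε) hN
  have hh : ∀ z, h z = ph v ε z := fun z => rfl
  have hsm : ContDiff ℝ 1 (ph v ε) := by
    rw [ph_eq]
    exact contDiff_id.add ((hv.of_le (by exact_mod_cast le_top)).const_smul ε)
  have hD : ∀ z, ‖-(ε • fderiv ℝ v z)‖ < 1 := by
    intro z
    rw [norm_neg, norm_smul, Real.norm_eq_abs]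
    have := mul_le_mul_of_nonneg_left (hK z) (abs_nonneg ε)
    linarith
  have hsm' : ContDiff ℝ 1 (h.symm : ℂ → ℂ) := by
    refine h.contDiff_symm (𝕜 := ℝ)
      (f₀' := fun z => ContinuousLinearEquiv.unitsEquiv ℝ ℂ (Units.oneSub _ (hD z))) ?_ hsm
    intro z
    have h1 := hasF hv ε z
    have h2 : ((ContinuousLinearEquiv.unitsEquiv ℝ ℂ (Units.oneSub _ (hD z)) : ℂ ≃L[ℝ] ℂ) :
        ℂ →L[ℝ] ℂ) = ContinuousLinearMap.id ℝ ℂ + ε • fderiv ℝ v z := by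
      ext1
      change (((Units.oneSub (-(ε • fderiv ℝ v z)) (hD z)) : (ℂ →L[ℝ] ℂ)ˣ) : ℂ →L[ℝ] ℂ) _ = _
      rw [Units.val_oneSub, sub_neg_eq_add]
      rfl
    rw [h2]
    exact h1
  refine ⟨h.symm, ⟨hsm, hsm', fun z => h.symm_apply_apply z, fun z => h.apply_symm_apply z, ?_, ?_⟩⟩
  · intro z hz
    have : v z = 0 := image_eq_zero_of_notMem_tsupport fun h => hz (hs h)
    simp [this]
  · intro z
    have hf : fderiv ℝ (fun z => z + (ε : ℂ) * v z) z =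
        ContinuousLinearMap.id ℝ ℂ + ε • fderiv ℝ v z := (hasF hv ε z).fderiv
    have e1 : dZ (fun z => z + (ε : ℂ) * v z) z =
        1 + (ε : ℂ) * ((fderiv ℝ v z 1 - I * fderiv ℝ v z I) / 2) := by
      rw [dZ, hf]
      simp only [add_apply, ContinuousLinearMap.id_apply,
        smul_apply, real_smul]
      linear_combination (-(1 : ℂ) / 2) * I_mul_I
    have e2 : dB (fun z => z + (ε : ℂ) * v z) z =
        (ε : ℂ) * ((fderiv ℝ v z 1 + I * fderiv ℝ v z I) / 2) := by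
      rw [dB, hf]
      simp only [add_apply, ContinuousLinearMap.id_apply,
        smul_apply, real_smul]
      linear_combination ((1 : ℂ) / 2) * I_mul_I
    have n1 : ‖fderiv ℝ v z 1‖ ≤ C := by
      have := (fderiv ℝ v z).le_opNorm 1
      rw [norm_one, mul_one] at this
      exact this.trans (hK z)
    have n2 : ‖I * fderiv ℝ v z I‖ ≤ C := by
      have := (fderiv ℝ v z).le_opNorm I
      rw [norm_I, mul_one] at this
      rw [norm_mul, norm_I, one_mul]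
      exact this.trans (hK z)
    have m1 : ‖(ε : ℂ) * ((fderiv ℝ v z 1 - I * fderiv ℝ v z I) / 2)‖ < 1 / 2 := by
      rw [norm_mul, norm_div, Complex.norm_real, Real.norm_eq_abs, Complex.norm_two]
      have h3 := norm_sub_le (fderiv ℝ v z 1) (I * fderiv ℝ v z I)
      have h4 : ‖fderiv ℝ v z 1 - I * fderiv ℝ v z I‖ / 2 ≤ C := by linarith
      exact (mul_le_mul_of_nonneg_left h4 (abs_nonneg ε)).trans_lt hεC
    have m2 : ‖(ε : ℂ) * ((fderiv ℝ v z 1 + I * fderiv ℝ v z I) / 2)‖ < 1 / 2 := by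
      rw [norm_mul, norm_div, Complex.norm_real, Real.norm_eq_abs, Complex.norm_two]
      have h3 := norm_add_le (fderiv ℝ v z 1) (I * fderiv ℝ v z I)
      have h4 : ‖fderiv ℝ v z 1 + I * fderiv ℝ v z I‖ / 2 ≤ C := by linarith
      exact (mul_le_mul_of_nonneg_left h4 (abs_nonneg ε)).trans_lt hεC
    rw [Jac, e1, e2]
    have m3 : 1 / 2 < ‖1 + (ε : ℂ) * ((fderiv ℝ v z 1 - I * fderiv ℝ v z I) / 2)‖ := by
      have h5 := norm_sub_norm_le (1 : ℂ) (-((ε : ℂ) * ((fderiv ℝ v z 1 - I * fderiv ℝ v z I) / 2)))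
      rw [norm_neg, norm_one, sub_neg_eq_add] at h5
      linarith
    have m4 := norm_nonneg ((ε : ℂ) * ((fderiv ℝ v z 1 + I * fderiv ℝ v z I) / 2))
    nlinarith

end Pool.Agent.Lib.MP250511.SB
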