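import Pool.Agent.Lib.MP_250511_an.SB.SpecE

/-!
# MP_250511_an, module EL: the Euler-Lagrange equation
-/

set_option autoImplicit false

namespace Pool.Agent.Lib.MP250511.SB

open Complex Metric Set MeasureTheory Filter Topology
open scoped Real ENNReal ComplexConjugate ContDiff

theorem specEL (hEXF : SpecEXF) (hMUL : SpecMUL) (hMAS : SpecMAS) (hCPX : SpecCPX) : SpecEL := by
  intro f hf hr
  obtain ⟨g, hE⟩ := hEXF f hf hr
  obtain ⟨ν, h1, h2, h3⟩ := hMUL f g _ _ hE
  have h4 := hMAS f g _ _ hE ν h1 h2 h3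
  have hP : IsProbabilityMeasure ν := ⟨h4⟩
  obtain ⟨h5, h6⟩ := hCPX g _ _ ν hE.pos inferInstance h2 h3
  refine ⟨ν, hP, h2, ?_, h6⟩
  intro g' hg' v hv hc h0
  rw [← h5 v hv hc h0]
  congr 1
  have hop : IsOpen (f '' ball 0 1) := hE.op
  have he : ∀ z ∈ f '' ball 0 1, g' z = g z := by
    rintro _ ⟨w, hw, rfl⟩
    rw [hg' w hw, hE.GF w hw]
  apply setIntegral_congr_fun hop.measurableSet
  intro z hz
  have hev : g' =ᶠ[𝓝 z] g := by
    filter_upwards [hop.mem_nhds hz] with w hw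
    exact he w hw
  show dB v z * (deriv g' z / g' z) ^ 2 = dB v z * qG g z
  unfold qG
  rw [hev.deriv_eq, he z hz]

end Pool.Agent.Lib.MP250511.SB
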