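import Pool.Agent.Lib.MP_250511_an.SB.Spec

/-!
# ENE: the radial energy inequality
-/

set_option autoImplicit false

namespace Pool.Agent.Lib.MP250511.SB

open Complex Metric Set MeasureTheory Filter Topology
open scoped Real ENNReal ComplexConjugate ContDiff

noncomputable section

namespace ENEM

/-- one ray, up to the radius `s` -/
lemma ray {u : ℂ → ℝ} {r₀ s : ℝ} (h0 : 0 < r₀) (h1 : r₀ < s) (h2 : s < 1)
    (hu : ContDiffOn ℝ 1 u (ball 0 1 \ {0})) {e : ℂ} (he : ‖e‖ = 1)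
    (ha : 0 < u ((r₀ : ℂ) * e) - u ((s : ℂ) * e)) :
    (u ((r₀ : ℂ) * e) - u ((s : ℂ) * e)) ^ 2 ≤
      Real.log (1 / r₀) * ∫ r in r₀..s, r * ‖fderiv ℝ u ((r : ℂ) * e)‖ ^ 2 := by
  have hop : IsOpen (ball (0 : ℂ) 1 \ {0}) := isOpen_ball.sdiff isClosed_singleton
  have hmem : ∀ r ∈ Icc r₀ s, (r : ℂ) * e ∈ ball (0 : ℂ) 1 \ {0} := by
    intro r hr
    have hr0 : 0 < r := h0.trans_le hr.1
    have hn : ‖(r : ℂ) * e‖ = r := by
      rw [norm_mul, he, mul_one, Complex.norm_real, Real.norm_eq_abs, abs_of_pos hr0]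
    refine ⟨by rw [mem_ball_zero_iff, hn]; linarith [hr.2], ?_⟩
    intro h
    rw [mem_singleton_iff] at h
    rw [h, norm_zero] at hn
    linarith
  have hDc : ContinuousOn (fun z => fderiv ℝ u z) (ball (0 : ℂ) 1 \ {0}) :=
    hu.continuousOn_fderiv_of_isOpen hop le_rfl
  have hray : Continuous (fun r : ℝ => (r : ℂ) * e) := by fun_prop
  have hc : ContinuousOn (fun r : ℝ => fderiv ℝ u ((r : ℂ) * e)) (Icc r₀ s) :=
    hDc.comp hray.continuousOn hmem
  have huIcc : uIcc r₀ s = Icc r₀ s := uIcc_of_le h1.le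
  have hder : ∀ r ∈ uIcc r₀ s, HasDerivAt (fun r : ℝ => u ((r : ℂ) * e))
      (fderiv ℝ u ((r : ℂ) * e) e) r := by
    intro r hr
    rw [huIcc] at hr
    have h3 : HasFDerivAt u (fderiv ℝ u ((r : ℂ) * e)) ((r : ℂ) * e) :=
      ((hu.differentiableOn (by norm_num)).differentiableAt
        (hop.mem_nhds (hmem r hr))).hasFDerivAt
    have h4 : HasDerivAt (fun r : ℝ => (r : ℂ) * e) e r := by
      have h5 := (Complex.ofRealCLM.hasDerivAt (x := r)).mul_const e
      simpa using h5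
    exact h3.comp_hasDerivAt r h4
  have hint : IntervalIntegrable (fun r : ℝ => fderiv ℝ u ((r : ℂ) * e) e) volume r₀ s := by
    apply ContinuousOn.intervalIntegrable
    rw [huIcc]
    exact hc.clm_apply continuousOn_const
  have hftc := intervalIntegral.integral_eq_sub_of_hasDerivAt hder hint
  have hL : 0 < Real.log (1 / r₀) := Real.log_pos (by rw [lt_div_iff₀ h0]; linarith)
  set L := Real.log (1 / r₀) with hLdef
  set a := u ((r₀ : ℂ) * e) - u ((s : ℂ) * e) with hadef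
  have hinv : ContinuousOn (fun r : ℝ => r⁻¹) (Icc r₀ s) :=
    continuousOn_inv₀.mono fun r hr => (h0.trans_le hr.1).ne'
  have hi1 : IntervalIntegrable (fun r : ℝ => r * ‖fderiv ℝ u ((r : ℂ) * e)‖ ^ 2) volume r₀ s := by
    apply ContinuousOn.intervalIntegrable
    rw [huIcc]
    exact continuousOn_id.mul (hc.norm.pow 2)
  have hi2 : IntervalIntegrable (fun r : ℝ => r⁻¹) volume r₀ s := by
    apply ContinuousOn.intervalIntegrable
    rw [huIcc]
    exact hinv
  have hi3 : IntervalIntegrable (fun r : ℝ => ‖fderiv ℝ u ((r : ℂ) * e)‖) volume r₀ s := by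
    apply ContinuousOn.intervalIntegrable
    rw [huIcc]
    exact hc.norm
  set I := ∫ r in r₀..s, r * ‖fderiv ℝ u ((r : ℂ) * e)‖ ^ 2 with hI
  set c := a / L with hcdef
  have hc0 : 0 < c := div_pos ha hL
  have h6 : a ≤ ∫ r in r₀..s, ‖fderiv ℝ u ((r : ℂ) * e)‖ := by
    have h7 : a = -∫ r in r₀..s, fderiv ℝ u ((r : ℂ) * e) e := by rw [hftc]; ring
    rw [h7]
    refine (neg_le_abs _).trans ?_
    refine (intervalIntegral.abs_integral_le_integral_abs h1.le).trans ?_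
    refine intervalIntegral.integral_mono_on h1.le hint.abs hi3 ?_
    intro r _
    have h8 := (fderiv ℝ u ((r : ℂ) * e)).le_opNorm e
    rw [he, mul_one, Real.norm_eq_abs] at h8
    exact h8
  have h9 : ∫ r in r₀..s, ‖fderiv ℝ u ((r : ℂ) * e)‖ ≤
      ∫ r in r₀..s, (1 / (2 * c) * (r * ‖fderiv ℝ u ((r : ℂ) * e)‖ ^ 2) + c / 2 * r⁻¹) := by
    refine intervalIntegral.integral_mono_on h1.le hi3
      ((hi1.const_mul _).add (hi2.const_mul _)) ?_
    intro r hr
    have hr0 : 0 < r := h0.trans_le hr.1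
    set D := ‖fderiv ℝ u ((r : ℂ) * e)‖ with hD
    have h10 : 1 / (2 * c) * (r * D ^ 2) + c / 2 * r⁻¹ - D = (r * D - c) ^ 2 / (2 * c * r) := by
      field_simp
      ring
    have h11 : 0 ≤ (r * D - c) ^ 2 / (2 * c * r) := by positivity
    linarith
  have h12 : ∫ r in r₀..s, (1 / (2 * c) * (r * ‖fderiv ℝ u ((r : ℂ) * e)‖ ^ 2) + c / 2 * r⁻¹) =
      1 / (2 * c) * I + c / 2 * Real.log (s / r₀) := by
    rw [intervalIntegral.integral_add (hi1.const_mul _) (hi2.const_mul _),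
      intervalIntegral.integral_const_mul, intervalIntegral.integral_const_mul,
      integral_inv_of_pos h0 (h0.trans h1)]
  have h13 : Real.log (s / r₀) ≤ L := by
    apply Real.log_le_log (div_pos (h0.trans h1) h0)
    apply div_le_div_of_nonneg_right h2.le h0.le
  have h14 : a ≤ 1 / (2 * c) * I + c / 2 * L := by
    have := mul_le_mul_of_nonneg_left h13 (by positivity : 0 ≤ c / 2)
    linarith [h6.trans (h9.trans h12.le)]
  have h15 : 1 / (2 * c) * I + c / 2 * L = L * I / (2 * a) + a / 2 := by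
    rw [hcdef]
    field_simp
  rw [h15] at h14
  have h16 : a / 2 ≤ L * I / (2 * a) := by linarith
  rw [le_div_iff₀ (by positivity)] at h16
  nlinarith

/-- one ray -/
lemma ray' {u : ℂ → ℝ} {r₀ m : ℝ} (h0 : 0 < r₀) (h1 : r₀ < 1) (hm : 0 ≤ m)
    (hu : ContDiffOn ℝ 1 u (ball 0 1 \ {0})) (hm' : ∀ ζ : ℂ, ‖ζ‖ = r₀ → m ≤ u ζ)
    (hb : ∀ ε > 0, ∃ s < 1, ∀ ζ : ℂ, s < ‖ζ‖ → ‖ζ‖ < 1 → u ζ ≤ ε) {e : ℂ} (he : ‖e‖ = 1) :
    ENNReal.ofReal (m ^ 2 / Real.log (1 / r₀)) ≤
      ∫⁻ r in Ioo r₀ 1, ENNReal.ofReal (r * ‖fderiv ℝ u ((r : ℂ) * e)‖ ^ 2) := by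
  set J := ∫⁻ r in Ioo r₀ 1, ENNReal.ofReal (r * ‖fderiv ℝ u ((r : ℂ) * e)‖ ^ 2) with hJ
  have hL : 0 < Real.log (1 / r₀) := Real.log_pos (by rw [lt_div_iff₀ h0]; linarith)
  by_cases hJt : J = ⊤
  · rw [hJt]; exact le_top
  have hkey : ∀ ε > 0, m - ε ≤ Real.sqrt (Real.log (1 / r₀) * J.toReal) := by
    intro ε hε
    by_cases hme : m - ε ≤ 0
    · exact hme.trans (Real.sqrt_nonneg _)
    push Not at hme
    obtain ⟨s', hs', hs''⟩ := hb ε hε
    set s := max ((r₀ + 1) / 2) ((s' + 1) / 2) with hs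
    have hs1 : s < 1 := max_lt (by linarith) (by linarith)
    have hs2 : r₀ < s := lt_of_lt_of_le (by linarith) (le_max_left _ _)
    have hs3 : s' < s := lt_of_lt_of_le (by linarith) (le_max_right _ _)
    have hs0 : 0 < s := h0.trans hs2
    have hn : ∀ r : ℝ, 0 < r → ‖(r : ℂ) * e‖ = r := by
      intro r hr
      rw [norm_mul, he, mul_one, Complex.norm_real, Real.norm_eq_abs, abs_of_pos hr]
    have h2 := hm' ((r₀ : ℂ) * e) (hn r₀ h0)
    have h3 := hs'' ((s : ℂ) * e) (by rw [hn s hs0]; exact hs3) (by rw [hn s hs0]; exact hs1)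
    have h4 : m - ε ≤ u ((r₀ : ℂ) * e) - u ((s : ℂ) * e) := by linarith
    have h5 := ray h0 hs2 hs1 hu he (by linarith)
    have h6 : ∫ r in r₀..s, r * ‖fderiv ℝ u ((r : ℂ) * e)‖ ^ 2 ≤ J.toReal := by
      rw [intervalIntegral.integral_of_le hs2.le]
      have h7 : ∀ r ∈ Ioc r₀ s, 0 ≤ r * ‖fderiv ℝ u ((r : ℂ) * e)‖ ^ 2 := fun r hr =>
        mul_nonneg (h0.trans hr.1).le (sq_nonneg _)
      have hmeas : Measurable (fun r : ℝ => r * ‖fderiv ℝ u ((r : ℂ) * e)‖ ^ 2) := by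
        have h8 : Measurable (fun r : ℝ => fderiv ℝ u ((r : ℂ) * e)) :=
          (measurable_fderiv ℝ u).comp (by fun_prop)
        exact measurable_id.mul (h8.norm.pow_const 2)
      rw [integral_eq_lintegral_of_nonneg_ae
        ((ae_restrict_iff' measurableSet_Ioc).mpr (Eventually.of_forall h7))
        hmeas.aestronglyMeasurable]
      refine ENNReal.toReal_mono hJt ?_
      refine lintegral_mono_set ?_
      intro r hr
      exact ⟨hr.1, hr.2.trans_lt hs1⟩
    apply Real.le_sqrt_of_sq_le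
    calc (m - ε) ^ 2 ≤ (u ((r₀ : ℂ) * e) - u ((s : ℂ) * e)) ^ 2 :=
          pow_le_pow_left₀ hme.le h4 2
      _ ≤ _ := h5
      _ ≤ _ := mul_le_mul_of_nonneg_left h6 hL.le
  have h2 : m ≤ Real.sqrt (Real.log (1 / r₀) * J.toReal) := by
    apply le_of_forall_pos_le_add
    intro ε hε
    linarith [hkey ε hε]
  have h3 : m ^ 2 ≤ Real.log (1 / r₀) * J.toReal := by
    have h4 : 0 ≤ Real.log (1 / r₀) * J.toReal := mul_nonneg hL.le ENNReal.toReal_nonneg
    calc m ^ 2 ≤ Real.sqrt (Real.log (1 / r₀) * J.toReal) ^ 2 := pow_le_pow_left₀ hm h2 2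
      _ = _ := Real.sq_sqrt h4
  calc ENNReal.ofReal (m ^ 2 / Real.log (1 / r₀)) ≤ ENNReal.ofReal J.toReal := by
        apply ENNReal.ofReal_le_ofReal
        rw [div_le_iff₀ hL]
        linarith
    _ = J := ENNReal.ofReal_toReal hJt

end ENEM

open ENEM in
theorem specENE : SpecENE := by
  intro u r₀ m h0 h1 hm hu hm' hb
  set f : ℂ → ℝ≥0∞ := {ζ : ℂ | r₀ < ‖ζ‖ ∧ ‖ζ‖ < 1}.indicator
    (fun ζ => ENNReal.ofReal (‖fderiv ℝ u ζ‖ ^ 2)) with hf
  have hms : MeasurableSet {ζ : ℂ | r₀ < ‖ζ‖ ∧ ‖ζ‖ < 1} := by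
    apply IsOpen.measurableSet
    exact (isOpen_lt continuous_const continuous_norm).inter
      (isOpen_lt continuous_norm continuous_const)
  have hfm : Measurable f := by
    refine Measurable.indicator ?_ hms
    exact (((measurable_fderiv ℝ u).norm).pow_const 2).ennreal_ofReal
  rw [← lintegral_indicator hms, ← hf, ← Complex.lintegral_comp_polarCoord_symm]
  have htar : polarCoord.target = Ioi (0 : ℝ) ×ˢ Ioo (-π) π := rfl
  rw [htar, Measure.volume_eq_prod, ← Measure.prod_restrict]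
  rw [lintegral_prod_symm _ (by
    apply Measurable.aemeasurable
    have h2 : Measurable (fun p : ℝ × ℝ => Complex.polarCoord.symm p) := by
      have h3 : (fun p : ℝ × ℝ => Complex.polarCoord.symm p) =
          fun p : ℝ × ℝ => (p.1 : ℂ) * (Real.cos p.2 + Real.sin p.2 * I) := by
        funext p
        rw [Complex.polarCoord_symm_apply]
      rw [h3]
      fun_prop
    exact (measurable_fst.ennreal_ofReal).smul (hfm.comp h2))]
  have hin : ∀ θ : ℝ, ENNReal.ofReal (m ^ 2 / Real.log (1 / r₀)) ≤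
      ∫⁻ r in Ioi (0 : ℝ), ENNReal.ofReal r • f (Complex.polarCoord.symm (r, θ)) := by
    intro θ
    have he : ‖Complex.exp (θ * I)‖ = 1 := Complex.norm_exp_ofReal_mul_I θ
    refine (ray' h0 h1 hm hu hm' hb he).trans ?_
    refine le_trans ?_ (lintegral_mono_set (fun r hr => h0.trans hr.1 :
      Ioo r₀ 1 ⊆ Ioi (0 : ℝ)))
    refine setLIntegral_mono_ae' measurableSet_Ioo (Eventually.of_forall ?_)
    intro r hr
    have hr0 : 0 < r := h0.trans hr.1
    have h2 : Complex.polarCoord.symm (r, θ) = (r : ℂ) * Complex.exp (θ * I) := by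
      rw [Complex.polarCoord_symm_apply, Complex.exp_mul_I]
      push_cast
      ring
    have h3 : ‖(r : ℂ) * Complex.exp (θ * I)‖ = r := by
      rw [norm_mul, he, mul_one, Complex.norm_real, Real.norm_eq_abs, abs_of_pos hr0]
    rw [h2, hf, indicator_of_mem (by
      show r₀ < ‖(r : ℂ) * Complex.exp (θ * I)‖ ∧ ‖(r : ℂ) * Complex.exp (θ * I)‖ < 1
      rw [h3]; exact hr), smul_eq_mul, ← ENNReal.ofReal_mul hr0.le]
  calc ENNReal.ofReal (2 * π * m ^ 2 / Real.log (1 / r₀))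
      = ∫⁻ θ in Ioo (-π) π, ENNReal.ofReal (m ^ 2 / Real.log (1 / r₀)) := by
        have hL : 0 < Real.log (1 / r₀) := Real.log_pos (by rw [lt_div_iff₀ h0]; linarith)
        rw [setLIntegral_const, Real.volume_Ioo, ← ENNReal.ofReal_mul (by positivity)]
        congr 1
        ring
    _ ≤ _ := lintegral_mono hin

end

end Pool.Agent.Lib.MP250511.SB
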