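import Pool.Agent.Lib.MP_250511_an.SB.Spec

/-!
# MP_250511_an, SB, module EXI: the starlike constant is attained
-/

set_option autoImplicit false

namespace Pool.Agent.Lib.MP250511.SB

open Complex Metric Set MeasureTheory Filter Topology
open scoped Real ENNReal ComplexConjugate ContDiff

namespace EXIM

lemma univ_id : Univ (fun z : ℂ => z) := by
  refine ⟨fun z _ => analyticAt_id, fun x _ y _ h => h, rfl, ?_⟩
  exact deriv_id 0

lemma rho_id : rho (fun z : ℂ => z) ≤ 1 := by
  unfold rho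
  refine iSup_le fun c => iSup_le fun r => iSup_le fun h => ?_
  rw [image_id'] at h
  rw [← ENNReal.ofReal_one]
  refine ENNReal.ofReal_le_ofReal ?_
  by_contra hr
  rw [not_le] at hr
  -- a ball of radius `> 1` in the unit disc: diameters
  have h2 : Metric.diam (ball c r) ≤ Metric.diam (ball (0 : ℂ) 1) :=
    Metric.diam_mono h Metric.isBounded_ball
  have h3 : Metric.diam (ball c r) = 2 * r := by
    refine le_antisymm (Metric.diam_ball (by linarith)) ?_
    refine le_of_forall_lt fun b hb => ?_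
    set t : ℝ := max 0 ((b / 2 + r) / 2) with ht
    have ht1 : t < r := by
      rw [ht]
      refine max_lt (by linarith) (by linarith)
    have ht0 : 0 ≤ t := le_max_left _ _
    have hp : c + (t : ℂ) ∈ ball c r := by
      rw [mem_ball, dist_eq_norm, add_sub_cancel_left, Complex.norm_real, Real.norm_of_nonneg ht0]
      exact ht1
    have hq : c - (t : ℂ) ∈ ball c r := by
      rw [mem_ball, dist_eq_norm, sub_sub_cancel_left, norm_neg, Complex.norm_real,
        Real.norm_of_nonneg ht0]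
      exact ht1
    have h4 := Metric.dist_le_diam_of_mem Metric.isBounded_ball hp hq
    have h5 : dist (c + (t : ℂ)) (c - (t : ℂ)) = 2 * t := by
      rw [dist_eq_norm]
      have : c + (t : ℂ) - (c - (t : ℂ)) = ((2 * t : ℝ) : ℂ) := by
        push_cast
        ring
      rw [this, Complex.norm_real, Real.norm_of_nonneg (by linarith)]
    rw [h5] at h4
    refine lt_of_lt_of_le ?_ h4
    have h6 : (b / 2 + r) / 2 ≤ t := le_max_right _ _
    linarith
  have h4 : Metric.diam (ball (0 : ℂ) 1) ≤ 2 * 1 := Metric.diam_ball (by norm_num)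
  rw [h3] at h2
  linarith

lemma S₁_le : S₁ ≤ 1 := by
  refine le_trans ?_ rho_id
  unfold S₁
  refine iInf_le_of_le (fun z : ℂ => z) (iInf_le_of_le ⟨univ_id, ?_⟩ le_rfl)
  rw [image_id']
  exact (convex_ball (0 : ℂ) 1).starConvex (mem_ball_self one_pos)

end EXIM

open EXIM in
theorem specEXI (hEXM : SpecEXM) (hEXS : SpecEXS) (hEXR : SpecEXR) : SpecEXI := by
  have hfin : S₁ ≠ ⊤ := ne_top_of_le_ne_top ENNReal.one_ne_top S₁_le
  have hseq : ∀ n : ℕ, ∃ f : ℂ → ℂ, (Univ f ∧ StarConvex ℝ (0 : ℂ) (f '' ball 0 1)) ∧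
      rho f < S₁ + ENNReal.ofReal (1 / (n + 1)) := by
    intro n
    have h1 : S₁ < S₁ + ENNReal.ofReal (1 / (n + 1)) := by
      refine ENNReal.lt_add_right hfin ?_
      rw [Ne, ENNReal.ofReal_eq_zero, not_le]
      positivity
    have h2 : (⨅ (f : ℂ → ℂ) (_ : Univ f ∧ StarConvex ℝ 0 (f '' ball 0 1)), rho f) <
      S₁ + ENNReal.ofReal (1 / (n + 1)) := h1
    simp only [iInf_lt_iff] at h2
    obtain ⟨f, hf, h3⟩ := h2
    exact ⟨f, hf, h3⟩
  choose F hF hrho using hseq
  have hle2 : ∀ n, rho (F n) ≤ ENNReal.ofReal 2 := by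
    intro n
    refine (hrho n).le.trans ?_
    have h1 : ENNReal.ofReal (1 / ((n : ℝ) + 1)) ≤ 1 := by
      rw [← ENNReal.ofReal_one]
      refine ENNReal.ofReal_le_ofReal ?_
      rw [div_le_one (by positivity)]
      have : (0 : ℝ) ≤ n := Nat.cast_nonneg n
      linarith
    calc S₁ + ENNReal.ofReal (1 / ((n : ℝ) + 1)) ≤ 1 + 1 := add_le_add S₁_le h1
      _ = ENNReal.ofReal 2 := by
        rw [one_add_one_eq_two]
        simp
  obtain ⟨f₀, hf₀, hlim⟩ := hEXM F (fun n => (hF n).1) hle2
  have hstar := hEXS F f₀ (fun n => (hF n).1) (fun n => (hF n).2) hf₀ hlim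
  refine ⟨f₀, hf₀, hstar, le_antisymm ?_ ?_⟩
  · unfold rho
    refine iSup_le fun c => iSup_le fun r => iSup_le fun h => ?_
    -- every smaller radius is fine
    have key : ∀ r' : ℝ, r' < r → ENNReal.ofReal r' ≤ S₁ := by
      intro r' hr'
      have h1 : closedBall c r' ⊆ f₀ '' ball 0 1 := (closedBall_subset_ball hr').trans h
      have h2 := hEXR F f₀ (fun n => (hF n).1) hf₀ hlim c r' h1
      refine ENNReal.le_of_forall_pos_le_add fun ε hε _ => ?_
      have h3 : ∀ᶠ n : ℕ in (hyperfilter ℕ : Filter ℕ), (1 : ℝ) / (n + 1) < ε := by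
        have h4 : Tendsto (fun n : ℕ => (1 : ℝ) / (n + 1)) (hyperfilter ℕ : Filter ℕ) (𝓝 0) := by
          refine tendsto_one_div_add_atTop_nhds_zero_nat.mono_left ?_
          rw [← Nat.cofinite_eq_atTop]
          exact hyperfilter_le_cofinite
        exact h4.eventually (gt_mem_nhds (by exact_mod_cast hε))
      obtain ⟨n, hn1, hn2⟩ := (h2.and h3).exists
      have h5 : ENNReal.ofReal r' ≤ rho (F n) := by
        unfold rho
        exact le_iSup_of_le c (le_iSup_of_le r' (le_iSup_of_le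
          (ball_subset_closedBall.trans hn1) le_rfl))
      refine h5.trans ((hrho n).le.trans (add_le_add le_rfl ?_))
      have h6 : ENNReal.ofReal (1 / ((n : ℝ) + 1)) ≤ ENNReal.ofReal (ε : ℝ) :=
        ENNReal.ofReal_le_ofReal hn2.le
      rwa [ENNReal.ofReal_coe_nnreal] at h6
    have hcont : Tendsto (fun r' : ℝ => ENNReal.ofReal r') (𝓝[<] r) (𝓝 (ENNReal.ofReal r)) :=
      (ENNReal.continuous_ofReal.tendsto r).mono_left nhdsWithin_le_nhds
    refine le_of_tendsto hcont ?_
    filter_upwards [self_mem_nhdsWithin] with r' hr'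
    exact key r' hr'
  · unfold S₁
    exact iInf_le_of_le f₀ (iInf_le_of_le ⟨hf₀, hstar⟩ le_rfl)

end Pool.Agent.Lib.MP250511.SB
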