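import Pool.Agent.Lib.MP_250511_an.SB.Spec
import Pool.Agent.Lib.MP_87ece0_an.Lower

/-!
# Module EXM: compactness of the class (limits along the hyperfilter)
-/

set_option autoImplicit false

namespace Pool.Agent.Lib.MP250511.SB

open Complex Metric Set MeasureTheory Filter Topology
open scoped Real ENNReal ComplexConjugate ContDiff

namespace EXMM

/-- pointwise limits along the hyperfilter -/
theorem lim (F : ℕ → ℂ → ℂ) (hb : ∀ n, ∀ z ∈ ball (0 : ℂ) 1, ‖F n z‖ ≤ 4 / (1 - ‖z‖)) :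
    ∃ f₀ : ℂ → ℂ, ∀ z ∈ ball (0 : ℂ) 1,
      Tendsto (fun n => F n z) (hyperfilter ℕ : Filter ℕ) (𝓝 (f₀ z)) := by
  have h : ∀ z : ℂ, ∃ w : ℂ, z ∈ ball (0 : ℂ) 1 →
      Tendsto (fun n => F n z) (hyperfilter ℕ : Filter ℕ) (𝓝 w) := by
    intro z
    by_cases hz : z ∈ ball (0 : ℂ) 1
    · have hc : IsCompact (closedBall (0 : ℂ) (4 / (1 - ‖z‖))) := isCompact_closedBall _ _
      obtain ⟨w, -, hw⟩ := hc.ultrafilter_le_nhds
        (Ultrafilter.map (fun n : ℕ => F n z) (hyperfilter ℕ)) (by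
        rw [le_principal_iff]
        refine Filter.mem_map.2 (Filter.univ_mem' fun n : ℕ => ?_)
        show F n z ∈ closedBall (0 : ℂ) (4 / (1 - ‖z‖))
        rw [mem_closedBall_zero_iff]
        exact hb n z hz)
      exact ⟨w, fun _ => hw⟩
    · exact ⟨0, fun h => absurd h hz⟩
  choose f₀ hf₀ using h
  exact ⟨f₀, hf₀⟩

theorem locU (F : ℕ → ℂ → ℂ) (f₀ : ℂ → ℂ) (hd : ∀ n, DifferentiableOn ℂ (F n) (ball 0 1))
    (hb : ∀ n, ∀ z ∈ ball (0 : ℂ) 1, ‖F n z‖ ≤ 4 / (1 - ‖z‖))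
    (hf : ∀ z ∈ ball (0 : ℂ) 1, Tendsto (fun n => F n z) (hyperfilter ℕ : Filter ℕ) (𝓝 (f₀ z))) :
    TendstoLocallyUniformlyOn F f₀ (hyperfilter ℕ : Filter ℕ) (ball 0 1) := by
  rw [Metric.tendstoLocallyUniformlyOn_iff]
  intro ε hε x hx
  have hx1 : ‖x‖ < 1 := mem_ball_zero_iff.1 hx
  obtain ⟨r, hr1, hr2⟩ := exists_between hx1
  have hr0 : 0 ≤ r := (norm_nonneg x).trans hr1.le
  have hc : 0 < (1 - r) / 4 := by linarith
  have hsub : ball (0 : ℂ) r ⊆ ball 0 1 := ball_subset_ball hr2.le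
  have h1 : TendstoLocallyUniformlyOn (fun n z => (((1 - r) / 4 : ℝ) : ℂ) * F n z)
      (fun z => (((1 - r) / 4 : ℝ) : ℂ) * f₀ z) (hyperfilter ℕ : Filter ℕ) (ball 0 r) := by
    refine MP87.RMT.locUnif isOpen_ball (fun n => ((hd n).mono hsub).const_mul _) ?_ ?_
    · intro n z hz
      have hz1 : ‖z‖ < r := mem_ball_zero_iff.1 hz
      have h2 := hb n z (hsub hz)
      rw [norm_mul, Complex.norm_real, Real.norm_of_nonneg hc.le]
      have h3 : 0 < 1 - ‖z‖ := by linarith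
      calc (1 - r) / 4 * ‖F n z‖ ≤ (1 - r) / 4 * (4 / (1 - ‖z‖)) :=
            mul_le_mul_of_nonneg_left h2 hc.le
        _ = (1 - r) / (1 - ‖z‖) := by field_simp
        _ ≤ 1 := by
            rw [div_le_one h3]
            linarith
    · intro z hz
      exact (hf z (hsub hz)).const_mul _
  rw [Metric.tendstoLocallyUniformlyOn_iff] at h1
  obtain ⟨t, ht, h2⟩ := h1 ((1 - r) / 4 * ε) (mul_pos hc hε) x (mem_ball_zero_iff.2 hr1)
  rw [isOpen_ball.nhdsWithin_eq (mem_ball_zero_iff.2 hr1)] at ht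
  refine ⟨t, mem_nhdsWithin_of_mem_nhds ht, ?_⟩
  filter_upwards [h2] with n hn y hy
  have h3 := hn y hy
  rw [dist_eq_norm, ← mul_sub, norm_mul, Complex.norm_real, Real.norm_of_nonneg hc.le] at h3
  rw [dist_eq_norm]
  exact lt_of_mul_lt_mul_left h3 hc.le

end EXMM

open EXMM in
theorem specEXM (hLBD : SpecLBD) : SpecEXM := by
  intro F hU hR
  have hd : ∀ n, DifferentiableOn ℂ (F n) (ball 0 1) := fun n => (hU n).an.differentiableOn
  have hb : ∀ n, ∀ z ∈ ball (0 : ℂ) 1, ‖F n z‖ ≤ 4 / (1 - ‖z‖) := fun n z hz =>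
    hLBD _ (hU n) (hR n) z hz
  obtain ⟨f₀, hf⟩ := lim F hb
  have hLU := locU F f₀ hd hb hf
  have h0 : (0 : ℂ) ∈ ball (0 : ℂ) 1 := mem_ball_self one_pos
  have hfd : DifferentiableOn ℂ f₀ (ball 0 1) :=
    hLU.differentiableOn (Eventually.of_forall hd) isOpen_ball
  have hf0 : f₀ 0 = 0 := by
    refine tendsto_nhds_unique (hf 0 h0) ?_
    simp only [(hU _).zero]
    exact tendsto_const_nhds
  have hf1 : deriv f₀ 0 = 1 := by
    have h1 : Tendsto (fun n => deriv (F n) 0) (hyperfilter ℕ : Filter ℕ) (𝓝 (deriv f₀ 0)) :=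
      (hLU.deriv (Eventually.of_forall hd) isOpen_ball).tendsto_at h0
    refine tendsto_nhds_unique h1 ?_
    simp only [(hU _).one]
    exact tendsto_const_nhds
  have hne : ∃ z ∈ ball (0 : ℂ) 1, ∃ w ∈ ball (0 : ℂ) 1, f₀ z ≠ f₀ w := by
    by_contra hcon
    push Not at hcon
    have h1 : f₀ =ᶠ[𝓝 0] fun _ => f₀ 0 := by
      filter_upwards [isOpen_ball.mem_nhds h0] with z hz
      exact hcon z hz 0 h0
    have h2 := h1.deriv_eq
    rw [hf1, deriv_const] at h2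
    exact one_ne_zero h2
  have hinj : InjOn f₀ (ball 0 1) :=
    MP87.RMT.hurwitz isOpen_ball (convex_ball _ _).isPreconnected hd (fun n => (hU n).inj) hLU hne
  exact ⟨f₀, ⟨hfd.analyticOnNhd isOpen_ball, hinj, hf0, hf1⟩, hLU⟩

end Pool.Agent.Lib.MP250511.SB
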