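import Pool.Agent.Lib.MP_250511_an.SB.Spec

/-!
# MP_250511_an, SB, module EXR: compact discs in the limit domain
-/

set_option autoImplicit false

namespace Pool.Agent.Lib.MP250511.SB

open Complex Metric Set MeasureTheory Filter Topology
open scoped Real ENNReal ComplexConjugate ContDiff

theorem specEXR : SpecEXR := by
  intro F f₀ hF hf₀ hlim c r hcr
  by_contra hcon
  have hbad : ∀ᶠ n in (hyperfilter ℕ : Filter ℕ), ¬ closedBall c r ⊆ F n '' ball 0 1 :=
    Ultrafilter.eventually_not.2 hcon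
  have hw : ∀ n, ∃ w : ℂ, ¬ closedBall c r ⊆ F n '' ball 0 1 →
      w ∈ closedBall c r ∧ w ∉ F n '' ball 0 1 := by
    intro n
    by_cases h : closedBall c r ⊆ F n '' ball 0 1
    · exact ⟨0, fun h' => absurd h h'⟩
    · obtain ⟨w, h1, h2⟩ := not_subset.1 h
      exact ⟨w, fun _ => ⟨h1, h2⟩⟩
  choose w hw using hw
  obtain ⟨w₀, hw₀, hle⟩ := (isCompact_closedBall c r).ultrafilter_le_nhds
    ((hyperfilter ℕ).map w) (by
      rw [le_principal_iff]
      refine Filter.mem_map.2 ?_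
      filter_upwards [hbad] with n hn
      exact (hw n hn).1)
  have hwt : Tendsto w (hyperfilter ℕ : Filter ℕ) (𝓝 w₀) := hle
  obtain ⟨a, ha, hfa⟩ := hcr hw₀
  -- a small disc around `a`
  obtain ⟨s', hs', hsub'⟩ := Metric.isOpen_iff.1 isOpen_ball a ha
  obtain ⟨s, hs, hss⟩ : ∃ s, 0 < s ∧ s < s' := ⟨s' / 2, by positivity, by linarith⟩
  have hsub : closedBall a s ⊆ ball 0 1 := (closedBall_subset_ball hss).trans hsub'
  have hsph : sphere a s ⊆ ball 0 1 := sphere_subset_closedBall.trans hsub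
  have hne : (sphere a s).Nonempty := NormedSpace.sphere_nonempty.2 hs.le
  have hcont : ContinuousOn (fun z => ‖f₀ z - f₀ a‖) (sphere a s) :=
    ((hf₀.an.continuousOn.mono hsph).sub continuousOn_const).norm
  obtain ⟨z₁, hz₁, hmin⟩ := (isCompact_sphere a s).exists_isMinOn hne hcont
  have hm : 0 < ‖f₀ z₁ - f₀ a‖ := by
    rw [norm_pos_iff, sub_ne_zero]
    intro h
    have h1 := hf₀.inj (hsph hz₁) ha h
    rw [h1, mem_sphere, dist_self] at hz₁
    exact hs.ne hz₁
  obtain ⟨ε, hε, hmε⟩ : ∃ ε, 0 < ε ∧ 2 * ε = ‖f₀ z₁ - f₀ a‖ :=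
    ⟨‖f₀ z₁ - f₀ a‖ / 2, by positivity, by ring⟩
  have hmin' : ∀ z ∈ sphere a s, 2 * ε ≤ ‖f₀ z - f₀ a‖ := fun z hz => by
    rw [hmε]
    exact hmin hz
  -- uniform convergence on the closed disc
  have hunif : TendstoUniformlyOn F f₀ (hyperfilter ℕ : Filter ℕ) (closedBall a s) :=
    (tendstoLocallyUniformlyOn_iff_tendstoUniformlyOn_of_compact (isCompact_closedBall a s)).1
      (hlim.mono hsub)
  rw [Metric.tendstoUniformlyOn_iff] at hunif
  have h1 := hunif (ε / 4) (by positivity)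
  have h2 : ∀ᶠ n in (hyperfilter ℕ : Filter ℕ), dist (w n) w₀ < ε / 4 :=
    (Metric.tendsto_nhds.1 hwt) (ε / 4) (by positivity)
  obtain ⟨n, hn1, hn2, hn3⟩ := (h1.and (h2.and hbad)).exists
  have hA : a ∈ closedBall a s := mem_closedBall_self hs.le
  have hdiff : DiffContOnCl ℂ (F n) (ball a s) := by
    refine DifferentiableOn.diffContOnCl ?_
    rw [closure_ball a hs.ne']
    exact ((hF n).an.differentiableOn).mono hsub
  have hlow : ∀ z ∈ sphere a s, ε ≤ ‖F n z - F n a‖ := by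
    intro z hz
    have e1 := hn1 z (sphere_subset_closedBall hz)
    have e2 := hn1 a hA
    rw [dist_eq_norm] at e1 e2
    have e3 : f₀ z - f₀ a = (f₀ z - F n z) + (F n z - F n a) - (f₀ a - F n a) := by ring
    have e4 := hmin' z hz
    rw [e3] at e4
    have e5 : ‖(f₀ z - F n z) + (F n z - F n a) - (f₀ a - F n a)‖ ≤
        ‖f₀ z - F n z‖ + ‖F n z - F n a‖ + ‖f₀ a - F n a‖ :=
      (norm_sub_le _ _).trans (by
        have := norm_add_le (f₀ z - F n z) (F n z - F n a)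
        linarith)
    linarith
  have hfreq : ∃ᶠ z in 𝓝 a, F n z ≠ F n a := by
    have h3 : ∀ᶠ z in 𝓝[≠] a, F n z ≠ F n a := by
      have h4 : ∀ᶠ z in 𝓝[≠] a, z ∈ ball (0 : ℂ) 1 :=
        (isOpen_ball.mem_nhds ha : ball (0 : ℂ) 1 ∈ 𝓝 a) |> fun h => nhdsWithin_le_nhds h
      filter_upwards [h4, self_mem_nhdsWithin] with z hz hza h5
      exact hza ((hF n).inj hz ha h5)
    exact (h3.frequently).filter_mono nhdsWithin_le_nhds
  have himg := hdiff.ball_subset_image_closedBall hs hlow hfreq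
  have hin : w n ∈ ball (F n a) (ε / 2) := by
    rw [mem_ball]
    have e2 := hn1 a hA
    rw [hfa] at e2
    calc dist (w n) (F n a) ≤ dist (w n) w₀ + dist w₀ (F n a) := dist_triangle _ _ _
      _ < ε / 4 + ε / 4 := add_lt_add hn2 e2
      _ = ε / 2 := by ring
  obtain ⟨v, hv, hv2⟩ := himg hin
  exact (hw n hn3).2 ⟨v, hsub hv, hv2⟩

end Pool.Agent.Lib.MP250511.SB
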