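import Pool.Agent.Lib.MP_250511_an.SB.Spec
import Pool.Agent.Lib.MP_250511_an.INV

/-!
# MP_250511_an, SB, module EXS: starlikeness of the limit
-/

set_option autoImplicit false

namespace Pool.Agent.Lib.MP250511.SB

open Complex Metric Set MeasureTheory Filter Topology
open scoped Real ENNReal ComplexConjugate ContDiff

theorem specEXS : SpecEXS := by
  intro F f₀ hF hstar hf₀ hlim
  rw [starConvex_zero_iff]
  rintro _ ⟨z, hz, rfl⟩ t ht0 ht1
  -- the inverse functions
  have hinv : ∀ n, ∃ G : ℂ → ℂ, ∀ w ∈ ball (0 : ℂ) 1, G (F n w) = w ∧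
      HasDerivAt G (deriv (F n) w)⁻¹ (F n w) := fun n => (specINV (F n) (hF n).an (hF n).inj).2.2
  choose G hG using hinv
  have htz : ∀ n, ∀ w ∈ ball (0 : ℂ) 1, ∃ v ∈ ball (0 : ℂ) 1, F n v = (t : ℂ) * F n w := by
    intro n w hw
    have h1 := (starConvex_zero_iff.1 (hstar n)) ⟨w, hw, rfl⟩ ht0 ht1
    obtain ⟨v, hv, h2⟩ := h1
    exact ⟨v, hv, by rw [h2, Complex.real_smul]⟩
  set u : ℕ → ℂ := fun n => G n ((t : ℂ) * F n z) with hu
  have hub : ∀ n, ‖u n‖ ≤ ‖z‖ := by
    intro n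
    have hd : DifferentiableOn ℂ (fun w => G n ((t : ℂ) * F n w)) (ball 0 1) := by
      intro w hw
      obtain ⟨v, hv, h2⟩ := htz n w hw
      have h3 : DifferentiableAt ℂ (G n) ((t : ℂ) * F n w) := by
        rw [← h2]
        exact (hG n v hv).2.differentiableAt
      have h4 : DifferentiableAt ℂ (fun w => (t : ℂ) * F n w) w :=
        ((hF n).an w hw).differentiableAt.const_mul _
      exact (h3.comp w h4).differentiableWithinAt
    have hmaps : MapsTo (fun w => G n ((t : ℂ) * F n w)) (ball 0 1) (ball 0 1) := by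
      intro w hw
      obtain ⟨v, hv, h2⟩ := htz n w hw
      show G n ((t : ℂ) * F n w) ∈ ball (0 : ℂ) 1
      rw [← h2, (hG n v hv).1]
      exact hv
    have h0 : (fun w => G n ((t : ℂ) * F n w)) 0 = 0 := by
      show G n ((t : ℂ) * F n 0) = 0
      rw [(hF n).zero, mul_zero]
      have h5 := (hG n 0 (mem_ball_self one_pos)).1
      rw [(hF n).zero] at h5
      exact h5
    exact Complex.norm_le_norm_of_mapsTo_ball hd (hmaps.mono_right ball_subset_closedBall) h0 (mem_ball_zero_iff.1 hz)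
  have hFu : ∀ n, F n (u n) = (t : ℂ) * F n z := by
    intro n
    obtain ⟨v, hv, h2⟩ := htz n z hz
    rw [hu]
    show F n (G n ((t : ℂ) * F n z)) = (t : ℂ) * F n z
    rw [← h2, (hG n v hv).1]
  obtain ⟨w, hw, hle⟩ := (isCompact_closedBall (0 : ℂ) ‖z‖).ultrafilter_le_nhds
    ((hyperfilter ℕ).map u) (by
      rw [le_principal_iff]
      refine Filter.mem_map.2 (Filter.Eventually.of_forall fun n => ?_)
      exact mem_closedBall_zero_iff.2 (hub n))
  have hut : Tendsto u (hyperfilter ℕ : Filter ℕ) (𝓝 w) := hle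
  have hw1 : w ∈ ball (0 : ℂ) 1 := by
    rw [mem_ball_zero_iff]
    exact lt_of_le_of_lt (mem_closedBall_zero_iff.1 hw) (mem_ball_zero_iff.1 hz)
  have hub' : ∀ n, u n ∈ ball (0 : ℂ) 1 := fun n => by
    rw [mem_ball_zero_iff]
    exact lt_of_le_of_lt (hub n) (mem_ball_zero_iff.1 hz)
  have h6 : Tendsto (fun n => F n (u n)) (hyperfilter ℕ : Filter ℕ) (𝓝 (f₀ w)) :=
    hlim.tendsto_comp (hf₀.an w hw1).continuousAt.continuousWithinAt hw1
      (tendsto_nhdsWithin_iff.2 ⟨hut, Filter.Eventually.of_forall hub'⟩)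
  have h7 : Tendsto (fun n => F n (u n)) (hyperfilter ℕ : Filter ℕ) (𝓝 ((t : ℂ) * f₀ z)) := by
    simp only [hFu]
    exact (hlim.tendsto_at hz).const_mul _
  have h8 := tendsto_nhds_unique h6 h7
  refine ⟨w, hw1, ?_⟩
  rw [h8, Complex.real_smul]

end Pool.Agent.Lib.MP250511.SB
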