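import Pool.Agent.Lib.MP_250511_an.SB.Spec

set_option autoImplicit false

namespace Pool.Agent.Lib.MP250511.SB

open Complex Metric Set MeasureTheory Filter Topology
open scoped Real ENNReal ComplexConjugate ContDiff

namespace EXTM

theorem ball_le {c : ℂ} {r : ℝ} (h : ball c r ⊆ ball (0 : ℂ) 1) : r ≤ 1 := by
  by_contra hr
  push Not at hr
  obtain ⟨u, hu, hcu⟩ : ∃ u : ℂ, ‖u‖ = 1 ∧ ‖c + u‖ = ‖c‖ + 1 := by
    by_cases hc : c = 0
    · exact ⟨1, by simp, by simp [hc]⟩
    · have hc' : (‖c‖ : ℂ) ≠ 0 := by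
        rw [Complex.ofReal_ne_zero]
        exact norm_ne_zero_iff.2 hc
      refine ⟨c / (‖c‖ : ℂ), ?_, ?_⟩
      · rw [norm_div, Complex.norm_real, norm_norm, div_self (norm_ne_zero_iff.2 hc)]
      · have : c + c / (‖c‖ : ℂ) = ((‖c‖ + 1 : ℝ) : ℂ) * (c / (‖c‖ : ℂ)) := by
          push_cast
          field_simp
        rw [this, norm_mul, Complex.norm_real, norm_div, Complex.norm_real, norm_norm,
          div_self (norm_ne_zero_iff.2 hc), mul_one, Real.norm_of_nonneg (by positivity)]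
  have h1 : c + u ∈ ball c r := by
    rw [mem_ball, dist_eq_norm, add_sub_cancel_left, hu]
    exact hr
  have h2 := h h1
  rw [mem_ball_zero_iff, hcu] at h2
  have := norm_nonneg c
  linarith

theorem univ_id : Univ (fun z : ℂ => z) where
  an := fun z _ => analyticAt_id
  inj := fun a _ b _ h => h
  zero := rfl
  one := by simp

theorem S₁_ne_top : S₁ ≠ ⊤ := by
  have h1 : S₁ ≤ rho (fun z : ℂ => z) := by
    unfold S₁
    refine iInf_le_of_le _ (iInf_le_of_le ⟨univ_id, ?_⟩ le_rfl)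
    rw [image_id']
    exact (convex_ball (0 : ℂ) 1).starConvex (mem_ball_self one_pos)
  have h2 : rho (fun z : ℂ => z) ≤ ENNReal.ofReal 1 := by
    unfold rho
    refine iSup_le fun c => iSup_le fun r => iSup_le fun h => ?_
    rw [image_id'] at h
    exact ENNReal.ofReal_le_ofReal (ball_le h)
  exact ne_top_of_le_ne_top ENNReal.ofReal_ne_top (h1.trans h2)

end EXTM

open EXTM in
theorem specEXT (hPAI : SpecPAI) (hEXI : SpecEXI) : SpecEXT := by
  intro hS
  obtain ⟨f, hf, hst, hrho⟩ := hEXI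
  have hconf : Conf f (f '' ball 0 1) := ⟨hf.an, hf.inj, rfl, hf.zero⟩
  obtain ⟨g, hg⟩ := hPAI f _ hconf
  have htop := S₁_ne_top
  have h0 : (0 : ℂ) ∈ f '' ball 0 1 := ⟨0, by simp, hf.zero⟩
  obtain ⟨r₀, hr₀, hsub⟩ := Metric.isOpen_iff.1 hg.op 0 h0
  have hpos : 0 < S₁.toReal := by
    refine ENNReal.toReal_pos ?_ htop
    rw [← hrho]
    have h1 : ENNReal.ofReal r₀ ≤ rho f := by
      unfold rho
      exact le_iSup_of_le 0 (le_iSup_of_le r₀ (le_iSup_of_le hsub le_rfl))
    have h2 : 0 < ENNReal.ofReal r₀ := ENNReal.ofReal_pos.2 hr₀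
    exact (lt_of_lt_of_le h2 h1).ne'
  refine ⟨f, g, f '' ball 0 1, S₁.toReal, ⟨hg, hf.one, hst, hpos, ?_, ?_⟩⟩
  · intro c r hcr
    have h1 : ENNReal.ofReal r ≤ S₁ := by
      rw [← hrho]
      unfold rho
      exact le_iSup_of_le c (le_iSup_of_le r (le_iSup_of_le hcr le_rfl))
    exact (ENNReal.ofReal_le_iff_le_toReal htop).1 h1
  · intro F U hF ρ' hρ'
    obtain ⟨G, hG⟩ := hPAI F U hF
    set lam : ℂ := deriv F 0 with hlam
    have hl0 : lam ≠ 0 := hG.dF 0 (by simp)
    have hln : 0 < ‖lam‖ := norm_pos_iff.2 hl0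
    have hFd : DifferentiableAt ℂ F 0 := (hF.an 0 (by simp)).differentiableAt
    have hu : Univ (fun z => lam⁻¹ * F z) := by
      refine ⟨?_, ?_, ?_, ?_⟩
      · intro z hz
        exact analyticAt_const.mul (hF.an z hz)
      · intro a ha b hb hab
        exact hF.inj ha hb (mul_left_cancel₀ (inv_ne_zero hl0) hab)
      · rw [hF.zero, mul_zero]
      · rw [deriv_const_mul _ hFd, ← hlam, inv_mul_cancel₀ hl0]
    have h1 : S ≤ rho (fun z => lam⁻¹ * F z) := by
      unfold S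
      exact iInf_le_of_le _ (iInf_le_of_le hu le_rfl)
    have h2 : rho (fun z => lam⁻¹ * F z) ≤ ENNReal.ofReal (ρ' / ‖lam‖) := by
      unfold rho
      refine iSup_le fun c => iSup_le fun r => iSup_le fun h => ?_
      refine ENNReal.ofReal_le_ofReal ?_
      rw [le_div_iff₀ hln]
      refine hρ' (lam * c) (r * ‖lam‖) ?_
      intro w hw
      rw [mem_ball, dist_eq_norm] at hw
      have h3 : lam⁻¹ * w ∈ ball c r := by
        rw [mem_ball, dist_eq_norm]
        have h4 : lam⁻¹ * w - c = lam⁻¹ * (w - lam * c) := by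
          rw [mul_sub, ← mul_assoc, inv_mul_cancel₀ hl0, one_mul]
        rw [h4, norm_mul, norm_inv, inv_mul_lt_iff₀ hln, mul_comm ‖lam‖ r]
        exact hw
      obtain ⟨z, hz, hzw⟩ := h h3
      have h5 : F z = w := mul_left_cancel₀ (inv_ne_zero hl0) hzw
      rw [← hF.im]
      exact ⟨z, hz, h5⟩
    have h3 : S₁ ≤ ENNReal.ofReal (ρ' / ‖lam‖) := by
      rw [← hS]
      exact h1.trans h2
    have h4 : S₁.toReal ≤ ρ' / ‖lam‖ := by
      by_contra hlt
      push Not at hlt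
      have h5 : ENNReal.ofReal (ρ' / ‖lam‖) < ENNReal.ofReal S₁.toReal :=
        (ENNReal.ofReal_lt_ofReal_iff hpos).2 hlt
      rw [ENNReal.ofReal_toReal htop] at h5
      exact absurd h3 (not_le.2 h5)
    exact (le_div_iff₀ hln).1 h4

end Pool.Agent.Lib.MP250511.SB
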