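import Pool.Agent.Lib.MP_250511_an.SB.EXI

/-!
# MP_250511_an, SB: the schlicht Bloch constant is attained (known; copy of EXI)
-/

set_option autoImplicit false

namespace Pool.Agent.Lib.MP250511.SB

open Complex Metric Set MeasureTheory Filter Topology
open scoped Real ENNReal ComplexConjugate ContDiff

open EXIM in
/-- the schlicht Bloch constant is attained -/
theorem exists_extremal (hEXM : SpecEXM) (hEXR : SpecEXR) : ∃ f₀ : ℂ → ℂ, Univ f₀ ∧ rho f₀ = S := by
  have hSle : S ≤ 1 := by
    refine le_trans ?_ rho_id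
    unfold S
    exact iInf_le_of_le (fun z : ℂ => z) (iInf_le_of_le univ_id le_rfl)
  have hfin : S ≠ ⊤ := ne_top_of_le_ne_top ENNReal.one_ne_top hSle
  have hseq : ∀ n : ℕ, ∃ f : ℂ → ℂ, Univ f ∧
      rho f < S + ENNReal.ofReal (1 / (n + 1)) := by
    intro n
    have h1 : S < S + ENNReal.ofReal (1 / (n + 1)) := by
      refine ENNReal.lt_add_right hfin ?_
      rw [Ne, ENNReal.ofReal_eq_zero, not_le]
      positivity
    have h2 : (⨅ (f : ℂ → ℂ) (_ : Univ f), rho f) <
      S + ENNReal.ofReal (1 / (n + 1)) := h1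
    simp only [iInf_lt_iff] at h2
    obtain ⟨f, hf, h3⟩ := h2
    exact ⟨f, hf, h3⟩
  choose F hF hrho using hseq
  have hle2 : ∀ n, rho (F n) ≤ ENNReal.ofReal 2 := by
    intro n
    refine (hrho n).le.trans ?_
    have h1 : ENNReal.ofReal (1 / ((n : ℝ) + 1)) ≤ 1 := by
      rw [← ENNReal.ofReal_one]
      refine ENNReal.ofReal_le_ofReal ?_
      rw [div_le_one (by positivity)]
      have : (0 : ℝ) ≤ n := Nat.cast_nonneg n
      linarith
    calc S + ENNReal.ofReal (1 / ((n : ℝ) + 1)) ≤ 1 + 1 := add_le_add hSle h1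
      _ = ENNReal.ofReal 2 := by
        rw [one_add_one_eq_two]
        simp
  obtain ⟨f₀, hf₀, hlim⟩ := hEXM F hF hle2
  refine ⟨f₀, hf₀, le_antisymm ?_ ?_⟩
  · unfold rho
    refine iSup_le fun c => iSup_le fun r => iSup_le fun h => ?_
    -- every smaller radius is fine
    have key : ∀ r' : ℝ, r' < r → ENNReal.ofReal r' ≤ S := by
      intro r' hr'
      have h1 : closedBall c r' ⊆ f₀ '' ball 0 1 := (closedBall_subset_ball hr').trans h
      have h2 := hEXR F f₀ hF hf₀ hlim c r' h1
      refine ENNReal.le_of_forall_pos_le_add fun ε hε _ => ?_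
      have h3 : ∀ᶠ n : ℕ in (hyperfilter ℕ : Filter ℕ), (1 : ℝ) / (n + 1) < ε := by
        have h4 : Tendsto (fun n : ℕ => (1 : ℝ) / (n + 1)) (hyperfilter ℕ : Filter ℕ) (𝓝 0) := by
          refine tendsto_one_div_add_atTop_nhds_zero_nat.mono_left ?_
          rw [← Nat.cofinite_eq_atTop]
          exact hyperfilter_le_cofinite
        exact h4.eventually (gt_mem_nhds (by exact_mod_cast hε))
      obtain ⟨n, hn1, hn2⟩ := (h2.and h3).exists
      have h5 : ENNReal.ofReal r' ≤ rho (F n) := by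
        unfold rho
        exact le_iSup_of_le c (le_iSup_of_le r' (le_iSup_of_le
          (ball_subset_closedBall.trans hn1) le_rfl))
      refine h5.trans ((hrho n).le.trans (add_le_add le_rfl ?_))
      have h6 : ENNReal.ofReal (1 / ((n : ℝ) + 1)) ≤ ENNReal.ofReal (ε : ℝ) :=
        ENNReal.ofReal_le_ofReal hn2.le
      rwa [ENNReal.ofReal_coe_nnreal] at h6
    have hcont : Tendsto (fun r' : ℝ => ENNReal.ofReal r') (𝓝[<] r) (𝓝 (ENNReal.ofReal r)) :=
      (ENNReal.continuous_ofReal.tendsto r).mono_left nhdsWithin_le_nhds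
    refine le_of_tendsto hcont ?_
    filter_upwards [self_mem_nhdsWithin] with r' hr'
    exact key r' hr'
  · unfold S
    exact iInf_le_of_le f₀ (iInf_le_of_le hf₀ le_rfl)

end Pool.Agent.Lib.MP250511.SB
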