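import Pool.Agent.Lib.MP_250511_an.SB.SpecF

/-!
# MP_250511_an, module FB: the free boundary of an extremal domain
-/

set_option autoImplicit false

namespace Pool.Agent.Lib.MP250511.SB

open Complex Metric Set MeasureTheory Filter Topology
open scoped Real ENNReal ComplexConjugate ContDiff

namespace FBM

lemma g_ne {f g : ℂ → ℂ} {Ω : Set ℂ} (hP : Pair f g Ω) {z : ℂ} (hz : z ∈ Ω) (h0 : z ≠ 0) :
    g z ≠ 0 := by
  intro h
  apply h0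
  rw [← hP.FG z hz, h, hP.zero]

lemma q_ne {f g : ℂ → ℂ} {Ω : Set ℂ} (hP : Pair f g Ω) {z : ℂ} (hz : z ∈ Ω) (h0 : z ≠ 0) :
    qG g z ≠ 0 := by
  unfold qG
  exact pow_ne_zero 2 (div_ne_zero (hP.dG z hz) (g_ne hP hz h0))

end FBM

open FBM in
theorem specFB (hEXF : SpecEXF) (hLCF : SpecLCF) (hARA : SpecARA) (hARB : SpecARB) : SpecFB := by
  intro f hU hrho z₀ hz₀ hno
  obtain ⟨g, hE⟩ := hEXF f hU hrho
  have hP : Pair f g (f '' ball 0 1) := hE.toPair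
  set Ω : Set ℂ := f '' ball 0 1 with hΩ
  have h0Ω : (0 : ℂ) ∈ Ω := ⟨0, mem_ball_self one_pos, hP.zero⟩
  have hz₀Ω : z₀ ∉ Ω := by
    have h1 := hz₀.2
    rwa [hP.op.interior_eq] at h1
  have hz₀c : z₀ ∈ closure Ω := hz₀.1
  have hz₀0 : z₀ ≠ 0 := fun h => hz₀Ω (h ▸ h0Ω)
  have hK : z₀ ∉ KK Ω S.toReal := by
    rintro ⟨_, c, hc, hd⟩
    exact hno c hc hd
  obtain ⟨δ₁, hδ₁, h0b, h, han, heq, hvol⟩ := hLCF f g Ω S.toReal hE z₀ hz₀0 hK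
  -- `Ω` meets every ball around `z₀`
  have hmeet : ∀ ε > 0, ∃ z ∈ Ω, z ∈ ball z₀ ε := by
    intro ε hε
    obtain ⟨z, hz, hd⟩ := Metric.mem_closure_iff.mp hz₀c ε hε
    exact ⟨z, hz, by rwa [mem_ball, dist_comm]⟩
  have hne : (Ω ∩ ball z₀ δ₁).Nonempty := by
    obtain ⟨z, hz, hzb⟩ := hmeet δ₁ hδ₁
    exact ⟨z, hz, hzb⟩
  have hvol' := hvol hne
  -- `h` has no zeros near `z₀`, except perhaps `z₀`
  obtain ⟨δ, hδ, hδle, hh⟩ : ∃ δ > 0, δ ≤ δ₁ ∧ ∀ z ∈ ball z₀ δ, z ≠ z₀ → h z ≠ 0 := by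
    rcases (han z₀ (mem_ball_self hδ₁)).eventually_eq_zero_or_eventually_ne_zero with h1 | h1
    · exfalso
      obtain ⟨ε, hε, hball⟩ := Metric.eventually_nhds_iff_ball.mp h1
      obtain ⟨z, hz, hzb⟩ := hmeet (min ε δ₁) (lt_min hε hδ₁)
      have hzε : z ∈ ball z₀ ε := ball_subset_ball (min_le_left _ _) hzb
      have hzδ : z ∈ ball z₀ δ₁ := ball_subset_ball (min_le_right _ _) hzb
      have hz0 : z ≠ 0 := fun h => h0b (h ▸ hzδ)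
      exact q_ne hP hz hz0 ((heq z ⟨hz, hzδ⟩).trans (hball z hzε))
    · rw [eventually_nhdsWithin_iff] at h1
      obtain ⟨ε, hε, hball⟩ := Metric.eventually_nhds_iff_ball.mp h1
      refine ⟨min ε δ₁, lt_min hε hδ₁, min_le_right _ _, fun z hz hne => ?_⟩
      exact hball z (ball_subset_ball (min_le_left _ _) hz) hne
  have hsub : ball z₀ δ ⊆ ball z₀ δ₁ := ball_subset_ball hδle
  refine ⟨δ, hδ, measure_mono_null (diff_subset_diff_left hsub) hvol', ?_⟩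
  intro z₁ hz₁ hz₁Ω hz₁z₀
  set δ₂ : ℝ := δ - dist z₁ z₀ with hδ₂
  have hδ₂pos : 0 < δ₂ := sub_pos.mpr hz₁
  have hsub2 : ball z₁ δ₂ ⊆ ball z₀ δ₁ := by
    refine Subset.trans (ball_subset_ball' ?_) hsub
    rw [hδ₂]
    linarith
  obtain ⟨ξ, ψ, δ', η, hδ', hδ'le, hη, hξan, hξinj, hξ0, hξψ, hψan, hψinj, hψ⟩ :=
    hARA h z₁ δ₂ hδ₂pos (han.mono hsub2) (hh z₁ hz₁ hz₁z₀)
  have hψ0 : ψ 0 = z₁ := by
    have h1 := (hξψ z₁ (mem_ball_self hδ')).2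
    rwa [hξ0] at h1
  have hB := hARB f g Ω ψ η hP hη hψan hψinj ?_ ?_ ?_
  · refine ⟨δ', hδ', ξ, hξan, hξinj, hξ0, ?_, ?_⟩
    · intro z hz
      obtain ⟨h1, h2⟩ := hξψ z hz
      have h3 := (hB (ξ z) h1).1
      rwa [h2] at h3
    · intro w hw hfw
      obtain ⟨h1, h2⟩ := hξψ (f w) hfw
      have h3 := (hB (ξ (f w)) h1).2
      rw [h2] at h3
      have h4 := h3 ⟨w, hw, rfl⟩
      rwa [hP.GF w hw] at h4
  · intro q hq hqΩ
    obtain ⟨h1, h2⟩ := hψ q hq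
    rw [heq (ψ q) ⟨hqΩ, hsub2 h1⟩]
    exact h2
  · refine measure_mono_null (diff_subset_diff_left ?_) hvol'
    rintro _ ⟨q, hq, rfl⟩
    exact hsub2 (hψ q hq).1
  · rw [hψ0]
    exact hz₁Ω

end Pool.Agent.Lib.MP250511.SB
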