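import Pool.Agent.Lib.MP_250511_an.SB.Spec

/-!
# MP_250511_an, module FIN: infinitely many symmetry axes give a contradiction
-/

set_option autoImplicit false

namespace Pool.Agent.Lib.MP250511.SB

open Complex Metric Set MeasureTheory Filter Topology
open scoped Real ENNReal ComplexConjugate ContDiff

namespace FINM

/-- the unit directions of the points of the complement -/
def Th (Ω : Set ℂ) : Set ℂ := {e | ‖e‖ = 1 ∧ ∃ t : ℝ, 0 < t ∧ (t : ℂ) * e ∉ Ω}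

theorem sphere_infinite : (sphere (0 : ℂ) 1).Infinite := by
  have h1 : IsPreconnected (sphere (0 : ℂ) 1) := by
    apply isPreconnected_sphere
    rw [Complex.rank_real_complex]
    norm_num
  refine h1.infinite_of_nontrivial ⟨1, by simp, -1, by simp, ?_⟩
  intro h
  have := congrArg Complex.re h
  norm_num at this

theorem th_infinite {Ω : Set ℂ} {ρ : ℝ}
    (hb : ∀ (c : ℂ) (r : ℝ), ball c r ⊆ Ω → r ≤ ρ) : (Th Ω).Infinite := by
  intro hf
  obtain ⟨a, ha, hna⟩ := sphere_infinite.exists_notMem_finite hf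
  have ha1 : ‖a‖ = 1 := by simpa using ha
  obtain ⟨d, hd, hd'⟩ := Metric.isOpen_iff.1 hf.isClosed.isOpen_compl a hna
  set m : ℝ := min d 1 with hm
  have hm0 : 0 < m := lt_min hd one_pos
  have hmd : m ≤ d := min_le_left _ _
  have hm1 : m ≤ 1 := min_le_right _ _
  set R : ℝ := 4 * (|ρ| + 1) / m with hR
  have hR0 : 0 < R := by positivity
  have hRm : R * m = 4 * (|ρ| + 1) := by
    rw [hR]
    field_simp
  have hsub : ball ((R : ℂ) * a) (|ρ| + 1) ⊆ Ω := by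
    intro z hz
    rw [mem_ball, dist_eq_norm] at hz
    have hRa : ‖(R : ℂ) * a‖ = R := by
      rw [norm_mul, ha1, mul_one, Complex.norm_real, Real.norm_of_nonneg hR0.le]
    have h1 : |‖z‖ - R| ≤ ‖z - (R : ℂ) * a‖ := by
      have := abs_norm_sub_norm_le z ((R : ℂ) * a)
      rwa [hRa] at this
    have h2 : |ρ| + 1 ≤ R / 4 := by
      have : R * m ≤ R * 1 := mul_le_mul_of_nonneg_left hm1 hR0.le
      linarith
    have hz0 : 0 < ‖z‖ := by
      have := (abs_le.1 h1).1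
      linarith
    have hzC : (‖z‖ : ℂ) ≠ 0 := by
      rw [Ne, Complex.ofReal_eq_zero]
      exact hz0.ne'
    set e : ℂ := z / (‖z‖ : ℂ) with he
    have hze : (‖z‖ : ℂ) * e = z := by
      rw [he]
      field_simp
    have he1 : ‖e‖ = 1 := by
      rw [he, norm_div, Complex.norm_real, norm_norm, div_self hz0.ne']
    have h3 : R * ‖e - a‖ < R * m := by
      have h4 : (R : ℂ) * (e - a) = ((R - ‖z‖ : ℝ) : ℂ) * e + (z - (R : ℂ) * a) := by
        rw [← hze]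
        push_cast
        rw [show ‖(‖z‖ : ℂ) * e‖ = ‖z‖ by rw [hze]]
        ring
      have h5 : ‖(R : ℂ) * (e - a)‖ = R * ‖e - a‖ := by
        rw [norm_mul, Complex.norm_real, Real.norm_of_nonneg hR0.le]
      have h6 : ‖((R - ‖z‖ : ℝ) : ℂ) * e‖ = |‖z‖ - R| := by
        rw [norm_mul, Complex.norm_real, he1, mul_one, Real.norm_eq_abs, abs_sub_comm]
      have h7 := norm_add_le (((R - ‖z‖ : ℝ) : ℂ) * e) (z - (R : ℂ) * a)
      rw [← h4, h5, h6] at h7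
      have h8 : 0 ≤ |ρ| := abs_nonneg _
      linarith
    have h4 : dist e a < d := by
      rw [dist_eq_norm]
      exact lt_of_lt_of_le (lt_of_mul_lt_mul_left h3 hR0.le) hmd
    have h5 : e ∉ Th Ω := hd' h4
    by_contra hzΩ
    exact h5 ⟨he1, ‖z‖, hz0, by rw [hze]; exact hzΩ⟩
  have h := hb _ _ hsub
  have := le_abs_self ρ
  linarith

/-- the rotations preserving the complement -/
def Grp (Ω : Set ℂ) : AddSubgroup ℝ where
  carrier := {t | (∀ z, z ∉ Ω → cexp (t * I) * z ∉ Ω) ∧ (∀ z, z ∉ Ω → cexp (-(t * I)) * z ∉ Ω)}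
  zero_mem' := by
    constructor <;> intro z hz <;> simpa using hz
  add_mem' := by
    intro s t hs ht
    constructor
    · intro z hz
      have := hs.1 _ (ht.1 _ hz)
      rw [← mul_assoc, ← Complex.exp_add] at this
      rwa [show ((s + t : ℝ) : ℂ) * I = (s : ℂ) * I + (t : ℂ) * I by push_cast; ring]
    · intro z hz
      have := hs.2 _ (ht.2 _ hz)
      rw [← mul_assoc, ← Complex.exp_add] at this
      rwa [show -(((s + t : ℝ) : ℂ) * I) = -((s : ℂ) * I) + -((t : ℂ) * I) by push_cast; ring]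
  neg_mem' := by
    intro t ht
    constructor
    · intro z hz
      have := ht.2 _ hz
      rwa [show ((-t : ℝ) : ℂ) * I = -((t : ℂ) * I) by push_cast; ring]
    · intro z hz
      have := ht.1 _ hz
      rwa [show -(((-t : ℝ) : ℂ) * I) = (t : ℂ) * I by push_cast; ring]

theorem conj_mul_self {e : ℂ} (he : ‖e‖ = 1) : conj e * e = 1 := by
  rw [mul_comm, Complex.mul_conj, Complex.normSq_eq_norm_sq, he]
  norm_num

theorem refl_out {Ω : Set ℂ}
    (hsym : ∀ p : ℂ, p ∉ Ω → ∀ z ∈ Ω, p / conj p * conj z ∈ Ω) {e : ℂ} (he : e ∈ Th Ω) {z : ℂ}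
    (hz : z ∉ Ω) : e ^ 2 * conj z ∉ Ω := by
  obtain ⟨he1, t, ht, hte⟩ := he
  intro h
  apply hz
  have h1 := hsym _ hte _ h
  have h2 := conj_mul_self he1
  have htC : (t : ℂ) ≠ 0 := by
    rw [Ne, Complex.ofReal_eq_zero]
    exact ht.ne'
  have hce : conj e ≠ 0 := left_ne_zero_of_mul_eq_one h2
  have h3 : (t : ℂ) * e / conj ((t : ℂ) * e) = e ^ 2 := by
    rw [map_mul, Complex.conj_ofReal, div_eq_iff (mul_ne_zero htC hce)]
    linear_combination (-(t : ℂ) * e) * h2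
  rw [h3, map_mul, map_pow, Complex.conj_conj] at h1
  have h4 : e ^ 2 * (conj e ^ 2 * z) = z := by
    linear_combination (conj e * e + 1) * z * h2
  rwa [h4] at h1

theorem exp_arg {e : ℂ} (he : ‖e‖ = 1) : cexp (e.arg * I) = e := by
  have := Complex.norm_mul_exp_arg_mul_I e
  rwa [he, Complex.ofReal_one, one_mul] at this

theorem rot_out {Ω : Set ℂ}
    (hsym : ∀ p : ℂ, p ∉ Ω → ∀ z ∈ Ω, p / conj p * conj z ∈ Ω) {e₁ e₂ : ℂ} (h₁ : e₁ ∈ Th Ω)
    (h₂ : e₂ ∈ Th Ω) {z : ℂ} (hz : z ∉ Ω) :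
    cexp ((2 * (e₁.arg - e₂.arg) : ℝ) * I) * z ∉ Ω := by
  have h := refl_out hsym h₁ (refl_out hsym h₂ hz)
  have h3 : cexp ((2 * (e₁.arg - e₂.arg) : ℝ) * I) = e₁ ^ 2 * conj e₂ ^ 2 := by
    have h4 := exp_arg h₁.1
    have h5 := exp_arg h₂.1
    have h6 := conj_mul_self h₂.1
    have h7 : cexp ((2 * (e₁.arg - e₂.arg) : ℝ) * I) * e₂ ^ 2 = e₁ ^ 2 := by
      rw [← h5, ← Complex.exp_nat_mul, ← Complex.exp_add]
      rw [show e₁ ^ 2 = cexp (((2 : ℕ) : ℂ) * (e₁.arg * I)) by rw [Complex.exp_nat_mul, h4], h5]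
      congr 1
      push_cast
      ring
    have h8 : e₂ ^ 2 * conj e₂ ^ 2 = 1 := by
      linear_combination (conj e₂ * e₂ + 1) * h6
    calc cexp ((2 * (e₁.arg - e₂.arg) : ℝ) * I)
        = cexp ((2 * (e₁.arg - e₂.arg) : ℝ) * I) * e₂ ^ 2 * conj e₂ ^ 2 := by
          rw [mul_assoc, h8, mul_one]
      _ = e₁ ^ 2 * conj e₂ ^ 2 := by rw [h7]
  rw [h3]
  rw [map_mul, map_pow, Complex.conj_conj, ← mul_assoc] at h
  exact h

theorem mem_grp {Ω : Set ℂ}
    (hsym : ∀ p : ℂ, p ∉ Ω → ∀ z ∈ Ω, p / conj p * conj z ∈ Ω) {e₁ e₂ : ℂ} (h₁ : e₁ ∈ Th Ω)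
    (h₂ : e₂ ∈ Th Ω) : 2 * (e₁.arg - e₂.arg) ∈ Grp Ω := by
  refine ⟨fun z hz => rot_out hsym h₁ h₂ hz, fun z hz => ?_⟩
  have := rot_out hsym h₂ h₁ hz
  rwa [show ((2 * (e₂.arg - e₁.arg) : ℝ) : ℂ) * I = -(((2 * (e₁.arg - e₂.arg) : ℝ) : ℂ) * I) by
    push_cast; ring] at this

theorem two_pi_mem (Ω : Set ℂ) : 2 * π ∈ Grp Ω := by
  constructor
  · intro z hz
    have : cexp (((2 * π : ℝ) : ℂ) * I) = 1 := by
      push_cast
      exact Complex.exp_two_pi_mul_I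
    rwa [this, one_mul]
  · intro z hz
    have : cexp (-(((2 * π : ℝ) : ℂ) * I)) = 1 := by
      rw [Complex.exp_neg]
      push_cast
      rw [Complex.exp_two_pi_mul_I, inv_one]
    rwa [this, one_mul]

theorem dense_grp {Ω : Set ℂ} {ρ : ℝ}
    (hb : ∀ (c : ℂ) (r : ℝ), ball c r ⊆ Ω → r ≤ ρ)
    (hsym : ∀ p : ℂ, p ∉ Ω → ∀ z ∈ Ω, p / conj p * conj z ∈ Ω) : Dense (Grp Ω : Set ℝ) := by
  rcases (Grp Ω).dense_or_cyclic with h | ⟨a, ha⟩
  · exact h
  exfalso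
  have hinf := th_infinite hb
  obtain ⟨e₂, he₂⟩ := hinf.nonempty
  have h2 := two_pi_mem Ω
  rw [ha, AddSubgroup.mem_closure_singleton] at h2
  obtain ⟨n, hn⟩ := h2
  have hn0 : n ≠ 0 := by
    rintro rfl
    rw [zero_smul] at hn
    have := Real.pi_pos
    linarith
  have hN0 : 0 < n.natAbs := Int.natAbs_pos.2 hn0
  obtain ⟨m, hm⟩ : ∃ m : ℤ, (n.natAbs : ℤ) = m * n := by
    rcases Int.natAbs_eq n with h | h
    · exact ⟨1, by omega⟩
    · exact ⟨-1, by omega⟩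
  apply hinf
  refine ((Polynomial.nthRoots (2 * n.natAbs) (e₂ ^ (2 * n.natAbs))).toFinset.finite_toSet).subset ?_
  intro e₁ he₁
  simp only [Finset.mem_coe, Multiset.mem_toFinset]
  rw [Polynomial.mem_nthRoots (by omega)]
  have h3 := mem_grp hsym he₁ he₂
  rw [ha, AddSubgroup.mem_closure_singleton] at h3
  obtain ⟨k, hk⟩ := h3
  rw [zsmul_eq_mul] at hn hk
  have hC : ((n.natAbs : ℕ) : ℂ) = (m : ℂ) * (n : ℂ) := by
    rw [← Int.cast_natCast, hm, Int.cast_mul]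
  have hn' : (n : ℂ) * (a : ℂ) = 2 * π := by exact_mod_cast congrArg (fun x : ℝ => (x : ℂ)) hn
  have hk' : (k : ℂ) * (a : ℂ) = 2 * ((e₁.arg : ℂ) - (e₂.arg : ℂ)) := by
    exact_mod_cast congrArg (fun x : ℝ => (x : ℂ)) hk
  have h4 : e₁ ^ (2 * n.natAbs) = cexp (((2 * n.natAbs : ℕ) : ℂ) * (e₁.arg * I)) := by
    rw [Complex.exp_nat_mul, exp_arg he₁.1]
  have h5 : e₂ ^ (2 * n.natAbs) = cexp (((2 * n.natAbs : ℕ) : ℂ) * (e₂.arg * I)) := by
    rw [Complex.exp_nat_mul, exp_arg he₂.1]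
  rw [h4, h5, Complex.exp_eq_exp_iff_exists_int]
  refine ⟨k * m, ?_⟩
  push_cast
  rw [hC]
  linear_combination (-(m : ℂ) * (n : ℂ) * I) * hk' + ((k : ℂ) * (m : ℂ) * I) * hn'

end FINM

open FINM in
theorem specFIN : SpecFIN := by
  intro Ω ρ hop hst h0 hint hb hsym
  have hd := dense_grp hb hsym
  -- all rotations preserve the complement
  have hall : ∀ (t : ℝ) (z : ℂ), z ∉ Ω → cexp (t * I) * z ∉ Ω := by
    intro t z hz
    have hcl : IsClosed {s : ℝ | cexp (s * I) * z ∉ Ω} := by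
      have hc : Continuous fun s : ℝ => cexp (s * I) * z := by fun_prop
      exact hop.isClosed_compl.preimage hc
    have hsub : (Grp Ω : Set ℝ) ⊆ {s : ℝ | cexp (s * I) * z ∉ Ω} := fun s hs => hs.1 z hz
    have h1 := hcl.closure_subset_iff.2 hsub
    rw [hd.closure_eq] at h1
    exact h1 (mem_univ t)
  obtain ⟨p, hp⟩ : ∃ p, p ∉ Ω := by
    obtain ⟨e, he⟩ := (th_infinite hb).nonempty
    obtain ⟨_, t, _, ht⟩ := he
    exact ⟨_, ht⟩
  have hp0 : p ≠ 0 := by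
    rintro rfl
    exact hp h0
  have hnp : 0 < ‖p‖ := norm_pos_iff.2 hp0
  have hout : ∀ z : ℂ, ‖p‖ < ‖z‖ → z ∉ Ω := by
    intro z hz
    have hz0 : 0 < ‖z‖ := hnp.trans hz
    have h1 := out_mul hst (hall (z.arg - p.arg) p hp) (s := ‖z‖ / ‖p‖)
      ((one_le_div hnp).2 hz.le)
    have h2 : ((‖z‖ / ‖p‖ : ℝ) : ℂ) * (cexp ((z.arg - p.arg : ℝ) * I) * p) = z := by
      have h3 := Complex.norm_mul_exp_arg_mul_I z
      have h4 := Complex.norm_mul_exp_arg_mul_I p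
      have h5 : (‖p‖ : ℂ) ≠ 0 := by
        rw [Ne, Complex.ofReal_eq_zero]
        exact hnp.ne'
      have h6 : cexp ((z.arg - p.arg : ℝ) * I) * cexp (p.arg * I) = cexp (z.arg * I) := by
        rw [← Complex.exp_add]
        congr 1
        push_cast
        ring
      calc ((‖z‖ / ‖p‖ : ℝ) : ℂ) * (cexp ((z.arg - p.arg : ℝ) * I) * p)
          = ((‖z‖ / ‖p‖ : ℝ) : ℂ) * (cexp ((z.arg - p.arg : ℝ) * I) *
            ((‖p‖ : ℂ) * cexp (p.arg * I))) := by rw [h4]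
        _ = (‖z‖ : ℂ) * (cexp ((z.arg - p.arg : ℝ) * I) * cexp (p.arg * I)) := by
            push_cast
            field_simp
        _ = z := by rw [h6, h3]
    rwa [h2] at h1
  have hopen : IsOpen {z : ℂ | ‖p‖ < ‖z‖} := isOpen_lt continuous_const continuous_norm
  have hsub : {z : ℂ | ‖p‖ < ‖z‖} ⊆ interior Ωᶜ := interior_maximal (fun z hz => hout z hz) hopen
  rw [hint] at hsub
  have : (2 : ℂ) * p ∈ {z : ℂ | ‖p‖ < ‖z‖} := by
    rw [Set.mem_ofPred_eq, norm_mul]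
    norm_num
    linarith
  exact hsub this

end Pool.Agent.Lib.MP250511.SB
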