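import Pool.Agent.Lib.MP_250511_an.SB.SpecW

/-!
# MP_250511_an, module FIND: the structure theorem, with the resultant of the contact forces
-/

set_option autoImplicit false

namespace Pool.Agent.Lib.MP250511.SB

open Complex Metric Set MeasureTheory Filter Topology
open scoped Real ENNReal ComplexConjugate ContDiff

theorem specFIND (hEXF : SpecEXF) (hMUL : SpecMUL) (hMAS : SpecMAS) (hCPX : SpecCPX)
    (hREP : SpecREP) (hUNB : SpecUNB) (hSTD : SpecSTD) (hNRT : SpecNRT) : SpecFIND := by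
  intro hA f hf hr
  obtain ⟨g, hE⟩ := hEXF f hf hr
  have hvol := hA f hf hr
  obtain ⟨ν, h1, h2, h3⟩ := hMUL f g _ _ hE
  have h4 := hMAS f g _ _ hE ν h1 h2 h3
  have hP : IsProbabilityMeasure ν := ⟨h4⟩
  obtain ⟨h5, h6⟩ := hCPX g _ _ ν hE.pos inferInstance h2 h3
  have h7 := hREP f g _ _ ν hE.toPair hE.one hE.pos inferInstance h2 h5 h6
  have h8 := hUNB f g _ _ ν hE hvol hP h2 h6 h7
  have hq : ∀ w ∈ ball (0 : ℂ) 1, qG g (f w) = 1 / (w * deriv f w) ^ 2 := by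
    intro w hw
    unfold qG
    rw [hE.GF w hw]
    have hd := hE.dGF w hw
    have hdf : deriv f w ≠ 0 := hE.dF w hw
    have hdg : deriv g (f w) = (deriv f w)⁻¹ := eq_inv_of_mul_eq_one_left hd
    rw [hdg, inv_div_left, one_div, inv_pow]
  refine ⟨⟨ν, hP, ?_, h6, ?_, ?_, ?_⟩, ?_⟩
  · rw [ae_iff]
    exact h2
  · intro w hw hw0
    have hfw : f w ∈ f '' ball 0 1 := ⟨w, hw, rfl⟩
    have hfw0 : f w ≠ 0 := by
      intro h
      apply hw0
      apply hE.inj hw (mem_ball_self one_pos)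
      rw [h, hE.zero]
    rw [← h7 (f w) hfw hfw0, hq w hw]
  · intro M hM
    apply h8 M
    rw [ae_iff]
    simpa only [not_le] using hM
  · intro z₀ R hz₀ hR δ₀ hδ₀ hno
    have hc : ∀ x ∈ CC (f '' ball 0 1) S.toReal, x.2 ∈ ball z₀ δ₀ → x.2 = z₀ := by
      intro x hx hxb
      by_contra hne
      exact hno x.2 hxb hne hx.2.1 x.1 hx.1 hx.2.2
    obtain ⟨hR0, N, hN1, hN2, δ, hδ, ξ, hξa, hξi, hξR, hξ0, hξ⟩ :=
      hSTD f g _ _ ν hE hvol inferInstance h2 h7 z₀ δ₀ R hδ₀ hz₀ hc hR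
    refine ⟨?_, N, hN1, hN2, δ, hδ, ξ, hξa, hξi, hξR, hξ0, fun z hz => (hξ z hz).1, ?_⟩
    · intro hfree
      apply hR0
      intro x hx hxe
      exact hfree x.1 hx.1 (hxe ▸ hx.2.2)
    · intro w hw hfw
      have h9 := (hξ (f w) hfw).2 ⟨w, hw, rfl⟩
      rwa [hE.GF w hw] at h9
  · intro M C m H hH hC hall
    refine hNRT f g _ _ hE hvol (max M 0) C m H (le_max_right _ _)
      (hH.mono fun z (hz : max M 0 < ‖z‖) => show M < ‖z‖ from
        lt_of_le_of_lt (le_max_left _ _) hz)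
      (fun z hz => hC z (lt_of_le_of_lt (le_max_left _ _) hz)) ?_
    rintro z ⟨w, hw, rfl⟩ hz
    rw [hq w hw]
    exact hall w hw (lt_of_le_of_lt (le_max_left _ _) hz)

end Pool.Agent.Lib.MP250511.SB
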