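import Pool.Agent.Lib.MP_250511_an.SB.Spec

/-!
# MP_250511_an, module FLT: no flat strips
-/

set_option autoImplicit false

namespace Pool.Agent.Lib.MP250511.SB

open Complex Metric Set MeasureTheory Filter Topology
open scoped Real ENNReal ComplexConjugate ContDiff

namespace FLTM

lemma ee {e : ℂ} (he : ‖e‖ = 1) : conj e * e = 1 := by
  rw [mul_comm, Complex.mul_conj, Complex.normSq_eq_norm_sq, he]
  norm_num

lemma dec {e n : ℂ} (he : ‖e‖ = 1) (hn : n = I * e ∨ n = -(I * e)) (z : ℂ) :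
    z = (((z * conj e).re : ℝ) : ℂ) * e + (((z * conj n).re : ℝ) : ℂ) * n := by
  have hw : z = (z * conj e) * e := by rw [mul_assoc, ee he, mul_one]
  have hwd : (z * conj e) = (((z * conj e).re : ℝ) : ℂ) + (((z * conj e).im : ℝ) : ℂ) * I :=
    (Complex.re_add_im _).symm
  rcases hn with rfl | rfl
  · have h1 : (z * conj (I * e)).re = (z * conj e).im := by
      have : z * conj (I * e) = -(I * (z * conj e)) := by
        rw [map_mul, Complex.conj_I]
        ring
      rw [this, Complex.neg_re, Complex.I_mul_re, neg_neg]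
    rw [h1]
    calc z = (z * conj e) * e := hw
      _ = ((((z * conj e).re : ℝ) : ℂ) + (((z * conj e).im : ℝ) : ℂ) * I) * e := by rw [← hwd]
      _ = _ := by ring
  · have h1 : (z * conj (-(I * e))).re = -(z * conj e).im := by
      have : z * conj (-(I * e)) = I * (z * conj e) := by
        rw [map_neg, map_mul, Complex.conj_I]
        ring
      rw [this, Complex.I_mul_re]
    rw [h1, Complex.ofReal_neg]
    calc z = (z * conj e) * e := hw
      _ = ((((z * conj e).re : ℝ) : ℂ) + (((z * conj e).im : ℝ) : ℂ) * I) * e := by rw [← hwd]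
      _ = _ := by ring

lemma nsq {e n : ℂ} (he : ‖e‖ = 1) (hn : n = I * e ∨ n = -(I * e)) (X Y : ℝ) :
    ‖(X : ℂ) * e + (Y : ℂ) * n‖ ^ 2 = X ^ 2 + Y ^ 2 := by
  have h : ∀ Y' : ℝ, ‖((X : ℂ) + (Y' : ℂ) * I) * e‖ ^ 2 = X ^ 2 + Y' ^ 2 := by
    intro Y'
    rw [norm_mul, he, mul_one, ← Complex.normSq_eq_norm_sq, Complex.normSq_add_mul_I]
  rcases hn with rfl | rfl
  · have e1 : (X : ℂ) * e + (Y : ℂ) * (I * e) = ((X : ℂ) + (Y : ℂ) * I) * e := by ring
    rw [e1]
    exact h Y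
  · have e1 : (X : ℂ) * e + (Y : ℂ) * (-(I * e)) = ((X : ℂ) + ((-Y : ℝ) : ℂ) * I) * e := by
      push_cast
      ring
    rw [e1, h (-Y)]
    ring

lemma dsq {e n : ℂ} (he : ‖e‖ = 1) (hn : n = I * e ∨ n = -(I * e)) (X Y x y : ℝ) :
    dist ((X : ℂ) * e + (Y : ℂ) * n) ((x : ℂ) * e + (y : ℂ) * n) ^ 2 =
      (X - x) ^ 2 + (Y - y) ^ 2 := by
  rw [dist_eq_norm]
  have e1 : (X : ℂ) * e + (Y : ℂ) * n - ((x : ℂ) * e + (y : ℂ) * n) =
      ((X - x : ℝ) : ℂ) * e + ((Y - y : ℝ) : ℂ) * n := by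
    push_cast
    ring
  rw [e1, nsq he hn]

lemma memb {e n : ℂ} (he : ‖e‖ = 1) (hn : n = I * e ∨ n = -(I * e)) {X Y x y r : ℝ} (hr : 0 < r)
    (h : (X - x) ^ 2 + (Y - y) ^ 2 < r ^ 2) :
    (X : ℂ) * e + (Y : ℂ) * n ∈ ball ((x : ℂ) * e + (y : ℂ) * n) r := by
  rw [mem_ball]
  apply lt_of_pow_lt_pow_left₀ 2 hr.le
  rw [dsq he hn]
  exact h

lemma one {Ω : Set ℂ} {ρ : ℝ} (hρ : 0 < ρ) (hΩ : IsOpen Ω)
    (hin : ∀ (c : ℂ) (r : ℝ), ball c r ⊆ Ω → r ≤ ρ) {e n : ℂ} (he : ‖e‖ = 1)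
    (hn : n = I * e ∨ n = -(I * e)) {r₁ r₂ : ℝ}
    (hb : ∀ x ∈ Ioo r₁ r₂, ball ((x : ℂ) * e + (ρ : ℂ) * n) ρ ⊆ Ω) (x : ℝ)
    (hx : x ∈ Ioo r₁ r₂) : (x : ℂ) * e + ((2 * ρ : ℝ) : ℂ) * n ∉ Ω := by
  intro hmem
  obtain ⟨η₀, hη₀, hball⟩ := Metric.isOpen_iff.1 hΩ _ hmem
  obtain ⟨hx1, hx2⟩ := hx
  obtain ⟨d, hd, hd1, hd2⟩ : ∃ d : ℝ, 0 < d ∧ r₁ < x - d ∧ x + d < r₂ := by
    refine ⟨min (x - r₁) (r₂ - x) / 2, ?_, ?_, ?_⟩
    · have : 0 < min (x - r₁) (r₂ - x) := lt_min (by linarith) (by linarith)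
      linarith
    · have h1 := min_le_left (x - r₁) (r₂ - x)
      have : 0 < min (x - r₁) (r₂ - x) := lt_min (by linarith) (by linarith)
      linarith
    · have h1 := min_le_right (x - r₁) (r₂ - x)
      have : 0 < min (x - r₁) (r₂ - x) := lt_min (by linarith) (by linarith)
      linarith
  obtain ⟨η, hη, hη1, hη2, hη3⟩ : ∃ η : ℝ, 0 < η ∧ η ≤ ρ ∧ 12 * η * ρ ≤ η₀ ^ 2 ∧
      8 * η * ρ ≤ d ^ 2 := by
    refine ⟨min ρ (min (η₀ ^ 2 / (12 * ρ)) (d ^ 2 / (8 * ρ))), ?_, min_le_left _ _, ?_, ?_⟩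
    · exact lt_min hρ (lt_min (by positivity) (by positivity))
    · have h1 : min ρ (min (η₀ ^ 2 / (12 * ρ)) (d ^ 2 / (8 * ρ))) ≤ η₀ ^ 2 / (12 * ρ) :=
        (min_le_right _ _).trans (min_le_left _ _)
      rw [le_div_iff₀ (by positivity)] at h1
      linarith
    · have h1 : min ρ (min (η₀ ^ 2 / (12 * ρ)) (d ^ 2 / (8 * ρ))) ≤ d ^ 2 / (8 * ρ) :=
        (min_le_right _ _).trans (min_le_right _ _)
      rw [le_div_iff₀ (by positivity)] at h1
      linarith
  have key : ball ((x : ℂ) * e + ((ρ + η : ℝ) : ℂ) * n) (ρ + η) ⊆ Ω := by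
    intro z hz
    obtain ⟨X, Y, rfl⟩ : ∃ X Y : ℝ, z = (X : ℂ) * e + (Y : ℂ) * n := ⟨_, _, dec he hn z⟩
    have h1 : (X - x) ^ 2 + (Y - (ρ + η)) ^ 2 < (ρ + η) ^ 2 := by
      rw [← dsq he hn X Y x (ρ + η)]
      exact pow_lt_pow_left₀ (mem_ball.1 hz) dist_nonneg two_ne_zero
    have h2 : (X - x) ^ 2 + (Y - ρ) ^ 2 < ρ ^ 2 + 2 * η * Y := by nlinarith
    have h3 : |Y - (ρ + η)| < ρ + η := by
      apply abs_lt_of_sq_lt_sq _ (by linarith)
      nlinarith [sq_nonneg (X - x)]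
    obtain ⟨h4, h5⟩ := abs_lt.1 h3
    have Y0 : 0 < Y := by linarith
    have Y4 : Y < 4 * ρ := by linarith
    have hY8 : 2 * η * Y ≤ 8 * η * ρ := by nlinarith
    by_cases hY : Y < 2 * ρ
    · by_cases hX : |X - x| ≤ d
      · obtain ⟨h6, h7⟩ := abs_le.1 hX
        refine hb X ⟨by linarith, by linarith⟩ (memb he hn hρ ?_)
        nlinarith
      · push Not at hX
        rcases lt_abs.1 hX with h6 | h6
        · refine hb (x + d) ⟨by linarith, by linarith⟩ (memb he hn hρ ?_)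
          nlinarith
        · refine hb (x - d) ⟨by linarith, by linarith⟩ (memb he hn hρ ?_)
          nlinarith
    · push Not at hY
      refine hball (memb he hn hη₀ ?_)
      have h8 : (X - x) ^ 2 < 8 * η * ρ := by nlinarith
      have h9 : (Y - 2 * ρ) ^ 2 ≤ 4 * η * ρ := by nlinarith
      linarith
  have := hin _ _ key
  linarith

end FLTM

open FLTM in
/-- Module FLT. -/
theorem specFLT : SpecFLT := by
  intro Ω ρ hρ hΩ hst hin hint e n he hn r₁ r₂ hr hb
  set V : Set ℂ := {z | 2 * ρ < (z * conj n).re ∧ r₁ * (z * conj n).re < 2 * ρ * (z * conj e).re ∧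
    2 * ρ * (z * conj e).re < r₂ * (z * conj n).re} with hV
  have cb : Continuous fun z : ℂ => (z * conj n).re :=
    Complex.continuous_re.comp (continuous_id.mul continuous_const)
  have ca : Continuous fun z : ℂ => (z * conj e).re :=
    Complex.continuous_re.comp (continuous_id.mul continuous_const)
  have oV : IsOpen V :=
    (isOpen_lt continuous_const cb).inter
      ((isOpen_lt (continuous_const.mul cb) (continuous_const.mul ca)).inter
        (isOpen_lt (continuous_const.mul ca) (continuous_const.mul cb)))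
  have sub : V ⊆ Ωᶜ := by
    rintro z ⟨h1, h2, h3⟩
    set β := (z * conj n).re with hβ
    set α := (z * conj e).re with hα
    have hz : z = (α : ℂ) * e + (β : ℂ) * n := dec he hn z
    have β0 : 0 < β := by linarith
    have hx : 2 * ρ * α / β ∈ Ioo r₁ r₂ :=
      ⟨by rw [lt_div_iff₀ β0]; exact h2, by rw [div_lt_iff₀ β0]; exact h3⟩
    have h4 := one hρ hΩ hin he hn hb _ hx
    have h5 := out_mul hst h4 (s := β / (2 * ρ)) (by
      rw [le_div_iff₀ (by positivity)]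
      linarith)
    have h6 : ((β / (2 * ρ) : ℝ) : ℂ) * (((2 * ρ * α / β : ℝ) : ℂ) * e +
        ((2 * ρ : ℝ) : ℂ) * n) = z := by
      have e1 : β / (2 * ρ) * (2 * ρ * α / β) = α := by field_simp
      have e2 : β / (2 * ρ) * (2 * ρ) = β := by field_simp
      rw [mul_add, ← mul_assoc, ← mul_assoc, ← Complex.ofReal_mul, ← Complex.ofReal_mul, e1, e2]
      exact hz.symm
    rw [h6] at h5
    exact h5
  have ne : V.Nonempty := by
    have hne : ∀ w : ℂ, ‖w‖ = 1 → (w * conj w).re = 1 := by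
      intro w hw
      rw [mul_comm, ee hw, Complex.one_re]
    have nn : ‖n‖ = 1 := by
      rcases hn with rfl | rfl
      · rw [norm_mul, Complex.norm_I, he, one_mul]
      · rw [norm_neg, norm_mul, Complex.norm_I, he, one_mul]
    have hen : (e * conj n).re = 0 := by
      rcases hn with rfl | rfl
      · have : e * conj (I * e) = -(I * (e * conj e)) := by
          rw [map_mul, Complex.conj_I]
          ring
        rw [this, mul_comm e, ee he]
        simp
      · have : e * conj (-(I * e)) = I * (e * conj e) := by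
          rw [map_neg, map_mul, Complex.conj_I]
          ring
        rw [this, mul_comm e, ee he]
        simp
    have hne' : (n * conj e).re = 0 := by
      have : n * conj e = conj (e * conj n) := by
        rw [map_mul, Complex.conj_conj]
        ring
      rw [this, Complex.conj_re, hen]
    have lin : ∀ (a b : ℝ) (w : ℂ), (((a : ℂ) * e + (b : ℂ) * n) * w).re =
        a * (e * w).re + b * (n * w).re := by
      intro a b w
      rw [add_mul, mul_assoc, mul_assoc, Complex.add_re, Complex.re_ofReal_mul,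
        Complex.re_ofReal_mul]
    refine ⟨((r₁ + r₂ : ℝ) : ℂ) * e + ((4 * ρ : ℝ) : ℂ) * n, ?_⟩
    rw [hV, mem_setOf_eq, lin, lin, hen, hne', hne e he, hne n nn]
    refine ⟨by linarith, ?_, ?_⟩ <;> nlinarith
  obtain ⟨z, hz⟩ := ne
  have : z ∈ interior Ωᶜ := mem_interior.2 ⟨V, sub, oV, hz⟩
  rw [hint] at this
  exact this

end Pool.Agent.Lib.MP250511.SB
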