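import Pool.Agent.Lib.MP_250511_an.SB.Spec

/-!
Module FLU: the total mass of the quadratic differential `(g'/g)²` outside the level set
`‖g‖ ≤ exp (-L)`.
-/

set_option autoImplicit false

namespace Pool.Agent.Lib.MP250511.SB

open Complex Metric Set MeasureTheory Filter Topology
open scoped Real ENNReal ComplexConjugate ContDiff

noncomputable section

namespace FLUM

theorem det_mul (κ : ℂ) : ((ContinuousLinearMap.mul ℝ ℂ) κ).det = Complex.normSq κ := by
  have : (((ContinuousLinearMap.mul ℝ ℂ) κ : ℂ →L[ℝ] ℂ) : ℂ →ₗ[ℝ] ℂ) = Algebra.lmul ℝ ℂ κ := by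
    ext
    simp
  unfold ContinuousLinearMap.det
  rw [this, ← Algebra.norm_apply, Algebra.norm_complex_apply]

/-- the real derivative of a complex differentiable function -/
theorem real_deriv {f : ℂ → ℂ} {d z : ℂ} (h : HasDerivAt f d z) :
    HasFDerivAt f ((ContinuousLinearMap.mul ℝ ℂ) d) z := by
  have h1 := h.hasFDerivAt.restrictScalars ℝ
  have h2 : (ContinuousLinearMap.restrictScalars ℝ (ContinuousLinearMap.toSpanSingleton ℂ d) :
      ℂ →L[ℝ] ℂ) = (ContinuousLinearMap.mul ℝ ℂ) d := by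
    refine ContinuousLinearMap.ext fun x => ?_
    change x • d = d * x
    rw [smul_eq_mul, mul_comm]
  rw [h2] at h1
  exact h1

/-- change of variables for an injective complex differentiable map -/
theorem change {A : Set ℂ} (hA : MeasurableSet A) {f f' : ℂ → ℂ}
    (hf : ∀ z ∈ A, HasDerivAt f (f' z) z) (hi : InjOn f A) (G : ℂ → ℝ≥0∞) :
    ∫⁻ w in f '' A, G w = ∫⁻ z in A, ENNReal.ofReal (‖f' z‖ ^ 2) * G (f z) := by
  have hd : ∀ z ∈ A, HasFDerivWithinAt f ((ContinuousLinearMap.mul ℝ ℂ) (f' z)) A z := by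
    intro z hz
    exact (real_deriv (hf z hz)).hasFDerivWithinAt
  rw [lintegral_image_eq_lintegral_abs_det_fderiv_mul volume hA hd hi G]
  refine setLIntegral_congr_fun hA fun z _ => ?_
  rw [det_mul, abs_of_nonneg (Complex.normSq_nonneg _), Complex.normSq_eq_norm_sq]

/-- the annulus -/
def ann (a : ℝ) : Set ℂ := {w : ℂ | a < ‖w‖ ∧ ‖w‖ < 1}

theorem ann_meas (a : ℝ) : MeasurableSet (ann a) :=
  (measurableSet_lt measurable_const measurable_norm).inter
    (measurableSet_lt measurable_norm measurable_const)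

theorem radial (a : ℝ) (ha : 0 < a) (ha1 : a < 1) :
    ∫⁻ r in Ioo a 1, ENNReal.ofReal (r⁻¹) = ENNReal.ofReal (- Real.log a) := by
  have hint : IntegrableOn (fun r : ℝ => r⁻¹) (Ioo a 1) := by
    have h1 : IntervalIntegrable (fun r : ℝ => r⁻¹) volume a 1 := by
      apply intervalIntegral.intervalIntegrable_inv
      · intro x hx
        rw [uIcc_of_le ha1.le] at hx
        exact (lt_of_lt_of_le ha hx.1).ne'
      · exact continuousOn_id
    rw [intervalIntegrable_iff_integrableOn_Ioo_of_le ha1.le] at h1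
    exact h1
  rw [← ofReal_integral_eq_lintegral_ofReal hint]
  · congr 1
    rw [← integral_Ioc_eq_integral_Ioo, ← intervalIntegral.integral_of_le ha1.le,
      integral_inv_of_pos ha one_pos, one_div, Real.log_inv]
  · refine (ae_restrict_iff' measurableSet_Ioo).mpr (Eventually.of_forall fun r hr => ?_)
    exact inv_nonneg.mpr (ha.trans hr.1).le

theorem polar (a : ℝ) (ha : 0 < a) (ha1 : a < 1) :
    ∫⁻ w in ann a, ENNReal.ofReal ((‖w‖⁻¹) ^ 2) = ENNReal.ofReal (2 * π * (- Real.log a)) := by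
  rw [← lintegral_indicator (ann_meas a), ← Complex.lintegral_comp_polarCoord_symm,
    polarCoord_target]
  have h1 : ∫⁻ p in Ioi (0 : ℝ) ×ˢ Ioo (-π) π, ENNReal.ofReal p.1 •
      (ann a).indicator (fun w => ENNReal.ofReal ((‖w‖⁻¹) ^ 2)) (Complex.polarCoord.symm p) =
      ∫⁻ p in Ioi (0 : ℝ) ×ˢ Ioo (-π) π,
        (Ioo a 1).indicator (fun r => ENNReal.ofReal (r⁻¹)) p.1 * 1 := by
    refine setLIntegral_congr_fun (measurableSet_Ioi.prod measurableSet_Ioo) fun p hp => ?_
    have hp1 : 0 < p.1 := hp.1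
    have hn : ‖Complex.polarCoord.symm p‖ = p.1 := by
      rw [Complex.norm_polarCoord_symm, abs_of_pos hp1]
    by_cases hm : p.1 ∈ Ioo a 1
    · have hm' : Complex.polarCoord.symm p ∈ ann a := by
        change a < ‖Complex.polarCoord.symm p‖ ∧ ‖Complex.polarCoord.symm p‖ < 1
        rw [hn]
        exact hm
      change ENNReal.ofReal p.1 • (ann a).indicator _ (Complex.polarCoord.symm p) = _
      rw [indicator_of_mem hm', indicator_of_mem hm, hn, mul_one, smul_eq_mul,
        ← ENNReal.ofReal_mul hp1.le]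
      congr 1
      rw [sq, ← mul_assoc, mul_inv_cancel₀ hp1.ne', one_mul]
    · have hm' : Complex.polarCoord.symm p ∉ ann a := by
        intro h
        apply hm
        change a < ‖Complex.polarCoord.symm p‖ ∧ ‖Complex.polarCoord.symm p‖ < 1 at h
        rw [hn] at h
        exact h
      change ENNReal.ofReal p.1 • (ann a).indicator _ (Complex.polarCoord.symm p) = _
      rw [indicator_of_notMem hm', indicator_of_notMem hm, smul_zero, zero_mul]
  rw [h1, Measure.volume_eq_prod, ← Measure.prod_restrict, lintegral_prod_mul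
    (f := (Ioo a 1).indicator (fun r => ENNReal.ofReal (r⁻¹))) (g := fun _ => 1)
    ((measurable_inv.ennreal_ofReal.indicator measurableSet_Ioo).aemeasurable)
    aemeasurable_const, lintegral_one, Measure.restrict_apply_univ, Real.volume_Ioo,
    lintegral_indicator measurableSet_Ioo, Measure.restrict_restrict measurableSet_Ioo]
  have h2 : Ioo a 1 ∩ Ioi (0 : ℝ) = Ioo a 1 :=
    inter_eq_left.mpr fun r hr => ha.trans hr.1
  rw [h2, radial a ha ha1, ← ENNReal.ofReal_mul (neg_nonneg.mpr (Real.log_neg ha ha1).le)]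
  congr 1
  ring

end FLUM

open FLUM in
theorem specFLU : SpecFLU := by
  intro f g Ω hP L hL
  set a : ℝ := Real.exp (-L) with ha
  have ha0 : 0 < a := Real.exp_pos _
  have ha1 : a < 1 := by
    rw [ha, Real.exp_lt_one_iff]
    linarith
  have hcg : ContinuousOn g Ω := hP.gan.continuousOn
  have hSo : IsOpen {z | z ∈ Ω ∧ a < ‖g z‖} :=
    (hcg.norm).isOpen_inter_preimage hP.op isOpen_Ioi
  have hSm : MeasurableSet {z | z ∈ Ω ∧ a < ‖g z‖} := hSo.measurableSet
  have hinj : InjOn g {z | z ∈ Ω ∧ a < ‖g z‖} := by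
    intro z hz w hw h
    rw [← hP.FG z hz.1, ← hP.FG w hw.1, h]
  have himg : g '' {z | z ∈ Ω ∧ a < ‖g z‖} = ann a := by
    ext w
    constructor
    · rintro ⟨z, hz, rfl⟩
      exact ⟨hz.2, hP.gm z hz.1⟩
    · rintro ⟨h1, h2⟩
      have hw : w ∈ ball (0 : ℂ) 1 := mem_ball_zero_iff.mpr h2
      refine ⟨f w, ⟨?_, ?_⟩, hP.GF w hw⟩
      · rw [← hP.im]
        exact mem_image_of_mem f hw
      · rw [hP.GF w hw]
        exact h1
  have hder : ∀ z ∈ {z | z ∈ Ω ∧ a < ‖g z‖}, HasDerivAt g (deriv g z) z := fun z hz =>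
    (hP.gan z hz.1).differentiableAt.hasDerivAt
  have hch := change hSm hder hinj (fun w => ENNReal.ofReal ((‖w‖⁻¹) ^ 2))
  rw [himg, polar a ha0 ha1] at hch
  have hlog : - Real.log a = L := by rw [ha, Real.log_exp, neg_neg]
  rw [hlog] at hch
  rw [hch]
  refine setLIntegral_congr_fun hSm fun z _ => ?_
  change ENNReal.ofReal ‖qG g z‖ = ENNReal.ofReal (‖deriv g z‖ ^ 2) *
    ENNReal.ofReal ((‖g z‖⁻¹) ^ 2)
  rw [← ENNReal.ofReal_mul (sq_nonneg _), qG, norm_pow, norm_div, div_eq_mul_inv, mul_pow]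

end

end Pool.Agent.Lib.MP250511.SB
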