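import Pool.Agent.Lib.MP_250511_an.SB.Spec

/-!
# MP_250511_an, module FRE: every ray of the complement has a free point
-/

set_option autoImplicit false

namespace Pool.Agent.Lib.MP250511.SB

open Complex Metric Set MeasureTheory Filter Topology
open scoped Real ENNReal ComplexConjugate ContDiff

namespace FREM

lemma real_min {R δ : ℝ} (hδ : 0 < δ) (h : ∀ t : ℝ, -δ ≤ t → R ^ 2 ≤ (t + R) ^ 2) : R = 0 := by
  rcases lt_trichotomy R 0 with h0 | h0 | h0
  · have := h (-R) (by linarith)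
    nlinarith
  · exact h0
  · have h1 : 0 < min R δ := lt_min h0 hδ
    have h2 : min R δ ≤ R := min_le_left _ _
    have := h (-(min R δ)) (by linarith [min_le_right R δ])
    nlinarith

end FREM

theorem specFRE (hFLT : SpecFLT) : SpecFRE := by
  intro Ω ρ hρ hop hst hinr hint p hp0 hpΩ
  by_contra hcon
  push Not at hcon
  have hP : 0 < ‖p‖ := norm_pos_iff.2 hp0
  have hPc : ((‖p‖ : ℝ) : ℂ) ≠ 0 := by exact_mod_cast hP.ne'
  obtain ⟨e, he, hpe⟩ : ∃ e : ℂ, ‖e‖ = 1 ∧ p = ((‖p‖ : ℝ) : ℂ) * e := by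
    refine ⟨p / ((‖p‖ : ℝ) : ℂ), ?_, ?_⟩
    · rw [norm_div, Complex.norm_real, norm_norm, div_self hP.ne']
    · field_simp
  have hee : e * conj e = 1 := by
    rw [Complex.mul_conj, Complex.normSq_eq_norm_sq, he]
    norm_num
  have hnc : ‖conj e‖ = 1 := by rw [Complex.norm_conj, he]
  have hray : ∀ y : ℝ, ((y / ‖p‖ : ℝ) : ℂ) * p = (y : ℂ) * e := by
    intro y
    have h0 : ((y / ‖p‖ : ℝ) : ℂ) * p = ((y / ‖p‖ : ℝ) : ℂ) * (((‖p‖ : ℝ) : ℂ) * e) := by
      rw [← hpe]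
    rw [h0, Complex.ofReal_div, ← mul_assoc, div_mul_cancel₀ _ hPc]
  -- the ray
  have hout : ∀ y : ℝ, ‖p‖ ≤ y → (y : ℂ) * e ∉ Ω := by
    intro y hy
    have h1 : (1 : ℝ) ≤ y / ‖p‖ := by rw [le_div_iff₀ hP]; linarith
    have h2 := out_mul hst hpΩ h1
    have h3 := hray y
    rwa [h3] at h2
  have key : ∀ x : ℝ, ‖p‖ < x → ball ((x : ℂ) * e + (ρ : ℂ) * (I * e)) ρ ⊆ Ω ∨
      ball ((x : ℂ) * e + (ρ : ℂ) * (-(I * e))) ρ ⊆ Ω := by
    intro x hx
    have h1 : (1 : ℝ) < x / ‖p‖ := by rw [lt_div_iff₀ hP]; linarith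
    have h3 := hray x
    obtain ⟨-, c, hc, hd⟩ := hcon (x / ‖p‖) h1
    rw [h3] at hd
    have hdist : ∀ y : ℝ, ‖p‖ ≤ y → ρ ≤ ‖(y : ℂ) * e - c‖ := by
      intro y hy
      by_contra hlt
      push Not at hlt
      exact hout y hy (hc (by rw [mem_ball, dist_eq_norm]; exact hlt))
    obtain ⟨u, hu⟩ : ∃ u : ℂ, u = ((x : ℂ) * e - c) * conj e := ⟨_, rfl⟩
    have hun : ‖u‖ = ρ := by
      rw [hu, norm_mul, hnc, mul_one, ← dist_eq_norm, hd]
    have hue : u * e = (x : ℂ) * e - c := by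
      rw [hu, mul_assoc, mul_comm (conj e) e, hee, mul_one]
    have hsq : u.re ^ 2 + u.im ^ 2 = ρ ^ 2 := by
      have := Complex.normSq_eq_norm_sq u
      rw [hun, Complex.normSq_apply] at this
      linarith
    have hR : u.re = 0 := by
      apply FREM.real_min (δ := x - ‖p‖) (by linarith)
      intro t ht
      have h4 := hdist (x + t) (by linarith)
      have h5 : ‖((x + t : ℝ) : ℂ) * e - c‖ = ‖(t : ℂ) + u‖ := by
        have : (t : ℂ) + u = (((x + t : ℝ) : ℂ) * e - c) * conj e := by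
          rw [hu, Complex.ofReal_add]
          linear_combination (-(t : ℂ)) * hee
        rw [this, norm_mul, hnc, mul_one]
      rw [h5] at h4
      have h6 : ‖(t : ℂ) + u‖ ^ 2 = (t + u.re) ^ 2 + u.im ^ 2 := by
        rw [← Complex.normSq_eq_norm_sq, Complex.normSq_apply]
        simp
        ring
      have h7 : ρ ^ 2 ≤ ‖(t : ℂ) + u‖ ^ 2 := by
        have := norm_nonneg ((t : ℂ) + u)
        nlinarith
      rw [h6] at h7
      linarith
    have him : u.im = ρ ∨ u.im = -ρ := by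
      rw [hR] at hsq
      have : (u.im - ρ) * (u.im + ρ) = 0 := by nlinarith
      rcases mul_eq_zero.1 this with h | h
      · left; linarith
      · right; linarith
    have hue2 : u = (u.im : ℂ) * I := by
      apply Complex.ext <;> simp [hR]
    have hcc : c = (x : ℂ) * e - u * e := by rw [hue]; ring
    rcases him with h | h
    · right
      have : (x : ℂ) * e + (ρ : ℂ) * (-(I * e)) = c := by
        rw [hcc, hue2, h]; ring
      rw [this]; exact hc
    · left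
      have : (x : ℂ) * e + (ρ : ℂ) * (I * e) = c := by
        rw [hcc, hue2, h]; push_cast; ring
      rw [this]; exact hc
  -- the first flat strip
  have f1 := hFLT Ω ρ hρ hop hst hinr hint e (I * e) he (Or.inl rfl) ‖p‖ (‖p‖ + 1) (by linarith)
  push Not at f1
  obtain ⟨x₁, hx₁, hnot⟩ := f1
  obtain ⟨z, hz, hzΩ⟩ := Set.not_subset.1 hnot
  rw [mem_ball] at hz
  obtain ⟨d, hd⟩ : ∃ d : ℝ, d = min (ρ - dist z ((x₁ : ℂ) * e + (ρ : ℂ) * (I * e))) (x₁ - ‖p‖) :=
    ⟨_, rfl⟩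
  have hd0 : 0 < d := by rw [hd]; exact lt_min (by linarith) (by linarith [hx₁.1])
  have hd1 : d ≤ ρ - dist z ((x₁ : ℂ) * e + (ρ : ℂ) * (I * e)) := by rw [hd]; exact min_le_left _ _
  have hd2 : d ≤ x₁ - ‖p‖ := by rw [hd]; exact min_le_right _ _
  apply hFLT Ω ρ hρ hop hst hinr hint e (-(I * e)) he (Or.inr rfl) (x₁ - d) (x₁ + d) (by linarith)
  intro x hx
  rcases key x (by linarith [hx.1]) with h | h
  · exfalso
    apply hzΩ
    apply h
    rw [mem_ball]
    have h8 : dist ((x₁ : ℂ) * e + (ρ : ℂ) * (I * e)) ((x : ℂ) * e + (ρ : ℂ) * (I * e)) =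
        |x₁ - x| := by
      rw [dist_eq_norm]
      have : (x₁ : ℂ) * e + (ρ : ℂ) * (I * e) - ((x : ℂ) * e + (ρ : ℂ) * (I * e)) =
          ((x₁ - x : ℝ) : ℂ) * e := by push_cast; ring
      rw [this, norm_mul, he, mul_one, Complex.norm_real, Real.norm_eq_abs]
    have h9 : |x₁ - x| < d := by rw [abs_lt]; constructor <;> linarith [hx.1, hx.2]
    have := dist_triangle z ((x₁ : ℂ) * e + (ρ : ℂ) * (I * e)) ((x : ℂ) * e + (ρ : ℂ) * (I * e))
    rw [h8] at this
    linarith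
  · exact h

end Pool.Agent.Lib.MP250511.SB
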