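import Pool.Agent.Lib.MP_250511_an.SB.Spec

set_option autoImplicit false

namespace Pool.Agent.Lib.MP250511.SB

open Complex Metric Set MeasureTheory Filter Topology
open scoped Real ENNReal ComplexConjugate ContDiff

noncomputable section

namespace FROM

lemma inv_tendsto (η : ℝ) (hη : 0 < η) : ∀ᶠ n : ℕ in atTop, 1 / ((n : ℝ) + 1) ≤ η := by
  have h := tendsto_one_div_add_atTop_nhds_zero_nat (𝕜 := ℝ)
  exact (h.eventually (gt_mem_nhds hη)).mono fun n hn => hn.le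

lemma poc_near {Ω : Set ℂ} (ho : IsOpen Ω) {p : ℂ}
    (hs : ∀ s : ℝ, 0 ≤ s → s < 1 → (s : ℂ) * p ∈ Ω) {ε : ℝ} (hε : 0 < ε) :
    ∀ᶠ n : ℕ in atTop, ∀ w ∈ Poc p (1 / ((n : ℝ) + 1)), w ∈ Ω ∨ dist w p ≤ ε := by
  set t : ℝ := min (1 / 2) (ε / (2 * (‖p‖ + 1))) with ht
  have hp0 : 0 ≤ ‖p‖ := norm_nonneg p
  have ht0 : 0 < t := by
    rw [ht]; exact lt_min (by norm_num) (by positivity)
  have ht1 : t ≤ 1 / 2 := min_le_left _ _
  have ht2 : t * ‖p‖ ≤ ε / 2 := by
    have h1 : t ≤ ε / (2 * (‖p‖ + 1)) := min_le_right _ _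
    have h2 : t * ‖p‖ ≤ ε / (2 * (‖p‖ + 1)) * ‖p‖ := mul_le_mul_of_nonneg_right h1 hp0
    have h3 : ε / (2 * (‖p‖ + 1)) * ‖p‖ ≤ ε / 2 := by
      rw [div_mul_eq_mul_div, div_le_div_iff₀ (by positivity) (by norm_num)]
      nlinarith
    linarith
  have hC : IsCompact ((fun s : ℝ => (s : ℂ) * p) '' Icc 0 (1 - t)) := by
    apply isCompact_Icc.image
    fun_prop
  have hCs : (fun s : ℝ => (s : ℂ) * p) '' Icc 0 (1 - t) ⊆ Ω := by
    rintro _ ⟨s, ⟨h0, h1⟩, rfl⟩
    exact hs s h0 (by linarith)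
  obtain ⟨η, hη, hth⟩ := hC.exists_thickening_subset_open ho hCs
  filter_upwards [inv_tendsto η hη, inv_tendsto (ε / 2) (by positivity)] with n h1 h2 w hw
  obtain ⟨s, hs0, hs1, z, hz, rfl⟩ := hw
  rw [mem_ball, dist_eq_norm] at hz
  have hd : ‖(s : ℂ) * z - (s : ℂ) * p‖ < 1 / ((n : ℝ) + 1) := by
    rw [← mul_sub, norm_mul, Complex.norm_real, Real.norm_of_nonneg hs0.le]
    calc s * ‖z - p‖ ≤ 1 * ‖z - p‖ := mul_le_mul_of_nonneg_right hs1 (norm_nonneg _)
      _ < _ := by rw [one_mul]; exact hz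
  rcases le_or_gt s (1 - t) with hst | hst
  · left
    apply hth
    rw [Metric.mem_thickening_iff]
    refine ⟨(s : ℂ) * p, ⟨s, ⟨hs0.le, hst⟩, rfl⟩, ?_⟩
    rw [dist_eq_norm]
    exact lt_of_lt_of_le hd h1
  · right
    rw [dist_eq_norm]
    have e : (s : ℂ) * z - p = ((s : ℂ) * z - (s : ℂ) * p) + ((s - 1 : ℝ) : ℂ) * p := by
      push_cast; ring
    rw [e]
    have h3 : ‖((s - 1 : ℝ) : ℂ) * p‖ ≤ ε / 2 := by
      rw [norm_mul, Complex.norm_real, Real.norm_eq_abs, abs_of_nonpos (by linarith)]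
      calc -(s - 1) * ‖p‖ ≤ t * ‖p‖ := mul_le_mul_of_nonneg_right (by linarith) hp0
        _ ≤ _ := ht2
    have h4 := norm_add_le ((s : ℂ) * z - (s : ℂ) * p) (((s - 1 : ℝ) : ℂ) * p)
    linarith

lemma poc_norm {p w : ℂ} {ℓ : ℝ} (hw : w ∈ Poc p ℓ) : ‖w‖ < ‖p‖ + ℓ := by
  obtain ⟨s, hs0, hs1, z, hz, rfl⟩ := hw
  rw [mem_ball, dist_eq_norm] at hz
  rw [norm_mul, Complex.norm_real, Real.norm_of_nonneg hs0.le]
  have h1 : ‖z‖ ≤ ‖z - p‖ + ‖p‖ := by
    have := norm_add_le (z - p) p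
    simpa using this
  calc s * ‖z‖ ≤ 1 * ‖z‖ := mul_le_mul_of_nonneg_right hs1 (norm_nonneg _)
    _ < _ := by linarith

end FROM

open FROM in
theorem specFRO (hGRO : SpecGRO) (hSTC : SpecSTC) (hPOC : SpecPOC) (hKCL : SpecKCL)
    (hPER : SpecPER) : SpecFRO := by
  intro f g Ω ρ hE p hp
  by_contra hpK
  have h0 : (0 : ℂ) ∈ Ω := by
    rw [← hE.im]
    exact ⟨0, mem_ball_self one_pos, hE.zero⟩
  have hp0 : p ≠ 0 := fun h => hp.1 (h ▸ h0)
  have hpn : 0 < ‖p‖ := norm_pos_iff.2 hp0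
  obtain ⟨d, hd, hdK⟩ := (Metric.nhds_basis_closedBall.mem_iff).1
    ((hKCL Ω ρ hE.pos hE.op).1.isOpen_compl.mem_nhds hpK)
  have hdis : Disjoint (closedBall p d) (KK Ω ρ) := by
    rw [Set.disjoint_left]
    intro x hx hx2
    exact hdK hx hx2
  have key := hPER Ω ρ hE.pos hE.op hE.inr (closedBall p d) (isCompact_closedBall p d) hdis
    (fun n => (Ω ∪ Poc p (1 / ((n : ℝ) + 1)))ᶜ) ?_ ?_
  · obtain ⟨n, hn⟩ := key.exists
    have hl : (0 : ℝ) < 1 / ((n : ℝ) + 1) := by positivity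
    obtain ⟨ho, hst⟩ := hPOC.2.2 Ω p (1 / ((n : ℝ) + 1)) hE.op hE.star h0
    obtain ⟨c, r, hcr, hr⟩ := hGRO f g Ω ρ hE _ ho (hSTC _ hst (Or.inl h0)) subset_union_left (by
      intro h
      apply hp.1
      rw [← h]
      right
      exact ⟨1, one_pos, le_rfl, p, mem_ball_self hl, by simp⟩)
    exact absurd (hn c r fun e he he2 => he (hcr he2)) (not_le.2 hr)
  · filter_upwards [poc_near hE.op hp.2 hd] with n hn e he hez hmem
    rcases hmem with h | h
    · exact he h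
    · rcases hn e h with h | h
      · exact he h
      · exact hez (mem_closedBall.2 h)
  · intro e he
    by_cases hep : e = p
    · subst hep
      refine ⟨fun n => ((1 + 2 / (((n : ℝ) + 1) * ‖e‖) : ℝ) : ℂ) * e, ?_, ?_⟩
      · refine Eventually.of_forall fun n => ?_
        have hq : (0 : ℝ) ≤ 2 / (((n : ℝ) + 1) * ‖e‖) := by positivity
        intro hmem
        rcases hmem with h | h
        · exact out_mul hE.star he (by linarith) h
        · have h1 := poc_norm h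
          rw [norm_mul, Complex.norm_real, Real.norm_of_nonneg (by linarith)] at h1
          have h2 : (1 + 2 / (((n : ℝ) + 1) * ‖e‖)) * ‖e‖ = ‖e‖ + 2 * (1 / ((n : ℝ) + 1)) := by
            field_simp
          rw [h2] at h1
          have h3 : (0 : ℝ) < 1 / ((n : ℝ) + 1) := by positivity
          linarith
      · have h1 : Tendsto (fun n : ℕ => 1 + (1 / ((n : ℝ) + 1)) * (2 / ‖e‖)) atTop (𝓝 (1 + 0 * (2 / ‖e‖))) :=
          (tendsto_one_div_add_atTop_nhds_zero_nat.mul_const _).const_add 1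
        have h2 : Tendsto (fun n : ℕ => ((1 + (1 / ((n : ℝ) + 1)) * (2 / ‖e‖) : ℝ) : ℂ) * e) atTop
            (𝓝 (((1 + 0 * (2 / ‖e‖) : ℝ) : ℂ) * e)) :=
          ((Complex.continuous_ofReal.tendsto _).comp h1).mul_const e
        have e2 : ((1 + 0 * (2 / ‖e‖) : ℝ) : ℂ) * e = e := by simp
        rw [e2] at h2
        refine h2.congr fun n => ?_
        congr 2
        field_simp
    · have hd2 : 0 < dist e p / 2 := by
        have := dist_pos.2 hep
        linarith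
      refine ⟨fun _ => e, ?_, tendsto_const_nhds⟩
      filter_upwards [poc_near hE.op hp.2 hd2] with n hn hmem
      rcases hmem with h | h
      · exact he h
      · rcases hn e h with h | h
        · exact he h
        · linarith

end

end Pool.Agent.Lib.MP250511.SB
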