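import Pool.Agent.Lib.MP_250511_an.SB.Spec

/-!
Module GAN: the gain lemma.
-/

set_option autoImplicit false

namespace Pool.Agent.Lib.MP250511.SB

open Complex Metric Set MeasureTheory Filter Topology
open scoped Real ENNReal ComplexConjugate ContDiff

namespace GANM

/-- holomorphic square roots on the disc -/
lemma exists_sqrt (ψ : ℂ → ℂ) (hd : DifferentiableOn ℂ ψ (ball 0 1))
    (h0 : ∀ z ∈ ball (0 : ℂ) 1, ψ z ≠ 0) :
    ∃ s : ℂ → ℂ, DifferentiableOn ℂ s (ball 0 1) ∧ ∀ z ∈ ball (0 : ℂ) 1, s z ^ 2 = ψ z := by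
  have hq : DifferentiableOn ℂ (fun z => deriv ψ z / ψ z) (ball 0 1) :=
    (hd.deriv isOpen_ball).div hd h0
  obtain ⟨L, hL⟩ := hq.isExactOn_ball
  have hat : ∀ z ∈ ball (0 : ℂ) 1, HasDerivAt ψ (deriv ψ z) z := fun z hz =>
    ((hd z hz).differentiableAt (isOpen_ball.mem_nhds hz)).hasDerivAt
  have hE : ∀ z ∈ ball (0 : ℂ) 1, HasDerivAt (fun w => ψ w * Complex.exp (-(L w))) 0 z := by
    intro z hz
    have h1 := (hat z hz).mul ((hL z hz).neg.cexp)
    have h2 : deriv ψ z * Complex.exp (-(L z)) +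
        ψ z * (Complex.exp (-(L z)) * -(deriv ψ z / ψ z)) = 0 := by
      have := h0 z hz
      field_simp
      ring
    rw [← h2]
    exact h1
  have h00 : (0 : ℂ) ∈ ball (0 : ℂ) 1 := mem_ball_self one_pos
  have hconst : ∀ z ∈ ball (0 : ℂ) 1,
      ψ z * Complex.exp (-(L z)) = ψ 0 * Complex.exp (-(L 0)) := by
    intro z hz
    refine isOpen_ball.is_const_of_deriv_eq_zero (convex_ball (0 : ℂ) 1).isPreconnected
      (fun w hw => (hE w hw).differentiableAt.differentiableWithinAt)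
      (fun w hw => (hE w hw).deriv) hz h00
  set e₀ : ℂ := ψ 0 * Complex.exp (-(L 0)) with he₀
  have he : e₀ ≠ 0 := mul_ne_zero (h0 0 h00) (Complex.exp_ne_zero _)
  refine ⟨fun z => Complex.exp (Complex.log e₀ / 2 + L z / 2), ?_, ?_⟩
  · intro z hz
    have h1 : HasDerivAt (fun w => Complex.log e₀ / 2 + L w / 2) ((deriv ψ z / ψ z) / 2) z :=
      ((hL z hz).div_const 2).const_add _
    exact h1.cexp.differentiableAt.differentiableWithinAt
  · intro z hz
    have h1 : Complex.exp (Complex.log e₀ / 2 + L z / 2) ^ 2 =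
        Complex.exp (Complex.log e₀ + L z) := by
      rw [← Complex.exp_nat_mul]
      congr 1
      push_cast
      ring
    simp only
    rw [h1, Complex.exp_add, Complex.exp_log he, ← hconst z hz, mul_assoc, ← Complex.exp_add]
    simp

lemma mob_lt {z a : ℂ} (hz : ‖z‖ < 1) (ha : ‖a‖ < 1) :
    1 - conj a * z ≠ 0 ∧ ‖(z - a) / (1 - conj a * z)‖ < 1 := by
  have h1 : 1 - conj a * z ≠ 0 := by
    intro h
    have h2 : conj a * z = 1 := (sub_eq_zero.mp h).symm
    have h3 : ‖conj a * z‖ = 1 := by rw [h2, norm_one]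
    rw [norm_mul, RCLike.norm_conj] at h3
    have h4 : ‖a‖ * ‖z‖ < 1 := by
      nlinarith [norm_nonneg a, norm_nonneg z]
    linarith
  refine ⟨h1, ?_⟩
  rw [norm_div, div_lt_one (norm_pos_iff.mpr h1)]
  have h2 : ‖z - a‖ ^ 2 < ‖1 - conj a * z‖ ^ 2 := by
    have e1 : ‖1 - conj a * z‖ ^ 2 - ‖z - a‖ ^ 2 = (1 - ‖a‖ ^ 2) * (1 - ‖z‖ ^ 2) := by
      simp only [← Complex.normSq_eq_norm_sq, Complex.normSq_apply, Complex.sub_re,
        Complex.sub_im, Complex.mul_re, Complex.mul_im, Complex.conj_re, Complex.conj_im,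
        Complex.one_re, Complex.one_im]
      ring
    have e2 : 0 < (1 - ‖a‖ ^ 2) * (1 - ‖z‖ ^ 2) := by
      apply mul_pos
      · nlinarith [norm_nonneg a]
      · nlinarith [norm_nonneg z]
    linarith
  exact lt_of_pow_lt_pow_left₀ 2 (norm_nonneg _) h2

lemma mob_deriv {f : ℂ → ℂ} {f' a z : ℂ} (hf : HasDerivAt f f' z)
    (h : 1 - conj a * f z ≠ 0) :
    HasDerivAt (fun w => (f w - a) / (1 - conj a * f w))
      (f' * (1 - conj a * a) / (1 - conj a * f z) ^ 2) z := by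
  have h1 : HasDerivAt (fun w => f w - a) f' z := hf.sub_const a
  have h2 : HasDerivAt (fun w => 1 - conj a * f w) (-(conj a * f')) z :=
    (hf.const_mul (conj a)).const_sub 1
  have h3 := h1.div h2 h
  have h4 : f' * (1 - conj a * a) = f' * (1 - conj a * f z) - (f z - a) * -(conj a * f') := by
    ring
  rw [h4]
  exact h3

lemma ineq {x t : ℝ} (ht0 : 0 ≤ t) (ht1 : t < 1)
    (h : x * (1 - (t ^ 2) ^ 2) ≤ 2 * t * (1 - t ^ 2)) : x ≤ 1 - (1 - t ^ 2) ^ 2 / 8 := by
  have h1 : 0 < 1 - t ^ 2 := by nlinarith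
  have h2 : x * (1 + t ^ 2) ≤ 2 * t := by
    have : x * (1 + t ^ 2) * (1 - t ^ 2) ≤ 2 * t * (1 - t ^ 2) := by nlinarith
    exact le_of_mul_le_mul_right this h1
  have h3 : (1 + t) ^ 2 * (1 + t ^ 2) ≤ 8 := by
    have h4 : (1 + t) ^ 2 ≤ 4 := by nlinarith
    have h5 : 1 + t ^ 2 ≤ 2 := by nlinarith
    nlinarith [sq_nonneg (1 + t)]
  have h6 : 0 ≤ (1 - t) ^ 2 * (8 - (1 + t) ^ 2 * (1 + t ^ 2)) :=
    mul_nonneg (sq_nonneg _) (by linarith)
  have h7 : 2 * t ≤ (1 - (1 - t ^ 2) ^ 2 / 8) * (1 + t ^ 2) := by nlinarith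
  have h8 : 0 < 1 + t ^ 2 := by positivity
  exact le_of_mul_le_mul_right (h2.trans h7) h8

end GANM

open GANM in
theorem specGAN : SpecGAN := by
  intro h han hlt h0 p hp hom
  have h00 : (0 : ℂ) ∈ ball (0 : ℂ) 1 := mem_ball_self one_pos
  have hd : DifferentiableOn ℂ h (ball 0 1) := han.differentiableOn
  have hat : ∀ z ∈ ball (0 : ℂ) 1, HasDerivAt h (deriv h z) z := fun z hz =>
    (han z hz).differentiableAt.hasDerivAt
  set ψ : ℂ → ℂ := fun w => (h w - p) / (1 - conj p * h w) with hψ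
  have hψd : ∀ z ∈ ball (0 : ℂ) 1,
      HasDerivAt ψ (deriv h z * (1 - conj p * p) / (1 - conj p * h z) ^ 2) z := fun z hz =>
    mob_deriv (hat z hz) (mob_lt (hlt z hz) hp).1
  have hψlt : ∀ z ∈ ball (0 : ℂ) 1, ‖ψ z‖ < 1 := fun z hz => (mob_lt (hlt z hz) hp).2
  have hψ0 : ∀ z ∈ ball (0 : ℂ) 1, ψ z ≠ 0 := by
    intro z hz
    exact div_ne_zero (sub_ne_zero.mpr (hom z hz)) (mob_lt (hlt z hz) hp).1
  obtain ⟨s, hsd, hs2⟩ := exists_sqrt ψ
    (fun z hz => (hψd z hz).differentiableAt.differentiableWithinAt) hψ0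
  have hslt : ∀ z ∈ ball (0 : ℂ) 1, ‖s z‖ < 1 := by
    intro z hz
    have h1 : ‖s z‖ ^ 2 < 1 := by
      rw [← norm_pow, hs2 z hz]
      exact hψlt z hz
    nlinarith [norm_nonneg (s z)]
  have hsat : HasDerivAt s (deriv s 0) 0 :=
    ((hsd 0 h00).differentiableAt (isOpen_ball.mem_nhds h00)).hasDerivAt
  set b : ℂ := s 0 with hb
  have hblt : ‖b‖ < 1 := hslt 0 h00
  -- the derivative of `s` at `0`
  have hsch : ‖deriv s 0‖ ≤ 1 - ‖b‖ ^ 2 := by
    set H : ℂ → ℂ := fun w => (s w - b) / (1 - conj b * s w) with hH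
    have hH0 : H 0 = 0 := by
      rw [hH]
      simp only
      rw [← hb, sub_self, zero_div]
    have hHd : DifferentiableOn ℂ H (ball 0 1) := by
      intro z hz
      have h1 : HasDerivAt s (deriv s z) z :=
        ((hsd z hz).differentiableAt (isOpen_ball.mem_nhds hz)).hasDerivAt
      exact (mob_deriv h1 (mob_lt (hslt z hz) hblt).1).differentiableAt.differentiableWithinAt
    have hHm : MapsTo H (ball 0 1) (ball (H 0) 1) := by
      intro z hz
      rw [hH0, mem_ball_zero_iff]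
      exact (mob_lt (hslt z hz) hblt).2
    have h1 := Complex.norm_deriv_le_one_of_mapsTo_ball hHd
      (fun z hz => ball_subset_closedBall (hHm hz)) one_pos
    have h2 := (mob_deriv (a := b) hsat (mob_lt (hslt 0 h00) hblt).1).deriv
    have h3 : deriv H 0 = deriv s 0 / (1 - conj b * b) := by
      rw [hH, h2, ← hb]
      have : (1 - conj b * b) ≠ 0 := (mob_lt hblt hblt).1
      field_simp
    rw [h3, norm_div] at h1
    have h4 : ‖(1 - conj b * b : ℂ)‖ = 1 - ‖b‖ ^ 2 := by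
      have h5 : (1 - conj b * b : ℂ) = ((1 - ‖b‖ ^ 2 : ℝ) : ℂ) := by
        rw [Complex.conj_mul']
        push_cast
        ring
      rw [h5, Complex.norm_real, Real.norm_eq_abs, abs_of_nonneg]
      nlinarith [norm_nonneg b]
    have h5 : 0 < 1 - ‖b‖ ^ 2 := by nlinarith [norm_nonneg b]
    rw [h4, div_le_one h5] at h1
    exact h1
  -- comparison of derivatives
  have hcmp : 2 * b * deriv s 0 = deriv h 0 * (1 - conj p * p) := by
    have h1 : HasDerivAt (fun w => s w ^ 2) (2 * b * deriv s 0) 0 := by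
      have h2 := hsat.fun_pow 2
      have h3 : (2 * b * deriv s 0 : ℂ) = ((2 : ℕ) : ℂ) * s 0 ^ (2 - 1) * deriv s 0 := by
        rw [← hb]
        norm_num
      rw [h3]
      exact h2
    have h2 : HasDerivAt (fun w => s w ^ 2)
        (deriv h 0 * (1 - conj p * p) / (1 - conj p * h 0) ^ 2) 0 := by
      refine (hψd 0 h00).congr_of_eventuallyEq ?_
      filter_upwards [isOpen_ball.mem_nhds h00] with w hw
      exact hs2 w hw
    have h3 := h1.unique h2
    rw [h3, h0, mul_zero, sub_zero, one_pow, div_one]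
  have hbp : ‖b‖ ^ 2 = ‖p‖ := by
    rw [← norm_pow, hb, hs2 0 h00, hψ]
    simp only
    rw [h0, zero_sub, mul_zero, sub_zero, div_one, norm_neg]
  have hn : ‖deriv h 0‖ * (1 - ‖p‖ ^ 2) = 2 * ‖b‖ * ‖deriv s 0‖ := by
    have h1 := congrArg norm hcmp
    rw [norm_mul, norm_mul, norm_mul] at h1
    have h4 : ‖(1 - conj p * p : ℂ)‖ = 1 - ‖p‖ ^ 2 := by
      have h5 : (1 - conj p * p : ℂ) = ((1 - ‖p‖ ^ 2 : ℝ) : ℂ) := by
        rw [Complex.conj_mul']
        push_cast
        ring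
      rw [h5, Complex.norm_real, Real.norm_eq_abs, abs_of_nonneg]
      nlinarith [norm_nonneg p]
    rw [h4] at h1
    rw [← h1]
    simp
  have hfin : ‖deriv h 0‖ * (1 - (‖b‖ ^ 2) ^ 2) ≤ 2 * ‖b‖ * (1 - ‖b‖ ^ 2) := by
    rw [hbp, hn, ← hbp]
    exact mul_le_mul_of_nonneg_left hsch (by positivity)
  have := ineq (norm_nonneg b) hblt hfin
  rw [hbp] at this
  exact this

end Pool.Agent.Lib.MP250511.SB
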