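import Pool.Agent.Lib.MP_250511_an.SB.Spec

/-! # MP_250511_an, SB, GRO: a bigger domain contains a bigger disc (helper94) -/

set_option autoImplicit false

namespace Pool.Agent.Lib.MP250511.SB

open Complex Metric Set MeasureTheory Filter Topology
open scoped Real ENNReal ComplexConjugate ContDiff

theorem specGRO (hPAI : SpecPAI) (hRMT : SpecRMT) (hGAN : SpecGAN) : SpecGRO := by
  intro f g Ω ρ hE U hU hsc hsub hne
  by_contra hcon
  push Not at hcon
  have h0b : (0 : ℂ) ∈ ball (0 : ℂ) 1 := by simp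
  have hUuniv : U ≠ univ := by
    intro h
    have := hcon 0 (ρ + 1) (by rw [h]; exact subset_univ _)
    linarith
  have hfm : ∀ w ∈ ball (0 : ℂ) 1, f w ∈ Ω := fun w hw => by
    rw [← hE.im]; exact mem_image_of_mem f hw
  have h0U : (0 : ℂ) ∈ U := hsub (by rw [← hE.zero]; exact hfm 0 h0b)
  obtain ⟨F, hF⟩ := hRMT U hU hsc hUuniv h0U
  obtain ⟨G, hG⟩ := hPAI F U hF
  have h1 : ρ * ‖deriv F 0‖ ≤ ρ := hE.ext F U hF ρ hcon
  have h2 : ‖deriv F 0‖ ≤ 1 := by
    have hρ := hE.pos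
    by_contra hlt
    push Not at hlt
    nlinarith
  obtain ⟨p₀, hp0U, hp0⟩ : ∃ p₀ ∈ U, p₀ ∉ Ω := by
    by_contra hall
    push Not at hall
    exact hne (subset_antisymm hall hsub)
  have hGan : AnalyticOnNhd ℂ (G ∘ f) (ball 0 1) := fun w hw =>
    (hG.gan (f w) (hsub (hfm w hw))).comp (hE.an w hw)
  have hG0 : G 0 = 0 := by
    have := hG.GF 0 h0b
    rwa [hF.zero] at this
  have hgan := hGAN (G ∘ f) hGan (fun z hz => hG.gm _ (hsub (hfm z hz)))
    (by show G (f 0) = 0; rw [hE.zero, hG0]) (G p₀) (hG.gm p₀ hp0U) (fun z hz hzp => by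
      have e : f z = p₀ := by
        rw [← hG.FG (f z) (hsub (hfm z hz)), ← hG.FG p₀ hp0U]
        exact congrArg F hzp
      exact hp0 (e ▸ hfm z hz))
  have hp1 := hG.gm p₀ hp0U
  have h3 : ‖deriv (G ∘ f) 0‖ < 1 := by
    have : 0 < (1 - ‖G p₀‖) ^ 2 := by
      have : 0 < 1 - ‖G p₀‖ := by linarith
      positivity
    linarith
  have h4 : deriv f 0 = deriv F 0 * deriv (G ∘ f) 0 := by
    have heq : f =ᶠ[𝓝 0] F ∘ (G ∘ f) := by
      filter_upwards [isOpen_ball.mem_nhds h0b] with w hw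
      exact (hG.FG (f w) (hsub (hfm w hw))).symm
    rw [heq.deriv_eq]
    have hFd : DifferentiableAt ℂ F ((G ∘ f) 0) := by
      have e : (G ∘ f) 0 = 0 := by show G (f 0) = 0; rw [hE.zero, hG0]
      rw [e]
      exact (hF.an 0 h0b).differentiableAt
    rw [deriv_comp 0 hFd (hGan 0 h0b).differentiableAt]
    congr 2
    show G (f 0) = 0
    rw [hE.zero, hG0]
  have h5 : (1 : ℝ) = ‖deriv F 0‖ * ‖deriv (G ∘ f) 0‖ := by
    rw [← norm_mul, ← h4, hE.one, norm_one]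
  have h6 : ‖deriv F 0‖ * ‖deriv (G ∘ f) 0‖ ≤ 1 * ‖deriv (G ∘ f) 0‖ :=
    mul_le_mul_of_nonneg_right h2 (norm_nonneg _)
  linarith

end Pool.Agent.Lib.MP250511.SB
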