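import Pool.Agent.Lib.MP_250511_an.SB.SpecE

/-! # Module HBA: the Hahn-Banach step -/

set_option autoImplicit false

namespace Pool.Agent.Lib.MP250511.SB

open Complex Metric Set MeasureTheory Filter Topology
open scoped Real ENNReal ComplexConjugate ContDiff

namespace HBAM

variable {X : Type} [TopologicalSpace X]

/-- upper bounds of `h` and `0` -/
def UB (h : CompactlySupportedContinuousMap X ℝ) : Set ℝ := {M | 0 ≤ M ∧ ∀ x, h x ≤ M}

/-- the sublinear functional -/
noncomputable def Nsub (h : CompactlySupportedContinuousMap X ℝ) : ℝ := sInf (UB h)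

lemma ub_nonempty (h : CompactlySupportedContinuousMap X ℝ) : (UB h).Nonempty := by
  obtain ⟨c, hc⟩ := h.hasCompactSupport.exists_bound_of_continuous h.continuous
  refine ⟨max c 0, le_max_right _ _, fun x => ?_⟩
  exact ((le_abs_self _).trans (hc x)).trans (le_max_left _ _)

lemma ub_bdd (h : CompactlySupportedContinuousMap X ℝ) : BddBelow (UB h) := ⟨0, fun _ hM => hM.1⟩

lemma nn_mem (h : CompactlySupportedContinuousMap X ℝ) : Nsub h ∈ UB h :=
  ⟨le_csInf (ub_nonempty h) fun _ hM => hM.1,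
    fun x => le_csInf (ub_nonempty h) fun _ hM => hM.2 x⟩

lemma nn_le {h : CompactlySupportedContinuousMap X ℝ} {M : ℝ} (h0 : 0 ≤ M) (h1 : ∀ x, h x ≤ M) :
    Nsub h ≤ M := csInf_le (ub_bdd h) ⟨h0, h1⟩

lemma nn_smul_le {c : ℝ} (hc : 0 < c) (h : CompactlySupportedContinuousMap X ℝ) :
    Nsub (c • h) ≤ c * Nsub h := by
  obtain ⟨h0, h1⟩ := nn_mem h
  refine nn_le (mul_nonneg hc.le h0) fun x => ?_
  have : (c • h) x = c * h x := rfl
  rw [this]
  exact mul_le_mul_of_nonneg_left (h1 x) hc.le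

lemma nn_smul {c : ℝ} (hc : 0 < c) (h : CompactlySupportedContinuousMap X ℝ) :
    Nsub (c • h) = c * Nsub h := by
  refine le_antisymm (nn_smul_le hc h) ?_
  have h1 := nn_smul_le (inv_pos.2 hc) (c • h)
  rw [smul_smul, inv_mul_cancel₀ hc.ne', one_smul] at h1
  calc c * Nsub h ≤ c * (c⁻¹ * Nsub (c • h)) := mul_le_mul_of_nonneg_left h1 hc.le
    _ = Nsub (c • h) := by rw [← mul_assoc, mul_inv_cancel₀ hc.ne', one_mul]

lemma nn_add (h k : CompactlySupportedContinuousMap X ℝ) : Nsub (h + k) ≤ Nsub h + Nsub k := by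
  obtain ⟨h0, h1⟩ := nn_mem h
  obtain ⟨k0, k1⟩ := nn_mem k
  refine nn_le (add_nonneg h0 k0) fun x => ?_
  have : (h + k) x = h x + k x := rfl
  rw [this]
  exact add_le_add (h1 x) (k1 x)

end HBAM

open HBAM in
theorem specHBA : SpecHBA := by
  intro C hC ι _ _ V J hVa hVs hJa hJs hVc hVk hle
  have hcs : ∀ i, HasCompactSupport (fun x : C => V i x) := by
    intro i
    obtain ⟨K, hK, hK0⟩ := hVk i
    have hK' : IsCompact ((Subtype.val : C → ℂ × ℂ) ⁻¹' K) :=
      hC.isClosedEmbedding_subtypeVal.isCompact_preimage hK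
    refine HasCompactSupport.intro hK' fun x hx => ?_
    exact hK0 x.1 x.2 hx
  let T : ι →ₗ[ℝ] CompactlySupportedContinuousMap C ℝ :=
    { toFun := fun i => ⟨⟨fun x : C => V i x, (hVc i).comp continuous_subtype_val⟩, hcs i⟩
      map_add' := fun i j => by
        ext x
        exact hVa i j x
      map_smul' := fun a i => by
        ext x
        exact hVs a i x }
  have hT : ∀ (i : ι) (x : C), T i x = V i x := fun i x => rfl
  let JL : ι →ₗ[ℝ] ℝ :=
    { toFun := J
      map_add' := hJa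
      map_smul' := fun a i => by simpa using hJs a i }
  have hJL : ∀ i, JL i = J i := fun i => rfl
  have hker : LinearMap.ker T ≤ LinearMap.ker JL := by
    intro i hi
    rw [LinearMap.mem_ker] at hi ⊢
    have h0 : ∀ x ∈ C, V i x = 0 := by
      intro x hx
      have := hT i ⟨x, hx⟩
      rw [hi] at this
      exact this.symm
    have h1 : J i ≤ 0 := hle i 0 le_rfl fun x hx => (h0 x hx).le
    have h2 : J (-i) ≤ 0 := by
      refine hle (-i) 0 le_rfl fun x hx => ?_
      have := hVs (-1) i x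
      rw [neg_one_smul] at this
      rw [this, h0 x hx]
      simp
    have h3 : J (-i) = -J i := by
      have := hJs (-1) i
      rw [neg_one_smul] at this
      rw [this]
      ring
    rw [hJL]
    linarith
  let f0 : LinearMap.range T →ₗ[ℝ] ℝ :=
    ((LinearMap.ker T).liftQ JL hker).comp (T.quotKerEquivRange.symm : LinearMap.range T →ₗ[ℝ] _)
  have hf0 : ∀ (i : ι) (h : T i ∈ LinearMap.range T), f0 ⟨T i, h⟩ = J i := by
    intro i h
    change ((LinearMap.ker T).liftQ JL hker) (T.quotKerEquivRange.symm ⟨T i, h⟩) = J i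
    rw [LinearMap.quotKerEquivRange_symm_apply_image]
    rfl
  let f : CompactlySupportedContinuousMap C ℝ →ₗ.[ℝ] ℝ := ⟨LinearMap.range T, f0⟩
  obtain ⟨g, hg1, hg2⟩ := exists_extension_of_le_sublinear f Nsub (fun c hc x => nn_smul hc x)
    nn_add (by
      rintro ⟨x, i, rfl⟩
      obtain ⟨h0, h1⟩ := nn_mem (T i)
      exact (hf0 i (LinearMap.mem_range_self T i)).le.trans
        (hle i _ h0 fun x hx => h1 ⟨x, hx⟩))
  refine ⟨g, ?_, ?_⟩
  · intro i h hh
    have h1 : h = T i := by
      ext x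
      exact hh x
    rw [h1]
    have h2 := hg1 ⟨T i, LinearMap.mem_range_self T i⟩
    exact h2.trans (hf0 i _)
  · intro h M hM hh
    exact (hg2 h).trans (nn_le hM hh)

end Pool.Agent.Lib.MP250511.SB
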