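import Pool.Agent.Lib.MP_250511_an.SB.SpecE

/-!
# MP_250511_an, SB: module HBR (the multiplier measure, abstract form)
-/

set_option autoImplicit false

namespace Pool.Agent.Lib.MP250511.SB

open Complex Metric Set MeasureTheory Filter Topology
open scoped Real ENNReal ComplexConjugate ContDiff CompactlySupported

noncomputable section

namespace HBRM

/-- the restriction to `C` of a continuous function which vanishes on `C` off a compact set -/
theorem restr (C : Set (ℂ × ℂ)) (hC : IsClosed C) (F : ℂ × ℂ → ℝ) (hF : Continuous F)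
    (hK : ∃ K, IsCompact K ∧ ∀ x ∈ C, x ∉ K → F x = 0) :
    ∃ h : C_c(C, ℝ), ∀ x : C, h x = F x := by
  obtain ⟨K, hK, h0⟩ := hK
  have hcs : HasCompactSupport (fun x : C => F x) := by
    refine HasCompactSupport.intro (K := Subtype.val ⁻¹' K) ?_ ?_
    · exact hC.isClosedEmbedding_subtypeVal.isCompact_preimage hK
    · intro x hx
      exact h0 x x.2 hx
  exact ⟨⟨⟨fun x : C => F x, hF.comp continuous_subtype_val⟩, hcs⟩, fun x => rfl⟩

end HBRM

open HBRM in
theorem specHBR (hHBA : SpecHBA) (hRMA : SpecRMA) : SpecHBR := by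
  intro C hC ι _ _ V J hV1 hV2 hJ1 hJ2 hc hK hpos
  obtain ⟨Λ, hΛ1, hΛ2⟩ := hHBA C hC ι V J hV1 hV2 hJ1 hJ2 hc hK hpos
  obtain ⟨ν, hν1, hν2, hν3⟩ := hRMA C hC Λ hΛ2
  refine ⟨ν, hν1, hν2, ?_⟩
  intro i
  obtain ⟨h, hh⟩ := restr C hC (V i) (hc i) (hK i)
  rw [hν3 h (V i) hh, hΛ1 i h hh]

end

end Pool.Agent.Lib.MP250511.SB
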