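import Pool.Agent.Lib.MP_250511_an.SB.Spec
import Pool.Agent.Lib.MP_250511_an.INV

/-!
# HOM (MP_250511_an): images of simply connected domains under diffeomorphisms
-/

set_option autoImplicit false

namespace Pool.Agent.Lib.MP250511.SB

open Complex Metric Set MeasureTheory Filter Topology
open scoped Real ENNReal ComplexConjugate ContDiff

theorem specHOM : SpecHOM := by
  intro F φ ψ U z₀ δ hF hU hD
  let h : ℂ ≃ₜ ℂ :=
    { toFun := φ
      invFun := ψ
      left_inv := hD.l
      right_inv := hD.r
      continuous_toFun := hD.sm.continuous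
      continuous_invFun := hD.sm'.continuous }
  have hφ : (φ : ℂ → ℂ) = h := rfl
  have hd : DifferentiableOn ℂ F (ball 0 1) := hF.an.differentiableOn
  have hc : IsPreconnected (ball (0 : ℂ) 1) := (convex_ball (0 : ℂ) 1).isPreconnected
  let e : ball (0 : ℂ) 1 → ℂ := fun z => F z
  have he : IsOpenEmbedding e := by
    refine IsOpenEmbedding.of_continuous_injective_isOpenMap ?_ ?_ ?_
    · exact hd.continuousOn.comp_continuous continuous_subtype_val fun z => z.2
    · intro a b hab
      exact Subtype.ext (hF.inj a.2 b.2 hab)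
    · intro s hs
      have h1 : IsOpen ((Subtype.val : ball (0 : ℂ) 1 → ℂ) '' s) :=
        isOpen_ball.isOpenMap_subtype_val s hs
      have h2 : (Subtype.val : ball (0 : ℂ) 1 → ℂ) '' s ⊆ ball 0 1 := by
        rintro _ ⟨z, _, rfl⟩
        exact z.2
      have h3 := Pool.Agent.Lib.MP250511.INVM.open_image isOpen_ball hc hd hF.inj h2 h1
      have h4 : e '' s = F '' ((Subtype.val : ball (0 : ℂ) 1 → ℂ) '' s) := by
        rw [image_image]
      rw [h4]
      exact h3
  have hr : range e = U := by
    rw [← hF.im]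
    ext w
    constructor
    · rintro ⟨z, rfl⟩
      exact ⟨z, z.2, rfl⟩
    · rintro ⟨z, hz, rfl⟩
      exact ⟨⟨z, hz⟩, rfl⟩
  have hS : IsSimplyConnected U := by
    rw [← hr]
    have : ContractibleSpace (ball (0 : ℂ) 1) :=
      (convex_ball (0 : ℂ) 1).contractibleSpace ⟨0, mem_ball_self one_pos⟩
    have : SimplyConnectedSpace (ball (0 : ℂ) 1) := inferInstance
    exact (he.isEmbedding.toHomeomorph.toHomotopyEquiv.simplyConnectedSpace_iff).1 inferInstance
  rw [hφ]
  exact ⟨h.isOpenMap U hU, h.isSimplyConnected_image.2 hS⟩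

end Pool.Agent.Lib.MP250511.SB
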