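import Pool.Agent.Lib.MP_250511_an.SB.SpecE

set_option autoImplicit false

namespace Pool.Agent.Lib.MP250511.SB

open Complex Metric Set MeasureTheory Filter Topology
open scoped Real ENNReal ComplexConjugate ContDiff

namespace INGM

/-- the real determinant of the multiplication by `a` -/
lemma det_mul (a : ℂ) :
    (((ContinuousLinearMap.toSpanSingleton ℂ a).restrictScalars ℝ : ℂ →L[ℝ] ℂ)).det = ‖a‖ ^ 2 := by
  have h1 : (((ContinuousLinearMap.toSpanSingleton ℂ a).restrictScalars ℝ : ℂ →L[ℝ] ℂ) :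
      ℂ →ₗ[ℝ] ℂ) = LinearMap.mul ℝ ℂ a := by
    ext z
    simp [mul_comm]
  have h2 : (((ContinuousLinearMap.toSpanSingleton ℂ a).restrictScalars ℝ : ℂ →L[ℝ] ℂ)).det =
      LinearMap.det (((ContinuousLinearMap.toSpanSingleton ℂ a).restrictScalars ℝ : ℂ →L[ℝ] ℂ) :
      ℂ →ₗ[ℝ] ℂ) := rfl
  rw [h2, h1]
  have h3 : LinearMap.det (LinearMap.mul ℝ ℂ a) = Algebra.norm ℝ a := (Algebra.norm_apply ℝ a).symm
  rw [h3, Algebra.norm_complex_apply, Complex.normSq_eq_norm_sq]

/-- area formula for an injective holomorphic function -/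
lemma area {g : ℂ → ℂ} {W : Set ℂ} (hW : MeasurableSet W)
    (hd : ∀ z ∈ W, HasDerivAt g (deriv g z) z) (hi : InjOn g W) :
    ∫⁻ z in W, ENNReal.ofReal (‖deriv g z‖ ^ 2) = volume (g '' W) := by
  have h := lintegral_abs_det_fderiv_eq_addHaar_image (volume : Measure ℂ) hW
    (f := g) (f' := fun z =>
      (ContinuousLinearMap.toSpanSingleton ℂ (deriv g z)).restrictScalars ℝ)
    (fun z hz => ((hd z hz).hasFDerivAt.restrictScalars ℝ).hasFDerivWithinAt) hi
  rw [← h]
  refine lintegral_congr fun z => ?_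
  rw [det_mul, abs_of_nonneg (by positivity)]

end INGM

open INGM in
theorem specING : SpecING := by
  intro f g Ω hP r₀ hr₀
  -- `‖g‖ ≥ r` on `W`
  have hf0 : f 0 = 0 := hP.zero
  have hcf : ContinuousAt f 0 := (hP.an 0 (mem_ball_self one_pos)).continuousAt
  have hn : ball (0 : ℂ) r₀ ∈ 𝓝 (f 0) := by
    rw [hf0]
    exact ball_mem_nhds _ hr₀
  obtain ⟨r, hr, hrs⟩ := Metric.mem_nhds_iff.1 (hcf hn)
  have hg : ∀ z ∈ Ω \ ball 0 r₀, r ≤ ‖g z‖ := by
    intro z hz
    by_contra hlt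
    push Not at hlt
    have h1 : g z ∈ ball (0 : ℂ) r := by rwa [mem_ball_zero_iff]
    have h2 := hrs h1
    rw [mem_preimage, hP.FG z hz.1] at h2
    exact hz.2 h2
  have hWm : MeasurableSet (Ω \ ball 0 r₀) := hP.op.measurableSet.diff measurableSet_ball
  have hd : ∀ z ∈ Ω \ ball 0 r₀, HasDerivAt g (deriv g z) z := fun z hz =>
    (hP.gan z hz.1).differentiableAt.hasDerivAt
  have hi : InjOn g (Ω \ ball 0 r₀) := by
    intro a ha b hb hab
    rw [← hP.FG a ha.1, ← hP.FG b hb.1, hab]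
  have hgc : ContinuousOn g (Ω \ ball 0 r₀) := fun z hz =>
    (hP.gan z hz.1).continuousAt.continuousWithinAt
  have hdc : ContinuousOn (deriv g) (Ω \ ball 0 r₀) := fun z hz =>
    (hP.gan z hz.1).deriv.continuousAt.continuousWithinAt
  have hg0 : ∀ z ∈ Ω \ ball 0 r₀, g z ≠ 0 := by
    intro z hz h
    have := hg z hz
    rw [h, norm_zero] at this
    linarith
  have hint : IntegrableOn (fun z => ‖deriv g z‖ ^ 2) (Ω \ ball 0 r₀) := by
    refine ⟨(hdc.norm.pow 2).aestronglyMeasurable hWm, ?_⟩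
    rw [hasFiniteIntegral_iff_ofReal (Filter.Eventually.of_forall fun z => by positivity),
      area hWm hd hi]
    have hsub : g '' (Ω \ ball 0 r₀) ⊆ ball 0 1 := by
      rintro _ ⟨z, hz, rfl⟩
      rw [mem_ball_zero_iff]
      exact hP.gm z hz.1
    exact lt_of_le_of_lt (measure_mono hsub) measure_ball_lt_top
  have hint2 : IntegrableOn (fun z => ‖deriv g z‖ ^ 2 / r ^ 2) (Ω \ ball 0 r₀) :=
    hint.div_const _
  refine Integrable.mono' hint2 ?_ ?_
  · have : ContinuousOn (qG g) (Ω \ ball 0 r₀) := by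
      unfold qG
      exact (hdc.div hgc hg0).pow 2
    exact this.aestronglyMeasurable hWm
  · rw [ae_restrict_iff' hWm]
    refine Filter.Eventually.of_forall fun z hz => ?_
    unfold qG
    rw [norm_pow, norm_div, div_pow]
    have h1 := hg z hz
    gcongr

end Pool.Agent.Lib.MP250511.SB
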