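import Pool.Agent.Lib.MP_250511_an.SB.SpecR

/-!
# INN (MP_250511_an): the inner integrals
-/

set_option autoImplicit false

namespace Pool.Agent.Lib.MP250511.SB

open Complex Metric Set MeasureTheory Filter Topology
open scoped Real ENNReal ComplexConjugate ContDiff

noncomputable section

namespace INNM

lemma ker_out (hKER : SpecKER) {r : ℝ} (hr : 0 < r) {z : ℂ} (hz : 2 * r ≤ ‖z‖) :
    Ker r z = 0 := by
  refine (hKER.1 r hr).2.2.1 z ?_
  nlinarith

lemma cont_mul (hKER : SpecKER) {r : ℝ} (hr : 0 < r) {u : ℂ → ℂ}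
    (hu : ContinuousOn u (ball 0 (2 * r) \ {0})) : Continuous fun z => Ker r z * u z := by
  obtain ⟨hc, hin, hout, _⟩ := hKER.1 r hr
  rw [continuous_iff_continuousAt]
  intro z
  by_cases h1 : ‖z‖ < r
  · have h : (fun z => Ker r z * u z) =ᶠ[𝓝 z] fun _ => 0 := by
      have h' : {w : ℂ | ‖w‖ < r} ∈ 𝓝 z := (isOpen_lt continuous_norm continuous_const).mem_nhds h1
      filter_upwards [h'] with w hw
      rw [hin w (le_of_lt hw), zero_mul]
    exact continuousAt_const.congr h.symm
  · by_cases h2 : ‖z‖ < 2 * r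
    · have hz : z ∈ ball (0 : ℂ) (2 * r) \ {0} := by
        refine ⟨by simpa using h2, ?_⟩
        rintro rfl
        rw [norm_zero] at h1
        exact h1 hr
      have ho : IsOpen (ball (0 : ℂ) (2 * r) \ {0}) := isOpen_ball.sdiff isClosed_singleton
      exact hc.continuousAt.mul (hu.continuousAt (ho.mem_nhds hz))
    · have h : (fun z => Ker r z * u z) =ᶠ[𝓝 z] fun _ => 0 := by
        have h' : {w : ℂ | 2 * r ^ 2 < ‖w‖ ^ 2} ∈ 𝓝 z :=
          (isOpen_lt continuous_const (continuous_norm.pow 2)).mem_nhds (by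
            show 2 * r ^ 2 < ‖z‖ ^ 2
            have := not_lt.1 h2
            nlinarith)
        filter_upwards [h'] with w hw
        rw [hout w (le_of_lt hw), zero_mul]
      exact continuousAt_const.congr h.symm

lemma integ (hKER : SpecKER) {r : ℝ} (hr : 0 < r) {u : ℂ → ℂ}
    (hu : ContinuousOn u (ball 0 (2 * r) \ {0})) : Integrable fun z => Ker r z * u z := by
  refine (cont_mul hKER hr hu).integrable_of_hasCompactSupport ?_
  refine HasCompactSupport.intro (isCompact_closedBall (0 : ℂ) (2 * r)) fun z hz => ?_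
  have hz' : 2 * r < ‖z‖ := by simpa using hz
  rw [ker_out hKER hr hz'.le, zero_mul]

lemma odd (hKER : SpecKER) {r : ℝ} (hr : 0 < r) (c : ℂ) : ∫ z, Ker r z * (c / z) = 0 := by
  have h1 : ∫ z, Ker r z * (c / z) = ∫ z, Ker r (-z) * (c / (-z)) :=
    (integral_neg_eq_self (fun z => Ker r z * (c / z)) volume).symm
  have h2 : ∫ z, Ker r (-z) * (c / (-z)) = -∫ z, Ker r z * (c / z) := by
    rw [← integral_neg]
    refine integral_congr_ae (ae_of_all _ fun z => ?_)
    show Ker r (-z) * (c / (-z)) = -(Ker r z * (c / z))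
    rw [(hKER.1 r hr).2.2.2 z, div_neg, mul_neg]
  have h3 := h1.trans h2
  exact self_eq_neg.1 h3

lemma main (hKER : SpecKER) (hMVP : SpecMVP) {r : ℝ} (hr : 0 < r) {W : ℂ → ℂ}
    (hW : DifferentiableOn ℂ W (ball 0 (2 * r))) :
    ∫ z, Ker r z * (W z / z) = (π : ℂ) * deriv W 0 := by
  have h0 : ball (0 : ℂ) (2 * r) ∈ 𝓝 (0 : ℂ) :=
    isOpen_ball.mem_nhds (mem_ball_self (by positivity))
  have hd : DifferentiableOn ℂ (dslope W 0) (ball 0 (2 * r)) :=
    (Complex.differentiableOn_dslope h0).2 hW
  have h1 := hMVP 0 r (dslope W 0) hr (hd.analyticOnNhd isOpen_ball)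
  have h2 : ∀ z : ℂ, Ker r z * (W z / z) =
      Ker r z * dslope W 0 z + Ker r z * (W 0 / z) := by
    intro z
    by_cases hz : z = 0
    · subst hz
      rw [(hKER.1 r hr).2.1 0 (by simpa using hr.le)]
      simp
    · rw [dslope_of_ne _ hz, slope_def_field]
      field_simp
      ring
  have h3 : Integrable fun z => Ker r z * dslope W 0 z :=
    integ hKER hr (hd.continuousOn.mono sdiff_subset)
  have h4 : Integrable fun z => Ker r z * (W 0 / z) := by
    refine integ hKER hr (continuousOn_const.div continuousOn_id ?_)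
    intro z hz
    exact hz.2
  rw [integral_congr_ae (ae_of_all _ h2), integral_add h3 h4, odd hKER hr, add_zero]
  simpa [dslope_same] using h1

end INNM

open INNM in
theorem specINN (hKER : SpecKER) (hMVP : SpecMVP) : SpecINN := by
  intro Ω q w₁ hΩ hw h1 hq r hr hB
  have hsub : ball (0 : ℂ) (2 * r) ⊆ Ω := ball_subset_closedBall.trans hB
  have hd : DifferentiableOn ℂ w₁ (ball 0 (2 * r)) := (hw.mono hsub).differentiableOn
  have h0r : (0 : ℂ) ∈ ball (0 : ℂ) (2 * r) := mem_ball_self (by positivity)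
  -- points where the kernel does not vanish
  have hne : ∀ z : ℂ, Ker r z ≠ 0 → z ≠ 0 ∧ z ∈ ball (0 : ℂ) (2 * r) := by
    intro z hz
    constructor
    · rintro rfl
      exact hz ((hKER.1 r hr).2.1 0 (by simpa using hr.le))
    · rw [mem_ball_zero_iff]
      by_contra h
      exact hz (ker_out hKER hr (not_lt.1 h))
  constructor
  · have e1 : ∫ z in Ω, Ker r z * z * q z = ∫ z, Ker r z * z * q z := by
      refine setIntegral_eq_integral_of_forall_compl_eq_zero fun z hz => ?_
      have : Ker r z = 0 := by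
        by_contra h
        exact hz (hsub (hne z h).2)
      rw [this, zero_mul, zero_mul]
    rw [e1, ← main hKER hMVP hr hd]
    refine integral_congr_ae (ae_of_all _ fun z => ?_)
    show Ker r z * z * q z = Ker r z * (w₁ z / z)
    by_cases h : Ker r z = 0
    · rw [h]; simp
    · obtain ⟨hz0, hzb⟩ := hne z h
      rw [hq z (hsub hzb) hz0]
      field_simp
  · intro ζ hζ
    have hζ0 : ζ ≠ 0 := by
      rintro rfl
      rw [norm_zero] at hζ
      linarith
    refine ⟨?_, ?_⟩
    · have hzζ : ∀ z ∈ ball (0 : ℂ) (2 * r), z - ζ ≠ 0 := by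
        intro z hz h
        rw [sub_eq_zero] at h
        subst h
        rw [mem_ball_zero_iff] at hz
        linarith
      have e1 : ∫ z in Ω, Ker r z * (z / (z - ζ)) * q z =
          ∫ z, Ker r z * (z / (z - ζ)) * q z := by
        refine setIntegral_eq_integral_of_forall_compl_eq_zero fun z hz => ?_
        have : Ker r z = 0 := by
          by_contra h
          exact hz (hsub (hne z h).2)
        rw [this, zero_mul, zero_mul]
      have hW : DifferentiableOn ℂ (fun z => w₁ z / (z - ζ)) (ball 0 (2 * r)) :=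
        hd.div (differentiableOn_id.sub_const ζ) hzζ
      have hder : deriv (fun z => w₁ z / (z - ζ)) 0 = -(deriv w₁ 0 / ζ + 1 / ζ ^ 2) := by
        have a1 : HasDerivAt w₁ (deriv w₁ 0) 0 := (hw 0 (hsub h0r)).differentiableAt.hasDerivAt
        have a2 : HasDerivAt (fun z : ℂ => z - ζ) 1 0 := (hasDerivAt_id 0).sub_const ζ
        have a3 := a1.div a2 (hzζ 0 h0r)
        have a4 : deriv (fun z => w₁ z / (z - ζ)) 0 = _ := a3.deriv
        rw [a4, h1]
        field_simp
        ring
      have e2 := main hKER hMVP hr hW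
      rw [e1, ← mul_neg, ← hder, ← e2]
      refine integral_congr_ae (ae_of_all _ fun z => ?_)
      show Ker r z * (z / (z - ζ)) * q z = Ker r z * (w₁ z / (z - ζ) / z)
      by_cases h : Ker r z = 0
      · rw [h]; simp
      · obtain ⟨hz0, hzb⟩ := hne z h
        have := hzζ z hzb
        rw [hq z (hsub hzb) hz0]
        field_simp
    · intro δ hδ hBδ h0δ
      have hsδ : ball ζ (2 * δ) ⊆ Ω := ball_subset_closedBall.trans hBδ
      have hz0 : ∀ z ∈ ball ζ (2 * δ), z ≠ 0 := by
        rintro z hz rfl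
        exact h0δ (ball_subset_closedBall hz)
      have hdq : DifferentiableOn ℂ q (ball ζ (2 * δ)) := by
        have hd' : DifferentiableOn ℂ (fun z => w₁ z / z ^ 2) (ball ζ (2 * δ)) :=
          (hw.mono hsδ).differentiableOn.div (differentiableOn_id.pow 2)
            fun z hz => pow_ne_zero 2 (hz0 z hz)
        exact hd'.congr fun z hz => hq z (hsδ hz) (hz0 z hz)
      have e1 : ∫ z in Ω, Ker δ (z - ζ) * q z = ∫ z, Ker δ (z - ζ) * q z := by
        refine setIntegral_eq_integral_of_forall_compl_eq_zero fun z hz => ?_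
        have : Ker δ (z - ζ) = 0 := by
          refine ker_out hKER hδ ?_
          by_contra h
          exact hz (hsδ (by rw [mem_ball, dist_eq_norm]; exact not_le.1 h))
        rw [this, zero_mul]
      rw [e1]
      exact hMVP ζ δ q hδ (hdq.analyticOnNhd isOpen_ball)

end

end Pool.Agent.Lib.MP250511.SB
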