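import Pool.Agent.Lib.MP_250511_an.SB.SpecE

/-!
# INR : the inradius of the deformed domain grows at most at the rate `μ`
-/

set_option autoImplicit false

namespace Pool.Agent.Lib.MP250511.SB

open Complex Metric Set MeasureTheory Filter Topology
open scoped Real ENNReal ComplexConjugate ContDiff

noncomputable section

namespace INRM

/-- `v` is bounded and vanishes off a ball -/
lemma bounds (v : ℂ → ℂ) (hv : Continuous v) (hc : HasCompactSupport v) :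
    ∃ M : ℝ, 0 ≤ M ∧ (∀ z, ‖v z‖ ≤ M) ∧ ∀ z, v z ≠ 0 → ‖z‖ ≤ M := by
  obtain ⟨M₁, h₁⟩ := hc.exists_bound_of_continuous hv
  obtain ⟨M₂, h₂⟩ := hc.isCompact.isBounded.subset_closedBall (0 : ℂ)
  refine ⟨max 0 (max M₁ M₂), le_max_left _ _, fun z => ?_, fun z hz => ?_⟩
  · exact (h₁ z).trans ((le_max_left _ _).trans (le_max_right _ _))
  · have h3 : z ∈ closedBall (0 : ℂ) M₂ := h₂ (subset_tsupport v hz)
    have h4 : ‖z‖ ≤ M₂ := by
      have h5 := mem_closedBall.1 h3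
      rwa [dist_zero_right] at h5
    exact h4.trans ((le_max_right _ _).trans (le_max_right _ _))

/-- the expansion of the square of the norm -/
lemma sq_norm (a d : ℂ) (t : ℝ) : ‖a + (t : ℂ) * d‖ ^ 2
    = ‖a‖ ^ 2 + 2 * t * (conj a * d).re + t ^ 2 * ‖d‖ ^ 2 := by
  rw [← Complex.normSq_eq_norm_sq, ← Complex.normSq_eq_norm_sq, ← Complex.normSq_eq_norm_sq]
  simp only [Complex.normSq_apply, Complex.add_re, Complex.add_im, Complex.mul_re, Complex.mul_im,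
    Complex.conj_re, Complex.conj_im, Complex.ofReal_re, Complex.ofReal_im]
  ring

/-- a point off `Ω` stays at distance at least `R` from the centre -/
lemma far (Ω : Set ℂ) (v : ℂ → ℂ) (K : Set ℂ) (ε : ℝ) (ψ : ℂ → ℂ)
    (hψ : DiG (fun z => z + (ε : ℂ) * v z) ψ K) (c : ℂ) (R : ℝ)
    (hb : ball c R ⊆ (fun z => z + (ε : ℂ) * v z) '' Ω) (e : ℂ) (he : e ∉ Ω) :
    R ≤ ‖e + (ε : ℂ) * v e - c‖ := by
  by_contra hlt
  rw [not_le] at hlt
  have h1 : e + (ε : ℂ) * v e ∈ ball c R := by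
    rw [mem_ball, dist_eq_norm]
    exact hlt
  obtain ⟨w, hw, hwe⟩ := hb h1
  have h2 := hψ.l w
  have h3 := hψ.l e
  simp only at h2 h3 hwe
  rw [hwe, h3] at h2
  rw [h2] at he
  exact he hw

/-- the centre is bounded -/
lemma cbd (Ω : Set ℂ) (v : ℂ → ℂ) (M : ℝ) (hM : 0 ≤ M) (hv : ∀ z, ‖v z‖ ≤ M)
    (hs : ∀ z, v z ≠ 0 → ‖z‖ ≤ M) (ρ : ℝ) (hin : ∀ (c : ℂ) (r : ℝ), ball c r ⊆ Ω → r ≤ ρ)
    (ε : ℝ) (h0 : 0 < ε) (h1 : ε * M ≤ 1) (c : ℂ) (R : ℝ) (hR : ρ < R)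
    (hb : ball c R ⊆ (fun z => z + (ε : ℂ) * v z) '' Ω) : ‖c‖ ≤ M + 1 + R := by
  by_contra hlt
  rw [not_le] at hlt
  have h2 : ball c R ⊆ Ω := by
    intro z hz
    obtain ⟨w, hw, hwz⟩ := hb hz
    simp only at hwz
    by_cases hvw : v w = 0
    · rw [hvw, mul_zero, add_zero] at hwz
      rw [← hwz]
      exact hw
    · exfalso
      have h3 := hs w hvw
      have h4 : ‖z‖ ≤ M + 1 := by
        rw [← hwz]
        refine (norm_add_le _ _).trans ?_
        rw [norm_mul, Complex.norm_real, Real.norm_eq_abs, abs_of_pos h0]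
        have h5 : ε * ‖v w‖ ≤ ε * M := mul_le_mul_of_nonneg_left (hv w) h0.le
        linarith
      have h6 : ‖z - c‖ < R := by
        have h7 := mem_ball.1 hz
        rwa [dist_eq_norm] at h7
      have h8 : ‖c‖ ≤ ‖z‖ + ‖z - c‖ := by
        have h9 : c = z - (z - c) := by ring
        calc ‖c‖ = ‖z - (z - c)‖ := by rw [← h9]
          _ ≤ ‖z‖ + ‖z - c‖ := norm_sub_le _ _
      linarith
  have h10 := hin c R h2
  linarith

end INRM

open INRM in
theorem specINR : SpecINR := by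
  intro f g Ω ρ hE v b K hv hvc hb μ hμ hVV hD η hη
  have hvC : Continuous v := hv.continuous
  obtain ⟨M, hM, hvM, hsM⟩ := bounds v hvC hvc
  obtain ⟨ε₀, hε₀, hD⟩ := hD
  by_contra hcon
  push Not at hcon
  have hρ := hE.pos
  -- the sequences
  have hseq : ∀ n : ℕ, ∃ ε : ℝ, ∃ c : ℂ, 0 < ε ∧ ε < 1 / ((n : ℝ) + 1) ∧ ε * M ≤ 1 ∧ |ε| < ε₀ ∧
      ball c (ρ + (μ + η) * ε) ⊆ (fun z => z + (ε : ℂ) * v z) '' Ω := by
    intro n
    have hn : (0 : ℝ) < 1 / ((n : ℝ) + 1) := by positivity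
    have hM1 : (0 : ℝ) < 1 / (M + 1) := by positivity
    obtain ⟨ε, h1, h2, c, r, h3, h4⟩ := hcon (min ε₀ (min (1 / (M + 1)) (1 / ((n : ℝ) + 1))))
      (lt_min hε₀ (lt_min hM1 hn))
    refine ⟨ε, c, h1, ?_, ?_, ?_, ?_⟩
    · exact h2.trans_le ((min_le_right _ _).trans (min_le_right _ _))
    · have h5 : ε < 1 / (M + 1) := h2.trans_le ((min_le_right _ _).trans (min_le_left _ _))
      have h6 : ε * (M + 1) < 1 := by
        rwa [lt_div_iff₀ (by linarith)] at h5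
      nlinarith
    · rw [abs_of_pos h1]
      exact h2.trans_le (min_le_left _ _)
    · exact (ball_subset_ball h4.le).trans h3
  choose ε c h0 h1 h2 h3 h4 using hseq
  have hεlim : Tendsto ε atTop (𝓝 0) := by
    refine squeeze_zero (fun n => (h0 n).le) (fun n => (h1 n).le) ?_
    exact tendsto_one_div_add_atTop_nhds_zero_nat
  have hε1 : ∀ n, ε n ≤ 1 := by
    intro n
    refine (h1 n).le.trans ?_
    rw [div_le_one (by positivity)]
    have h5 : (0 : ℝ) ≤ n := Nat.cast_nonneg n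
    linarith
  have hcb : ∀ n, c n ∈ closedBall (0 : ℂ) (M + 1 + (ρ + (μ + η))) := by
    intro n
    rw [mem_closedBall, dist_zero_right]
    have h5 : ρ < ρ + (μ + η) * ε n := by
      have h6 : 0 < (μ + η) * ε n := mul_pos (by linarith) (h0 n)
      linarith
    have h7 := cbd Ω v M hM hvM hsM ρ hE.inr (ε n) (h0 n) (h2 n) (c n) _ h5 (h4 n)
    have h8 : (μ + η) * ε n ≤ (μ + η) * 1 := mul_le_mul_of_nonneg_left (hε1 n) (by linarith)
    linarith
  obtain ⟨c₀, -, s, hs, hcs⟩ := (isCompact_closedBall (0 : ℂ) (M + 1 + (ρ + (μ + η)))).tendsto_subseq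
    hcb
  have hεs : Tendsto (ε ∘ s) atTop (𝓝 0) := hεlim.comp hs.tendsto_atTop
  have hfar : ∀ n, ∀ e, e ∉ Ω → ρ + (μ + η) * ε n ≤ ‖e + (ε n : ℂ) * v e - c n‖ := by
    intro n e he
    obtain ⟨ψ, hψ⟩ := hD (ε n) (h3 n)
    exact far Ω v K (ε n) ψ hψ (c n) _ (h4 n) e he
  -- the limit disc
  have hlim : ∀ e, e ∉ Ω → ρ ≤ ‖e - c₀‖ := by
    intro e he
    have hL : Tendsto (fun n => ρ + (μ + η) * (ε ∘ s) n) atTop (𝓝 (ρ + (μ + η) * 0)) :=
      tendsto_const_nhds.add (tendsto_const_nhds.mul hεs)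
    have hR : Tendsto (fun n => ‖e + (((ε ∘ s) n : ℝ) : ℂ) * v e - (c ∘ s) n‖) atTop
        (𝓝 ‖e + ((0 : ℝ) : ℂ) * v e - c₀‖) := by
      refine Tendsto.norm (Tendsto.sub (tendsto_const_nhds.add (Tendsto.mul ?_ tendsto_const_nhds))
        hcs)
      exact (Complex.continuous_ofReal.tendsto 0).comp hεs
    have h5 := le_of_tendsto_of_tendsto' hL hR (fun n => hfar (s n) e he)
    simpa using h5
  -- the bad points
  have hbad : ∀ n, ∃ e, e ∉ Ω ∧ ‖e - (c n - (ε n : ℂ) * b c₀)‖ < ρ + η * ε n / 2 := by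
    intro n
    by_contra hno
    push Not at hno
    have h5 : ball (c n - (ε n : ℂ) * b c₀) (ρ + η * ε n / 2) ⊆ Ω := by
      intro z hz
      by_contra hz'
      have h6 := hno z hz'
      have h7 := mem_ball.1 hz
      rw [dist_eq_norm] at h7
      linarith
    have h8 := hE.inr _ _ h5
    have h9 : 0 < η * ε n := mul_pos hη (h0 n)
    linarith
  choose e he hed using hbad
  have heb : ∀ n, (e ∘ s) n ∈ closedBall (0 : ℂ)
      (M + 1 + (ρ + (μ + η)) + ‖b c₀‖ + (ρ + η)) := by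
    intro n
    rw [mem_closedBall, dist_zero_right]
    have h5 := hcb (s n)
    rw [mem_closedBall, dist_zero_right] at h5
    have h6 := hed (s n)
    have h7 : ‖e (s n)‖ ≤ ‖e (s n) - (c (s n) - (ε (s n) : ℂ) * b c₀)‖
        + (‖c (s n)‖ + ‖(ε (s n) : ℂ) * b c₀‖) := by
      have h8 : e (s n) = (e (s n) - (c (s n) - (ε (s n) : ℂ) * b c₀))
        + (c (s n) - (ε (s n) : ℂ) * b c₀) := by ring
      calc ‖e (s n)‖ = ‖(e (s n) - (c (s n) - (ε (s n) : ℂ) * b c₀))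
            + (c (s n) - (ε (s n) : ℂ) * b c₀)‖ := by rw [← h8]
        _ ≤ ‖e (s n) - (c (s n) - (ε (s n) : ℂ) * b c₀)‖
            + ‖c (s n) - (ε (s n) : ℂ) * b c₀‖ := norm_add_le _ _
        _ ≤ _ := by
          have h9 := norm_sub_le (c (s n)) ((ε (s n) : ℂ) * b c₀)
          linarith
    have h10 : ‖(ε (s n) : ℂ) * b c₀‖ ≤ ‖b c₀‖ := by
      rw [norm_mul, Complex.norm_real, Real.norm_eq_abs, abs_of_pos (h0 _)]
      have h11 := mul_le_mul_of_nonneg_right (hε1 (s n)) (norm_nonneg (b c₀))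
      linarith
    have h12 : η * ε (s n) ≤ η * 1 := mul_le_mul_of_nonneg_left (hε1 _) hη.le
    simp only [Function.comp_apply]
    linarith
  obtain ⟨e₀, -, t, ht, het⟩ := (isCompact_closedBall (0 : ℂ)
    (M + 1 + (ρ + (μ + η)) + ‖b c₀‖ + (ρ + η))).tendsto_subseq heb
  have hεt : Tendsto (fun n => ε (s (t n))) atTop (𝓝 0) := hεs.comp ht.tendsto_atTop
  have hct : Tendsto (fun n => c (s (t n))) atTop (𝓝 c₀) := hcs.comp ht.tendsto_atTop
  have het' : Tendsto (fun n => e (s (t n))) atTop (𝓝 e₀) := het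
  have hεC : Tendsto (fun n => ((ε (s (t n)) : ℝ) : ℂ)) atTop (𝓝 ((0 : ℝ) : ℂ)) :=
    (Complex.continuous_ofReal.tendsto 0).comp hεt
  have he₀ : e₀ ∉ Ω := by
    have hcl : IsClosed (Ωᶜ) := hE.op.isClosed_compl
    exact hcl.mem_of_tendsto het' (Eventually.of_forall fun n => he (s (t n)))
  have ha : Tendsto (fun n => e (s (t n)) - (c (s (t n)) - ((ε (s (t n)) : ℝ) : ℂ) * b c₀)) atTop
      (𝓝 (e₀ - (c₀ - ((0 : ℝ) : ℂ) * b c₀))) :=
    het'.sub (hct.sub (hεC.mul tendsto_const_nhds))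
  have ha0 : e₀ - (c₀ - ((0 : ℝ) : ℂ) * b c₀) = e₀ - c₀ := by simp
  rw [ha0] at ha
  have hd : Tendsto (fun n => v (e (s (t n))) - b c₀) atTop (𝓝 (v e₀ - b c₀)) :=
    ((hvC.tendsto e₀).comp het').sub tendsto_const_nhds
  have hle : ‖e₀ - c₀‖ ≤ ρ := by
    have hR : Tendsto (fun n => ρ + η * ε (s (t n)) / 2) atTop (𝓝 (ρ + η * 0 / 2)) :=
      tendsto_const_nhds.add ((tendsto_const_nhds.mul hεt).div_const 2)
    have h5 := le_of_tendsto_of_tendsto' ha.norm hR (fun n => (hed (s (t n))).le)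
    simpa using h5
  have heq : ‖e₀ - c₀‖ = ρ := le_antisymm hle (hlim e₀ he₀)
  have hCC : ((c₀, e₀) : ℂ × ℂ) ∈ CC Ω ρ := by
    refine ⟨?_, he₀, ?_⟩
    · intro z hz
      by_contra hz'
      have h5 := hlim z hz'
      have h6 : dist z c₀ < ρ := mem_ball.1 hz
      rw [dist_eq_norm] at h6
      linarith
    · show dist e₀ c₀ = ρ
      rw [dist_eq_norm]
      exact heq
  have hrate : (conj (e₀ - c₀) * (v e₀ - b c₀)).re ≤ μ * ρ := by
    have h5 := hVV _ hCC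
    unfold VF at h5
    simp only at h5
    rwa [div_le_iff₀ hρ] at h5
  -- the squares
  have hn : ∀ n, 2 * ρ * (μ + η) + (μ + η) ^ 2 * ε n ≤ ρ * η + η ^ 2 / 4 * ε n
      + 2 * (conj (e n - (c n - ((ε n : ℝ) : ℂ) * b c₀)) * (v (e n) - b c₀)).re
      + ε n * ‖v (e n) - b c₀‖ ^ 2 := by
    intro n
    have h5 := hfar n (e n) (he n)
    have h6 : e n + (ε n : ℂ) * v (e n) - c n = (e n - (c n - ((ε n : ℝ) : ℂ) * b c₀))
        + (ε n : ℂ) * (v (e n) - b c₀) := by ring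
    rw [h6] at h5
    have h7 : (ρ + (μ + η) * ε n) ^ 2 ≤ ‖(e n - (c n - ((ε n : ℝ) : ℂ) * b c₀))
        + (ε n : ℂ) * (v (e n) - b c₀)‖ ^ 2 := by
      have h8 : 0 ≤ ρ + (μ + η) * ε n := by
        have h9 : 0 < (μ + η) * ε n := mul_pos (by linarith) (h0 n)
        linarith
      exact pow_le_pow_left₀ h8 h5 2
    rw [sq_norm] at h7
    have h10 : ‖e n - (c n - ((ε n : ℝ) : ℂ) * b c₀)‖ ^ 2 ≤ (ρ + η * ε n / 2) ^ 2 :=
      pow_le_pow_left₀ (norm_nonneg _) (hed n).le 2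
    have h11 : ε n * (2 * ρ * (μ + η) + (μ + η) ^ 2 * ε n) ≤ ε n * (ρ * η + η ^ 2 / 4 * ε n
      + 2 * (conj (e n - (c n - ((ε n : ℝ) : ℂ) * b c₀)) * (v (e n) - b c₀)).re
      + ε n * ‖v (e n) - b c₀‖ ^ 2) := by
      nlinarith [h7, h10]
    exact le_of_mul_le_mul_left h11 (h0 n)
  have hL : Tendsto (fun n => 2 * ρ * (μ + η) + (μ + η) ^ 2 * ε (s (t n))) atTop
      (𝓝 (2 * ρ * (μ + η) + (μ + η) ^ 2 * 0)) :=
    tendsto_const_nhds.add (tendsto_const_nhds.mul hεt)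
  have hre : Tendsto (fun n => (conj (e (s (t n)) - (c (s (t n)) - ((ε (s (t n)) : ℝ) : ℂ) * b c₀))
      * (v (e (s (t n))) - b c₀)).re) atTop (𝓝 (conj (e₀ - c₀) * (v e₀ - b c₀)).re) :=
    (Complex.continuous_re.tendsto _).comp (((Complex.continuous_conj.tendsto _).comp ha).mul hd)
  have hR : Tendsto (fun n => ρ * η + η ^ 2 / 4 * ε (s (t n))
      + 2 * (conj (e (s (t n)) - (c (s (t n)) - ((ε (s (t n)) : ℝ) : ℂ) * b c₀))
        * (v (e (s (t n))) - b c₀)).re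
      + ε (s (t n)) * ‖v (e (s (t n))) - b c₀‖ ^ 2) atTop
      (𝓝 (ρ * η + η ^ 2 / 4 * 0 + 2 * (conj (e₀ - c₀) * (v e₀ - b c₀)).re
        + 0 * ‖v e₀ - b c₀‖ ^ 2)) :=
    ((tendsto_const_nhds.add (tendsto_const_nhds.mul hεt)).add (tendsto_const_nhds.mul hre)).add
      (hεt.mul (hd.norm.pow 2))
  have hfin := le_of_tendsto_of_tendsto' hL hR (fun n => hn (s (t n)))
  have h20 : 0 < ρ * η := mul_pos hρ hη
  nlinarith [hfin, hrate, h20]

end

end Pool.Agent.Lib.MP250511.SB
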