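import Pool.Agent.Lib.MP_250511_an.SB.SpecV

/-!
# ISO (MP_250511_an): the quadratic differential near an isolated contact point
-/

set_option autoImplicit false

namespace Pool.Agent.Lib.MP250511.SB

open Complex Metric Set MeasureTheory Filter Topology
open scoped Real ENNReal ComplexConjugate ContDiff

noncomputable section

namespace ISOM

lemma meas_conj : Measurable fun x : ℂ × ℂ => conj (x.2 - x.1) :=
  (continuous_conj.comp (continuous_snd.sub continuous_fst)).measurable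

lemma meas_F (z : ℂ) : Measurable fun x : ℂ × ℂ => conj (x.2 - x.1) / (z - x.2) :=
  meas_conj.div (measurable_const.sub measurable_snd)

/-- differentiation of the potential of a measure away from `z₁` -/
lemma der {ρ d : ℝ} {μ : Measure (ℂ × ℂ)} [IsFiniteMeasure μ] (hρ : 0 < ρ) (hd : 0 < d) {z₁ : ℂ}
    (hae : ∀ᵐ x ∂μ, ‖x.2 - x.1‖ = ρ ∧ 2 * d ≤ ‖z₁ - x.2‖) :
    Integrable (fun x => conj (x.2 - x.1) / (z₁ - x.2)) μ ∧
    DifferentiableAt ℂ (fun z => ∫ x, conj (x.2 - x.1) / (z - x.2) ∂μ) z₁ := by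
  have hi : Integrable (fun x => conj (x.2 - x.1) / (z₁ - x.2)) μ := by
    refine Integrable.of_bound (C := ρ / (2 * d)) (meas_F z₁).aestronglyMeasurable ?_
    filter_upwards [hae] with x hx
    rw [norm_div, RCLike.norm_conj, hx.1]
    exact div_le_div_of_nonneg_left hρ.le (by linarith) hx.2
  refine ⟨hi, ?_⟩
  have hz : ∀ z ∈ ball z₁ d, ∀ p : ℂ, 2 * d ≤ ‖z₁ - p‖ → d ≤ ‖z - p‖ := by
    intro z hz p hp
    rw [mem_ball, dist_eq_norm, norm_sub_rev] at hz
    have h1 : ‖z₁ - p‖ ≤ ‖z₁ - z‖ + ‖z - p‖ := by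
      calc ‖z₁ - p‖ = ‖(z₁ - z) + (z - p)‖ := by congr 1; ring
        _ ≤ _ := norm_add_le _ _
    linarith
  have key := hasDerivAt_integral_of_dominated_loc_of_deriv_le (μ := μ) (𝕜 := ℂ)
    (F := fun z x => conj (x.2 - x.1) / (z - x.2))
    (F' := fun z x => -(conj (x.2 - x.1) / (z - x.2) ^ 2)) (x₀ := z₁)
    (s := ball z₁ d) (bound := fun _ => ρ / d ^ 2) (ball_mem_nhds _ hd) ?_ hi ?_ ?_ ?_ ?_
  · exact key.2.differentiableAt
  · exact Eventually.of_forall fun z => (meas_F z).aestronglyMeasurable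
  · exact (meas_conj.div
      ((measurable_const.sub measurable_snd).pow_const 2)).neg.aestronglyMeasurable
  · filter_upwards [hae] with x hx z hzb
    have h4 := hz z hzb x.2 hx.2
    rw [norm_neg, norm_div, RCLike.norm_conj, hx.1, norm_pow]
    exact div_le_div_of_nonneg_left hρ.le (by positivity) (pow_le_pow_left₀ hd.le h4 2)
  · exact integrable_const _
  · filter_upwards [hae] with x hx z hzb
    have h4 := hz z hzb x.2 hx.2
    have hne : z - x.2 ≠ 0 := norm_pos_iff.1 (lt_of_lt_of_le hd h4)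
    have h5 : HasDerivAt (fun z : ℂ => z - x.2) 1 z := (hasDerivAt_id z).sub_const _
    exact ((hasDerivAt_const z (conj (x.2 - x.1))).div h5 hne).congr_deriv (by ring)

end ISOM

open ISOM in
theorem specISO : SpecISO := by
  intro g Ω ρ ν hρ hΩ _ hν hq z₀ δ hδ h0 hiso
  have hae : ∀ᵐ x ∂ν, x ∈ CC Ω ρ := by
    rw [ae_iff]
    exact hν
  have hn : ∀ x ∈ CC Ω ρ, ‖x.2 - x.1‖ = ρ := by
    intro x hx
    rw [← dist_eq_norm]
    exact hx.2.2
  set A : Set (ℂ × ℂ) := {x | x.2 = z₀} with hA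
  have hAm : MeasurableSet A := (isClosed_eq continuous_snd continuous_const).measurableSet
  set h₁ : ℂ → ℂ := fun z => ∫ x in Aᶜ, conj (x.2 - x.1) / (z - x.2) ∂ν with hh₁
  have hρ0 : (ρ : ℂ) ≠ 0 := by exact_mod_cast hρ.ne'
  have hz0 : ∀ z ∈ ball z₀ δ, z ≠ 0 := by
    rintro z hz rfl
    exact h0 hz
  refine ⟨-(∫ x in A, conj (x.2 - x.1) ∂ν) / (ρ : ℂ) ^ 2,
    fun z => 1 / z ^ 2 - h₁ z / (ρ : ℂ) ^ 2, ?_, ?_, ?_⟩
  · refine DifferentiableOn.analyticOnNhd ?_ isOpen_ball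
    intro z hz
    refine DifferentiableAt.differentiableWithinAt ?_
    have h1 : DifferentiableAt ℂ h₁ z := by
      have hzd : ‖z - z₀‖ < δ := by
        rw [← dist_eq_norm]
        exact hz
      refine (der (μ := ν.restrict Aᶜ) hρ (d := (δ - ‖z - z₀‖) / 2) (by linarith) ?_).2
      rw [ae_restrict_iff' hAm.compl]
      filter_upwards [hae] with x hx hxA
      refine ⟨hn x hx, ?_⟩
      have h2 : δ ≤ ‖x.2 - z₀‖ := by
        by_contra h
        refine hxA (hiso x hx ?_)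
        rw [mem_ball, dist_eq_norm]
        exact not_le.1 h
      have h3 : ‖x.2 - z₀‖ ≤ ‖z - x.2‖ + ‖z - z₀‖ := by
        calc ‖x.2 - z₀‖ = ‖(z - z₀) - (z - x.2)‖ := by congr 1; ring
          _ ≤ ‖z - z₀‖ + ‖z - x.2‖ := norm_sub_le _ _
          _ = _ := add_comm _ _
      linarith
    have h2 : DifferentiableAt ℂ (fun z : ℂ => 1 / z ^ 2) z :=
      (differentiableAt_const _).div (differentiableAt_id.pow 2) (pow_ne_zero 2 (hz0 z hz))
    exact h2.sub (h1.div_const _)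
  · rintro z ⟨hzΩ, hzb⟩ hzz
    obtain ⟨ε, hε, hsub⟩ := Metric.isOpen_iff.1 hΩ z hzΩ
    have hint : Integrable (fun x => conj (x.2 - x.1) / (z - x.2)) ν := by
      refine (der (μ := ν) hρ (d := ε / 2) (by linarith) ?_).1
      filter_upwards [hae] with x hx
      refine ⟨hn x hx, ?_⟩
      by_contra h
      refine hx.2.1 (hsub ?_)
      rw [mem_ball, dist_eq_norm, norm_sub_rev]
      linarith [not_le.1 h]
    have h2 := integral_add_compl hAm hint
    have h3 : ∫ x in A, conj (x.2 - x.1) / (z - x.2) ∂ν =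
        (∫ x in A, conj (x.2 - x.1) ∂ν) / (z - z₀) := by
      rw [← integral_div]
      refine setIntegral_congr_fun hAm fun x hx => ?_
      show conj (x.2 - x.1) / (z - x.2) = conj (x.2 - x.1) / (z - z₀)
      rw [show x.2 = z₀ from hx]
    rw [hq z hzΩ (hz0 z hzb), ← h2, h3]
    show 1 / z ^ 2 - ((∫ x in A, conj (x.2 - x.1) ∂ν) / (z - z₀) + h₁ z) / (ρ : ℂ) ^ 2 =
      1 / z ^ 2 - h₁ z / (ρ : ℂ) ^ 2 + -(∫ x in A, conj (x.2 - x.1) ∂ν) / (ρ : ℂ) ^ 2 / (z - z₀)
    have hzz' : z - z₀ ≠ 0 := sub_ne_zero.2 hzz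
    ring
  · intro hnt
    have hA0 : ν A = 0 := by
      refine measure_mono_null ?_ hν
      intro x hx hxC
      exact hnt x hxC hx
    rw [Measure.restrict_eq_zero.2 hA0, integral_zero_measure]
    simp

end

end Pool.Agent.Lib.MP250511.SB
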