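import Pool.Agent.Lib.MP_250511_an.SB.SpecW
import Pool.Agent.Lib.MP_250511_an.SB.ISO

/-!
# ISD (MP_250511_an): the explicit residue at an isolated contact point

Adapted from `SB/ISO.lean`.
-/

set_option autoImplicit false

namespace Pool.Agent.Lib.MP250511.SB

open Complex Metric Set MeasureTheory Filter Topology
open scoped Real ENNReal ComplexConjugate ContDiff

noncomputable section

open ISOM in
theorem specISD : SpecISD := by
  intro g Ω ρ ν hρ hΩ _ hν hq z₀ δ hδ h0 hiso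
  have hae : ∀ᵐ x ∂ν, x ∈ CC Ω ρ := by
    rw [ae_iff]
    exact hν
  have hn : ∀ x ∈ CC Ω ρ, ‖x.2 - x.1‖ = ρ := by
    intro x hx
    rw [← dist_eq_norm]
    exact hx.2.2
  set A : Set (ℂ × ℂ) := {x | x.2 = z₀} with hA
  have hAm : MeasurableSet A := (isClosed_eq continuous_snd continuous_const).measurableSet
  set h₁ : ℂ → ℂ := fun z => ∫ x in Aᶜ, conj (x.2 - x.1) / (z - x.2) ∂ν with hh₁
  have hρ0 : (ρ : ℂ) ≠ 0 := by exact_mod_cast hρ.ne'
  have hz0 : ∀ z ∈ ball z₀ δ, z ≠ 0 := by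
    rintro z hz rfl
    exact h0 hz
  refine ⟨fun z => 1 / z ^ 2 - h₁ z / (ρ : ℂ) ^ 2, ?_, ?_, ?_⟩
  · refine DifferentiableOn.analyticOnNhd ?_ isOpen_ball
    intro z hz
    refine DifferentiableAt.differentiableWithinAt ?_
    have h1 : DifferentiableAt ℂ h₁ z := by
      have hzd : ‖z - z₀‖ < δ := by
        rw [← dist_eq_norm]
        exact hz
      refine (der (μ := ν.restrict Aᶜ) hρ (d := (δ - ‖z - z₀‖) / 2) (by linarith) ?_).2
      rw [ae_restrict_iff' hAm.compl]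
      filter_upwards [hae] with x hx hxA
      refine ⟨hn x hx, ?_⟩
      have h2 : δ ≤ ‖x.2 - z₀‖ := by
        by_contra h
        refine hxA (hiso x hx ?_)
        rw [mem_ball, dist_eq_norm]
        exact not_le.1 h
      have h3 : ‖x.2 - z₀‖ ≤ ‖z - x.2‖ + ‖z - z₀‖ := by
        calc ‖x.2 - z₀‖ = ‖(z - z₀) - (z - x.2)‖ := by congr 1; ring
          _ ≤ ‖z - z₀‖ + ‖z - x.2‖ := norm_sub_le _ _
          _ = _ := add_comm _ _
      linarith
    have h2 : DifferentiableAt ℂ (fun z : ℂ => 1 / z ^ 2) z :=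
      (differentiableAt_const _).div (differentiableAt_id.pow 2) (pow_ne_zero 2 (hz0 z hz))
    exact h2.sub (h1.div_const _)
  · rintro z ⟨hzΩ, hzb⟩ hzz
    obtain ⟨ε, hε, hsub⟩ := Metric.isOpen_iff.1 hΩ z hzΩ
    have hint : Integrable (fun x => conj (x.2 - x.1) / (z - x.2)) ν := by
      refine (der (μ := ν) hρ (d := ε / 2) (by linarith) ?_).1
      filter_upwards [hae] with x hx
      refine ⟨hn x hx, ?_⟩
      by_contra h
      refine hx.2.1 (hsub ?_)
      rw [mem_ball, dist_eq_norm, norm_sub_rev]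
      linarith [not_le.1 h]
    have h2 := integral_add_compl hAm hint
    have h3 : ∫ x in A, conj (x.2 - x.1) / (z - x.2) ∂ν =
        (∫ x in A, conj (x.2 - x.1) ∂ν) / (z - z₀) := by
      rw [← integral_div]
      refine setIntegral_congr_fun hAm fun x hx => ?_
      show conj (x.2 - x.1) / (z - x.2) = conj (x.2 - x.1) / (z - z₀)
      rw [show x.2 = z₀ from hx]
    rw [hq z hzΩ (hz0 z hzb), ← h2, h3, ← integral_conj]
    show 1 / z ^ 2 - ((∫ x in A, conj (x.2 - x.1) ∂ν) / (z - z₀) + h₁ z) / (ρ : ℂ) ^ 2 =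
      1 / z ^ 2 - h₁ z / (ρ : ℂ) ^ 2 + -(∫ x in A, conj (x.2 - x.1) ∂ν) / (ρ : ℂ) ^ 2 / (z - z₀)
    have hzz' : z - z₀ ≠ 0 := sub_ne_zero.2 hzz
    ring
  · intro hnt
    have hA0 : ν A = 0 := by
      refine measure_mono_null ?_ hν
      intro x hx hxC
      exact hnt x hxC hx
    rw [Measure.restrict_eq_zero.2 hA0, integral_zero_measure]

end

end Pool.Agent.Lib.MP250511.SB
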