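import Pool.Agent.Lib.MP_250511_an.SB.Spec

/-!
MP_250511_an, SB, module KA: the local square root of `(g'/g)²` at a free real point.
-/

set_option autoImplicit false

namespace Pool.Agent.Lib.MP250511.SB

open Complex Metric Set MeasureTheory Filter Topology
open scoped Real ENNReal ComplexConjugate ContDiff

namespace KAM

/-- a holomorphic square root near a point where `h ≠ 0` -/
lemma exists_root {h : ℂ → ℂ} {x : ℂ} {δ : ℝ} (hh : AnalyticOnNhd ℂ h (ball x δ)) (hx : h x ≠ 0)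
    (hlt : ∀ z ∈ ball x δ, ‖h z - h x‖ < ‖h x‖) :
    ∃ k : ℂ → ℂ, AnalyticOnNhd ℂ k (ball x δ) ∧ (∀ z ∈ ball x δ, k z ≠ 0) ∧
      ∀ z ∈ ball x δ, k z ^ 2 = h z := by
  obtain ⟨c, hc⟩ : ∃ c : ℂ, c ^ 2 = h x := IsAlgClosed.exists_pow_nat_eq (h x) (by norm_num)
  have hc0 : c ≠ 0 := by
    rintro rfl
    apply hx
    rw [← hc]; norm_num
  have hslit : ∀ z ∈ ball x δ, h z / h x ∈ slitPlane := by
    intro z hz
    left
    have h1 : ‖h z / h x - 1‖ < 1 := by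
      rw [div_sub_one hx, norm_div, div_lt_one (norm_pos_iff.2 hx)]
      exact hlt z hz
    have h2 := (Complex.abs_re_le_norm (h z / h x - 1)).trans_lt h1
    rw [Complex.sub_re, Complex.one_re, abs_lt] at h2
    linarith
  refine ⟨fun z => c * Complex.exp (Complex.log (h z / h x) / 2), ?_, ?_, ?_⟩
  · intro z hz
    have h1 : AnalyticAt ℂ (fun z => h z / h x) z := (hh z hz).div analyticAt_const hx
    have h2 : AnalyticAt ℂ (fun z => Complex.log (h z / h x) / 2) z :=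
      (h1.clog (hslit z hz)).div analyticAt_const (by norm_num)
    exact analyticAt_const.mul h2.cexp
  · intro z _
    exact mul_ne_zero hc0 (Complex.exp_ne_zero _)
  · intro z hz
    show (c * Complex.exp (Complex.log (h z / h x) / 2)) ^ 2 = h z
    have h0 : h z / h x ≠ 0 := Complex.slitPlane_ne_zero (hslit z hz)
    rw [mul_pow, hc, ← Complex.exp_nat_mul]
    have h3 : ((2 : ℕ) : ℂ) * (Complex.log (h z / h x) / 2) = Complex.log (h z / h x) := by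
      push_cast; ring
    rw [h3, Complex.exp_log h0]
    field_simp

end KAM

open KAM in
theorem specKA (hNOI : SpecNOI) (hFRE : SpecFRE) (hRAD : SpecRAD) (hLOC : SpecLOC) : SpecKA := by
  intro f g Ω ρ hE x₀ hx₀ hx₀Ω
  have hint := hNOI f g Ω ρ hE
  have hx₀c : (x₀ : ℂ) ≠ 0 := by rw [Complex.ofReal_ne_zero]; exact hx₀.ne'
  obtain ⟨s, hs1, hsK⟩ := hFRE Ω ρ hE.pos hE.op hE.star hE.inr hint (x₀ : ℂ) hx₀c hx₀Ω
  have hz₀ : (s : ℂ) * (x₀ : ℂ) ≠ 0 := by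
    apply mul_ne_zero _ hx₀c
    rw [Complex.ofReal_ne_zero]; linarith
  obtain ⟨δ, hδ, hdis, h0, h, hh, hq⟩ := hLOC f g Ω ρ hE ((s : ℂ) * (x₀ : ℂ)) hz₀ hsK
  -- the point `y₀ = s x₀`
  obtain ⟨y₀, hy₀⟩ : ∃ y₀ : ℝ, y₀ = s * x₀ := ⟨_, rfl⟩
  have hy₀c : (s : ℂ) * (x₀ : ℂ) = ((y₀ : ℝ) : ℂ) := by rw [hy₀]; push_cast; rfl
  rw [hy₀c] at hdis h0 hh hq
  have hy₀x : x₀ < y₀ := by rw [hy₀]; nlinarith
  -- `h` is not identically zero on the ball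
  have hne : ∃ z ∈ ball ((y₀ : ℝ) : ℂ) δ, h z ≠ 0 := by
    by_contra hno
    push Not at hno
    have hsub : ball ((y₀ : ℝ) : ℂ) δ ⊆ Ωᶜ := by
      intro z hz hzΩ
      have h1 := hno z hz
      rw [← hq z ⟨hzΩ, hz⟩] at h1
      have h2 : deriv g z / g z = 0 := pow_eq_zero_iff (two_ne_zero) |>.1 h1
      rcases div_eq_zero_iff.1 h2 with h3 | h3
      · exact hE.dG z hzΩ h3
      · have h4 := hE.FG z hzΩ
        rw [h3, hE.zero] at h4
        exact h0 (h4 ▸ hz)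
    have h1 : ((y₀ : ℝ) : ℂ) ∈ interior Ωᶜ :=
      mem_interior.2 ⟨_, hsub, isOpen_ball, mem_ball_self hδ⟩
    rw [hint] at h1
    exact h1
  have hev : ∀ᶠ z in 𝓝[≠] ((y₀ : ℝ) : ℂ), h z ≠ 0 := by
    rcases (hh _ (mem_ball_self hδ)).eventually_eq_zero_or_eventually_ne_zero with h1 | h1
    · exfalso
      obtain ⟨z, hz, hz'⟩ := hne
      exact hz' (hh.eqOn_zero_of_preconnected_of_eventuallyEq_zero
        (convex_ball _ _).isPreconnected (mem_ball_self hδ) h1 hz)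
    · exact h1
  -- a real point `x₁ > y₀` with `h x₁ ≠ 0`
  have htend : Tendsto (fun t : ℝ => (((y₀ + t : ℝ)) : ℂ)) (𝓝[>] 0) (𝓝[≠] ((y₀ : ℝ) : ℂ)) := by
    rw [tendsto_nhdsWithin_iff]
    constructor
    · have hc : Continuous (fun t : ℝ => (((y₀ + t : ℝ)) : ℂ)) := by fun_prop
      have := (hc.tendsto 0).mono_left (nhdsWithin_le_nhds (s := Ioi (0 : ℝ)))
      simpa using this
    · filter_upwards [self_mem_nhdsWithin] with t ht
      intro h1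
      rw [mem_singleton_iff, Complex.ofReal_inj] at h1
      have : (0 : ℝ) < t := ht
      linarith
  have hball : ∀ᶠ t : ℝ in 𝓝[>] 0, (((y₀ + t : ℝ)) : ℂ) ∈ ball ((y₀ : ℝ) : ℂ) δ :=
    (tendsto_nhdsWithin_iff.1 htend).1.eventually (ball_mem_nhds _ hδ)
  obtain ⟨t, ht1, ht2, ht3⟩ := ((htend.eventually hev).and (hball.and self_mem_nhdsWithin)).exists
  have ht0 : (0 : ℝ) < t := ht3
  obtain ⟨x₁, hx₁⟩ : ∃ x₁ : ℝ, x₁ = y₀ + t := ⟨_, rfl⟩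
  rw [← hx₁] at ht1 ht2
  -- the radius
  have hcont : ContinuousAt h ((x₁ : ℝ) : ℂ) := (hh _ ht2).continuousAt
  have hnear : ∀ᶠ z in 𝓝 ((x₁ : ℝ) : ℂ), ‖h z - h x₁‖ < ‖h x₁‖ ∧ z ∈ ball ((y₀ : ℝ) : ℂ) δ := by
    refine Filter.Eventually.and ?_ (isOpen_ball.mem_nhds ht2)
    have h1 := (Metric.continuousAt_iff.1 hcont) ‖h x₁‖ (norm_pos_iff.2 ht1)
    obtain ⟨d, hd, h1⟩ := h1
    filter_upwards [ball_mem_nhds _ hd] with z hz
    rw [← dist_eq_norm]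
    exact h1 hz
  obtain ⟨d, hd, hdsub⟩ := Metric.eventually_nhds_iff_ball.1 hnear
  obtain ⟨δ₁, hδ₁⟩ : ∃ δ₁ : ℝ, δ₁ = min d (x₁ - x₀) := ⟨_, rfl⟩
  have hδ₁pos : 0 < δ₁ := by rw [hδ₁]; exact lt_min hd (by linarith)
  have hsub1 : ball ((x₁ : ℝ) : ℂ) δ₁ ⊆ ball ((x₁ : ℝ) : ℂ) d :=
    ball_subset_ball (by rw [hδ₁]; exact min_le_left _ _)
  have hδ₁x : δ₁ ≤ x₁ - x₀ := by rw [hδ₁]; exact min_le_right _ _
  have hsub2 : ball ((x₁ : ℝ) : ℂ) δ₁ ⊆ ball ((y₀ : ℝ) : ℂ) δ := fun z hz =>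
    (hdsub z (hsub1 hz)).2
  obtain ⟨k, hk1, hk2, hk3⟩ := exists_root (hh.mono hsub2) ht1
    (fun z hz => (hdsub z (hsub1 hz)).1)
  refine ⟨x₁, δ₁, k, hδ₁pos, by linarith, hk1, hk2, ?_, ?_, ?_⟩
  · rintro z ⟨hzΩ, hz⟩
    rw [← sq_eq_sq_iff_eq_or_eq_neg, hk3 z hz, ← hq z ⟨hzΩ, hsub2 hz⟩]
    rfl
  · intro z hz hzΩ r hr hrz
    exact hRAD f g Ω ρ hE ((x₁ : ℝ) : ℂ) δ₁ (Disjoint.mono_left hsub2 hdis) z hz hzΩ r hr hrz
  · intro x hx
    rw [mem_ball, dist_eq_norm, ← Complex.ofReal_sub, Complex.norm_real, Real.norm_eq_abs,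
      abs_lt] at hx
    have hxx : x₀ < x := by linarith [hx.1]
    have h1 := out_mul hE.star hx₀Ω (s := x / x₀) (by rw [one_le_div hx₀]; exact hxx.le)
    rwa [← Complex.ofReal_mul, div_mul_cancel₀ _ hx₀.ne'] at h1

end Pool.Agent.Lib.MP250511.SB
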