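import Pool.Agent.Lib.MP_250511_an.SB.Spec

/-!
# MP_250511_an, SB: module KB (`k` is purely imaginary at the real points)
-/

set_option autoImplicit false

namespace Pool.Agent.Lib.MP250511.SB

open Complex Metric Set MeasureTheory Filter Topology
open scoped Real ENNReal ComplexConjugate ContDiff

namespace KBM

/-- the logarithmic derivative of `‖h‖²` along a real curve -/
theorem hasDerivAt_log_norm_sq {h : ℝ → ℂ} {h' : ℂ} {s : ℝ} (hh : HasDerivAt h h' s)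
    (h0 : h s ≠ 0) :
    HasDerivAt (fun t : ℝ => Real.log (‖h t‖ ^ 2)) (2 * (h' / h s).re) s := by
  have h1 : HasDerivAt (fun t : ℝ => ‖h t‖ ^ 2) (2 * inner ℝ (h s) h') s := hh.norm_sq
  have hn : ‖h s‖ ^ 2 ≠ 0 := by
    have := norm_pos_iff.2 h0
    positivity
  have h2 := h1.log hn
  have e : 2 * inner ℝ (h s) h' / ‖h s‖ ^ 2 = 2 * (h' / h s).re := by
    rw [Complex.inner, Complex.div_re, Complex.normSq_eq_norm_sq, Complex.mul_re, Complex.conj_re,
      Complex.conj_im]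
    ring
  rw [e] at h2
  exact h2

theorem main {f g : ℂ → ℂ} {Ω : Set ℂ} {x₁ δ : ℝ} {k : ℂ → ℂ} (hP : Pair f g Ω)
    (hi : interior Ωᶜ = ∅) (hL : Loc g Ω x₁ δ k) (x : ℝ) (hx : (x : ℂ) ∈ ball (x₁ : ℂ) δ) :
    (k x).re = 0 := by
  by_contra hne
  have hxd : |x - x₁| < δ := by
    have := mem_ball.1 hx
    rwa [dist_eq_norm, ← Complex.ofReal_sub, Complex.norm_real, Real.norm_eq_abs] at this
  have hxpos : 0 < x := by
    have h1 := (abs_lt.1 hxd).1
    have h2 := hL.lt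
    linarith
  -- the constant
  set c₀ : ℝ := ((x : ℂ) * k x).re with hc₀
  have hc₀v : c₀ = x * (k x).re := by
    rw [hc₀, Complex.re_ofReal_mul]
  have hc₀ne : c₀ ≠ 0 := by
    rw [hc₀v]
    exact mul_ne_zero hxpos.ne' hne
  -- continuity of `z k z`
  have hkc : ContinuousAt (fun z : ℂ => (z * k z).re * c₀) (x : ℂ) := by
    have h1 : ContinuousAt k (x : ℂ) := (hL.an _ hx).continuousAt
    have h2 : ContinuousAt (fun z : ℂ => z * k z) (x : ℂ) := continuousAt_id.mul h1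
    have h3 : ContinuousAt (fun z : ℂ => (z * k z).re) (x : ℂ) :=
      Complex.continuous_re.continuousAt.comp h2
    exact h3.mul continuousAt_const
  have hsq : 0 < c₀ ^ 2 := by positivity
  have hev : ∀ᶠ z in 𝓝 (x : ℂ), c₀ ^ 2 / 2 < (z * k z).re * c₀ := by
    have h1 : c₀ ^ 2 / 2 < ((x : ℂ) * k x).re * c₀ := by
      rw [← hc₀]
      nlinarith
    exact hkc.eventually (lt_mem_nhds h1)
  have hev2 : ∀ᶠ z in 𝓝 (x : ℂ), z ∈ ball (x₁ : ℂ) δ := isOpen_ball.mem_nhds hx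
  obtain ⟨δ', hδ', hball⟩ := Metric.eventually_nhds_iff.1 (hev.and hev2)
  have habs : ∀ z : ℂ, dist z x < δ' → |c₀| / 2 < |(z * k z).re| := by
    intro z hz
    have h1 := (hball hz).1
    have h2 : (z * k z).re * c₀ ≤ |(z * k z).re| * |c₀| := by
      rw [← abs_mul]
      exact le_abs_self _
    have h3 : 0 < |c₀| := abs_pos.2 hc₀ne
    have h4 : c₀ ^ 2 = |c₀| * |c₀| := by rw [← sq, sq_abs]
    rw [h4] at h1
    have h5 : |c₀| * |c₀| / 2 < |(z * k z).re| * |c₀| := lt_of_lt_of_le h1 h2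
    by_contra hcon
    push Not at hcon
    nlinarith
  -- the step
  set τ : ℝ := min 1 (δ' / (4 * (x + δ'))) with hτ
  have hτpos : 0 < τ := lt_min one_pos (by positivity)
  have hτ1 : τ ≤ 1 := min_le_left _ _
  have hτ2 : τ * (x + δ') ≤ δ' / 4 := by
    have h1 : τ ≤ δ' / (4 * (x + δ')) := min_le_right _ _
    have h2 : (0 : ℝ) < x + δ' := by positivity
    calc τ * (x + δ') ≤ δ' / (4 * (x + δ')) * (x + δ') := by
          exact mul_le_mul_of_nonneg_right h1 h2.le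
      _ = δ' / 4 := by
          field_simp
  have hstay : ∀ z : ℂ, dist z x < δ' / 2 → ∀ s : ℝ, 1 ≤ s → s ≤ 1 + τ →
      dist ((s : ℂ) * z) x < δ' := by
    intro z hz s hs1 hs2
    have e : (s : ℂ) * z - x = (z - x) + ((s - 1 : ℝ) : ℂ) * z := by
      push_cast
      ring
    rw [dist_eq_norm] at hz ⊢
    rw [e]
    have h1 : ‖z‖ ≤ x + δ' := by
      have : ‖z‖ ≤ ‖z - x‖ + ‖(x : ℂ)‖ := by
        have := norm_add_le (z - x) (x : ℂ)
        simpa using this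
      rw [Complex.norm_real, Real.norm_eq_abs, abs_of_pos hxpos] at this
      linarith
    have h2 : ‖((s - 1 : ℝ) : ℂ) * z‖ ≤ τ * (x + δ') := by
      rw [norm_mul, Complex.norm_real, Real.norm_eq_abs, abs_of_nonneg (by linarith)]
      exact mul_le_mul (by linarith) h1 (norm_nonneg _) hτpos.le
    have h3 := norm_add_le (z - x) (((s - 1 : ℝ) : ℂ) * z)
    linarith
  -- the small number
  set ε : ℝ := |c₀| / 4 * τ with hε
  have hεpos : 0 < ε := by
    have : 0 < |c₀| := abs_pos.2 hc₀ne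
    positivity
  have hexp : Real.exp (-ε) < 1 := by
    rw [Real.exp_lt_one_iff]
    linarith
  have hx1 : (x : ℂ) ∉ Ω := hL.re x hx
  have hxx0 : dist (x : ℂ) x < δ' / 2 := by
    rw [dist_self]
    positivity
  have hx2 : (((1 + τ : ℝ) : ℂ) * (x : ℂ)) ∉ Ω := by
    have h1 := (hball (hstay x hxx0 (1 + τ) (by linarith) le_rfl)).2
    rw [← Complex.ofReal_mul] at h1 ⊢
    exact hL.re _ h1
  obtain ⟨δ₁, hδ₁, hb1⟩ := hP.bd x hx1 (Real.exp (-ε)) hexp
  obtain ⟨δ₂, hδ₂, hb2⟩ := hP.bd _ hx2 (Real.exp (-ε)) hexp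
  -- a point of `Ω` near `x`
  have hcl : (x : ℂ) ∈ closure Ω := by
    rw [interior_compl] at hi
    have : closure Ω = univ := compl_empty_iff.1 hi
    rw [this]
    exact mem_univ _
  obtain ⟨z, hzΩ, hzd⟩ := Metric.mem_closure_iff.1 hcl (min (δ' / 2) (min δ₁ (δ₂ / 2)))
    (by positivity)
  rw [dist_comm] at hzd
  have hz1 : dist z x < δ' / 2 := lt_of_lt_of_le hzd (min_le_left _ _)
  have hz2 : dist z x < δ₁ := lt_of_lt_of_le hzd ((min_le_right _ _).trans (min_le_left _ _))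
  have hz3 : dist z x < δ₂ / 2 := lt_of_lt_of_le hzd ((min_le_right _ _).trans (min_le_right _ _))
  -- the segment stays in `Ω`
  have hseg : ∀ s : ℝ, 1 ≤ s → s ≤ 1 + τ → (s : ℂ) * z ∈ Ω := by
    intro s hs1 hs2
    by_contra hcon
    have hb := (hball (hstay z hz1 s hs1 hs2)).2
    have hs0 : 0 < s := by linarith
    have hsne : (s : ℂ) ≠ 0 := by
      rw [Complex.ofReal_ne_zero]
      exact hs0.ne'
    have e : ((s⁻¹ : ℝ) : ℂ) * ((s : ℂ) * z) = z := by
      rw [Complex.ofReal_inv, ← mul_assoc, inv_mul_cancel₀ hsne, one_mul]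
    have h1 : dist z x < δ' := by linarith
    have h2 := hL.rad _ hb hcon s⁻¹ (inv_pos.2 hs0)
    rw [e] at h2
    exact h2 (hball h1).2 hzΩ
  have hgne : ∀ s : ℝ, 1 ≤ s → s ≤ 1 + τ → g ((s : ℂ) * z) ≠ 0 := by
    intro s hs1 hs2 h0
    have h1 := hP.FG _ (hseg s hs1 hs2)
    rw [h0, hP.zero] at h1
    have h2 := hstay z hz1 s hs1 hs2
    have h3 := (hball h2).1
    rw [← h1] at h3
    simp at h3
    nlinarith
  -- the derivative
  have hder : ∀ s : ℝ, 1 ≤ s → s ≤ 1 + τ →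
      HasDerivAt (fun t : ℝ => Real.log (‖g ((t : ℂ) * z)‖ ^ 2))
        (2 * (deriv g ((s : ℂ) * z) * z / g ((s : ℂ) * z)).re) s := by
    intro s hs1 hs2
    have h1 : HasDerivAt g (deriv g ((s : ℂ) * z)) ((s : ℂ) * z) :=
      (hP.gan _ (hseg s hs1 hs2)).differentiableAt.hasDerivAt
    have h2 : HasDerivAt (fun t : ℝ => (t : ℂ) * z) z s := by
      have h3 : HasDerivAt (fun t : ℝ => (t : ℂ)) 1 s := Complex.ofRealCLM.hasDerivAt
      simpa using h3.mul_const z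
    have h4 : HasDerivAt (fun t : ℝ => g ((t : ℂ) * z)) (deriv g ((s : ℂ) * z) * z) s :=
      HasDerivAt.comp (h₂ := g) s h1 h2
    exact hasDerivAt_log_norm_sq h4 (hgne s hs1 hs2)
  obtain ⟨ξ, hξ, hslope⟩ := exists_hasDerivAt_eq_slope
    (fun t : ℝ => Real.log (‖g ((t : ℂ) * z)‖ ^ 2))
    (fun s : ℝ => 2 * (deriv g ((s : ℂ) * z) * z / g ((s : ℂ) * z)).re)
    (show (1 : ℝ) < 1 + τ by linarith)
    (fun s hs => (hder s hs.1 hs.2).continuousAt.continuousWithinAt)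
    (fun s hs => hder s hs.1.le hs.2.le)
  have hlow : |c₀| / 4 < |(deriv g ((ξ : ℂ) * z) * z / g ((ξ : ℂ) * z)).re| := by
    have hξ1 := hξ.1.le
    have hξ2 := hξ.2.le
    have hb := hstay z hz1 ξ hξ1 hξ2
    have h1 := habs _ hb
    have hξ0 : 0 < ξ := by linarith
    have h2 : |(((ξ : ℂ) * z) * k ((ξ : ℂ) * z)).re| =
        ξ * |(deriv g ((ξ : ℂ) * z) * z / g ((ξ : ℂ) * z)).re| := by
      have e0 : deriv g ((ξ : ℂ) * z) * z / g ((ξ : ℂ) * z) =
          z * (deriv g ((ξ : ℂ) * z) / g ((ξ : ℂ) * z)) := by ring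
      rw [e0]
      have e1 : ((ξ : ℂ) * z) * k ((ξ : ℂ) * z) = (ξ : ℂ) * (z * k ((ξ : ℂ) * z)) := by ring
      rw [e1, Complex.re_ofReal_mul, abs_mul, abs_of_pos hξ0]
      rcases hL.pm _ ⟨hseg ξ hξ1 hξ2, (hball hb).2⟩ with h | h
      · rw [h]
      · rw [h, mul_neg, Complex.neg_re, abs_neg]
    rw [h2] at h1
    have h3 : ξ ≤ 2 := by linarith
    have h4 := abs_nonneg ((deriv g ((ξ : ℂ) * z) * z / g ((ξ : ℂ) * z)).re)
    nlinarith
  -- the boundary values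
  have hone : ((1 : ℝ) : ℂ) * z = z := by simp
  have hmem : ∀ w : ℂ, w ∈ Ω → Real.exp (-ε) < ‖g w‖ →
      -(2 * ε) < Real.log (‖g w‖ ^ 2) ∧ Real.log (‖g w‖ ^ 2) < 0 := by
    intro w hw hlt
    have hpos : 0 < ‖g w‖ := lt_trans (Real.exp_pos _) hlt
    have h1 : -ε < Real.log ‖g w‖ := (Real.lt_log_iff_exp_lt hpos).2 hlt
    have h2 : Real.log ‖g w‖ < 0 := Real.log_neg hpos (hP.gm w hw)
    rw [Real.log_pow]
    push_cast
    constructor <;> linarith
  have hA := hmem z hzΩ (hb1 z hzΩ hz2)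
  have hB := hmem _ (hseg (1 + τ) (by linarith) le_rfl) (hb2 _ (hseg (1 + τ) (by linarith) le_rfl) (by
    rw [dist_eq_norm, ← mul_sub, norm_mul, Complex.norm_real, Real.norm_eq_abs,
      abs_of_pos (by linarith : (0 : ℝ) < 1 + τ), ← dist_eq_norm]
    have h0 : 0 ≤ dist z (x : ℂ) := dist_nonneg
    nlinarith))
  simp only [hone] at hslope
  have hfin : |2 * (deriv g ((ξ : ℂ) * z) * z / g ((ξ : ℂ) * z)).re| * τ < 2 * ε := by
    rw [hslope]
    have e : (1 + τ - 1 : ℝ) = τ := by ring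
    rw [e, abs_div, abs_of_pos hτpos, div_mul_cancel₀ _ hτpos.ne', abs_lt]
    constructor
    · linarith [hA.1, hA.2, hB.1, hB.2]
    · linarith [hA.1, hA.2, hB.1, hB.2]
  rw [abs_mul, abs_of_pos (by norm_num : (0 : ℝ) < 2), hε] at hfin
  nlinarith

end KBM

theorem specKB : SpecKB := by
  intro f g Ω x₁ δ k hP hi hL x hx
  exact KBM.main hP hi hL x hx

end Pool.Agent.Lib.MP250511.SB
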