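import Pool.Agent.Lib.MP_250511_an.SB.Spec

/-! # Module KC: the complement is a real segment near `x₁`, and `g'/g = ± k` with opposite signs -/

set_option autoImplicit false

namespace Pool.Agent.Lib.MP250511.SB

open Complex Metric Set MeasureTheory Filter Topology
open scoped Real ENNReal ComplexConjugate ContDiff

namespace KCM

open Classical in
/-- `|g|²` on `Ω`, `1` off `Ω`. -/
noncomputable def N (g : ℂ → ℂ) (Ω : Set ℂ) (z : ℂ) : ℝ := if z ∈ Ω then ‖g z‖ ^ 2 else 1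

lemma N_in {g : ℂ → ℂ} {Ω : Set ℂ} {z : ℂ} (h : z ∈ Ω) : N g Ω z = ‖g z‖ ^ 2 := if_pos h

lemma N_out {g : ℂ → ℂ} {Ω : Set ℂ} {z : ℂ} (h : z ∉ Ω) : N g Ω z = 1 := if_neg h

lemma N_lt {f g : ℂ → ℂ} {Ω : Set ℂ} (hP : Pair f g Ω) {z : ℂ} (h : z ∈ Ω) : N g Ω z < 1 := by
  rw [N_in h]
  have := hP.gm z h
  nlinarith [norm_nonneg (g z)]

lemma N_cont {f g : ℂ → ℂ} {Ω : Set ℂ} (hP : Pair f g Ω) : Continuous (N g Ω) := by
  rw [continuous_iff_continuousAt]
  intro z
  by_cases hz : z ∈ Ω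
  · have h1 : ContinuousAt (fun w => ‖g w‖ ^ 2) z := ((hP.gan z hz).continuousAt.norm).pow 2
    refine h1.congr ?_
    filter_upwards [hP.op.mem_nhds hz] with w hw
    exact (N_in hw).symm
  · rw [Metric.continuousAt_iff]
    intro ε hε
    obtain ⟨δ, hδ, h⟩ := hP.bd z hz (1 - ε / 2) (by linarith)
    refine ⟨δ, hδ, fun {w} hw => ?_⟩
    rw [N_out hz]
    by_cases hwΩ : w ∈ Ω
    · have h1 := h w hwΩ hw
      have h2 := hP.gm w hwΩ
      rw [N_in hwΩ, Real.dist_eq, abs_sub_lt_iff]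
      constructor
      · nlinarith [norm_nonneg (g w)]
      · nlinarith [norm_nonneg (g w)]
    · rw [N_out hwΩ, dist_self]; exact hε

/-- The vertical path. -/
noncomputable def w (x ε : ℝ) (t : ℝ) : ℂ := (x : ℂ) + ((ε * t : ℝ) : ℂ) * I

lemma w_re (x ε t : ℝ) : (w x ε t).re = x := by simp [w]

lemma w_im (x ε t : ℝ) : (w x ε t).im = ε * t := by simp [w]

lemma w_cont (x ε : ℝ) : Continuous (w x ε) := by unfold w; fun_prop

lemma w_deriv (x ε t : ℝ) : HasDerivAt (w x ε) ((ε : ℂ) * I) t := by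
  unfold w
  have h1 : HasDerivAt (fun t : ℝ => ((ε * t : ℝ) : ℂ)) (ε : ℂ) t := by
    have h2 : HasDerivAt (fun t : ℝ => ε * t) ε t := by
      simpa using (hasDerivAt_id t).const_mul ε
    exact h2.ofReal_comp
  exact (h1.mul_const I).const_add _

lemma N_deriv {f g : ℂ → ℂ} {Ω : Set ℂ} (hP : Pair f g Ω) (x ε t : ℝ) (h : w x ε t ∈ Ω)
    (hg : g (w x ε t) ≠ 0) :
    HasDerivAt (fun t => N g Ω (w x ε t))
      (-(2 * ε * ‖g (w x ε t)‖ ^ 2 * (deriv g (w x ε t) / g (w x ε t)).im)) t := by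
  have h0 : HasDerivAt g (deriv g (w x ε t)) (w x ε t) :=
    (hP.gan _ h).differentiableAt.hasDerivAt
  have h1 : HasDerivAt (fun t => g (w x ε t)) (deriv g (w x ε t) * ((ε : ℂ) * I)) t :=
    h0.comp t (w_deriv x ε t)
  have h2 := h1.norm_sq
  have e : (2 : ℝ) * inner ℝ (g (w x ε t)) (deriv g (w x ε t) * ((ε : ℂ) * I)) =
      -(2 * ε * ‖g (w x ε t)‖ ^ 2 * (deriv g (w x ε t) / g (w x ε t)).im) := by
    have e1 : deriv g (w x ε t) = (deriv g (w x ε t) / g (w x ε t)) * g (w x ε t) := by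
      rw [div_mul_cancel₀ _ hg]
    obtain ⟨p, hp⟩ : ∃ p, p = deriv g (w x ε t) / g (w x ε t) := ⟨_, rfl⟩
    rw [← hp] at e1 ⊢
    rw [e1, Complex.inner, ← Complex.normSq_eq_norm_sq, Complex.normSq_apply]
    simp only [Complex.mul_re, Complex.mul_im, Complex.conj_re, Complex.conj_im, Complex.ofReal_re,
      Complex.ofReal_im, Complex.I_re, Complex.I_im]
    ring
  rw [e] at h2
  refine h2.congr_of_eventuallyEq ?_
  have : ∀ᶠ s in 𝓝 t, w x ε s ∈ Ω := (w_cont x ε).continuousAt.eventually (hP.op.mem_nhds h)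
  filter_upwards [this] with s hs
  exact N_in hs

/-- The local data used. -/
structure Dat (g : ℂ → ℂ) (Ω : Set ℂ) (x₁ r : ℝ) (k : ℂ → ℂ) : Prop where
  pm : ∀ z ∈ Ω ∩ ball (x₁ : ℂ) r, deriv g z / g z = k z ∨ deriv g z / g z = - k z
  im : ∀ z ∈ ball (x₁ : ℂ) r, 0 < (k z).im

lemma Dat.ne {g : ℂ → ℂ} {Ω : Set ℂ} {x₁ r : ℝ} {k : ℂ → ℂ} (h : Dat g Ω x₁ r k) {z : ℂ}
    (hz : z ∈ Ω) (hb : z ∈ ball (x₁ : ℂ) r) : g z ≠ 0 ∧ (deriv g z / g z).im ≠ 0 := by
  have h1 := h.im z hb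
  have h2 : (deriv g z / g z).im ≠ 0 := by
    rcases h.pm z ⟨hz, hb⟩ with e | e
    · rw [e]; exact h1.ne'
    · rw [e, Complex.neg_im]; linarith
  refine ⟨fun h0 => h2 ?_, h2⟩
  rw [h0, div_zero, Complex.zero_im]

/-- The minimum argument. -/
lemma minarg {f g : ℂ → ℂ} {Ω : Set ℂ} (hP : Pair f g Ω) {x₁ r : ℝ} {k : ℂ → ℂ}
    (hD : Dat g Ω x₁ r k) {x ε T : ℝ} (hε : ε ≠ 0) (hT : 0 < T) (h0 : w x ε 0 ∉ Ω)
    (hB : ∀ t ∈ Icc 0 T, w x ε t ∈ ball (x₁ : ℂ) r) :
    (w x ε T ∉ Ω → ∀ t ∈ Icc 0 T, w x ε t ∉ Ω) ∧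
    (w x ε T ∈ Ω → 0 < ε * (deriv g (w x ε T) / g (w x ε T)).im) := by
  have hc : Continuous fun t => N g Ω (w x ε t) := (N_cont hP).comp (w_cont x ε)
  obtain ⟨t', ht', hmin⟩ := (isCompact_Icc (a := (0 : ℝ)) (b := T)).exists_isMinOn
    (nonempty_Icc.mpr hT.le) hc.continuousOn
  have hin : w x ε t' ∈ Ω → t' ≠ T → False := by
    intro hΩ hne
    have h0' : t' ≠ 0 := fun e => h0 (e ▸ hΩ)
    have hlt : t' < T := lt_of_le_of_ne ht'.2 hne
    have hgt : 0 < t' := lt_of_le_of_ne ht'.1 (Ne.symm h0')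
    have hloc : IsLocalMin (fun t => N g Ω (w x ε t)) t' :=
      hmin.isLocalMin (Icc_mem_nhds hgt hlt)
    obtain ⟨n1, n2⟩ := hD.ne hΩ (hB t' ht')
    have hd := N_deriv hP x ε t' hΩ n1
    have := hloc.hasDerivAt_eq_zero hd
    have hn : 0 < ‖g (w x ε t')‖ ^ 2 := by positivity
    have h3 : 2 * ε * ‖g (w x ε t')‖ ^ 2 * (deriv g (w x ε t') / g (w x ε t')).im ≠ 0 := by
      refine mul_ne_zero (mul_ne_zero (mul_ne_zero two_ne_zero hε) hn.ne') n2
    exact h3 (neg_eq_zero.mp this)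
  constructor
  · intro hTo t ht hΩ
    have h1 : N g Ω (w x ε t') ≤ N g Ω (w x ε t) := hmin ht
    have h2 := N_lt hP hΩ
    have h3 : w x ε t' ∈ Ω := by
      by_contra hn
      rw [N_out hn] at h1
      linarith
    exact hin h3 (fun e => hTo (e ▸ h3))
  · intro hTi
    have hTm : T ∈ Icc (0 : ℝ) T := ⟨hT.le, le_rfl⟩
    have h1 : N g Ω (w x ε t') ≤ N g Ω (w x ε T) := hmin hTm
    have h2 := N_lt hP hTi
    have h3 : w x ε t' ∈ Ω := by
      by_contra hn
      rw [N_out hn] at h1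
      linarith
    have hTt : t' = T := by
      by_contra hne
      exact hin h3 hne
    rw [hTt] at hmin
    obtain ⟨n1, n2⟩ := hD.ne hTi (hB T hTm)
    have hd := N_deriv hP x ε T hTi n1
    have hs := (hasDerivAt_iff_tendsto_slope.mp hd).mono_left (nhdsLT_le_nhdsNE T)
    have hle : -(2 * ε * ‖g (w x ε T)‖ ^ 2 * (deriv g (w x ε T) / g (w x ε T)).im) ≤ 0 := by
      refine le_of_tendsto hs ?_
      filter_upwards [Ioo_mem_nhdsLT hT] with t ht
      have h5 : N g Ω (w x ε T) ≤ N g Ω (w x ε t) := hmin ⟨ht.1.le, ht.2.le⟩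
      rw [slope_def_field]
      exact div_nonpos_of_nonneg_of_nonpos (by linarith) (by linarith [ht.2])
    have hn : 0 < ‖g (w x ε T)‖ ^ 2 := by positivity
    have hge : 0 ≤ ε * (deriv g (w x ε T) / g (w x ε T)).im := by
      by_contra hneg
      push Not at hneg
      nlinarith
    exact lt_of_le_of_ne hge (Ne.symm (mul_ne_zero hε n2))

/-- The case `Im k(x₁) > 0`. -/
lemma main {f g : ℂ → ℂ} {Ω : Set ℂ} {x₁ δ : ℝ} {k : ℂ → ℂ} (hP : Pair f g Ω)
    (hint : interior Ωᶜ = ∅) (hL : Loc g Ω x₁ δ k) (hk : 0 < (k x₁).im) :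
    ∃ δ' > 0, δ' ≤ δ ∧ (∀ z ∈ ball (x₁ : ℂ) δ', z ∉ Ω ↔ z.im = 0) ∧
      (∀ z ∈ ball (x₁ : ℂ) δ', 0 < z.im → deriv g z / g z = k z) ∧
      (∀ z ∈ ball (x₁ : ℂ) δ', z.im < 0 → deriv g z / g z = - k z) := by
  have hx1 : 0 < x₁ := hL.pos.trans hL.lt
  have hcm : (x₁ : ℂ) ∈ ball (x₁ : ℂ) δ := mem_ball_self hL.pos
  have hkc : ContinuousAt (fun z => (k z).im) (x₁ : ℂ) :=
    Complex.continuous_im.continuousAt.comp (hL.an _ hcm).continuousAt
  obtain ⟨r₀, hr₀, hr₀'⟩ := Metric.eventually_nhds_iff_ball.mp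
    (hkc.eventually (lt_mem_nhds hk))
  obtain ⟨r, hr, hrδ, hrr⟩ : ∃ r, 0 < r ∧ r ≤ δ ∧ r ≤ r₀ :=
    ⟨min δ r₀, lt_min hL.pos hr₀, min_le_left _ _, min_le_right _ _⟩
  have hD : Dat g Ω x₁ r k := ⟨fun z hz => hL.pm z ⟨hz.1, ball_subset_ball hrδ hz.2⟩,
    fun z hz => hr₀' z (ball_subset_ball hrr hz)⟩
  obtain ⟨δ', hδ', h1, h2⟩ : ∃ δ', 0 < δ' ∧ 2 * δ' ≤ r ∧ 2 * δ' ≤ x₁ :=
    ⟨min (r / 2) (x₁ / 2), lt_min (by linarith) (by linarith),
      by linarith [min_le_left (r / 2) (x₁ / 2)], by linarith [min_le_right (r / 2) (x₁ / 2)]⟩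
  have coord : ∀ {z : ℂ} {s : ℝ}, z ∈ ball (x₁ : ℂ) s → |z.re - x₁| < s ∧ |z.im| < s := by
    intro z s hz
    rw [mem_ball, dist_eq_norm] at hz
    constructor
    · have := Complex.abs_re_le_norm (z - x₁)
      rw [Complex.sub_re, Complex.ofReal_re] at this
      exact this.trans_lt hz
    · have := Complex.abs_im_le_norm (z - x₁)
      rw [Complex.sub_im, Complex.ofReal_im, sub_zero] at this
      exact this.trans_lt hz
  have wb : ∀ {ε t s : ℝ}, |ε * t| < s → w x₁ ε t ∈ ball (x₁ : ℂ) s := by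
    intro ε t s h
    rw [mem_ball, dist_eq_norm]
    have : w x₁ ε t - x₁ = ((ε * t : ℝ) : ℂ) * I := by unfold w; ring
    rw [this, norm_mul, Complex.norm_I, mul_one, Complex.norm_real, Real.norm_eq_abs]
    exact h
  have w0 : ∀ x ε : ℝ, w x ε 0 = (x : ℂ) := by intro x ε; simp [w]
  -- the complement is real
  have claim1 : ∀ z ∈ ball (x₁ : ℂ) δ', z ∉ Ω → z.im = 0 := by
    intro z hz hzΩ
    by_contra him
    obtain ⟨c1, c2⟩ := coord hz
    rw [abs_lt] at c1
    have hre : x₁ / 2 < z.re := by linarith [c1.1]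
    have hre0 : 0 < z.re := by linarith
    obtain ⟨ε, hε1, hε2⟩ : ∃ ε : ℝ, |ε| = 1 ∧ ε * z.im = |z.im| := by
      rcases lt_or_gt_of_ne him with h | h
      · exact ⟨-1, by norm_num, by rw [abs_of_neg h]; ring⟩
      · exact ⟨1, by norm_num, by rw [abs_of_pos h]; ring⟩
    have hεε : ε * ε = 1 := by
      have := sq_abs ε
      rw [hε1] at this
      nlinarith
    have hε0 : ε ≠ 0 := by
      intro h0; rw [h0, abs_zero] at hε1; norm_num at hε1
    have hai : 0 < |z.im| := abs_pos.mpr him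
    obtain ⟨T, hT⟩ : ∃ T, T = x₁ * |z.im| / z.re := ⟨_, rfl⟩
    have hTpos : 0 < T := by rw [hT]; positivity
    have hTr : T < r := by
      rw [hT, div_lt_iff₀ hre0]
      nlinarith
    have hwT : w x₁ ε T ∉ Ω := by
      have e : w x₁ ε T = ((x₁ / z.re : ℝ) : ℂ) * z := by
        apply Complex.ext
        · rw [w_re, Complex.re_ofReal_mul]; field_simp
        · rw [w_im, Complex.im_ofReal_mul, hT, ← hε2]
          have : ε * (x₁ * (ε * z.im) / z.re) = (ε * ε) * (x₁ / z.re * z.im) := by ring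
          rw [this, hεε, one_mul]
      rw [e]
      refine hL.rad z (ball_subset_ball (by linarith) hz) hzΩ _ (by positivity) ?_
      rw [← e]
      apply wb
      rw [abs_mul, hε1, one_mul, abs_of_pos hTpos]
      linarith
    have hw0 : w x₁ ε 0 ∉ Ω := by rw [w0]; exact hL.re x₁ hcm
    have hall := (minarg hP hD hε0 hTpos hw0 (fun t ht => wb (by
      rw [abs_mul, hε1, one_mul, abs_of_nonneg ht.1]
      linarith [ht.2]))).1 hwT
    -- an interior point of the complement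
    have hmem : w x₁ ε (T / 2) ∈ interior Ωᶜ := by
      rw [mem_interior_iff_mem_nhds]
      have o1 : ∀ᶠ ζ in 𝓝 (w x₁ ε (T / 2)), 0 < ζ.re := by
        apply Complex.continuous_re.continuousAt.eventually (lt_mem_nhds _)
        rw [w_re]; exact hx1
      have o2 : ∀ᶠ ζ in 𝓝 (w x₁ ε (T / 2)), 0 < ε * ζ.im := by
        apply (continuous_const.mul Complex.continuous_im).continuousAt.eventually (lt_mem_nhds _)
        show 0 < ε * (w x₁ ε (T / 2)).im
        rw [w_im, ← mul_assoc, hεε]; linarith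
      have o3 : ∀ᶠ ζ in 𝓝 (w x₁ ε (T / 2)), 0 < T * ζ.re - x₁ * (ε * ζ.im) := by
        apply ((continuous_const.mul Complex.continuous_re).sub
          (continuous_const.mul (continuous_const.mul
            Complex.continuous_im))).continuousAt.eventually (lt_mem_nhds _)
        show 0 < T * (w x₁ ε (T / 2)).re - x₁ * (ε * (w x₁ ε (T / 2)).im)
        rw [w_re, w_im, ← mul_assoc ε, hεε]; nlinarith
      have o4 : ∀ᶠ ζ in 𝓝 (w x₁ ε (T / 2)), ζ ∈ ball (x₁ : ℂ) δ := by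
        apply isOpen_ball.mem_nhds
        apply wb
        rw [abs_mul, hε1, one_mul, abs_of_pos (by linarith)]
        linarith
      filter_upwards [o1, o2, o3, o4] with ζ p1 p2 p3 p4
      obtain ⟨t, ht⟩ : ∃ t, t = x₁ * (ε * ζ.im) / ζ.re := ⟨_, rfl⟩
      have ht0 : 0 < t := by rw [ht]; positivity
      have htT : t < T := by rw [ht, div_lt_iff₀ p1]; linarith
      have e : w x₁ ε t = ((x₁ / ζ.re : ℝ) : ℂ) * ζ := by
        apply Complex.ext
        · rw [w_re, Complex.re_ofReal_mul]; field_simp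
        · rw [w_im, Complex.im_ofReal_mul, ht]
          have : ε * (x₁ * (ε * ζ.im) / ζ.re) = (ε * ε) * (x₁ / ζ.re * ζ.im) := by ring
          rw [this, hεε, one_mul]
      have hwt := hall t ⟨ht0.le, htT.le⟩
      have e2 : ζ = ((ζ.re / x₁ : ℝ) : ℂ) * w x₁ ε t := by
        rw [e, ← mul_assoc, ← Complex.ofReal_mul]
        have : ζ.re / x₁ * (x₁ / ζ.re) = 1 := by field_simp
        rw [this, Complex.ofReal_one, one_mul]
      show ζ ∉ Ω
      rw [e2]
      refine hL.rad _ (wb ?_) hwt _ (by positivity) (by rw [← e2]; exact p4)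
      rw [abs_mul, hε1, one_mul, abs_of_pos ht0]
      linarith
    rw [hint] at hmem
    exact hmem
  have real_out : ∀ z ∈ ball (x₁ : ℂ) δ, z.im = 0 → z ∉ Ω := by
    intro z hz h
    have e : z = ((z.re : ℝ) : ℂ) := by
      apply Complex.ext
      · simp
      · simpa using h
    rw [e]
    exact hL.re z.re (by rw [← e]; exact hz)
  have hδ'δ : δ' ≤ δ := by linarith
  -- the sign
  have sgn : ∀ z ∈ ball (x₁ : ℂ) δ', z.im ≠ 0 → ∀ ε : ℝ, |ε| = 1 → ε * z.im = |z.im| →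
      0 < ε * (deriv g z / g z).im := by
    intro z hz him ε hε1 hε2
    have hεε : ε * ε = 1 := by
      have := sq_abs ε
      rw [hε1] at this
      nlinarith
    have hε0 : ε ≠ 0 := by
      intro h0; rw [h0, abs_zero] at hε1; norm_num at hε1
    have hzΩ : z ∈ Ω := by
      by_contra hn
      exact him (claim1 z hz hn)
    have ez : w z.re ε |z.im| = z := by
      apply Complex.ext
      · rw [w_re]
      · rw [w_im, ← hε2, ← mul_assoc, hεε, one_mul]
    have hball : ∀ t ∈ Icc (0 : ℝ) |z.im|, w z.re ε t ∈ ball (x₁ : ℂ) δ' := by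
      intro t ht
      rw [mem_ball, dist_eq_norm] at hz ⊢
      refine lt_of_le_of_lt ?_ hz
      apply Real.sqrt_le_sqrt
      rw [Complex.normSq_apply, Complex.normSq_apply, Complex.sub_re, Complex.sub_re,
        Complex.sub_im, Complex.sub_im, w_re, w_im, Complex.ofReal_im, Complex.ofReal_re]
      have e1 : ε * t * (ε * t) = (ε * ε) * (t * t) := by ring
      have e2 : z.im * z.im = |z.im| * |z.im| := (abs_mul_abs_self _).symm
      have e3 : t * t ≤ |z.im| * |z.im| := mul_self_le_mul_self ht.1 ht.2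
      simp only [sub_zero]
      rw [e1, hεε, one_mul, e2]
      linarith
    have h0 : w z.re ε 0 ∉ Ω := by
      have hb := hball 0 ⟨le_rfl, abs_nonneg _⟩
      exact real_out _ (ball_subset_ball hδ'δ hb) (by rw [w_im, mul_zero])
    have := (minarg hP hD hε0 (abs_pos.mpr him) h0
      (fun t ht => ball_subset_ball (by linarith) (hball t ht))).2 (by rw [ez]; exact hzΩ)
    rw [ez] at this
    exact this
  have inΩ : ∀ z ∈ ball (x₁ : ℂ) δ', z.im ≠ 0 → z ∈ Ω ∩ ball (x₁ : ℂ) r := by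
    intro z hz him
    refine ⟨?_, ball_subset_ball (by linarith) hz⟩
    by_contra hn
    exact him (claim1 z hz hn)
  refine ⟨δ', hδ', hδ'δ, fun z hz => ⟨claim1 z hz, fun h => real_out z (ball_subset_ball hδ'δ hz) h⟩,
    ?_, ?_⟩
  · intro z hz him
    have h3 := sgn z hz him.ne' 1 (by norm_num) (by rw [abs_of_pos him, one_mul])
    obtain ⟨h4, h5⟩ := inΩ z hz him.ne'
    rcases hD.pm z ⟨h4, h5⟩ with e | e
    · exact e
    · rw [e, Complex.neg_im] at h3
      linarith [hD.im z h5]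
  · intro z hz him
    have h3 := sgn z hz him.ne (-1) (by norm_num) (by rw [abs_of_neg him]; ring)
    obtain ⟨h4, h5⟩ := inΩ z hz him.ne
    rcases hD.pm z ⟨h4, h5⟩ with e | e
    · rw [e] at h3
      linarith [hD.im z h5]
    · exact e

end KCM

open KCM in
theorem specKC : SpecKC := by
  intro f g Ω x₁ δ k hP hint hL hre
  have hcm : (x₁ : ℂ) ∈ ball (x₁ : ℂ) δ := mem_ball_self hL.pos
  have h0 : (k x₁).re = 0 := hre x₁ hcm
  have h1 : (k x₁).im ≠ 0 := by
    intro h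
    exact hL.ne _ hcm (Complex.ext h0 h)
  rcases lt_or_gt_of_ne h1 with h2 | h2
  · have hL' : Loc g Ω x₁ δ (fun z => - k z) :=
      ⟨hL.pos, hL.lt, hL.an.neg, fun z hz => neg_ne_zero.mpr (hL.ne z hz),
        fun z hz => by
          rcases hL.pm z hz with e | e
          · exact Or.inr (by rw [e, neg_neg])
          · exact Or.inl e,
        hL.rad, hL.re⟩
    obtain ⟨δ', a1, a2, a3, a4, a5⟩ := main hP hint hL' (by rw [Complex.neg_im]; linarith)
    refine ⟨δ', a1, a2, a3, -1, fun z hz him => ?_, fun z hz him => ?_, Or.inr rfl⟩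
    · rw [a4 z hz him]; ring
    · rw [a5 z hz him]; ring
  · obtain ⟨δ', a1, a2, a3, a4, a5⟩ := main hP hint hL h2
    refine ⟨δ', a1, a2, a3, 1, fun z hz him => ?_, fun z hz him => ?_, Or.inl rfl⟩
    · rw [a4 z hz him]; ring
    · rw [a5 z hz him]; ring

end Pool.Agent.Lib.MP250511.SB
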