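import Pool.Agent.Lib.MP_250511_an.SB.Spec

/-! # MP_250511_an, SB, KCL: compactness of the centres (helper94) -/

set_option autoImplicit false

namespace Pool.Agent.Lib.MP250511.SB

open Complex Metric Set MeasureTheory Filter Topology
open scoped Real ENNReal ComplexConjugate ContDiff

namespace KCLM

lemma closed_centres (Ω : Set ℂ) (ρ : ℝ) : IsClosed {c : ℂ | ball c ρ ⊆ Ω} := by
  have e : {c : ℂ | ball c ρ ⊆ Ω} = ⋂ z ∈ Ωᶜ, {c : ℂ | ρ ≤ dist z c} := by
    ext c
    simp only [mem_setOf_eq, mem_iInter, mem_compl_iff]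
    constructor
    · intro h z hz
      by_contra hlt
      exact hz (h (mem_ball.2 (not_le.1 hlt)))
    · intro h z hz
      by_contra hzΩ
      exact absurd (mem_ball.1 hz) (not_lt.2 (h z hzΩ))
  rw [e]
  exact isClosed_biInter fun z _ => isClosed_le continuous_const (continuous_const.dist continuous_id)

end KCLM

theorem specKCL : SpecKCL := by
  intro Ω ρ hρ hΩ
  have hC := KCLM.closed_centres Ω ρ
  refine ⟨?_, fun M => ?_⟩
  · refine IsSeqClosed.isClosed ?_
    intro p p₀ hp hlim
    choose hpo c hc hd using hp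
    have hbd : Bornology.IsBounded (range p) := isBounded_range_of_tendsto p hlim
    obtain ⟨R, hR⟩ := hbd.exists_norm_le
    have hcb : ∀ n, c n ∈ closedBall (0 : ℂ) (R + ρ) := fun n => by
      rw [mem_closedBall_zero_iff]
      have h1 := hR (p n) (mem_range_self n)
      have h2 : ‖c n‖ ≤ ‖p n‖ + dist (p n) (c n) := by
        rw [dist_eq_norm]
        calc ‖c n‖ = ‖p n - (p n - c n)‖ := by ring_nf
          _ ≤ ‖p n‖ + ‖p n - c n‖ := norm_sub_le _ _
      rw [hd n] at h2
      linarith
    obtain ⟨c₀, _, φ, hφ, hφl⟩ := tendsto_subseq_of_bounded isBounded_closedBall hcb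
    refine ⟨?_, c₀, ?_, ?_⟩
    · have hcl : IsClosed Ωᶜ := hΩ.isClosed_compl
      exact hcl.mem_of_tendsto hlim (Eventually.of_forall fun n => hpo n)
    · exact hC.mem_of_tendsto hφl (Eventually.of_forall fun n => hc (φ n))
    · have h1 : Tendsto (fun n => dist (p (φ n)) (c (φ n))) atTop (𝓝 (dist p₀ c₀)) :=
        (hlim.comp hφ.tendsto_atTop).dist hφl
      have h2 : (fun n => dist (p (φ n)) (c (φ n))) = fun _ => ρ := by
        ext n
        exact hd (φ n)
      rw [h2] at h1
      exact tendsto_nhds_unique h1 tendsto_const_nhds |>.trans rfl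
  · refine Metric.isCompact_of_isClosed_isBounded ?_ ?_
    · have e : {c : ℂ | ball c ρ ⊆ Ω ∧ ‖c‖ ≤ M} = {c : ℂ | ball c ρ ⊆ Ω} ∩ closedBall 0 M := by
        ext c
        simp
      rw [e]
      exact hC.inter isClosed_closedBall
    · exact isBounded_closedBall.subset fun c hc => by
        rw [mem_closedBall_zero_iff]
        exact hc.2

end Pool.Agent.Lib.MP250511.SB
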