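import Pool.Agent.Lib.MP_250511_an.SB.Spec

/-!
# MP_250511_an, SB, module KD: reflection
-/

set_option autoImplicit false

namespace Pool.Agent.Lib.MP250511.SB

open Complex Metric Set MeasureTheory Filter Topology
open scoped Real ENNReal ComplexConjugate ContDiff

theorem specKD : SpecKD := by
  intro x₁ δ k hδ hk hre z hz
  have hconj : ∀ w ∈ ball (x₁ : ℂ) δ, conj w ∈ ball (x₁ : ℂ) δ := by
    intro w hw
    rw [mem_ball] at hw ⊢
    have h1 := Complex.dist_conj_conj w (x₁ : ℂ)
    rw [Complex.conj_ofReal] at h1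
    rw [h1]
    exact hw
  have hd1 : DifferentiableOn ℂ (fun w => conj (k (conj w))) (ball (x₁ : ℂ) δ) := by
    intro w hw
    have h1 : DifferentiableAt ℂ k (conj w) := (hk _ (hconj w hw)).differentiableAt
    have h2 := h1.conj_conj
    rw [Complex.conj_conj] at h2
    exact h2.differentiableWithinAt
  have hd : DifferentiableOn ℂ (fun w => conj (k (conj w)) + k w) (ball (x₁ : ℂ) δ) :=
    hd1.add hk.differentiableOn
  have han : AnalyticOnNhd ℂ (fun w => conj (k (conj w)) + k w) (ball (x₁ : ℂ) δ) :=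
    hd.analyticOnNhd isOpen_ball
  have hreal : ∀ x : ℝ, (x : ℂ) ∈ ball (x₁ : ℂ) δ → conj (k (conj (x : ℂ))) + k x = 0 := by
    intro x hx
    rw [Complex.conj_ofReal]
    have h1 := hre x hx
    apply Complex.ext
    · rw [Complex.add_re, Complex.conj_re, h1]
      simp
    · rw [Complex.add_im, Complex.conj_im]
      simp
  have htend : Tendsto (fun x : ℝ => (x : ℂ)) (𝓝[≠] x₁) (𝓝[≠] (x₁ : ℂ)) := by
    rw [tendsto_nhdsWithin_iff]
    refine ⟨(Complex.continuous_ofReal.tendsto x₁).mono_left nhdsWithin_le_nhds, ?_⟩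
    filter_upwards [self_mem_nhdsWithin] with x hx
    intro h
    exact hx (Complex.ofReal_injective h)
  have hfreq : ∃ᶠ w in 𝓝[≠] (x₁ : ℂ), conj (k (conj w)) + k w = 0 := by
    apply htend.frequently
    apply Eventually.frequently
    have h1 : ∀ᶠ x : ℝ in 𝓝 x₁, (x : ℂ) ∈ ball (x₁ : ℂ) δ :=
      (Complex.continuous_ofReal.tendsto x₁).eventually (ball_mem_nhds _ hδ)
    filter_upwards [h1.filter_mono nhdsWithin_le_nhds] with x hx
    exact hreal x hx
  have h0 := han.eqOn_zero_of_preconnected_of_frequently_eq_zero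
    (convex_ball (x₁ : ℂ) δ).isPreconnected (mem_ball_self hδ) hfreq hz
  exact eq_neg_of_add_eq_zero_left h0

end Pool.Agent.Lib.MP250511.SB
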