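import Pool.Agent.Lib.MP_250511_an.SB.Spec

set_option autoImplicit false

namespace Pool.Agent.Lib.MP250511.SB

open Complex Metric Set Filter Topology
open scoped Real ComplexConjugate

namespace KEM

/-- `g*` -/
noncomputable def gs (g : ℂ → ℂ) : ℂ → ℂ := fun z => conj (g (conj z))

theorem gs_hasDerivAt {g : ℂ → ℂ} {z : ℂ} (h : DifferentiableAt ℂ g (conj z)) :
    HasDerivAt (gs g) (conj (deriv g (conj z))) z := by
  have h1 := h.hasDerivAt.conj_conj
  rw [Complex.conj_conj] at h1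
  exact h1

theorem eqOn {f g : ℂ → ℂ} {Ω : Set ℂ} (P : Pair f g Ω) (h1 : deriv f 0 = 1)
    (hst : StarConvex ℝ (0 : ℂ) Ω) {V : Set ℂ} (hVo : IsOpen V) (hVne : V.Nonempty)
    (hV0 : (0 : ℂ) ∉ V) (hVΩ : V ⊆ Ω) (hVs : ∀ z ∈ V, conj z ∈ Ω)
    (hlog : ∀ z ∈ V, deriv g z / g z = conj (deriv g (conj z) / g (conj z))) :
    ∀ z ∈ Ω, conj z ∈ Ω → g z = gs g z := by
  have h0 : (0 : ℂ) ∈ Ω := by
    rw [← P.im]
    exact ⟨0, mem_ball_self one_pos, P.zero⟩
  have g0 : g 0 = 0 := by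
    have := P.GF 0 (mem_ball_self one_pos)
    rwa [P.zero] at this
  have dg0 : deriv g 0 = 1 := by
    have := P.dGF 0 (mem_ball_self one_pos)
    rwa [P.zero, h1, mul_one] at this
  have gne : ∀ z ∈ Ω, z ≠ 0 → g z ≠ 0 := by
    intro z hz hz0 hgz
    apply hz0
    rw [← P.FG z hz, hgz, P.zero]
  set U : Set ℂ := Ω ∩ {z | conj z ∈ Ω} with hU
  have hUo : IsOpen U := P.op.inter (P.op.preimage Complex.continuous_conj)
  have hU0 : (0 : ℂ) ∈ U := ⟨h0, by
    change conj (0 : ℂ) ∈ Ω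
    rw [map_zero]
    exact h0⟩
  have hUs : StarConvex ℝ (0 : ℂ) U := by
    apply hst.inter
    intro y hy a b ha hb hab
    change conj (a • (0 : ℂ) + b • y) ∈ Ω
    have e : conj (a • (0 : ℂ) + b • y) = (b : ℂ) * conj y := by
      simp [Complex.real_smul]
    rw [e]
    exact star_mul hst hy hb (by linarith)
  have hUc : IsPreconnected U := (hUs.isPathConnected hU0).isConnected.isPreconnected
  have hgd : DifferentiableOn ℂ g Ω := P.gan.differentiableOn
  have hga : ∀ z ∈ Ω, DifferentiableAt ℂ g z := fun z hz =>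
    hgd.differentiableAt (P.op.mem_nhds hz)
  have hgsd : DifferentiableOn ℂ (gs g) U := fun z hz =>
    (gs_hasDerivAt (hga _ hz.2)).differentiableAt.differentiableWithinAt
  have hUn : U ∈ 𝓝 (0 : ℂ) := hUo.mem_nhds hU0
  have gs0 : gs g 0 = 0 := by
    change conj (g (conj 0)) = 0
    rw [map_zero, g0, map_zero]
  have dgs0 : deriv (gs g) 0 = 1 := by
    have h2 : conj (0 : ℂ) ∈ Ω := hU0.2
    rw [(gs_hasDerivAt (hga _ h2)).deriv, map_zero, dg0, map_one]
  set a : ℂ → ℂ := dslope g 0 with ha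
  set b : ℂ → ℂ := dslope (gs g) 0 with hb
  have had : DifferentiableOn ℂ a U :=
    (Complex.differentiableOn_dslope hUn).2 (hgd.mono inter_subset_left)
  have hbd : DifferentiableOn ℂ b U := (Complex.differentiableOn_dslope hUn).2 hgsd
  have a0 : a 0 = 1 := by rw [ha, dslope_same, dg0]
  have b0 : b 0 = 1 := by rw [hb, dslope_same, dgs0]
  have az : ∀ z, z ≠ 0 → a z = g z / z := by
    intro z hz
    rw [ha, dslope_of_ne _ hz, slope_def_field, g0, sub_zero, sub_zero]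
  have bz : ∀ z, z ≠ 0 → b z = gs g z / z := by
    intro z hz
    rw [hb, dslope_of_ne _ hz, slope_def_field, gs0, sub_zero, sub_zero]
  have ane : ∀ z ∈ U, a z ≠ 0 := by
    intro z hz
    by_cases hz0 : z = 0
    · rw [hz0, a0]
      exact one_ne_zero
    · rw [az z hz0]
      exact div_ne_zero (gne z hz.1 hz0) hz0
  have hh : AnalyticOnNhd ℂ (fun z => b z / a z) U := (hbd.div had ane).analyticOnNhd hUo
  have hz' : ∀ z, z ≠ 0 → b z / a z = gs g z / g z := by
    intro z hz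
    rw [az z hz, bz z hz, div_div_div_cancel_right₀ hz]
  obtain ⟨z₀, hz₀⟩ := hVne
  obtain ⟨r, hr, hball⟩ := Metric.isOpen_iff.1 hVo z₀ hz₀
  have hd : ∀ z ∈ V, HasDerivAt (fun z => gs g z / g z) 0 z := by
    intro z hz
    have hz0 : z ≠ 0 := fun h => hV0 (h ▸ hz)
    have e1 := (gs_hasDerivAt (hga _ (hVs z hz))).div (hga z (hVΩ hz)).hasDerivAt
      (gne z (hVΩ hz) hz0)
    have hcz : conj z ≠ 0 := fun h => hz0 ((map_eq_zero _).1 h)
    have hne : g (conj z) ≠ 0 := gne _ (hVs z hz) hcz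
    have hgsz : gs g z ≠ 0 := fun h => hne ((map_eq_zero _).1 h)
    have e2 := hlog z hz
    rw [map_div₀] at e2
    change deriv g z / g z = conj (deriv g (conj z)) / gs g z at e2
    rw [div_eq_div_iff (gne z (hVΩ hz) hz0) hgsz] at e2
    have e3 : (conj (deriv g (conj z)) * g z - gs g z * deriv g z) / g z ^ 2 = 0 := by
      rw [← e2, mul_comm (gs g z), sub_self, zero_div]
    rw [e3] at e1
    exact e1
  obtain ⟨c, hc⟩ := isOpen_ball.exists_is_const_of_deriv_eq_zero (s := ball z₀ r)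
    (f := fun z => gs g z / g z) (convex_ball z₀ r).isPreconnected
    (fun z hz => (hd z (hball hz)).differentiableAt.differentiableWithinAt)
    (fun z hz => (hd z (hball hz)).deriv)
  have hev : (fun z => b z / a z) =ᶠ[𝓝 z₀] fun _ => c := by
    filter_upwards [ball_mem_nhds z₀ hr] with z hz
    have hz0 : z ≠ 0 := fun h => hV0 (h ▸ hball hz)
    rw [hz' z hz0]
    exact hc z hz
  have hEq := hh.eqOn_of_preconnected_of_eventuallyEq analyticOnNhd_const hUc
    (⟨hVΩ hz₀, hVs z₀ hz₀⟩ : z₀ ∈ U) hev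
  have hc1 : c = 1 := by
    have h2 : b 0 / a 0 = c := hEq hU0
    rw [a0, b0, div_one] at h2
    exact h2.symm
  intro z hz hcz
  by_cases hz0 : z = 0
  · rw [hz0, g0, gs0]
  · have h2 : b z / a z = c := hEq (⟨hz, hcz⟩ : z ∈ U)
    rw [hz' z hz0, hc1, div_eq_one_iff_eq (gne z hz hz0)] at h2
    exact h2.symm

end KEM

open KEM in
theorem specKE : SpecKE := by
  intro f g Ω P h1 hst V hVo hVne hV0 hVΩ hVs hlog z hz
  by_contra hcz
  have key := eqOn P h1 hst hVo hVne hV0 hVΩ hVs hlog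
  have h0 : (0 : ℂ) ∈ Ω := by
    rw [← P.im]
    exact ⟨0, mem_ball_self one_pos, P.zero⟩
  have hcont : Continuous fun s : ℝ => conj ((s : ℂ) * z) :=
    Complex.continuous_conj.comp (Complex.continuous_ofReal.mul continuous_const)
  let A : Set ℝ := {s | 0 ≤ s ∧ s ≤ 1 ∧ conj ((s : ℂ) * z) ∉ Ω}
  have hAc : IsClosed A := by
    have e : A = Icc 0 1 ∩ (fun s : ℝ => conj ((s : ℂ) * z)) ⁻¹' Ωᶜ := by
      ext s
      constructor
      · rintro ⟨a, b, c⟩
        exact ⟨⟨a, b⟩, c⟩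
      · rintro ⟨⟨a, b⟩, c⟩
        exact ⟨a, b, c⟩
    rw [e]
    exact isClosed_Icc.inter (P.op.isClosed_compl.preimage hcont)
  have hAne : A.Nonempty := ⟨1, zero_le_one, le_refl _, by
    rw [Complex.ofReal_one, one_mul]
    exact hcz⟩
  have hAb : BddBelow A := ⟨0, fun s hs => hs.1⟩
  set t : ℝ := sInf A with ht
  have htA : t ∈ A := hAc.csInf_mem hAne hAb
  have htpos : 0 < t := by
    rcases htA.1.lt_or_eq with h | h
    · exact h
    · exfalso
      apply htA.2.2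
      rw [← h, Complex.ofReal_zero, zero_mul, map_zero]
      exact h0
  have hlt : ∀ s : ℝ, 0 ≤ s → s < t → conj ((s : ℂ) * z) ∈ Ω := by
    intro s hs hst'
    by_contra hcon
    have : t ≤ s := csInf_le hAb ⟨hs, hst'.le.trans htA.2.1, hcon⟩
    exact absurd hst' (not_lt.2 this)
  have hz₂ : (t : ℂ) * z ∈ Ω := star_mul hst hz htA.1 htA.2.1
  have hnorm : ‖g ((t : ℂ) * z)‖ < 1 := P.gm _ hz₂
  set q : ℝ := (1 + ‖g ((t : ℂ) * z)‖) / 2 with hq
  have hq1 : q < 1 := by rw [hq]; linarith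
  have hq2 : ‖g ((t : ℂ) * z)‖ < q := by rw [hq]; linarith
  obtain ⟨δ, hδ, hbd⟩ := P.bd (conj ((t : ℂ) * z)) htA.2.2 q hq1
  have hmul : Continuous fun s : ℝ => (s : ℂ) * z :=
    Complex.continuous_ofReal.mul continuous_const
  have ev1 : ∀ᶠ s : ℝ in 𝓝[<] t, ‖g ((s : ℂ) * z)‖ < q := by
    have hg : ContinuousAt (fun s : ℝ => ‖g ((s : ℂ) * z)‖) t := by
      have h2 : ContinuousAt g ((t : ℂ) * z) := (P.gan _ hz₂).continuousAt
      exact (ContinuousAt.comp (f := fun s : ℝ => (s : ℂ) * z) h2 hmul.continuousAt).norm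
    exact (hg.eventually_lt_const hq2).filter_mono nhdsWithin_le_nhds
  have ev2 : ∀ᶠ s : ℝ in 𝓝[<] t, dist (conj ((s : ℂ) * z)) (conj ((t : ℂ) * z)) < δ := by
    have h2 : ∀ᶠ s : ℝ in 𝓝 t, conj ((s : ℂ) * z) ∈ ball (conj ((t : ℂ) * z)) δ :=
      hcont.continuousAt.eventually_mem (ball_mem_nhds _ hδ)
    exact h2.filter_mono nhdsWithin_le_nhds
  have ev3 : ∀ᶠ s : ℝ in 𝓝[<] t, 0 < s :=
    (eventually_gt_nhds htpos).filter_mono nhdsWithin_le_nhds
  have ev4 : ∀ᶠ s : ℝ in 𝓝[<] t, s < t := eventually_mem_nhdsWithin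
  obtain ⟨s, hs1, hs2, hs3, hs4⟩ := (ev1.and (ev2.and (ev3.and ev4))).exists
  have hsz : (s : ℂ) * z ∈ Ω := star_mul hst hz hs3.le (hs4.le.trans htA.2.1)
  have hsc := hlt s hs3.le hs4
  have h5 := hbd _ hsc hs2
  have h6 := key _ hsz hsc
  have h7 : ‖g ((s : ℂ) * z)‖ = ‖g (conj ((s : ℂ) * z))‖ := by
    rw [h6]
    exact Complex.norm_conj _
  rw [← h7] at h5
  exact lt_asymm h5 hs1

end Pool.Agent.Lib.MP250511.SB
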