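import Pool.Agent.Lib.MP_250511_an.SB.SpecR

/-! Module KER: the kernel `Ker`. -/

set_option autoImplicit false

namespace Pool.Agent.Lib.MP250511.SB

open Complex Metric Set MeasureTheory Filter Topology
open scoped Real ENNReal ComplexConjugate ContDiff

noncomputable section

namespace KERM

theorem cont : Continuous (deriv Real.smoothTransition) :=
  (Real.smoothTransition.contDiff (n := 1)).continuous_deriv le_rfl

theorem zero_of_one_le {x : ℝ} (hx : 1 ≤ x) : deriv Real.smoothTransition x = 0 := by
  apply IsLocalMax.deriv_eq_zero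
  refine Filter.Eventually.of_forall fun y => ?_
  rw [Real.smoothTransition.one_of_one_le hx]
  exact Real.smoothTransition.le_one y

theorem zero_of_nonpos {x : ℝ} (hx : x ≤ 0) : deriv Real.smoothTransition x = 0 := by
  apply IsLocalMin.deriv_eq_zero
  refine Filter.Eventually.of_forall fun y => ?_
  rw [Real.smoothTransition.zero_of_nonpos hx]
  exact Real.smoothTransition.nonneg y

theorem bound : ∃ B : ℝ, 0 ≤ B ∧ ∀ x, |deriv Real.smoothTransition x| ≤ B := by
  obtain ⟨B, hB⟩ := (isCompact_Icc (a := (0 : ℝ)) (b := 1)).exists_bound_of_continuousOn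
    cont.continuousOn
  refine ⟨max B 0, le_max_right _ _, fun x => ?_⟩
  rcases le_or_gt x 0 with h1 | h1
  · rw [zero_of_nonpos h1, abs_zero]
    exact le_max_right _ _
  rcases le_or_gt 1 x with h2 | h2
  · rw [zero_of_one_le h2, abs_zero]
    exact le_max_right _ _
  · exact (hB x ⟨h1.le, h2.le⟩).trans (le_max_left _ _)

end KERM

theorem specKER : SpecKER := by
  refine ⟨fun r hr => ⟨?_, ?_, ?_, ?_⟩, ?_⟩
  · unfold Ker
    apply Complex.continuous_ofReal.comp
    apply Continuous.div_const
    apply KERM.cont.comp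
    exact continuous_const.sub ((continuous_norm.pow 2).div_const _)
  · intro z hz
    unfold Ker
    have h1 : (1 : ℝ) ≤ 2 - ‖z‖ ^ 2 / r ^ 2 := by
      have h2 : ‖z‖ ^ 2 / r ^ 2 ≤ 1 := by
        rw [div_le_one (by positivity)]
        exact pow_le_pow_left₀ (norm_nonneg z) hz 2
      linarith
    rw [KERM.zero_of_one_le h1, zero_div, Complex.ofReal_zero]
  · intro z hz
    unfold Ker
    have h1 : 2 - ‖z‖ ^ 2 / r ^ 2 ≤ 0 := by
      have h2 : 2 ≤ ‖z‖ ^ 2 / r ^ 2 := by
        rw [le_div_iff₀ (by positivity)]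
        exact hz
      linarith
    rw [KERM.zero_of_nonpos h1, zero_div, Complex.ofReal_zero]
  · intro z
    unfold Ker
    rw [norm_neg]
  · obtain ⟨B, hB, hb⟩ := KERM.bound
    refine ⟨B, hB, fun r hr z => ?_⟩
    unfold Ker
    rw [Complex.norm_real, Real.norm_eq_abs, abs_div, abs_of_pos (show (0 : ℝ) < r ^ 2 by positivity)]
    exact div_le_div_of_nonneg_right (hb _) (by positivity)

end

end Pool.Agent.Lib.MP250511.SB
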