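import Pool.Agent.Lib.MP_250511_an.SB.SpecR

/-!
# MP_250511_an, module LAU: the Laurent expansion of the quadratic differential at the origin
-/

set_option autoImplicit false

namespace Pool.Agent.Lib.MP250511.SB

open Complex Metric Set MeasureTheory Filter Topology
open scoped Real ENNReal ComplexConjugate ContDiff

theorem specLAU : SpecLAU := by
  intro f g Ω hp hf1
  have h0b : (0 : ℂ) ∈ ball (0 : ℂ) 1 := mem_ball_self one_pos
  have hf0 : f 0 = 0 := hp.zero
  have h0Ω : (0 : ℂ) ∈ Ω := by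
    rw [← hp.im]
    exact ⟨0, h0b, hf0⟩
  have hg0 : g 0 = 0 := by
    have := hp.GF 0 h0b
    rwa [hf0] at this
  have hg1 : deriv g 0 = 1 := by
    have := hp.dGF 0 h0b
    rwa [hf0, hf1, mul_one] at this
  have hnhds : Ω ∈ 𝓝 (0 : ℂ) := hp.op.mem_nhds h0Ω
  have hgd : DifferentiableOn ℂ g Ω := hp.gan.differentiableOn
  have hsd : DifferentiableOn ℂ (dslope g 0) Ω := (Complex.differentiableOn_dslope hnhds).2 hgd
  have hsa : AnalyticOnNhd ℂ (dslope g 0) Ω := hsd.analyticOnNhd hp.op
  have hs0 : dslope g 0 0 = 1 := by rw [dslope_same, hg1]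
  have hmul : ∀ z, z * dslope g 0 z = g z := by
    intro z
    have := sub_smul_dslope g 0 z
    rwa [sub_zero, hg0, sub_zero, smul_eq_mul] at this
  have hne : ∀ z ∈ Ω, dslope g 0 z ≠ 0 := by
    intro z hz h
    by_cases h0 : z = 0
    · rw [h0, hs0] at h
      exact one_ne_zero h
    · have h1 : g z = 0 := by rw [← hmul z, h, mul_zero]
      have h2 := hp.FG z hz
      rw [h1, hf0] at h2
      exact h0 h2.symm
  refine ⟨fun z => (deriv g z / dslope g 0 z) ^ 2, ?_, ?_, ?_⟩
  · intro z hz
    exact (((hp.gan z hz).deriv).div (hsa z hz) (hne z hz)).pow 2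
  · simp only [hg1, hs0, div_one, one_pow]
  · intro z hz h0
    simp only [qG]
    rw [← hmul z]
    have := hne z hz
    field_simp

end Pool.Agent.Lib.MP250511.SB
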