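import Pool.Agent.Lib.MP_250511_an.SB.Spec
import Pool.Agent.Lib.MP_250511_an.INV

/-!
# MP_250511_an : module LBD.  Local bounds from the covering constant.
-/

set_option autoImplicit false

namespace Pool.Agent.Lib.MP250511.SB

open Complex Metric Set MeasureTheory Filter Topology
open scoped Real ENNReal ComplexConjugate ContDiff

noncomputable section

namespace LBDM

/-- the Moebius map of the disc which sends `0` to `a` -/
def ph (a ζ : ℂ) : ℂ := (ζ + a) / (1 + conj a * ζ)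

theorem den_ne {a ζ : ℂ} (ha : ‖a‖ < 1) (hζ : ‖ζ‖ < 1) : 1 + conj a * ζ ≠ 0 := by
  intro h
  have h1 : conj a * ζ = -1 := by linear_combination h
  have h2 : ‖conj a * ζ‖ = 1 := by rw [h1, norm_neg, norm_one]
  rw [norm_mul, Complex.norm_conj] at h2
  nlinarith [norm_nonneg a, norm_nonneg ζ]

theorem ph_lt {a ζ : ℂ} (ha : ‖a‖ < 1) (hζ : ‖ζ‖ < 1) : ‖ph a ζ‖ < 1 := by
  have hd := den_ne ha hζ
  have hdp : 0 < ‖1 + conj a * ζ‖ := norm_pos_iff.2 hd
  rw [ph, norm_div, div_lt_one hdp]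
  have hkey : ‖1 + conj a * ζ‖ ^ 2 - ‖ζ + a‖ ^ 2 = (1 - ‖a‖ ^ 2) * (1 - ‖ζ‖ ^ 2) := by
    rw [← Complex.normSq_eq_norm_sq, ← Complex.normSq_eq_norm_sq, ← Complex.normSq_eq_norm_sq,
      ← Complex.normSq_eq_norm_sq]
    simp only [Complex.normSq_apply, Complex.add_re, Complex.add_im, Complex.mul_re,
      Complex.mul_im, Complex.conj_re, Complex.conj_im, Complex.one_re, Complex.one_im]
    ring
  have h1 : 0 < (1 - ‖a‖ ^ 2) * (1 - ‖ζ‖ ^ 2) := by
    apply mul_pos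
    · nlinarith [norm_nonneg a]
    · nlinarith [norm_nonneg ζ]
  have h2 : ‖ζ + a‖ ^ 2 < ‖1 + conj a * ζ‖ ^ 2 := by linarith
  exact lt_of_pow_lt_pow_left₀ 2 hdp.le h2

theorem aa {a : ℂ} (ha : ‖a‖ < 1) : (1 : ℂ) - conj a * a ≠ 0 := by
  intro h
  have h1 : conj a * a = 1 := by linear_combination -h
  have h2 : ‖conj a * a‖ = 1 := by rw [h1, norm_one]
  rw [norm_mul, Complex.norm_conj] at h2
  nlinarith [norm_nonneg a]

theorem ph_inj {a : ℂ} (ha : ‖a‖ < 1) : InjOn (ph a) (ball 0 1) := by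
  intro ζ hζ ξ hξ h
  rw [mem_ball_zero_iff] at hζ hξ
  rw [ph, ph, div_eq_div_iff (den_ne ha hζ) (den_ne ha hξ)] at h
  have h1 : (1 - conj a * a) * (ζ - ξ) = 0 := by linear_combination h
  rcases mul_eq_zero.1 h1 with h2 | h2
  · exact absurd h2 (aa ha)
  · exact sub_eq_zero.1 h2

theorem ph_an {a : ℂ} (ha : ‖a‖ < 1) : AnalyticOnNhd ℂ (ph a) (ball 0 1) := by
  intro ζ hζ
  rw [mem_ball_zero_iff] at hζ
  exact (analyticAt_id.add analyticAt_const).div
    (analyticAt_const.add (analyticAt_const.mul analyticAt_id)) (den_ne ha hζ)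

theorem ph_deriv (a : ℂ) : HasDerivAt (ph a) (1 - conj a * a) 0 := by
  have h1 : HasDerivAt (fun ζ : ℂ => ζ + a) 1 0 := (hasDerivAt_id (0 : ℂ)).add_const a
  have h2 : HasDerivAt (fun ζ : ℂ => 1 + conj a * ζ) (conj a) 0 := by
    have := ((hasDerivAt_id (0 : ℂ)).const_mul (conj a)).const_add (1 : ℂ)
    simpa using this
  have h3 := h1.div h2 (by simp)
  have h4 : ((1 : ℂ) * (1 + conj a * 0) - (0 + a) * conj a) / (1 + conj a * 0) ^ 2 =
      1 - conj a * a := by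
    simp only [mul_zero, add_zero, one_pow, div_one, zero_add]
    ring
  rw [h4] at h3
  exact h3

theorem ph_zero (a : ℂ) : ph a 0 = a := by
  simp [ph]

theorem norm_aa {a : ℂ} (ha : ‖a‖ < 1) : ‖(1 : ℂ) - conj a * a‖ = 1 - ‖a‖ ^ 2 := by
  have h1 : (1 : ℂ) - conj a * a = ((1 - ‖a‖ ^ 2 : ℝ) : ℂ) := by
    rw [← Complex.normSq_eq_conj_mul_self, Complex.normSq_eq_norm_sq]
    push_cast
    ring
  rw [h1, Complex.norm_real, Real.norm_of_nonneg]
  nlinarith [norm_nonneg a]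

theorem bound_deriv (hBLO : SpecBLO) {f : ℂ → ℂ} (hf : Univ f) (hr : rho f ≤ ENNReal.ofReal 2)
    {a : ℂ} (ha : ‖a‖ < 1) : ‖deriv f a‖ ≤ 4 / (1 - ‖a‖) := by
  have hD : IsOpen (ball (0 : ℂ) 1) := isOpen_ball
  have hc : IsPreconnected (ball (0 : ℂ) 1) := (convex_ball 0 1).isPreconnected
  have haD : a ∈ ball (0 : ℂ) 1 := mem_ball_zero_iff.2 ha
  have hne : deriv f a ≠ 0 := INVM.deriv_ne_of_inj hD hc hf.an.differentiableOn hf.inj haD
  set μ : ℂ := deriv f a * (1 - conj a * a) with hμ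
  have hμ0 : μ ≠ 0 := mul_ne_zero hne (aa ha)
  have hμp : 0 < ‖μ‖ := norm_pos_iff.2 hμ0
  set h : ℂ → ℂ := fun ζ => (f (ph a ζ) - f a) / μ with hh
  have hmaps : ∀ ζ ∈ ball (0 : ℂ) 1, ph a ζ ∈ ball (0 : ℂ) 1 := by
    intro ζ hζ
    rw [mem_ball_zero_iff] at hζ ⊢
    exact ph_lt ha hζ
  have hU : Univ h := by
    refine ⟨?_, ?_, ?_, ?_⟩
    · intro ζ hζ
      have h1 : AnalyticAt ℂ (fun w => f (ph a w)) ζ :=
        AnalyticAt.fun_comp (hf.an _ (hmaps ζ hζ)) (ph_an ha ζ hζ)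
      exact (h1.sub analyticAt_const).div analyticAt_const hμ0
    · intro ζ hζ ξ hξ he
      have h1 : (f (ph a ζ) - f a) / μ = (f (ph a ξ) - f a) / μ := he
      rw [div_left_inj' hμ0, sub_left_inj] at h1
      exact ph_inj ha hζ hξ (hf.inj (hmaps ζ hζ) (hmaps ξ hξ) h1)
    · change (f (ph a 0) - f a) / μ = 0
      rw [ph_zero, sub_self, zero_div]
    · have h1 : HasDerivAt f (deriv f a) (ph a 0) := by
        rw [ph_zero]
        exact (hf.an a haD).differentiableAt.hasDerivAt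
      have h2 : HasDerivAt (fun w => f (ph a w)) (deriv f a * (1 - conj a * a)) 0 :=
        HasDerivAt.comp (0 : ℂ) h1 (ph_deriv a)
      have h3 := (h2.sub_const (f a)).div_const μ
      have h4 : deriv h 0 = deriv f a * (1 - conj a * a) / μ := h3.deriv
      rw [h4, ← hμ, div_self hμ0]
  have hrho : rho h ≤ ENNReal.ofReal (2 / ‖μ‖) := by
    unfold rho
    refine iSup_le fun c => iSup_le fun r => iSup_le fun hcr => ?_
    apply ENNReal.ofReal_le_ofReal
    rw [le_div_iff₀ hμp]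
    have hsub : ball (μ * c + f a) (r * ‖μ‖) ⊆ f '' ball 0 1 := by
      intro w hw
      have h1 : (w - f a) / μ ∈ ball c r := by
        rw [mem_ball, dist_eq_norm] at hw ⊢
        have h2 : (w - f a) / μ - c = (w - (μ * c + f a)) / μ := by
          field_simp
          ring
        rw [h2, norm_div, div_lt_iff₀ hμp]
        exact hw
      obtain ⟨ζ, hζ, he⟩ := hcr h1
      refine ⟨ph a ζ, hmaps ζ hζ, ?_⟩
      have h3 : (f (ph a ζ) - f a) / μ = (w - f a) / μ := he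
      rw [div_left_inj' hμ0, sub_left_inj] at h3
      exact h3
    have h5 : ENNReal.ofReal (r * ‖μ‖) ≤ rho f := by
      unfold rho
      exact le_iSup_of_le (μ * c + f a) (le_iSup_of_le (r * ‖μ‖) (le_iSup_of_le hsub le_rfl))
    have h6 := h5.trans hr
    rwa [ENNReal.ofReal_le_ofReal_iff (by norm_num)] at h6
  have hS : S ≤ rho h := by
    unfold S
    exact iInf_le_of_le h (iInf_le_of_le hU le_rfl)
  have h7 : ENNReal.ofReal (3 / 5) ≤ ENNReal.ofReal (2 / ‖μ‖) := (hBLO.trans hS).trans hrho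
  rw [ENNReal.ofReal_le_ofReal_iff (by positivity), le_div_iff₀ hμp] at h7
  have h8 : ‖μ‖ = ‖deriv f a‖ * (1 - ‖a‖ ^ 2) := by
    rw [hμ, norm_mul, norm_aa ha]
  rw [h8] at h7
  have h9 : 0 < 1 - ‖a‖ := by linarith
  rw [le_div_iff₀ h9]
  have h10 : 0 ≤ ‖deriv f a‖ * (1 - ‖a‖) := mul_nonneg (norm_nonneg _) h9.le
  nlinarith [mul_nonneg h10 (norm_nonneg a)]

end LBDM

open LBDM in
theorem specLBD (hBLO : SpecBLO) : SpecLBD := by
  intro f hf hr z hz
  rw [mem_ball_zero_iff] at hz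
  have h1 : 0 < 1 - ‖z‖ := by linarith
  have hb : ∀ w ∈ closedBall (0 : ℂ) ‖z‖, ‖deriv f w‖ ≤ 4 / (1 - ‖z‖) := by
    intro w hw
    rw [mem_closedBall_zero_iff] at hw
    refine (bound_deriv hBLO hf hr (hw.trans_lt hz)).trans ?_
    exact div_le_div_of_nonneg_left (by norm_num) h1 (by linarith)
  have hd : ∀ w ∈ closedBall (0 : ℂ) ‖z‖, DifferentiableAt ℂ f w := by
    intro w hw
    rw [mem_closedBall_zero_iff] at hw
    exact (hf.an w (mem_ball_zero_iff.2 (hw.trans_lt hz))).differentiableAt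
  have h2 := (convex_closedBall (0 : ℂ) ‖z‖).norm_image_sub_le_of_norm_deriv_le hd hb
    (x := 0) (y := z) (by simp) (by simp)
  rw [hf.zero, sub_zero, sub_zero] at h2
  refine h2.trans ?_
  have h3 : 0 ≤ 4 / (1 - ‖z‖) := by positivity
  nlinarith [norm_nonneg z]

end

end Pool.Agent.Lib.MP250511.SB
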