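import Pool.Agent.Lib.MP_250511_an.SB.SpecF

/-!
# MP_250511_an, SB, module LCF
-/

set_option autoImplicit false

namespace Pool.Agent.Lib.MP250511.SB

open Complex Metric Set MeasureTheory Filter Topology
open scoped Real ENNReal ComplexConjugate ContDiff

namespace LCFM

/-- `qG g` is continuous off `0`. -/
lemma cont_qG {f g : ℂ → ℂ} {Ω : Set ℂ} (h : Pair f g Ω) {W : Set ℂ} (hW : W ⊆ Ω)
    (h0 : (0 : ℂ) ∉ W) : ContinuousOn (qG g) W := by
  have hg : ContinuousOn g W := h.gan.continuousOn.mono hW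
  have hd : ContinuousOn (deriv g) W := h.gan.deriv.continuousOn.mono hW
  have hne : ∀ z ∈ W, g z ≠ 0 := by
    intro z hz hgz
    apply h0
    have h1 := h.FG z (hW hz)
    rw [hgz, h.zero] at h1
    rw [h1]
    exact hz
  exact (hd.div hg hne).pow 2

/-- `qG g` does not vanish off `0`. -/
lemma qG_ne {f g : ℂ → ℂ} {Ω : Set ℂ} (h : Pair f g Ω) {z : ℂ} (hz : z ∈ Ω) (h0 : z ≠ 0) :
    qG g z ≠ 0 := by
  have hgz : g z ≠ 0 := by
    intro hgz
    apply h0
    have h1 := h.FG z hz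
    rw [hgz, h.zero] at h1
    exact h1.symm
  exact pow_ne_zero 2 (div_ne_zero (h.dG z hz) hgz)

end LCFM

open LCFM in
theorem specLCF (hKCL : SpecKCL) (hINQ : SpecINQ) (hVRF : SpecVRF) (hWEY : SpecWEY) :
    SpecLCF := by
  classical
  intro f g Ω ρ h z₀ hz₀ hK
  have hcl : IsClosed (KK Ω ρ) := (hKCL Ω ρ h.pos h.op).1
  obtain ⟨δa, hδa, hba⟩ := Metric.isOpen_iff.1 hcl.isOpen_compl z₀ hK
  have hnz : 0 < ‖z₀‖ := norm_pos_iff.2 hz₀
  set δ₁ := min δa (‖z₀‖ / 2) with hδ₁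
  have hδpos : 0 < δ₁ := lt_min hδa (by linarith)
  have hδle : δ₁ ≤ ‖z₀‖ / 2 := min_le_right _ _
  have hdisj : Disjoint (ball z₀ δ₁) (KK Ω ρ) := by
    rw [Set.disjoint_left]
    intro z hz hzK
    exact hba (ball_subset_ball (min_le_left _ _) hz) hzK
  have h0 : (0 : ℂ) ∉ closedBall z₀ δ₁ := by
    rw [mem_closedBall, dist_eq_norm, zero_sub, norm_neg]
    intro h1
    linarith
  have hΩm : MeasurableSet Ω := h.op.measurableSet
  have hint : IntegrableOn (Ω.indicator (qG g)) (ball z₀ δ₁) := by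
    have h1 : IntegrableOn (qG g) Ω (volume.restrict (ball z₀ δ₁)) := by
      unfold IntegrableOn
      rw [Measure.restrict_restrict hΩm]
      exact hINQ f g Ω h.toPair z₀ δ₁ h0
    exact (integrable_indicator_iff hΩm).2 h1
  obtain ⟨k, hk, hae⟩ := hWEY z₀ δ₁ (Ω.indicator (qG g)) hδpos hint (by
    intro v hv hvc hvs
    have h1 : (fun z => dB v z * Ω.indicator (qG g) z) =
        Ω.indicator (fun z => dB v z * qG g z) := by
      funext z
      by_cases hz : z ∈ Ω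
      · rw [Set.indicator_of_mem hz, Set.indicator_of_mem hz]
      · rw [Set.indicator_of_notMem hz, Set.indicator_of_notMem hz, mul_zero]
    rw [h1, setIntegral_indicator hΩm, Set.inter_comm]
    exact hVRF f g Ω ρ h z₀ δ₁ hδpos h0 hdisj v hv hvc hvs)
  have hsub : ball z₀ (δ₁ / 2) ⊆ ball z₀ δ₁ := ball_subset_ball (by linarith)
  have h0' : (0 : ℂ) ∉ ball z₀ (δ₁ / 2) := by
    intro h1
    exact h0 (ball_subset_closedBall (hsub h1))
  have hU : IsOpen (Ω ∩ ball z₀ (δ₁ / 2)) := h.op.inter isOpen_ball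
  have hc1 : ContinuousOn (qG g) (Ω ∩ ball z₀ (δ₁ / 2)) :=
    cont_qG h.toPair Set.inter_subset_left (fun h1 => h0' h1.2)
  have hc2 : ContinuousOn k (Ω ∩ ball z₀ (δ₁ / 2)) :=
    hk.continuousOn.mono Set.inter_subset_right
  have hae1 : ∀ᵐ z ∂(volume.restrict (Ω ∩ ball z₀ (δ₁ / 2))), Ω.indicator (qG g) z = k z :=
    ae_restrict_of_ae_restrict_of_subset Set.inter_subset_right hae
  have hae2 : ∀ᵐ z ∂(volume.restrict (Ω ∩ ball z₀ (δ₁ / 2))), z ∈ Ω ∩ ball z₀ (δ₁ / 2) :=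
    ae_restrict_mem hU.measurableSet
  have hae3 : qG g =ᵐ[volume.restrict (Ω ∩ ball z₀ (δ₁ / 2))] k := by
    filter_upwards [hae1, hae2] with z h1 h2
    rw [← h1, Set.indicator_of_mem h2.1]
  have heq : ∀ z ∈ Ω ∩ ball z₀ (δ₁ / 2), qG g z = k z :=
    fun z hz => Measure.eqOn_open_of_ae_eq hae3 hU hc1 hc2 hz
  refine ⟨δ₁ / 2, by linarith, h0', k, hk, heq, ?_⟩
  rintro ⟨w, hwΩ, hwb⟩
  -- `k` does not vanish almost everywhere on the ball
  have hkw : k w ≠ 0 := by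
    rw [← heq w ⟨hwΩ, hwb⟩]
    exact qG_ne h.toPair hwΩ (fun h1 => h0' (h1 ▸ hwb))
  have hconn : IsConnected (ball z₀ (δ₁ / 2)) :=
    ⟨⟨w, hwb⟩, (convex_ball z₀ (δ₁ / 2)).isPreconnected⟩
  have hcod := hk.preimage_zero_mem_codiscreteWithin hkw hwb hconn
  have hne : ∀ᵐ z ∂(volume.restrict (ball z₀ (δ₁ / 2))), k z ≠ 0 := by
    have h1 := ae_restrict_le_codiscreteWithin (μ := volume)
      (measurableSet_ball (x := z₀) (ε := δ₁ / 2)) hcod
    exact h1
  -- hence almost every point of the ball is in `Ω`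
  have hin : ∀ᵐ z ∂(volume.restrict (ball z₀ (δ₁ / 2))), z ∈ Ω := by
    filter_upwards [hae, hne] with z h1 h2
    by_contra h3
    rw [Set.indicator_of_notMem h3] at h1
    exact h2 h1.symm
  rw [ae_restrict_iff' measurableSet_ball] at hin
  have h2 : {z | ¬ (z ∈ ball z₀ (δ₁ / 2) → z ∈ Ω)} = ball z₀ (δ₁ / 2) \ Ω := by
    ext z
    simp only [Set.mem_setOf_eq, Set.mem_diff, Classical.not_imp]
  rw [← h2]
  exact hin

end Pool.Agent.Lib.MP250511.SB
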