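import Pool.Agent.Lib.MP_250511_an.SB.Spec

/-!
# MP_250511_an, SB: module LIN (linear algebra)
-/

set_option autoImplicit false

namespace Pool.Agent.Lib.MP250511.SB

open Complex
open scoped ComplexConjugate

namespace LINM

theorem lin_apply (l : ℂ →L[ℝ] ℝ) (h : ℂ) : l h = h.re * l 1 + h.im * l I := by
  have h1 : h = h.re • (1 : ℂ) + h.im • I := by
    rw [Complex.real_smul, Complex.real_smul, mul_one]
    exact (Complex.re_add_im h).symm
  conv_lhs => rw [h1]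
  rw [map_add, map_smul, map_smul, smul_eq_mul, smul_eq_mul]

theorem norm_sq (l : ℂ →L[ℝ] ℝ) : ‖l‖ ^ 2 = l 1 ^ 2 + l I ^ 2 := by
  set q : ℂ := ⟨l 1, l I⟩ with hq
  have hq2 : ‖q‖ ^ 2 = l 1 ^ 2 + l I ^ 2 := by
    rw [Complex.sq_norm, Complex.normSq_apply, hq]
    ring
  have h1 : ‖l‖ ≤ ‖q‖ := by
    refine l.opNorm_le_bound (norm_nonneg _) fun h => ?_
    have h2 : l h = (conj q * h).re := by
      rw [lin_apply, Complex.mul_re, Complex.conj_re, Complex.conj_im, hq]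
      ring
    rw [h2, Real.norm_eq_abs]
    refine (Complex.abs_re_le_norm _).trans (le_of_eq ?_)
    rw [norm_mul, Complex.norm_conj]
  have h2 : ‖q‖ ≤ ‖l‖ := by
    rcases (norm_nonneg q).eq_or_lt with h0 | h0
    · rw [← h0]
      exact norm_nonneg _
    · have h3 : l q = ‖q‖ ^ 2 := by
        rw [lin_apply, hq2, hq]
        ring
      have h4 := l.le_opNorm q
      rw [h3, Real.norm_eq_abs, abs_of_nonneg (sq_nonneg _), sq] at h4
      exact le_of_mul_le_mul_right h4 h0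
  rw [← hq2, le_antisymm h1 h2]

end LINM

theorem specLIN : SpecLIN := by
  intro a b p l hab hl
  have e1 := hl 1
  have e2 := hl I
  rw [LINM.lin_apply] at e1 e2
  simp only [map_one, mul_one, Complex.conj_I, mul_neg, Complex.add_re, Complex.add_im,
    Complex.neg_re, Complex.neg_im, Complex.mul_re, Complex.mul_im, Complex.I_re, Complex.I_im,
    mul_zero, zero_sub, add_zero, neg_neg] at e1 e2
  have hD : 0 < ‖a‖ ^ 2 - ‖b‖ ^ 2 := by
    have := pow_lt_pow_left₀ hab (norm_nonneg b) two_ne_zero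
    linarith
  rw [eq_div_iff hD.ne', LINM.norm_sq]
  have ha : ‖a‖ ^ 2 = a.re ^ 2 + a.im ^ 2 := by
    rw [Complex.sq_norm, Complex.normSq_apply]
    ring
  have hb : ‖b‖ ^ 2 = b.re ^ 2 + b.im ^ 2 := by
    rw [Complex.sq_norm, Complex.normSq_apply]
    ring
  have hp : ‖p‖ ^ 2 = p.re ^ 2 + p.im ^ 2 := by
    rw [Complex.sq_norm, Complex.normSq_apply]
    ring
  have hr : (conj a * b * p ^ 2).re = (a.re * b.re + a.im * b.im) * (p.re ^ 2 - p.im ^ 2) -
      (a.re * b.im - a.im * b.re) * (2 * p.re * p.im) := by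
    simp only [sq, Complex.mul_re, Complex.mul_im, Complex.conj_re, Complex.conj_im]
    ring
  rw [ha, hb, hp, hr]
  set x := l 1
  set y := l I
  have f1 : (a.re ^ 2 + a.im ^ 2 - (b.re ^ 2 + b.im ^ 2)) * x =
      -p.re * (a.re - b.re) - (a.im + b.im) * p.im := by
    linear_combination (a.re - b.re) * e1 - (a.im + b.im) * e2
  have f2 : (a.re ^ 2 + a.im ^ 2 - (b.re ^ 2 + b.im ^ 2)) * y =
      (a.re + b.re) * p.im - (a.im - b.im) * p.re := by
    linear_combination (a.im - b.im) * e1 + (a.re + b.re) * e2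
  have f3 : (x ^ 2 + y ^ 2) * (a.re ^ 2 + a.im ^ 2 - (b.re ^ 2 + b.im ^ 2)) *
      (a.re ^ 2 + a.im ^ 2 - (b.re ^ 2 + b.im ^ 2)) =
      ((a.re ^ 2 + a.im ^ 2 - (b.re ^ 2 + b.im ^ 2)) * x) ^ 2 +
      ((a.re ^ 2 + a.im ^ 2 - (b.re ^ 2 + b.im ^ 2)) * y) ^ 2 := by ring
  rw [f3, f1, f2]
  ring

end Pool.Agent.Lib.MP250511.SB
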