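import Pool.Agent.Lib.MP_250511_an.SB.Spec

/-!
# MP_250511_an, SB, module LOC
-/

set_option autoImplicit false

namespace Pool.Agent.Lib.MP250511.SB

open Complex Metric Set MeasureTheory Filter Topology
open scoped Real ENNReal ComplexConjugate ContDiff

namespace LOCM

/-- `qG g` is continuous off `0`. -/
lemma cont_qG {f g : ℂ → ℂ} {Ω : Set ℂ} (h : Pair f g Ω) {W : Set ℂ} (hW : W ⊆ Ω)
    (h0 : (0 : ℂ) ∉ W) : ContinuousOn (qG g) W := by
  have hg : ContinuousOn g W := h.gan.continuousOn.mono hW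
  have hd : ContinuousOn (deriv g) W := h.gan.deriv.continuousOn.mono hW
  have hne : ∀ z ∈ W, g z ≠ 0 := by
    intro z hz hgz
    apply h0
    have h1 := h.FG z (hW hz)
    rw [hgz, h.zero] at h1
    rw [h1]
    exact hz
  exact (hd.div hg hne).pow 2

end LOCM

open LOCM in
theorem specLOC (hKCL : SpecKCL) (hINQ : SpecINQ) (hVAR : SpecVAR) (hWEY : SpecWEY) :
    SpecLOC := by
  classical
  intro f g Ω ρ h z₀ hz₀ hK
  have hcl : IsClosed (KK Ω ρ) := (hKCL Ω ρ h.pos h.op).1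
  obtain ⟨δa, hδa, hba⟩ := Metric.isOpen_iff.1 hcl.isOpen_compl z₀ hK
  have hnz : 0 < ‖z₀‖ := norm_pos_iff.2 hz₀
  set δ₁ := min δa (‖z₀‖ / 2) with hδ₁
  have hδpos : 0 < δ₁ := lt_min hδa (by linarith)
  have hδle : δ₁ ≤ ‖z₀‖ / 2 := min_le_right _ _
  have hdisj : Disjoint (ball z₀ δ₁) (KK Ω ρ) := by
    rw [Set.disjoint_left]
    intro z hz hzK
    exact hba (ball_subset_ball (min_le_left _ _) hz) hzK
  have h0 : (0 : ℂ) ∉ closedBall z₀ δ₁ := by
    rw [mem_closedBall, dist_eq_norm, zero_sub, norm_neg]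
    intro h1
    linarith
  have hΩm : MeasurableSet Ω := h.op.measurableSet
  have hint : IntegrableOn (Ω.indicator (qG g)) (ball z₀ δ₁) := by
    have h1 : IntegrableOn (qG g) Ω (volume.restrict (ball z₀ δ₁)) := by
      unfold IntegrableOn
      rw [Measure.restrict_restrict hΩm]
      exact hINQ f g Ω h.toPair z₀ δ₁ h0
    exact (integrable_indicator_iff hΩm).2 h1
  obtain ⟨k, hk, hae⟩ := hWEY z₀ δ₁ (Ω.indicator (qG g)) hδpos hint (by
    intro v hv hvc hvs
    have h1 : (fun z => dB v z * Ω.indicator (qG g) z) =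
        Ω.indicator (fun z => dB v z * qG g z) := by
      funext z
      by_cases hz : z ∈ Ω
      · rw [Set.indicator_of_mem hz, Set.indicator_of_mem hz]
      · rw [Set.indicator_of_notMem hz, Set.indicator_of_notMem hz, mul_zero]
    rw [h1, setIntegral_indicator hΩm, Set.inter_comm]
    exact hVAR f g Ω ρ h z₀ δ₁ hδpos h0 hdisj v hv hvc hvs)
  have hsub : ball z₀ (δ₁ / 2) ⊆ ball z₀ δ₁ := ball_subset_ball (by linarith)
  have h0' : (0 : ℂ) ∉ ball z₀ (δ₁ / 2) := by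
    intro h1
    exact h0 (ball_subset_closedBall (hsub h1))
  refine ⟨δ₁ / 2, by linarith, hdisj.mono_left hsub, h0', k, hk, ?_⟩
  have hU : IsOpen (Ω ∩ ball z₀ (δ₁ / 2)) := h.op.inter isOpen_ball
  have hc1 : ContinuousOn (qG g) (Ω ∩ ball z₀ (δ₁ / 2)) :=
    cont_qG h.toPair Set.inter_subset_left (fun h1 => h0' h1.2)
  have hc2 : ContinuousOn k (Ω ∩ ball z₀ (δ₁ / 2)) :=
    hk.continuousOn.mono Set.inter_subset_right
  have hae1 : ∀ᵐ z ∂(volume.restrict (Ω ∩ ball z₀ (δ₁ / 2))), Ω.indicator (qG g) z = k z :=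
    ae_restrict_of_ae_restrict_of_subset Set.inter_subset_right hae
  have hae2 : ∀ᵐ z ∂(volume.restrict (Ω ∩ ball z₀ (δ₁ / 2))), z ∈ Ω ∩ ball z₀ (δ₁ / 2) :=
    ae_restrict_mem hU.measurableSet
  have hae3 : qG g =ᵐ[volume.restrict (Ω ∩ ball z₀ (δ₁ / 2))] k := by
    filter_upwards [hae1, hae2] with z h1 h2
    rw [← h1, Set.indicator_of_mem h2.1]
  exact fun z hz => Measure.eqOn_open_of_ae_eq hae3 hU hc1 hc2 hz

end Pool.Agent.Lib.MP250511.SB
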