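import Pool.Agent.Lib.MP_250511_an.SB.SpecE

/-!
# Module MAS: the total mass of the multiplier measure is `1`
-/

set_option autoImplicit false

namespace Pool.Agent.Lib.MP250511.SB

open Complex Metric Set MeasureTheory Filter Topology
open scoped Real ENNReal ComplexConjugate ContDiff

noncomputable section

namespace MASM

theorem zero_mem {f g : ℂ → ℂ} {Ω : Set ℂ} (h : Pair f g Ω) : (0 : ℂ) ∈ Ω := by
  rw [← h.im]
  exact ⟨0, mem_ball_self one_pos, h.zero⟩

end MASM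

theorem specMAS (hCUT : SpecCUT) (hNRA : SpecNRA) (hNRB : SpecNRB) : SpecMAS := by
  intro f g Ω ρ hE ν h1 hC hv
  have hP : Pair f g Ω := hE.toPair
  have h0 : (0 : ℂ) ∈ Ω := MASM.zero_mem hP
  have hop : IsOpen Ω := hP.op
  obtain ⟨s, hs, hsub⟩ := Metric.isOpen_iff.1 hop 0 h0
  have hr : 0 < s / 4 := by positivity
  have hcl : closedBall (0 : ℂ) (2 * (s / 4)) ⊆ Ω :=
    (closedBall_subset_ball (by linarith)).trans hsub
  have hfin : IsFiniteMeasure ν := ⟨lt_of_le_of_lt h1 ENNReal.one_lt_top⟩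
  have hA := hNRA f g Ω hP hE.one (s / 4) hr hcl
  have hB := hNRB Ω ρ ν hE.pos hfin hC (s / 4) hr hcl
  have hA2 : Tendsto (fun n : ℕ => ρ / π * (∫ z in Ω, dB (vR (s / 4) (n + 1)) z * qG g z).re) atTop
      (𝓝 (ρ / π * (π : ℂ).re)) :=
    ((Complex.continuous_re.tendsto _).comp hA).const_mul (ρ / π)
  have heq : (fun n : ℕ => ρ / π * (∫ z in Ω, dB (vR (s / 4) (n + 1)) z * qG g z).re) =
      fun n : ℕ => ∫ x, VF ρ (vR (s / 4) (n + 1)) (bR (n + 1)) x ∂ν := by
    funext n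
    have hn : (0 : ℝ) < (n : ℝ) + 1 := by positivity
    obtain ⟨_, c2, c3, c4, c5, c6, _⟩ := hCUT (s / 4) ((n : ℝ) + 1) hr hn
    exact hv _ _ c2 c3 c4 c5 c6
  rw [heq] at hA2
  have hu := tendsto_nhds_unique hA2 hB
  have hpi : ρ / π * (π : ℂ).re = ρ := by
    rw [Complex.ofReal_re]
    field_simp
  rw [hpi] at hu
  have hone : (ν univ).toReal = 1 := by
    have h3 : ρ * ((ν univ).toReal - 1) = 0 := by linarith
    rcases mul_eq_zero.1 h3 with h4 | h4
    · exact absurd h4 hE.pos.ne'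
    · linarith
  have hne : ν univ ≠ ⊤ := measure_ne_top ν univ
  rw [← ENNReal.ofReal_toReal hne, hone, ENNReal.ofReal_one]

end

end Pool.Agent.Lib.MP250511.SB
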