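import Pool.Agent.Lib.MP_250511_an.SB.SpecU

/-!
# MOM (MP_250511_an): the moments of the contact forces
-/

set_option autoImplicit false

namespace Pool.Agent.Lib.MP250511.SB

open Complex Metric Set MeasureTheory Filter Topology
open scoped Real ENNReal ComplexConjugate ContDiff

noncomputable section

namespace MOMM

/-- a bump: `1` on `‖z‖ ≤ R`, `0` on `R + 1 ≤ ‖z‖` -/
def bump (R : ℝ) (z : ℂ) : ℂ := ((max 0 (min 1 (R + 1 - ‖z‖)) : ℝ) : ℂ)

lemma bump_cont (R : ℝ) : Continuous (bump R) := by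
  unfold bump
  fun_prop

lemma bump_one {R : ℝ} {z : ℂ} (h : ‖z‖ ≤ R) : bump R z = 1 := by
  unfold bump
  rw [min_eq_left (by linarith), max_eq_right (by norm_num)]
  simp

lemma bump_zero {R : ℝ} {z : ℂ} (h : R + 1 ≤ ‖z‖) : bump R z = 0 := by
  unfold bump
  rw [max_eq_left ((min_le_right _ _).trans (by linarith))]
  simp

lemma bump_cs (R : ℝ) (u : ℂ → ℂ) : HasCompactSupport (fun z => bump R z * u z) := by
  refine HasCompactSupport.intro (isCompact_closedBall (0 : ℂ) (R + 1)) fun z hz => ?_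
  have h : R + 1 < ‖z‖ := by simpa using hz
  rw [bump_zero h.le, zero_mul]

lemma aeAll {Ω : Set ℂ} {ρ M : ℝ} {ν : Measure (ℂ × ℂ)} (h0 : ν (CC Ω ρ)ᶜ = 0)
    (hM : ∀ᵐ x ∂ν, ‖x.2‖ ≤ M) :
    ∀ᵐ x ∂ν, ‖x.2 - x.1‖ = ρ ∧ ‖x.2‖ ≤ M ∧ ‖x.1‖ ≤ M + ρ := by
  have h1 : ∀ᵐ x ∂ν, x ∈ CC Ω ρ := by
    rw [ae_iff]
    exact h0
  filter_upwards [h1, hM] with x hx hm
  have hd : ‖x.2 - x.1‖ = ρ := by
    rw [← dist_eq_norm]
    exact hx.2.2
  refine ⟨hd, hm, ?_⟩
  calc ‖x.1‖ = ‖x.2 - (x.2 - x.1)‖ := by congr 1; ring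
    _ ≤ ‖x.2‖ + ‖x.2 - x.1‖ := norm_sub_le _ _
    _ ≤ M + ρ := by rw [hd]; linarith

lemma integ {ρ M : ℝ} {ν : Measure (ℂ × ℂ)} [IsFiniteMeasure ν] (hρ : 0 < ρ)
    (hae : ∀ᵐ x ∂ν, ‖x.2 - x.1‖ = ρ ∧ ‖x.2‖ ≤ M ∧ ‖x.1‖ ≤ M + ρ)
    {u : ℂ × ℂ → ℂ} (hu : Measurable u) (C : ℝ)
    (hC : ∀ x : ℂ × ℂ, ‖x.2‖ ≤ M → ‖x.1‖ ≤ M + ρ → ‖u x‖ ≤ C) :
    Integrable (fun x => conj (x.2 - x.1) * u x) ν := by
  refine Integrable.of_bound (C := ρ * C) ?_ ?_
  · have h1 : Measurable fun x : ℂ × ℂ => conj (x.2 - x.1) :=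
      (continuous_conj.comp (continuous_snd.sub continuous_fst)).measurable
    exact (h1.mul hu).aestronglyMeasurable
  · filter_upwards [hae] with x hx
    rw [norm_mul, RCLike.norm_conj, hx.1]
    exact mul_le_mul_of_nonneg_left (hC x hx.2.1 hx.2.2) hρ.le

lemma equil {ρ M : ℝ} {ν : Measure (ℂ × ℂ)}
    (hae : ∀ᵐ x ∂ν, ‖x.2 - x.1‖ = ρ ∧ ‖x.2‖ ≤ M ∧ ‖x.1‖ ≤ M + ρ)
    (heq : ∀ b : ℂ → ℂ, Continuous b → HasCompactSupport b →
      ∫ x, conj (x.2 - x.1) * b x.1 ∂ν = 0) {u : ℂ → ℂ} (hu : Continuous u) :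
    ∫ x, conj (x.2 - x.1) * u x.1 ∂ν = 0 := by
  rw [← heq (fun z => bump (M + ρ) z * u z) ((bump_cont _).mul hu) (bump_cs _ _)]
  refine integral_congr_ae ?_
  filter_upwards [hae] with x hx
  show conj (x.2 - x.1) * u x.1 = conj (x.2 - x.1) * (bump (M + ρ) x.1 * u x.1)
  rw [bump_one hx.2.2, one_mul]

lemma moment {ρ M : ℝ} {ν : Measure (ℂ × ℂ)} [IsProbabilityMeasure ν] (hρ : 0 < ρ)
    (hae : ∀ᵐ x ∂ν, ‖x.2 - x.1‖ = ρ ∧ ‖x.2‖ ≤ M ∧ ‖x.1‖ ≤ M + ρ)
    (heq : ∀ b : ℂ → ℂ, Continuous b → HasCompactSupport b →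
      ∫ x, conj (x.2 - x.1) * b x.1 ∂ν = 0) :
    ∫ x, conj (x.2 - x.1) * x.2 ∂ν = (ρ : ℂ) ^ 2 := by
  have h1 : ∫ x, conj (x.2 - x.1) * x.2 ∂ν =
      ∫ x, (conj (x.2 - x.1) * x.1 + (ρ : ℂ) ^ 2) ∂ν := by
    refine integral_congr_ae ?_
    filter_upwards [hae] with x hx
    have h2 : conj (x.2 - x.1) * (x.2 - x.1) = (ρ : ℂ) ^ 2 := by
      rw [Complex.conj_mul', hx.1]
    rw [← h2]
    ring
  have h3 : Integrable (fun x : ℂ × ℂ => conj (x.2 - x.1) * x.1) ν :=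
    integ hρ hae measurable_fst (M + ρ) fun x _ hx => hx
  rw [h1, integral_add h3 (integrable_const _), equil hae heq (u := fun z => z) continuous_id]
  simp

lemma nsub {z w : ℂ} {M : ℝ} (hw : ‖w‖ ≤ M) : ‖z‖ - M ≤ ‖z - w‖ := by
  have := norm_sub_norm_le z w
  linarith

lemma bd {z w : ℂ} {M d : ℝ} (hw : ‖w‖ ≤ M) (hd : 0 < d) (hz : M + d ≤ ‖z‖) :
    ‖w ^ 2 / (z - w)‖ ≤ M ^ 2 / d := by
  rw [norm_div, norm_pow]
  have h1 := nsub (z := z) hw
  exact div_le_div₀ (by positivity) (pow_le_pow_left₀ (norm_nonneg _) hw 2) hd (by linarith)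

lemma ne {z w : ℂ} {M : ℝ} (hw : ‖w‖ ≤ M) (hz : M < ‖z‖) : z - w ≠ 0 := by
  intro h
  rw [sub_eq_zero] at h
  subst h
  linarith

lemma J_der {ρ M : ℝ} {ν : Measure (ℂ × ℂ)} [IsFiniteMeasure ν] (hρ : 0 < ρ)
    (hae : ∀ᵐ x ∂ν, ‖x.2 - x.1‖ = ρ ∧ ‖x.2‖ ≤ M ∧ ‖x.1‖ ≤ M + ρ) {z₀ : ℂ} (hz₀ : M < ‖z₀‖) :
    DifferentiableAt ℂ (fun z => ∫ x, conj (x.2 - x.1) * x.2 ^ 2 / (z - x.2) ∂ν) z₀ := by
  set d := (‖z₀‖ - M) / 2 with hdd
  have hd : 0 < d := by rw [hdd]; linarith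
  have hz : ∀ z ∈ ball z₀ d, M + d ≤ ‖z‖ := by
    intro z hz
    rw [mem_ball, dist_eq_norm, norm_sub_rev] at hz
    have := norm_sub_norm_le z₀ z
    linarith
  have hz0' : M + d ≤ ‖z₀‖ := hz z₀ (mem_ball_self hd)
  have h1 : Measurable fun x : ℂ × ℂ => conj (x.2 - x.1) :=
    (continuous_conj.comp (continuous_snd.sub continuous_fst)).measurable
  have key := hasDerivAt_integral_of_dominated_loc_of_deriv_le (μ := ν) (𝕜 := ℂ)
    (F := fun z x => conj (x.2 - x.1) * x.2 ^ 2 / (z - x.2))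
    (F' := fun z x => -(conj (x.2 - x.1) * x.2 ^ 2 / (z - x.2) ^ 2)) (x₀ := z₀)
    (s := ball z₀ d) (bound := fun _ => ρ * (M ^ 2 / d ^ 2)) (ball_mem_nhds _ hd) ?_ ?_ ?_ ?_ ?_ ?_
  · exact key.2.differentiableAt
  · refine Eventually.of_forall fun z => ?_
    exact ((h1.mul (measurable_snd.pow_const 2)).div
      (measurable_const.sub measurable_snd)).aestronglyMeasurable
  · have h2 := integ (u := fun x => x.2 ^ 2 / (z₀ - x.2)) hρ hae
      ((measurable_snd.pow_const 2).div (measurable_const.sub measurable_snd)) (M ^ 2 / d)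
      fun x hx _ => bd hx hd hz0'
    refine h2.congr (ae_of_all _ fun x => ?_)
    show conj (x.2 - x.1) * (x.2 ^ 2 / (z₀ - x.2)) = conj (x.2 - x.1) * x.2 ^ 2 / (z₀ - x.2)
    rw [mul_div_assoc]
  · exact ((h1.mul (measurable_snd.pow_const 2)).div
      ((measurable_const.sub measurable_snd).pow_const 2)).neg.aestronglyMeasurable
  · filter_upwards [hae] with x hx z hzb
    have h3 := nsub (z := z) hx.2.1
    have h4 : d ≤ ‖z - x.2‖ := by
      have := hz z hzb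
      linarith
    rw [norm_neg, norm_div, norm_mul, RCLike.norm_conj, hx.1, norm_pow, norm_pow, mul_div_assoc]
    refine mul_le_mul_of_nonneg_left ?_ hρ.le
    exact div_le_div₀ (by positivity) (pow_le_pow_left₀ (norm_nonneg _) hx.2.1 2) (by positivity)
      (pow_le_pow_left₀ hd.le h4 2)
  · exact integrable_const _
  · filter_upwards [hae] with x hx z hzb
    have hne : z - x.2 ≠ 0 := ne hx.2.1 (lt_of_lt_of_le (by linarith) (hz z hzb))
    have h5 : HasDerivAt (fun z : ℂ => z - x.2) 1 z := (hasDerivAt_id z).sub_const _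
    exact ((hasDerivAt_const z (conj (x.2 - x.1) * x.2 ^ 2)).div h5 hne).congr_deriv (by ring)

end MOMM

open MOMM in
theorem specMOM : SpecMOM := by
  intro Ω ρ M ν hρ hM _ h0 hb heq
  have hae := aeAll h0 hb
  refine ⟨?_, ?_, ?_⟩
  · have ho : IsOpen {z : ℂ | M < ‖z‖} := isOpen_lt continuous_const continuous_norm
    refine DifferentiableOn.analyticOnNhd ?_ ho
    intro z hz
    have hz' : M < ‖z‖ := hz
    have hz0 : z ≠ 0 := by
      rintro rfl
      rw [norm_zero] at hz'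
      linarith
    refine DifferentiableAt.differentiableWithinAt ?_
    unfold HH
    refine (J_der hρ hae hz').neg.div (by fun_prop) ?_
    have : (ρ : ℂ) ≠ 0 := by exact_mod_cast hρ.ne'
    exact mul_ne_zero (pow_ne_zero 2 this) (pow_ne_zero 2 hz0)
  · refine ⟨2 * M ^ 2 / ρ, fun z hz => ?_⟩
    have hz1 : 0 < ‖z‖ := by linarith
    have hJ : ‖∫ x, conj (x.2 - x.1) * x.2 ^ 2 / (z - x.2) ∂ν‖ ≤ ρ * (M ^ 2 / (‖z‖ / 2)) := by
      have h1 := norm_integral_le_of_norm_le_const (μ := ν)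
        (f := fun x : ℂ × ℂ => conj (x.2 - x.1) * x.2 ^ 2 / (z - x.2))
        (C := ρ * (M ^ 2 / (‖z‖ / 2))) (by
          filter_upwards [hae] with x hx
          rw [mul_div_assoc, norm_mul, RCLike.norm_conj, hx.1]
          exact mul_le_mul_of_nonneg_left (bd hx.2.1 (by positivity) (by linarith)) hρ.le)
      simpa using h1
    unfold HH
    rw [norm_div, norm_neg, norm_mul, norm_pow, norm_pow, Complex.norm_real, Real.norm_eq_abs,
      abs_of_pos hρ]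
    calc ‖∫ x, conj (x.2 - x.1) * x.2 ^ 2 / (z - x.2) ∂ν‖ / (ρ ^ 2 * ‖z‖ ^ 2)
        ≤ (ρ * (M ^ 2 / (‖z‖ / 2))) / (ρ ^ 2 * ‖z‖ ^ 2) :=
          div_le_div_of_nonneg_right hJ (by positivity)
      _ = 2 * M ^ 2 / ρ / ‖z‖ ^ 3 := by field_simp
  · intro z hz
    have hz0 : z ≠ 0 := by
      rintro rfl
      rw [norm_zero] at hz
      linarith
    have hρ0 : (ρ : ℂ) ≠ 0 := by exact_mod_cast hρ.ne'
    have e0 : ∫ x, conj (x.2 - x.1) ∂ν = 0 := by
      have := equil hae heq (u := fun _ => 1) continuous_const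
      simpa using this
    have e1 := moment hρ hae heq
    have i0 : Integrable (fun x : ℂ × ℂ => (1 / z) * conj (x.2 - x.1)) ν := by
      have h := integ (u := fun _ => 1) hρ hae measurable_const 1 fun x _ _ => by simp
      exact (h.congr (ae_of_all _ fun x => mul_one _)).const_mul _
    have i1 : Integrable (fun x : ℂ × ℂ => (1 / z ^ 2) * (conj (x.2 - x.1) * x.2)) ν :=
      (integ hρ hae measurable_snd M fun x hx _ => hx).const_mul _
    have i2 : Integrable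
        (fun x : ℂ × ℂ => (1 / z ^ 2) * (conj (x.2 - x.1) * x.2 ^ 2 / (z - x.2))) ν := by
      have h := integ (u := fun x => x.2 ^ 2 / (z - x.2)) hρ hae
        ((measurable_snd.pow_const 2).div (measurable_const.sub measurable_snd))
        (M ^ 2 / (‖z‖ - M)) fun x hx _ => bd hx (by linarith) (by linarith)
      exact (h.congr (ae_of_all _ fun x => (mul_div_assoc _ _ _).symm)).const_mul _
    have h1 : ∫ x, conj (x.2 - x.1) / (z - x.2) ∂ν =
        ∫ x, ((1 / z) * conj (x.2 - x.1) + (1 / z ^ 2) * (conj (x.2 - x.1) * x.2) +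
          (1 / z ^ 2) * (conj (x.2 - x.1) * x.2 ^ 2 / (z - x.2))) ∂ν := by
      refine integral_congr_ae ?_
      filter_upwards [hae] with x hx
      have hne : z - x.2 ≠ 0 := ne hx.2.1 hz
      field_simp
      ring
    have i01 : Integrable (fun x : ℂ × ℂ =>
        (1 / z) * conj (x.2 - x.1) + (1 / z ^ 2) * (conj (x.2 - x.1) * x.2)) ν := i0.add i1
    rw [h1, integral_add i01 i2, integral_add i0 i1, integral_const_mul,
      integral_const_mul, integral_const_mul, e0, e1]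
    unfold HH
    field_simp
    ring

end

end Pool.Agent.Lib.MP250511.SB
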