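import Pool.Agent.Lib.MP_250511_an.SB.SpecE
import Pool.Agent.Lib.MP_250511_an.SB.INQ

/-!
# MP_250511_an, module MUL: the multiplier measure (real form)
-/

set_option autoImplicit false

namespace Pool.Agent.Lib.MP250511.SB

open Complex Metric Set MeasureTheory Filter Topology
open scoped Real ENNReal ComplexConjugate ContDiff

namespace MULM

/-- the contact pairs form a closed set -/
theorem closed_CC {Ω : Set ℂ} (hΩ : IsOpen Ω) (ρ : ℝ) : IsClosed (CC Ω ρ) := by
  have h1 : {x : ℂ × ℂ | ball x.1 ρ ⊆ Ω} = ⋂ z ∈ Ωᶜ, {x : ℂ × ℂ | ρ ≤ dist z x.1} := by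
    ext x
    simp only [mem_setOf_eq, mem_iInter, mem_compl_iff]
    constructor
    · intro h z hz
      by_contra hlt
      exact hz (h (by rw [mem_ball]; exact not_le.1 hlt))
    · intro h z hz
      by_contra hzΩ
      have := h z hzΩ
      rw [mem_ball] at hz
      linarith
  have h2 : IsClosed {x : ℂ × ℂ | ball x.1 ρ ⊆ Ω} := by
    rw [h1]
    refine isClosed_biInter fun z _ => ?_
    exact isClosed_le continuous_const (continuous_const.dist continuous_fst)
  have h3 : IsClosed {x : ℂ × ℂ | x.2 ∉ Ω} := hΩ.isClosed_compl.preimage continuous_snd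
  have h4 : IsClosed {x : ℂ × ℂ | dist x.2 x.1 = ρ} :=
    isClosed_eq (continuous_snd.dist continuous_fst) continuous_const
  exact (h2.inter (h3.inter h4))

/-- `qG g` is integrable on `Ω ∩ K`, `K` compact, `0 ∉ K` -/
theorem int_K {f g : ℂ → ℂ} {Ω : Set ℂ} (hP : Pair f g Ω) {K : Set ℂ} (hK : IsCompact K)
    (h0 : (0 : ℂ) ∉ K) : IntegrableOn (qG g) (Ω ∩ K) := by
  refine hK.induction_on (p := fun S => IntegrableOn (qG g) (Ω ∩ S)) ?_ ?_ ?_ ?_
  · simp
  · intro s t hst ht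
    exact ht.mono_set (inter_subset_inter_right _ hst)
  · intro s t hs ht
    rw [inter_union_distrib_left]
    exact hs.union ht
  · intro x hx
    have hx0 : x ≠ 0 := fun h => h0 (h ▸ hx)
    have hxp : 0 < ‖x‖ := norm_pos_iff.2 hx0
    refine ⟨ball x (‖x‖ / 2), mem_nhdsWithin_of_mem_nhds (ball_mem_nhds x (by positivity)), ?_⟩
    refine specINQ f g Ω hP x (‖x‖ / 2) ?_
    intro h
    rw [mem_closedBall, dist_zero_left] at h
    linarith

theorem dB_cont {v : ℂ → ℂ} (hv : ContDiff ℝ ∞ v) : Continuous (dB v) := by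
  have h1 : Continuous (fderiv ℝ v) := hv.continuous_fderiv (by simp)
  unfold dB
  fun_prop

theorem dB_zero {v : ℂ → ℂ} {z : ℂ} (hz : z ∉ tsupport v) : dB v z = 0 := by
  have h1 : fderiv ℝ v z = 0 := by
    by_contra h
    exact hz (tsupport_fderiv_subset ℝ (subset_tsupport _ h))
  simp [dB, h1]

theorem dB_bdd {v : ℂ → ℂ} (hv : ContDiff ℝ ∞ v) (hc : HasCompactSupport v) :
    ∃ C, ∀ z, ‖dB v z‖ ≤ C := by
  obtain ⟨C, hC⟩ := hc.isCompact.exists_bound_of_continuousOn (dB_cont hv).continuousOn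
  refine ⟨max C 0, fun z => ?_⟩
  by_cases hz : z ∈ tsupport v
  · exact (hC z hz).trans (le_max_left _ _)
  · rw [dB_zero hz, norm_zero]
    exact le_max_right _ _

theorem int_dB {f g : ℂ → ℂ} {Ω : Set ℂ} (hP : Pair f g Ω) {v : ℂ → ℂ} (hv : ContDiff ℝ ∞ v)
    (hc : HasCompactSupport v) (h0 : (0 : ℂ) ∉ tsupport v) :
    IntegrableOn (fun z => dB v z * qG g z) Ω := by
  have h1 := int_K hP hc.isCompact h0
  obtain ⟨C, hC⟩ := dB_bdd hv hc
  have h2 : IntegrableOn (fun z => dB v z * qG g z) (Ω ∩ tsupport v) :=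
    Integrable.bdd_mul (c := C) h1 (dB_cont hv).aestronglyMeasurable
      (Filter.Eventually.of_forall hC)
  refine h2.of_forall_diff_eq_zero hP.op.measurableSet ?_
  intro z hz
  have : z ∉ tsupport v := fun h => hz.2 ⟨hz.1, h⟩
  rw [dB_zero this, zero_mul]

theorem dB_add {v w : ℂ → ℂ} (hv : ContDiff ℝ ∞ v) (hw : ContDiff ℝ ∞ w) (z : ℂ) :
    dB (v + w) z = dB v z + dB w z := by
  have h1 : fderiv ℝ (v + w) z = fderiv ℝ v z + fderiv ℝ w z :=
    fderiv_add ((hv.differentiable (by simp)) z) ((hw.differentiable (by simp)) z)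
  simp only [dB, h1, add_apply]
  ring

theorem dB_smul {v : ℂ → ℂ} (hv : ContDiff ℝ ∞ v) (a : ℝ) (z : ℂ) :
    dB (a • v) z = (a : ℂ) * dB v z := by
  have h1 : fderiv ℝ (a • v) z = a • fderiv ℝ v z :=
    fderiv_const_smul ((hv.differentiable (by simp)) z) a
  simp only [dB, h1, smul_apply, real_smul]
  ring

/-- the real space of pairs of test fields -/
def TF : Submodule ℝ ((ℂ → ℂ) × (ℂ → ℂ)) where
  carrier := {p | ContDiff ℝ ∞ p.1 ∧ HasCompactSupport p.1 ∧ (0 : ℂ) ∉ tsupport p.1 ∧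
    Continuous p.2 ∧ HasCompactSupport p.2}
  add_mem' := by
    rintro p q ⟨h1, h2, h3, h4, h5⟩ ⟨k1, k2, k3, k4, k5⟩
    refine ⟨h1.add k1, h2.add k2, ?_, h4.add k4, h5.add k5⟩
    intro h
    rcases (tsupport_add p.1 q.1) h with h | h
    · exact h3 h
    · exact k3 h
  zero_mem' := by
    refine ⟨contDiff_const, HasCompactSupport.zero, ?_, continuous_const, HasCompactSupport.zero⟩
    have : tsupport (0 : ℂ → ℂ) = ∅ := tsupport_eq_empty_iff.2 rfl
    change (0 : ℂ) ∉ tsupport (0 : ℂ → ℂ)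
    rw [this]
    exact notMem_empty _
  smul_mem' := by
    rintro a p ⟨h1, h2, h3, h4, h5⟩
    refine ⟨h1.const_smul a, h2.smul_left (f := fun _ => a), ?_, h4.const_smul a,
      h5.smul_left (f := fun _ => a)⟩
    intro h
    refine h3 (closure_mono ?_ h)
    intro z hz hz0
    exact hz (by simp [hz0])

end MULM

open MULM in
theorem specMUL (hPOS : SpecPOS) (hHBR : SpecHBR) : SpecMUL := by
  intro f g Ω ρ hE
  have hP := hE.toPair
  suffices H : ∃ ν : Measure (ℂ × ℂ), ν univ ≤ 1 ∧ ν (CC Ω ρ)ᶜ = 0 ∧ ∀ i : TF,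
      ρ / π * (∫ z in Ω, dB i.1.1 z * qG g z).re = ∫ x, VF ρ i.1.1 i.1.2 x ∂ν by
    obtain ⟨ν, h1, h2, h3⟩ := H
    refine ⟨ν, h1, h2, fun v b hv hc h0 hb hbc => ?_⟩
    exact h3 ⟨(v, b), hv, hc, h0, hb, hbc⟩
  refine hHBR (CC Ω ρ) (closed_CC hP.op ρ) TF
    (fun i => VF ρ i.1.1 i.1.2)
    (fun i => ρ / π * (∫ z in Ω, dB i.1.1 z * qG g z).re) ?_ ?_ ?_ ?_ ?_ ?_ ?_
  · intro i j x
    simp only [VF, Submodule.coe_add, Prod.fst_add, Prod.snd_add, Pi.add_apply]
    rw [← add_div, ← Complex.add_re]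
    congr 2
    ring
  · intro a i x
    simp only [VF, Submodule.coe_smul, Prod.smul_fst, Prod.smul_snd, Pi.smul_apply, real_smul]
    rw [mul_div_assoc', ← Complex.re_ofReal_mul]
    congr 2
    ring
  · intro i j
    obtain ⟨⟨v, b⟩, hv, hc, h0, hb, hbc⟩ := i
    obtain ⟨⟨w, d⟩, hw, kc, k0, hd, hdc⟩ := j
    change ρ / π * (∫ z in Ω, dB (v + w) z * qG g z).re = ρ / π * (∫ z in Ω, dB v z * qG g z).re +
      ρ / π * (∫ z in Ω, dB w z * qG g z).re
    have e1 : (fun z => dB (v + w) z * qG g z) =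
        fun z => dB v z * qG g z + dB w z * qG g z := by
      funext z
      rw [dB_add hv hw, add_mul]
    rw [e1, integral_add (int_dB hP hv hc h0) (int_dB hP hw kc k0), Complex.add_re, mul_add]
  · intro a i
    obtain ⟨⟨v, b⟩, hv, hc, h0, hb, hbc⟩ := i
    change ρ / π * (∫ z in Ω, dB (a • v) z * qG g z).re =
      a * (ρ / π * (∫ z in Ω, dB v z * qG g z).re)
    have e1 : (fun z => dB (a • v) z * qG g z) = fun z => (a : ℂ) * (dB v z * qG g z) := by
      funext z
      rw [dB_smul hv, mul_assoc]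
    rw [e1, integral_const_mul, Complex.re_ofReal_mul]
    ring
  · rintro ⟨⟨v, b⟩, hv, hc, h0, hb, hbc⟩
    change Continuous fun x : ℂ × ℂ => (conj (x.2 - x.1) * (v x.2 - b x.1)).re / ρ
    have hvc : Continuous v := hv.continuous
    fun_prop
  · rintro ⟨⟨v, b⟩, hv, hc, h0, hb, hbc⟩
    obtain ⟨R1, hR1⟩ := hc.isCompact.isBounded.subset_closedBall 0
    obtain ⟨R2, hR2⟩ := hbc.isCompact.isBounded.subset_closedBall 0
    refine ⟨closedBall (0 : ℂ × ℂ) (max R1 R2 + ρ), isCompact_closedBall _ _, ?_⟩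
    intro x hx hxK
    by_contra hne
    change (conj (x.2 - x.1) * (v x.2 - b x.1)).re / ρ ≠ 0 at hne
    apply hxK
    have hd : dist x.2 x.1 = ρ := hx.2.2
    have hρ := hE.pos
    rw [mem_closedBall, dist_zero_right, Prod.norm_def]
    have hor : v x.2 ≠ 0 ∨ b x.1 ≠ 0 := by
      by_contra hcon
      push Not at hcon
      apply hne
      rw [hcon.1, hcon.2]
      simp
    rw [dist_eq_norm] at hd
    rcases hor with h | h
    · have k1 : ‖x.2‖ ≤ R1 := by
        have := hR1 (subset_tsupport _ h)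
        rwa [mem_closedBall, dist_zero_right] at this
      have k2 : ‖x.1‖ ≤ ‖x.2‖ + ‖x.2 - x.1‖ := by
        have := norm_sub_le x.2 (x.2 - x.1)
        rwa [sub_sub_cancel] at this
      have k3 := le_max_left R1 R2
      exact max_le (by linarith) (by linarith)
    · have k1 : ‖x.1‖ ≤ R2 := by
        have := hR2 (subset_tsupport _ h)
        rwa [mem_closedBall, dist_zero_right] at this
      have k2 : ‖x.2‖ ≤ ‖x.1‖ + ‖x.2 - x.1‖ := by
        have := norm_add_le x.1 (x.2 - x.1)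
        rwa [add_sub_cancel] at this
      have k3 := le_max_right R1 R2
      exact max_le (by linarith) (by linarith)
  · rintro ⟨⟨v, b⟩, hv, hc, h0, hb, hbc⟩ μ hμ hC
    exact hPOS f g Ω ρ hE v b hv hc h0 hb μ hμ hC

end Pool.Agent.Lib.MP250511.SB
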