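import Pool.Agent.Lib.MP_250511_an.SB.SpecR

/-!
# MVP (MP_250511_an): mean value with a radial kernel
-/

set_option autoImplicit false

namespace Pool.Agent.Lib.MP250511.SB

open Complex Metric Set MeasureTheory Filter Topology
open scoped Real ENNReal ComplexConjugate ContDiff

namespace MVPM

/-- the radial profile of the kernel -/
noncomputable def kk (r s : ℝ) : ℝ := deriv Real.smoothTransition (2 - s ^ 2 / r ^ 2) / r ^ 2

theorem Ker_eq (r : ℝ) (z : ℂ) : Ker r z = ((kk r ‖z‖ : ℝ) : ℂ) := rfl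

theorem hderiv (r s : ℝ) :
    HasDerivAt (fun s : ℝ => -(1 / 2) * Real.smoothTransition (2 - s ^ 2 / r ^ 2)) (s * kk r s) s := by
  have hT : HasDerivAt Real.smoothTransition (deriv Real.smoothTransition (2 - s ^ 2 / r ^ 2)) (2 - s ^ 2 / r ^ 2) :=
    ((Real.smoothTransition.contDiff (n := 1)).differentiable (by simp) _).hasDerivAt
  have h2 : HasDerivAt (fun s : ℝ => 2 - s ^ 2 / r ^ 2) (-(((2 : ℕ) : ℝ) * s ^ (2 - 1) / r ^ 2)) s :=
    ((hasDerivAt_pow 2 s).div_const (r ^ 2)).const_sub 2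
  have h3 := (hT.comp s h2).const_mul (-(1 / 2) : ℝ)
  refine h3.congr_deriv ?_
  unfold kk
  norm_num
  ring

theorem kk_cont (r : ℝ) : Continuous (kk r) := by
  unfold kk
  have h1 : Continuous (deriv Real.smoothTransition) :=
    (Real.smoothTransition.contDiff (n := 1)).continuous_deriv (by simp)
  exact (h1.comp (by fun_prop)).div_const _

theorem radial (r : ℝ) (hr : 0 < r) (h0 : ∀ s : ℝ, 2 * r ^ 2 ≤ s ^ 2 → kk r s = 0) :
    ∫ s in Ioi (0 : ℝ), s * kk r s = 1 / 2 := by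
  have h1 : ∫ s in Ioi (0 : ℝ), s * kk r s = ∫ s in Ioc (0 : ℝ) (2 * r), s * kk r s := by
    refine setIntegral_eq_of_subset_of_forall_sdiff_eq_zero measurableSet_Ioi (fun s hs => hs.1) ?_
    intro s hs
    have h2 : 2 * r < s := by
      by_contra hcon
      push Not at hcon
      exact hs.2 ⟨hs.1, hcon⟩
    rw [h0 s (by nlinarith), mul_zero]
  rw [h1, ← intervalIntegral.integral_of_le (by linarith),
    intervalIntegral.integral_eq_sub_of_hasDerivAt (fun s _ => hderiv r s)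
      ((continuous_id.mul (kk_cont r)).intervalIntegrable _ _)]
  have e1 : (2 : ℝ) - (2 * r) ^ 2 / r ^ 2 = -2 := by field_simp; norm_num
  have e2 : (2 : ℝ) - 0 ^ 2 / r ^ 2 = 2 := by norm_num
  rw [e1, e2, Real.smoothTransition.zero_of_nonpos (by norm_num), Real.smoothTransition.one_of_one_le (by norm_num)]
  norm_num

theorem circ (a : ℂ) (r s : ℝ) (w : ℂ → ℂ) (hs : 0 < s) (hsr : s < r) (hw : AnalyticOnNhd ℂ w (ball a r)) :
    ∫ θ in Ioo (-π) π, w ((s : ℂ) * (Real.cos θ + Real.sin θ * I) + a) = 2 * π * w a := by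
  have h1 : Real.circleAverage w a s = w a := by
    apply DiffContOnCl.circleAverage
    rw [abs_of_pos hs]
    refine DifferentiableOn.diffContOnCl ?_
    rw [closure_ball a hs.ne']
    exact hw.differentiableOn.mono (closedBall_subset_ball hsr)
  rw [Real.circleAverage_def] at h1
  have h2 : ∫ θ in (0 : ℝ)..2 * π, w (circleMap a s θ) = 2 * π * w a := by
    have hpi : (0 : ℝ) < 2 * π := by positivity
    have h3 : (2 * π) • ((2 * π)⁻¹ • ∫ θ in (0 : ℝ)..2 * π, w (circleMap a s θ)) = (2 * π) • w a := by rw [h1]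
    rw [smul_smul, mul_inv_cancel₀ hpi.ne', one_smul] at h3
    rw [h3, Complex.real_smul]
    push_cast
    ring
  have h4 : Function.Periodic (fun θ => w (circleMap a s θ)) (2 * π) := by
    intro θ
    show w (circleMap a s (θ + 2 * π)) = w (circleMap a s θ)
    rw [periodic_circleMap a s θ]
  have h5 := h4.intervalIntegral_add_eq (-π) 0
  rw [show -π + 2 * π = π by ring, zero_add] at h5
  rw [← integral_Ioc_eq_integral_Ioo, ← intervalIntegral.integral_of_le (by linarith [Real.pi_pos]), ← h2, ← h5]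
  refine intervalIntegral.integral_congr ?_
  intro θ _
  show w ((s : ℂ) * (Real.cos θ + Real.sin θ * I) + a) = w (circleMap a s θ)
  rw [circleMap, Complex.exp_mul_I, Complex.ofReal_cos, Complex.ofReal_sin, add_comm]

end MVPM

open MVPM in
theorem specMVP (hKER : SpecKER) : SpecMVP := by
  intro a r w hr hw
  obtain ⟨hKc, hK1, hK2, hK3⟩ := hKER.1 r hr
  have h0 : ∀ s : ℝ, 2 * r ^ 2 ≤ s ^ 2 → kk r s = 0 := by
    intro s hs
    have h1 := hK2 (s : ℂ) (by rw [Complex.norm_real, Real.norm_eq_abs, sq_abs]; exact hs)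
    rw [Ker_eq] at h1
    have h2 : kk r ‖(s : ℂ)‖ = 0 := by exact_mod_cast h1
    have h3 : kk r ‖(s : ℂ)‖ = kk r s := by
      unfold kk
      rw [Complex.norm_real, Real.norm_eq_abs, sq_abs]
    rw [← h3, h2]
  -- translation
  have e1 : ∫ z, Ker r (z - a) * w z = ∫ z, Ker r z * w (z + a) := by
    have h1 := integral_add_right_eq_self (μ := (volume : Measure ℂ)) (fun z => Ker r (z - a) * w z) a
    rw [← h1]
    simp only [add_sub_cancel_right]
  -- continuity
  have hG : Continuous (fun z => Ker r z * w (z + a)) := by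
    rw [continuous_iff_continuousAt]
    intro z
    by_cases hz : ‖z‖ < 2 * r
    · refine hKc.continuousAt.mul ?_
      have h1 : ContinuousAt w (z + a) := (hw (z + a) (by simpa [mem_ball, dist_eq_norm] using hz)).continuousAt
      exact ContinuousAt.comp (f := fun z => z + a) h1 (by fun_prop)
    · push Not at hz
      have h1 : ∀ᶠ y in 𝓝 z, 2 * r ^ 2 < ‖y‖ ^ 2 := by
        have h2 : Continuous (fun y : ℂ => ‖y‖ ^ 2) := by fun_prop
        exact h2.continuousAt.eventually (lt_mem_nhds (by nlinarith))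
      have h3 : (fun z => Ker r z * w (z + a)) =ᶠ[𝓝 z] fun _ => 0 := by
        filter_upwards [h1] with y hy
        rw [hK2 y hy.le, zero_mul]
      exact continuousAt_const.congr h3.symm
  rw [e1, ← Complex.integral_comp_polarCoord_symm]
  have hH : Continuous (fun p : ℝ × ℝ => p.1 • (Ker r ((p.1 : ℂ) * (Real.cos p.2 + Real.sin p.2 * I)) *
      w ((p.1 : ℂ) * (Real.cos p.2 + Real.sin p.2 * I) + a))) := by
    refine continuous_fst.smul ?_
    exact hG.comp (f := fun p : ℝ × ℝ => (p.1 : ℂ) * (Real.cos p.2 + Real.sin p.2 * I)) (by fun_prop)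
  have e2 : ∫ p in polarCoord.target, p.1 • (fun z => Ker r z * w (z + a)) (Complex.polarCoord.symm p) =
      ∫ p in Ioi (0 : ℝ) ×ˢ Ioo (-π) π, p.1 • (Ker r ((p.1 : ℂ) * (Real.cos p.2 + Real.sin p.2 * I)) *
      w ((p.1 : ℂ) * (Real.cos p.2 + Real.sin p.2 * I) + a)) := by
    have h1 : polarCoord.target = Ioi (0 : ℝ) ×ˢ Ioo (-π) π := rfl
    rw [h1]
    simp only [Complex.polarCoord_symm_apply]
  have hnorm : ∀ s θ : ℝ, 0 < s → ‖(s : ℂ) * (Real.cos θ + Real.sin θ * I)‖ = s := by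
    intro s θ hs
    have h1 := Complex.norm_polarCoord_symm (s, θ)
    rw [Complex.polarCoord_symm_apply] at h1
    rw [h1]
    exact abs_of_pos hs
  have hKz : ∀ s θ : ℝ, 0 < s → Ker r ((s : ℂ) * (Real.cos θ + Real.sin θ * I)) = ((kk r s : ℝ) : ℂ) := by
    intro s θ hs
    rw [Ker_eq, hnorm s θ hs]
  have hint : IntegrableOn (fun p : ℝ × ℝ => p.1 • (Ker r ((p.1 : ℂ) * (Real.cos p.2 + Real.sin p.2 * I)) *
      w ((p.1 : ℂ) * (Real.cos p.2 + Real.sin p.2 * I) + a))) (Ioi (0 : ℝ) ×ˢ Ioo (-π) π) (volume.prod volume) := by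
    have h1 : IntegrableOn (fun p : ℝ × ℝ => p.1 • (Ker r ((p.1 : ℂ) * (Real.cos p.2 + Real.sin p.2 * I)) *
        w ((p.1 : ℂ) * (Real.cos p.2 + Real.sin p.2 * I) + a))) (Icc (0 : ℝ) (2 * r) ×ˢ Icc (-π) π)
        (volume.prod volume) :=
      hH.continuousOn.integrableOn_compact (isCompact_Icc.prod isCompact_Icc)
    refine h1.of_forall_sdiff_eq_zero (measurableSet_Ioi.prod measurableSet_Ioo) ?_
    rintro ⟨s, θ⟩ ⟨⟨hs, hθ⟩, hn⟩
    have hs' : 0 < s := hs
    have hθ' : θ ∈ Ioo (-π) π := hθ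
    have h2 : 2 * r < s := by
      by_contra hcon
      push Not at hcon
      exact hn ⟨⟨hs'.le, hcon⟩, ⟨hθ'.1.le, hθ'.2.le⟩⟩
    show s • (Ker r ((s : ℂ) * (Real.cos θ + Real.sin θ * I)) * w ((s : ℂ) * (Real.cos θ + Real.sin θ * I) + a)) = 0
    rw [hKz s θ hs', h0 s (by nlinarith)]
    simp
  rw [e2, Measure.volume_eq_prod, setIntegral_prod _ hint]
  have e3 : ∀ s ∈ Ioi (0 : ℝ), (∫ θ in Ioo (-π) π, (s, θ).1 • (Ker r (((s, θ).1 : ℂ) * (Real.cos (s, θ).2 + Real.sin (s, θ).2 * I)) *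
      w (((s, θ).1 : ℂ) * (Real.cos (s, θ).2 + Real.sin (s, θ).2 * I) + a))) = ((s * kk r s : ℝ) : ℂ) * (2 * π * w a) := by
    intro s hs
    have hs' : 0 < s := hs
    have h1 : ∀ θ : ℝ, (s, θ).1 • (Ker r (((s, θ).1 : ℂ) * (Real.cos (s, θ).2 + Real.sin (s, θ).2 * I)) *
        w (((s, θ).1 : ℂ) * (Real.cos (s, θ).2 + Real.sin (s, θ).2 * I) + a)) =
        ((s * kk r s : ℝ) : ℂ) * w ((s : ℂ) * (Real.cos θ + Real.sin θ * I) + a) := by
      intro θ
      show s • (Ker r ((s : ℂ) * (Real.cos θ + Real.sin θ * I)) * w ((s : ℂ) * (Real.cos θ + Real.sin θ * I) + a)) = _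
      rw [hKz s θ hs', Complex.real_smul]
      push_cast
      ring
    simp only [h1]
    rw [integral_const_mul]
    by_cases h2 : s < 2 * r
    · rw [circ a (2 * r) s w hs' h2 hw]
    · push Not at h2
      rw [h0 s (by nlinarith)]
      simp
  have e4 : ∫ s in Ioi (0 : ℝ), ((s * kk r s : ℝ) : ℂ) = ((∫ s in Ioi (0 : ℝ), s * kk r s : ℝ) : ℂ) :=
    integral_complex_ofReal
  rw [setIntegral_congr_fun measurableSet_Ioi e3, integral_mul_const, e4, radial r hr h0]
  push_cast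
  ring

end Pool.Agent.Lib.MP250511.SB
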