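import Pool.Agent.Lib.MP_250511_an.SB.SpecE
import Pool.Agent.Lib.MP_250511_an.SB.NEA

/-!
# MP_250511, module NEG: estimates near `0` for a compact set off `0`
-/

set_option autoImplicit false

namespace Pool.Agent.Lib.MP250511.SB

open Complex Metric Set MeasureTheory Filter Topology
open scoped Real ENNReal ComplexConjugate ContDiff

theorem specNEG : SpecNEG := by
  intro f g F G φ ψ Ω E P hf1 hEc hz0 hD Q
  have h0b : (0 : ℂ) ∈ ball (0 : ℂ) 1 := mem_ball_self one_pos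
  have hf0 : f 0 = 0 := P.zero
  have hF0 : F 0 = 0 := Q.zero
  have h0Ω : (0 : ℂ) ∈ Ω := by
    rw [← P.im]
    exact ⟨0, h0b, hf0⟩
  have h0U : (0 : ℂ) ∈ φ '' Ω := by
    rw [← Q.im]
    exact ⟨0, h0b, hF0⟩
  have hg0 : g 0 = 0 := by
    have := P.GF 0 h0b
    rwa [hf0] at this
  have hG0 : G 0 = 0 := by
    have := Q.GF 0 h0b
    rwa [hF0] at this
  have hg1 : deriv g 0 = 1 := by
    have := P.dGF 0 h0b
    rwa [hf0, hf1, mul_one] at this
  have hG1 : deriv G 0 * deriv F 0 = 1 := by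
    have := Q.dGF 0 h0b
    rwa [hF0] at this
  have hFne : deriv F 0 ≠ 0 := Q.dF 0 h0b
  have ha : 0 < ‖deriv F 0‖ := norm_pos_iff.2 hFne
  -- the ball on which `φ` is the identity
  obtain ⟨r, hr, hrb⟩ : ∃ r > 0, ∀ z : ℂ, ‖z‖ < r → z ∉ E := by
    have : Eᶜ ∈ 𝓝 (0 : ℂ) := hEc.isClosed.isOpen_compl.mem_nhds hz0
    obtain ⟨r, hr, h⟩ := Metric.mem_nhds_iff.1 this
    exact ⟨r, hr, fun z hz => h (by rwa [mem_ball, dist_zero_right])⟩
  have hφ : ∀ z : ℂ, ‖z‖ < r → φ z = z := fun z hz =>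
    hD.id z (hrb z hz)
  have hψ : ∀ z : ℂ, ‖z‖ < r → ψ z = z := by
    intro z hz
    have := hD.l z
    rwa [hφ z hz] at this
  -- `G ∘ f`
  have hfa : AnalyticAt ℂ f 0 := P.an 0 h0b
  have hFa : AnalyticAt ℂ F 0 := Q.an 0 h0b
  have hga : AnalyticAt ℂ g 0 := P.gan 0 h0Ω
  have hGa : AnalyticAt ℂ G 0 := Q.gan 0 h0U
  have hGf : AnalyticAt ℂ (fun w => G (f w)) 0 := by
    have : AnalyticAt ℂ G (f 0) := by rwa [hf0]
    exact this.comp hfa
  have hgF : AnalyticAt ℂ (fun w => g (F w)) 0 := by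
    have : AnalyticAt ℂ g (F 0) := by rwa [hF0]
    exact this.comp hFa
  have dGf : deriv (fun w => G (f w)) 0 = deriv G 0 := by
    have h1 : HasDerivAt G (deriv G 0) (f 0) := by
      rw [hf0]
      exact hGa.differentiableAt.hasDerivAt
    have h2 : HasDerivAt f (deriv f 0) 0 := hfa.differentiableAt.hasDerivAt
    have h3 := h1.comp 0 h2
    rw [hf1, mul_one] at h3
    exact h3.deriv
  have dgF : deriv (fun w => g (F w)) 0 = deriv F 0 := by
    have h1 : HasDerivAt g (deriv g 0) (F 0) := by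
      rw [hF0]
      exact hga.differentiableAt.hasDerivAt
    have h2 : HasDerivAt F (deriv F 0) 0 := hFa.differentiableAt.hasDerivAt
    have h3 := h1.comp 0 h2
    rw [hg1, one_mul] at h3
    exact h3.deriv
  obtain ⟨K, hK, r1, hr1, hK1⟩ := NEAM.quad hGf (by simp only [hf0, hG0])
  obtain ⟨K', hK', r2, hr2, hK2⟩ := NEAM.quad hgF (by simp only [hF0, hg0])
  rw [dGf] at hK1
  rw [dgF] at hK2
  -- smallness
  obtain ⟨r3, hr3, hf3⟩ : ∃ r3 > 0, ∀ w : ℂ, ‖w‖ < r3 → ‖f w‖ < r := by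
    have h1 : ContinuousAt f 0 := hfa.continuousAt
    obtain ⟨r3, hr3, h⟩ := Metric.continuousAt_iff.1 h1 r hr
    refine ⟨r3, hr3, fun w hw => ?_⟩
    have := h (x := w) (by rwa [dist_zero_right])
    rwa [hf0, dist_zero_right] at this
  obtain ⟨r4, hr4, hF4⟩ : ∃ r4 > 0, ∀ w : ℂ, ‖w‖ < r4 → ‖F w‖ < r := by
    have h1 : ContinuousAt F 0 := hFa.continuousAt
    obtain ⟨r3, hr3, h⟩ := Metric.continuousAt_iff.1 h1 r hr
    refine ⟨r3, hr3, fun w hw => ?_⟩
    have := h (x := w) (by rwa [dist_zero_right])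
    rwa [hF0, dist_zero_right] at this
  set a := ‖deriv F 0‖ with hadef
  have hG1' : ‖deriv G 0‖ = 1 / a := by
    have h1 : ‖deriv G 0‖ * a = 1 := by
      rw [hadef, ← norm_mul, hG1, norm_one]
    field_simp
    exact h1
  let C : ℝ := K * a + K' / a + 1
  have hC : 0 < C := by positivity
  have hCK : K * a ≤ C := by
    have : 0 ≤ K' / a := by positivity
    simp only [C]
    linarith
  have hCK' : K' / a ≤ C := by
    have : 0 ≤ K * a := by positivity
    simp only [C]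
    linarith
  -- the small number `t₀`
  have htend : Tendsto (fun t : ℝ => (t / a) * (1 + C * t)) (𝓝 0) (𝓝 0) := by
    have h1 : Continuous (fun t : ℝ => (t / a) * (1 + C * t)) := by fun_prop
    have h2 := h1.tendsto 0
    simpa using h2
  have hev : ∀ᶠ t in 𝓝 (0 : ℝ), (t / a) * (1 + C * t) < min 1 (min r2 r4) :=
    htend.eventually_lt tendsto_const_nhds (by positivity)
  obtain ⟨t1, ht1, hsm⟩ := Metric.eventually_nhds_iff.1 hev
  refine ⟨C, hC, min t1 (min r1 r3), by positivity, fun t ht0 ht => ?_⟩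
  have htt1 : t < t1 := ht.trans_le (min_le_left _ _)
  have htr1 : t < r1 := ht.trans_le ((min_le_right _ _).trans (min_le_left _ _))
  have htr3 : t < r3 := ht.trans_le ((min_le_right _ _).trans (min_le_right _ _))
  have hs := hsm (y := t) (by rwa [Real.dist_0_eq_abs, abs_of_pos ht0])
  refine ⟨hs.trans_le (min_le_left _ _), fun ζ hζ hζ1 => ?_, fun ζ hζ => ?_⟩
  · by_contra hcon
    push Not at hcon
    have hζb : ζ ∈ ball (0 : ℂ) 1 := by rwa [mem_ball, dist_zero_right]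
    have hFU : F ζ ∈ φ '' Ω := by
      rw [← Q.im]
      exact ⟨ζ, hζb, rfl⟩
    obtain ⟨z, hz, hzF⟩ := hFU
    have hψz : ψ (F ζ) = z := by rw [← hzF, hD.l]
    rw [hψz] at hcon
    have hfw : f (g z) = z := P.FG z hz
    have hzr : ‖z‖ < r := by
      rw [← hfw]
      exact hf3 _ (lt_of_le_of_lt hcon htr3)
    have hFz : F ζ = z := by rw [← hzF, hφ z hzr]
    have hζG : G (f (g z)) = ζ := by rw [hfw, ← hFz, Q.GF ζ hζb]
    have hb := hK1 (g z) (lt_of_le_of_lt hcon htr1)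
    rw [hζG, hG1'] at hb
    have h5 : 1 / a * ‖g z‖ + K * ‖g z‖ ^ 2 ≤ 1 / a * t + K * t ^ 2 := by
      gcongr
    have h6 : 1 / a * t + K * t ^ 2 ≤ (t / a) * (1 + C * t) := by
      have h7 : (t / a) * (1 + C * t) = 1 / a * t + (C / a) * t ^ 2 := by ring
      rw [h7]
      have h8 : K ≤ C / a := by
        rw [le_div_iff₀ ha]
        exact hCK
      gcongr
    linarith
  · have hζ2 : ‖ζ‖ < r2 := by
      rw [hζ]
      exact hs.trans_le ((min_le_right _ _).trans (min_le_left _ _))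
    have hζ4 : ‖ζ‖ < r4 := by
      rw [hζ]
      exact hs.trans_le ((min_le_right _ _).trans (min_le_right _ _))
    rw [hψ _ (hF4 ζ hζ4)]
    refine (hK2 ζ hζ2).trans ?_
    have h7 : a * ‖ζ‖ * (1 + C * ‖ζ‖) = a * ‖ζ‖ + (C * a) * ‖ζ‖ ^ 2 := by ring
    rw [h7]
    have h8 : K' ≤ C * a := by
      rw [← div_le_iff₀ ha]
      exact hCK'
    gcongr

end Pool.Agent.Lib.MP250511.SB
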