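import Pool.Agent.Lib.MP_250511_an.SB.SpecG

/-!
# MP_250511_an, SB, module NFA
-/

set_option autoImplicit false

namespace Pool.Agent.Lib.MP250511.SB

open Complex Metric Set MeasureTheory Filter Topology
open scoped Real ENNReal ComplexConjugate ContDiff

namespace NFAM

/-- the point `z₀ + t² (z - z₀)` stays in the ball -/
lemma seg {z₀ z : ℂ} {R t : ℝ} (h0 : 0 ≤ t) (h1 : t ≤ 1) (hz : ‖z - z₀‖ ≤ R) :
    ‖(z₀ + (t : ℂ) ^ 2 * (z - z₀)) - z₀‖ ≤ R := by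
  have h2 : (z₀ + (t : ℂ) ^ 2 * (z - z₀)) - z₀ = (t : ℂ) ^ 2 * (z - z₀) := by ring
  rw [h2, norm_mul, norm_pow, Complex.norm_real, Real.norm_eq_abs, abs_of_nonneg h0]
  have h3 : t ^ 2 * ‖z - z₀‖ ≤ 1 * ‖z - z₀‖ :=
    mul_le_mul_of_nonneg_right (pow_le_one₀ h0 h1) (norm_nonneg _)
  linarith

/-- The solution `V` of `(N/2) V + (z - z₀) V' = s`, `N = n + 2`. -/
lemma ode (s : ℂ → ℂ) (z₀ : ℂ) (ρ : ℝ) (hs : DifferentiableOn ℂ s (ball z₀ ρ)) (n : ℕ) :
    ∃ V V' : ℂ → ℂ, ∀ z ∈ ball z₀ ρ, HasDerivAt V (V' z) z ∧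
      ((n : ℂ) + 2) / 2 * V z + (z - z₀) * V' z = s z := by
  have hop := isOpen_ball (x := z₀) (ε := ρ)
  have hsd : ∀ w ∈ ball z₀ ρ, HasDerivAt s (deriv s w) w := fun w hw =>
    (hs.differentiableAt (hop.mem_nhds hw)).hasDerivAt
  have hs' : ContinuousOn (deriv s) (ball z₀ ρ) := (hs.analyticOnNhd hop).deriv.continuousOn
  refine ⟨fun z => ∫ t in (0 : ℝ)..1, 2 * (t : ℂ) ^ (n + 1) * s (z₀ + (t : ℂ) ^ 2 * (z - z₀)),
    fun z => ∫ t in (0 : ℝ)..1, 2 * (t : ℂ) ^ (n + 3) * deriv s (z₀ + (t : ℂ) ^ 2 * (z - z₀)),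
    fun z hz => ?_⟩
  rw [mem_ball, dist_eq_norm] at hz
  set R := (‖z - z₀‖ + ρ) / 2 with hR
  have hzR : ‖z - z₀‖ < R := by linarith
  have hRρ : R < ρ := by linarith
  have hsub : closedBall z₀ R ⊆ ball z₀ ρ := closedBall_subset_ball hRρ
  obtain ⟨M, hM⟩ := (isCompact_closedBall z₀ R).exists_bound_of_continuousOn (hs'.mono hsub)
  have hmem : ∀ x : ℂ, ‖x - z₀‖ ≤ R → ∀ t : ℝ, 0 ≤ t → t ≤ 1 →
      z₀ + (t : ℂ) ^ 2 * (x - z₀) ∈ closedBall z₀ R := by
    intro x hx t h0 h1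
    rw [mem_closedBall, dist_eq_norm]
    exact seg h0 h1 hx
  have hpath : ∀ x : ℂ, Continuous (fun t : ℝ => z₀ + (t : ℂ) ^ 2 * (x - z₀)) :=
    fun x => by fun_prop
  have hcF : ∀ x : ℂ, ‖x - z₀‖ ≤ R → ContinuousOn
      (fun t : ℝ => 2 * (t : ℂ) ^ (n + 1) * s (z₀ + (t : ℂ) ^ 2 * (x - z₀))) (Icc 0 1) := by
    intro x hx
    have h1 : ContinuousOn (fun t : ℝ => s (z₀ + (t : ℂ) ^ 2 * (x - z₀))) (Icc 0 1) :=
      hs.continuousOn.comp (hpath x).continuousOn (fun t ht => hsub (hmem x hx t ht.1 ht.2))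
    exact (by fun_prop : Continuous (fun t : ℝ => 2 * (t : ℂ) ^ (n + 1))).continuousOn.mul h1
  have hcF' : ∀ x : ℂ, ‖x - z₀‖ ≤ R → ContinuousOn
      (fun t : ℝ => 2 * (t : ℂ) ^ (n + 3) * deriv s (z₀ + (t : ℂ) ^ 2 * (x - z₀)))
      (Icc 0 1) := by
    intro x hx
    have h1 : ContinuousOn (fun t : ℝ => deriv s (z₀ + (t : ℂ) ^ 2 * (x - z₀))) (Icc 0 1) :=
      hs'.comp (hpath x).continuousOn (fun t ht => hsub (hmem x hx t ht.1 ht.2))
    exact (by fun_prop : Continuous (fun t : ℝ => 2 * (t : ℂ) ^ (n + 3))).continuousOn.mul h1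
  have hnear : ∀ x ∈ ball z (R - ‖z - z₀‖), ‖x - z₀‖ ≤ R := by
    intro x hx
    rw [mem_ball, dist_eq_norm] at hx
    have h1 : ‖x - z₀‖ ≤ ‖x - z‖ + ‖z - z₀‖ := by
      have h2 : x - z₀ = (x - z) + (z - z₀) := by ring
      rw [h2]
      exact norm_add_le _ _
    linarith
  have hcomp : ∀ x : ℂ, ‖x - z₀‖ ≤ R → ∀ t : ℝ, 0 ≤ t → t ≤ 1 →
      HasDerivAt (fun x : ℂ => 2 * (t : ℂ) ^ (n + 1) * s (z₀ + (t : ℂ) ^ 2 * (x - z₀)))
        (2 * (t : ℂ) ^ (n + 3) * deriv s (z₀ + (t : ℂ) ^ 2 * (x - z₀))) x := by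
    intro x hx t h0 h1
    have e1 : HasDerivAt (fun x : ℂ => z₀ + (t : ℂ) ^ 2 * (x - z₀)) ((t : ℂ) ^ 2) x := by
      have := (((hasDerivAt_id x).sub_const z₀).const_mul ((t : ℂ) ^ 2)).const_add z₀
      simpa using this
    have e2 := (hsd _ (hsub (hmem x hx t h0 h1))).comp x e1
    have e3 := e2.const_mul (2 * (t : ℂ) ^ (n + 1))
    refine e3.congr_deriv ?_
    ring
  have key := intervalIntegral.hasDerivAt_integral_of_dominated_loc_of_deriv_le
    (μ := volume) (a := 0) (b := 1) (bound := fun _ => 2 * M)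
    (F := fun x t => 2 * (t : ℂ) ^ (n + 1) * s (z₀ + (t : ℂ) ^ 2 * (x - z₀)))
    (F' := fun x t => 2 * (t : ℂ) ^ (n + 3) * deriv s (z₀ + (t : ℂ) ^ 2 * (x - z₀)))
    (x₀ := z) (s := ball z (R - ‖z - z₀‖)) (ball_mem_nhds z (by linarith))
    (by
      filter_upwards [ball_mem_nhds z (by linarith : 0 < R - ‖z - z₀‖)] with x hx
      rw [uIoc_of_le zero_le_one]
      exact ((hcF x (hnear x hx)).mono Ioc_subset_Icc_self).aestronglyMeasurable
        measurableSet_Ioc)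
    ((hcF z hzR.le).intervalIntegrable_of_Icc zero_le_one)
    (by
      rw [uIoc_of_le zero_le_one]
      exact ((hcF' z hzR.le).mono Ioc_subset_Icc_self).aestronglyMeasurable
        measurableSet_Ioc)
    (by
      refine Filter.Eventually.of_forall fun t ht x hx => ?_
      rw [uIoc_of_le zero_le_one] at ht
      have h1 := hM _ (hmem x (hnear x hx) t ht.1.le ht.2)
      rw [norm_mul, norm_mul, norm_pow, Complex.norm_real, Real.norm_eq_abs,
        abs_of_pos ht.1]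
      have h2 : t ^ (n + 3) ≤ 1 := pow_le_one₀ ht.1.le ht.2
      have h3 : ‖(2 : ℂ)‖ = 2 := by simp
      rw [h3]
      have h4 : 0 ≤ t ^ (n + 3) := pow_nonneg ht.1.le _
      have h5 : 0 ≤ ‖deriv s (z₀ + (t : ℂ) ^ 2 * (x - z₀))‖ := norm_nonneg _
      nlinarith)
    intervalIntegrable_const
    (by
      refine Filter.Eventually.of_forall fun t ht x hx => ?_
      rw [uIoc_of_le zero_le_one] at ht
      exact hcomp x (hnear x hx) t ht.1.le ht.2)
  refine ⟨key.2, ?_⟩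
  have iF := (hcF z hzR.le).intervalIntegrable_of_Icc (μ := volume) zero_le_one
  have iF' := key.1
  have hsum : ∫ t in (0 : ℝ)..1, (((n : ℂ) + 2) / 2 *
      (2 * (t : ℂ) ^ (n + 1) * s (z₀ + (t : ℂ) ^ 2 * (z - z₀))) +
      (z - z₀) * (2 * (t : ℂ) ^ (n + 3) * deriv s (z₀ + (t : ℂ) ^ 2 * (z - z₀)))) = s z := by
    have h1 := intervalIntegral.integral_eq_sub_of_hasDerivAt (a := 0) (b := 1)
      (f := fun t : ℝ => (t : ℂ) ^ (n + 2) * s (z₀ + (t : ℂ) ^ 2 * (z - z₀)))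
      (f' := fun t : ℝ => (((n : ℂ) + 2) / 2 *
      (2 * (t : ℂ) ^ (n + 1) * s (z₀ + (t : ℂ) ^ 2 * (z - z₀))) +
      (z - z₀) * (2 * (t : ℂ) ^ (n + 3) * deriv s (z₀ + (t : ℂ) ^ 2 * (z - z₀)))))
      (by
        intro t ht
        rw [uIcc_of_le zero_le_one] at ht
        have e1 : HasDerivAt (fun w : ℂ => z₀ + w ^ 2 * (z - z₀))
            (2 * (t : ℂ) * (z - z₀)) (t : ℂ) := by
          have := ((hasDerivAt_pow 2 (t : ℂ)).mul_const (z - z₀)).const_add z₀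
          refine this.congr_deriv ?_
          simp
        have e2 := (hsd _ (hsub (hmem z hzR.le t ht.1 ht.2))).comp (t : ℂ) e1
        have e3 := (hasDerivAt_pow (n + 2) (t : ℂ)).mul e2
        have e4 := e3.comp_ofReal
        refine e4.congr_deriv ?_
        simp only [Function.comp_apply, Nat.add_succ_sub_one]
        push_cast
        ring)
      ((iF.const_mul _).add (iF'.const_mul _))
    rw [h1]
    simp
  rw [intervalIntegral.integral_add (iF.const_mul _) (iF'.const_mul _),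
    intervalIntegral.integral_const_mul, intervalIntegral.integral_const_mul] at hsum
  exact hsum

end NFAM

open NFAM in
theorem specNFA : SpecNFA := by
  intro h z₀ δ hδ hh hne
  have hz₀ : z₀ ∈ ball z₀ δ := mem_ball_self hδ
  -- the order of the zero
  have hnz : ¬ ∀ᶠ z in 𝓝 z₀, h z = 0 := by
    intro h0
    have h1 : ∀ᶠ z in 𝓝[≠] z₀, h z = 0 := h0.filter_mono nhdsWithin_le_nhds
    have h2 : ∀ᶠ z in 𝓝[≠] z₀, False := by
      filter_upwards [h1, hne] with z h3 h4 using h4 h3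
    exact (h2.exists).elim fun _ h3 => h3
  obtain ⟨n, u, hu, hu0, hhu⟩ := (hh z₀ hz₀).exists_eventuallyEq_pow_smul_nonzero_iff.2 hnz
  -- the square root of `u`
  have hsl : ∀ᶠ z in 𝓝 z₀, u z / u z₀ ∈ slitPlane := by
    have hc : ContinuousAt (fun z => u z / u z₀) z₀ := hu.continuousAt.div_const _
    apply hc.eventually
    apply isOpen_slitPlane.mem_nhds
    show u z₀ / u z₀ ∈ slitPlane
    rw [div_self hu0]
    exact one_mem_slitPlane
  obtain ⟨ρ₀, hρ₀, hb₀⟩ := Metric.eventually_nhds_iff_ball.1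
    ((hhu.and hsl).and hu.eventually_analyticAt)
  obtain ⟨c, hc⟩ : ∃ c : ℂ, c ^ 2 = u z₀ := IsAlgClosed.exists_pow_nat_eq (u z₀) two_pos
  set s : ℂ → ℂ := fun z => c * exp (log (u z / u z₀) / 2) with hs
  have hc0 : c ≠ 0 := by
    rintro rfl
    apply hu0
    rw [← hc]
    simp
  have hs2 : ∀ z ∈ ball z₀ ρ₀, s z ^ 2 = u z := by
    intro z hz
    have h1 : u z / u z₀ ≠ 0 := slitPlane_ne_zero (hb₀ z hz).1.2
    have h2 : exp (log (u z / u z₀) / 2) ^ 2 = u z / u z₀ := by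
      rw [← Complex.exp_nat_mul]
      push_cast
      rw [mul_div_cancel₀ _ two_ne_zero, Complex.exp_log h1]
    simp only [hs]
    rw [mul_pow, hc, h2]
    field_simp
  have hsne : ∀ z, s z ≠ 0 := fun z => mul_ne_zero hc0 (Complex.exp_ne_zero _)
  have hsd : DifferentiableOn ℂ s (ball z₀ ρ₀) := by
    intro z hz
    have h1 : DifferentiableAt ℂ (fun z => u z / u z₀) z :=
      (hb₀ z hz).2.differentiableAt.div_const _
    have h2 : DifferentiableAt ℂ (fun z => log (u z / u z₀)) z := h1.clog (hb₀ z hz).1.2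
    exact ((h2.div_const 2).cexp.const_mul c).differentiableWithinAt
  obtain ⟨V, V', hV⟩ := ode s z₀ ρ₀ hsd n
  have hz₁ : z₀ ∈ ball z₀ ρ₀ := mem_ball_self hρ₀
  have hV0 : V z₀ ≠ 0 := by
    intro h0
    have h1 := (hV z₀ hz₁).2
    rw [h0, mul_zero, sub_self, zero_mul, add_zero] at h1
    exact hsne z₀ h1.symm
  have hsl2 : ∀ᶠ z in 𝓝 z₀, V z / V z₀ ∈ slitPlane := by
    have hc : ContinuousAt (fun z => V z / V z₀) z₀ :=
      (hV z₀ hz₁).1.continuousAt.div_const _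
    apply hc.eventually
    apply isOpen_slitPlane.mem_nhds
    show V z₀ / V z₀ ∈ slitPlane
    rw [div_self hV0]
    exact one_mem_slitPlane
  obtain ⟨ρ₁, hρ₁, hb₁⟩ := Metric.eventually_nhds_iff_ball.1 hsl2
  set ρ := min δ (min ρ₀ ρ₁) with hρ
  have hρpos : 0 < ρ := lt_min hδ (lt_min hρ₀ hρ₁)
  have hρδ : ball z₀ ρ ⊆ ball z₀ δ := ball_subset_ball (min_le_left _ _)
  have hρ0 : ball z₀ ρ ⊆ ball z₀ ρ₀ :=
    ball_subset_ball ((min_le_right _ _).trans (min_le_left _ _))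
  have hρ1 : ball z₀ ρ ⊆ ball z₀ ρ₁ :=
    ball_subset_ball ((min_le_right _ _).trans (min_le_right _ _))
  -- the coordinate
  obtain ⟨c', hc'⟩ : ∃ c' : ℂ, c' ^ (n + 2) = V z₀ ^ 2 :=
    IsAlgClosed.exists_pow_nat_eq _ (by omega)
  have hc'0 : c' ≠ 0 := by
    rintro rfl
    rw [zero_pow (by omega)] at hc'
    exact hV0 (pow_eq_zero_iff two_ne_zero |>.1 hc'.symm)
  have hN0 : ((n : ℂ) + 2) ≠ 0 := by
    have : ((n + 2 : ℕ) : ℂ) ≠ 0 := Nat.cast_ne_zero.2 (by omega)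
    push_cast at this
    exact this
  set E : ℂ → ℂ := fun z => c' * exp (2 / ((n : ℂ) + 2) * log (V z / V z₀)) with hE
  have hEne : ∀ z, E z ≠ 0 := fun z => mul_ne_zero hc'0 (Complex.exp_ne_zero _)
  have hVne : ∀ z ∈ ball z₀ ρ, V z ≠ 0 := by
    intro z hz h0
    have h1 := slitPlane_ne_zero (hb₁ z (hρ1 hz))
    rw [h0, zero_div] at h1
    exact h1 rfl
  have hEN : ∀ z ∈ ball z₀ ρ, E z ^ (n + 2) = V z ^ 2 := by
    intro z hz
    have h1 : V z / V z₀ ≠ 0 := slitPlane_ne_zero (hb₁ z (hρ1 hz))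
    have h2 : exp (2 / ((n : ℂ) + 2) * log (V z / V z₀)) ^ (n + 2) = (V z / V z₀) ^ 2 := by
      rw [← Complex.exp_nat_mul]
      push_cast
      rw [show ((n : ℂ) + 2) * (2 / ((n : ℂ) + 2) * log (V z / V z₀)) =
        ((2 : ℕ) : ℂ) * log (V z / V z₀) by
          push_cast
          field_simp, Complex.exp_nat_mul, Complex.exp_log h1]
    simp only [hE]
    rw [mul_pow, hc', h2]
    field_simp
  have hEd : ∀ z ∈ ball z₀ ρ, HasDerivAt E (E z * (2 / ((n : ℂ) + 2) * (V' z / V z))) z := by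
    intro z hz
    have h1 : HasDerivAt (fun z => V z / V z₀) (V' z / V z₀) z :=
      (hV z (hρ0 hz)).1.div_const _
    have h2 := h1.clog (hb₁ z (hρ1 hz))
    have h3 := ((h2.const_mul (2 / ((n : ℂ) + 2))).cexp.const_mul c')
    refine h3.congr_deriv ?_
    have h4 := hVne z hz
    simp only [hE]
    field_simp
  set ξ : ℂ → ℂ := fun z => (z - z₀) * E z with hξ
  set ξ' : ℂ → ℂ := fun z => 2 * E z * s z / (((n : ℂ) + 2) * V z) with hξ'
  have hξd : ∀ z ∈ ball z₀ ρ, HasDerivAt ξ (ξ' z) z := by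
    intro z hz
    have h1 := (((hasDerivAt_id z).sub_const z₀).mul (hEd z hz))
    refine h1.congr_deriv ?_
    have h4 := hVne z hz
    have h5 := (hV z (hρ0 hz)).2
    simp only [hξ', id, one_mul]
    rw [← h5]
    field_simp
  have hξ'ne : ∀ z ∈ ball z₀ ρ, ξ' z ≠ 0 := by
    intro z hz
    simp only [hξ']
    exact div_ne_zero (mul_ne_zero (mul_ne_zero two_ne_zero (hEne z)) (hsne z))
      (mul_ne_zero hN0 (hVne z hz))
  have hmain : ∀ z ∈ ball z₀ ρ, 4 * h z = ((n : ℂ) + 2) ^ 2 * ξ z ^ n * ξ' z ^ 2 := by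
    intro z hz
    have h1 : h z = (z - z₀) ^ n * u z := by
      have := (hb₀ z (hρ0 hz)).1.1
      rw [smul_eq_mul] at this
      exact this
    have h2 := hs2 z (hρ0 hz)
    have h3 := hEN z hz
    have h4 := hVne z hz
    rw [h1, ← h2]
    simp only [hξ, hξ']
    have h5 : ((n : ℂ) + 2) ^ 2 * ((z - z₀) * E z) ^ n *
        (2 * E z * s z / (((n : ℂ) + 2) * V z)) ^ 2 =
        4 * (z - z₀) ^ n * s z ^ 2 * (E z ^ (n + 2)) / V z ^ 2 := by
      rw [mul_pow (z - z₀) (E z) n, pow_add (E z) n 2]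
      generalize (z - z₀) ^ n = X
      generalize E z ^ n = Y
      field_simp
      ring
    rw [h5, h3]
    field_simp
  -- the local inverse
  have hopρ := isOpen_ball (x := z₀) (ε := ρ)
  have hmρ : z₀ ∈ ball z₀ ρ := mem_ball_self hρpos
  have hξdiff : DifferentiableOn ℂ ξ (ball z₀ ρ) := fun z hz =>
    (hξd z hz).differentiableAt.differentiableWithinAt
  have hξan : AnalyticOnNhd ℂ ξ (ball z₀ ρ) := hξdiff.analyticOnNhd hopρ
  have hstrict : HasStrictDerivAt ξ (ξ' z₀) z₀ := by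
    have h1 := (hξan z₀ hmρ).hasStrictDerivAt
    rwa [(hξd z₀ hmρ).deriv] at h1
  have hF := hstrict.hasStrictFDerivAt_equiv (hξ'ne z₀ hmρ)
  set e := hF.toOpenPartialHomeomorph ξ with he
  have hecoe : (e : ℂ → ℂ) = ξ := hF.toOpenPartialHomeomorph_coe
  have hsrc : z₀ ∈ e.source := hF.mem_toOpenPartialHomeomorph_source
  have hξ0 : ξ z₀ = 0 := by simp [hξ]
  have htgt : (0 : ℂ) ∈ e.target := by
    have := e.map_source hsrc
    rw [hecoe, hξ0] at this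
    exact this
  have hsym0 : e.symm 0 = z₀ := by
    have := e.left_inv hsrc
    rw [hecoe, hξ0] at this
    exact this
  have hT : ∀ᶠ ζ in 𝓝 (0 : ℂ), ζ ∈ e.target ∧ e.symm ζ ∈ ball z₀ ρ := by
    have h1 : ContinuousAt e.symm 0 := e.symm.continuousAt htgt
    have h2 : ∀ᶠ ζ in 𝓝 (0 : ℂ), e.symm ζ ∈ ball z₀ ρ := by
      apply h1.eventually
      apply hopρ.mem_nhds
      rw [hsym0]
      exact hmρ
    have h3 : ∀ᶠ ζ in 𝓝 (0 : ℂ), ζ ∈ e.target := e.open_target.mem_nhds htgt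
    exact h3.and h2
  obtain ⟨r, hr, hbr⟩ := Metric.eventually_nhds_iff_ball.1 hT
  have hW : ∀ᶠ z in 𝓝 z₀, z ∈ e.source ∧ z ∈ ball z₀ ρ ∧ ‖ξ z‖ < r := by
    have h1 : ContinuousAt ξ z₀ := (hξd z₀ hmρ).continuousAt
    have h2 : ∀ᶠ z in 𝓝 z₀, ξ z ∈ ball (0 : ℂ) r := by
      apply h1.eventually
      rw [hξ0]
      exact ball_mem_nhds 0 hr
    filter_upwards [e.open_source.mem_nhds hsrc, hopρ.mem_nhds hmρ, h2] with z a1 a2 a3
    refine ⟨a1, a2, ?_⟩
    simpa using a3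
  obtain ⟨δ', hδ', hbd⟩ := Metric.eventually_nhds_iff_ball.1 hW
  have hright : ∀ ζ ∈ ball (0 : ℂ) r, ξ (e.symm ζ) = ζ := by
    intro ζ hζ
    have := e.right_inv (hbr ζ hζ).1
    rw [hecoe] at this
    exact this
  have hleft : ∀ z ∈ ball z₀ δ', e.symm (ξ z) = z := by
    intro z hz
    have := e.left_inv (hbd z hz).1
    rw [hecoe] at this
    exact this
  have hχd : ∀ ζ ∈ ball (0 : ℂ) r, HasDerivAt e.symm (ξ' (e.symm ζ))⁻¹ ζ := by
    intro ζ hζ
    apply e.hasDerivAt_symm (hbr ζ hζ).1 (hξ'ne _ (hbr ζ hζ).2)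
    rw [hecoe]
    exact hξd _ (hbr ζ hζ).2
  refine ⟨n + 2, ξ, e.symm, min δ' δ, r, by omega, lt_min hδ' hδ, min_le_right _ _, hr,
    ?_, ?_, hξ0, ?_, ?_, ?_, ?_⟩
  · intro z hz
    exact hξan z (hbd z (ball_subset_ball (min_le_left _ _) hz)).2.1
  · intro z hz w hw hzw
    rw [← hleft z (ball_subset_ball (min_le_left _ _) hz),
      ← hleft w (ball_subset_ball (min_le_left _ _) hw), hzw]
  · intro z hz
    exact ⟨(hbd z (ball_subset_ball (min_le_left _ _) hz)).2.2,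
      hleft z (ball_subset_ball (min_le_left _ _) hz)⟩
  · apply DifferentiableOn.analyticOnNhd _ isOpen_ball
    intro ζ hζ
    exact (hχd ζ hζ).differentiableAt.differentiableWithinAt
  · intro a ha b hb hab
    rw [← hright a ha, ← hright b hb, hab]
  · intro ζ hζ
    refine ⟨hρδ (hbr ζ hζ).2, ?_⟩
    rw [(hχd ζ hζ).deriv]
    have h1 := hmain _ (hbr ζ hζ).2
    rw [hright ζ hζ] at h1
    have h2 := hξ'ne _ (hbr ζ hζ).2
    have h3 : 4 * (h (e.symm ζ) * (ξ' (e.symm ζ))⁻¹ ^ 2) =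
        (4 * h (e.symm ζ)) * (ξ' (e.symm ζ))⁻¹ ^ 2 := by ring
    rw [h3, h1]
    push_cast
    field_simp

end Pool.Agent.Lib.MP250511.SB
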