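import Pool.Agent.Lib.MP_250511_an.SB.SpecG

/-!
# MP_250511_an : module NFC (the local form at a free boundary point, by uniformization)
-/

set_option autoImplicit false

namespace Pool.Agent.Lib.MP250511.SB

open Complex Metric Set MeasureTheory Filter Topology
open scoped Real ENNReal ComplexConjugate ContDiff

noncomputable section

namespace NFCM

/-- the branch of `v^(2/N)` -/
def Z (N : ℕ) (v : ℂ) : ℂ := v ^ ((2 : ℂ) / (N : ℂ))

lemma Z_pow {N : ℕ} (hN : 2 ≤ N) (v : ℂ) : Z N v ^ N = v ^ 2 := by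
  have hN0 : (N : ℂ) ≠ 0 := by
    have : N ≠ 0 := by omega
    exact_mod_cast this
  unfold Z
  rw [← Complex.cpow_nat_mul, mul_div_cancel₀ _ hN0]
  exact_mod_cast Complex.cpow_natCast v 2

lemma norm_Z_pow {N : ℕ} (hN : 2 ≤ N) (v : ℂ) : ‖Z N v‖ ^ N = ‖v‖ ^ 2 := by
  rw [← norm_pow, Z_pow hN, norm_pow]

lemma Z_zero {N : ℕ} (hN : 2 ≤ N) : Z N 0 = 0 := by
  have hN0 : (N : ℂ) ≠ 0 := by
    have : N ≠ 0 := by omega
    exact_mod_cast this
  unfold Z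
  exact Complex.zero_cpow (div_ne_zero two_ne_zero hN0)

lemma Z_ne {N : ℕ} (hN : 2 ≤ N) {v : ℂ} (hv : v ≠ 0) : Z N v ≠ 0 := by
  intro h
  have h1 := Z_pow hN v
  rw [h, zero_pow (by omega)] at h1
  exact hv (pow_eq_zero_iff (two_ne_zero) |>.1 h1.symm)

lemma exp_re_pos {N : ℕ} (hN : 2 ≤ N) : 0 < ((2 : ℂ) / (N : ℂ)).re := by
  have h1 : ((2 : ℂ) / (N : ℂ)) = (((2 : ℝ) / (N : ℝ) : ℝ) : ℂ) := by push_cast; rfl
  rw [h1, Complex.ofReal_re]
  have : (0 : ℝ) < N := by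
    have : 0 < N := by omega
    exact_mod_cast this
  positivity

lemma Z_cont {N : ℕ} (hN : 2 ≤ N) {v : ℂ} (hv : 0 ≤ v.re) : ContinuousAt (Z N) v :=
  Complex.continuousAt_cpow_const_of_re_pos (Or.inl hv) (exp_re_pos hN)

lemma slit {v : ℂ} (hv : 0 ≤ v.re) (h0 : v ≠ 0) : v ∈ slitPlane := by
  rw [Complex.mem_slitPlane_iff]
  rcases hv.lt_or_eq with h | h
  · exact Or.inl h
  · right
    intro h2
    exact h0 (Complex.ext h.symm h2)

lemma Z_an {N : ℕ} {v : ℂ} (hv : 0 ≤ v.re) (h0 : v ≠ 0) : AnalyticAt ℂ (Z N) v := by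
  unfold Z
  exact analyticAt_id.cpow analyticAt_const (slit hv h0)

lemma Z_deriv {N : ℕ} {v : ℂ} (hv : 0 ≤ v.re) (h0 : v ≠ 0) :
    HasDerivAt (Z N) ((2 : ℂ) / (N : ℂ) * Z N v / v) v := by
  have h1 := (hasDerivAt_id v).cpow_const (c := (2 : ℂ) / (N : ℂ)) (slit hv h0)
  have h2 : (2 : ℂ) / (N : ℂ) * (id v) ^ ((2 : ℂ) / (N : ℂ) - 1) * 1
      = (2 : ℂ) / (N : ℂ) * Z N v / v := by
    rw [Complex.cpow_sub _ _ (by simpa using h0), Complex.cpow_one]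
    unfold Z
    simp only [id]
    ring
  rw [h2] at h1
  exact h1

/-- a square root with nonnegative real part -/
lemma exists_root (a : ℂ) : ∃ w : ℂ, 0 ≤ w.re ∧ w ^ 2 = a := by
  obtain ⟨w, hw⟩ := IsAlgClosed.exists_pow_nat_eq a (n := 2) (by norm_num)
  rcases le_total 0 w.re with h | h
  · exact ⟨w, h, hw⟩
  · refine ⟨-w, by simpa using h, ?_⟩
    rw [neg_sq, hw]

lemma sum_eq {ζ w : ℂ} {N : ℕ} (h : w ^ 2 = ζ ^ N) :
    ‖ζ‖ ^ N + (ζ ^ N).re = 2 * w.re ^ 2 := by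
  rw [← norm_pow, ← h, norm_pow, ← Complex.normSq_eq_norm_sq, Complex.normSq_apply, sq w,
    Complex.mul_re]
  ring

/-- the strip is mapped into the disc -/
lemma strip {N : ℕ} (hN : 2 ≤ N) {r η : ℝ} (hr : 0 < r) (_hη : 0 < η) (h4 : (2 * η) ^ 2 = r ^ N)
    {ε v : ℂ} (hε : ‖ε‖ = 1) (h1 : 0 ≤ v.re) (h2 : v.re < η) (h3 : |v.im| < η) :
    ε * Z N v ∈ ball (0 : ℂ) r := by
  rw [mem_ball_zero_iff, norm_mul, hε, one_mul]
  apply lt_of_pow_lt_pow_left₀ N hr.le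
  rw [norm_Z_pow hN, ← h4, ← Complex.normSq_eq_norm_sq, Complex.normSq_apply]
  have h5 : v.re * v.re < η * η := mul_self_lt_mul_self h1 h2
  have h6 : v.im * v.im < η * η := by
    have := mul_self_lt_mul_self (abs_nonneg v.im) h3
    rwa [abs_mul_abs_self] at this
  nlinarith [mul_pos _hη _hη]

end NFCM

open NFCM in
theorem specNFC (hNFA : SpecNFA) (hNFB : SpecNFB) : SpecNFC := by
  intro f g h Ω z₀ δ hP hδ hh hq hne hnull hz₀
  obtain ⟨N, ξ, χ, δ₁, r, hN, hδ₁, hδ₁δ, hr, hξ, hξi, hξ0, hχξ, hχ, hχi, hχh⟩ :=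
    hNFA h z₀ δ hδ hh hne
  have hN0 : (N : ℂ) ≠ 0 := by
    have : N ≠ 0 := by omega
    exact_mod_cast this
  have hχ0 : χ 0 = z₀ := by
    have := (hχξ z₀ (mem_ball_self hδ₁)).2
    rwa [hξ0] at this
  obtain ⟨η, hη, h4⟩ : ∃ η : ℝ, 0 < η ∧ (2 * η) ^ 2 = r ^ N := by
    refine ⟨√(r ^ N) / 2, by positivity, ?_⟩
    rw [mul_div_cancel₀ _ (two_ne_zero), Real.sq_sqrt (by positivity)]
  -- shrink
  have hcont : ContinuousAt (fun z => ‖ξ z‖ ^ N) z₀ :=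
    ((hξ z₀ (mem_ball_self hδ₁)).continuousAt.norm).pow N
  have hval : ‖ξ z₀‖ ^ N < η ^ 2 := by
    rw [hξ0, norm_zero, zero_pow (by omega)]
    positivity
  obtain ⟨δ₂, hδ₂, hsub⟩ := Metric.eventually_nhds_iff_ball.1 (hcont.eventually_lt
    (continuousAt_const (y := η ^ 2)) hval)
  refine ⟨N, hN, min δ₁ δ₂, lt_min hδ₁ hδ₂, ξ,
    hξ.mono (ball_subset_ball (min_le_left _ _)), hξi.mono (ball_subset_ball (min_le_left _ _)),
    hξ0, ?_⟩
  intro z hz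
  have hz1 : z ∈ ball z₀ δ₁ := ball_subset_ball (min_le_left _ _) hz
  have hz2 : ‖ξ z‖ ^ N < η ^ 2 := hsub z (ball_subset_ball (min_le_right _ _) hz)
  by_cases hzz : z = z₀
  · subst hzz
    refine ⟨⟨fun _ => ?_, fun _ => hz₀⟩, fun h => absurd h hz₀⟩
    rw [hξ0, norm_zero, zero_pow (by omega), zero_pow (by omega)]
    simp
  have hζ0 : ξ z ≠ 0 := by
    intro h0
    apply hzz
    have h1 := (hχξ z hz1).2
    rw [h0, hχ0] at h1
    exact h1.symm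
  obtain ⟨w, hwre, hw⟩ := exists_root (ξ z ^ N)
  have hw0 : w ≠ 0 := by
    rintro rfl
    rw [zero_pow (two_ne_zero)] at hw
    exact hζ0 (pow_eq_zero_iff (by omega) |>.1 hw.symm)
  have hwn : ‖w‖ < η := by
    apply lt_of_pow_lt_pow_left₀ 2 hη.le
    rw [← norm_pow, hw, norm_pow]
    exact hz2
  have hw2 : w.re < η := lt_of_le_of_lt (Complex.re_le_norm w) hwn
  have hw3 : |w.im| < η := lt_of_le_of_lt (Complex.abs_im_le_norm w) hwn
  obtain ⟨ε, hεd⟩ : ∃ ε : ℂ, ε = ξ z / Z N w := ⟨_, rfl⟩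
  have hεN : ε ^ N = 1 := by
    rw [hεd, div_pow, Z_pow hN, hw]
    exact div_self (pow_ne_zero _ hζ0)
  have hεn : ‖ε‖ = 1 := norm_eq_one_of_pow_eq_one hεN (by omega)
  have hεw : ε * Z N w = ξ z := by
    rw [hεd, div_mul_cancel₀ _ (Z_ne hN hw0)]
  have hstrip : ∀ v : ℂ, 0 ≤ v.re → v.re < η → |v.im| < η → ε * Z N v ∈ ball (0 : ℂ) r :=
    fun v h1 h2 h3 => strip hN hr hη h4 hεn h1 h2 h3
  have hZN : ∀ v : ℂ, (ε * Z N v) ^ N = v ^ 2 := by
    intro v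
    rw [mul_pow, hεN, Z_pow hN, one_mul]
  have key := hNFB f g Ω (fun v => χ (ε * Z N v)) η hP hη
    (by
      intro v hv
      apply ContinuousAt.continuousWithinAt
      have h1 : ContinuousAt χ (ε * Z N v) := (hχ _ (hstrip v hv.1 hv.2.1 hv.2.2)).continuousAt
      exact ContinuousAt.comp (f := fun v => ε * Z N v) (g := χ) h1
        (continuousAt_const.mul (Z_cont hN hv.1)))
    (by
      intro v h1 h2 h3 h0
      exact AnalyticAt.comp (f := fun v => ε * Z N v) (g := χ) (hχ _ (hstrip v h1 h2 h3))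
        (analyticAt_const.mul (Z_an h1 h0)))
    (by
      intro v h1 h2 h3 h0 hΩ
      have hb := hχh _ (hstrip v h1 h2 h3)
      have hqe : qG g (χ (ε * Z N v)) = h (χ (ε * Z N v)) := hq _ ⟨hΩ, hb.1⟩
      have hd1 : HasDerivAt (fun v => ε * Z N v) (ε * ((2 : ℂ) / (N : ℂ) * Z N v / v)) v :=
        (Z_deriv h1 h0).const_mul ε
      have hd2 : HasDerivAt χ (deriv χ (ε * Z N v)) (ε * Z N v) :=
        (hχ _ (hstrip v h1 h2 h3)).differentiableAt.hasDerivAt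
      have hd3 : deriv (fun v => χ (ε * Z N v)) v
          = deriv χ (ε * Z N v) * (ε * ((2 : ℂ) / (N : ℂ) * Z N v / v)) :=
        (HasDerivAt.comp (h₂ := χ) (h := fun v => ε * Z N v) v hd2 hd1).deriv
      have hpow : (ε * Z N v) ^ (N - 2) * (ε * Z N v) ^ 2 = v ^ 2 := by
        rw [← pow_add, Nat.sub_add_cancel hN, hZN]
      show qG g (χ (ε * Z N v)) * deriv (fun v => χ (ε * Z N v)) v ^ 2 = 1
      rw [hqe, hd3]
      have h4' := hb.2
      have hv2 : v ^ 2 ≠ 0 := pow_ne_zero _ h0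
      have hgoal : h (χ (ε * Z N v)) * (deriv χ (ε * Z N v)
          * (ε * ((2 : ℂ) / (N : ℂ) * Z N v / v))) ^ 2
          = (4 * (h (χ (ε * Z N v)) * deriv χ (ε * Z N v) ^ 2)) * (ε * Z N v) ^ 2
            / ((N : ℂ) ^ 2 * v ^ 2) := by
        field_simp
        ring
      rw [hgoal, h4', mul_assoc, hpow]
      exact div_self (mul_ne_zero (pow_ne_zero _ hN0) hv2))
    (by
      intro v₁ hv₁ v₂ hv₂ he
      have he' : χ (ε * Z N v₁) = χ (ε * Z N v₂) := he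
      have h1 := hχi (hstrip v₁ hv₁.1.le hv₁.2.1 hv₁.2.2) (hstrip v₂ hv₂.1.le hv₂.2.1 hv₂.2.2) he'
      have h2 : v₁ ^ 2 = v₂ ^ 2 := by rw [← hZN v₁, ← hZN v₂, h1]
      rcases sq_eq_sq_iff_eq_or_eq_neg.1 h2 with h3 | h3
      · exact h3
      · exfalso
        have h5 : v₁.re = - v₂.re := by rw [h3, Complex.neg_re]
        have h6 := hv₁.1
        have h7 := hv₂.1
        linarith)
    (by
      refine measure_mono_null ?_ hnull
      rintro y ⟨⟨v, hv, rfl⟩, hy⟩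
      exact ⟨(hχh _ (hstrip v hv.1.le hv.2.1 hv.2.2)).1, hy⟩)
    (by
      show χ (ε * Z N 0) ∉ Ω
      rw [Z_zero hN, mul_zero, hχ0]
      exact hz₀)
    w hwre hw2 hw3
  have hzw : χ (ε * Z N w) = z := by rw [hεw]; exact (hχξ z hz1).2
  have key' : (χ (ε * Z N w) ∉ Ω ↔ w.re = 0)
    ∧ (χ (ε * Z N w) ∈ Ω → - Real.log ‖g (χ (ε * Z N w))‖ = w.re) := key
  rw [hzw] at key'
  have hs := sum_eq hw
  refine ⟨?_, ?_⟩
  · rw [key'.1]
    constructor
    · intro h0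
      rw [h0] at hs
      linarith
    · intro h0
      have h1 : w.re ^ 2 = 0 := by linarith
      exact pow_eq_zero_iff (two_ne_zero) |>.1 h1
  · intro hzΩ
    have h1 := key'.2 hzΩ
    rw [hs, ← h1, neg_sq]

end

end Pool.Agent.Lib.MP250511.SB
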