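import Pool.Agent.Lib.MP_250511_an.SB.SpecG

/-!
# MP_250511_an, module NFD: the complete local form of the free boundary of an extremal domain
-/

set_option autoImplicit false

namespace Pool.Agent.Lib.MP250511.SB

open Complex Metric Set MeasureTheory Filter Topology
open scoped Real ENNReal ComplexConjugate ContDiff

namespace NFDM

lemma g_ne {f g : ℂ → ℂ} {Ω : Set ℂ} (hP : Pair f g Ω) {z : ℂ} (hz : z ∈ Ω) (h0 : z ≠ 0) :
    g z ≠ 0 := by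
  intro h
  apply h0
  rw [← hP.FG z hz, h, hP.zero]

lemma q_ne {f g : ℂ → ℂ} {Ω : Set ℂ} (hP : Pair f g Ω) {z : ℂ} (hz : z ∈ Ω) (h0 : z ≠ 0) :
    qG g z ≠ 0 := by
  unfold qG
  exact pow_ne_zero 2 (div_ne_zero (hP.dG z hz) (g_ne hP hz h0))

end NFDM

open NFDM in
theorem specNFD (hEXF : SpecEXF) (hLCF : SpecLCF) (hNFC : SpecNFC) : SpecNFD := by
  intro f hU hrho z₀ hz₀ hno
  obtain ⟨g, hE⟩ := hEXF f hU hrho
  have hP : Pair f g (f '' ball 0 1) := hE.toPair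
  set Ω : Set ℂ := f '' ball 0 1 with hΩ
  have h0Ω : (0 : ℂ) ∈ Ω := ⟨0, mem_ball_self one_pos, hP.zero⟩
  have hz₀Ω : z₀ ∉ Ω := by
    have h1 := hz₀.2
    rwa [hP.op.interior_eq] at h1
  have hz₀c : z₀ ∈ closure Ω := hz₀.1
  have hz₀0 : z₀ ≠ 0 := fun h => hz₀Ω (h ▸ h0Ω)
  have hK : z₀ ∉ KK Ω S.toReal := by
    rintro ⟨_, c, hc, hd⟩
    exact hno c hc hd
  obtain ⟨δ₁, hδ₁, h0b, h, han, heq, hvol⟩ := hLCF f g Ω S.toReal hE z₀ hz₀0 hK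
  -- `Ω` meets every ball around `z₀`
  have hmeet : ∀ ε > 0, ∃ z ∈ Ω, z ∈ ball z₀ ε := by
    intro ε hε
    obtain ⟨z, hz, hd⟩ := Metric.mem_closure_iff.mp hz₀c ε hε
    exact ⟨z, hz, by rwa [mem_ball, dist_comm]⟩
  have hne : (Ω ∩ ball z₀ δ₁).Nonempty := by
    obtain ⟨z, hz, hzb⟩ := hmeet δ₁ hδ₁
    exact ⟨z, hz, hzb⟩
  have hvol' := hvol hne
  -- `h` has no zeros near `z₀`, except perhaps `z₀`
  have hh : ∀ᶠ z in 𝓝[≠] z₀, h z ≠ 0 := by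
    rcases (han z₀ (mem_ball_self hδ₁)).eventually_eq_zero_or_eventually_ne_zero with h1 | h1
    · exfalso
      obtain ⟨ε, hε, hball⟩ := Metric.eventually_nhds_iff_ball.mp h1
      obtain ⟨z, hz, hzb⟩ := hmeet (min ε δ₁) (lt_min hε hδ₁)
      have hzε : z ∈ ball z₀ ε := ball_subset_ball (min_le_left _ _) hzb
      have hzδ : z ∈ ball z₀ δ₁ := ball_subset_ball (min_le_right _ _) hzb
      have hz0 : z ≠ 0 := fun h => h0b (h ▸ hzδ)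
      exact q_ne hP hz hz0 ((heq z ⟨hz, hzδ⟩).trans (hball z hzε))
    · exact h1
  obtain ⟨N, hN, δ', hδ', ξ, hξan, hξinj, hξ0, hξ⟩ :=
    hNFC f g h Ω z₀ δ₁ hP hδ₁ han heq hh hvol' hz₀Ω
  refine ⟨N, hN, δ', hδ', ξ, hξan, hξinj, hξ0, fun z hz => (hξ z hz).1, ?_⟩
  intro w hw hfw
  have h3 := (hξ (f w) hfw).2 ⟨w, hw, rfl⟩
  rwa [hP.GF w hw] at h3

end Pool.Agent.Lib.MP250511.SB
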