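import Pool.Agent.Lib.MP_250511_an.SB.SpecV

/-!
# MP_250511_an : module NFT (the local form at the tip of a slit, by uniformization)
-/

set_option autoImplicit false

namespace Pool.Agent.Lib.MP250511.SB

open Complex Metric Set MeasureTheory Filter Topology
open scoped Real ENNReal ComplexConjugate ContDiff

noncomputable section

namespace NFTM

/-- a square root with nonnegative real part -/
lemma exists_root (a : ℂ) : ∃ w : ℂ, 0 ≤ w.re ∧ w ^ 2 = a := by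
  obtain ⟨w, hw⟩ := IsAlgClosed.exists_pow_nat_eq a (n := 2) (by norm_num)
  rcases le_total 0 w.re with h | h
  · exact ⟨w, h, hw⟩
  · refine ⟨-w, by simpa using h, ?_⟩
    rw [neg_sq, hw]

lemma sum_eq {ζ w : ℂ} (h : w ^ 2 = ζ) :
    ‖ζ‖ + ζ.re = 2 * w.re ^ 2 := by
  rw [← h, norm_pow, ← Complex.normSq_eq_norm_sq, Complex.normSq_apply, sq w,
    Complex.mul_re]
  ring

/-- the strip is mapped into the disc -/
lemma strip {r η : ℝ} (_hη : 0 < η) (h4 : (2 * η) ^ 2 = r)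
    {v : ℂ} (h1 : 0 ≤ v.re) (h2 : v.re < η) (h3 : |v.im| < η) :
    v ^ 2 ∈ ball (0 : ℂ) r := by
  rw [mem_ball_zero_iff, norm_pow, ← h4, ← Complex.normSq_eq_norm_sq, Complex.normSq_apply]
  have h5 : v.re * v.re < η * η := mul_self_lt_mul_self h1 h2
  have h6 : v.im * v.im < η * η := by
    have := mul_self_lt_mul_self (abs_nonneg v.im) h3
    rwa [abs_mul_abs_self] at this
  nlinarith [mul_pos _hη _hη]

end NFTM

open NFTM in
theorem specNFT (hNFP : SpecNFP) (hNFB : SpecNFB) : SpecNFT := by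
  intro f g a Ω z₀ δ hP hδ ha hne hq hnull hz₀
  obtain ⟨ξ, χ, δ₁, r, hδ₁, hδ₁δ, hr, hξ, hξi, hξ0, hχξ, hχ, hχi, hχh⟩ := hNFP a z₀ δ hδ ha hne
  have hχ0 : χ 0 = z₀ := by
    have := (hχξ z₀ (mem_ball_self hδ₁)).2
    rwa [hξ0] at this
  obtain ⟨η, hη, h4⟩ : ∃ η : ℝ, 0 < η ∧ (2 * η) ^ 2 = r := by
    refine ⟨√r / 2, by positivity, ?_⟩
    rw [mul_div_cancel₀ _ (two_ne_zero), Real.sq_sqrt hr.le]
  -- shrink
  have hcont : ContinuousAt (fun z => ‖ξ z‖) z₀ := (hξ z₀ (mem_ball_self hδ₁)).continuousAt.norm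
  have hval : ‖ξ z₀‖ < η ^ 2 := by
    rw [hξ0, norm_zero]
    positivity
  obtain ⟨δ₂, hδ₂, hsub⟩ := Metric.eventually_nhds_iff_ball.1 (hcont.eventually_lt
    (continuousAt_const (y := η ^ 2)) hval)
  refine ⟨min δ₁ δ₂, lt_min hδ₁ hδ₂, ξ,
    hξ.mono (ball_subset_ball (min_le_left _ _)), hξi.mono (ball_subset_ball (min_le_left _ _)),
    hξ0, ?_⟩
  intro z hz
  have hz1 : z ∈ ball z₀ δ₁ := ball_subset_ball (min_le_left _ _) hz
  have hz2 : ‖ξ z‖ < η ^ 2 := hsub z (ball_subset_ball (min_le_right _ _) hz)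
  by_cases hzz : z = z₀
  · subst hzz
    refine ⟨⟨fun _ => ?_, fun _ => hz₀⟩, fun h => absurd h hz₀⟩
    rw [hξ0, norm_zero]
    simp
  have hζ0 : ξ z ≠ 0 := by
    intro h0
    apply hzz
    have h1 := (hχξ z hz1).2
    rw [h0, hχ0] at h1
    exact h1.symm
  obtain ⟨w, hwre, hw⟩ := exists_root (ξ z)
  have hw0 : w ≠ 0 := by
    rintro rfl
    rw [zero_pow (two_ne_zero)] at hw
    exact hζ0 hw.symm
  have hwn : ‖w‖ < η := by
    apply lt_of_pow_lt_pow_left₀ 2 hη.le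
    rw [← norm_pow, hw]
    exact hz2
  have hw2 : w.re < η := lt_of_le_of_lt (Complex.re_le_norm w) hwn
  have hw3 : |w.im| < η := lt_of_le_of_lt (Complex.abs_im_le_norm w) hwn
  have hstrip : ∀ v : ℂ, 0 ≤ v.re → v.re < η → |v.im| < η → v ^ 2 ∈ ball (0 : ℂ) r :=
    fun v h1 h2 h3 => strip hη h4 h1 h2 h3
  have hd1 : ∀ v : ℂ, HasDerivAt (fun v : ℂ => v ^ 2) (2 * v) v := by
    intro v
    have := hasDerivAt_pow 2 v
    simpa using this
  have key := hNFB f g Ω (fun v => χ (v ^ 2)) η hP hη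
    (by
      intro v hv
      apply ContinuousAt.continuousWithinAt
      have h1 : ContinuousAt χ (v ^ 2) := (hχ _ (hstrip v hv.1 hv.2.1 hv.2.2)).continuousAt
      exact ContinuousAt.comp (f := fun v : ℂ => v ^ 2) (g := χ) h1 (by fun_prop))
    (by
      intro v h1 h2 h3 h0
      exact AnalyticAt.comp (f := fun v : ℂ => v ^ 2) (g := χ) (hχ _ (hstrip v h1 h2 h3))
        (analyticAt_id.pow 2))
    (by
      intro v h1 h2 h3 h0 hΩ
      have hb := hχh _ (hstrip v h1 h2 h3)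
      have hqe : qG g (χ (v ^ 2)) = a (χ (v ^ 2)) / (χ (v ^ 2) - z₀) := hq _ ⟨hΩ, hb.1⟩
      have hd2 : HasDerivAt χ (deriv χ (v ^ 2)) (v ^ 2) :=
        (hχ _ (hstrip v h1 h2 h3)).differentiableAt.hasDerivAt
      have hd3 : deriv (fun v => χ (v ^ 2)) v = deriv χ (v ^ 2) * (2 * v) :=
        (HasDerivAt.comp (h₂ := χ) (h := fun v : ℂ => v ^ 2) v hd2 (hd1 v)).deriv
      have hz : χ (v ^ 2) - z₀ ≠ 0 := by
        intro h5
        have h6 : χ (v ^ 2) = χ 0 := by rw [hχ0]; exact sub_eq_zero.1 h5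
        have h7 := hχi (hstrip v h1 h2 h3) (mem_ball_self hr) h6
        exact h0 (pow_eq_zero_iff two_ne_zero |>.1 h7)
      show qG g (χ (v ^ 2)) * deriv (fun v => χ (v ^ 2)) v ^ 2 = 1
      rw [hqe, hd3, div_mul_eq_mul_div, div_eq_one_iff_eq hz, ← hb.2]
      ring)
    (by
      intro v₁ hv₁ v₂ hv₂ he
      have he' : χ (v₁ ^ 2) = χ (v₂ ^ 2) := he
      have h2 := hχi (hstrip v₁ hv₁.1.le hv₁.2.1 hv₁.2.2) (hstrip v₂ hv₂.1.le hv₂.2.1 hv₂.2.2) he'
      rcases sq_eq_sq_iff_eq_or_eq_neg.1 h2 with h3 | h3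
      · exact h3
      · exfalso
        have h5 : v₁.re = - v₂.re := by rw [h3, Complex.neg_re]
        have h6 := hv₁.1
        have h7 := hv₂.1
        linarith)
    (by
      refine measure_mono_null ?_ hnull
      rintro y ⟨⟨v, hv, rfl⟩, hy⟩
      exact ⟨(hχh _ (hstrip v hv.1.le hv.2.1 hv.2.2)).1, hy⟩)
    (by
      show χ ((0 : ℂ) ^ 2) ∉ Ω
      rw [zero_pow two_ne_zero, hχ0]
      exact hz₀)
    w hwre hw2 hw3
  have hzw : χ (w ^ 2) = z := by rw [hw]; exact (hχξ z hz1).2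
  have key' : (χ (w ^ 2) ∉ Ω ↔ w.re = 0)
    ∧ (χ (w ^ 2) ∈ Ω → - Real.log ‖g (χ (w ^ 2))‖ = w.re) := key
  rw [hzw] at key'
  have hs := sum_eq hw
  refine ⟨?_, ?_⟩
  · rw [key'.1]
    constructor
    · intro h0
      rw [h0] at hs
      linarith
    · intro h0
      have h1 : w.re ^ 2 = 0 := by linarith
      exact pow_eq_zero_iff (two_ne_zero) |>.1 h1
  · intro hzΩ
    have h1 := key'.2 hzΩ
    rw [hs, ← h1, neg_sq]

end

end Pool.Agent.Lib.MP250511.SB
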