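import Pool.Agent.Lib.MP_250511_an.SB.Spec

/-!
# MP_250511_an, SB: module NOI
-/

set_option autoImplicit false

open Complex Metric Set Filter Topology ComplexConjugate

namespace Pool.Agent.Lib.MP250511.SB

theorem specNOI (hWAL : SpecWAL) (hPKB : SpecPKB) (hPKC : SpecPKC) (hPKD : SpecPKD) : SpecNOI := by
  intro f g Ω ρ hE
  by_contra hne
  have hne' : (interior Ωᶜ).Nonempty := Set.nonempty_iff_ne_empty.2 hne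
  obtain ⟨κ, hκ, L, hL, δ, hδ, M, hM, c, ζ, hinj, hw⟩ := hWAL f g Ω ρ hE hne'
  obtain ⟨C, hC, hB⟩ := hPKB Ω ρ κ L δ M hE.pos hκ hL hδ hM hE.star hE.inr c ζ hinj hw
  obtain ⟨b, hb, hCb⟩ := hPKC f g Ω ρ hE M
  have hρ : 0 < ρ := hE.pos
  obtain ⟨N, hN⟩ := exists_nat_gt (8 * C / (ρ * b ^ 2))
  have hρb : 0 < ρ * b ^ 2 := by positivity
  have hN' : 8 * C < N * (ρ * b ^ 2) := by
    rwa [div_lt_iff₀ hρb] at hN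
  obtain ⟨ℓ₁, hℓ₁, h1⟩ := hB N
  obtain ⟨ℓ, hℓ, hle1, hleρ, hleb⟩ : ∃ ℓ : ℝ, 0 < ℓ ∧ ℓ ≤ ℓ₁ ∧ ℓ ≤ ρ ∧ ℓ ≤ 1 / b :=
    ⟨min ℓ₁ (min ρ (1 / b)), lt_min hℓ₁ (lt_min hρ (by positivity)), min_le_left _ _,
      (min_le_right _ _).trans (min_le_left _ _), (min_le_right _ _).trans (min_le_right _ _)⟩
  have hbl : b * ℓ ≤ 1 := by
    rw [le_div_iff₀ hb] at hleb
    linarith [mul_comm b ℓ]
  obtain ⟨h2, h3⟩ := h1 ℓ hℓ hle1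
  have huniv : UU Ω ζ ℓ N ≠ univ := by
    intro h
    have h4 := h2 0 (ρ + C * ℓ ^ 2 + 1) (by rw [h]; exact subset_univ _)
    linarith
  obtain ⟨F, hF, hF'⟩ := hPKD f g Ω ρ hE b ℓ N ζ hb hℓ hbl huniv h3
    (fun k _ U F G hP hΩ hball => hCb (c k) (ζ k) ℓ U F G (hw k).sub (hw k).dist_eq (hw k).norm_le hℓ
      hleρ hP hΩ hball)
  have h5 := hE.ext F (UU Ω ζ ℓ N) hF (ρ + C * ℓ ^ 2) h2
  have h6 : ρ * (1 + N * ((b * ℓ) ^ 2 / 8)) ≤ ρ + C * ℓ ^ 2 :=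
    (mul_le_mul_of_nonneg_left hF' hρ.le).trans h5
  have h7 : 0 < ℓ ^ 2 := by positivity
  have h8 : (8 * C) * ℓ ^ 2 < (N * (ρ * b ^ 2)) * ℓ ^ 2 := mul_lt_mul_of_pos_right hN' h7
  nlinarith [h6, h8]

end Pool.Agent.Lib.MP250511.SB
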