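import Pool.Agent.Lib.MP_250511_an.SB.SpecW
import Pool.Agent.Lib.MP_250511_an.SB.NFP

/-!
# MP_250511_an, SB, module NPD
-/

set_option autoImplicit false

namespace Pool.Agent.Lib.MP250511.SB

open Complex Metric Set MeasureTheory Filter Topology
open scoped Real ENNReal ComplexConjugate ContDiff

open NFPM in
theorem specNPD : SpecNPD := by
  intro u z₀ δ hδ hu hu0
  have hz₀ : z₀ ∈ ball z₀ δ := mem_ball_self hδ
  -- the square root of `u`
  have hsl : ∀ᶠ z in 𝓝 z₀, u z / u z₀ ∈ slitPlane := by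
    have hc : ContinuousAt (fun z => u z / u z₀) z₀ := (hu z₀ hz₀).continuousAt.div_const _
    apply hc.eventually
    apply isOpen_slitPlane.mem_nhds
    show u z₀ / u z₀ ∈ slitPlane
    rw [div_self hu0]
    exact one_mem_slitPlane
  obtain ⟨ρ₀, hρ₀, hb₀⟩ := Metric.eventually_nhds_iff_ball.1
    (hsl.and (hu z₀ hz₀).eventually_analyticAt)
  obtain ⟨c, hc⟩ : ∃ c : ℂ, c ^ 2 = u z₀ := IsAlgClosed.exists_pow_nat_eq (u z₀) two_pos
  set s : ℂ → ℂ := fun z => c * exp (log (u z / u z₀) / 2) with hs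
  have hc0 : c ≠ 0 := by
    rintro rfl
    apply hu0
    rw [← hc]
    simp
  have hs2 : ∀ z ∈ ball z₀ ρ₀, s z ^ 2 = u z := by
    intro z hz
    have h1 : u z / u z₀ ≠ 0 := slitPlane_ne_zero (hb₀ z hz).1
    have h2 : exp (log (u z / u z₀) / 2) ^ 2 = u z / u z₀ := by
      rw [← Complex.exp_nat_mul]
      push_cast
      rw [mul_div_cancel₀ _ two_ne_zero, Complex.exp_log h1]
    simp only [hs]
    rw [mul_pow, hc, h2]
    field_simp
  have hsne : ∀ z, s z ≠ 0 := fun z => mul_ne_zero hc0 (Complex.exp_ne_zero _)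
  have hsd : DifferentiableOn ℂ s (ball z₀ ρ₀) := by
    intro z hz
    have h1 : DifferentiableAt ℂ (fun z => u z / u z₀) z :=
      (hb₀ z hz).2.differentiableAt.div_const _
    have h2 : DifferentiableAt ℂ (fun z => log (u z / u z₀)) z := h1.clog (hb₀ z hz).1
    exact ((h2.div_const 2).cexp.const_mul c).differentiableWithinAt
  obtain ⟨V, V', hV⟩ := ode s z₀ ρ₀ hsd
  have hz₁ : z₀ ∈ ball z₀ ρ₀ := mem_ball_self hρ₀
  have hV0 : V z₀ ≠ 0 := by
    intro h0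
    have h1 := (hV z₀ hz₁).2
    rw [h0, mul_zero, sub_self, zero_mul, add_zero] at h1
    exact hsne z₀ h1.symm
  have hsl2 : ∀ᶠ z in 𝓝 z₀, V z / V z₀ ∈ slitPlane := by
    have hc : ContinuousAt (fun z => V z / V z₀) z₀ :=
      (hV z₀ hz₁).1.continuousAt.div_const _
    apply hc.eventually
    apply isOpen_slitPlane.mem_nhds
    show V z₀ / V z₀ ∈ slitPlane
    rw [div_self hV0]
    exact one_mem_slitPlane
  obtain ⟨ρ₁, hρ₁, hb₁⟩ := Metric.eventually_nhds_iff_ball.1 hsl2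
  set ρ := min δ (min ρ₀ ρ₁) with hρ
  have hρpos : 0 < ρ := lt_min hδ (lt_min hρ₀ hρ₁)
  have hρδ : ball z₀ ρ ⊆ ball z₀ δ := ball_subset_ball (min_le_left _ _)
  have hρ0 : ball z₀ ρ ⊆ ball z₀ ρ₀ :=
    ball_subset_ball ((min_le_right _ _).trans (min_le_left _ _))
  have hρ1 : ball z₀ ρ ⊆ ball z₀ ρ₁ :=
    ball_subset_ball ((min_le_right _ _).trans (min_le_right _ _))
  -- the coordinate
  have hVne : ∀ z ∈ ball z₀ ρ, V z ≠ 0 := by
    intro z hz h0
    have h1 := slitPlane_ne_zero (hb₁ z (hρ1 hz))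
    rw [h0, zero_div] at h1
    exact h1 rfl
  set ξ : ℂ → ℂ := fun z => (z - z₀) * V z ^ 2 with hξ
  set ξ' : ℂ → ℂ := fun z => 2 * V z * s z with hξ'
  have hξd : ∀ z ∈ ball z₀ ρ, HasDerivAt ξ (ξ' z) z := by
    intro z hz
    have h1 := (((hasDerivAt_id z).sub_const z₀).mul ((hV z (hρ0 hz)).1.pow 2))
    refine h1.congr_deriv ?_
    have h5 := (hV z (hρ0 hz)).2
    simp only [hξ', id, one_mul]
    rw [← h5]
    simp only [Pi.pow_apply]
    push_cast
    ring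
  have hξ'ne : ∀ z ∈ ball z₀ ρ, ξ' z ≠ 0 := by
    intro z hz
    simp only [hξ']
    exact mul_ne_zero (mul_ne_zero two_ne_zero (hVne z hz)) (hsne z)
  have hmain : ∀ z ∈ ball z₀ ρ, 4 * u z * ξ z = (z - z₀) * ξ' z ^ 2 := by
    intro z hz
    rw [← hs2 z (hρ0 hz)]
    simp only [hξ, hξ']
    ring
  -- the local inverse
  have hopρ := isOpen_ball (x := z₀) (ε := ρ)
  have hmρ : z₀ ∈ ball z₀ ρ := mem_ball_self hρpos
  have hξdiff : DifferentiableOn ℂ ξ (ball z₀ ρ) := fun z hz =>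
    (hξd z hz).differentiableAt.differentiableWithinAt
  have hξan : AnalyticOnNhd ℂ ξ (ball z₀ ρ) := hξdiff.analyticOnNhd hopρ
  have hstrict : HasStrictDerivAt ξ (ξ' z₀) z₀ := by
    have h1 := (hξan z₀ hmρ).hasStrictDerivAt
    rwa [(hξd z₀ hmρ).deriv] at h1
  have hF := hstrict.hasStrictFDerivAt_equiv (hξ'ne z₀ hmρ)
  set e := hF.toOpenPartialHomeomorph ξ with he
  have hecoe : (e : ℂ → ℂ) = ξ := hF.toOpenPartialHomeomorph_coe
  have hsrc : z₀ ∈ e.source := hF.mem_toOpenPartialHomeomorph_source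
  have hξ0 : ξ z₀ = 0 := by simp [hξ]
  have htgt : (0 : ℂ) ∈ e.target := by
    have := e.map_source hsrc
    rw [hecoe, hξ0] at this
    exact this
  have hsym0 : e.symm 0 = z₀ := by
    have := e.left_inv hsrc
    rw [hecoe, hξ0] at this
    exact this
  have hT : ∀ᶠ ζ in 𝓝 (0 : ℂ), ζ ∈ e.target ∧ e.symm ζ ∈ ball z₀ ρ := by
    have h1 : ContinuousAt e.symm 0 := e.symm.continuousAt htgt
    have h2 : ∀ᶠ ζ in 𝓝 (0 : ℂ), e.symm ζ ∈ ball z₀ ρ := by
      apply h1.eventually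
      apply hopρ.mem_nhds
      rw [hsym0]
      exact hmρ
    have h3 : ∀ᶠ ζ in 𝓝 (0 : ℂ), ζ ∈ e.target := e.open_target.mem_nhds htgt
    exact h3.and h2
  obtain ⟨r, hr, hbr⟩ := Metric.eventually_nhds_iff_ball.1 hT
  have hW : ∀ᶠ z in 𝓝 z₀, z ∈ e.source ∧ z ∈ ball z₀ ρ ∧ ‖ξ z‖ < r := by
    have h1 : ContinuousAt ξ z₀ := (hξd z₀ hmρ).continuousAt
    have h2 : ∀ᶠ z in 𝓝 z₀, ξ z ∈ ball (0 : ℂ) r := by
      apply h1.eventually
      rw [hξ0]
      exact ball_mem_nhds 0 hr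
    filter_upwards [e.open_source.mem_nhds hsrc, hopρ.mem_nhds hmρ, h2] with z a1 a2 a3
    refine ⟨a1, a2, ?_⟩
    simpa using a3
  obtain ⟨δ', hδ', hbd⟩ := Metric.eventually_nhds_iff_ball.1 hW
  have hright : ∀ ζ ∈ ball (0 : ℂ) r, ξ (e.symm ζ) = ζ := by
    intro ζ hζ
    have := e.right_inv (hbr ζ hζ).1
    rw [hecoe] at this
    exact this
  have hleft : ∀ z ∈ ball z₀ δ', e.symm (ξ z) = z := by
    intro z hz
    have := e.left_inv (hbd z hz).1
    rw [hecoe] at this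
    exact this
  have hχd : ∀ ζ ∈ ball (0 : ℂ) r, HasDerivAt e.symm (ξ' (e.symm ζ))⁻¹ ζ := by
    intro ζ hζ
    apply e.hasDerivAt_symm (hbr ζ hζ).1 (hξ'ne _ (hbr ζ hζ).2)
    rw [hecoe]
    exact hξd _ (hbr ζ hζ).2
  refine ⟨ξ, e.symm, min δ' δ, r, lt_min hδ' hδ, min_le_right _ _, hr,
    ?_, ?_, hξ0, ?_, ?_, ?_, ?_, ?_⟩
  · intro z hz
    exact hξan z (hbd z (ball_subset_ball (min_le_left _ _) hz)).2.1
  · intro z hz w hw hzw
    rw [← hleft z (ball_subset_ball (min_le_left _ _) hz),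
      ← hleft w (ball_subset_ball (min_le_left _ _) hw), hzw]
  · intro z hz
    exact ⟨(hbd z (ball_subset_ball (min_le_left _ _) hz)).2.2,
      hleft z (ball_subset_ball (min_le_left _ _) hz)⟩
  · apply DifferentiableOn.analyticOnNhd _ isOpen_ball
    intro ζ hζ
    exact (hχd ζ hζ).differentiableAt.differentiableWithinAt
  · intro a ha b hb hab
    rw [← hright a ha, ← hright b hb, hab]
  · intro ζ hζ
    refine ⟨hρδ (hbr ζ hζ).2, ?_⟩
    rw [(hχd ζ hζ).deriv]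
    have h1 := hmain _ (hbr ζ hζ).2
    rw [hright ζ hζ] at h1
    have h2 := hξ'ne _ (hbr ζ hζ).2
    have h3 : 4 * (u (e.symm ζ) * (ξ' (e.symm ζ))⁻¹ ^ 2) * ζ =
        (4 * u (e.symm ζ) * ζ) * (ξ' (e.symm ζ))⁻¹ ^ 2 := by ring
    rw [h3, h1]
    field_simp
  · rw [(hξd z₀ hmρ).deriv]
    have h1 := (hV z₀ hz₁).2
    rw [sub_self, zero_mul, add_zero] at h1
    have h2 := hs2 z₀ hz₁
    simp only [hξ']
    rw [← h2, ← h1]
    ring

end Pool.Agent.Lib.MP250511.SB
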