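import Pool.Agent.Lib.MP_250511_an.SB.SpecE

/-!
# Module NRA: the limit of the integrals of the cut off scaling field
-/

set_option autoImplicit false

namespace Pool.Agent.Lib.MP250511.SB

open Complex Metric Set MeasureTheory Filter Topology
open scoped Real ENNReal ComplexConjugate ContDiff

noncomputable section

namespace NRAM

/-- `∂̄` of the cut off identity -/
def A (R : ℝ) (z : ℂ) : ℂ := dB (fun z => z * ((chi R z : ℝ) : ℂ)) z

theorem A_zero (hDCH : SpecDCH) {R : ℝ} (hR : 0 < R) {z : ℂ} (hz : ‖z‖ < R) : A R z = 0 := by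
  unfold A
  rw [hDCH.1 R hR z]
  have h1 : 1 < 2 - ‖z‖ ^ 2 / R ^ 2 := by
    have h0 : ‖z‖ ^ 2 / R ^ 2 < 1 := by
      rw [div_lt_one (by positivity)]
      exact pow_lt_pow_left₀ hz (norm_nonneg _) two_ne_zero
    linarith
  have h2 : deriv Real.smoothTransition (2 - ‖z‖ ^ 2 / R ^ 2) = 0 := by
    have h3 : Real.smoothTransition =ᶠ[𝓝 (2 - ‖z‖ ^ 2 / R ^ 2)] fun _ => 1 := by
      filter_upwards [lt_mem_nhds h1] with t ht using Real.smoothTransition.one_of_one_le ht.le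
    rw [h3.deriv_eq, deriv_const]
  rw [h2]
  simp

theorem A_cont (hDCH : SpecDCH) {R : ℝ} (hR : 0 < R) : Continuous (A R) := by
  have h1 : A R = fun z : ℂ => -(((deriv Real.smoothTransition (2 - ‖z‖ ^ 2 / R ^ 2) : ℝ) : ℂ) *
      (z ^ 2 / (R : ℂ) ^ 2)) := funext fun z => hDCH.1 R hR z
  rw [h1]
  have h0 : ContDiff ℝ 1 Real.smoothTransition := Real.smoothTransition.contDiff
  have h2 : Continuous (deriv Real.smoothTransition) := h0.continuous_deriv le_rfl
  have h3 : Continuous fun z : ℂ => 2 - ‖z‖ ^ 2 / R ^ 2 :=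
    continuous_const.sub ((continuous_norm.pow 2).div_const _)
  exact ((continuous_ofReal.comp (h2.comp h3)).mul ((continuous_id.pow 2).div_const _)).neg

theorem int_A (hDCH : SpecDCH) {g : ℂ → ℂ} {Ω : Set ℂ} {r R : ℝ} (hΩ : MeasurableSet Ω)
    (hq : IntegrableOn (qG g) (Ω \ ball 0 r)) (hR : 0 < R) (hr : r ≤ R) :
    IntegrableOn (fun z => A R z * qG g z) Ω := by
  obtain ⟨B, hB0, hB⟩ := hDCH.2.1
  have h1 : IntegrableOn (fun z => A R z * qG g z) (Ω \ ball 0 r) :=
    Integrable.bdd_mul (c := B) hq (A_cont hDCH hR).aestronglyMeasurable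
      (ae_of_all _ fun z => hB R hR z)
  refine h1.of_forall_sdiff_eq_zero hΩ fun z hz => ?_
  have h2 : z ∈ ball (0 : ℂ) r := by
    by_contra h
    exact hz.2 ⟨hz.1, h⟩
  rw [A_zero hDCH hR (lt_of_lt_of_le (mem_ball_zero_iff.mp h2) hr), zero_mul]

end NRAM

open NRAM in
theorem specNRA (_hCUT : SpecCUT) (hDCH : SpecDCH) (hRIN : SpecRIN) (hING : SpecING) : SpecNRA := by
  intro f g Ω hP hf r hr hball
  have hΩ : MeasurableSet Ω := hP.op.measurableSet
  have hq := hING f g Ω hP r hr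
  have hRin : ∫ z in Ω, A r z * qG g z = -(π : ℂ) := hRIN f g Ω hP hf r hr hball
  obtain ⟨B, hB0, hB⟩ := hDCH.2.1
  have h1 : Tendsto (fun n : ℕ => ∫ z in Ω \ ball 0 r, A ((n : ℝ) + 1) z * qG g z) atTop
      (𝓝 (∫ _z in Ω \ ball (0 : ℂ) r, (0 : ℂ))) := by
    refine tendsto_integral_of_dominated_convergence (fun z => B * ‖qG g z‖) ?_ ?_ ?_ ?_
    · intro n
      exact (A_cont hDCH (by positivity)).aestronglyMeasurable.mul hq.aestronglyMeasurable
    · exact hq.norm.const_mul B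
    · intro n
      refine ae_of_all _ fun z => ?_
      rw [norm_mul]
      exact mul_le_mul_of_nonneg_right (hB _ (by positivity) z) (norm_nonneg _)
    · refine ae_of_all _ fun z => ?_
      refine tendsto_const_nhds.congr' ?_
      filter_upwards [eventually_ge_atTop ⌈‖z‖⌉₊] with n hn
      have h3 : ‖z‖ ≤ n := (Nat.le_ceil _).trans (by exact_mod_cast hn)
      rw [A_zero hDCH (by positivity) (by linarith), zero_mul]
  rw [integral_zero] at h1
  have h2 : Tendsto (fun n : ℕ => (∫ z in Ω \ ball 0 r, A ((n : ℝ) + 1) z * qG g z) + (π : ℂ)) atTop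
      (𝓝 (0 + (π : ℂ))) := h1.add_const _
  rw [zero_add] at h2
  refine h2.congr' ?_
  filter_upwards [eventually_ge_atTop ⌈2 * r⌉₊] with n hn
  have h3 : 2 * r ≤ n := (Nat.le_ceil _).trans (by exact_mod_cast hn)
  have hn' : 2 * r < (n : ℝ) + 1 := by linarith
  have hr1 : r ≤ (n : ℝ) + 1 := by linarith
  have hn0 : (0 : ℝ) < (n : ℝ) + 1 := by linarith
  have e1 : ∫ z in Ω, dB (vR r ((n : ℝ) + 1)) z * qG g z =
      (∫ z in Ω, A ((n : ℝ) + 1) z * qG g z) - ∫ z in Ω, A r z * qG g z := by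
    rw [← integral_sub (int_A hDCH hΩ hq hn0 hr1) (int_A hDCH hΩ hq hr le_rfl)]
    refine setIntegral_congr_fun hΩ fun z _ => ?_
    show dB (vR r ((n : ℝ) + 1)) z * qG g z = A ((n : ℝ) + 1) z * qG g z - A r z * qG g z
    rw [hDCH.2.2 r _ hr hn' z, sub_mul]
    rfl
  have e2 : ∫ z in Ω, A ((n : ℝ) + 1) z * qG g z = ∫ z in Ω \ ball 0 r, A ((n : ℝ) + 1) z * qG g z := by
    refine setIntegral_eq_of_subset_of_forall_sdiff_eq_zero hΩ sdiff_subset fun z hz => ?_
    have h4 : z ∈ ball (0 : ℂ) r := by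
      by_contra h
      exact hz.2 ⟨hz.1, h⟩
    rw [A_zero hDCH hn0 (lt_of_lt_of_le (mem_ball_zero_iff.mp h4) hr1), zero_mul]
  rw [e1, e2, hRin, sub_neg_eq_add]

end

end Pool.Agent.Lib.MP250511.SB
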