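import Pool.Agent.Lib.MP_250511_an.SB.SpecE

set_option autoImplicit false

namespace Pool.Agent.Lib.MP250511.SB

open Complex Metric Set MeasureTheory Filter Topology
open scoped Real ENNReal ComplexConjugate ContDiff

namespace NRBM

lemma lip : ∃ B : ℝ, 0 ≤ B ∧ ∀ s t : ℝ,
    |Real.smoothTransition s - Real.smoothTransition t| ≤ B * |s - t| := by
  have hsm : ContDiff ℝ 1 Real.smoothTransition := Real.smoothTransition.contDiff
  have hc : Continuous (deriv Real.smoothTransition) := hsm.continuous_deriv le_rfl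
  obtain ⟨B, hB⟩ := (isCompact_Icc (a := (0 : ℝ)) (b := 1)).exists_bound_of_continuousOn
    hc.continuousOn
  have hB0 : 0 ≤ B := (norm_nonneg _).trans (hB 0 ⟨le_rfl, zero_le_one⟩)
  refine ⟨B, hB0, fun s t => ?_⟩
  have h1 : Real.smoothTransition s = Real.smoothTransition (projIcc (0 : ℝ) 1 zero_le_one s) :=
    (Real.smoothTransition.projIcc (x := s)).symm
  have h2 : Real.smoothTransition t = Real.smoothTransition (projIcc (0 : ℝ) 1 zero_le_one t) :=
    (Real.smoothTransition.projIcc (x := t)).symm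
  rw [h1, h2]
  have h3 := (convex_Icc (0 : ℝ) 1).norm_image_sub_le_of_norm_deriv_le
    (f := Real.smoothTransition) (C := B)
    (fun x _ => (hsm.differentiable one_ne_zero) x) (fun x hx => hB x hx)
    (projIcc (0 : ℝ) 1 zero_le_one t).2 (projIcc (0 : ℝ) 1 zero_le_one s).2
  rw [Real.norm_eq_abs, Real.norm_eq_abs] at h3
  refine h3.trans (mul_le_mul_of_nonneg_left ?_ hB0)
  have h4 := (LipschitzWith.projIcc (zero_le_one (α := ℝ))).dist_le_mul s t
  rw [NNReal.coe_one, one_mul, Subtype.dist_eq, Real.dist_eq, Real.dist_eq] at h4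
  exact h4

end NRBM

open NRBM in
theorem specNRB (hCUT : SpecCUT) : SpecNRB := by
  intro Ω ρ ν hρ hfin hν r hr hΩ
  obtain ⟨B, hB0, hB⟩ := lip
  have hae : ∀ᵐ x ∂ν, x ∈ CC Ω ρ := mem_ae_iff.2 hν
  have hlim : ρ * (ν univ).toReal = ∫ _ : ℂ × ℂ, ρ ∂ν := by
    rw [integral_const, smul_eq_mul, mul_comm]
    rfl
  rw [hlim]
  -- facts about a contact pair
  have hp : ∀ x ∈ CC Ω ρ, 2 * r < ‖x.2‖ := by
    intro x hx
    by_contra hlt
    push Not at hlt
    exact hx.2.1 (hΩ (by rwa [mem_closedBall_zero_iff]))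
  have hv : ∀ R : ℝ, ∀ x ∈ CC Ω ρ, vR r R x.2 = x.2 * ((chi R x.2 : ℝ) : ℂ) := by
    intro R x hx
    have h1 := hp x hx
    have h2 : chi r x.2 = 0 := (hCUT r r hr hr).2.2.2.2.2.2.2.2 x.2 (by nlinarith)
    unfold vR
    rw [h2]
    simp
  refine tendsto_integral_of_dominated_convergence
    (fun _ => ρ + B * (2 + ρ) * ρ * (4 + 3 * ρ)) (fun n => ?_) (integrable_const _)
    (fun n => ?_) ?_
  · have hR : (0 : ℝ) < (n : ℝ) + 1 := by positivity
    have h1 := hCUT r (n + 1) hr hR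
    have h2 : Continuous (vR r (n + 1)) := h1.2.1.continuous
    have h3 : Continuous (bR (n + 1)) := h1.2.2.2.2.1
    have h4 : Continuous (VF ρ (vR r (n + 1)) (bR (n + 1))) :=
      (Complex.continuous_re.comp ((Complex.continuous_conj.comp
        (continuous_snd.sub continuous_fst)).mul
        ((h2.comp continuous_snd).sub (h3.comp continuous_fst)))).div_const ρ
    exact h4.aestronglyMeasurable
  · filter_upwards [hae] with x hx
    have hR : (0 : ℝ) < (n : ℝ) + 1 := by positivity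
    have hR1 : (1 : ℝ) ≤ (n : ℝ) + 1 := by
      have : (0 : ℝ) ≤ n := Nat.cast_nonneg n
      linarith
    obtain ⟨_, _, _, _, _, _, hc01, hc1, hc0⟩ := hCUT r (n + 1) hr hR
    set R : ℝ := (n : ℝ) + 1 with hRdef
    have hd : ‖x.2 - x.1‖ = ρ := by rw [← dist_eq_norm]; exact hx.2.2
    have e1 : vR r R x.2 - bR R x.1 = (x.2 - x.1) * ((chi R x.1 : ℝ) : ℂ) +
        x.2 * (((chi R x.2 - chi R x.1 : ℝ)) : ℂ) := by
      rw [hv R x hx]
      unfold bR
      push_cast
      ring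
    have e2 : ‖vR r R x.2 - bR R x.1‖ ≤ ρ + ‖x.2‖ * |chi R x.2 - chi R x.1| := by
      rw [e1]
      refine (norm_add_le _ _).trans ?_
      rw [norm_mul, norm_mul, Complex.norm_real, Complex.norm_real, hd, Real.norm_eq_abs,
        Real.norm_eq_abs, abs_of_nonneg (hc01 x.1).1]
      have := (hc01 x.1).2
      nlinarith
    have hcn : ‖x.1‖ ≤ ‖x.2‖ + ρ := by
      have h1 : x.1 = x.2 - (x.2 - x.1) := by ring
      have h2 := norm_sub_le x.2 (x.2 - x.1)
      rw [← h1, hd] at h2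
      exact h2
    have hpn : ‖x.2‖ ≤ ‖x.1‖ + ρ := by
      have h1 : x.2 = x.1 + (x.2 - x.1) := by ring
      have h2 := norm_add_le x.1 (x.2 - x.1)
      rw [← h1, hd] at h2
      exact h2
    have e3 : ‖x.2‖ * |chi R x.2 - chi R x.1| ≤ B * (2 + ρ) * ρ * (4 + 3 * ρ) := by
      by_cases hbig : 2 * R + ρ ≤ ‖x.2‖
      · have h1 : chi R x.2 = 0 := hc0 x.2 (by nlinarith)
        have h2 : chi R x.1 = 0 := hc0 x.1 (by nlinarith)
        rw [h1, h2, sub_zero, abs_zero, mul_zero]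
        positivity
      · push Not at hbig
        have h1 := hB (2 - ‖x.2‖ ^ 2 / R ^ 2) (2 - ‖x.1‖ ^ 2 / R ^ 2)
        have h2 : |(2 - ‖x.2‖ ^ 2 / R ^ 2) - (2 - ‖x.1‖ ^ 2 / R ^ 2)| ≤
            ρ * (2 * ‖x.2‖ + ρ) / R ^ 2 := by
          have h3 : (2 - ‖x.2‖ ^ 2 / R ^ 2) - (2 - ‖x.1‖ ^ 2 / R ^ 2) =
              (‖x.1‖ - ‖x.2‖) * (‖x.1‖ + ‖x.2‖) / R ^ 2 := by
            field_simp
            ring
          rw [h3, abs_div, abs_mul, abs_of_pos (by positivity : (0 : ℝ) < R ^ 2),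
            abs_of_nonneg (by positivity : 0 ≤ ‖x.1‖ + ‖x.2‖)]
          have h4 : |‖x.1‖ - ‖x.2‖| ≤ ρ := by
            rw [abs_le]
            constructor <;> linarith
          have h5 : |‖x.1‖ - ‖x.2‖| * (‖x.1‖ + ‖x.2‖) ≤ ρ * (2 * ‖x.2‖ + ρ) :=
            mul_le_mul h4 (by linarith) (by positivity) hρ.le
          exact div_le_div_of_nonneg_right h5 (by positivity)
        have h5 : |chi R x.2 - chi R x.1| ≤ B * (ρ * (2 * ‖x.2‖ + ρ) / R ^ 2) :=
          h1.trans (by gcongr)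
        have h6 : ‖x.2‖ ≤ (2 + ρ) * R := by nlinarith
        have h7 : 2 * ‖x.2‖ + ρ ≤ (4 + 3 * ρ) * R := by nlinarith
        calc ‖x.2‖ * |chi R x.2 - chi R x.1|
            ≤ ((2 + ρ) * R) * (B * (ρ * ((4 + 3 * ρ) * R) / R ^ 2)) := by
              refine mul_le_mul h6 (h5.trans ?_) (abs_nonneg _) (by positivity)
              gcongr
          _ = B * (2 + ρ) * ρ * (4 + 3 * ρ) := by
              field_simp
    have e4 : ‖VF ρ (vR r R) (bR R) x‖ ≤ ‖vR r R x.2 - bR R x.1‖ := by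
      unfold VF
      rw [Real.norm_eq_abs, abs_div, abs_of_pos hρ, div_le_iff₀ hρ]
      refine (Complex.abs_re_le_norm _).trans ?_
      rw [norm_mul, RCLike.norm_conj, hd, mul_comm]
    exact e4.trans (e2.trans (by linarith))
  · filter_upwards [hae] with x hx
    refine tendsto_const_nhds.congr' ?_
    obtain ⟨N, hN⟩ := exists_nat_ge (max ‖x.1‖ ‖x.2‖)
    filter_upwards [eventually_ge_atTop N] with n hn
    have hR : (0 : ℝ) < (n : ℝ) + 1 := by positivity
    obtain ⟨_, _, _, _, _, _, hc01, hc1, hc0⟩ := hCUT r (n + 1) hr hR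
    have hnN : (N : ℝ) ≤ n := by exact_mod_cast hn
    have h1 : chi (n + 1) x.1 = 1 := hc1 x.1 (by
      have := (le_max_left ‖x.1‖ ‖x.2‖).trans hN
      linarith)
    have h2 : chi (n + 1) x.2 = 1 := hc1 x.2 (by
      have := (le_max_right ‖x.1‖ ‖x.2‖).trans hN
      linarith)
    have hd : ‖x.2 - x.1‖ = ρ := by rw [← dist_eq_norm]; exact hx.2.2
    unfold VF
    rw [hv _ x hx, h2]
    unfold bR
    rw [h1, Complex.ofReal_one, mul_one, mul_one, mul_comm, Complex.mul_conj,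
      Complex.ofReal_re, Complex.normSq_eq_norm_sq, hd]
    field_simp

end Pool.Agent.Lib.MP250511.SB
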