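import Pool.Agent.Lib.MP_250511_an.SB.SpecU

/-!
# MP_250511_an, module UNB: the contact forces of an extremal domain are not concentrated on a bounded set
-/

set_option autoImplicit false

namespace Pool.Agent.Lib.MP250511.SB

open Complex Metric Set MeasureTheory Filter Topology
open scoped Real ENNReal ComplexConjugate ContDiff

namespace UNBM

theorem meets {Ω U : Set ℂ} (hvol : volume Ωᶜ = 0) (hU : IsOpen U) (hne : U.Nonempty) :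
    ∃ z ∈ U, z ∈ Ω := by
  by_contra hc
  have hsub : U ⊆ Ωᶜ := fun z hz hzΩ => hc ⟨z, hz, hzΩ⟩
  have h1 : volume U = 0 := measure_mono_null hsub hvol
  exact (hU.measure_pos volume hne).ne' h1

theorem qG_ne {f g : ℂ → ℂ} {Ω : Set ℂ} (hP : Pair f g Ω) {z : ℂ} (hz : z ∈ Ω) (h0 : z ≠ 0) :
    qG g z ≠ 0 := by
  unfold qG
  have h1 : g z ≠ 0 := by
    intro h
    apply h0
    rw [← hP.FG z hz, h, hP.zero]
  exact pow_ne_zero 2 (div_ne_zero (hP.dG z hz) h1)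

theorem far {Ω : Set ℂ} {ρ : ℝ} (hρ : 0 < ρ) (hinr : ∀ (c : ℂ) (r : ℝ), ball c r ⊆ Ω → r ≤ ρ)
    (R : ℝ) : ∃ z : ℂ, z ∉ Ω ∧ R < ‖z‖ := by
  by_contra hc
  have hsub : ball (((|R| + 2 * ρ : ℝ) : ℂ)) (2 * ρ) ⊆ Ω := by
    intro z hz
    by_contra hzΩ
    apply hc
    refine ⟨z, hzΩ, ?_⟩
    rw [mem_ball, dist_eq_norm] at hz
    have h1 : ‖((|R| + 2 * ρ : ℝ) : ℂ)‖ = |R| + 2 * ρ := by
      rw [Complex.norm_real, Real.norm_eq_abs, abs_of_nonneg]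
      positivity
    have h2 : ‖((|R| + 2 * ρ : ℝ) : ℂ)‖ ≤ ‖z‖ + ‖z - ((|R| + 2 * ρ : ℝ) : ℂ)‖ := by
      have h3 := norm_sub_norm_le ((|R| + 2 * ρ : ℝ) : ℂ) z
      rw [norm_sub_rev] at h3
      linarith
    have h4 := le_abs_self R
    linarith
  have := hinr _ _ hsub
  linarith

end UNBM

theorem specUNB (hARB : SpecARB) (hMOM : SpecMOM) (hORD : SpecORD) (hCHT : SpecCHT) :
    SpecUNB := by
  intro f g Ω ρ ν hE hvol hν hC hb hode M hM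
  have hρ : 0 < ρ := hE.pos
  obtain ⟨M', hM'0, hM'⟩ : ∃ M' : ℝ, 0 ≤ M' ∧ ∀ᵐ x ∂ν, ‖x.2‖ ≤ M' := by
    refine ⟨max M 0, le_max_right _ _, ?_⟩
    filter_upwards [hM] with x hx
    exact hx.trans (le_max_left _ _)
  obtain ⟨hHan, ⟨C, hCb⟩, hHeq⟩ := hMOM Ω ρ M' ν hρ hM'0 hν hC hM' hb
  have hq : ∀ z ∈ Ω, M' < ‖z‖ → qG g z = HH ρ ν z := by
    intro z hz hzM
    have h0 : z ≠ 0 := by
      intro h
      rw [h, norm_zero] at hzM
      linarith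
    rw [hode z hz h0, hHeq z hzM]
  have hne : ¬ ∀ z : ℂ, M' < ‖z‖ → HH ρ ν z = 0 := by
    intro hall
    have hopen : IsOpen {z : ℂ | M' < ‖z‖} := isOpen_lt continuous_const continuous_norm
    have hnon : {z : ℂ | M' < ‖z‖}.Nonempty := by
      refine ⟨((M' + 1 : ℝ) : ℂ), ?_⟩
      show M' < ‖((M' + 1 : ℝ) : ℂ)‖
      rw [Complex.norm_real, Real.norm_eq_abs, abs_of_nonneg (by linarith)]
      linarith
    obtain ⟨z, hzM, hzΩ⟩ := UNBM.meets hvol hopen hnon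
    have h0 : z ≠ 0 := by
      intro h
      have hzM' : M' < ‖z‖ := hzM
      rw [h, norm_zero] at hzM'
      linarith
    apply UNBM.qG_ne hE.toPair hzΩ h0
    rw [hq z hzΩ hzM]
    exact hall z hzM
  obtain ⟨R, hR⟩ := hORD (HH ρ ν) M' hM'0 hHan ⟨|C|, 2 * M' + 1, by
    intro z hz
    refine (hCb z hz.le).trans ?_
    have h1 : (1 : ℝ) ≤ ‖z‖ := by linarith
    have h2 : (1 : ℝ) ≤ ‖z‖ ^ 3 := one_le_pow₀ h1
    calc C / ‖z‖ ^ 3 ≤ |C| / ‖z‖ ^ 3 := by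
          apply div_le_div_of_nonneg_right (le_abs_self C) (by positivity)
      _ ≤ |C| := div_le_self (abs_nonneg C) h2⟩ hne (64 * ρ) (by positivity) (1 / 100) (by norm_num)
  obtain ⟨z₁, hz₁Ω, hz₁⟩ := UNBM.far hρ hE.inr (max R (M' + 64 * ρ))
  have hz₁R : R < ‖z₁‖ := lt_of_le_of_lt (le_max_left _ _) hz₁
  have hz₁M : M' + 64 * ρ < ‖z₁‖ := lt_of_le_of_lt (le_max_right _ _) hz₁
  have hball : ∀ z ∈ ball z₁ (64 * ρ), M' < ‖z‖ := by
    intro z hz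
    rw [mem_ball, dist_eq_norm] at hz
    have h1 := norm_sub_norm_le z₁ z
    rw [norm_sub_rev] at h1
    linarith
  obtain ⟨hH1, hH2⟩ := hR z₁ hz₁R
  obtain ⟨ψ, η, k₁, hη, hk, hψan, hψinj, hψ0, hψ1, hψ2⟩ := hCHT (HH ρ ν) z₁ (64 * ρ)
    (by positivity) (fun z hz => hHan z (hball z hz)) hH1 hH2
  have harb := hARB f g Ω ψ η hE.toPair hη hψan hψinj (fun q hqB hqΩ => by
    rw [hq (ψ q) hqΩ (hball _ (hψ1 q hqB).1)]
    exact (hψ1 q hqB).2) (measure_mono_null (fun z hz => hz.2) hvol) (by rw [hψ0]; exact hz₁Ω)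
  have hkn : 0 < ‖k₁‖ := norm_pos_iff.2 hk
  have hknc : ((‖k₁‖ : ℝ) : ℂ) ≠ 0 := by
    rw [Complex.ofReal_ne_zero]
    exact hkn.ne'
  obtain ⟨e, he1, he2⟩ : ∃ e : ℂ, k₁ * e = ((‖k₁‖ : ℝ) : ℂ) ∧ ‖e‖ = 1 := by
    refine ⟨conj k₁ / ((‖k₁‖ : ℝ) : ℂ), ?_, ?_⟩
    · rw [← mul_div_assoc, Complex.mul_conj, Complex.normSq_eq_norm_sq, Complex.ofReal_pow, pow_two,
        mul_div_assoc, div_self hknc, mul_one]
    · rw [norm_div, Complex.norm_conj, Complex.norm_real, norm_norm, div_self hkn.ne']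
  have hsub : ball (z₁ + ((4 * ρ : ℝ) : ℂ) * e) (2 * ρ) ⊆ Ω := by
    intro z hz
    rw [mem_ball, dist_eq_norm] at hz
    have hsplit : z - z₁ = (z - (z₁ + ((4 * ρ : ℝ) : ℂ) * e)) + ((4 * ρ : ℝ) : ℂ) * e := by ring
    have hn4 : ‖((4 * ρ : ℝ) : ℂ) * e‖ = 4 * ρ := by
      rw [norm_mul, he2, mul_one, Complex.norm_real, Real.norm_eq_abs, abs_of_nonneg (by positivity)]
    have hzn : ‖z - z₁‖ < 6 * ρ := by
      rw [hsplit]
      refine lt_of_le_of_lt (norm_add_le _ _) ?_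
      rw [hn4]
      linarith
    obtain ⟨q, hqB, hqz, hqn⟩ := hψ2 z (by
      rw [mem_ball, dist_eq_norm]
      linarith)
    have hre : 2 * ρ * ‖k₁‖ ≤ (k₁ * (z - z₁)).re := by
      have h1 : k₁ * (z - z₁) = k₁ * (z - (z₁ + ((4 * ρ : ℝ) : ℂ) * e)) +
          ((4 * ρ * ‖k₁‖ : ℝ) : ℂ) := by
        rw [hsplit, mul_add, ← mul_assoc k₁, mul_comm k₁ ((4 * ρ : ℝ) : ℂ), mul_assoc, he1]
        push_cast
        ring
      rw [h1, Complex.add_re, Complex.ofReal_re]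
      have h2 : -(‖k₁‖ * (2 * ρ)) ≤ (k₁ * (z - (z₁ + ((4 * ρ : ℝ) : ℂ) * e))).re := by
        have h3 := Complex.abs_re_le_norm (k₁ * (z - (z₁ + ((4 * ρ : ℝ) : ℂ) * e)))
        rw [norm_mul] at h3
        have h4 : ‖k₁‖ * ‖z - (z₁ + ((4 * ρ : ℝ) : ℂ) * e)‖ ≤ ‖k₁‖ * (2 * ρ) :=
          mul_le_mul_of_nonneg_left hz.le hkn.le
        have h5 := neg_abs_le (k₁ * (z - (z₁ + ((4 * ρ : ℝ) : ℂ) * e))).re
        linarith
      linarith
    have hqre : 0 < q.re := by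
      have h1 := Complex.abs_re_le_norm (q - k₁ * (z - z₁))
      have h2 := neg_abs_le (q - k₁ * (z - z₁)).re
      rw [Complex.sub_re] at h2
      have h3 : ‖k₁‖ * ‖z - z₁‖ ≤ ‖k₁‖ * (6 * ρ) := mul_le_mul_of_nonneg_left hzn.le hkn.le
      have h4 : 0 < ρ * ‖k₁‖ := mul_pos hρ hkn
      rw [Complex.sub_re] at h1
      nlinarith
    by_contra hzΩ
    have h1 := (harb q hqB).1.1 (by rw [hqz]; exact hzΩ)
    rw [h1] at hqre
    exact lt_irrefl _ hqre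
  have := hE.inr _ _ hsub
  linarith

end Pool.Agent.Lib.MP250511.SB
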