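import Pool.Agent.Lib.MP_250511_an.SB.SpecV
import Pool.Agent.Lib.MP_250511_an.SB.UNB

/-!
# MP_250511_an, module NRT: the function `Q` of an extremal domain has no analytic continuation near `∞`
with at most a pole at `∞` (adapted from `UNB` of helper82)
-/

set_option autoImplicit false

namespace Pool.Agent.Lib.MP250511.SB

open Complex Metric Set MeasureTheory Filter Topology
open scoped Real ENNReal ComplexConjugate ContDiff

namespace NRTM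

/-- a chart of definite size at a complement point gives a ball of radius `2 ρ` -/
theorem core (hARB : SpecARB) (hCHT : SpecCHT) {f g : ℂ → ℂ} {Ω : Set ℂ} {ρ : ℝ}
    (hE : ExU f g Ω ρ) (hvol : volume Ωᶜ = 0) {H : ℂ → ℂ} {z₁ : ℂ} (hz₁Ω : z₁ ∉ Ω)
    (hHan : AnalyticOnNhd ℂ H (ball z₁ (64 * ρ)))
    (hq : ∀ z ∈ Ω, z ∈ ball z₁ (64 * ρ) → qG g z = H z) (hH1 : H z₁ ≠ 0)
    (hH2 : ∀ z ∈ ball z₁ (64 * ρ), ‖H z / H z₁ - 1‖ ≤ 1 / 100) : False := by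
  have hρ : 0 < ρ := hE.pos
  obtain ⟨ψ, η, k₁, hη, hk, hψan, hψinj, hψ0, hψ1, hψ2⟩ := hCHT H z₁ (64 * ρ)
    (by positivity) hHan hH1 hH2
  have harb := hARB f g Ω ψ η hE.toPair hη hψan hψinj (fun q hqB hqΩ => by
    rw [hq (ψ q) hqΩ (hψ1 q hqB).1]
    exact (hψ1 q hqB).2) (measure_mono_null (fun z hz => hz.2) hvol) (by rw [hψ0]; exact hz₁Ω)
  have hkn : 0 < ‖k₁‖ := norm_pos_iff.2 hk
  have hknc : ((‖k₁‖ : ℝ) : ℂ) ≠ 0 := by
    rw [Complex.ofReal_ne_zero]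
    exact hkn.ne'
  obtain ⟨e, he1, he2⟩ : ∃ e : ℂ, k₁ * e = ((‖k₁‖ : ℝ) : ℂ) ∧ ‖e‖ = 1 := by
    refine ⟨conj k₁ / ((‖k₁‖ : ℝ) : ℂ), ?_, ?_⟩
    · rw [← mul_div_assoc, Complex.mul_conj, Complex.normSq_eq_norm_sq, Complex.ofReal_pow, pow_two,
        mul_div_assoc, div_self hknc, mul_one]
    · rw [norm_div, Complex.norm_conj, Complex.norm_real, norm_norm, div_self hkn.ne']
  have hsub : ball (z₁ + ((4 * ρ : ℝ) : ℂ) * e) (2 * ρ) ⊆ Ω := by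
    intro z hz
    rw [mem_ball, dist_eq_norm] at hz
    have hsplit : z - z₁ = (z - (z₁ + ((4 * ρ : ℝ) : ℂ) * e)) + ((4 * ρ : ℝ) : ℂ) * e := by ring
    have hn4 : ‖((4 * ρ : ℝ) : ℂ) * e‖ = 4 * ρ := by
      rw [norm_mul, he2, mul_one, Complex.norm_real, Real.norm_eq_abs, abs_of_nonneg (by positivity)]
    have hzn : ‖z - z₁‖ < 6 * ρ := by
      rw [hsplit]
      refine lt_of_le_of_lt (norm_add_le _ _) ?_
      rw [hn4]
      linarith
    obtain ⟨q, hqB, hqz, hqn⟩ := hψ2 z (by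
      rw [mem_ball, dist_eq_norm]
      linarith)
    have hre : 2 * ρ * ‖k₁‖ ≤ (k₁ * (z - z₁)).re := by
      have h1 : k₁ * (z - z₁) = k₁ * (z - (z₁ + ((4 * ρ : ℝ) : ℂ) * e)) +
          ((4 * ρ * ‖k₁‖ : ℝ) : ℂ) := by
        rw [hsplit, mul_add, ← mul_assoc k₁, mul_comm k₁ ((4 * ρ : ℝ) : ℂ), mul_assoc, he1]
        push_cast
        ring
      rw [h1, Complex.add_re, Complex.ofReal_re]
      have h2 : -(‖k₁‖ * (2 * ρ)) ≤ (k₁ * (z - (z₁ + ((4 * ρ : ℝ) : ℂ) * e))).re := by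
        have h3 := Complex.abs_re_le_norm (k₁ * (z - (z₁ + ((4 * ρ : ℝ) : ℂ) * e)))
        rw [norm_mul] at h3
        have h4 : ‖k₁‖ * ‖z - (z₁ + ((4 * ρ : ℝ) : ℂ) * e)‖ ≤ ‖k₁‖ * (2 * ρ) :=
          mul_le_mul_of_nonneg_left hz.le hkn.le
        have h5 := neg_abs_le (k₁ * (z - (z₁ + ((4 * ρ : ℝ) : ℂ) * e))).re
        linarith
      linarith
    have hqre : 0 < q.re := by
      have h1 := Complex.abs_re_le_norm (q - k₁ * (z - z₁))
      have h2 := neg_abs_le (q - k₁ * (z - z₁)).re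
      rw [Complex.sub_re] at h2
      have h3 : ‖k₁‖ * ‖z - z₁‖ ≤ ‖k₁‖ * (6 * ρ) := mul_le_mul_of_nonneg_left hzn.le hkn.le
      have h4 : 0 < ρ * ‖k₁‖ := mul_pos hρ hkn
      rw [Complex.sub_re] at h1
      nlinarith
    by_contra hzΩ
    have h1 := (harb q hqB).1.1 (by rw [hqz]; exact hzΩ)
    rw [h1] at hqre
    exact lt_irrefl _ hqre
  have := hE.inr _ _ hsub
  linarith

/-- `(z / z₀) ^ m` is close to `1` for far `z₀` -/
theorem pow_near (m : ℕ) (L ε : ℝ) (hε : 0 < ε) : ∃ R : ℝ, 0 < R ∧ ∀ z₀ : ℂ, R < ‖z₀‖ →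
    ∀ z ∈ ball z₀ L, ‖(z / z₀) ^ m - 1‖ ≤ ε := by
  have hc : ContinuousAt (fun w : ℂ => w ^ m) 1 := (continuous_pow m).continuousAt
  obtain ⟨δ, hδ, hd⟩ := Metric.continuousAt_iff.1 hc ε hε
  refine ⟨|L| / δ + 1, by positivity, fun z₀ hz₀ z hz => ?_⟩
  have hz₀p : 0 < ‖z₀‖ := lt_trans (by positivity) hz₀
  have hz₀n : z₀ ≠ 0 := norm_pos_iff.1 hz₀p
  rw [mem_ball, dist_eq_norm] at hz
  have h1 : dist (z / z₀) 1 < δ := by
    rw [dist_eq_norm]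
    have h2 : z / z₀ - 1 = (z - z₀) / z₀ := by field_simp
    rw [h2, norm_div, div_lt_iff₀ hz₀p]
    have h3 : |L| < δ * ‖z₀‖ := by
      have h4 : |L| / δ < ‖z₀‖ := by linarith
      rw [div_lt_iff₀ hδ] at h4
      linarith
    have h5 := le_abs_self L
    linarith
  have h2 := hd h1
  simp only [one_pow] at h2
  rw [dist_eq_norm] at h2
  exact h2.le

theorem prod_near {a b : ℂ} (ha : ‖a - 1‖ ≤ 1 / 300) (hb : ‖b - 1‖ ≤ 1 / 300) :
    ‖a * b - 1‖ ≤ 1 / 100 := by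
  have h1 : a * b - 1 = (a - 1) * (b - 1) + ((a - 1) + (b - 1)) := by ring
  rw [h1]
  refine (norm_add_le _ _).trans ?_
  have h2 := norm_add_le (a - 1) (b - 1)
  have h3 : ‖(a - 1) * (b - 1)‖ ≤ 1 / 300 * (1 / 300) := by
    rw [norm_mul]
    exact mul_le_mul ha hb (norm_nonneg _) (by norm_num)
  linarith

end NRTM

theorem specNRT (hARB : SpecARB) (hORD : SpecORD) (hCHT : SpecCHT) : SpecNRT := by
  intro f g Ω ρ hE hvol M C m H hM hHan hHb hall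
  have hρ : 0 < ρ := hE.pos
  have hz0 : ∀ z : ℂ, M < ‖z‖ → z ≠ 0 := by
    intro z hz h
    rw [h, norm_zero] at hz
    linarith
  have hH'an : AnalyticOnNhd ℂ (fun z => H z / z ^ m) {z | M < ‖z‖} := by
    intro z hz
    exact (hHan z hz).div (analyticAt_id.pow m) (pow_ne_zero m (hz0 z hz))
  have hH'b : ∃ C R : ℝ, ∀ z : ℂ, R < ‖z‖ → ‖H z / z ^ m‖ ≤ C := by
    refine ⟨C, M, fun z hz => ?_⟩
    have hp : 0 < ‖z‖ ^ m := pow_pos (norm_pos_iff.2 (hz0 z hz)) m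
    rw [norm_div, norm_pow, div_le_iff₀ hp]
    exact hHb z hz
  have hne : ¬ ∀ z : ℂ, M < ‖z‖ → H z / z ^ m = 0 := by
    intro h0
    have hopen : IsOpen {z : ℂ | M < ‖z‖} := isOpen_lt continuous_const continuous_norm
    have hnon : {z : ℂ | M < ‖z‖}.Nonempty := by
      refine ⟨((M + 1 : ℝ) : ℂ), ?_⟩
      show M < ‖((M + 1 : ℝ) : ℂ)‖
      rw [Complex.norm_real, Real.norm_eq_abs, abs_of_nonneg (by linarith)]
      linarith
    obtain ⟨z, hzM, hzΩ⟩ := UNBM.meets hvol hopen hnon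
    apply UNBM.qG_ne hE.toPair hzΩ (hz0 z hzM)
    rw [hall z hzΩ hzM]
    rcases div_eq_zero_iff.1 (h0 z hzM) with h1 | h1
    · exact h1
    · exact absurd h1 (pow_ne_zero m (hz0 z hzM))
  obtain ⟨R, hR⟩ := hORD (fun z => H z / z ^ m) M hM hH'an hH'b hne (64 * ρ) (by positivity)
    (1 / 300) (by norm_num)
  obtain ⟨R', hR'0, hR'⟩ := NRTM.pow_near m (64 * ρ) (1 / 300) (by norm_num)
  obtain ⟨z₁, hz₁Ω, hz₁⟩ := UNBM.far hρ hE.inr (max (max R R') (M + 64 * ρ))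
  have hz₁R : R < ‖z₁‖ :=
    lt_of_le_of_lt ((le_max_left _ _).trans (le_max_left _ _)) hz₁
  have hz₁R' : R' < ‖z₁‖ :=
    lt_of_le_of_lt ((le_max_right _ _).trans (le_max_left _ _)) hz₁
  have hz₁M : M + 64 * ρ < ‖z₁‖ := lt_of_le_of_lt (le_max_right _ _) hz₁
  have hz₁0 : z₁ ≠ 0 := hz0 z₁ (by linarith)
  have hball : ∀ z ∈ ball z₁ (64 * ρ), M < ‖z‖ := by
    intro z hz
    rw [mem_ball, dist_eq_norm] at hz
    have h1 := norm_sub_norm_le z₁ z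
    rw [norm_sub_rev] at h1
    linarith
  obtain ⟨hH1, hH2⟩ := hR z₁ hz₁R
  have hH1' : H z₁ ≠ 0 := by
    intro h
    apply hH1
    show H z₁ / z₁ ^ m = 0
    rw [h, zero_div]
  refine NRTM.core hARB hCHT hE hvol hz₁Ω (fun z hz => hHan z (hball z hz))
    (fun z hz hzb => hall z hz (hball z hzb)) hH1' ?_
  intro z hz
  have hzn : z ^ m ≠ 0 := pow_ne_zero m (hz0 z (hball z hz))
  have hz₁n : z₁ ^ m ≠ 0 := pow_ne_zero m hz₁0
  have hid : H z / H z₁ = (H z / z ^ m) / (H z₁ / z₁ ^ m) * (z / z₁) ^ m := by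
    rw [div_pow]
    field_simp
  rw [hid]
  exact NRTM.prod_near (hH2 z hz) (hR' z₁ hz₁R' z hz)

end Pool.Agent.Lib.MP250511.SB
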