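import Pool.Agent.Lib.MP_250511_an.SB.SpecR

/-!
# MP_250511_an, module ODE: the differential equation of the extremal functions
-/

set_option autoImplicit false

namespace Pool.Agent.Lib.MP250511.SB

open Complex Metric Set MeasureTheory Filter Topology
open scoped Real ENNReal ComplexConjugate ContDiff

theorem specODE (hEXF : SpecEXF) (hMUL : SpecMUL) (hMAS : SpecMAS) (hCPX : SpecCPX)
    (hREP : SpecREP) : SpecODE := by
  intro f hf hr
  obtain ⟨g, hE⟩ := hEXF f hf hr
  obtain ⟨ν, h1, h2, h3⟩ := hMUL f g _ _ hE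
  have h4 := hMAS f g _ _ hE ν h1 h2 h3
  have hP : IsProbabilityMeasure ν := ⟨h4⟩
  obtain ⟨h5, h6⟩ := hCPX g _ _ ν hE.pos inferInstance h2 h3
  have h7 := hREP f g _ _ ν hE.toPair hE.one hE.pos inferInstance h2 h5 h6
  refine ⟨ν, hP, ?_, h6, ?_⟩
  · rw [ae_iff]
    exact h2
  · intro w hw hw0
    have hfw : f w ∈ f '' ball 0 1 := ⟨w, hw, rfl⟩
    have hfw0 : f w ≠ 0 := by
      intro h
      apply hw0
      apply hE.inj hw (mem_ball_self one_pos)
      rw [h, hE.zero]
    rw [← h7 (f w) hfw hfw0]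
    unfold qG
    rw [hE.GF w hw]
    have hd := hE.dGF w hw
    have hdf : deriv f w ≠ 0 := hE.dF w hw
    have hdg : deriv g (f w) = (deriv f w)⁻¹ := eq_inv_of_mul_eq_one_left hd
    rw [hdg]
    field_simp

end Pool.Agent.Lib.MP250511.SB
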