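import Pool.Agent.Lib.MP_250511_an.SB.SpecU

/-! # Module ORD: behaviour at infinity -/

set_option autoImplicit false

namespace Pool.Agent.Lib.MP250511.SB

open Complex Metric Set MeasureTheory Filter Topology
open scoped Real ENNReal ComplexConjugate ContDiff

namespace ORDM

lemma preconn {M : ℝ} (hM : 0 ≤ M) : IsPreconnected {z : ℂ | M < ‖z‖} := by
  have h1 : IsPreconnected (Ioi M ×ˢ (univ : Set ℝ)) := isPreconnected_Ioi.prod isPreconnected_univ
  have h2 : Continuous fun p : ℝ × ℝ => (p.1 : ℂ) * Complex.exp ((p.2 : ℂ) * I) := by fun_prop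
  have h3 := h1.image _ h2.continuousOn
  convert h3 using 1
  ext z
  simp only [mem_ofPred_eq, mem_image, mem_prod, mem_Ioi, mem_univ, and_true, Prod.exists]
  constructor
  · intro hz
    exact ⟨‖z‖, z.arg, hz, Complex.norm_mul_exp_arg_mul_I z⟩
  · rintro ⟨r, θ, hr, rfl⟩
    rw [norm_mul, Complex.norm_exp_ofReal_mul_I, mul_one, Complex.norm_real, Real.norm_eq_abs]
    exact lt_of_lt_of_le hr (le_abs_self r)

/-- the order at infinity -/
lemma factor (H : ℂ → ℂ) (M : ℝ) (hM : 0 ≤ M) (hH : AnalyticOnNhd ℂ H {z | M < ‖z‖})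
    (hb : ∃ C R : ℝ, ∀ z, R < ‖z‖ → ‖H z‖ ≤ C) (h0 : ¬ ∀ z : ℂ, M < ‖z‖ → H z = 0) :
    ∃ (k : ℕ) (a : ℂ → ℂ) (δ : ℝ), 0 < δ ∧ ContinuousAt a 0 ∧ a 0 ≠ 0 ∧
      ∀ t : ℂ, t ≠ 0 → ‖t‖ < δ → H t⁻¹ = t ^ k * a t ∧ a t ≠ 0 := by
  obtain ⟨C, R, hC⟩ := hb
  set r : ℝ := (max M R + 1)⁻¹ with hr
  have hpos : 0 < max M R + 1 := by
    have := le_max_left M R
    linarith
  have hr0 : 0 < r := inv_pos.2 hpos
  have hlarge : ∀ t : ℂ, t ≠ 0 → ‖t‖ < r → max M R < ‖t⁻¹‖ := by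
    intro t ht htr
    rw [norm_inv]
    have h1 : 0 < ‖t‖ := norm_pos_iff.2 ht
    have h2 : max M R + 1 < ‖t‖⁻¹ := by
      rw [hr] at htr
      exact (lt_inv_comm₀ h1 hpos).1 htr
    linarith
  have hd : DifferentiableOn ℂ (fun t => H t⁻¹) (ball (0 : ℂ) r \ {0}) := by
    intro t ht
    have ht0 : t ≠ 0 := ht.2
    have h1 := hlarge t ht0 (by simpa using ht.1)
    have h2 : AnalyticAt ℂ H t⁻¹ := hH _ (lt_of_le_of_lt (le_max_left _ _) h1)
    exact (h2.differentiableAt.comp t (differentiableAt_inv ht0)).differentiableWithinAt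
  have hbd : BddAbove (norm ∘ (fun t => H t⁻¹) '' (ball (0 : ℂ) r \ {0})) := by
    refine ⟨C, ?_⟩
    rintro _ ⟨t, ht, rfl⟩
    exact hC _ (lt_of_le_of_lt (le_max_right _ _) (hlarge t ht.2 (by simpa using ht.1)))
  have hG := Complex.differentiableOn_update_limUnder_of_bddAbove (ball_mem_nhds (0 : ℂ) hr0) hd hbd
  set G : ℂ → ℂ := Function.update (fun t => H t⁻¹) 0 (limUnder (𝓝[≠] 0) fun t => H t⁻¹) with hGdef
  have hGt : ∀ t : ℂ, t ≠ 0 → G t = H t⁻¹ := by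
    intro t ht
    rw [hGdef, Function.update_of_ne ht]
  have hGa : AnalyticAt ℂ G 0 := hG.analyticAt (ball_mem_nhds (0 : ℂ) hr0)
  have hne : ¬ ∀ᶠ t in 𝓝 (0 : ℂ), G t = 0 := by
    intro hz
    obtain ⟨s, hs, hsz⟩ := Metric.eventually_nhds_iff.1 hz
    apply h0
    -- `H` vanishes near infinity
    have h1 : ∀ z : ℂ, max M s⁻¹ < ‖z‖ → H z = 0 := by
      intro z hz1
      have hzpos : 0 < ‖z‖ := lt_of_le_of_lt hM (lt_of_le_of_lt (le_max_left _ _) hz1)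
      have hz0 : z ≠ 0 := norm_pos_iff.1 hzpos
      have h2 : dist z⁻¹ 0 < s := by
        rw [dist_zero_right, norm_inv]
        exact (inv_lt_comm₀ hs hzpos).1 (lt_of_le_of_lt (le_max_right _ _) hz1)
      have h3 := hsz h2
      rw [hGt _ (inv_ne_zero hz0), inv_inv] at h3
      exact h3
    set z1 : ℂ := ((max M s⁻¹ + 1 : ℝ) : ℂ) with hz1
    have hn1 : ‖z1‖ = max M s⁻¹ + 1 := by
      rw [hz1, Complex.norm_real, Real.norm_eq_abs, abs_of_pos]
      have := le_max_left M s⁻¹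
      linarith
    have hmem : z1 ∈ {z : ℂ | M < ‖z‖} := by
      have := le_max_left M s⁻¹
      simp only [mem_ofPred_eq, hn1]
      linarith
    have hev : H =ᶠ[𝓝 z1] 0 := by
      have hop : IsOpen {z : ℂ | max M s⁻¹ < ‖z‖} := isOpen_lt continuous_const continuous_norm
      filter_upwards [hop.mem_nhds (show z1 ∈ {z : ℂ | max M s⁻¹ < ‖z‖} by
        simp only [mem_ofPred_eq, hn1]
        linarith)] with z hz
      exact h1 z hz
    have hfin := hH.eqOn_zero_of_preconnected_of_eventuallyEq_zero (preconn hM) hmem hev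
    intro z hz
    exact hfin hz
  obtain ⟨k, a, ha, ha0, hak⟩ := hGa.exists_eventuallyEq_pow_smul_nonzero_iff.2 hne
  have hac : ∀ᶠ t in 𝓝 (0 : ℂ), a t ≠ 0 := ha.continuousAt.eventually_ne ha0
  obtain ⟨δ, hδ, hδ'⟩ := Metric.eventually_nhds_iff.1 (hak.and hac)
  refine ⟨k, a, δ, hδ, ha.continuousAt, ha0, fun t ht htd => ?_⟩
  obtain ⟨h1, h2⟩ := hδ' (y := t) (by rwa [dist_zero_right])
  refine ⟨?_, h2⟩
  rw [← hGt t ht, h1, sub_zero, smul_eq_mul]

end ORDM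

open ORDM in
theorem specORD : SpecORD := by
  intro H M hM hH hb h0 L hL ε hε
  obtain ⟨k, a, δ, hδ, hac, ha0, hfac⟩ := factor H M hM hH hb h0
  have hF : ContinuousAt (fun p : ℂ × ℂ × ℂ => p.1 ^ k * a p.2.1 / a p.2.2) (1, 0, 0) := by
    have h1 : ContinuousAt (fun p : ℂ × ℂ × ℂ => p.1 ^ k) (1, 0, 0) := by fun_prop
    have h2 : ContinuousAt (fun p : ℂ × ℂ × ℂ => a p.2.1) (1, 0, 0) :=
      ContinuousAt.comp (g := a) (f := fun p : ℂ × ℂ × ℂ => p.2.1) hac (by fun_prop)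
    have h3 : ContinuousAt (fun p : ℂ × ℂ × ℂ => a p.2.2) (1, 0, 0) :=
      ContinuousAt.comp (g := a) (f := fun p : ℂ × ℂ × ℂ => p.2.2) hac (by fun_prop)
    exact (h1.mul h2).div h3 ha0
  obtain ⟨δ', hδ', hF'⟩ := Metric.continuousAt_iff.1 hF ε hε
  set D : ℝ := min δ δ' with hD
  have hD0 : 0 < D := lt_min hδ hδ'
  refine ⟨L + M + 1 + (L + 1) / D, fun z₀ hz₀ => ?_⟩
  have hq : 0 < (L + 1) / D := by positivity
  -- facts on large points
  have big : ∀ z : ℂ, (L + 1) / D < ‖z‖ → z ≠ 0 ∧ ‖z⁻¹‖ < D := by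
    intro z hz
    have hzp : 0 < ‖z‖ := hq.trans hz
    refine ⟨norm_pos_iff.1 hzp, ?_⟩
    rw [norm_inv, inv_lt_comm₀ hzp hD0]
    refine lt_trans ?_ hz
    rw [inv_eq_one_div]
    exact div_lt_div_of_pos_right (by linarith) hD0
  have form : ∀ z : ℂ, (L + 1) / D < ‖z‖ → H z = (z⁻¹) ^ k * a z⁻¹ ∧ a z⁻¹ ≠ 0 := by
    intro z hz
    obtain ⟨h1, h2⟩ := big z hz
    have h3 := hfac z⁻¹ (inv_ne_zero h1) (h2.trans_le (min_le_left _ _))
    rwa [inv_inv] at h3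
  have hz₀' : (L + 1) / D < ‖z₀‖ := by linarith
  obtain ⟨e0, e1⟩ := form z₀ hz₀'
  obtain ⟨n0, n1⟩ := big z₀ hz₀'
  refine ⟨?_, fun z hz => ?_⟩
  · rw [e0]
    exact mul_ne_zero (pow_ne_zero _ (inv_ne_zero n0)) e1
  · have hzd : ‖z - z₀‖ < L := by rwa [← dist_eq_norm]
    have hzn : M + 1 + (L + 1) / D < ‖z‖ := by
      have := norm_sub_norm_le z₀ z
      rw [norm_sub_rev] at this
      linarith
    have hz' : (L + 1) / D < ‖z‖ := by linarith
    obtain ⟨f0, f1⟩ := form z hz'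
    obtain ⟨m0, m1⟩ := big z hz'
    have hs : dist (z₀ / z) 1 < δ' := by
      have h1 : z₀ / z - 1 = (z₀ - z) / z := by
        field_simp
      rw [dist_eq_norm, h1, norm_div, norm_sub_rev]
      have hzp : 0 < ‖z‖ := norm_pos_iff.2 m0
      rw [div_lt_iff₀ hzp]
      have h2 : L + 1 < ‖z‖ * D := (div_lt_iff₀ hD0).1 hz'
      have h3 : ‖z‖ * D ≤ δ' * ‖z‖ := by
        rw [mul_comm]
        exact mul_le_mul_of_nonneg_right (min_le_right _ _) hzp.le
      linarith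
    have hp : dist ((z₀ / z, z⁻¹, z₀⁻¹) : ℂ × ℂ × ℂ) (1, 0, 0) < δ' := by
      rw [Prod.dist_eq, Prod.dist_eq]
      refine max_lt hs (max_lt ?_ ?_)
      · rw [dist_zero_right]
        exact m1.trans_le (min_le_right _ _)
      · rw [dist_zero_right]
        exact n1.trans_le (min_le_right _ _)
    have hfin := hF' hp
    rw [dist_eq_norm] at hfin
    have hval : H z / H z₀ = (z₀ / z) ^ k * a z⁻¹ / a z₀⁻¹ := by
      have h5 : (z⁻¹) ^ k = (z₀⁻¹) ^ k * (z₀ / z) ^ k := by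
        rw [← mul_pow]
        congr 1
        field_simp
      rw [e0, f0, h5, mul_assoc, mul_div_mul_left _ _ (pow_ne_zero _ (inv_ne_zero n0))]
    have h1 : (1 : ℂ) ^ k * a 0 / a 0 = 1 := by
      rw [one_pow, one_mul, div_self ha0]
    simp only [h1] at hfin
    rw [hval]
    exact hfin.le

end Pool.Agent.Lib.MP250511.SB
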