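import Pool.Agent.Lib.MP_250511_an.SB.SpecR

/-!
# MP_250511_an, module OUT: the outer integrals
-/

set_option autoImplicit false

namespace Pool.Agent.Lib.MP250511.SB

open Complex Metric Set MeasureTheory Filter Topology
open scoped Real ENNReal ComplexConjugate ContDiff

namespace OUTM

/-- bounded kernels which vanish on larger and larger discs -/
theorem gen (Ω : Set ℂ) (q : ℂ → ℂ) (hΩ : IsOpen Ω) (hq : IntegrableOn q (Ω \ ball 0 1))
    (h : ℕ → ℂ → ℂ) (C : ℝ) (hm : ∀ n, Measurable (h n))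
    (h0 : ∀ (n : ℕ) (z : ℂ), ‖z‖ ≤ (n : ℝ) + 1 → h n z = 0)
    (hb : ∀ᶠ n : ℕ in atTop, ∀ z, ‖h n z‖ ≤ C) :
    Tendsto (fun n : ℕ => ∫ z in Ω, h n z * q z) atTop (𝓝 0) := by
  have heq : ∀ n : ℕ, ∫ z in Ω, h n z * q z = ∫ z in Ω \ ball 0 1, h n z * q z := by
    intro n
    refine setIntegral_eq_of_subset_of_forall_sdiff_eq_zero hΩ.measurableSet sdiff_subset ?_
    intro z hz
    have hz1 : z ∈ ball (0 : ℂ) 1 := by
      by_contra hcon
      exact hz.2 ⟨hz.1, hcon⟩
    have hz2 : ‖z‖ < 1 := by simpa using hz1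
    have hn : (0 : ℝ) ≤ n := n.cast_nonneg
    rw [h0 n z (by linarith), zero_mul]
  simp only [heq]
  have key : Tendsto (fun n : ℕ => ∫ z in Ω \ ball (0 : ℂ) 1, h n z * q z) atTop
      (𝓝 (∫ _z in Ω \ ball (0 : ℂ) 1, (0 : ℂ))) := by
    refine tendsto_integral_filter_of_dominated_convergence (fun z => C * ‖q z‖) ?_ ?_ ?_ ?_
    · exact Eventually.of_forall fun n =>
        (hm n).aestronglyMeasurable.mul hq.aestronglyMeasurable
    · filter_upwards [hb] with n hn
      refine Eventually.of_forall fun z => ?_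
      rw [norm_mul]
      exact mul_le_mul_of_nonneg_right (hn z) (norm_nonneg _)
    · exact hq.norm.const_mul C
    · refine Eventually.of_forall fun z => ?_
      refine tendsto_const_nhds.congr' ?_
      obtain ⟨m, hm'⟩ := exists_nat_ge ‖z‖
      filter_upwards [eventually_ge_atTop m] with n hn
      have hmn : (m : ℝ) ≤ n := by exact_mod_cast hn
      rw [h0 n z (by linarith), zero_mul]
  simpa using key

end OUTM

open OUTM in
theorem specOUT (hKER : SpecKER) : SpecOUT := by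
  obtain ⟨hK, B, hB0, hB⟩ := hKER
  intro Ω q hΩ hq
  have hR : ∀ n : ℕ, (0 : ℝ) < (n : ℝ) + 1 := fun n => by positivity
  have hB1 : ∀ (n : ℕ) (z : ℂ), ‖Ker ((n : ℝ) + 1) z‖ ≤ B := by
    intro n z
    refine (hB _ (hR n) z).trans ?_
    have h1 : (1 : ℝ) ≤ ((n : ℝ) + 1) ^ 2 := by
      have hn : (0 : ℝ) ≤ n := n.cast_nonneg
      nlinarith
    exact div_le_self hB0 h1
  constructor
  · refine gen Ω q hΩ (hq 1 one_pos) (fun n z => Ker ((n : ℝ) + 1) z * z) (2 * B) ?_ ?_ ?_
    · intro n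
      exact ((hK _ (hR n)).1.mul continuous_id).measurable
    · intro n z hz
      show Ker ((n : ℝ) + 1) z * z = 0
      rw [(hK _ (hR n)).2.1 z hz, zero_mul]
    · refine Eventually.of_forall fun n z => ?_
      show ‖Ker ((n : ℝ) + 1) z * z‖ ≤ 2 * B
      have hn : (0 : ℝ) ≤ n := n.cast_nonneg
      rw [norm_mul]
      rcases le_or_gt (2 * ((n : ℝ) + 1) ^ 2) (‖z‖ ^ 2) with h | h
      · rw [(hK _ (hR n)).2.2.1 z h, norm_zero, zero_mul]
        positivity
      · have hz : ‖z‖ ≤ 2 * ((n : ℝ) + 1) := by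
          by_contra hcon
          push Not at hcon
          nlinarith [norm_nonneg z]
        calc ‖Ker ((n : ℝ) + 1) z‖ * ‖z‖
            ≤ (B / ((n : ℝ) + 1) ^ 2) * (2 * ((n : ℝ) + 1)) :=
              mul_le_mul (hB _ (hR n) z) hz (norm_nonneg _) (by positivity)
          _ = 2 * B / ((n : ℝ) + 1) := by
              field_simp
          _ ≤ 2 * B := div_le_self (by positivity) (by linarith)
  · intro ζ
    refine gen Ω q hΩ (hq 1 one_pos) (fun n z => Ker ((n : ℝ) + 1) z * (z / (z - ζ))) (2 * B)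
      ?_ ?_ ?_
    · intro n
      exact (hK _ (hR n)).1.measurable.mul (measurable_id.div (measurable_id.sub_const ζ))
    · intro n z hz
      show Ker ((n : ℝ) + 1) z * (z / (z - ζ)) = 0
      rw [(hK _ (hR n)).2.1 z hz, zero_mul]
    · obtain ⟨m, hm⟩ := exists_nat_ge (2 * ‖ζ‖)
      filter_upwards [eventually_ge_atTop m] with n hn z
      show ‖Ker ((n : ℝ) + 1) z * (z / (z - ζ))‖ ≤ 2 * B
      have hmn : (m : ℝ) ≤ n := by exact_mod_cast hn
      rcases le_or_gt ‖z‖ ((n : ℝ) + 1) with h | h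
      · rw [(hK _ (hR n)).2.1 z h, zero_mul, norm_zero]
        positivity
      · have h1 : ‖z‖ / 2 ≤ ‖z - ζ‖ := by
          have h2 := norm_sub_norm_le z ζ
          linarith
        have hzpos : 0 < ‖z‖ := (hR n).trans h
        have h3 : ‖z / (z - ζ)‖ ≤ 2 := by
          rw [norm_div, div_le_iff₀ (by linarith)]
          linarith
        rw [norm_mul]
        calc ‖Ker ((n : ℝ) + 1) z‖ * ‖z / (z - ζ)‖ ≤ B * 2 :=
              mul_le_mul (hB1 n z) h3 (norm_nonneg _) hB0
          _ = 2 * B := by ring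

end Pool.Agent.Lib.MP250511.SB
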