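import Pool.Agent.Lib.MP_250511_an.SB.Spec
import Pool.Agent.Lib.MP_250511_an.INV

/-!
# MP_250511_an, SB, module PAI: the inverse of a conformal map
-/

set_option autoImplicit false

namespace Pool.Agent.Lib.MP250511.SB

open Complex Metric Set MeasureTheory Filter Topology
open scoped Real ENNReal ComplexConjugate ContDiff

theorem specPAI : SpecPAI := by
  intro F U hF
  obtain ⟨hne, ho, G, hG⟩ := specINV F hF.an hF.inj
  have ho' : IsOpen U := hF.im ▸ ho
  have hmem : ∀ z ∈ U, ∃ w ∈ ball (0 : ℂ) 1, F w = z := by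
    intro z hz
    rw [← hF.im] at hz
    exact hz
  have hGm : ∀ z ∈ U, ‖G z‖ < 1 := by
    intro z hz
    obtain ⟨w, hw, rfl⟩ := hmem z hz
    rw [(hG w hw).1]
    exact mem_ball_zero_iff.1 hw
  refine ⟨G, ?_⟩
  refine ⟨hF, ho', hne, ?_, hGm, ?_, ?_, ?_, ?_, ?_⟩
  · refine DifferentiableOn.analyticOnNhd ?_ ho'
    intro z hz
    obtain ⟨w, hw, rfl⟩ := hmem z hz
    exact (hG w hw).2.differentiableAt.differentiableWithinAt
  · intro z hz
    obtain ⟨w, hw, rfl⟩ := hmem z hz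
    rw [(hG w hw).1]
  · intro w hw
    exact (hG w hw).1
  · intro z hz
    obtain ⟨w, hw, rfl⟩ := hmem z hz
    rw [(hG w hw).2.deriv]
    exact inv_ne_zero (hne w hw)
  · intro w hw
    rw [(hG w hw).2.deriv]
    exact inv_mul_cancel₀ (hne w hw)
  · intro z₀ hz₀ s hs
    have hsub : closedBall (0 : ℂ) s ⊆ ball 0 1 := closedBall_subset_ball hs
    have hcpt : IsCompact (F '' closedBall (0 : ℂ) s) :=
      (isCompact_closedBall 0 s).image_of_continuousOn (hF.an.continuousOn.mono hsub)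
    have hout : z₀ ∈ (F '' closedBall (0 : ℂ) s)ᶜ := by
      rintro ⟨w, hw, rfl⟩
      apply hz₀
      rw [← hF.im]
      exact ⟨w, hsub hw, rfl⟩
    obtain ⟨δ, hδ, hball⟩ := Metric.isOpen_iff.1 hcpt.isClosed.isOpen_compl z₀ hout
    refine ⟨δ, hδ, ?_⟩
    intro z hz hd
    obtain ⟨w, hw, rfl⟩ := hmem z hz
    rw [(hG w hw).1]
    by_contra hcon
    rw [not_lt] at hcon
    exact hball (mem_ball.2 hd) ⟨w, mem_closedBall_zero_iff.2 hcon, rfl⟩

end Pool.Agent.Lib.MP250511.SB
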