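import Pool.Agent.Lib.MP_250511_an.SB.Spec

/-!
# PER: perturbations away from `KK` do not change the inradius
-/

set_option autoImplicit false

namespace Pool.Agent.Lib.MP250511.SB

open Complex Metric Set MeasureTheory Filter Topology

theorem specPER : SpecPER := by
  intro Ω ρ hρ hΩ hin Z hZ hdis En hE1 hE2
  by_contra hcon
  rw [Filter.not_eventually] at hcon
  have hf : ∃ᶠ n in atTop, ∃ (c e : ℂ) (r : ℝ), (∀ x ∈ En n, x ∉ ball c r) ∧ ρ < r ∧
      e ∈ ball c r ∧ e ∉ Ω ∧ e ∈ Z := by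
    refine (hcon.and_eventually hE1).mono ?_
    rintro n ⟨h1, h2⟩
    push Not at h1
    obtain ⟨c, r, h3, h4⟩ := h1
    have h5 : ¬ ball c r ⊆ Ω := fun h => absurd (hin c r h) (not_le.2 h4)
    obtain ⟨e, he1, he2⟩ := Set.not_subset.1 h5
    refine ⟨c, e, r, h3, h4, he1, he2, ?_⟩
    by_contra hz
    exact h3 e (h2 e he2 hz) he1
  obtain ⟨φ, hφ, hφ'⟩ := Filter.extraction_of_frequently_atTop hf
  choose c e r h1 h2 h3 h4 h5 using hφ'
  let r' : ℕ → ℝ := fun k => min (r k) (ρ + 1 / ((k : ℝ) + 1))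
  let c' : ℕ → ℂ := fun k => c k + (((r k - r' k) / r k : ℝ) : ℂ) * (e k - c k)
  have hr0 : ∀ k, 0 < r k := fun k => hρ.trans (h2 k)
  have hr1 : ∀ k, ρ < r' k := by
    intro k
    have : (0 : ℝ) < 1 / ((k : ℝ) + 1) := by positivity
    exact lt_min (h2 k) (by linarith)
  have hr2 : ∀ k, r' k ≤ r k := fun k => min_le_left _ _
  have hr3 : ∀ k, r' k ≤ ρ + 1 / ((k : ℝ) + 1) := fun k => min_le_right _ _
  have ht0 : ∀ k, 0 ≤ (r k - r' k) / r k := fun k => div_nonneg (by linarith [hr2 k]) (hr0 k).le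
  have hen : ∀ k, ‖e k - c k‖ < r k := by
    intro k
    have := h3 k
    rwa [mem_ball, dist_eq_norm] at this
  have hcc : ∀ k, ‖c' k - c k‖ ≤ r k - r' k := by
    intro k
    have e1 : c' k - c k = (((r k - r' k) / r k : ℝ) : ℂ) * (e k - c k) := by
      show c k + _ - c k = _
      ring
    rw [e1, norm_mul, Complex.norm_real, Real.norm_of_nonneg (ht0 k)]
    calc (r k - r' k) / r k * ‖e k - c k‖ ≤ (r k - r' k) / r k * r k :=
          mul_le_mul_of_nonneg_left (hen k).le (ht0 k)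
      _ = r k - r' k := div_mul_cancel₀ _ (hr0 k).ne'
  have hsub : ∀ k x, dist x (c' k) < r' k → x ∈ ball (c k) (r k) := by
    intro k x hx
    rw [mem_ball]
    calc dist x (c k) ≤ dist x (c' k) + dist (c' k) (c k) := dist_triangle _ _ _
      _ < r' k + (r k - r' k) := by
          have := hcc k
          rw [← dist_eq_norm] at this
          linarith
      _ = r k := by ring
  have hec : ∀ k, dist (e k) (c' k) < r' k := by
    intro k
    have e1 : e k - c' k = ((r' k / r k : ℝ) : ℂ) * (e k - c k) := by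
      have h6 : (r' k / r k : ℝ) = 1 - (r k - r' k) / r k := by
        field_simp [(hr0 k).ne']
        ring
      rw [h6]
      show e k - (c k + _) = _
      push_cast
      ring
    have hr'0 : 0 < r' k := hρ.trans (hr1 k)
    rw [dist_eq_norm, e1, norm_mul, Complex.norm_real,
      Real.norm_of_nonneg (div_nonneg hr'0.le (hr0 k).le)]
    calc r' k / r k * ‖e k - c k‖ < r' k / r k * r k :=
          mul_lt_mul_of_pos_left (hen k) (div_pos hr'0 (hr0 k))
      _ = r' k := div_mul_cancel₀ _ (hr0 k).ne'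
  obtain ⟨M, hM⟩ := hZ.isBounded.subset_closedBall (0 : ℂ)
  have hmem : ∀ k, (e k, c' k) ∈ Z ×ˢ closedBall (0 : ℂ) (M + (ρ + 1)) := by
    intro k
    refine ⟨h5 k, ?_⟩
    have e1 : dist (e k) 0 ≤ M := hM (h5 k)
    have e2 : (1 : ℝ) / ((k : ℝ) + 1) ≤ 1 := by
      rw [div_le_one (by positivity)]
      have : (0 : ℝ) ≤ (k : ℝ) := Nat.cast_nonneg k
      linarith
    have e3 : dist (c' k) 0 ≤ dist (c' k) (e k) + dist (e k) 0 := dist_triangle _ _ _
    have e4 := hec k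
    rw [dist_comm] at e4
    have e5 := hr3 k
    show dist (c' k) 0 ≤ _
    linarith
  obtain ⟨⟨e₀, c₀⟩, ⟨he0, -⟩, ψ, hψ, hlim⟩ :=
    (hZ.prod (isCompact_closedBall (0 : ℂ) (M + (ρ + 1)))).tendsto_subseq hmem
  have hle : Tendsto (fun k => e (ψ k)) atTop (𝓝 e₀) := (continuous_fst.tendsto _).comp hlim
  have hlc : Tendsto (fun k => c' (ψ k)) atTop (𝓝 c₀) := (continuous_snd.tendsto _).comp hlim
  have heΩ : e₀ ∉ Ω := by
    have := (hΩ.isClosed_compl).mem_of_tendsto hle (Eventually.of_forall fun k => h4 (ψ k))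
    exact this
  have hball : ball c₀ ρ ⊆ Ω := by
    intro x hx
    by_contra hxΩ
    obtain ⟨u, hu1, hu2⟩ := hE2 x hxΩ
    have hφψ : Tendsto (fun k => φ (ψ k)) atTop atTop := hφ.tendsto_atTop.comp hψ.tendsto_atTop
    have g1 := hφψ.eventually hu1
    have g2 : Tendsto (fun k => dist (u (φ (ψ k))) (c' (ψ k))) atTop (𝓝 (dist x c₀)) :=
      (hu2.comp hφψ).dist hlc
    have g3 := g2.eventually_lt_const (mem_ball.1 hx)
    obtain ⟨k, g4, g5⟩ := (g1.and g3).exists
    exact h1 (ψ k) _ g4 (hsub _ _ (g5.trans (hr1 _)))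
  have hd1 : dist e₀ c₀ ≤ ρ := by
    have g1 : Tendsto (fun k => dist (e (ψ k)) (c' (ψ k))) atTop (𝓝 (dist e₀ c₀)) := hle.dist hlc
    have g2 : Tendsto (fun k : ℕ => ρ + 1 / (((ψ k : ℕ) : ℝ) + 1)) atTop (𝓝 (ρ + 0)) :=
      tendsto_const_nhds.add (tendsto_one_div_add_atTop_nhds_zero_nat.comp hψ.tendsto_atTop)
    rw [add_zero] at g2
    exact le_of_tendsto_of_tendsto' g1 g2 fun k => (hec _).le.trans (hr3 _)
  have hd2 : dist e₀ c₀ = ρ := by
    refine le_antisymm hd1 (not_lt.1 fun h => heΩ (hball h))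
  exact Set.disjoint_left.1 hdis he0 ⟨heΩ, c₀, hball, hd2⟩

end Pool.Agent.Lib.MP250511.SB
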