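import Pool.Agent.Lib.MP_250511_an.SB.Spec

/-! # Module PIK: Schwarz-Pick -/

set_option autoImplicit false

namespace Pool.Agent.Lib.MP250511.SB

open Complex Metric Set MeasureTheory Filter Topology
open scoped Real ENNReal ComplexConjugate ContDiff

namespace PIKM

lemma ident (a b : ℂ) : ‖1 - conj a * b‖ ^ 2 - ‖b - a‖ ^ 2 = (1 - ‖a‖ ^ 2) * (1 - ‖b‖ ^ 2) := by
  rw [← Complex.normSq_eq_norm_sq, ← Complex.normSq_eq_norm_sq, ← Complex.normSq_eq_norm_sq,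
    ← Complex.normSq_eq_norm_sq]
  simp only [Complex.normSq_apply, Complex.sub_re, Complex.sub_im, Complex.mul_re, Complex.mul_im,
    Complex.conj_re, Complex.conj_im, Complex.one_re, Complex.one_im]
  ring

lemma den_pos {a b : ℂ} (ha : ‖a‖ < 1) (hb : ‖b‖ < 1) : 1 - ‖a‖ * ‖b‖ ≤ ‖1 - conj a * b‖ ∧
    0 < 1 - ‖a‖ * ‖b‖ := by
  constructor
  · have h1 : ‖(1 : ℂ)‖ - ‖conj a * b‖ ≤ ‖1 - conj a * b‖ := norm_sub_norm_le _ _
    rw [norm_one, norm_mul, RCLike.norm_conj] at h1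
    exact h1
  · nlinarith [norm_nonneg a, norm_nonneg b]

lemma alg {A B s : ℝ} (hA : 0 ≤ A) (hA1 : A < 1) (hB : 0 ≤ B) (hB1 : B < 1) (hs : 0 ≤ s)
    (hs1 : s < 1) (h : (B - A) ^ 2 ≤ (s * (1 - A * B)) ^ 2) :
    (1 - s) * (1 - A) / 2 ≤ 1 - B ∧ (1 - s) * (1 - B) / 2 ≤ 1 - A := by
  have hp : 0 < 1 - A * B := by nlinarith
  have h1 := abs_le_of_sq_le_sq' h (mul_nonneg hs hp.le)
  have e1 : (1 - s) * (1 - A) ≤ (1 - B) * (1 + s * A) := by nlinarith [h1.2]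
  have e2 : (1 - s) * (1 - B) ≤ (1 - A) * (1 + s * B) := by nlinarith [h1.1]
  have f1 : s * A ≤ 1 := by nlinarith
  have f2 : s * B ≤ 1 := by nlinarith
  constructor
  · nlinarith
  · nlinarith

end PIKM

open PIKM in
theorem specPIK : SpecPIK := by
  intro G c r hG hb z hz s hs hd
  have hr : 0 < r := dist_nonneg.trans_lt (mem_ball.mp hz)
  have hs0 : 0 ≤ s := by
    by_contra hn
    push Not at hn
    have : s * r < 0 := mul_neg_of_neg_of_pos hn hr
    linarith [dist_nonneg (x := z) (y := c)]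
  have hc : c ∈ ball c r := mem_ball_self hr
  obtain ⟨a, haG⟩ : ∃ a, a = G c := ⟨_, rfl⟩
  obtain ⟨b, hbG⟩ : ∃ b, b = G z := ⟨_, rfl⟩
  have ha : ‖a‖ < 1 := by rw [haG]; exact hb c hc
  have hb1 : ‖b‖ < 1 := by rw [hbG]; exact hb z hz
  have hden : ∀ w ∈ ball c r, 1 - conj a * G w ≠ 0 := by
    intro w hw h0
    have h1 := den_pos ha (hb w hw)
    rw [h0, norm_zero] at h1
    linarith [h1.1, h1.2]
  let φ : ℂ → ℂ := fun w => (G w - a) / (1 - conj a * G w)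
  have hφd : DifferentiableOn ℂ φ (ball c r) := by
    have hGd : DifferentiableOn ℂ G (ball c r) := hG.differentiableOn
    exact (hGd.sub (differentiableOn_const _)).div
      ((differentiableOn_const _).sub ((differentiableOn_const _).mul hGd)) hden
  have hφc : φ c = 0 := by
    show (G c - a) / (1 - conj a * G c) = 0
    rw [← haG, sub_self, zero_div]
  have hφm : MapsTo φ (ball c r) (ball (φ c) 1) := by
    intro w hw
    rw [hφc, mem_ball_zero_iff]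
    show ‖(G w - a) / (1 - conj a * G w)‖ < 1
    have h1 := den_pos ha (hb w hw)
    have h2 : 0 < ‖1 - conj a * G w‖ := h1.2.trans_le h1.1
    rw [norm_div, div_lt_one h2]
    have h3 := ident a (G w)
    have h4 : 0 < (1 - ‖a‖ ^ 2) * (1 - ‖G w‖ ^ 2) := by
      have := hb w hw
      apply mul_pos <;> nlinarith [norm_nonneg a, norm_nonneg (G w)]
    exact lt_of_pow_lt_pow_left₀ 2 h2.le (by linarith)
  have key := Complex.dist_le_div_mul_dist_of_mapsTo_ball hφd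
    (hφm.mono_right ball_subset_closedBall) hz
  rw [hφc, dist_zero_right] at key
  have hφz : ‖φ z‖ ≤ s := by
    refine key.trans ?_
    rw [div_mul_eq_mul_div, one_mul, div_le_iff₀ hr]
    exact hd
  have h1 := den_pos ha hb1
  have h2 : 0 < ‖1 - conj a * b‖ := h1.2.trans_le h1.1
  have h3 : ‖b - a‖ ≤ s * ‖1 - conj a * b‖ := by
    have : φ z = (b - a) / (1 - conj a * b) := by rw [hbG]
    rw [this, norm_div, div_le_iff₀ h2] at hφz
    exact hφz
  have h4 := ident a b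
  have h5 : (‖b‖ - ‖a‖) ^ 2 ≤ (s * (1 - ‖a‖ * ‖b‖)) ^ 2 := by
    have e1 : ‖b - a‖ ^ 2 ≤ s ^ 2 * ‖1 - conj a * b‖ ^ 2 := by
      rw [← mul_pow]; exact pow_le_pow_left₀ (norm_nonneg _) h3 2
    have e2 : (1 - ‖a‖ * ‖b‖) ^ 2 ≤ ‖1 - conj a * b‖ ^ 2 :=
      pow_le_pow_left₀ h1.2.le h1.1 2
    have e3 : s ^ 2 ≤ 1 := by nlinarith
    have e4 : (1 - s ^ 2) * (1 - ‖a‖ * ‖b‖) ^ 2 ≤ (1 - s ^ 2) * ‖1 - conj a * b‖ ^ 2 :=
      mul_le_mul_of_nonneg_left e2 (by linarith)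
    nlinarith
  have := alg (norm_nonneg a) ha (norm_nonneg b) hb1 hs0 hs h5
  rw [← haG, ← hbG]
  exact this

end Pool.Agent.Lib.MP250511.SB
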