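import Pool.Agent.Lib.MP_250511_an.SB.Spec

/-!
# MP_250511_an : module PKA (pockets are local)
-/

set_option autoImplicit false

namespace Pool.Agent.Lib.MP250511.SB

open Complex Metric Set Filter Topology
open scoped Real ComplexConjugate

namespace PKAM

lemma re_conj_le (a b : ℂ) : (conj a * b).re ≤ ‖a‖ * ‖b‖ := by
  have h := Complex.re_le_norm (conj a * b)
  rwa [norm_mul, Complex.norm_conj] at h

lemma neg_le_re_conj (a b : ℂ) : -(‖a‖ * ‖b‖) ≤ (conj a * b).re := by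
  have h := re_conj_le a (-b)
  rw [norm_neg, mul_neg, Complex.neg_re] at h
  linarith

lemma norm_add_sq' (a b : ℂ) : ‖a + b‖ ^ 2 = ‖a‖ ^ 2 + 2 * (conj a * b).re + ‖b‖ ^ 2 := by
  rw [← Complex.normSq_eq_norm_sq, ← Complex.normSq_eq_norm_sq, ← Complex.normSq_eq_norm_sq,
    Complex.normSq_apply, Complex.normSq_apply, Complex.normSq_apply]
  simp only [Complex.add_re, Complex.add_im, Complex.mul_re, Complex.conj_re, Complex.conj_im]
  ring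

end PKAM

open PKAM in
theorem specPKA : SpecPKA := by
  intro ρ κ M hρ hκ hM
  obtain ⟨A, hA⟩ : ∃ A : ℝ, A = 4 / κ := ⟨_, rfl⟩
  have hA0 : 0 < A := by rw [hA]; positivity
  have hAκ : A * κ = 4 := by rw [hA]; field_simp
  obtain ⟨K, hK⟩ : ∃ K : ℝ, K = 1 + A * (M + 1) := ⟨_, rfl⟩
  have hK1 : 1 ≤ K := by
    have := mul_pos hA0 (by linarith : 0 < M + 1)
    rw [hK]; linarith
  have hK0 : 0 < K := by linarith
  refine ⟨K, hK1, min 1 (min (κ / 2) (ρ / K ^ 2)), by positivity, ?_⟩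
  intro Ω c ζ ℓ hst hball hdist hζ hnt hℓ hℓ0 w hw hwΩ
  obtain ⟨s, hs0, hs1, z, hz, rfl⟩ := hw
  have hl1 : ℓ ≤ 1 := hℓ0.trans (min_le_left _ _)
  have hl2 : ℓ ≤ κ / 2 := hℓ0.trans ((min_le_right _ _).trans (min_le_left _ _))
  have hl3 : ℓ ≤ ρ / K ^ 2 := hℓ0.trans ((min_le_right _ _).trans (min_le_right _ _))
  have hl3' : ℓ * K ^ 2 ≤ ρ := (le_div_iff₀ (by positivity)).1 hl3
  have hξ : ‖z - ζ‖ < ℓ := by
    rw [mem_ball, dist_eq_norm] at hz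
    exact hz
  have ha : ‖ζ - c‖ = ρ := by rw [← dist_eq_norm]; exact hdist
  have hzn : ‖z‖ ≤ M + 1 := by
    have h1 : ‖z‖ ≤ ‖z - ζ‖ + ‖ζ‖ := by
      have := norm_add_le (z - ζ) ζ
      rwa [sub_add_cancel] at this
    linarith
  have hnt' : κ * ρ ≤ (conj (ζ - c) * ζ).re := (le_div_iff₀ hρ).1 hnt
  -- the point `(1 - A ℓ) z` is in the ball
  have hin : ((1 - A * ℓ : ℝ) : ℂ) * z ∈ Ω := by
    apply hball
    rw [mem_ball, dist_eq_norm]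
    have e1 : ((1 - A * ℓ : ℝ) : ℂ) * z - c = (ζ - c) + ((z - ζ) - ((A * ℓ : ℝ) : ℂ) * z) := by
      push_cast
      ring
    rw [e1]
    have e2 := norm_add_sq' (ζ - c) ((z - ζ) - ((A * ℓ : ℝ) : ℂ) * z)
    have hAl : 0 < A * ℓ := mul_pos hA0 hℓ
    have hb : ‖(z - ζ) - ((A * ℓ : ℝ) : ℂ) * z‖ ≤ K * ℓ := by
      have h1 := norm_sub_le (z - ζ) (((A * ℓ : ℝ) : ℂ) * z)
      rw [norm_mul, Complex.norm_real, Real.norm_of_nonneg hAl.le] at h1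
      have h2 : A * ℓ * ‖z‖ ≤ A * ℓ * (M + 1) := mul_le_mul_of_nonneg_left hzn hAl.le
      have h3 : K * ℓ = ℓ + A * ℓ * (M + 1) := by rw [hK]; ring
      linarith
    have hb2 : ‖(z - ζ) - ((A * ℓ : ℝ) : ℂ) * z‖ ^ 2 ≤ (K * ℓ) ^ 2 :=
      pow_le_pow_left₀ (norm_nonneg _) hb 2
    have e3 : (conj (ζ - c) * ((z - ζ) - ((A * ℓ : ℝ) : ℂ) * z)).re =
        (conj (ζ - c) * (z - ζ)).re - A * ℓ * ((conj (ζ - c) * ζ).re +
          (conj (ζ - c) * (z - ζ)).re) := by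
      have : conj (ζ - c) * ((z - ζ) - ((A * ℓ : ℝ) : ℂ) * z) =
          conj (ζ - c) * (z - ζ) - ((A * ℓ : ℝ) : ℂ) * (conj (ζ - c) * ζ +
            conj (ζ - c) * (z - ζ)) := by ring
      rw [this, Complex.sub_re, Complex.re_ofReal_mul, Complex.add_re]
    have h4 : (conj (ζ - c) * (z - ζ)).re ≤ ρ * ℓ := by
      have h := re_conj_le (ζ - c) (z - ζ)
      rw [ha] at h
      have h' : ρ * ‖z - ζ‖ ≤ ρ * ℓ := mul_le_mul_of_nonneg_left hξ.le hρ.le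
      linarith
    have h5 : -(ρ * ℓ) ≤ (conj (ζ - c) * (z - ζ)).re := by
      have h := neg_le_re_conj (ζ - c) (z - ζ)
      rw [ha] at h
      have h' : ρ * ‖z - ζ‖ ≤ ρ * ℓ := mul_le_mul_of_nonneg_left hξ.le hρ.le
      linarith
    have h6 : ρ * κ / 2 ≤ (conj (ζ - c) * ζ).re + (conj (ζ - c) * (z - ζ)).re := by
      have h' : ρ * ℓ ≤ ρ * (κ / 2) := mul_le_mul_of_nonneg_left hl2 hρ.le
      nlinarith
    have h7 : A * ℓ * (ρ * κ / 2) ≤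
        A * ℓ * ((conj (ζ - c) * ζ).re + (conj (ζ - c) * (z - ζ)).re) :=
      mul_le_mul_of_nonneg_left h6 hAl.le
    have h8 : A * ℓ * (ρ * κ / 2) = 2 * (ρ * ℓ) := by
      calc A * ℓ * (ρ * κ / 2) = (A * κ) * (ρ * ℓ) / 2 := by ring
        _ = 2 * (ρ * ℓ) := by rw [hAκ]; ring
    have h9 : (K * ℓ) ^ 2 ≤ ρ * ℓ := by
      calc (K * ℓ) ^ 2 = (ℓ * K ^ 2) * ℓ := by ring
        _ ≤ ρ * ℓ := mul_le_mul_of_nonneg_right hl3' hℓ.le
    have h10 : 0 < ρ * ℓ := mul_pos hρ hℓ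
    have h11 : ‖(ζ - c) + ((z - ζ) - ((A * ℓ : ℝ) : ℂ) * z)‖ ^ 2 < ρ ^ 2 := by
      rw [e2, ha, e3]
      linarith
    exact lt_of_pow_lt_pow_left₀ 2 hρ.le h11
  have hs2 : 1 - A * ℓ < s := by
    by_contra hcon
    push Not at hcon
    apply hwΩ
    have h1 : 0 < 1 - A * ℓ := lt_of_lt_of_le hs0 hcon
    have h2 := star_mul hst hin (s := s / (1 - A * ℓ)) (by positivity) ((div_le_one h1).2 hcon)
    have h3 : ((s / (1 - A * ℓ) : ℝ) : ℂ) * (((1 - A * ℓ : ℝ) : ℂ) * z) = (s : ℂ) * z := by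
      rw [← mul_assoc, ← Complex.ofReal_mul, div_mul_cancel₀ _ h1.ne']
    rwa [h3] at h2
  have e4 : (s : ℂ) * z - ζ = (z - ζ) - ((1 - s : ℝ) : ℂ) * z := by
    push_cast
    ring
  rw [e4]
  have h1 := norm_sub_le (z - ζ) (((1 - s : ℝ) : ℂ) * z)
  rw [norm_mul, Complex.norm_real, Real.norm_of_nonneg (by linarith : (0 : ℝ) ≤ 1 - s)] at h1
  have h2 : (1 - s) * ‖z‖ ≤ A * ℓ * (M + 1) :=
    mul_le_mul (by linarith) hzn (norm_nonneg _) (mul_pos hA0 hℓ).le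
  have h3 : K * ℓ = ℓ + A * ℓ * (M + 1) := by rw [hK]; ring
  linarith

end Pool.Agent.Lib.MP250511.SB
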