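import Pool.Agent.Lib.MP_250511_an.SB.Spec

/-!
# PKB: the inradius of the domain with `N` pockets
-/

set_option autoImplicit false

namespace Pool.Agent.Lib.MP250511.SB

open Complex Metric Set MeasureTheory Filter Topology
open scoped Real ENNReal ComplexConjugate ContDiff

noncomputable section

namespace PKBM

/-- a positive lower bound of finitely many positive numbers -/
lemma exists_lb {α : Type} (s : Finset α) (f : α → ℝ) (h : ∀ x ∈ s, 0 < f x) :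
    ∃ σ > 0, ∀ x ∈ s, σ ≤ f x := by
  classical
  induction s using Finset.induction_on with
  | empty => exact ⟨1, one_pos, by simp⟩
  | insert a s _ ih =>
    obtain ⟨σ, h1, h2⟩ := ih fun x hx => h x (Finset.mem_insert_of_mem hx)
    refine ⟨min σ (f a), lt_min h1 (h a (Finset.mem_insert_self a s)), ?_⟩
    intro x hx
    rcases Finset.mem_insert.1 hx with rfl | hx
    · exact min_le_right _ _
    · exact (min_le_left _ _).trans (h2 x hx)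

lemma exists_sep (ζ : ℕ → ℂ) (hζ : Function.Injective ζ) (N : ℕ) :
    ∃ σ > 0, ∀ i < N, ∀ j < N, i ≠ j → σ ≤ ‖ζ i - ζ j‖ := by
  classical
  obtain ⟨σ, h1, h2⟩ := exists_lb
    ((Finset.range N ×ˢ Finset.range N).filter fun p => p.1 ≠ p.2) (fun p => ‖ζ p.1 - ζ p.2‖) (by
      intro p hp
      rw [Finset.mem_filter] at hp
      exact norm_pos_iff.2 (sub_ne_zero.2 fun h => hp.2 (hζ h)))
  refine ⟨σ, h1, fun i hi j hj hij => ?_⟩
  exact h2 (i, j) (Finset.mem_filter.2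
    ⟨Finset.mem_product.2 ⟨Finset.mem_range.2 hi, Finset.mem_range.2 hj⟩, hij⟩)

/-- the parallelogram step: `‖z + w‖, ‖z - w‖ ≥ r` -/
lemma parallelogram {z w : ℂ} {r ρ t : ℝ} (hρ : 0 < ρ) (hr : ρ < r) (h1 : r ≤ ‖z + w‖)
    (h2 : r ≤ ‖z - w‖) (hw : ‖w‖ ^ 2 = t) (ht : t ≤ ρ ^ 2) : r - t / ρ ≤ ‖z‖ := by
  have ht0 : 0 ≤ t := by rw [← hw]; positivity
  have h3 : ‖z + w‖ ^ 2 + ‖z - w‖ ^ 2 = 2 * (‖z‖ ^ 2 + ‖w‖ ^ 2) := by
    have := parallelogram_law_with_norm ℝ z w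
    nlinarith [this]
  have hr0 : 0 < r := hρ.trans hr
  have h4 : r ^ 2 ≤ ‖z + w‖ ^ 2 := by gcongr
  have h5 : r ^ 2 ≤ ‖z - w‖ ^ 2 := by gcongr
  have h6 : r ^ 2 - t ≤ ‖z‖ ^ 2 := by rw [hw] at h3; linarith
  have h7 : (r - t / ρ) ^ 2 ≤ r ^ 2 - t := by
    have h8 : (r - t / ρ) ^ 2 = r ^ 2 - 2 * (r / ρ) * t + (t / ρ ^ 2) * t := by
      field_simp
      ring
    have h9 : 1 ≤ r / ρ := by rw [le_div_iff₀ hρ]; linarith
    have h10 : t / ρ ^ 2 ≤ 1 := by rw [div_le_one (by positivity)]; exact ht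
    rw [h8]
    nlinarith [mul_le_mul_of_nonneg_right h9 ht0, mul_le_mul_of_nonneg_right h10 ht0]
  by_contra hlt
  push Not at hlt
  have h11 : 0 ≤ ‖z‖ := norm_nonneg z
  have h12 : ‖z‖ ^ 2 < (r - t / ρ) ^ 2 := by
    apply pow_lt_pow_left₀ hlt h11
    norm_num
  linarith

/-- the main step: a point of a pocket is far from the boundary of every big ball -/
lemma step {Ω : Set ℂ} {ρ κ L δ M C₁ ℓ r' : ℝ} {c ζ c' p : ℂ} (hρ : 0 < ρ) (hL : 0 < L)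
    (hC : 1 ≤ C₁) (hℓ : 0 < ℓ) (hW : Wall Ω ρ κ L δ M c ζ) (hp : p ∉ Ω)
    (hpζ : ‖p - ζ‖ ≤ C₁ * ℓ) (hr : ρ < r')
    (hd1 : C₁ * ℓ + (C₁ ^ 2 / (2 * ρ) + 16 * L * C₁ ^ 2) * ℓ ^ 2 ≤ δ) (hd2 : 4 * C₁ * ℓ ≤ δ)
    (hd3 : 9 * C₁ ^ 2 * ℓ ^ 2 ≤ ρ ^ 2)
    (hs : ∀ s : ℂ, s ∉ Ω → 2 * C₁ * ℓ ≤ ‖s - ζ‖ →
      ‖s - ζ‖ ≤ 5 * C₁ * ℓ + (C₁ ^ 2 / (2 * ρ) + 16 * L * C₁ ^ 2) * ℓ ^ 2 → r' ≤ ‖s - c'‖) :
    r' - (C₁ ^ 2 / (2 * ρ) + 16 * L * C₁ ^ 2 + 9 * C₁ ^ 2 / ρ) * ℓ ^ 2 ≤ ‖p - c'‖ := by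
  set C₂ : ℝ := C₁ ^ 2 / (2 * ρ) + 16 * L * C₁ ^ 2 with hC₂
  have hρ' : (ρ : ℂ) ≠ 0 := by exact_mod_cast hρ.ne'
  set n : ℂ := (ζ - c) / (ρ : ℂ) with hn
  have hn1 : ‖n‖ = 1 := by
    rw [hn, norm_div, ← dist_eq_norm, hW.dist_eq, Complex.norm_real, Real.norm_eq_abs,
      abs_of_pos hρ, div_self hρ.ne']
  have hnn : n * conj n = 1 := by
    rw [Complex.mul_conj, Complex.normSq_eq_norm_sq, hn1]
    simp
  have hζc : ζ - c = (ρ : ℂ) * n := by rw [hn]; field_simp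
  set q : ℂ := (p - ζ) * conj n with hq
  have hpq : p = ζ + q * n := by
    have : q * n = p - ζ := by
      rw [hq, mul_assoc, mul_comm (conj n) n, hnn, mul_one]
    rw [this]; ring
  have hqn : ‖q‖ = ‖p - ζ‖ := by
    rw [hq, norm_mul, Complex.norm_conj, hn1, mul_one]
  have hq1 : ‖q‖ ≤ C₁ * ℓ := hqn ▸ hpζ
  have hqsq : ‖q‖ ^ 2 = q.re ^ 2 + q.im ^ 2 := by
    rw [← Complex.normSq_eq_norm_sq, Complex.normSq_apply]; ring
  have hqsq2 : ‖q‖ ^ 2 ≤ (C₁ * ℓ) ^ 2 := by gcongr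
  have hre : |q.re| ≤ C₁ * ℓ := (Complex.abs_re_le_norm q).trans hq1
  have him : |q.im| ≤ C₁ * ℓ := (Complex.abs_im_le_norm q).trans hq1
  have hC0 : 0 < C₁ * ℓ := by positivity
  -- the lower bound for the real part
  have hα : - ((C₁ * ℓ) ^ 2 / (2 * ρ)) ≤ q.re := by
    have h1 : ρ ≤ ‖p - c‖ := by
      by_contra hlt
      push Not at hlt
      exact hp (hW.sub (by rw [mem_ball, dist_eq_norm]; exact hlt))
    have h2 : p - c = ((ρ : ℂ) + q) * n := by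
      rw [hpq, add_mul, ← hζc]; ring
    have h3 : ‖p - c‖ = ‖(ρ : ℂ) + q‖ := by rw [h2, norm_mul, hn1, mul_one]
    have h4 : ‖(ρ : ℂ) + q‖ ^ 2 = (ρ + q.re) ^ 2 + q.im ^ 2 := by
      rw [← Complex.normSq_eq_norm_sq, Complex.normSq_apply]
      simp
      ring
    have h5 : ρ ^ 2 ≤ ‖(ρ : ℂ) + q‖ ^ 2 := by
      rw [← h3]; gcongr
    rw [h4] at h5
    have h6 : -((C₁ * ℓ) ^ 2) ≤ 2 * ρ * q.re := by nlinarith [hqsq, hqsq2]
    have h7 : -((C₁ * ℓ) ^ 2 / (2 * ρ)) = -((C₁ * ℓ) ^ 2) / (2 * ρ) := by ring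
    rw [h7, div_le_iff₀ (by positivity)]
    linarith
  set a : ℝ := q.re + C₂ * ℓ ^ 2 with ha
  have haL : L * (4 * C₁ * ℓ) ^ 2 ≤ a := by
    have : a = q.re + (C₁ * ℓ) ^ 2 / (2 * ρ) + L * (4 * C₁ * ℓ) ^ 2 := by
      rw [ha, hC₂]; field_simp; ring
    rw [this]; linarith
  have hC2 : 0 ≤ C₂ * ℓ ^ 2 := by rw [hC₂]; positivity
  have ha0 : 0 ≤ a := le_trans (by positivity) haL
  have ha1 : |a| ≤ C₁ * ℓ + C₂ * ℓ ^ 2 := by
    rw [abs_of_nonneg ha0, ha]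
    have := le_abs_self q.re
    linarith
  -- the two points
  have key : ∀ b : ℝ, |b| ≤ 4 * C₁ * ℓ → 2 * C₁ * ℓ ≤ |b| →
      r' ≤ ‖ζ + ((a : ℂ) + (b : ℂ) * I) * n - c'‖ := by
    intro b hb1 hb2
    have h1 : ζ + ((a : ℂ) + (b : ℂ) * I) * n ∉ Ω := by
      refine hW.wall a b (ha1.trans hd1) (hb1.trans hd2) (le_trans ?_ haL)
      have : b ^ 2 ≤ (4 * C₁ * ℓ) ^ 2 := by
        rw [← sq_abs b]; gcongr
      exact mul_le_mul_of_nonneg_left this hL.le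
    have h2 : ‖ζ + ((a : ℂ) + (b : ℂ) * I) * n - ζ‖ = ‖(a : ℂ) + (b : ℂ) * I‖ := by
      rw [add_sub_cancel_left, norm_mul, hn1, mul_one]
    refine hs _ h1 ?_ ?_
    · rw [h2]
      have h3 := Complex.abs_im_le_norm ((a : ℂ) + (b : ℂ) * I)
      simp at h3
      linarith
    · rw [h2]
      refine (norm_add_le _ _).trans ?_
      rw [norm_mul, Complex.norm_I, mul_one, Complex.norm_real, Complex.norm_real,
        Real.norm_eq_abs, Real.norm_eq_abs]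
      linarith
  have him' := abs_le.1 him
  have hp1 := key (q.im + 3 * C₁ * ℓ) (by rw [abs_le]; constructor <;> linarith) (by
    rw [abs_of_nonneg (by linarith)]; linarith)
  have hp2 := key (q.im - 3 * C₁ * ℓ) (by rw [abs_le]; constructor <;> linarith) (by
    rw [abs_of_nonpos (by linarith)]; linarith)
  set z : ℂ := ζ + ((a : ℂ) + (q.im : ℂ) * I) * n - c' with hz
  set w : ℂ := ((3 * C₁ * ℓ : ℝ) : ℂ) * I * n with hw
  have e1 : ζ + ((a : ℂ) + ((q.im + 3 * C₁ * ℓ : ℝ) : ℂ) * I) * n - c' = z + w := by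
    rw [hz, hw]; push_cast; ring
  have e2 : ζ + ((a : ℂ) + ((q.im - 3 * C₁ * ℓ : ℝ) : ℂ) * I) * n - c' = z - w := by
    rw [hz, hw]; push_cast; ring
  rw [e1] at hp1
  rw [e2] at hp2
  have hwn : ‖w‖ ^ 2 = 9 * C₁ ^ 2 * ℓ ^ 2 := by
    rw [hw, norm_mul, norm_mul, Complex.norm_I, hn1, mul_one, mul_one, Complex.norm_real,
      Real.norm_eq_abs, sq_abs]
    ring
  have h8 := parallelogram hρ hr hp1 hp2 hwn hd3
  have e3 : p - c' = z - ((C₂ * ℓ ^ 2 : ℝ) : ℂ) * n := by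
    have hqq : q = (q.re : ℂ) + (q.im : ℂ) * I := (Complex.re_add_im q).symm
    have : p = ζ + ((q.re : ℂ) + (q.im : ℂ) * I) * n := by rw [← hqq]; exact hpq
    rw [this, hz, ha]; push_cast; ring
  have h9 : ‖z‖ - C₂ * ℓ ^ 2 ≤ ‖p - c'‖ := by
    rw [e3]
    have h10 := norm_sub_norm_le z (((C₂ * ℓ ^ 2 : ℝ) : ℂ) * n)
    rw [norm_mul, hn1, mul_one, Complex.norm_real, Real.norm_eq_abs, abs_of_nonneg hC2] at h10
    exact h10
  have e4 : (C₂ + 9 * C₁ ^ 2 / ρ) * ℓ ^ 2 = C₂ * ℓ ^ 2 + 9 * C₁ ^ 2 * ℓ ^ 2 / ρ := by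
    ring
  rw [e4]
  linarith

end PKBM

open PKBM in
theorem specPKB (hPKA : SpecPKA) : SpecPKB := by
  intro Ω ρ κ L δ M hρ hκ hL hδ hM hstar hinr c ζ hinj hW
  obtain ⟨C₁, hC₁, ℓ₀, hℓ₀, hA⟩ := hPKA ρ κ M hρ hκ hM
  set C₂ : ℝ := C₁ ^ 2 / (2 * ρ) + 16 * L * C₁ ^ 2 with hC₂
  have hC₁0 : 0 < C₁ := by linarith
  have hC₂0 : 0 < C₂ := by rw [hC₂]; positivity
  refine ⟨C₂ + 9 * C₁ ^ 2 / ρ, by positivity, fun N => ?_⟩
  obtain ⟨σ, hσ, hsep⟩ := exists_sep ζ hinj N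
  refine ⟨min (min ℓ₀ 1) (min (δ / (4 * C₁ + C₂)) (min (σ / (2 * (6 * C₁ + C₂))) (ρ / (3 * C₁)))),
    by positivity, ?_⟩
  intro ℓ hℓ hℓ1
  have h1 : ℓ ≤ ℓ₀ := hℓ1.trans ((min_le_left _ _).trans (min_le_left _ _))
  have h2 : ℓ ≤ 1 := hℓ1.trans ((min_le_left _ _).trans (min_le_right _ _))
  have h3 : ℓ ≤ δ / (4 * C₁ + C₂) := hℓ1.trans ((min_le_right _ _).trans (min_le_left _ _))
  have h4 : ℓ ≤ σ / (2 * (6 * C₁ + C₂)) :=
    hℓ1.trans ((min_le_right _ _).trans ((min_le_right _ _).trans (min_le_left _ _)))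
  have h5 : ℓ ≤ ρ / (3 * C₁) :=
    hℓ1.trans ((min_le_right _ _).trans ((min_le_right _ _).trans (min_le_right _ _)))
  have hsq : ℓ ^ 2 ≤ ℓ := by nlinarith
  have hCsq : C₂ * ℓ ^ 2 ≤ C₂ * ℓ := mul_le_mul_of_nonneg_left hsq hC₂0.le
  have h3' : ℓ * (4 * C₁ + C₂) ≤ δ := (le_div_iff₀ (by positivity)).1 h3
  have h4' : ℓ * (2 * (6 * C₁ + C₂)) ≤ σ := (le_div_iff₀ (by positivity)).1 h4
  have h5' : ℓ * (3 * C₁) ≤ ρ := (le_div_iff₀ (by positivity)).1 h5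
  have hC1ℓ : 0 < C₁ * ℓ := by positivity
  have hC2ℓ : 0 < C₂ * ℓ := by positivity
  have hd1 : C₁ * ℓ + C₂ * ℓ ^ 2 ≤ δ := by nlinarith
  have hd2 : 4 * C₁ * ℓ ≤ δ := by nlinarith
  have hd3 : 9 * C₁ ^ 2 * ℓ ^ 2 ≤ ρ ^ 2 := by
    have : (ℓ * (3 * C₁)) ^ 2 ≤ ρ ^ 2 := by gcongr
    nlinarith [this]
  have hsig : 6 * C₁ * ℓ + C₂ * ℓ ^ 2 < σ := by nlinarith
  -- pockets are local
  have hloc : ∀ j, ∀ w ∈ Poc (ζ j) ℓ, w ∉ Ω → ‖w - ζ j‖ ≤ C₁ * ℓ := fun j =>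
    hA Ω (c j) (ζ j) ℓ hstar (hW j).sub (hW j).dist_eq (hW j).norm_le (hW j).nt hℓ h1
  constructor
  · intro c' r' hball
    by_contra hlt
    push Not at hlt
    have hC : 0 ≤ (C₂ + 9 * C₁ ^ 2 / ρ) * ℓ ^ 2 := by positivity
    have hr : ρ < r' := by linarith
    have hsub : ball c' (r' - (C₂ + 9 * C₁ ^ 2 / ρ) * ℓ ^ 2) ⊆ Ω := by
      intro p hp
      by_contra hpΩ
      have hpU : p ∈ UU Ω ζ ℓ N := hball (ball_subset_ball (by linarith) hp)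
      rcases hpU with hpU | hpU
      · exact hpΩ hpU
      · obtain ⟨j, hj, hpj⟩ := hpU
        have hpζ := hloc j p hpj hpΩ
        have hfar : ∀ s : ℂ, s ∉ Ω → 2 * C₁ * ℓ ≤ ‖s - ζ j‖ →
            ‖s - ζ j‖ ≤ 5 * C₁ * ℓ + C₂ * ℓ ^ 2 → r' ≤ ‖s - c'‖ := by
          intro s hsΩ hs1 hs2
          by_contra hlt'
          push Not at hlt'
          have hsU : s ∈ UU Ω ζ ℓ N := hball (by rw [mem_ball, dist_eq_norm]; exact hlt')
          rcases hsU with hsU | hsU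
          · exact hsΩ hsU
          · obtain ⟨i, hi, hsi⟩ := hsU
            have h6 := hloc i s hsi hsΩ
            by_cases hij : i = j
            · rw [hij] at h6
              linarith
            · have h7 := hsep i hi j hj hij
              have h8 : ‖ζ i - ζ j‖ ≤ ‖s - ζ i‖ + ‖s - ζ j‖ := by
                have e : ζ i - ζ j = (s - ζ j) - (s - ζ i) := by ring
                rw [e]
                refine (norm_sub_le _ _).trans (by linarith)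
              linarith
        have h9 := step hρ hL hC₁ hℓ (hW j) hpΩ hpζ hr hd1 hd2 hd3 hfar
        rw [mem_ball, dist_eq_norm] at hp
        linarith
    have := hinr c' _ hsub
    linarith
  · intro k hk hmem
    rcases hmem with hmem | hmem
    · exact (hW k).out hmem
    · obtain ⟨j, hj, hkj⟩ := hmem
      have h6 := hloc j (ζ k) hkj (hW k).out
      have h7 := hsep k hk j (hj.trans hk) (by omega)
      have h8 : 0 ≤ C₂ * ℓ ^ 2 := by positivity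
      linarith

end

end Pool.Agent.Lib.MP250511.SB
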