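import Pool.Agent.Lib.MP_250511_an.SB.Spec

/-!
# MP_250511_an, SB: module PKC
-/

set_option autoImplicit false

namespace Pool.Agent.Lib.MP250511.SB

open Complex Metric Set MeasureTheory Filter Topology
open scoped Real ENNReal ComplexConjugate ContDiff

namespace PKCM

lemma schwarz {h : ℂ → ℂ} (hd : AnalyticOnNhd ℂ h (ball 0 1))
    (hm : ∀ w ∈ ball (0 : ℂ) 1, ‖h w‖ < 1) (h0 : h 0 = 0) {w : ℂ} (hw : w ∈ ball (0 : ℂ) 1) :
    ‖h w‖ ≤ ‖w‖ := by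
  have hw' : ‖w‖ < 1 := by rwa [mem_ball_zero_iff] at hw
  exact Complex.norm_le_norm_of_mapsTo_ball hd.differentiableOn
    (fun z hz => by rw [mem_closedBall_zero_iff]; exact (hm z hz).le) h0 hw'

end PKCM

open PKCM in
theorem specPKC (hPIK : SpecPIK) (hKCL : SpecKCL) : SpecPKC := by
  intro f g Ω ρ hE M
  have hρ := hE.pos
  have hK := (hKCL Ω ρ hρ hE.op).2 (M + ρ)
  have hsub : {c : ℂ | ball c ρ ⊆ Ω ∧ ‖c‖ ≤ M + ρ} ⊆ Ω := fun c hc => hc.1 (mem_ball_self hρ)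
  have hb : ∃ b₁ : ℝ, b₁ < 1 ∧ ∀ c ∈ {c : ℂ | ball c ρ ⊆ Ω ∧ ‖c‖ ≤ M + ρ}, ‖g c‖ ≤ b₁ := by
    rcases Set.eq_empty_or_nonempty {c : ℂ | ball c ρ ⊆ Ω ∧ ‖c‖ ≤ M + ρ} with h | h
    · refine ⟨0, zero_lt_one, fun c hc => ?_⟩
      rw [h] at hc
      exact absurd hc (Set.notMem_empty c)
    · obtain ⟨c₀, hc₀, hmax⟩ := hK.exists_isMaxOn h
        ((hE.gan.continuousOn.mono hsub).norm)
      exact ⟨‖g c₀‖, hE.gm c₀ (hsub hc₀), fun c hc => hmax hc⟩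
  obtain ⟨b₁, hb1, hb2⟩ := hb
  refine ⟨(1 - b₁) / (16 * ρ), div_pos (by linarith) (by linarith), ?_⟩
  intro c ζ ℓ U F G hc hd hM hl hlρ hP hU hbU
  have hcΩ : c ∈ Ω := hc (mem_ball_self hρ)
  have hcn : ‖c‖ ≤ M + ρ := by
    have h1 : ‖c‖ ≤ ‖ζ‖ + ‖c - ζ‖ := by
      have := norm_add_le ζ (c - ζ)
      rwa [add_sub_cancel] at this
    rw [dist_comm, dist_eq_norm] at hd
    linarith
  have hGc : ‖G c‖ ≤ b₁ := by
    have hgc : g c ∈ ball (0 : ℂ) 1 := by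
      rw [mem_ball_zero_iff]
      exact hE.gm c hcΩ
    have hfm : ∀ w ∈ ball (0 : ℂ) 1, f w ∈ U := fun w hw => hU (hE.im ▸ ⟨w, hw, rfl⟩)
    have h1 : ‖G (f (g c))‖ ≤ ‖g c‖ := by
      refine schwarz (h := fun w => G (f w)) ?_ ?_ ?_ hgc
      · intro w hw
        exact (hP.gan (f w) (hfm w hw)).comp (hE.an w hw)
      · intro w hw
        exact hP.gm _ (hfm w hw)
      · change G (f 0) = 0
        have h2 := hP.GF 0 (mem_ball_self one_pos)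
        rw [hP.zero] at h2
        rw [hE.zero]
        exact h2
    rw [hE.FG c hcΩ] at h1
    exact h1.trans (hb2 c ⟨hc, hcn⟩)
  -- the intermediate point
  set z' : ℂ := ζ - ((ℓ / (2 * ρ) : ℝ) : ℂ) * (ζ - c) with hz'
  have hnd : ‖ζ - c‖ = ρ := by rw [← dist_eq_norm]; exact hd
  have hr0 : 0 < ℓ / (2 * ρ) := by positivity
  have hr1 : ℓ / (2 * ρ) ≤ 1 / 2 := by
    rw [div_le_div_iff₀ (by linarith) (by norm_num)]
    linarith
  have d1 : dist z' c ≤ (1 - ℓ / (2 * ρ)) * ρ := by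
    have e : z' - c = ((1 - ℓ / (2 * ρ) : ℝ) : ℂ) * (ζ - c) := by
      rw [hz']
      push_cast
      ring
    rw [dist_eq_norm, e, norm_mul, Complex.norm_real, Real.norm_of_nonneg (by linarith), hnd]
  have d2 : dist z' ζ ≤ 1 / 2 * ℓ := by
    have e : z' - ζ = -(((ℓ / (2 * ρ) : ℝ) : ℂ) * (ζ - c)) := by
      rw [hz']
      ring
    rw [dist_eq_norm, e, norm_neg, norm_mul, Complex.norm_real, Real.norm_of_nonneg hr0.le, hnd]
    apply le_of_eq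
    field_simp
  have m1 : z' ∈ ball c ρ := by
    rw [mem_ball]
    refine d1.trans_lt ?_
    have : 0 < ℓ / (2 * ρ) * ρ := mul_pos hr0 hρ
    linarith
  have m2 : z' ∈ ball ζ ℓ := by
    rw [mem_ball]
    linarith
  have p1 := (hPIK G c ρ (hP.gan.mono (hc.trans hU)) (fun z hz => hP.gm z (hU (hc hz))) z' m1
    (1 - ℓ / (2 * ρ)) (by linarith) d1).1
  have p2 := (hPIK G ζ ℓ (hP.gan.mono hbU) (fun z hz => hP.gm z (hbU hz)) z' m2
    (1 / 2) (by norm_num) d2).2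
  have e1 : (1 - (1 - ℓ / (2 * ρ))) * (1 - ‖G c‖) / 2 = ℓ / (2 * ρ) * (1 - ‖G c‖) / 2 := by ring
  rw [e1] at p1
  have p3 : ℓ / (2 * ρ) * (1 - b₁) / 2 ≤ ℓ / (2 * ρ) * (1 - ‖G c‖) / 2 := by
    have := mul_le_mul_of_nonneg_left (by linarith : 1 - b₁ ≤ 1 - ‖G c‖) hr0.le
    linarith
  have e2 : (1 - b₁) / (16 * ρ) * ℓ = (ℓ / (2 * ρ) * (1 - b₁) / 2) / 4 := by
    field_simp
    ring
  rw [e2]
  linarith

end Pool.Agent.Lib.MP250511.SB
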