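import Pool.Agent.Lib.MP_250511_an.SB.Spec

/-!
# MP_250511_an, SB: module PKD
-/

set_option autoImplicit false

namespace Pool.Agent.Lib.MP250511.SB

open Complex Metric Set MeasureTheory Filter Topology
open scoped Real ENNReal ComplexConjugate ContDiff

namespace PKDM

lemma UU_zero (Ω : Set ℂ) (ζ : ℕ → ℂ) (ℓ : ℝ) : UU Ω ζ ℓ 0 = Ω := by
  unfold UU
  ext w
  simp

lemma sub_UU (Ω : Set ℂ) (ζ : ℕ → ℂ) (ℓ : ℝ) (k : ℕ) : Ω ⊆ UU Ω ζ ℓ k :=
  subset_union_left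

lemma UU_mono (Ω : Set ℂ) (ζ : ℕ → ℂ) (ℓ : ℝ) {k m : ℕ} (h : k ≤ m) :
    UU Ω ζ ℓ k ⊆ UU Ω ζ ℓ m := by
  unfold UU
  refine union_subset_union_right _ ?_
  rintro w ⟨j, hj, hw⟩
  exact ⟨j, hj.trans_le h, hw⟩

lemma ball_sub (Ω : Set ℂ) (ζ : ℕ → ℂ) (ℓ : ℝ) {k m : ℕ} (h : k < m) :
    ball (ζ k) ℓ ⊆ UU Ω ζ ℓ m := by
  intro z hz
  exact Or.inr ⟨k, h, 1, one_pos, le_rfl, z, hz, by simp⟩

end PKDM

open PKDM in
theorem specPKD (hPAI : SpecPAI) (hRMT : SpecRMT) (hGAN : SpecGAN) (hSTC : SpecSTC)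
    (hPOC : SpecPOC) : SpecPKD := by
  intro f g Ω ρ hE b ℓ N ζ hb hl hbl hne hζ hgain
  set x : ℝ := (b * ℓ) ^ 2 / 8 with hx
  have hbl0 : 0 < b * ℓ := mul_pos hb hl
  have x0 : 0 < x := by positivity
  have x1 : x < 1 := by
    have : (b * ℓ) ^ 2 ≤ 1 := pow_le_one₀ hbl0.le hbl
    rw [hx]
    linarith
  have h0Ω : (0 : ℂ) ∈ Ω := by
    rw [← hE.im]
    exact ⟨0, mem_ball_self one_pos, hE.zero⟩
  have key : ∀ k : ℕ, k ≤ N → ∃ F : ℂ → ℂ, Conf F (UU Ω ζ ℓ k) ∧ 1 + k * x ≤ ‖deriv F 0‖ := by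
    intro k
    induction k with
    | zero =>
      intro _
      refine ⟨f, ?_, ?_⟩
      · rw [UU_zero]
        exact hE.toConf
      · rw [hE.one, norm_one, Nat.cast_zero, zero_mul, add_zero]
    | succ k ih =>
      intro hk
      obtain ⟨Fk, hFk, hd⟩ := ih (by omega)
      have hkN : k < N := hk
      obtain ⟨hop, hst⟩ := hPOC.2.1 Ω ζ ℓ (k + 1) hE.op hE.star h0Ω
      have h0U : (0 : ℂ) ∈ UU Ω ζ ℓ (k + 1) := sub_UU Ω ζ ℓ (k + 1) h0Ω
      have hsc := hSTC _ hst h0U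
      have hneU : UU Ω ζ ℓ (k + 1) ≠ univ := by
        intro h
        apply hne
        exact Set.eq_univ_of_univ_subset (h ▸ UU_mono Ω ζ ℓ hk)
      obtain ⟨F, hF⟩ := hRMT _ hop hsc hneU h0U
      obtain ⟨G, hP⟩ := hPAI F _ hF
      have hbU : ball (ζ k) ℓ ⊆ UU Ω ζ ℓ (k + 1) := ball_sub Ω ζ ℓ (Nat.lt_succ_self k)
      have hζU : ζ k ∈ UU Ω ζ ℓ (k + 1) := hbU (mem_ball_self hl)
      have hg := hgain k hkN _ F G hP (sub_UU Ω ζ ℓ (k + 1)) hbU
      have hmaps : ∀ w ∈ ball (0 : ℂ) 1, Fk w ∈ UU Ω ζ ℓ (k + 1) := fun w hw =>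
        UU_mono Ω ζ ℓ (Nat.le_succ k) (hFk.im ▸ ⟨w, hw, rfl⟩)
      have han : AnalyticOnNhd ℂ (fun w => G (Fk w)) (ball 0 1) := fun w hw =>
        (hP.gan (Fk w) (hmaps w hw)).comp (hFk.an w hw)
      have hz : G (Fk 0) = 0 := by
        have h2 := hP.GF 0 (mem_ball_self one_pos)
        rw [hP.zero] at h2
        rw [hFk.zero]
        exact h2
      have hom : ∀ w ∈ ball (0 : ℂ) 1, (fun w => G (Fk w)) w ≠ G (ζ k) := by
        intro w hw h
        change G (Fk w) = G (ζ k) at h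
        have h3 := hP.FG (Fk w) (hmaps w hw)
        rw [h, hP.FG (ζ k) hζU] at h3
        apply hζ k hkN
        rw [h3, ← hFk.im]
        exact ⟨w, hw, rfl⟩
      have hgan := hGAN (fun w => G (Fk w)) han (fun w hw => hP.gm _ (hmaps w hw)) hz (G (ζ k))
        (hP.gm _ hζU) hom
      have hd1 : ‖deriv (fun w => G (Fk w)) 0‖ ≤ 1 - x := by
        have h4 : (b * ℓ) ^ 2 ≤ (1 - ‖G (ζ k)‖) ^ 2 := pow_le_pow_left₀ hbl0.le hg 2
        rw [hx]
        linarith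
      have hcomp : deriv Fk 0 = deriv F 0 * deriv (fun w => G (Fk w)) 0 := by
        have e1 : Fk =ᶠ[𝓝 0] fun w => F (G (Fk w)) := by
          filter_upwards [ball_mem_nhds (0 : ℂ) one_pos] with w hw
          exact (hP.FG (Fk w) (hmaps w hw)).symm
        rw [e1.deriv_eq]
        have hFd : DifferentiableAt ℂ F (G (Fk 0)) := by
          rw [hz]
          exact (hP.an 0 (mem_ball_self one_pos)).differentiableAt
        have hGd : DifferentiableAt ℂ (fun w => G (Fk w)) 0 :=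
          (han 0 (mem_ball_self one_pos)).differentiableAt
        have h5 := deriv_comp (h₂ := F) (h := fun w => G (Fk w)) (x := (0 : ℂ)) hFd hGd
        have e2 : (F ∘ fun w => G (Fk w)) = fun w => F (G (Fk w)) := rfl
        rw [e2] at h5
        rw [h5]
        change deriv F (G (Fk 0)) * _ = _
        rw [hz]
      refine ⟨F, hF, ?_⟩
      by_contra hn
      push Not at hn
      push_cast at hn
      have h6 : ‖deriv Fk 0‖ ≤ ‖deriv F 0‖ * (1 - x) := by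
        rw [hcomp, norm_mul]
        exact mul_le_mul_of_nonneg_left hd1 (norm_nonneg _)
      have h7 : ‖deriv F 0‖ * (1 - x) < (1 + ((k : ℝ) + 1) * x) * (1 - x) :=
        mul_lt_mul_of_pos_right hn (by linarith)
      have h8 : (1 + ((k : ℝ) + 1) * x) * (1 - x) = 1 + k * x - ((k : ℝ) + 1) * x ^ 2 := by ring
      have h9 : 0 ≤ ((k : ℝ) + 1) * x ^ 2 := by positivity
      linarith
  exact key N le_rfl

end Pool.Agent.Lib.MP250511.SB
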