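import Pool.Agent.Lib.MP_250511_an.SB.Spec

/-! POC: the pockets are open, and adding them preserves star convexity. -/

set_option autoImplicit false

namespace Pool.Agent.Lib.MP250511.SB

open Complex Metric Set MeasureTheory Filter Topology

namespace POCM

lemma open_poc (ζ : ℂ) (ℓ : ℝ) : IsOpen (Poc ζ ℓ) := by
  have h : Poc ζ ℓ = ⋃ s ∈ Ioc (0 : ℝ) 1, (fun w : ℂ => w / (s : ℂ)) ⁻¹' ball ζ ℓ := by
    ext w
    simp only [Poc, mem_setOf_eq, mem_iUnion, mem_preimage, exists_prop, mem_Ioc]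
    constructor
    · rintro ⟨s, hs0, hs1, z, hz, rfl⟩
      refine ⟨s, ⟨hs0, hs1⟩, ?_⟩
      have hs : (s : ℂ) ≠ 0 := by exact_mod_cast hs0.ne'
      rw [mul_div_cancel_left₀ z hs]
      exact hz
    · rintro ⟨s, ⟨hs0, hs1⟩, hz⟩
      have hs : (s : ℂ) ≠ 0 := by exact_mod_cast hs0.ne'
      exact ⟨s, hs0, hs1, w / (s : ℂ), hz, (mul_div_cancel₀ w hs).symm⟩
  rw [h]
  exact isOpen_biUnion (fun s _ => isOpen_ball.preimage (continuous_id.div_const (s : ℂ)))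

lemma scale {ζ : ℂ} {ℓ : ℝ} {w : ℂ} (hw : w ∈ Poc ζ ℓ) {a : ℝ} (h0 : 0 < a) (h1 : a ≤ 1) :
    a • w ∈ Poc ζ ℓ := by
  obtain ⟨s, hs0, hs1, z, hz, rfl⟩ := hw
  refine ⟨a * s, mul_pos h0 hs0, mul_le_one₀ h1 hs0.le hs1, z, hz, ?_⟩
  rw [Complex.real_smul]
  push_cast
  ring

lemma star_UU {Ω : Set ℂ} {ζ : ℕ → ℂ} {ℓ : ℝ} {k : ℕ} (hs : StarConvex ℝ (0 : ℂ) Ω)
    (h0 : (0 : ℂ) ∈ Ω) : StarConvex ℝ (0 : ℂ) (UU Ω ζ ℓ k) := by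
  rw [starConvex_zero_iff]
  intro x hx a ha0 ha1
  rcases ha0.eq_or_lt with rfl | ha
  · rw [zero_smul]
    exact Or.inl h0
  · rcases hx with hx | ⟨j, hj, hx⟩
    · exact Or.inl ((starConvex_zero_iff.1 hs) hx ha0 ha1)
    · exact Or.inr ⟨j, hj, scale hx ha ha1⟩

lemma star_one {Ω : Set ℂ} {ζ : ℂ} {ℓ : ℝ} (hs : StarConvex ℝ (0 : ℂ) Ω)
    (h0 : (0 : ℂ) ∈ Ω) : StarConvex ℝ (0 : ℂ) (Ω ∪ Poc ζ ℓ) := by
  rw [starConvex_zero_iff]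
  intro x hx a ha0 ha1
  rcases ha0.eq_or_lt with rfl | ha
  · rw [zero_smul]
    exact Or.inl h0
  · rcases hx with hx | hx
    · exact Or.inl ((starConvex_zero_iff.1 hs) hx ha0 ha1)
    · exact Or.inr (scale hx ha ha1)

lemma open_UU {Ω : Set ℂ} {ζ : ℕ → ℂ} {ℓ : ℝ} {k : ℕ} (ho : IsOpen Ω) :
    IsOpen (UU Ω ζ ℓ k) := by
  unfold UU
  refine ho.union ?_
  have h : {w : ℂ | ∃ j < k, w ∈ Poc (ζ j) ℓ} = ⋃ j ∈ {j : ℕ | j < k}, Poc (ζ j) ℓ := by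
    ext w
    simp only [mem_setOf_eq, mem_iUnion, exists_prop]
  rw [h]
  exact isOpen_biUnion (fun j _ => open_poc (ζ j) ℓ)

end POCM

open POCM in
/-- Pockets. -/
theorem specPOC : SpecPOC :=
  ⟨open_poc, fun _ _ _ _ ho hs h0 => ⟨open_UU ho, star_UU hs h0⟩,
    fun _ ζ ℓ ho hs h0 => ⟨ho.union (open_poc ζ ℓ), star_one hs h0⟩⟩

end Pool.Agent.Lib.MP250511.SB
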