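import Pool.Agent.Lib.MP_250511_an.SB.SpecE

/-!
# MP_250511_an, module POS: the first variation of an extremal domain is bounded by the rate of change of
the inradius
-/

set_option autoImplicit false

namespace Pool.Agent.Lib.MP250511.SB

open Complex Metric Set MeasureTheory Filter Topology
open scoped Real ENNReal ComplexConjugate ContDiff

namespace POSM

theorem dB_zero {v : ℂ → ℂ} {z : ℂ} (hz : z ∉ tsupport v) : dB v z = 0 := by
  have h1 : v =ᶠ[𝓝 z] fun _ => (0 : ℂ) := notMem_tsupport_iff_eventuallyEq.1 hz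
  have h2 : fderiv ℝ v z = 0 := by
    rw [h1.fderiv_eq]
    exact fderiv_const_apply (0 : ℂ)
  unfold dB
  rw [h2]
  simp

end POSM

theorem specPOS (hPAI : SpecPAI) (hRMT : SpecRMT) (hHMG : SpecHMG) (hDIG : SpecDIG)
    (hING : SpecING) (hVIG : SpecVIG) (hVBG : SpecVBG) (hINR : SpecINR) : SpecPOS := by
  intro f g Ω ρ hE v b hv hcs h0 hb μ hμ hVV
  have hKc : IsCompact (tsupport v) := hcs
  have hρ : 0 < ρ := hE.pos
  have h0Ω : (0 : ℂ) ∈ Ω := by
    rw [← hE.im]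
    exact ⟨0, by simp, hE.zero⟩
  have hΩ : Ω ≠ univ := by
    intro h
    have := hE.inr 0 (ρ + 1) (by rw [h]; exact subset_univ _)
    linarith
  obtain ⟨r, hr, hrK⟩ := Metric.isOpen_iff.1 hKc.isClosed.isOpen_compl 0 h0
  have hWsub : Ω ∩ tsupport v ⊆ Ω \ ball 0 r := fun z hz => ⟨hz.1, fun h => hrK h hz.2⟩
  have hint : IntegrableOn (qG g) (Ω ∩ tsupport v) :=
    (hING f g Ω hE.toPair r hr).mono_set hWsub
  have hWm : MeasurableSet (Ω ∩ tsupport v) := hE.op.measurableSet.inter hKc.isClosed.measurableSet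
  have key : ∀ η : ℝ, 0 < η →
      2 * (∫ z in Ω ∩ tsupport v, dB v z * qG g z).re ≤ 2 * π * (μ + η) / ρ := by
    intro η hη
    refine hVBG (Ω ∩ tsupport v) (qG g) v (2 * π * (μ + η) / ρ) hWm hint hv hcs ?_
    obtain ⟨ε₀, hε₀, hd⟩ := hDIG v hv hcs (tsupport v) (Subset.refl _)
    obtain ⟨ε₁, hε₁, h1⟩ := hINR f g Ω ρ hE v b (tsupport v) hv hcs hb μ hμ hVV ⟨ε₀, hε₀, hd⟩ η hη
    refine ⟨min ε₀ ε₁, lt_min hε₀ hε₁, fun ε hε0 hε => ?_⟩
    obtain ⟨ψ, hψ⟩ := hd ε (by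
      rw [abs_of_pos hε0]
      exact lt_of_lt_of_le hε (min_le_left _ _))
    obtain ⟨hop, hsc⟩ := hHMG f (fun z => z + (ε : ℂ) * v z) ψ Ω (tsupport v) hE.toConf hE.op hψ
    have hne : (fun z => z + (ε : ℂ) * v z) '' Ω ≠ univ := by
      intro h
      apply hΩ
      rw [eq_univ_iff_forall]
      intro z
      have hz1 : (fun z => z + (ε : ℂ) * v z) z ∈ (fun z => z + (ε : ℂ) * v z) '' Ω := by
        rw [h]; exact mem_univ _
      obtain ⟨w, hw, hwz⟩ := hz1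
      have h2 := congrArg ψ hwz
      rw [hψ.l, hψ.l] at h2
      rwa [← h2]
    have h0m : (0 : ℂ) ∈ (fun z => z + (ε : ℂ) * v z) '' Ω := ⟨0, h0Ω, hψ.id 0 h0⟩
    obtain ⟨F, hF⟩ := hRMT _ hop hsc hne h0m
    obtain ⟨G, hFG⟩ := hPAI F _ hF
    have hvig := hVIG f g F G _ ψ Ω (tsupport v) hE.toPair hE.one hKc h0 hψ hFG
    have hext := hE.ext F _ hF (ρ + (μ + η) * ε)
      (fun c r' hr' => h1 ε hε0 (lt_of_lt_of_le hε (min_le_right _ _)) c r' hr')
    have hpos : 0 < ‖deriv F 0‖ := norm_pos_iff.2 (hFG.dF 0 (by simp))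
    have hlog : Real.log ‖deriv F 0‖ ≤ ‖deriv F 0‖ - 1 := Real.log_le_sub_one_of_pos hpos
    have h3 : ‖deriv F 0‖ - 1 ≤ (μ + η) * ε / ρ := by
      rw [le_div_iff₀ hρ]
      linarith
    have h4 : 2 * π * Real.log ‖deriv F 0‖ ≤ 2 * π * ((μ + η) * ε / ρ) :=
      mul_le_mul_of_nonneg_left (hlog.trans h3) (by positivity)
    have h5 : 2 * π * (μ + η) / ρ * ε = 2 * π * ((μ + η) * ε / ρ) := by ring
    rw [h5]
    linarith
  have heq : (∫ z in Ω, dB v z * qG g z) = ∫ z in Ω ∩ tsupport v, dB v z * qG g z := by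
    refine setIntegral_eq_of_subset_of_forall_sdiff_eq_zero hE.op.measurableSet inter_subset_left ?_
    intro z hz
    have hz2 : z ∉ tsupport v := fun h => hz.2 ⟨hz.1, h⟩
    rw [POSM.dB_zero hz2, zero_mul]
  rw [heq]
  refine le_of_forall_pos_le_add fun η hη => ?_
  have h6 := key η hη
  have hπ : 0 < π := Real.pi_pos
  have h7 : (∫ z in Ω ∩ tsupport v, dB v z * qG g z).re ≤ π * (μ + η) / ρ := by
    have h8 : 2 * π * (μ + η) / ρ = 2 * (π * (μ + η) / ρ) := by ring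
    rw [h8] at h6
    linarith
  calc ρ / π * (∫ z in Ω ∩ tsupport v, dB v z * qG g z).re
      ≤ ρ / π * (π * (μ + η) / ρ) := mul_le_mul_of_nonneg_left h7 (by positivity)
    _ = μ + η := by
      field_simp

end Pool.Agent.Lib.MP250511.SB
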