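import Pool.Agent.Lib.MP_250511_an.SB.Spec

/-!
# MP_250511_an, module RAD: radial saturation off `KK`
-/

set_option autoImplicit false

namespace Pool.Agent.Lib.MP250511.SB

open Complex Metric Set MeasureTheory Filter Topology
open scoped Real ENNReal ComplexConjugate ContDiff

noncomputable section

theorem specRAD (hFRO : SpecFRO) : SpecRAD := by
  intro f g Ω ρ hE z₀ δ hdis z hz hzΩ s hs hsz hcon
  rcases le_or_gt 1 s with h1 | h1
  · exact out_mul hE.star hzΩ h1 hcon
  -- the first point of the complement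
  set T : Set ℝ := {t : ℝ | 0 ≤ t ∧ (t : ℂ) * z ∉ Ω} with hT
  have hTc : IsClosed T := by
    have h2 : T = Ici 0 ∩ (fun t : ℝ => (t : ℂ) * z) ⁻¹' Ωᶜ := by
      ext t; simp [hT]
    rw [h2]
    refine isClosed_Ici.inter (IsClosed.preimage ?_ hE.op.isClosed_compl)
    exact Complex.continuous_ofReal.mul continuous_const
  have h1T : (1 : ℝ) ∈ T := ⟨zero_le_one, by simpa using hzΩ⟩
  have hbd : BddBelow T := ⟨0, fun t ht => ht.1⟩
  have hmem : sInf T ∈ T := hTc.csInf_mem ⟨1, h1T⟩ hbd
  have hle1 : sInf T ≤ 1 := csInf_le hbd h1T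
  have hsT : s < sInf T := by
    by_contra hle
    push Not at hle
    apply hmem.2
    have h3 := star_mul hE.star hcon (s := sInf T / s) (div_nonneg hmem.1 hs.le)
      ((div_le_one hs).2 hle)
    have h4 : ((sInf T / s : ℝ) : ℂ) * ((s : ℂ) * z) = ((sInf T : ℝ) : ℂ) * z := by
      have hs0 : (s : ℂ) ≠ 0 := by exact_mod_cast hs.ne'
      push_cast
      field_simp
    rwa [h4] at h3
  -- it is a front point
  have hfront : Front Ω (((sInf T : ℝ) : ℂ) * z) := by
    refine ⟨hmem.2, fun u hu0 hu1 => ?_⟩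
    by_contra hne
    have h5 : u * sInf T ∈ T := by
      refine ⟨mul_nonneg hu0 hmem.1, ?_⟩
      rw [← mul_assoc, ← Complex.ofReal_mul] at hne
      exact hne
    have h6 := csInf_le hbd h5
    have h7 : 0 < sInf T := hs.trans hsT
    nlinarith
  have hKK := hFRO f g Ω ρ hE _ hfront
  refine Set.disjoint_left.1 hdis ?_ hKK
  -- it is in the ball
  have hconv := (convex_ball z₀ δ) hsz hz (a := (1 - sInf T) / (1 - s)) (b := (sInf T - s) / (1 - s))
    (div_nonneg (by linarith) (by linarith)) (div_nonneg (by linarith) (by linarith))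
    (by have h8 : (1 - s) ≠ 0 := by linarith
        field_simp; ring)
  have h9 : ((1 - sInf T) / (1 - s)) • ((s : ℂ) * z) + ((sInf T - s) / (1 - s)) • z =
      ((sInf T : ℝ) : ℂ) * z := by
    have h8 : (1 - (s : ℂ)) ≠ 0 := by
      intro h
      have : (s : ℂ) = 1 := by linear_combination -h
      have h10 : s = 1 := by exact_mod_cast this
      linarith
    rw [Complex.real_smul, Complex.real_smul]
    push_cast
    field_simp
    ring
  rwa [h9] at hconv

end

end Pool.Agent.Lib.MP250511.SB
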