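import Pool.Agent.Lib.MP_250511_an.SB.SpecX

/-!
# MP_250511_an, module RCU: countable unions of rectifiable sets (helper64)
-/

set_option autoImplicit false

namespace Pool.Agent.Lib.MP250511.SB

open Complex Metric Set MeasureTheory Filter Topology
open scoped Real ENNReal NNReal ComplexConjugate ContDiff

noncomputable section

namespace RCUM

lemma rect_mono {A B : Set ℂ} (h : A ⊆ B) (hB : Rect B) : Rect A := by
  obtain ⟨γ, h1, h2⟩ := hB
  exact ⟨γ, h1, h.trans h2⟩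

lemma rect_iUnion (ι : Type) [Countable ι] (F : ι → Set ℂ) (h : ∀ i, Rect (F i)) :
    Rect (⋃ i, F i) := by
  rcases isEmpty_or_nonempty ι with he | hne
  · refine ⟨fun _ _ => 0, fun _ => ⟨0, LipschitzWith.const 0⟩, ?_⟩
    rw [Set.iUnion_of_empty]
    exact Set.empty_subset _
  · choose γ hL hc using h
    obtain ⟨e, he⟩ := exists_surjective_nat (ι × ℕ)
    refine ⟨fun k => γ (e k).1 (e k).2, fun k => hL _ _, ?_⟩
    intro z hz
    obtain ⟨i, hi⟩ := Set.mem_iUnion.1 hz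
    obtain ⟨n, hn⟩ := Set.mem_iUnion.1 (hc i hi)
    obtain ⟨k, hk⟩ := he (i, n)
    refine Set.mem_iUnion.2 ⟨k, ?_⟩
    show z ∈ range (γ (e k).1 (e k).2)
    rw [hk]
    exact hn

end RCUM

theorem specRCU : SpecRCU := by
  refine ⟨fun ι _ F h => RCUM.rect_iUnion ι F h, ?_⟩
  intro A hA
  choose! δ hδ hR using hA
  obtain ⟨t, htA, htc, hcov⟩ := TopologicalSpace.countable_cover_nhdsWithin
    (f := fun z => ball z (δ z)) (s := A)
    (fun z hz => mem_nhdsWithin_of_mem_nhds (ball_mem_nhds z (hδ z hz)))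
  have : Countable t := htc.to_subtype
  have h1 : Rect (⋃ i : t, A ∩ ball (i : ℂ) (δ i)) :=
    RCUM.rect_iUnion t (fun i => A ∩ ball (i : ℂ) (δ i)) (fun i => hR i (htA i.2))
  refine RCUM.rect_mono ?_ h1
  intro z hz
  obtain ⟨i, hi⟩ := Set.mem_iUnion.1 (hcov hz)
  obtain ⟨hit, hzi⟩ := Set.mem_iUnion.1 hi
  exact Set.mem_iUnion.2 ⟨⟨i, hit⟩, hz, hzi⟩

end

end Pool.Agent.Lib.MP250511.SB
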