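import Pool.Agent.Lib.MP_250511_an.SB.SpecX

/-!
# MP_250511_an, module RCX: the complement of an extremal domain is rectifiable
-/

set_option autoImplicit false

namespace Pool.Agent.Lib.MP250511.SB

open Complex Metric Set MeasureTheory Filter Topology
open scoped Real ENNReal NNReal ComplexConjugate ContDiff

theorem Rect.mono {A B : Set ℂ} (h : A ⊆ B) (hB : Rect B) : Rect A := by
  obtain ⟨γ, h1, h2⟩ := hB
  exact ⟨γ, h1, h.trans h2⟩

theorem specRCX (hEXF : SpecEXF) (hKCL : SpecKCL) (hRCU : SpecRCU) (hRTC : SpecRTC)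
    (hRST : SpecRST) (hFIND : SpecFIND) : SpecRCX := by
  intro hA f hf hr
  obtain ⟨⟨ν, _, _, _, _, _, hloc⟩, _⟩ := hFIND hA f hf hr
  obtain ⟨g, hE⟩ := hEXF f hf hr
  have hcl : IsClosed (KK (f '' ball 0 1) S.toReal) := (hKCL (f '' ball 0 1) S.toReal hE.pos hE.op).1
  set K := KK (f '' ball 0 1) S.toReal with hK
  have h1 : Rect ((f '' ball 0 1)ᶜ \ K) := by
    refine hRCU.2 _ fun z₀ hz₀ => ?_
    obtain ⟨δ₀, hδ₀, hsub⟩ := Metric.isOpen_iff.1 hcl.isOpen_compl z₀ hz₀.2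
    obtain ⟨_, N, hN1, _, δ, hδ, ξ, hξa, hξi, _, hξ0, hξ1, _⟩ :=
      hloc z₀ _ hz₀.1 rfl δ₀ hδ₀ (fun z hz _ hzf c hc hd => hsub hz ⟨hzf, c, hc, hd⟩)
    obtain ⟨δ', hδ', hle, hR⟩ := hRST ξ z₀ δ N hδ hN1 hξa hξi hξ0
    refine ⟨δ', hδ', Rect.mono ?_ hR⟩
    intro z hz
    exact ⟨(hξ1 z (ball_subset_ball hle hz.2)).1 hz.1.1, hz.2⟩
  have h2 : Rect K := hRTC _ _ hE.pos
  have h3 := hRCU.1 Bool (fun b => cond b ((f '' ball 0 1)ᶜ \ K) K) (by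
    intro b
    cases b
    · exact h2
    · exact h1)
  refine Rect.mono (fun z hz => ?_) h3
  rw [mem_iUnion]
  by_cases hzK : z ∈ K
  · exact ⟨false, hzK⟩
  · exact ⟨true, hz, hzK⟩

end Pool.Agent.Lib.MP250511.SB
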