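import Pool.Agent.Lib.MP_250511_an.SB.SpecR

/-!
# MP_250511_an, module REP: the quadratic differential in terms of the contact forces
-/

set_option autoImplicit false

namespace Pool.Agent.Lib.MP250511.SB

open Complex Metric Set MeasureTheory Filter Topology
open scoped Real ENNReal ComplexConjugate ContDiff

noncomputable section

namespace REPM

theorem intK {Ω : Set ℂ} {q h : ℂ → ℂ} {s C : ℝ} (hs : 0 < s)
    (hq : ∀ s : ℝ, 0 < s → IntegrableOn q (Ω \ ball 0 s)) (hm : Measurable h)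
    (h0 : ∀ z, ‖z‖ < s → h z = 0) (hC : ∀ z, ‖h z‖ ≤ C) :
    IntegrableOn (fun z => h z * q z) Ω := by
  have h1 : IntegrableOn (fun z => h z * q z) (Ω \ ball 0 s) :=
    Integrable.bdd_mul (hq s hs) hm.aestronglyMeasurable (Eventually.of_forall hC)
  have h2 : IntegrableOn (fun z => h z * q z) (ball (0 : ℂ) s) := by
    refine IntegrableOn.congr_fun (f := fun _ => (0 : ℂ)) integrableOn_zero ?_ measurableSet_ball
    intro z hz
    show (0 : ℂ) = h z * q z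
    rw [h0 z (mem_ball_zero_iff.mp hz), zero_mul]
  refine (h1.union h2).mono_set ?_
  intro z hz
  by_cases hzs : z ∈ ball (0 : ℂ) s
  · exact Or.inr hzs
  · exact Or.inl ⟨hz, hzs⟩

theorem kb {r B c : ℝ} (hr : 0 < r) (h1 : ∀ z, ‖z‖ ≤ r → Ker r z = 0)
    (h2 : ∀ z, 2 * r ^ 2 ≤ ‖z‖ ^ 2 → Ker r z = 0) (hB : ∀ z, ‖Ker r z‖ ≤ B / r ^ 2) (hB0 : 0 ≤ B)
    (hc : 0 ≤ c) {g : ℂ → ℂ} (hg : ∀ z, r < ‖z‖ → ‖z‖ < 2 * r → ‖g z‖ ≤ c) (z : ℂ) :
    ‖Ker r z * g z‖ ≤ B / r ^ 2 * c := by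
  have hpos : 0 ≤ B / r ^ 2 * c := mul_nonneg (div_nonneg hB0 (sq_nonneg r)) hc
  by_cases hz : ‖z‖ ≤ r
  · rw [h1 z hz, zero_mul, norm_zero]; exact hpos
  by_cases hz2 : 2 * r ≤ ‖z‖
  · rw [h2 z (by nlinarith), zero_mul, norm_zero]; exact hpos
  · rw [norm_mul]
    exact mul_le_mul (hB z) (hg z (not_le.mp hz) (not_le.mp hz2)) (norm_nonneg _)
      (div_nonneg hB0 (sq_nonneg r))

end REPM

open REPM

theorem specREP (hING : SpecING) (hKER : SpecKER) (hLAU : SpecLAU) (hINN : SpecINN)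
    (hOUT : SpecOUT) (hCUT : SpecCUT) (hCVZ : SpecCVZ) (hRHS : SpecRHS) : SpecREP := by
  intro f g Ω ρ ν hP hf1 hρ hν hνC hEL hEQ ζ hζ hζ0
  obtain ⟨w₁, hwan, hw1, hwq⟩ := hLAU f g Ω hP hf1
  obtain ⟨q, hqdef⟩ : ∃ q : ℂ → ℂ, q = qG g := ⟨_, rfl⟩
  rw [← hqdef] at hwq hEL ⊢
  have hq : ∀ s : ℝ, 0 < s → IntegrableOn q (Ω \ ball 0 s) := by
    intro s hs
    rw [hqdef]
    exact hING f g Ω hP s hs
  have hop : IsOpen Ω := hP.op
  have h0Ω : (0 : ℂ) ∈ Ω := by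
    rw [← hP.im]
    exact ⟨0, mem_ball_self one_pos, hP.zero⟩
  have hζn : 0 < ‖ζ‖ := norm_pos_iff.mpr hζ0
  -- radii
  obtain ⟨ε₀, hε₀, hb₀⟩ := Metric.nhds_basis_closedBall.mem_iff.mp (hop.mem_nhds h0Ω)
  obtain ⟨ε₁, hε₁, hb₁⟩ := Metric.nhds_basis_closedBall.mem_iff.mp (hop.mem_nhds hζ)
  obtain ⟨r, hr, hr1, hr2⟩ : ∃ r : ℝ, 0 < r ∧ 2 * r ≤ ε₀ ∧ 4 * r ≤ ‖ζ‖ := by
    refine ⟨min (ε₀ / 2) (‖ζ‖ / 4), lt_min (by positivity) (by positivity), ?_, ?_⟩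
    · have := min_le_left (ε₀ / 2) (‖ζ‖ / 4); linarith
    · have := min_le_right (ε₀ / 2) (‖ζ‖ / 4); linarith
  obtain ⟨δ, hδ, hd1, hd2⟩ : ∃ δ : ℝ, 0 < δ ∧ 2 * δ ≤ ε₁ ∧ 4 * δ ≤ ‖ζ‖ := by
    refine ⟨min (ε₁ / 2) (‖ζ‖ / 4), lt_min (by positivity) (by positivity), ?_, ?_⟩
    · have := min_le_left (ε₁ / 2) (‖ζ‖ / 4); linarith
    · have := min_le_right (ε₁ / 2) (‖ζ‖ / 4); linarith
  have hbr : closedBall (0 : ℂ) (2 * r) ⊆ Ω := (closedBall_subset_closedBall hr1).trans hb₀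
  have hbd : closedBall ζ (2 * δ) ⊆ Ω := (closedBall_subset_closedBall hd1).trans hb₁
  have h0d : (0 : ℂ) ∉ closedBall ζ (2 * δ) := by
    rw [mem_closedBall, dist_comm, dist_zero_right]
    intro h; linarith
  -- kernel facts
  obtain ⟨hK, B, hB0, hB⟩ := hKER
  obtain ⟨hI1, hI⟩ := hINN Ω q w₁ hop hwan hw1 hwq r hr hbr
  obtain ⟨hI2, hI3⟩ := hI ζ (by linarith)
  have hI3 := hI3 δ hδ hbd h0d
  obtain ⟨hO1, hO2⟩ := hOUT Ω q hop hq
  have hO2 := hO2 ζ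
  obtain ⟨hR1, hR2, hR3⟩ := hRHS Ω ρ ν hν hνC r hr hbr
  have hR3 := hR3 ζ δ hδ hbd
  -- integrability
  have hidm : Measurable fun z : ℂ => z / (z - ζ) :=
    measurable_id.div (measurable_id.sub_const ζ)
  have J1 : ∀ R : ℝ, 0 < R → IntegrableOn (fun z => Ker R z * z * q z) Ω := by
    intro R hR
    obtain ⟨k1, k2, k3, -⟩ := hK R hR
    exact intK (s := R) hR hq (k1.measurable.mul measurable_id)
      (fun z hz => by rw [k2 z hz.le, zero_mul])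
      (kb hR k2 k3 (hB R hR) hB0 (c := 2 * R) (by linarith) (g := fun z => z)
        (fun z _ hz => hz.le))
  have J2 : ∀ R c : ℝ, 0 < R → 0 ≤ c → (∀ z : ℂ, R < ‖z‖ → ‖z‖ < 2 * R → ‖z / (z - ζ)‖ ≤ c) →
      IntegrableOn (fun z => Ker R z * (z / (z - ζ)) * q z) Ω := by
    intro R c hR hc hb
    obtain ⟨k1, k2, k3, -⟩ := hK R hR
    exact intK (s := R) hR hq (k1.measurable.mul hidm)
      (fun z hz => by rw [k2 z hz.le, zero_mul])
      (kb hR k2 k3 (hB R hR) hB0 hc (g := fun z => z / (z - ζ)) hb)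
  have J2r : IntegrableOn (fun z => Ker r z * (z / (z - ζ)) * q z) Ω := by
    refine J2 r (2 * r / (2 * r)) hr (by positivity) ?_
    intro z _ hz
    have h1 : 2 * r ≤ ‖z - ζ‖ := by
      have h2 := norm_sub_norm_le ζ z
      rw [norm_sub_rev] at h2
      linarith
    rw [norm_div]
    exact div_le_div₀ (by positivity) hz.le (by positivity) h1
  have J2R : ∀ R : ℝ, ‖ζ‖ < R → IntegrableOn (fun z => Ker R z * (z / (z - ζ)) * q z) Ω := by
    intro R hR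
    have hR0 : 0 < R := hζn.trans hR
    have hRp : 0 < R - ‖ζ‖ := by linarith
    refine J2 R (2 * R / (R - ‖ζ‖)) hR0 (by positivity) ?_
    intro z hz1 hz
    have h1 : R - ‖ζ‖ ≤ ‖z - ζ‖ := by
      have h2 := norm_sub_norm_le z ζ
      linarith
    rw [norm_div]
    exact div_le_div₀ (by positivity) hz.le hRp h1
  have J3 : IntegrableOn (fun z => Ker δ (z - ζ) * q z) Ω := by
    obtain ⟨k1, k2, k3, -⟩ := hK δ hδ
    refine intK (s := r) hr hq (k1.measurable.comp (measurable_id.sub_const ζ)) ?_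
      (C := B / δ ^ 2) (fun z => hB δ hδ _)
    intro z hz
    refine k3 _ ?_
    have h2 := norm_sub_norm_le ζ z
    rw [norm_sub_rev] at h2
    have h3 : 2 * δ ≤ ‖z - ζ‖ := by linarith
    nlinarith
  -- the first identity
  have hpi : (π : ℂ) ≠ 0 := by exact_mod_cast Real.pi_ne_zero
  have hρc : (ρ : ℂ) ≠ 0 := by exact_mod_cast hρ.ne'
  have E1 : ∀ᶠ n : ℕ in atTop, ((ρ ^ 2 / π : ℝ) : ℂ) * ((π : ℂ) * deriv w₁ 0 -
      ∫ z in Ω, Ker (n + 1) z * z * q z) = ∫ x, conj (x.2 - x.1) * cR r (n + 1) x.2 ∂ν := by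
    filter_upwards [eventually_gt_atTop ⌈2 * r⌉₊] with n hn
    have hn' : 2 * r < (n : ℝ) + 1 := by
      have h1 : (⌈2 * r⌉₊ : ℝ) < n := by exact_mod_cast hn
      have h2 := Nat.le_ceil (2 * r)
      linarith
    obtain ⟨⟨c1, c2, c3, c4⟩, -⟩ := hCVZ r (n + 1) hr hn'
    rw [← hEL _ c1 c2 c3]
    congr 1
    rw [← hI1, ← integral_sub (J1 r hr) (J1 (n + 1) (by positivity))]
    refine integral_congr_ae (Eventually.of_forall fun z => ?_)
    show _ = dB (cR r (n + 1)) z * q z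
    rw [c4 z]
    ring
  have L1 : Tendsto (fun n : ℕ => ((ρ ^ 2 / π : ℝ) : ℂ) * ((π : ℂ) * deriv w₁ 0 -
      ∫ z in Ω, Ker (n + 1) z * z * q z)) atTop
      (𝓝 (((ρ ^ 2 / π : ℝ) : ℂ) * ((π : ℂ) * deriv w₁ 0 - 0))) :=
    (tendsto_const_nhds.sub hO1).const_mul _
  have M1 := tendsto_nhds_unique (L1.congr' E1) hR1
  have hP0 : ∫ x, conj (x.2 - x.1) ∂ν = 0 := by
    refine tendsto_nhds_unique hR2 ?_
    have hz : (fun n : ℕ => ∫ x, conj (x.2 - x.1) * ((chi (n + 1) x.1 : ℝ) : ℂ) ∂ν) =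
        fun _ => 0 := by
      funext n
      obtain ⟨d1, -, -, -, -, -, -, -, d9⟩ := hCUT 1 (n + 1) one_pos (by positivity)
      refine hEQ (fun z => ((chi (n + 1) z : ℝ) : ℂ))
        (Complex.continuous_ofReal.comp d1.continuous) ?_
      refine HasCompactSupport.intro (isCompact_closedBall (0 : ℂ) (2 * ((n : ℝ) + 1))) ?_
      intro z hz
      rw [mem_closedBall_zero_iff, not_le] at hz
      have hn0 : (0 : ℝ) ≤ n := Nat.cast_nonneg n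
      rw [d9 z (by nlinarith)]
      simp
    rw [hz]
    exact tendsto_const_nhds
  have hA : deriv w₁ 0 = 0 := by
    rw [hP0, sub_zero] at M1
    have hc : ((ρ ^ 2 / π : ℝ) : ℂ) ≠ 0 := by
      have : (ρ ^ 2 / π : ℝ) ≠ 0 := (div_pos (pow_pos hρ 2) Real.pi_pos).ne'
      exact_mod_cast this
    rcases mul_eq_zero.mp M1 with h | h
    · exact absurd h hc
    · rcases mul_eq_zero.mp h with h | h
      · exact absurd h hpi
      · exact h
  -- the second identity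
  have E2 : ∀ᶠ n : ℕ in atTop, ((ρ ^ 2 / π : ℝ) : ℂ) * ((π : ℂ) * q ζ +
      -((π : ℂ) * (deriv w₁ 0 / ζ + 1 / ζ ^ 2)) -
      ∫ z in Ω, Ker (n + 1) z * (z / (z - ζ)) * q z) =
        ∫ x, conj (x.2 - x.1) * vZ ζ δ r (n + 1) x.2 ∂ν := by
    filter_upwards [eventually_gt_atTop ⌈‖ζ‖ + 2 * δ⌉₊] with n hn
    have hn' : ‖ζ‖ + 2 * δ < (n : ℝ) + 1 := by
      have h1 : (⌈‖ζ‖ + 2 * δ⌉₊ : ℝ) < n := by exact_mod_cast hn
      have h2 := Nat.le_ceil (‖ζ‖ + 2 * δ)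
      linarith
    obtain ⟨-, hv⟩ := hCVZ r (n + 1) hr (by linarith)
    obtain ⟨c1, c2, c3, c4⟩ := hv ζ δ hδ (by linarith) hn'.le
    rw [← hEL _ c1 c2 c3]
    congr 1
    have hJR := J2R (n + 1) (by linarith)
    have hJs : IntegrableOn (fun z => Ker δ (z - ζ) * q z +
        Ker r z * (z / (z - ζ)) * q z) Ω := J3.add J2r
    rw [← hI3, ← hI2, ← integral_add J3 J2r, ← integral_sub hJs hJR]
    refine integral_congr_ae (Eventually.of_forall fun z => ?_)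
    show _ = dB (vZ ζ δ r (n + 1)) z * q z
    rw [c4 z]
    ring
  have L2 : Tendsto (fun n : ℕ => ((ρ ^ 2 / π : ℝ) : ℂ) * ((π : ℂ) * q ζ +
      -((π : ℂ) * (deriv w₁ 0 / ζ + 1 / ζ ^ 2)) -
      ∫ z in Ω, Ker (n + 1) z * (z / (z - ζ)) * q z)) atTop
      (𝓝 (((ρ ^ 2 / π : ℝ) : ℂ) * ((π : ℂ) * q ζ +
      -((π : ℂ) * (deriv w₁ 0 / ζ + 1 / ζ ^ 2)) - 0))) :=
    (tendsto_const_nhds.sub hO2).const_mul _
  have M2 := tendsto_nhds_unique (L2.congr' E2) hR3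
  have hneg : ∫ x, conj (x.2 - x.1) / (ζ - x.2) ∂ν = -∫ x, conj (x.2 - x.1) / (x.2 - ζ) ∂ν := by
    rw [← integral_neg]
    refine integral_congr_ae (Eventually.of_forall fun x => ?_)
    show conj (x.2 - x.1) / (ζ - x.2) = -(conj (x.2 - x.1) / (x.2 - ζ))
    rw [← neg_sub x.2 ζ, div_neg]
  rw [hneg, ← M2, hA]
  push_cast
  field_simp
  ring

end

end Pool.Agent.Lib.MP250511.SB
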