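import Pool.Agent.Lib.MP_250511_an.SB.SpecR

/-!
# MP_250511_an, module RHS: the right sides of the Euler-Lagrange equation for the cut off Cauchy kernels
-/

set_option autoImplicit false

namespace Pool.Agent.Lib.MP250511.SB

open Complex Metric Set MeasureTheory Filter Topology
open scoped Real ENNReal ComplexConjugate ContDiff

namespace RHSM

theorem sq_le {a r : ℝ} (hr : 0 < r) (h : 2 * r < a) : 2 * r ^ 2 ≤ a ^ 2 := by
  nlinarith

theorem chi_cont (hCUT : SpecCUT) {R : ℝ} (hR : 0 < R) : Continuous (chi R) :=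
  (hCUT R R hR hR).1.continuous

theorem chi_bd (hCUT : SpecCUT) {R : ℝ} (hR : 0 < R) (z : ℂ) : 0 ≤ chi R z ∧ chi R z ≤ 1 :=
  (hCUT R R hR hR).2.2.2.2.2.2.1 z

theorem chi_one (hCUT : SpecCUT) {R : ℝ} (hR : 0 < R) {z : ℂ} (hz : ‖z‖ ≤ R) : chi R z = 1 :=
  (hCUT R R hR hR).2.2.2.2.2.2.2.1 z hz

theorem chi_zero (hCUT : SpecCUT) {R : ℝ} (hR : 0 < R) {z : ℂ} (hz : 2 * R < ‖z‖) : chi R z = 0 :=
  (hCUT R R hR hR).2.2.2.2.2.2.2.2 z (sq_le hR hz)

theorem cR_cont (hCUT : SpecCUT) {r R : ℝ} (hr : 0 < r) (hR : 0 < R) : Continuous (cR r R) := by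
  unfold cR
  exact Complex.continuous_ofReal.comp
    ((chi_cont hCUT hR).mul (continuous_const.sub (chi_cont hCUT hr)))

theorem cR_one (hCUT : SpecCUT) {r R : ℝ} (hr : 0 < r) (hR : 0 < R) {p : ℂ} (h1 : 2 * r < ‖p‖)
    (h2 : ‖p‖ ≤ R) : cR r R p = 1 := by
  unfold cR
  rw [chi_one hCUT hR h2, chi_zero hCUT hr h1]
  simp

theorem cR_bd (hCUT : SpecCUT) {r R : ℝ} (hr : 0 < r) (hR : 0 < R) (p : ℂ) : ‖cR r R p‖ ≤ 1 := by
  unfold cR
  obtain ⟨h1, h2⟩ := chi_bd hCUT hR p
  obtain ⟨h3, h4⟩ := chi_bd hCUT hr p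
  rw [Complex.norm_real, Real.norm_eq_abs, abs_of_nonneg (mul_nonneg h1 (by linarith))]
  exact mul_le_one₀ h2 (by linarith) (by linarith)

theorem ev_le (p : ℂ) : ∀ᶠ n : ℕ in atTop, ‖p‖ ≤ (n : ℝ) + 1 := by
  filter_upwards [tendsto_natCast_atTop_atTop.eventually_ge_atTop ‖p‖] with n hn
  linarith

theorem norm_conj_sub {Ω : Set ℂ} {ρ : ℝ} {x : ℂ × ℂ} (hx : x ∈ CC Ω ρ) :
    ‖conj (x.2 - x.1)‖ = ρ := by
  rw [Complex.norm_conj, ← dist_eq_norm]
  exact hx.2.2

theorem conj_meas : Measurable fun x : ℂ × ℂ => conj (x.2 - x.1) :=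
  (Complex.continuous_conj.comp (continuous_snd.sub continuous_fst)).measurable

end RHSM

open RHSM in
theorem specRHS (hCUT : SpecCUT) : SpecRHS := by
  intro Ω ρ ν hν hC r hr hball
  haveI := hν
  have hae : ∀ᵐ x ∂ν, x ∈ CC Ω ρ := mem_ae_iff.2 hC
  have hR : ∀ n : ℕ, (0 : ℝ) < (n : ℝ) + 1 := fun n => by positivity
  have hout : ∀ p : ℂ, p ∉ Ω → 2 * r < ‖p‖ := by
    intro p hp
    by_contra hc
    apply hp
    apply hball
    rw [mem_closedBall, dist_zero_right]
    linarith
  refine ⟨?_, ?_, ?_⟩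
  · refine tendsto_integral_of_dominated_convergence (fun _ => ρ) (fun n => ?_)
      (integrable_const ρ) (fun n => ?_) ?_
    · exact (conj_meas.mul
        ((cR_cont hCUT hr (hR n)).comp continuous_snd).measurable).aestronglyMeasurable
    · filter_upwards [hae] with x hx
      rw [norm_mul, norm_conj_sub hx]
      have hρ : 0 ≤ ρ := by
        rw [← norm_conj_sub hx]
        exact norm_nonneg _
      exact mul_le_of_le_one_right hρ (cR_bd hCUT hr (hR n) x.2)
    · filter_upwards [hae] with x hx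
      refine tendsto_const_nhds.congr' ?_
      filter_upwards [ev_le x.2] with n hn
      rw [cR_one hCUT hr (hR n) (hout x.2 hx.2.1) hn, mul_one]
  · refine tendsto_integral_of_dominated_convergence (fun _ => ρ) (fun n => ?_)
      (integrable_const ρ) (fun n => ?_) ?_
    · exact (conj_meas.mul (Complex.continuous_ofReal.comp
        ((chi_cont hCUT (hR n)).comp continuous_fst)).measurable).aestronglyMeasurable
    · filter_upwards [hae] with x hx
      obtain ⟨h1, h2⟩ := chi_bd hCUT (hR n) x.1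
      rw [norm_mul, norm_conj_sub hx, Complex.norm_real, Real.norm_eq_abs, abs_of_nonneg h1]
      have hρ : 0 ≤ ρ := by
        rw [← norm_conj_sub hx]
        exact norm_nonneg _
      exact mul_le_of_le_one_right hρ h2
    · filter_upwards [hae] with x hx
      refine tendsto_const_nhds.congr' ?_
      filter_upwards [ev_le x.1] with n hn
      rw [chi_one hCUT (hR n) hn]
      simp
  · intro ζ δ hδ hballδ
    have houtδ : ∀ p : ℂ, p ∉ Ω → 2 * δ < ‖p - ζ‖ := by
      intro p hp
      by_contra hc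
      apply hp
      apply hballδ
      rw [mem_closedBall, dist_eq_norm]
      linarith
    refine tendsto_integral_of_dominated_convergence (fun _ => ρ * (1 / (2 * δ))) (fun n => ?_)
      (integrable_const _) (fun n => ?_) ?_
    · have h1 : Measurable fun x : ℂ × ℂ => (x.2 - ζ)⁻¹ :=
        (continuous_snd.sub continuous_const).measurable.inv
      have h2 : Continuous fun x : ℂ × ℂ => ((1 - chi δ (x.2 - ζ) : ℝ) : ℂ) :=
        Complex.continuous_ofReal.comp (continuous_const.sub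
          ((chi_cont hCUT hδ).comp (continuous_snd.sub continuous_const)))
      have h3 : Measurable fun x : ℂ × ℂ => vZ ζ δ r (n + 1) x.2 :=
        (h1.mul h2.measurable).mul ((cR_cont hCUT hr (hR n)).comp continuous_snd).measurable
      exact (conj_meas.mul h3).aestronglyMeasurable
    · filter_upwards [hae] with x hx
      have hρ : 0 ≤ ρ := by
        rw [← norm_conj_sub hx]
        exact norm_nonneg _
      rw [norm_mul, norm_conj_sub hx]
      refine mul_le_mul_of_nonneg_left ?_ hρ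
      have h1 := houtδ x.2 hx.2.1
      unfold vZ
      rw [norm_mul, norm_mul, norm_inv]
      have h2 : ‖x.2 - ζ‖⁻¹ ≤ 1 / (2 * δ) := by
        rw [← one_div]
        exact one_div_le_one_div_of_le (by positivity) h1.le
      have h3 : ‖((1 - chi δ (x.2 - ζ) : ℝ) : ℂ)‖ ≤ 1 := by
        obtain ⟨h4, h5⟩ := chi_bd hCUT hδ (x.2 - ζ)
        rw [Complex.norm_real, Real.norm_eq_abs, abs_of_nonneg (by linarith)]
        linarith
      have h6 : ‖cR r (n + 1) x.2‖ ≤ 1 := cR_bd hCUT hr (hR n) x.2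
      calc ‖x.2 - ζ‖⁻¹ * ‖((1 - chi δ (x.2 - ζ) : ℝ) : ℂ)‖ * ‖cR r (n + 1) x.2‖
          ≤ 1 / (2 * δ) * 1 * 1 := by
            apply mul_le_mul (mul_le_mul h2 h3 (norm_nonneg _) (by positivity)) h6 (norm_nonneg _)
            positivity
        _ = 1 / (2 * δ) := by ring
    · filter_upwards [hae] with x hx
      refine tendsto_const_nhds.congr' ?_
      filter_upwards [ev_le x.2] with n hn
      unfold vZ
      rw [cR_one hCUT hr (hR n) (hout x.2 hx.2.1) hn, chi_zero hCUT hδ (houtδ x.2 hx.2.1)]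
      simp [div_eq_mul_inv]

end Pool.Agent.Lib.MP250511.SB
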