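import Pool.Agent.Lib.MP_250511_an.SB.SpecE

/-!
# RIN: the inner integral of the scaling field
-/

set_option autoImplicit false

namespace Pool.Agent.Lib.MP250511.SB

open Complex Metric Set MeasureTheory Filter Topology
open scoped Real ENNReal ComplexConjugate ContDiff

noncomputable section

namespace RINM

/-- polar coordinates in an annulus -/
lemma pol {f : ℂ → ℂ} {a b : ℝ} (ha : 0 < a) (hab : a ≤ b)
    (hf : ContinuousOn f {z : ℂ | a ≤ ‖z‖ ∧ ‖z‖ ≤ b}) :
    ∫ z in {z : ℂ | a < ‖z‖ ∧ ‖z‖ < b}, f z =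
      ∫ r in a..b, ∫ θ in (-π)..π, (r : ℂ) * f ((r : ℂ) * exp (θ * I)) := by
  set A : Set ℂ := {z : ℂ | a < ‖z‖ ∧ ‖z‖ < b} with hA
  have hAo : MeasurableSet A :=
    (measurableSet_lt measurable_const measurable_norm).inter
      (measurableSet_lt measurable_norm measurable_const)
  rw [← integral_indicator hAo, ← Complex.integral_comp_polarCoord_symm]
  have hsymm : ∀ p : ℝ × ℝ, Complex.polarCoord.symm p = (p.1 : ℂ) * exp (p.2 * I) := by
    intro p
    rw [Complex.polarCoord_symm_apply, Complex.exp_mul_I]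
    push_cast
    rfl
  have htgt : polarCoord.target = Ioi (0 : ℝ) ×ˢ Ioo (-π) π := rfl
  have hmT : MeasurableSet (Ioi (0 : ℝ) ×ˢ Ioo (-π) π) := measurableSet_Ioi.prod measurableSet_Ioo
  rw [htgt]
  have h1 : ∫ p in Ioi (0 : ℝ) ×ˢ Ioo (-π) π, p.1 • A.indicator f (Complex.polarCoord.symm p) =
      ∫ p in Ioi (0 : ℝ) ×ˢ Ioo (-π) π, (Ioo a b ×ˢ Ioo (-π) π).indicator
        (fun p : ℝ × ℝ => (p.1 : ℂ) * f ((p.1 : ℂ) * exp (p.2 * I))) p := by
    refine setIntegral_congr_fun hmT ?_
    rintro ⟨r, θ⟩ ⟨hr, hθ⟩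
    have hr' : 0 < r := hr
    have hn : ‖(r : ℂ) * exp (θ * I)‖ = r := by
      rw [norm_mul, Complex.norm_exp_ofReal_mul_I, mul_one, Complex.norm_real, Real.norm_eq_abs,
        abs_of_pos hr']
    simp only [hsymm, Complex.real_smul]
    by_cases h : a < r ∧ r < b
    · have h2 : (r : ℂ) * exp (θ * I) ∈ A := by
        rw [hA, mem_setOf_eq, hn]
        exact h
      have h3 : (r, θ) ∈ Ioo a b ×ˢ Ioo (-π) π := ⟨h, hθ⟩
      rw [indicator_of_mem h2, indicator_of_mem h3]
    · have h2 : (r : ℂ) * exp (θ * I) ∉ A := by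
        rw [hA, mem_setOf_eq, hn]
        exact h
      have h3 : (r, θ) ∉ Ioo a b ×ˢ Ioo (-π) π := fun h' => h h'.1
      rw [indicator_of_notMem h2, indicator_of_notMem h3, mul_zero]
  rw [h1, setIntegral_indicator (measurableSet_Ioo.prod measurableSet_Ioo)]
  have h2 : Ioi (0 : ℝ) ×ˢ Ioo (-π) π ∩ Ioo a b ×ˢ Ioo (-π) π = Ioo a b ×ˢ Ioo (-π) π := by
    refine inter_eq_right.2 ?_
    rintro ⟨r, θ⟩ ⟨hr, hθ⟩
    exact ⟨ha.trans hr.1, hθ⟩
  rw [h2, Measure.volume_eq_prod, setIntegral_prod]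
  · rw [intervalIntegral.integral_of_le hab, integral_Ioc_eq_integral_Ioo]
    refine setIntegral_congr_fun measurableSet_Ioo ?_
    intro r _
    simp only
    rw [intervalIntegral.integral_of_le (by linarith [Real.pi_pos]),
      integral_Ioc_eq_integral_Ioo]
  · have hK : IsCompact (Icc a b ×ˢ Icc (-π) π) := isCompact_Icc.prod isCompact_Icc
    have hc : ContinuousOn (fun p : ℝ × ℝ => (p.1 : ℂ) * f ((p.1 : ℂ) * exp (p.2 * I)))
        (Icc a b ×ˢ Icc (-π) π) := by
      refine (Continuous.continuousOn (by fun_prop)).mul ?_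
      refine hf.comp (Continuous.continuousOn (by fun_prop)) ?_
      rintro ⟨r, θ⟩ ⟨hr, hθ⟩
      have hr' : 0 < r := lt_of_lt_of_le ha hr.1
      have hn : ‖(r : ℂ) * exp (θ * I)‖ = r := by
        rw [norm_mul, Complex.norm_exp_ofReal_mul_I, mul_one, Complex.norm_real, Real.norm_eq_abs,
          abs_of_pos hr']
      show a ≤ ‖(r : ℂ) * exp (θ * I)‖ ∧ ‖(r : ℂ) * exp (θ * I)‖ ≤ b
      rw [hn]
      exact hr
    have hi : IntegrableOn (fun p : ℝ × ℝ => (p.1 : ℂ) * f ((p.1 : ℂ) * exp (p.2 * I)))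
        (Icc a b ×ˢ Icc (-π) π) (volume.prod volume) := by
      rw [← Measure.volume_eq_prod]
      exact hc.integrableOn_compact hK
    exact hi.mono_set (prod_mono Ioo_subset_Icc_self Ioo_subset_Icc_self)

/-- the mean value property -/
lemma mean {w : ℂ → ℂ} {Ω : Set ℂ} {s : ℝ} (hw : DifferentiableOn ℂ w Ω) (hs : 0 < s)
    (hΩ : closedBall 0 s ⊆ Ω) :
    ∫ θ in (-π)..π, w ((s : ℂ) * exp (θ * I)) = 2 * π * w 0 := by
  have hd : DiffContOnCl ℂ w (ball 0 |s|) := by
    rw [abs_of_pos hs]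
    exact (hw.mono (closure_ball_subset_closedBall.trans hΩ)).diffContOnCl
  have h1 := hd.circleAverage
  rw [Real.circleAverage_def] at h1
  have hper : Function.Periodic (fun θ : ℝ => w (circleMap 0 s θ)) (2 * π) := by
    intro θ
    show w (circleMap 0 s (θ + 2 * π)) = w (circleMap 0 s θ)
    rw [periodic_circleMap 0 s θ]
  have h2 := hper.intervalIntegral_add_eq (-π) 0
  rw [zero_add, show -π + 2 * π = π by ring] at h2
  have h3 : (fun θ : ℝ => w ((s : ℂ) * exp (θ * I))) = fun θ : ℝ => w (circleMap 0 s θ) := by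
    funext θ
    rw [circleMap, zero_add]
  rw [h3, h2, ← h1, Complex.real_smul]
  have hpi : (π : ℂ) ≠ 0 := by exact_mod_cast Real.pi_ne_zero
  push_cast
  field_simp

/-- the derivative of the transition function -/
lemma T_zero {u : ℝ} (hu : u ≤ 0) : deriv Real.smoothTransition u = 0 := by
  have h : IsLocalMin Real.smoothTransition u := by
    refine Filter.Eventually.of_forall fun x => ?_
    rw [Real.smoothTransition.zero_of_nonpos hu]
    exact Real.smoothTransition.nonneg x
  exact h.deriv_eq_zero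

lemma T_one {u : ℝ} (hu : 1 ≤ u) : deriv Real.smoothTransition u = 0 := by
  have h : IsLocalMax Real.smoothTransition u := by
    refine Filter.Eventually.of_forall fun x => ?_
    rw [Real.smoothTransition.one_of_one_le hu]
    exact Real.smoothTransition.le_one x
  exact h.deriv_eq_zero

lemma T_cont : Continuous (deriv Real.smoothTransition) :=
  (Real.smoothTransition.contDiff (n := 1)).continuous_deriv le_rfl

/-- the radial integral -/
lemma radial {r : ℝ} (hr : 0 < r) :
    ∫ s in r..(2 * r), (2 * π * s) * (-(deriv Real.smoothTransition (2 - s ^ 2 / r ^ 2) / r ^ 2)) =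
      -π := by
  have hd : ∀ s : ℝ, HasDerivAt (fun s => π * Real.smoothTransition (2 - s ^ 2 / r ^ 2))
      ((2 * π * s) * (-(deriv Real.smoothTransition (2 - s ^ 2 / r ^ 2) / r ^ 2))) s := by
    intro s
    have h1 : HasDerivAt (fun s : ℝ => 2 - s ^ 2 / r ^ 2) (-(2 * s / r ^ 2)) s := by
      have h2 : HasDerivAt (fun s : ℝ => s ^ 2 / r ^ 2) (2 * s / r ^ 2) s := by
        have := (hasDerivAt_pow 2 s).div_const (r ^ 2)
        simpa using this
      exact h2.const_sub 2
    have h3 : HasDerivAt Real.smoothTransition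
        (deriv Real.smoothTransition (2 - s ^ 2 / r ^ 2)) (2 - s ^ 2 / r ^ 2) :=
      ((Real.smoothTransition.contDiff (n := 1)).differentiable one_ne_zero _).hasDerivAt
    have h4 := (h3.comp s h1).const_mul π
    have e : π * (deriv Real.smoothTransition (2 - s ^ 2 / r ^ 2) * -(2 * s / r ^ 2)) =
        (2 * π * s) * (-(deriv Real.smoothTransition (2 - s ^ 2 / r ^ 2) / r ^ 2)) := by
      ring
    rw [← e]
    exact h4
  have hc : Continuous fun s : ℝ =>
      (2 * π * s) * (-(deriv Real.smoothTransition (2 - s ^ 2 / r ^ 2) / r ^ 2)) := by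
    have h1 : Continuous fun s : ℝ => deriv Real.smoothTransition (2 - s ^ 2 / r ^ 2) :=
      T_cont.comp (by fun_prop)
    exact (by fun_prop : Continuous fun s : ℝ => 2 * π * s).mul (h1.div_const _).neg
  rw [intervalIntegral.integral_eq_sub_of_hasDerivAt (fun s _ => hd s) (hc.intervalIntegrable _ _)]
  have e1 : 2 - (2 * r) ^ 2 / r ^ 2 = -2 := by
    field_simp
    ring
  have e2 : 2 - r ^ 2 / r ^ 2 = 1 := by
    field_simp
    ring
  rw [e1, e2, Real.smoothTransition.zero_of_nonpos (by norm_num), Real.smoothTransition.one]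
  ring

end RINM

open RINM in
theorem specRIN (_hCUT : SpecCUT) (hDCH : SpecDCH) : SpecRIN := by
  intro f g Ω hP h1 r hr hΩ
  have h0Ω : (0 : ℂ) ∈ Ω := hΩ (mem_closedBall_self (by positivity))
  have hg0 : g 0 = 0 := by
    have := hP.GF 0 (mem_ball_self one_pos)
    rwa [hP.zero] at this
  have hdg : deriv g 0 = 1 := by
    have := hP.dGF 0 (mem_ball_self one_pos)
    rwa [hP.zero, h1, mul_one] at this
  have hgd : DifferentiableOn ℂ g Ω := hP.gan.differentiableOn
  have hgd' : DifferentiableOn ℂ (deriv g) Ω := hP.gan.deriv.differentiableOn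
  have had : DifferentiableOn ℂ (dslope g 0) Ω :=
    (Complex.differentiableOn_dslope (hP.op.mem_nhds h0Ω)).2 hgd
  have hga : ∀ z, g z = z * dslope g 0 z := by
    intro z
    have := sub_smul_dslope g 0 z
    rw [sub_zero, hg0, sub_zero, smul_eq_mul] at this
    exact this.symm
  have hgne : ∀ z ∈ Ω, z ≠ 0 → g z ≠ 0 := by
    intro z hz hz0 h
    have := hP.FG z hz
    rw [h, hP.zero] at this
    exact hz0 this.symm
  have ha0 : dslope g 0 0 = 1 := by rw [dslope_same, hdg]
  have hane : ∀ z ∈ Ω, dslope g 0 z ≠ 0 := by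
    intro z hz
    by_cases hz0 : z = 0
    · rw [hz0, ha0]
      exact one_ne_zero
    · intro h
      exact hgne z hz hz0 (by rw [hga, h, mul_zero])
  set w : ℂ → ℂ := fun z => (deriv g z / dslope g 0 z) ^ 2 with hw
  have hwd : DifferentiableOn ℂ w Ω := (hgd'.div had hane).pow 2
  have hw0 : w 0 = 1 := by
    rw [hw]
    simp only [ha0, hdg]
    norm_num
  set k : ℝ → ℝ := fun s => -(deriv Real.smoothTransition (2 - s ^ 2 / r ^ 2) / r ^ 2) with hk
  have hk1 : ∀ s, 0 ≤ s → s ≤ r → k s = 0 := by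
    intro s hs0 hs
    have h2 : s ^ 2 / r ^ 2 ≤ 1 := by
      rw [div_le_one (by positivity)]
      exact pow_le_pow_left₀ hs0 hs 2
    rw [hk]
    simp only
    rw [T_one (by linarith)]
    simp
  have hk2 : ∀ s, 2 * r ≤ s → k s = 0 := by
    intro s hs
    have h2 : 2 ≤ s ^ 2 / r ^ 2 := by
      rw [le_div_iff₀ (by positivity)]
      nlinarith
    rw [hk]
    simp only
    rw [T_zero (by linarith)]
    simp
  have hkc : Continuous k := by
    have h1 : Continuous fun s : ℝ => deriv Real.smoothTransition (2 - s ^ 2 / r ^ 2) :=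
      T_cont.comp (by fun_prop)
    exact (h1.div_const _).neg
  set h : ℂ → ℂ := fun z => ((k ‖z‖ : ℝ) : ℂ) * w z with hh
  have hr' : (r : ℂ) ≠ 0 := by exact_mod_cast hr.ne'
  -- the integrand
  have hint : ∀ z ∈ Ω, dB (fun z => z * ((chi r z : ℝ) : ℂ)) z * qG g z = h z := by
    intro z hz
    rw [hDCH.1 r hr z]
    by_cases hz0 : z = 0
    · rw [hz0, hh]
      simp only [norm_zero]
      rw [hk1 0 le_rfl hr.le]
      simp
    · rw [hh, hk, hw, qG, hga z]
      have h3 := hane z hz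
      push_cast
      field_simp
  have hset : MeasurableSet {z : ℂ | r < ‖z‖ ∧ ‖z‖ < 2 * r} :=
    (measurableSet_lt measurable_const measurable_norm).inter
      (measurableSet_lt measurable_norm measurable_const)
  have hsub : {z : ℂ | r < ‖z‖ ∧ ‖z‖ < 2 * r} ⊆ Ω := fun z hz =>
    hΩ (by rw [mem_closedBall_zero_iff]; exact hz.2.le)
  have e1 : ∫ z in Ω, dB (fun z => z * ((chi r z : ℝ) : ℂ)) z * qG g z = ∫ z in Ω, h z :=
    setIntegral_congr_fun hP.op.measurableSet hint
  have e2 : ∫ z in Ω, h z = ∫ z in {z : ℂ | r < ‖z‖ ∧ ‖z‖ < 2 * r}, h z := by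
    refine setIntegral_eq_of_subset_of_forall_sdiff_eq_zero hP.op.measurableSet hsub ?_
    intro z hz
    have h2 : ‖z‖ ≤ r ∨ 2 * r ≤ ‖z‖ := by
      by_contra hcon
      push Not at hcon
      exact hz.2 hcon
    rw [hh]
    simp only
    rcases h2 with h2 | h2
    · rw [hk1 _ (norm_nonneg z) h2]
      simp
    · rw [hk2 _ h2]
      simp
  have hcont : ContinuousOn h {z : ℂ | r ≤ ‖z‖ ∧ ‖z‖ ≤ 2 * r} := by
    have h2 : {z : ℂ | r ≤ ‖z‖ ∧ ‖z‖ ≤ 2 * r} ⊆ Ω := fun z hz =>
      hΩ (by rw [mem_closedBall_zero_iff]; exact hz.2)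
    exact (continuous_ofReal.comp (hkc.comp continuous_norm)).continuousOn.mul
      (hwd.continuousOn.mono h2)
  rw [e1, e2, pol hr (by linarith) hcont]
  have e3 : ∫ s in r..(2 * r), ∫ θ in (-π)..π, (s : ℂ) * h ((s : ℂ) * exp (θ * I)) =
      ∫ s in r..(2 * r), (((2 * π * s) * k s : ℝ) : ℂ) := by
    refine intervalIntegral.integral_congr ?_
    intro s hs
    rw [uIcc_of_le (by linarith)] at hs
    have hs0 : 0 < s := lt_of_lt_of_le hr hs.1
    have e4 : ∀ θ : ℝ, (s : ℂ) * h ((s : ℂ) * exp (θ * I)) =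
        ((s : ℂ) * (k s : ℂ)) * w ((s : ℂ) * exp (θ * I)) := by
      intro θ
      rw [hh]
      simp only
      rw [norm_mul, Complex.norm_exp_ofReal_mul_I, mul_one, Complex.norm_real, Real.norm_eq_abs,
        abs_of_pos hs0, mul_assoc]
    show ∫ θ in (-π)..π, (s : ℂ) * h ((s : ℂ) * exp (θ * I)) = (((2 * π * s) * k s : ℝ) : ℂ)
    simp only [e4]
    rw [intervalIntegral.integral_const_mul,
      mean hwd hs0 ((closedBall_subset_closedBall hs.2).trans hΩ), hw0]
    push_cast
    ring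
  rw [e3, intervalIntegral.integral_ofReal]
  have e5 := radial hr
  rw [hk]
  simp only
  rw [e5]
  push_cast
  rfl

end

end Pool.Agent.Lib.MP250511.SB
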