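import Pool.Agent.Lib.MP_250511_an.SB.SpecX

/-!
# MP_250511_an, module RLX: a set on which a real function has a Lipschitz inverse lies on a Lipschitz curve
-/

set_option autoImplicit false

namespace Pool.Agent.Lib.MP250511.SB

open Complex Metric Set MeasureTheory Filter Topology
open scoped Real ENNReal NNReal ComplexConjugate ContDiff

theorem specRLX : SpecRLX := by
  intro T u K hT
  have hinj : InjOn u T := by
    intro p hp q hq h
    have h1 := hT p hp q hq
    rw [h, sub_self, abs_zero, mul_zero] at h1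
    exact sub_eq_zero.1 (norm_le_zero_iff.1 h1)
  have hinv : ∀ p ∈ T, Function.invFunOn u T (u p) = p := fun p hp =>
    hinj.leftInvOn_invFunOn hp
  have hlip : LipschitzOnWith (Real.toNNReal K) (Function.invFunOn u T) (u '' T) := by
    refine LipschitzOnWith.of_dist_le_mul ?_
    rintro _ ⟨p, hp, rfl⟩ _ ⟨q, hq, rfl⟩
    rw [hinv p hp, hinv q hq, dist_eq_norm, Real.dist_eq]
    refine (hT p hp q hq).trans ?_
    exact mul_le_mul_of_nonneg_right (Real.le_coe_toNNReal K) (abs_nonneg _)
  obtain ⟨γ, h1, h2⟩ := hlip.extend_finite_dimension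
  refine ⟨γ, ⟨_, h1⟩, fun p hp => ⟨u p, ?_⟩⟩
  rw [← h2 (mem_image_of_mem u hp), hinv p hp]

end Pool.Agent.Lib.MP250511.SB
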