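import Pool.Agent.Lib.MP_250511_an.SB.SpecE

/-!
# MP_250511_an, SB: module RMA (the Riesz representation on a closed set)
-/

set_option autoImplicit false

namespace Pool.Agent.Lib.MP250511.SB

open Complex Metric Set MeasureTheory Filter Topology
open scoped Real ENNReal ComplexConjugate ContDiff CompactlySupported

noncomputable section

namespace RMAM

/-- the positive linear map -/
def PL {X : Type*} [TopologicalSpace X] (Λ : C_c(X, ℝ) →ₗ[ℝ] ℝ)
    (hΛ : ∀ (h : C_c(X, ℝ)) (M : ℝ), 0 ≤ M → (∀ x, h x ≤ M) → Λ h ≤ M) : C_c(X, ℝ) →ₚ[ℝ] ℝ :=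
  PositiveLinearMap.mk₀ Λ (by
    intro h hh
    have h1 := hΛ (-h) 0 le_rfl (fun x => by
      have : 0 ≤ h x := hh x
      simpa using this)
    rw [map_neg] at h1
    linarith)

theorem mass {X : Type*} [TopologicalSpace X] [T2Space X] [LocallyCompactSpace X] [MeasurableSpace X]
    [BorelSpace X] (Λ : C_c(X, ℝ) →ₗ[ℝ] ℝ)
    (hΛ : ∀ (h : C_c(X, ℝ)) (M : ℝ), 0 ≤ M → (∀ x, h x ≤ M) → Λ h ≤ M) :
    RealRMK.rieszMeasure (PL Λ hΛ) univ ≤ 1 := by
  rw [isOpen_univ.measure_eq_iSup_isCompact]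
  refine iSup_le fun K => iSup_le fun _ => iSup_le fun hK => ?_
  obtain ⟨f, pf1, pf2, pf3⟩ :
      ∃ f : C_c(X, ℝ), Set.EqOn (⇑f) 1 K ∧ tsupport ⇑f ⊆ univ ∧ ∀ (x : X), f x ∈ Set.Icc 0 1 := by
    obtain ⟨f, hf1, hf2, hf3⟩ :=
      exists_continuousMap_one_of_isCompact_subset_isOpen hK isOpen_univ (subset_univ K)
    exact ⟨⟨f, hasCompactSupport_def.mpr hf2⟩, hf1, hf3⟩
  refine le_trans (RealRMK.rieszMeasure_le_of_eq_one (PL Λ hΛ) (fun x => (pf3 x).1) hK
    (fun x hx => pf1 hx)) ?_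
  have h1 : (PL Λ hΛ) f ≤ 1 := hΛ f 1 zero_le_one (fun x => (pf3 x).2)
  calc ENNReal.ofReal ((PL Λ hΛ) f) ≤ ENNReal.ofReal 1 := ENNReal.ofReal_le_ofReal h1
    _ = 1 := ENNReal.ofReal_one

end RMAM

open RMAM in
theorem specRMA : SpecRMA := by
  intro C hC Λ hΛ
  have : LocallyCompactSpace C := hC.isClosedEmbedding_subtypeVal.locallyCompactSpace
  have hm : MeasurableSet C := hC.measurableSet
  refine ⟨(RealRMK.rieszMeasure (PL Λ hΛ)).map Subtype.val, ?_, ?_, ?_⟩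
  · rw [Measure.map_apply measurable_subtype_coe MeasurableSet.univ, preimage_univ]
    exact mass Λ hΛ
  · rw [Measure.map_apply measurable_subtype_coe hm.compl]
    simp
  · intro h V hV
    rw [(MeasurableEmbedding.subtype_coe hm).integral_map]
    have h1 := RealRMK.integral_rieszMeasure (PL Λ hΛ) h
    simp only [← hV]
    exact h1

end

end Pool.Agent.Lib.MP250511.SB
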