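import Pool.Agent.Lib.MP_250511_an.SB.Spec
import Pool.Agent.Lib.MP_87ece0_an.Lower

/-!
# RMT: the Riemann mapping theorem in the form `Conf`

The first section is a copy of `Mathlib/Analysis/Complex/RiemannMapping.lean` (Yury Kudryashov, Apache 2.0), where the
two lemmas are private.
-/

set_option autoImplicit false

section
open Function Filter Metric Set
open scoped Pointwise Topology

namespace Pool.Agent.Lib.MP250511.SB.RMTM

/-- Proof of the Riemann Mapping Theorem, step 1.

If `U` is an open simply connected subset of `ℂ` that is not the whole `ℂ`,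
then there exists a function `f : ℂ → ℂ` such that

- `f` is injective;
- the image `f '' U` isn't dense in `ℂ`;
- `f` is complex differentiable on `U` with nonzero derivative.

E.g., one can choose `a ∉ U`, then take `f z` to be the square root of `z - a`.
-/
theorem exists_injective_not_dense_image_deriv_ne_zero {U : Set ℂ} (hUo : IsOpen U)
    (hUc : IsSimplyConnected U) (hU : U ≠ univ) :
    ∃ f : ℂ → ℂ, Injective f ∧ ¬Dense (f '' U) ∧ ∀ z ∈ U, deriv f z ≠ 0 := by
  -- WLOG, `0 ∉ U`, otherwise we choose `a ∉ U` and replace `U` with `-a +ᵥ U`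
  wlog hU₀ : 0 ∉ U
  · rw [ne_univ_iff_exists_notMem] at hU
    rcases hU with ⟨a, ha⟩
    specialize this (hUo.vadd (-a)) (by simpa) (by simp [hU])
      (by simpa [mem_vadd_set_iff_neg_vadd_mem])
    rcases this with ⟨f, hf_inj, hf_dense, hdf⟩
    refine ⟨f ∘ (-a + ·), hf_inj.comp (add_right_injective (-a)), ?_, fun z hz ↦ ?_⟩
    · simpa only [← image_vadd, Set.image_image] using! hf_dense
    · simpa [Function.comp_def, deriv_comp_const_add] using hdf (-a + z) (mapsTo_image _ _ hz)
  -- Choose a continuous branch of `√z` on `U`.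
  -- This is the function we're looking for.
  rcases Complex.exists_continuousOn_pow_eq hUc hUo continuousOn_id (by rwa [image_id]) two_ne_zero
    with ⟨f, hfc, hf_inv⟩
  replace hf_inv : LeftInverse (· ^ 2) f := hf_inv
  -- Then `0 ∉ f '' U`
  have hf₀ : ∀ z ∈ U, f z ≠ 0 := by
    intro z hz hfz
    simpa [hfz, (ne_of_mem_of_not_mem hz hU₀).symm] using hf_inv z
  -- Note that `f` is strictly differentiable at every point of `U`
  -- with derivative `1 / (2 * f z)`.
  have hdf : ∀ z ∈ U, HasStrictDerivAt f (2 * f z)⁻¹ z := by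
    intro z hz
    apply HasStrictDerivAt.of_local_left_inverse
    · exact hfc.continuousAt <| hUo.mem_nhds hz
    · simpa using hasStrictDerivAt_pow 2 (f z)
    · simpa using hf₀ z hz
    · exact .of_forall hf_inv
  -- `f` has a left inverse, so it's injective. Let's show that `f '' U` isn't dense in `ℂ`.
  refine ⟨f, hf_inv.injective, ?_, fun z hz ↦ ?_⟩
  · -- Take a point `x ∈ U`.
    simp only [Dense, not_forall, mem_closure_iff_frequently, not_frequently]
    rcases hUc.nonempty with ⟨x, hx⟩
    -- Show that `-f x` has a neighborhood disjoint with `f '' U`.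
    use -f x
    -- Since `f` is strictly differentiable at `x` with nonzero derivative,
    -- `f '' U` is a neighborhood of `f x`.
    have : f '' U ∈ 𝓝 (f x) := by
      rw [← (hdf x hx).map_nhds_eq (by simpa using hf₀ x hx)]
      exact Filter.image_mem_map <| hUo.mem_nhds hx
    -- Then `-f '' U` is a neighborhood of `-f x`.
    rw [nhds_neg, eventually_neg]
    -- This neighborhood has to be disjoint with `f '' U`,
    -- because `f a = - f b` implies `a = (f a) ^ 2 = (- f b) ^ 2 = b`, hence `f a = f b = 0`,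
    -- which is impossible.
    filter_upwards [this]
    rintro _ ⟨a, ha, rfl⟩ ⟨b, hb, hab⟩
    obtain rfl : a = b := by
      rw [← hf_inv b, hab]
      simp [hf_inv a]
    refine hf₀ a ha ?_
    linear_combination hab / 2
  · simpa [(hdf z hz).hasDerivAt.deriv] using hf₀ z hz

/-- Proof of the Riemann Mapping Theorem, step 2.

If `U` is an open simply connected subset of `ℂ` which is not the whole field,
then there exists a map `f : ℂ → ℂ` such that

- `f` maps `U` to the unit disk;
- `f` is injective on `U`;
- `f` is differentiable on `U` with nonzero derivative.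

Once the proof of the Riemann Mapping Theorem gets merged into Mathlib,
this lemma will be made private.
-/
lemma exists_mapsTo_unitBall_injOn_deriv_ne_zero {U : Set ℂ} (hUo : IsOpen U)
    (hUc : IsSimplyConnected U) (hU : U ≠ univ) :
    ∃ f : ℂ → ℂ, MapsTo f U (ball 0 1) ∧ InjOn f U ∧ ∀ z ∈ U, deriv f z ≠ 0 := by
  -- Take a continuous branch of the square root on `U`.
  -- It is injective, differentiable function on `U`, and `f '' U` isn't dense in `ℂ`.
  rcases exists_injective_not_dense_image_deriv_ne_zero hUo hUc hU with ⟨f, hf_inj, hfd, hdf⟩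
  -- Choose a closed ball `Metric.closedBall x ε`, `ε > 0`, that is disjoint with `f '' U`.
  obtain ⟨x, ε, hε₀, hε⟩ : ∃ (x : ℂ) (ε : ℝ), 0 < ε ∧ ∀ a ∈ U, ε < dist (f a) x := by
    simpa [Dense, mem_closure_iff_nhds_basis Metric.nhds_basis_closedBall] using hfd
  have hfx : ∀ z ∈ U, f z ≠ x := fun z hz ↦ by simpa using hε₀.trans (hε z hz)
  -- Then `z ↦ ε / (f z - x)` satisfies all the assertions.
  use fun z ↦ ε / (f z - x)
  refine ⟨?mapsTo, ?injOn, ?deriv⟩
  case mapsTo =>
    intro z hz
    rw [mem_ball_zero_iff, norm_div, Complex.norm_real, Real.norm_of_nonneg hε₀.le, div_lt_one₀]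
    · simpa [dist_eq_norm] using hε z hz
    · simpa [sub_eq_zero] using hfx z hz
  case injOn =>
    intro z hz w hw heq
    simpa [div_eq_mul_inv, hε₀.ne', hf_inj.eq_iff] using heq
  case deriv =>
    intro z hz
    have hdz : DifferentiableAt ℂ f z := differentiableAt_of_deriv_ne_zero (hdf z hz)
    rw [(hasDerivAt_const _ _).fun_div (hdz.hasDerivAt.sub_const _) _ |>.deriv] <;>
      simp [*, ne_of_gt, sub_eq_zero]

end Pool.Agent.Lib.MP250511.SB.RMTM

end

namespace Pool.Agent.Lib.MP250511.SB

open Complex Metric Set MeasureTheory Filter Topology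
open scoped Real ENNReal ComplexConjugate ContDiff

namespace RMTM

/-- the image of a simply connected open set under an injective holomorphic function -/
lemma image_sc {U : Set ℂ} (hU : IsOpen U) (hsc : IsSimplyConnected U) {k : ℂ → ℂ}
    (hk : DifferentiableOn ℂ k U) (hinj : InjOn k U) : IsSimplyConnected (k '' U) := by
  have hc : IsPreconnected U := hsc.isPathConnected.isConnected.isPreconnected
  have hl : LeftInvOn (Function.invFunOn k U) k U := hinj.leftInvOn_invFunOn
  have hcont : ContinuousOn (Function.invFunOn k U) (k '' U) := by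
    rintro _ ⟨a, ha, rfl⟩
    exact (MP87.LowerM.inv_cont hU hc hk hinj ha).continuousWithinAt
  have hm : ∀ w ∈ k '' U, Function.invFunOn k U w ∈ U := by
    rintro _ ⟨a, ha, rfl⟩
    rw [hl ha]
    exact ha
  let e : U ≃ₜ (k '' U : Set ℂ) :=
    { toFun := fun u => ⟨k u, mem_image_of_mem k u.2⟩
      invFun := fun w => ⟨Function.invFunOn k U w, hm w w.2⟩
      left_inv := fun u => Subtype.ext (hl u.2)
      right_inv := by
        rintro ⟨_, a, ha, rfl⟩
        apply Subtype.ext
        show k (Function.invFunOn k U (k a)) = k a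
        rw [hl ha]
      continuous_toFun := by
        apply Continuous.subtype_mk
        exact continuousOn_iff_continuous_domRestrict.1 hk.continuousOn
      continuous_invFun := by
        apply Continuous.subtype_mk
        exact continuousOn_iff_continuous_domRestrict.1 hcont }
  exact e.toHomotopyEquiv.simplyConnectedSpace_iff.1 hsc

end RMTM

theorem specRMT : SpecRMT := by
  intro U hU hsc hne h0
  have hc : IsPreconnected U := hsc.isPathConnected.isConnected.isPreconnected
  obtain ⟨h, hmaps, hinj, hd⟩ :=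
    RMTM.exists_mapsTo_unitBall_injOn_deriv_ne_zero hU hsc hne
  have hdiff : DifferentiableOn ℂ h U := fun z hz =>
    (differentiableAt_of_deriv_ne_zero (hd z hz)).differentiableWithinAt
  obtain ⟨k, hk⟩ : ∃ k : ℂ → ℂ, k = fun z => h z - h 0 := ⟨_, rfl⟩
  have hkd : DifferentiableOn ℂ k U := by
    rw [hk]
    exact hdiff.sub_const _
  have hkinj : InjOn k U := by
    intro x hx y hy hxy
    rw [hk] at hxy
    exact hinj hx hy (sub_left_injective hxy)
  have hD'o : IsOpen (k '' U) := MP87.LowerM.open_image hU hc hkd hkinj subset_rfl hU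
  have hD'b : Bornology.IsBounded (k '' U) := by
    refine (isBounded_ball (x := (0 : ℂ)) (r := 2)).subset ?_
    rintro _ ⟨z, hz, rfl⟩
    have h1 := hmaps hz
    have h2 := hmaps h0
    rw [mem_ball_zero_iff] at h1 h2 ⊢
    rw [hk]
    calc ‖h z - h 0‖ ≤ ‖h z‖ + ‖h 0‖ := norm_sub_le _ _
      _ < 2 := by linarith
  have hD'0 : (0 : ℂ) ∈ k '' U := ⟨0, h0, by rw [hk]; simp⟩
  obtain ⟨F₁, hF₁d, hF₁b, hF₁0⟩ :=
    MP87.RMT.main hD'o hD'b hD'0 (RMTM.image_sc hU hsc hkd hkinj)
  obtain ⟨P, hP⟩ : ∃ P : ℂ → ℂ, P = fun z => F₁ (k z) := ⟨_, rfl⟩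
  have hPd : DifferentiableOn ℂ P U := by
    rw [hP]
    exact hF₁d.comp hkd (mapsTo_image k U)
  have hPinj : InjOn P U := by
    intro x hx y hy hxy
    rw [hP] at hxy
    exact hkinj hx hy (hF₁b.injOn (mem_image_of_mem k hx) (mem_image_of_mem k hy) hxy)
  have hPim : P '' U = ball 0 1 := by
    have : P '' U = F₁ '' (k '' U) := by
      rw [hP, image_image]
    rw [this, hF₁b.image_eq]
  have hP0 : P 0 = 0 := by
    rw [hP, hk]
    simp [hF₁0]
  have hl : LeftInvOn (Function.invFunOn P U) P U := hPinj.leftInvOn_invFunOn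
  refine ⟨Function.invFunOn P U, ?_, ?_, ?_, ?_⟩
  · have hdiffF : DifferentiableOn ℂ (Function.invFunOn P U) (ball 0 1) := by
      rw [← hPim]
      rintro _ ⟨z, hz, rfl⟩
      have ho : IsOpen (P '' U) := by
        rw [hPim]
        exact isOpen_ball
      have h1 : ∀ᶠ y in 𝓝 (P z), P (Function.invFunOn P U y) = y := by
        filter_upwards [ho.mem_nhds ⟨z, hz, rfl⟩] with y hy
        obtain ⟨x, hx, rfl⟩ := hy
        rw [hl hx]
      have hdz := (hPd.differentiableAt (hU.mem_nhds hz)).hasDerivAt
      have h2 := HasDerivAt.of_local_left_inverse (f := P) (g := Function.invFunOn P U)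
        (a := P z) (f' := deriv P z) (MP87.LowerM.inv_cont hU hc hPd hPinj hz)
        (by rw [hl hz]; exact hdz) (MP87.LowerM.deriv_ne_of_inj hU hc hPd hPinj hz) h1
      exact h2.differentiableAt.differentiableWithinAt
    exact hdiffF.analyticOnNhd isOpen_ball
  · rw [← hPim]
    rintro _ ⟨z, hz, rfl⟩ _ ⟨z', hz', rfl⟩ hzz
    rw [hl hz, hl hz'] at hzz
    rw [hzz]
  · rw [← hPim]
    ext z
    constructor
    · rintro ⟨_, ⟨x, hx, rfl⟩, rfl⟩
      rw [hl hx]
      exact hx
    · intro hz
      exact ⟨P z, ⟨z, hz, rfl⟩, hl hz⟩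
  · have := hl h0
    rwa [hP0] at this

end Pool.Agent.Lib.MP250511.SB
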