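import Pool.Agent.Lib.MP_250511_an.SB.Spec

/-!
# MP_250511_an, SB: module ROT (rotations)
-/

set_option autoImplicit false

namespace Pool.Agent.Lib.MP250511.SB

open Complex Metric Set MeasureTheory Filter Topology
open scoped Real ENNReal ComplexConjugate ContDiff

namespace ROTM

theorem ce {e : ℂ} (he : ‖e‖ = 1) : conj e * e = 1 := by
  rw [mul_comm, Complex.mul_conj, Complex.normSq_eq_norm_sq, he]
  norm_num

theorem ec {e : ℂ} (he : ‖e‖ = 1) : e * conj e = 1 := by
  rw [mul_comm]
  exact ce he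

theorem ne0 {e : ℂ} (he : ‖e‖ = 1) : e ≠ 0 := by
  intro h
  rw [h, norm_zero] at he
  exact zero_ne_one he

theorem cne0 {e : ℂ} (he : ‖e‖ = 1) : conj e ≠ 0 := by
  intro h
  have := ce he
  rw [h, zero_mul] at this
  exact zero_ne_one this

theorem nc {e : ℂ} (he : ‖e‖ = 1) (z : ℂ) : ‖conj e * z‖ = ‖z‖ := by
  rw [norm_mul, Complex.norm_conj, he, one_mul]

theorem ne {e : ℂ} (he : ‖e‖ = 1) (z : ℂ) : ‖e * z‖ = ‖z‖ := by
  rw [norm_mul, he, one_mul]

theorem mem_ball {e : ℂ} (he : ‖e‖ = 1) {w : ℂ} (hw : w ∈ ball (0 : ℂ) 1) :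
    e * w ∈ ball (0 : ℂ) 1 := by
  rw [mem_ball_zero_iff] at hw ⊢
  rwa [ne he]

/-- the derivative of the rotated function -/
theorem hd {e : ℂ} (he : ‖e‖ = 1) {h : ℂ → ℂ} {w : ℂ} (ha : DifferentiableAt ℂ h (e * w)) :
    deriv (fun w => conj e * h (e * w)) w = deriv h (e * w) := by
  have h1 : HasDerivAt (fun w : ℂ => e * w) e w := by
    simpa using (hasDerivAt_id w).const_mul e
  have h2 : HasDerivAt (fun w => h (e * w)) (deriv h (e * w) * e) w :=
    ha.hasDerivAt.comp w h1
  have h3 := (h2.const_mul (conj e)).deriv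
  rw [h3]
  calc conj e * (deriv h (e * w) * e) = deriv h (e * w) * (conj e * e) := by ring
    _ = deriv h (e * w) := by rw [ce he, mul_one]

theorem ana {e : ℂ} {h : ℂ → ℂ} {s t : Set ℂ} (ha : AnalyticOnNhd ℂ h s)
    (hst : ∀ w ∈ t, e * w ∈ s) : AnalyticOnNhd ℂ (fun w => conj e * h (e * w)) t := by
  intro w hw
  have h1 : AnalyticAt ℂ (fun w : ℂ => e * w) w := analyticAt_const.mul analyticAt_id
  have h2 : AnalyticAt ℂ (fun w => h (e * w)) w := (ha (e * w) (hst w hw)).comp h1
  exact analyticAt_const.mul h2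

end ROTM

open ROTM in
theorem specROT : SpecROT := by
  intro f g Ω ρ h e he
  have hce := ce he
  have hec := ec he
  have hF : ∀ w, e * (conj e * f (e * w)) = f (e * w) := fun w => by
    rw [← mul_assoc, hec, one_mul]
  have hG : ∀ z, e * (conj e * g (e * z)) = g (e * z) := fun z => by
    rw [← mul_assoc, hec, one_mul]
  have hcancel : ∀ z, conj e * (e * z) = z := fun z => by
    rw [← mul_assoc, hce, one_mul]
  have hcancel' : ∀ z, e * (conj e * z) = z := fun z => by
    rw [← mul_assoc, hec, one_mul]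
  have hdF : ∀ w ∈ ball (0 : ℂ) 1, deriv (fun w => conj e * f (e * w)) w = deriv f (e * w) :=
    fun w hw => hd he (h.an _ (mem_ball he hw)).differentiableAt
  have hdG : ∀ z, e * z ∈ Ω → deriv (fun z => conj e * g (e * z)) z = deriv g (e * z) :=
    fun z hz => hd he (h.gan _ hz).differentiableAt
  refine { an := ?_, inj := ?_, im := ?_, zero := ?_, op := ?_, dF := ?_, gan := ?_, gm := ?_,
           FG := ?_, GF := ?_, dG := ?_, dGF := ?_, bd := ?_, one := ?_, star := ?_, pos := h.pos,
           inr := ?_, ext := h.ext }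
  · exact ana h.an fun w hw => mem_ball he hw
  · intro w hw w' hw' hww
    have h1 : f (e * w) = f (e * w') := mul_left_cancel₀ (cne0 he) hww
    exact mul_left_cancel₀ (ne0 he) (h.inj (mem_ball he hw) (mem_ball he hw') h1)
  · ext z
    simp only [mem_image, mem_ofPred_eq]
    constructor
    · rintro ⟨w, hw, rfl⟩
      show e * (conj e * f (e * w)) ∈ Ω
      rw [hF, ← h.im]
      exact mem_image_of_mem f (mem_ball he hw)
    · intro hz
      have hz' : e * z ∈ f '' ball 0 1 := by
        rw [h.im]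
        exact hz
      obtain ⟨u, hu, huz⟩ := hz'
      refine ⟨conj e * u, ?_, ?_⟩
      · rw [mem_ball_zero_iff] at hu ⊢
        rwa [nc he]
      · rw [hcancel', huz, hcancel]
  · show conj e * f (e * 0) = 0
    rw [mul_zero, h.zero, mul_zero]
  · exact h.op.preimage (continuous_const.mul continuous_id)
  · intro w hw
    rw [hdF w hw]
    exact h.dF _ (mem_ball he hw)
  · exact ana h.gan fun z hz => hz
  · intro z hz
    show ‖conj e * g (e * z)‖ < 1
    rw [nc he]
    exact h.gm _ hz
  · intro z hz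
    show conj e * f (e * (conj e * g (e * z))) = z
    rw [hG, h.FG _ hz, hcancel]
  · intro w hw
    show conj e * g (e * (conj e * f (e * w))) = w
    rw [hF, h.GF _ (mem_ball he hw), hcancel]
  · intro z hz
    rw [hdG z hz]
    exact h.dG _ hz
  · intro w hw
    have hmem : e * (conj e * f (e * w)) ∈ Ω := by
      rw [hF, ← h.im]
      exact mem_image_of_mem f (mem_ball he hw)
    show deriv (fun z => conj e * g (e * z)) (conj e * f (e * w)) *
      deriv (fun w => conj e * f (e * w)) w = 1
    rw [hdG _ hmem, hdF w hw, hF]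
    exact h.dGF _ (mem_ball he hw)
  · intro z₀ hz₀ s hs
    obtain ⟨δ, hδ, hb⟩ := h.bd (e * z₀) hz₀ s hs
    refine ⟨δ, hδ, fun z hz hd => ?_⟩
    show s < ‖conj e * g (e * z)‖
    rw [nc he]
    refine hb _ hz ?_
    rw [dist_eq_norm, ← mul_sub, ROTM.ne he, ← dist_eq_norm]
    exact hd
  · rw [hdF 0 (mem_ball_self one_pos), mul_zero]
    exact h.one
  · intro z hz a b ha hb hab
    have h1 := h.star (show e * z ∈ Ω from hz) ha hb hab
    show e * (a • (0 : ℂ) + b • z) ∈ Ω
    have h2 : e * (a • (0 : ℂ) + b • z) = a • (0 : ℂ) + b • (e * z) := by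
      simp only [Complex.real_smul, mul_zero, zero_add]
      ring
    rw [h2]
    exact h1
  · intro c r hc
    refine h.inr (e * c) r fun z hz => ?_
    have h1 : conj e * z ∈ ball c r := by
      rw [Metric.mem_ball, dist_eq_norm] at hz ⊢
      have h2 : z - e * c = e * (conj e * z - c) := by
        rw [mul_sub, hcancel']
      rwa [h2, ROTM.ne he] at hz
    have h3 : e * (conj e * z) ∈ Ω := hc h1
    rwa [hcancel'] at h3

end Pool.Agent.Lib.MP250511.SB
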