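import Pool.Agent.Lib.MP_250511_an.SB.SpecX
import Pool.Agent.Lib.MP_250511_an.INV

/-!
# RST : a star of analytic arcs is rectifiable
-/

set_option autoImplicit false

namespace Pool.Agent.Lib.MP250511.SB

open Complex Metric Set MeasureTheory Filter Topology
open scoped Real ENNReal NNReal ComplexConjugate ContDiff

noncomputable section

namespace RSTM

lemma rect_mono {E E' : Set ℂ} (h : E' ⊆ E) (hE : Rect E) : Rect E' := by
  obtain ⟨γ, h1, h2⟩ := hE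
  exact ⟨γ, h1, h.trans h2⟩

lemma rect_of_curve {E : Set ℂ} (γ : ℝ → ℂ) (hL : ∃ L : ℝ≥0, LipschitzWith L γ)
    (h : E ⊆ range γ) : Rect E :=
  ⟨fun _ => γ, fun _ => hL, fun z hz => mem_iUnion.2 ⟨0, h hz⟩⟩

/-- the lower bound for the difference quotients -/
lemma lower {ξ : ℂ → ℂ} {z₀ : ℂ} {δ : ℝ} (hδ : 0 < δ) (han : AnalyticOnNhd ℂ ξ (ball z₀ δ))
    (hinj : InjOn ξ (ball z₀ δ)) : ∃ δ' > 0, δ' ≤ δ ∧ ∃ c > 0, ∀ z ∈ ball z₀ δ', ∀ z' ∈ ball z₀ δ',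
      c * ‖z - z'‖ ≤ ‖ξ z - ξ z'‖ := by
  have hz₀ : z₀ ∈ ball z₀ δ := mem_ball_self hδ
  have hm : deriv ξ z₀ ≠ 0 := INVM.deriv_ne_of_inj isOpen_ball (convex_ball z₀ δ).isPreconnected
    han.differentiableOn hinj hz₀
  have hm' : 0 < ‖deriv ξ z₀‖ := norm_pos_iff.2 hm
  have hs : HasStrictDerivAt ξ (deriv ξ z₀) z₀ := (han z₀ hz₀).hasStrictDerivAt
  have ho := hs.hasStrictFDerivAt.isLittleO.def (half_pos hm')
  obtain ⟨ε, hε, hball⟩ := Metric.eventually_nhds_iff_ball.1 ho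
  refine ⟨min ε δ, lt_min hε hδ, min_le_right _ _, ‖deriv ξ z₀‖ / 2, half_pos hm', ?_⟩
  intro z hz z' hz'
  have h1 : ((z, z') : ℂ × ℂ) ∈ ball (z₀, z₀) ε := by
    rw [← ball_prod_same]
    exact ⟨ball_subset_ball (min_le_left _ _) hz, ball_subset_ball (min_le_left _ _) hz'⟩
  have h2 := hball (z, z') h1
  have h3 : ‖ξ z - ξ z' - (z - z') * deriv ξ z₀‖ ≤ ‖deriv ξ z₀‖ / 2 * ‖z - z'‖ := by
    simpa using h2
  have h4 : ‖(z - z') * deriv ξ z₀‖ ≤ ‖ξ z - ξ z'‖ + ‖ξ z - ξ z' - (z - z') * deriv ξ z₀‖ := by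
    have h5 : (z - z') * deriv ξ z₀ = (ξ z - ξ z') - (ξ z - ξ z' - (z - z') * deriv ξ z₀) := by ring
    calc ‖(z - z') * deriv ξ z₀‖ = ‖(ξ z - ξ z') - (ξ z - ξ z' - (z - z') * deriv ξ z₀)‖ := by
          rw [← h5]
      _ ≤ _ := norm_sub_le _ _
  rw [norm_mul] at h4
  nlinarith

/-- a complex number with real part `- |v|` is `- |v|` -/
lemma eq_neg_norm {v : ℂ} (h : v.re = - ‖v‖) : v = -(‖v‖ : ℂ) := by
  have h1 : ‖v‖ ^ 2 = v.re ^ 2 + v.im ^ 2 := by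
    rw [← Complex.normSq_eq_norm_sq, Complex.normSq_apply]
    ring
  have h2 : v.im = 0 := by
    have h3 : v.im ^ 2 = 0 := by
      rw [h] at h1
      nlinarith
    exact pow_eq_zero_iff (two_ne_zero) |>.1 h3
  apply Complex.ext
  · rw [Complex.neg_re, Complex.ofReal_re]
    exact h
  · rw [Complex.neg_im, Complex.ofReal_im, neg_zero]
    exact h2

lemma fin_roots (N : ℕ) (hN : 1 ≤ N) : {om : ℂ | om ^ N = -1}.Finite := by
  refine (Polynomial.nthRoots N (-1 : ℂ)).toFinset.finite_toSet.subset ?_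
  intro om hom
  rw [Finset.mem_coe, Multiset.mem_toFinset, Polynomial.mem_nthRoots (by omega)]
  exact hom

end RSTM

open RSTM in
theorem specRST (hRLX : SpecRLX) (hRCU : SpecRCU) : SpecRST := by
  intro ξ z₀ δ N hδ hN han hinj _
  obtain ⟨δ', hδ', hle, c, hc, hlow⟩ := lower hδ han hinj
  refine ⟨δ', hδ', hle, ?_⟩
  have hcount : Countable {om : ℂ // om ^ N = -1} := (fin_roots N hN).countable.to_subtype
  have hR : ∀ om : {om : ℂ // om ^ N = -1},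
      Rect {z | z ∈ ball z₀ δ' ∧ ξ z = (‖ξ z‖ : ℂ) * om.1} := by
    intro om
    have hom : ‖om.1‖ = 1 := by
      have h1 : ‖om.1‖ ^ N = 1 := by
        rw [← norm_pow, om.2, norm_neg, norm_one]
      exact (pow_eq_one_iff_of_nonneg (norm_nonneg _) (by omega)).1 h1
    obtain ⟨γ, hL, hγ⟩ := hRLX {z | z ∈ ball z₀ δ' ∧ ξ z = (‖ξ z‖ : ℂ) * om.1} (fun z => ‖ξ z‖) (1 / c)
      (by
        rintro p ⟨hp, hp'⟩ q ⟨hq, hq'⟩
        have h1 := hlow p hp q hq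
        have h2 : ‖ξ p - ξ q‖ = |‖ξ p‖ - ‖ξ q‖| := by
          have h3 : ξ p - ξ q = ((‖ξ p‖ - ‖ξ q‖ : ℝ) : ℂ) * om.1 := by
            rw [Complex.ofReal_sub, sub_mul, ← hp', ← hq']
          rw [h3, norm_mul, hom, mul_one, Complex.norm_real, Real.norm_eq_abs]
        rw [h2] at h1
        rw [one_div, inv_mul_eq_div, le_div_iff₀ hc, mul_comm]
        exact h1)
    exact rect_of_curve γ hL hγ
  refine rect_mono ?_ (hRCU.1 {om : ℂ // om ^ N = -1} _ hR)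
  rintro z ⟨hz, hzb⟩
  have hz' : (ξ z ^ N).re = - ‖ξ z ^ N‖ := by
    rw [norm_pow]
    exact hz
  have hz2 : ξ z ^ N = -((‖ξ z‖ : ℂ)) ^ N := by
    have h1 := eq_neg_norm hz'
    rw [norm_pow, Complex.ofReal_pow] at h1
    exact h1
  rw [mem_iUnion]
  by_cases h0 : ξ z = 0
  · obtain ⟨om, hom⟩ := IsAlgClosed.exists_pow_nat_eq (-1 : ℂ) (show 0 < N by omega)
    refine ⟨⟨om, hom⟩, hzb, ?_⟩
    rw [h0, norm_zero, Complex.ofReal_zero, zero_mul]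
  · have hn : (‖ξ z‖ : ℂ) ≠ 0 := by
      exact_mod_cast (norm_pos_iff.2 h0).ne'
    refine ⟨⟨ξ z / (‖ξ z‖ : ℂ), ?_⟩, hzb, ?_⟩
    · rw [div_pow, hz2, neg_div, div_self (pow_ne_zero N hn)]
    · show ξ z = (‖ξ z‖ : ℂ) * (ξ z / (‖ξ z‖ : ℂ))
      rw [mul_div_cancel₀ _ hn]

end

end Pool.Agent.Lib.MP250511.SB
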