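import Pool.Agent.Lib.MP_250511_an.SB.SpecX

/-!
# MP_250511_an, module RTC: the touched points lie on countably many Lipschitz curves
-/

set_option autoImplicit false

namespace Pool.Agent.Lib.MP250511.SB

open Complex Metric Set MeasureTheory Filter Topology
open scoped Real ENNReal NNReal ComplexConjugate ContDiff

noncomputable section

namespace RTCM

theorem nsq (z : ℂ) : ‖z‖ ^ 2 = z.re * z.re + z.im * z.im := by
  rw [Complex.sq_norm, Complex.normSq_apply]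

theorem key {ρ : ℝ} (hρ : 0 < ρ) {n h d : ℂ} (hn : ‖n‖ = 1) (hh : ‖h‖ ≤ ρ / 4)
    (hd : ‖d - n‖ ≤ 1 / 8) (h1 : ρ ≤ ‖h - ρ * n‖) : (conj d * h).re ≤ ‖h‖ / 4 := by
  have e : ‖h - ρ * n‖ ^ 2 = ‖h‖ ^ 2 - 2 * ρ * (conj n * h).re + ρ ^ 2 * ‖n‖ ^ 2 := by
    rw [nsq, nsq, nsq]
    simp only [Complex.sub_re, Complex.sub_im, Complex.mul_re, Complex.mul_im, Complex.conj_re,
      Complex.conj_im, Complex.ofReal_re, Complex.ofReal_im]
    ring
  have h2 : ρ ^ 2 ≤ ‖h - ρ * n‖ ^ 2 := pow_le_pow_left₀ hρ.le h1 2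
  rw [e, hn] at h2
  have h3 : 2 * ρ * (conj n * h).re ≤ ‖h‖ ^ 2 := by linarith
  have h4 : ‖h‖ ^ 2 ≤ ρ / 4 * ‖h‖ := by nlinarith [norm_nonneg h]
  have h5 : (conj n * h).re ≤ ‖h‖ / 8 := by
    have : ρ * (2 * (conj n * h).re) ≤ ρ * (‖h‖ / 4) := by linarith
    have := le_of_mul_le_mul_left this hρ
    linarith
  have h6 : (conj (d - n) * h).re ≤ ‖h‖ / 8 := by
    calc (conj (d - n) * h).re ≤ ‖conj (d - n) * h‖ := Complex.re_le_norm _
      _ = ‖d - n‖ * ‖h‖ := by rw [norm_mul, RCLike.norm_conj]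
      _ ≤ 1 / 8 * ‖h‖ := mul_le_mul_of_nonneg_right hd (norm_nonneg h)
      _ = ‖h‖ / 8 := by ring
  have h7 : (conj d * h).re = (conj n * h).re + (conj (d - n) * h).re := by
    rw [← Complex.add_re, map_sub]
    congr 1
    ring
  rw [h7]
  linarith

end RTCM

open RTCM in
theorem specRTC (hRLX : SpecRLX) (hRCU : SpecRCU) : SpecRTC := by
  intro Ω ρ hρ
  have hch : ∀ p : ℂ, ∃ c : ℂ, p ∈ KK Ω ρ → ball c ρ ⊆ Ω ∧ dist p c = ρ := by
    intro p
    by_cases hp : p ∈ KK Ω ρ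
    · obtain ⟨c, hc⟩ := hp.2
      exact ⟨c, fun _ => hc⟩
    · exact ⟨0, fun h => absurd h hp⟩
  choose c hc using hch
  let n : ℂ → ℂ := fun p => (c p - p) / ρ
  have hρ0 : (ρ : ℂ) ≠ 0 := by exact_mod_cast hρ.ne'
  have hnρ : ∀ p, (ρ : ℂ) * n p = c p - p := fun p => mul_div_cancel₀ _ hρ0
  have hn : ∀ p ∈ KK Ω ρ, ‖n p‖ = 1 := by
    intro p hp
    have h1 := (hc p hp).2
    rw [dist_comm, dist_eq_norm] at h1
    show ‖(c p - p) / ρ‖ = 1
    rw [norm_div, h1, Complex.norm_real, Real.norm_of_nonneg hρ.le, div_self hρ.ne']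
  -- the pieces
  let D : ℕ → ℂ := TopologicalSpace.denseSeq ℂ
  have hD : DenseRange D := TopologicalSpace.denseRange_denseSeq ℂ
  let T : ℕ × ℕ → Set ℂ := fun i => {p | p ∈ KK Ω ρ ∧ ‖p - D i.2‖ ≤ ρ / 8 ∧ ‖D i.1 - n p‖ ≤ 1 / 8}
  have hcov : KK Ω ρ ⊆ ⋃ i, T i := by
    intro p hp
    obtain ⟨j, hj⟩ := hD.exists_dist_lt p (show (0 : ℝ) < ρ / 8 by positivity)
    obtain ⟨i, hi⟩ := hD.exists_dist_lt (n p) (show (0 : ℝ) < 1 / 8 by norm_num)
    rw [dist_eq_norm] at hj hi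
    rw [mem_iUnion]
    exact ⟨(i, j), hp, hj.le, by rw [norm_sub_rev]; exact hi.le⟩
  have hT : ∀ i, Rect (T i) := by
    intro i
    obtain ⟨γ, ⟨L, hL⟩, hγ⟩ := hRLX (T i) (fun p => (conj (Complex.I * D i.1) * p).re) 2 (by
      intro p hp q hq
      obtain ⟨p1, p2, p3⟩ := hp
      obtain ⟨q1, q2, q3⟩ := hq
      have hpq : ‖p - q‖ ≤ ρ / 4 := by
        calc ‖p - q‖ = ‖(p - D i.2) - (q - D i.2)‖ := by congr 1; ring
          _ ≤ ‖p - D i.2‖ + ‖q - D i.2‖ := norm_sub_le _ _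
          _ ≤ ρ / 4 := by linarith
      have hout : ∀ a b : ℂ, a ∈ KK Ω ρ → b ∈ KK Ω ρ → ρ ≤ ‖(b - a) - ρ * n a‖ := by
        intro a b ha hb
        have h1 : b ∉ ball (c a) ρ := fun h => hb.1 ((hc a ha).1 h)
        rw [mem_ball, not_lt, dist_eq_norm] at h1
        have h2 : (b - a) - ρ * n a = b - c a := by rw [hnρ]; ring
        rw [h2]
        exact h1
      have k1 : (conj (D i.1) * (p - q)).re ≤ ‖p - q‖ / 4 :=
        key hρ (hn q q1) hpq q3 (hout q p q1 p1)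
      have k2 : (conj (D i.1) * (q - p)).re ≤ ‖q - p‖ / 4 :=
        key hρ (hn p p1) (by rw [norm_sub_rev]; exact hpq) p3 (hout p q p1 q1)
      have k3 : (conj (D i.1) * (q - p)).re = - (conj (D i.1) * (p - q)).re := by
        rw [← Complex.neg_re]
        congr 1
        ring
      rw [k3, norm_sub_rev] at k2
      -- the norm of `D i.1`
      have k4 : 7 / 8 ≤ ‖D i.1‖ := by
        have h1 : ‖n p‖ ≤ ‖D i.1‖ + ‖D i.1 - n p‖ := by
          calc ‖n p‖ = ‖D i.1 - (D i.1 - n p)‖ := by congr 1; ring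
            _ ≤ _ := norm_sub_le _ _
        rw [hn p p1] at h1
        linarith
      have k5 : (conj (D i.1) * (p - q)).re ^ 2 + (conj (Complex.I * D i.1) * (p - q)).re ^ 2 =
          ‖D i.1‖ ^ 2 * ‖p - q‖ ^ 2 := by
        rw [nsq, nsq]
        simp only [map_mul, Complex.conj_I, Complex.mul_re, Complex.mul_im, Complex.conj_re,
          Complex.conj_im, Complex.neg_re, Complex.neg_im, Complex.I_re, Complex.I_im]
        ring
      have k6 : (conj (Complex.I * D i.1) * p).re - (conj (Complex.I * D i.1) * q).re =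
          (conj (Complex.I * D i.1) * (p - q)).re := by
        rw [← Complex.sub_re, mul_sub]
      rw [k6]
      have k7 : (conj (D i.1) * (p - q)).re ^ 2 ≤ (‖p - q‖ / 4) ^ 2 := by
        rw [sq_le_sq, abs_of_nonneg (by positivity : (0 : ℝ) ≤ ‖p - q‖ / 4), abs_le]
        constructor <;> linarith
      have k8 : (7 / 8 : ℝ) ^ 2 * ‖p - q‖ ^ 2 ≤ ‖D i.1‖ ^ 2 * ‖p - q‖ ^ 2 :=
        mul_le_mul_of_nonneg_right (pow_le_pow_left₀ (by norm_num) k4 2) (by positivity)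
      have k9 : ‖p - q‖ ^ 2 ≤ (2 * |(conj (Complex.I * D i.1) * (p - q)).re|) ^ 2 := by
        rw [mul_pow, sq_abs]
        nlinarith [sq_nonneg ‖p - q‖]
      exact (le_abs_self _).trans (abs_le_of_sq_le_sq k9 (by positivity)))
    exact ⟨fun _ => γ, fun _ => ⟨L, hL⟩, fun z hz => mem_iUnion.2 ⟨0, hγ hz⟩⟩
  obtain ⟨γ, g1, g2⟩ := hRCU.1 (ℕ × ℕ) T hT
  exact ⟨γ, g1, hcov.trans g2⟩

end

end Pool.Agent.Lib.MP250511.SB
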