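import Pool.Agent.Lib.MP_250511_an.SB.Spec

/-!
MP_250511_an, module STC of the hive SB: star-convex sets are simply connected.
-/

set_option autoImplicit false

namespace Pool.Agent.Lib.MP250511.SB

theorem specSTC : SpecSTC := by
  intro U h h0
  have hc : ContractibleSpace U := h.contractibleSpace ⟨0, h0⟩
  change SimplyConnectedSpace U
  infer_instance

end Pool.Agent.Lib.MP250511.SB
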