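import Pool.Agent.Lib.MP_250511_an.SB.SpecV

/-!
# STR : the structure of the complement near a point without other contact points
-/

set_option autoImplicit false

namespace Pool.Agent.Lib.MP250511.SB

open Complex Metric Set MeasureTheory Filter Topology
open scoped Real ENNReal ComplexConjugate ContDiff

noncomputable section

namespace STRM

/-- `Ω` meets every ball, since its complement is a null set -/
lemma meets (Ω : Set ℂ) (hvol : volume Ωᶜ = 0) (z₀ : ℂ) (r : ℝ) (hr : 0 < r) :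
    ∃ z ∈ ball z₀ r, z ∈ Ω := by
  by_contra hno
  push Not at hno
  have h1 : ball z₀ r ⊆ Ωᶜ := fun z hz => hno z hz
  have h2 : volume (ball z₀ r) = 0 := measure_mono_null h1 hvol
  exact (measure_ball_pos volume z₀ hr).ne' h2

lemma zeroMem (f g : ℂ → ℂ) (Ω : Set ℂ) (hP : Pair f g Ω) : (0 : ℂ) ∈ Ω := by
  rw [← hP.im]
  exact ⟨0, mem_ball_self one_pos, hP.zero⟩

lemma qGne (f g : ℂ → ℂ) (Ω : Set ℂ) (hP : Pair f g Ω) (z : ℂ) (hz : z ∈ Ω) (h0 : z ≠ 0) :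
    qG g z ≠ 0 := by
  have h1 : g z ≠ 0 := by
    intro h
    have h2 := hP.FG z hz
    rw [h, hP.zero] at h2
    exact h0 h2.symm
  unfold qG
  exact pow_ne_zero 2 (div_ne_zero (hP.dG z hz) h1)

end STRM

open STRM in
theorem specSTR (hNFC : SpecNFC) (hNFT : SpecNFT) (hISO : SpecISO) : SpecSTR := by
  intro f g Ω ρ ν hE hvol hfin hν heq z₀ δ hδ hz₀ hiso
  have hP : Pair f g Ω := hE.toPair
  have h0 : (0 : ℂ) ∈ Ω := zeroMem f g Ω hP
  have hz0 : z₀ ≠ 0 := fun h => hz₀ (h ▸ h0)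
  have hpos : 0 < ‖z₀‖ := norm_pos_iff.2 hz0
  have hδ₁ : 0 < min δ ‖z₀‖ := lt_min hδ hpos
  have hsub : ball z₀ (min δ ‖z₀‖) ⊆ ball z₀ δ := ball_subset_ball (min_le_left _ _)
  have h0b : (0 : ℂ) ∉ ball z₀ (min δ ‖z₀‖) := by
    intro h
    have h1 := mem_ball.1 h
    rw [dist_zero_left] at h1
    exact absurd (h1.trans_le (min_le_right _ _)) (lt_irrefl _)
  obtain ⟨F, h₀, han, hq, hF⟩ := hISO g Ω ρ ν hE.pos hP.op hfin hν heq z₀ (min δ ‖z₀‖) hδ₁ h0b
    (fun x hx hxb => hiso x hx (hsub hxb))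
  have hnull : volume (ball z₀ (min δ ‖z₀‖) \ Ω) = 0 :=
    measure_mono_null (fun z hz => hz.2) hvol
  by_cases hF0 : F = 0
  · -- no force
    have hq' : ∀ z ∈ Ω ∩ ball z₀ (min δ ‖z₀‖), qG g z = h₀ z := by
      intro z hz
      have h1 : z ≠ z₀ := fun h => hz₀ (h ▸ hz.1)
      rw [hq z hz h1, hF0, zero_div, add_zero]
    have hev : ∀ᶠ z in 𝓝[≠] z₀, h₀ z ≠ 0 := by
      rcases (han z₀ (mem_ball_self hδ₁)).eventually_eq_zero_or_eventually_ne_zero with h | h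
      · exfalso
        obtain ⟨r, hr, hball⟩ := Metric.eventually_nhds_iff_ball.1 h
        obtain ⟨z, hz, hzΩ⟩ := meets Ω hvol z₀ (min r (min δ ‖z₀‖)) (lt_min hr hδ₁)
        have h1 : z ∈ ball z₀ r := ball_subset_ball (min_le_left _ _) hz
        have h2 : z ∈ ball z₀ (min δ ‖z₀‖) := ball_subset_ball (min_le_right _ _) hz
        have h3 : z ≠ 0 := fun h4 => h0b (h4 ▸ h2)
        exact qGne f g Ω hP z hzΩ h3 ((hq' z ⟨hzΩ, h2⟩).trans (hball z h1))
      · exact h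
    obtain ⟨N, hN, δ', hδ', ξ, h1, h2, h3, h4⟩ := hNFC f g h₀ Ω z₀ (min δ ‖z₀‖) hP hδ₁ han hq' hev
      hnull hz₀
    exact ⟨N, by omega, fun _ => hN, δ', hδ', ξ, h1, h2, h3, h4⟩
  · -- a simple pole
    have ha : AnalyticOnNhd ℂ (fun z => (z - z₀) * h₀ z + F) (ball z₀ (min δ ‖z₀‖)) := by
      intro z hz
      exact ((analyticAt_id.sub analyticAt_const).mul (han z hz)).add analyticAt_const
    have ha0 : (fun z => (z - z₀) * h₀ z + F) z₀ ≠ 0 := by
      simpa using hF0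
    have hq' : ∀ z ∈ Ω ∩ ball z₀ (min δ ‖z₀‖),
        qG g z = (fun z => (z - z₀) * h₀ z + F) z / (z - z₀) := by
      intro z hz
      have h1 : z ≠ z₀ := fun h => hz₀ (h ▸ hz.1)
      have h2 : z - z₀ ≠ 0 := sub_ne_zero.2 h1
      rw [hq z hz h1]
      simp only
      rw [eq_div_iff h2, add_mul, div_mul_cancel₀ _ h2]
      ring
    obtain ⟨δ', hδ', ξ, h1, h2, h3, h4⟩ := hNFT f g _ Ω z₀ (min δ ‖z₀‖) hP hδ₁ ha ha0 hq' hnull hz₀
    refine ⟨1, le_refl 1, fun h => absurd (hF h) hF0, δ', hδ', ξ, h1, h2, h3, ?_⟩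
    intro z hz
    rw [pow_one, pow_one]
    exact h4 z hz

end

end Pool.Agent.Lib.MP250511.SB
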