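import Pool.Agent.Lib.MP_250511_an.SB.Spec

/-!
# MP_250511_an, SB: module SYM (every ray of the complement is a symmetry axis)
-/

set_option autoImplicit false

namespace Pool.Agent.Lib.MP250511.SB

open Complex Metric Set MeasureTheory Filter Topology
open scoped Real ENNReal ComplexConjugate ContDiff

namespace SYMM

/-- the real version: a positive point of the complement gives symmetry under conjugation -/
theorem real_case (hNOI : SpecNOI) (hKA : SpecKA) (hKB : SpecKB) (hKC : SpecKC) (hKD : SpecKD)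
    (hKE : SpecKE) {f g : ℂ → ℂ} {Ω : Set ℂ} {ρ : ℝ} (h : Ext f g Ω ρ) {x₀ : ℝ} (hx₀ : 0 < x₀)
    (hx : (x₀ : ℂ) ∉ Ω) : ∀ z ∈ Ω, conj z ∈ Ω := by
  obtain ⟨x₁, δ, k, hL⟩ := hKA f g Ω ρ h x₀ hx₀ hx
  have hN := hNOI f g Ω ρ h
  have hB := hKB f g Ω x₁ δ k h.toPair hN hL
  obtain ⟨δ', hδ', hle, hiff, σ, hup, hlow, hσ⟩ := hKC f g Ω x₁ δ k h.toPair hN hL hB
  have hD := hKD x₁ δ k hL.pos hL.an hB
  have hconj : ∀ z : ℂ, z ∈ ball (x₁ : ℂ) δ' → conj z ∈ ball (x₁ : ℂ) δ' := by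
    intro z hz
    rw [Metric.mem_ball, dist_eq_norm] at hz ⊢
    have h1 : conj z - (x₁ : ℂ) = conj (z - (x₁ : ℂ)) := by
      rw [map_sub, Complex.conj_ofReal]
    rwa [h1, Complex.norm_conj]
  refine hKE f g Ω h.toPair h.one h.star (ball (x₁ : ℂ) δ' ∩ {z | 0 < z.im}) ?_ ?_ ?_ ?_ ?_ ?_
  · exact isOpen_ball.inter (isOpen_lt continuous_const Complex.continuous_im)
  · refine ⟨(x₁ : ℂ) + ((δ' / 2 : ℝ) : ℂ) * I, ?_, ?_⟩
    · rw [Metric.mem_ball, dist_eq_norm, add_sub_cancel_left, norm_mul, Complex.norm_I, mul_one,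
        Complex.norm_real, Real.norm_of_nonneg (by positivity)]
      linarith
    · simp only [mem_ofPred_eq, Complex.add_im, Complex.ofReal_im, Complex.mul_im,
        Complex.ofReal_re, Complex.I_im, Complex.I_re]
      linarith
  · rintro ⟨-, h0⟩
    simp at h0
  · rintro z ⟨hz, him⟩
    by_contra hc
    have := (hiff z hz).1 hc
    simp only [mem_ofPred_eq] at him
    linarith
  · rintro z ⟨hz, him⟩
    by_contra hc
    have := (hiff (conj z) (hconj z hz)).1 hc
    simp only [mem_ofPred_eq] at him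
    rw [Complex.conj_im] at this
    linarith
  · rintro z ⟨hz, him⟩
    simp only [mem_ofPred_eq] at him
    have h1 := hup z hz him
    have h2 := hlow (conj z) (hconj z hz) (by rw [Complex.conj_im]; linarith)
    have h3 := hD z (ball_subset_ball hle hz)
    have h4 : conj σ = σ := by
      rcases hσ with rfl | rfl <;> simp
    rw [h1, h2, map_neg, map_mul, h3, h4]
    ring

end SYMM

open SYMM in
theorem specSYM (hNOI : SpecNOI) (hROT : SpecROT) (hKA : SpecKA) (hKB : SpecKB) (hKC : SpecKC)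
    (hKD : SpecKD) (hKE : SpecKE) : SpecSYM := by
  intro f g Ω ρ h p hp z hz
  have h0 : (0 : ℂ) ∈ Ω := by
    rw [← h.im]
    exact ⟨0, mem_ball_self one_pos, h.zero⟩
  have hp0 : p ≠ 0 := by
    rintro rfl
    exact hp h0
  have hn0 : ‖p‖ ≠ 0 := norm_ne_zero_iff.2 hp0
  have hnc : ((‖p‖ : ℝ) : ℂ) ≠ 0 := Complex.ofReal_ne_zero.2 hn0
  set e : ℂ := p / ((‖p‖ : ℝ) : ℂ) with he
  have he1 : ‖e‖ = 1 := by
    rw [he, norm_div, Complex.norm_real, Real.norm_of_nonneg (norm_nonneg p), div_self hn0]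
  have hep : e * ((‖p‖ : ℝ) : ℂ) = p := by
    rw [he, div_mul_cancel₀ _ hnc]
  have hec : e * conj e = 1 := by
    rw [Complex.mul_conj, Complex.normSq_eq_norm_sq, he1]
    norm_num
  have hE := hROT f g Ω ρ h e he1
  have hx : ((‖p‖ : ℝ) : ℂ) ∉ {z | e * z ∈ Ω} := by
    intro hc
    have hc' : e * ((‖p‖ : ℝ) : ℂ) ∈ Ω := hc
    rw [hep] at hc'
    exact hp hc'
  have hS := real_case hNOI hKA hKB hKC hKD hKE hE (norm_pos_iff.2 hp0) hx
  have h1 : conj e * z ∈ {z | e * z ∈ Ω} := by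
    show e * (conj e * z) ∈ Ω
    rwa [← mul_assoc, hec, one_mul]
  have h2 : e * conj (conj e * z) ∈ Ω := hS _ h1
  have h3 : e * conj (conj e * z) = p / conj p * conj z := by
    rw [map_mul, Complex.conj_conj, ← mul_assoc]
    congr 1
    have hcp : conj p ≠ 0 := by
      rw [Ne, map_eq_zero]
      exact hp0
    have h4 : p * conj p = ((‖p‖ : ℝ) : ℂ) * ((‖p‖ : ℝ) : ℂ) := by
      rw [Complex.mul_conj, Complex.normSq_eq_norm_sq]
      push_cast
      ring
    rw [he, div_mul_div_comm, ← h4, mul_div_mul_left _ _ hp0]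
  rwa [h3] at h2

end Pool.Agent.Lib.MP250511.SB
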