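import Pool.Agent.Lib.MP_250511_an.SB.SpecF

/-!
# MP_250511_an : the Euler-Lagrange equation of the extremal domains for the schlicht Bloch constant

THEOREM (`SpecEL`).  Let `f` be any extremal function for `S` (`rho f = S`), `Ω = f(D)`, `g = f⁻¹`.
There is a probability measure `ν` on the contact pairs `(c, p)` (`ball c S ⊆ Ω`, `p ∉ Ω`,
`|p - c| = S`) such that
(i) `(S²/π) ∫_Ω ∂̄v (g'/g)² = ∫ conj (p - c) v(p) dν` for all test fields `v` (smooth, compact support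
off `0`): `∂̄ (g'/g)²` is the measure of the contact forces;
(ii) every maximal disc is in equilibrium: `∫ conj (p - c) b(c) dν = 0` for all `b`.
No regularity of the boundary is assumed.

IDEA.  `φ = id + ε v`.  If the rate `VF ≤ μ` at all contact pairs then the inradius of `φ(Ω)` is at most
`ρ + (μ + o(1)) ε` (INR, compactness), and by the energy inequality (VIG) the conformal radius is at
least `1 + (ε/π) Re ∫ ∂̄v (g'/g)² - O(ε²)`.  So `(ρ/π) Re ∫ ∂̄v (g'/g)² ≤ sup VF⁺` (POS).  Hahn-Banach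
and Riesz (HBA, RMA) give `ν` with total mass `≤ 1`; the cut off scaling field gives total mass `1`
(NRA, NRB).

Conventions.  File `Lib/MP_250511_an/SB/XXX.lean`, `import Pool.Agent.Lib.MP_250511_an.SB.SpecE`,
`namespace Pool.Agent.Lib.MP250511.SB`, `theorem specXXX (hYYY : SpecYYY) .. : SpecXXX` with the
hypotheses in the order of `Uses`, own lemmas in `namespace XXXM`.  ADAPT means: copy the named file
on main (`SB/NAME.lean`), rename its namespace `NAMEM` to `XXXM`, and change it.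
-/

set_option autoImplicit false

namespace Pool.Agent.Lib.MP250511.SB

open Complex Metric Set MeasureTheory Filter Topology
open scoped Real ENNReal ComplexConjugate ContDiff

noncomputable section

/-- a `C¹` diffeomorphism of the plane which is the identity off `K` (compare `Dif`) -/
structure DiG (φ ψ : ℂ → ℂ) (K : Set ℂ) : Prop where
  sm : ContDiff ℝ 1 φ
  sm' : ContDiff ℝ 1 ψ
  l : ∀ z, ψ (φ z) = z
  r : ∀ z, φ (ψ z) = z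
  id : ∀ z, z ∉ K → φ z = z
  jac : ∀ z, 0 < Jac φ z

/-- the contact pairs (centre of a disc of radius `ρ` in `Ω`, touched point) -/
def CC (Ω : Set ℂ) (ρ : ℝ) : Set (ℂ × ℂ) := {x | ball x.1 ρ ⊆ Ω ∧ x.2 ∉ Ω ∧ dist x.2 x.1 = ρ}

/-- the rate of change of the distance `|p - c|` when `p` moves by `v p` and `c` by `b c` -/
def VF (ρ : ℝ) (v b : ℂ → ℂ) (x : ℂ × ℂ) : ℝ := (conj (x.2 - x.1) * (v x.2 - b x.1)).re / ρ

/-- a radial cutoff: `1` on `‖z‖ ≤ R`, `0` on `‖z‖ ^ 2 ≥ 2 R ^ 2` -/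
def chi (R : ℝ) (z : ℂ) : ℝ := Real.smoothTransition (2 - ‖z‖ ^ 2 / R ^ 2)

/-- the cut off scaling field, zero on `‖z‖ ≤ r` -/
def vR (r R : ℝ) (z : ℂ) : ℂ := z * ((chi R z * (1 - chi r z) : ℝ) : ℂ)

/-- the same for the centres -/
def bR (R : ℝ) (z : ℂ) : ℂ := z * ((chi R z : ℝ) : ℂ)

/-! ## The energy inequality (general support, no condition on `F'(0)`) -/

/-- DIG [140].  Uses: nothing.  ADAPT `DIF` (the ball `z₀ δ` is only used in the field `id`: if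
`z ∉ K` then `z ∉ tsupport v`, so `v z = 0`). -/
def SpecDIG : Prop := ∀ v : ℂ → ℂ, ContDiff ℝ ∞ v → HasCompactSupport v → ∀ K : Set ℂ,
  tsupport v ⊆ K → ∃ ε₀ > 0, ∀ ε : ℝ, |ε| < ε₀ →
  ∃ ψ : ℂ → ℂ, DiG (fun z => z + (ε : ℂ) * v z) ψ K

/-- HMG [60].  Uses: nothing.  ADAPT `HOM` (nothing but the structure changes). -/
def SpecHMG : Prop := ∀ (F φ ψ : ℂ → ℂ) (U : Set ℂ) (K : Set ℂ), Conf F U → IsOpen U →
  DiG φ ψ K → IsOpen (φ '' U) ∧ IsSimplyConnected (φ '' U)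

/-- ING [100].  Uses: nothing.  ADAPT `INQ`, with `Ω \ ball 0 r` for `Ω ∩ ball z₀ δ`: `f` is continuous
at `0`, `f 0 = 0`, so `f (ball 0 s) ⊆ ball 0 r` for some `s > 0`, and `‖g z‖ ≥ s` on `Ω \ ball 0 r`. -/
def SpecING : Prop := ∀ (f g : ℂ → ℂ) (Ω : Set ℂ), Pair f g Ω → ∀ r : ℝ, 0 < r →
  IntegrableOn (qG g) (Ω \ ball 0 r)

/-- CHG [225].  Uses: LIN.  ADAPT `CHV` (the ball `z₀ δ` plays no role there). -/
def SpecCHG : Prop := ∀ (f g F G φ ψ : ℂ → ℂ) (Ω K : Set ℂ) (r₀ L : ℝ), Pair f g Ω →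
  DiG φ ψ K → Pair F G (φ '' Ω) → 0 < r₀ → r₀ < 1 →
  (∀ ζ : ℂ, r₀ < ‖ζ‖ → ‖ζ‖ < 1 → Real.exp (-L) < ‖g (ψ (F ζ))‖) →
  ∫⁻ ζ in {ζ : ℂ | r₀ < ‖ζ‖ ∧ ‖ζ‖ < 1},
      ENNReal.ofReal (‖fderiv ℝ (fun w => - Real.log ‖g (ψ (F w))‖) ζ‖ ^ 2) ≤
    ∫⁻ z in {z | z ∈ Ω ∧ Real.exp (-L) < ‖g z‖}, ENNReal.ofReal (YQ (qG g) φ z)

/-- NEG [200].  Uses: nothing.  ADAPT `NEA` (`K` is closed and does not contain `0`, so `φ = id` near
`0`). -/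
def SpecNEG : Prop := ∀ (f g F G φ ψ : ℂ → ℂ) (Ω K : Set ℂ), Pair f g Ω →
  deriv f 0 = 1 → IsCompact K → (0 : ℂ) ∉ K → DiG φ ψ K → Pair F G (φ '' Ω) →
  ∃ C > 0, ∃ t₀ > 0, ∀ t : ℝ, 0 < t → t < t₀ →
    (t / ‖deriv F 0‖) * (1 + C * t) < 1 ∧
    (∀ ζ : ℂ, (t / ‖deriv F 0‖) * (1 + C * t) < ‖ζ‖ → ‖ζ‖ < 1 → t < ‖g (ψ (F ζ))‖) ∧
    (∀ ζ : ℂ, ‖ζ‖ = (t / ‖deriv F 0‖) * (1 + C * t) →
      ‖g (ψ (F ζ))‖ ≤ ‖deriv F 0‖ * ‖ζ‖ * (1 + C * ‖ζ‖))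

/-- VIG [400].  Uses: ING FLU ENE CHG NEG.  The energy inequality for any `a = ‖F'(0)‖`.  ADAPT `VIN`
(`W = Ω ∩ K`; `K` is closed, so `φ = id` near every point off `K` and no null set is needed; `qG g` is
integrable on `W` by ING, since `K` is disjoint from some `ball 0 r`).  The end: with `t = exp (-L)`,
`r₀ = (t/a)(1 + C t)`, `e = log (1 + C t) + log (1 + C r₀)`, one has
`ℓ = log (1/r₀) = L + log a - log (1 + C t) ≤ L + log a =: M` and (as in VIN)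
`2π (L - e)²/ℓ ≤ 2πL + ∫ XQ`.  For small `t`, `M > 0`, `0 ≤ L - e`, so
`2π (L - e)² ≤ (2πL + ∫ XQ) M`, and `L = M - log a`:
`(L - e)² ≥ L² - 2 L e` and `L² = M² - 2 M log a + (log a)² ≥ M (M - 2 log a) = M (L - log a)`, so
`2π (L - log a) M - 4π L e ≤ (2πL + ∫ XQ) M`, i.e. `- 2π log a ≤ ∫ XQ + 4π e L/M`; `e → 0` and
`L/M → 1` (`L → ∞`).  Conclude: by contradiction, `t` small. -/
def SpecVIG : Prop := ∀ (f g F G φ ψ : ℂ → ℂ) (Ω K : Set ℂ), Pair f g Ω →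
  deriv f 0 = 1 → IsCompact K → (0 : ℂ) ∉ K → DiG φ ψ K → Pair F G (φ '' Ω) →
  -(2 * π * Real.log ‖deriv F 0‖) ≤ ∫ z in Ω ∩ K, XQ (qG g) φ z

/-- VBG [300].  Uses: nothing.  The one-sided first variation.  ADAPT `VAB` (import or copy its lemmas):
`|∫_W XQ + 2 ε Re ∫_W dB v q| ≤ C ε² ∫_W ‖q‖` for small `ε`, so `2 ε Re ∫ ≤ A ε + C' ε²`; divide by
`ε > 0`, `ε → 0`. -/
def SpecVBG : Prop := ∀ (W : Set ℂ) (q v : ℂ → ℂ) (A : ℝ), MeasurableSet W → IntegrableOn q W →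
  ContDiff ℝ ∞ v → HasCompactSupport v →
  (∃ ε₁ > 0, ∀ ε : ℝ, 0 < ε → ε < ε₁ → -(A * ε) ≤ ∫ z in W, XQ q (fun z => z + (ε : ℂ) * v z) z) →
  2 * (∫ z in W, dB v z * q z).re ≤ A

/-! ## The inradius -/

/-- INR [220].  Uses: nothing.  PROOF.  Suppose not: there are `ε_n → 0`, `ε_n > 0`, `c_n`, and balls
`ball (c_n) (r_n) ⊆ φ_n(Ω)`, `r_n > ρ + (μ+η) ε_n`; we may replace `r_n` by `ρ + (μ+η) ε_n` (same
centre).  For `e ∉ Ω`: `φ_n e ∉ φ_n(Ω)` (`φ_n` injective, `DiG.l`), so (1) `r_n ≤ |φ_n e - c_n|`.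
(a) `c_n` is bounded: `v` is bounded with support in `ball 0 M`; if `|c_n| > M + 2ρ + 10` then
`ball (c_n) (r_n) ⊆ Ω` (a point `z = φ_n w`, `w ∈ Ω`, of the ball: if `v w ≠ 0` then `|w| < M`,
`|z| < M + 1`, not in the ball; so `z = w ∈ Ω`), and `ExU.inr` gives `r_n ≤ ρ`, contradiction.  So we
may pass to a subsequence (or an ultrafilter) with `c_n → c`.  (b) `ball c ρ ⊆ Ω`: for `e ∉ Ω`
(1) gives in the limit `ρ ≤ |e - c|`.  (c) Let `c'_n = c_n - ε_n b(c)`.  Claim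
`ball (c'_n) (ρ + η ε_n/2) ⊆ Ω` for large `n`, which contradicts `ExU.inr`.  If not, there are (for
infinitely many `n`) `e_n ∉ Ω` with `|e_n - c'_n| < ρ + η ε_n/2`, bounded, so (subsequence) `e_n → e`,
`e ∉ Ω` (closed), `|e - c| ≤ ρ`, so `= ρ` by (b): `(c, e) ∈ CC`.  Let `a_n = e_n - c'_n → a = e - c`,
`d_n = v(e_n) - b(c) → d = v(e) - b(c)`; `Re (conj a d) ≤ μ ρ` (hypothesis).  (1) for `e_n`:
`ρ + (μ+η) ε_n ≤ |a_n + ε_n d_n|`.  Squaring, `(ρ + (μ+η) ε_n)² ≤ |a_n|² + 2 ε_n Re (conj a_n d_n) +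
ε_n² |d_n|² < (ρ + η ε_n/2)² + 2 ε_n Re (conj a_n d_n) + ε_n² |d_n|²`.  Subtract `ρ²`, divide by `ε_n`
and let `n → ∞`: `2 ρ (μ+η) ≤ ρ η + 2 Re (conj a d) ≤ ρ η + 2 μ ρ`, so `η ≤ 0`: contradiction. -/
def SpecINR : Prop := ∀ (f g : ℂ → ℂ) (Ω : Set ℂ) (ρ : ℝ), ExU f g Ω ρ → ∀ (v b : ℂ → ℂ) (K : Set ℂ),
  ContDiff ℝ ∞ v → HasCompactSupport v → Continuous b → ∀ μ : ℝ, 0 ≤ μ →
  (∀ x ∈ CC Ω ρ, VF ρ v b x ≤ μ) →
  (∃ ε₀ > 0, ∀ ε : ℝ, |ε| < ε₀ → ∃ ψ : ℂ → ℂ, DiG (fun z => z + (ε : ℂ) * v z) ψ K) →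
  ∀ η : ℝ, 0 < η → ∃ ε₁ > 0, ∀ ε : ℝ, 0 < ε → ε < ε₁ → ∀ (c : ℂ) (r : ℝ),
    ball c r ⊆ (fun z => z + (ε : ℂ) * v z) '' Ω → r ≤ ρ + (μ + η) * ε

/-- POS [150].  Uses: PAI RMT HMG DIG ING VIG VBG INR.  PROOF.  Compare `SB/VRF.lean`.
`K = tsupport v` (compact, `0 ∉ K`), `W = Ω ∩ K`, `qG g` integrable on `W` (ING).  Let `η > 0`.  For small
`ε > 0`, `φ = id + ε v`: `φ(Ω)` is open, simply connected (HMG), contains `0 = φ 0`, `≠ univ`; RMT, PAI: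
`Pair F G (φ(Ω))`; `ExU.ext` with INR: `ρ ‖F'(0)‖ ≤ ρ + (μ+η) ε`, so `log ‖F'(0)‖ ≤ (μ+η) ε/ρ`
(`Real.log_le_sub_one_of_pos`); VIG: `-(2π (μ+η)/ρ) ε ≤ ∫_W XQ`.  VBG: `2 Re ∫_W dB v q ≤ 2π (μ+η)/ρ`,
and `∫_W = ∫_Ω` (`dB v = 0` off `K`: `setIntegral_eq_of_subset_of_forall_sdiff_eq_zero`).  `η → 0`. -/
def SpecPOS : Prop := ∀ (f g : ℂ → ℂ) (Ω : Set ℂ) (ρ : ℝ), ExU f g Ω ρ → ∀ v b : ℂ → ℂ,
  ContDiff ℝ ∞ v → HasCompactSupport v → (0 : ℂ) ∉ tsupport v → Continuous b → ∀ μ : ℝ, 0 ≤ μ →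
  (∀ x ∈ CC Ω ρ, VF ρ v b x ≤ μ) → ρ / π * (∫ z in Ω, dB v z * qG g z).re ≤ μ

/-! ## Hahn-Banach and Riesz -/

/-- HBA [180].  Uses: nothing.  PROOF.  `E = CompactlySupportedContinuousMap C ℝ`.  Every `V i`
restricted to `C` is in `E` (its support in `C` is contained in the compact set `K ∩ C`; closed subsets
of compact sets are compact), call it `T i`; `T : ι →ₗ[ℝ] E`.  If `T i = 0` then `J i ≤ 0` and
`J (-i) ≤ 0` (hypothesis with `μ = 0`), so `J i = 0`.  So there is a linear `f` on the range of `T` with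
`f (T i) = J i` (take a linear right inverse of `T.rangeRestrict`:
`LinearMap.exists_rightInverse_of_surjective`).  `N h = sInf {M | 0 ≤ M ∧ ∀ x, h x ≤ M}` is sublinear
(the set is nonempty: `h` is bounded, and bounded below by `0`, closed) and `f ≤ N` on the range (for
`M` in the set, `J i ≤ M`).  `exists_extension_of_le_sublinear`.  `N h ≤ M` for `M` in the set. -/
def SpecHBA : Prop := ∀ C : Set (ℂ × ℂ), IsClosed C → ∀ (ι : Type) [AddCommGroup ι] [Module ℝ ι]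
  (V : ι → ℂ × ℂ → ℝ) (J : ι → ℝ),
  (∀ i j x, V (i + j) x = V i x + V j x) → (∀ (a : ℝ) (i : ι) x, V (a • i) x = a * V i x) →
  (∀ i j, J (i + j) = J i + J j) → (∀ (a : ℝ) (i : ι), J (a • i) = a * J i) →
  (∀ i, Continuous (V i)) → (∀ i, ∃ K, IsCompact K ∧ ∀ x ∈ C, x ∉ K → V i x = 0) →
  (∀ i (μ : ℝ), 0 ≤ μ → (∀ x ∈ C, V i x ≤ μ) → J i ≤ μ) →
  ∃ Λ : CompactlySupportedContinuousMap C ℝ →ₗ[ℝ] ℝ,
    (∀ (i : ι) (h : CompactlySupportedContinuousMap C ℝ), (∀ x : C, h x = V i x) → Λ h = J i) ∧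
    ∀ (h : CompactlySupportedContinuousMap C ℝ) (M : ℝ), 0 ≤ M → (∀ x, h x ≤ M) → Λ h ≤ M

/-- RMA [150].  Uses: nothing.  PROOF.  `C` is closed in the locally compact space `ℂ × ℂ`, so locally
compact Hausdorff.  `Λ` is positive (`h ≥ 0`: `Λ (-h) ≤ 0`), so a positive linear map
`CompactlySupportedContinuousMap C ℝ →ₚ[ℝ] ℝ`; `ν' = RealRMK.rieszMeasure Λ`,
`∫ h dν' = Λ h` (`RealRMK.integral_rieszMeasure`).  `ν' univ ≤ 1`: for a compact `Q ⊆ C` there is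
`h` with `1_Q ≤ h ≤ 1` (Urysohn), so `ν' Q ≤ ∫ h dν' ≤ 1` (`RealRMK.rieszMeasure_le_of_eq_one` or
directly), and `C` is σ-compact (an increasing union of compact sets).  `ν = ν'.map Subtype.val`;
`∫ V dν = ∫ V ∘ val dν'` (closed embedding: `MeasurableEmbedding.integral_map`). -/
def SpecRMA : Prop := ∀ C : Set (ℂ × ℂ), IsClosed C →
  ∀ Λ : CompactlySupportedContinuousMap C ℝ →ₗ[ℝ] ℝ,
  (∀ (h : CompactlySupportedContinuousMap C ℝ) (M : ℝ), 0 ≤ M → (∀ x, h x ≤ M) → Λ h ≤ M) →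
  ∃ ν : Measure (ℂ × ℂ), ν univ ≤ 1 ∧ ν Cᶜ = 0 ∧
    ∀ (h : CompactlySupportedContinuousMap C ℝ) (V : ℂ × ℂ → ℝ), (∀ x : C, h x = V x) →
      ∫ x, V x ∂ν = Λ h

/-- HBR [100].  Uses: HBA RMA.  PROOF.  `Λ` from HBA, `ν` from RMA; for `i` let `h` be the restriction of
`V i` to `C`, an element of `CompactlySupportedContinuousMap C ℝ` (support in `K ∩ C`). -/
def SpecHBR : Prop := ∀ C : Set (ℂ × ℂ), IsClosed C → ∀ (ι : Type) [AddCommGroup ι] [Module ℝ ι]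
  (V : ι → ℂ × ℂ → ℝ) (J : ι → ℝ),
  (∀ i j x, V (i + j) x = V i x + V j x) → (∀ (a : ℝ) (i : ι) x, V (a • i) x = a * V i x) →
  (∀ i j, J (i + j) = J i + J j) → (∀ (a : ℝ) (i : ι), J (a • i) = a * J i) →
  (∀ i, Continuous (V i)) → (∀ i, ∃ K, IsCompact K ∧ ∀ x ∈ C, x ∉ K → V i x = 0) →
  (∀ i (μ : ℝ), 0 ≤ μ → (∀ x ∈ C, V i x ≤ μ) → J i ≤ μ) →
  ∃ ν : Measure (ℂ × ℂ), ν univ ≤ 1 ∧ ν Cᶜ = 0 ∧ ∀ i, J i = ∫ x, V i x ∂ν

/-- MUL [180].  Uses: POS HBR.  The multiplier measure, real form.  PROOF.  `C = CC Ω ρ` is closed (if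
`(c_n, p_n) → (c, p)` then `ball c ρ ⊆ Ω`: a point `z` of it is in `ball (c_n) ρ` for large `n`; `Ωᶜ` is
closed).  `ι` = the subtype of the real submodule of the pairs `(v, b)` with `v` smooth, compact support,
`0 ∉ tsupport v`, `b` continuous with compact support (closed under `+`: `tsupport_add`, and real
multiples); `V (v, b) = VF ρ v b`, `J (v, b) = ρ/π Re ∫_Ω dB v qG g` (additive: `dB` is additive on smooth
functions, and `dB v * qG g` is integrable on `Ω`: it vanishes off the compact set `tsupport v`, which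
is disjoint from some `ball 0 r`; ING).  Compactness: `VF ≠ 0` at `(c, p) ∈ C` implies
`p ∈ tsupport v` or `c ∈ tsupport b`, and `|p - c| = ρ`, so `(c, p)` is in a fixed closed ball.
Hypothesis of HBR: POS. -/
def SpecMUL : Prop := ∀ (f g : ℂ → ℂ) (Ω : Set ℂ) (ρ : ℝ), ExU f g Ω ρ →
  ∃ ν : Measure (ℂ × ℂ), ν univ ≤ 1 ∧ ν (CC Ω ρ)ᶜ = 0 ∧ ∀ v b : ℂ → ℂ, ContDiff ℝ ∞ v →
    HasCompactSupport v → (0 : ℂ) ∉ tsupport v → Continuous b → HasCompactSupport b →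
    ρ / π * (∫ z in Ω, dB v z * qG g z).re = ∫ x, VF ρ v b x ∂ν

/-! ## The total mass -/

/-- CUT [120].  Uses: nothing.  PROOF.  `Real.smoothTransition` is smooth, `0` on `(-∞, 0]`, `1` on
`[1, ∞)`, between `0` and `1`.  `z ↦ ‖z‖ ^ 2` is smooth.  `chi R z = 1` for `‖z‖ ≤ R`, `= 0` for
`‖z‖ ^ 2 ≥ 2 R ^ 2`.  The support of `vR` is contained in `{r ≤ ‖z‖, ‖z‖ ^ 2 ≤ 2 R ^ 2}`. -/
def SpecCUT : Prop := ∀ r R : ℝ, 0 < r → 0 < R →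
  ContDiff ℝ ∞ (chi R) ∧ ContDiff ℝ ∞ (vR r R) ∧ HasCompactSupport (vR r R) ∧
  (0 : ℂ) ∉ tsupport (vR r R) ∧ Continuous (bR R) ∧ HasCompactSupport (bR R) ∧
  (∀ z, 0 ≤ chi R z ∧ chi R z ≤ 1) ∧ (∀ z, ‖z‖ ≤ R → chi R z = 1) ∧
  (∀ z, 2 * R ^ 2 ≤ ‖z‖ ^ 2 → chi R z = 0)

/-- DCH [120].  Uses: CUT.  The derivative.  PROOF.  `∂̄ ‖z‖² = z`, chain rule:
`dB (chi R) z = - T'(2 - ‖z‖²/R²) z/R²`, `T = Real.smoothTransition` (real valued `chi` is used as a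
complex function), `dB (z ↦ z u z) = z dB u` (`∂̄ z = 0`), `T'` is continuous and zero off `[0, 1]`, so
bounded: `B`. -/
def SpecDCH : Prop := (∀ R : ℝ, 0 < R → ∀ z : ℂ,
    dB (fun z => z * ((chi R z : ℝ) : ℂ)) z =
      -(((deriv Real.smoothTransition (2 - ‖z‖ ^ 2 / R ^ 2) : ℝ) : ℂ) * (z ^ 2 / (R : ℂ) ^ 2))) ∧
  (∃ B : ℝ, 0 ≤ B ∧ ∀ R : ℝ, 0 < R → ∀ z : ℂ,
    ‖dB (fun z => z * ((chi R z : ℝ) : ℂ)) z‖ ≤ B) ∧
  (∀ r R : ℝ, 0 < r → 2 * r < R → ∀ z : ℂ, dB (vR r R) z =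
    dB (fun z => z * ((chi R z : ℝ) : ℂ)) z - dB (fun z => z * ((chi r z : ℝ) : ℂ)) z)

/-- RIN [200].  Uses: CUT DCH.  The inner integral.  PROOF.  `dB (z chi r z) = 0` for `‖z‖ ^ 2 > 2 r ^ 2`,
so the integral is over a disc in `Ω`; `w(z) = z² qG g z = (z g'(z)/g(z))²` (`z ≠ 0`) extends to an
analytic function `w₁` on `ball 0 (2r)` with `w₁ 0 = 1` (`g = z a`, `a 0 = g'(0) = 1`, `g z ≠ 0` for
`z ≠ 0`: `dslope`).  In polar coordinates (`Complex.integral_comp_polarCoord_symm`) and by the mean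
value property (`circleAverage` of an analytic function is its value at the centre)
`∫ T'(2 - s²/r²) w₁(s e^{iθ})/r² s ds dθ = (2π/r²) ∫_0^{√2 r} T'(2 - s²/r²) s ds = π (T 2 - T 0) = π`
(substitution: `d/ds T(2 - s²/r²) = - (2 s/r²) T'(2 - s²/r²)`). -/
def SpecRIN : Prop := ∀ (f g : ℂ → ℂ) (Ω : Set ℂ), Pair f g Ω → deriv f 0 = 1 → ∀ r : ℝ, 0 < r →
  closedBall 0 (2 * r) ⊆ Ω →
  ∫ z in Ω, dB (fun z => z * ((chi r z : ℝ) : ℂ)) z * qG g z = -(π : ℂ)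

/-- NRA [150].  Uses: CUT DCH RIN ING.  PROOF.  For `2 r < R = n + 1`,
`∫_Ω dB (vR r R) q = ∫_Ω dB (z chi R) q - ∫_Ω dB (z chi r) q` (both integrable: bounded by `B ‖q‖` and zero
on `ball 0 r`, as `chi = 1` there; ING), the second is `-π` (RIN), the first is bounded by
`B ∫_{Ω \ ball 0 R} ‖q‖ → 0` (`dB (z chi R) = 0` on `ball 0 R`; `q` is integrable on `Ω \ ball 0 r`;
dominated convergence / `tendsto_setIntegral_of_antitone`). -/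
def SpecNRA : Prop := ∀ (f g : ℂ → ℂ) (Ω : Set ℂ), Pair f g Ω → deriv f 0 = 1 → ∀ r : ℝ, 0 < r →
  closedBall 0 (2 * r) ⊆ Ω →
  Tendsto (fun n : ℕ => ∫ z in Ω, dB (vR r (n + 1)) z * qG g z) atTop (𝓝 (π : ℂ))

/-- NRB [180].  Uses: CUT.  PROOF.  Dominated convergence.  Let `(c, p) ∈ CC`, `R = n + 1`; `p ∉ Ω`, so
`‖p‖ > 2 r`, `chi r p = 0`, `vR r R p = p chi R p`.
`vR p - bR c = (p - c) chi R c + p (chi R p - chi R c)`.  Pointwise limit: for large `R` both `chi` are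
`1`, `VF = |p - c|²/ρ = ρ`.  Bound: `|chi R p - chi R c| ≤ B |‖p‖² - ‖c‖²|/R²` (`smoothTransition` is
`B`-Lipschitz), `|‖p‖² - ‖c‖²| ≤ ρ (2 ‖p‖ + ρ)`; if `‖p‖ ≥ 2 R + ρ` both `chi` vanish, otherwise
`‖p‖ ≤ 2R + ρ` and `‖p‖ |chi R p - chi R c| ≤ B (2R + ρ) ρ (4R + 3ρ)/R² ≤ B (2+ρ) ρ (4 + 3ρ)` as `R ≥ 1`.
So `|VF| ≤ ρ + B (2+ρ) ρ (4+3ρ)`, constant, integrable. -/
def SpecNRB : Prop := ∀ (Ω : Set ℂ) (ρ : ℝ) (ν : Measure (ℂ × ℂ)), 0 < ρ → IsFiniteMeasure ν →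
  ν (CC Ω ρ)ᶜ = 0 → ∀ r : ℝ, 0 < r → closedBall 0 (2 * r) ⊆ Ω →
  Tendsto (fun n : ℕ => ∫ x, VF ρ (vR r (n + 1)) (bR (n + 1)) x ∂ν) atTop
    (𝓝 (ρ * (ν univ).toReal))

/-- MAS [60].  Uses: CUT NRA NRB.  PROOF.  Take `r` with `closedBall 0 (2r) ⊆ Ω`; the two limits are equal:
`ρ/π · π = ρ (ν univ).toReal`. -/
def SpecMAS : Prop := ∀ (f g : ℂ → ℂ) (Ω : Set ℂ) (ρ : ℝ), ExU f g Ω ρ → ∀ ν : Measure (ℂ × ℂ),
  ν univ ≤ 1 → ν (CC Ω ρ)ᶜ = 0 → (∀ v b : ℂ → ℂ, ContDiff ℝ ∞ v →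
    HasCompactSupport v → (0 : ℂ) ∉ tsupport v → Continuous b → HasCompactSupport b →
    ρ / π * (∫ z in Ω, dB v z * qG g z).re = ∫ x, VF ρ v b x ∂ν) → ν univ = 1

/-- CPX [150].  Uses: nothing.  The complex form.  PROOF.  `b = 0` and `v = 0` in the hypothesis:
`ρ²/π Re ∫_Ω dB v q = Re ∫ conj (p - c) v(p) dν` and `0 = Re ∫ conj (p - c) b(c) dν` (the integrands are
continuous, and bounded ν-a.e., since `|p - c| = ρ` on `CC` and `v`, `b` are bounded; so integrable, and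
`Re` commutes with the integrals).  Apply this to `v` and `I v` (`dB (I v) = I dB v`, see
`VARM.dB_mul_I` in `SB/VAR.lean`), and to `b` and `I b`: both sides have the same real and imaginary
parts. -/
def SpecCPX : Prop := ∀ (g : ℂ → ℂ) (Ω : Set ℂ) (ρ : ℝ) (ν : Measure (ℂ × ℂ)), 0 < ρ →
  IsFiniteMeasure ν → ν (CC Ω ρ)ᶜ = 0 → (∀ v b : ℂ → ℂ, ContDiff ℝ ∞ v →
    HasCompactSupport v → (0 : ℂ) ∉ tsupport v → Continuous b → HasCompactSupport b →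
    ρ / π * (∫ z in Ω, dB v z * qG g z).re = ∫ x, VF ρ v b x ∂ν) →
  (∀ v : ℂ → ℂ, ContDiff ℝ ∞ v → HasCompactSupport v → (0 : ℂ) ∉ tsupport v →
    ((ρ ^ 2 / π : ℝ) : ℂ) * ∫ z in Ω, dB v z * qG g z = ∫ x, conj (x.2 - x.1) * v x.2 ∂ν) ∧
  ∀ b : ℂ → ℂ, Continuous b → HasCompactSupport b → ∫ x, conj (x.2 - x.1) * b x.1 ∂ν = 0

/-- THE THEOREM (`EL`).  Uses: EXF MUL MAS CPX. -/
def SpecEL : Prop := ∀ f : ℂ → ℂ, Univ f → rho f = S →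
  ∃ ν : Measure (ℂ × ℂ), IsProbabilityMeasure ν ∧
    ν {x | ¬ (ball x.1 S.toReal ⊆ f '' ball 0 1 ∧ x.2 ∉ f '' ball 0 1 ∧
      dist x.2 x.1 = S.toReal)} = 0 ∧
    (∀ g : ℂ → ℂ, (∀ w ∈ ball (0 : ℂ) 1, g (f w) = w) → ∀ v : ℂ → ℂ, ContDiff ℝ ∞ v →
      HasCompactSupport v → (0 : ℂ) ∉ tsupport v →
      ((S.toReal ^ 2 / π : ℝ) : ℂ) * ∫ z in f '' ball 0 1, dB v z * (deriv g z / g z) ^ 2 =
        ∫ x, conj (x.2 - x.1) * v x.2 ∂ν) ∧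
    ∀ b : ℂ → ℂ, Continuous b → HasCompactSupport b → ∫ x, conj (x.2 - x.1) * b x.1 ∂ν = 0

end

end Pool.Agent.Lib.MP250511.SB
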