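import Pool.Agent.Lib.MP_250511_an.SB.Spec

/-!
# MP_250511_an : the free boundary of an extremal domain for the schlicht Bloch constant `S`

THEOREM (`SpecFB`).  Let `f` be ANY extremal function for `S` (`rho f = S`), `Ω = f(D)`, and let `z₀` be
a boundary point of `Ω` that is not touched by a disc of radius `S` contained in `Ω`.  Then there is a
disc `B` around `z₀` such that the complement of `Ω` has measure zero in `B`, and every boundary point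
`z₁ ≠ z₀` in `B` has a neighbourhood with a conformal coordinate `ξ` in which the complement is
`{Re ξ = 0}` (one analytic arc) and `- log |f⁻¹| = |Re ξ|` (harmonic symmetry).  No regularity of the
boundary is assumed.

Same conventions as in `SB/Spec.lean`; modules import `Pool.Agent.Lib.MP_250511_an.SB.SpecF`.
-/

set_option autoImplicit false

namespace Pool.Agent.Lib.MP250511.SB

open Complex Metric Set MeasureTheory Filter Topology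
open scoped Real ENNReal ComplexConjugate ContDiff

noncomputable section

/-- as `Ext`, without starlikeness: an extremal domain for the class of all simply connected domains -/
structure ExU (f g : ℂ → ℂ) (Ω : Set ℂ) (ρ : ℝ) : Prop extends Pair f g Ω where
  one : deriv f 0 = 1
  pos : 0 < ρ
  inr : ∀ (c : ℂ) (r : ℝ), ball c r ⊆ Ω → r ≤ ρ
  ext : ∀ (F : ℂ → ℂ) (U : Set ℂ), Conf F U → ∀ ρ' : ℝ,
    (∀ (c : ℂ) (r : ℝ), ball c r ⊆ U → r ≤ ρ') → ρ * ‖deriv F 0‖ ≤ ρ'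

/-- an open square -/
def Box (η : ℝ) : Set ℂ := {q | |q.re| < η ∧ |q.im| < η}

/-- VAF.  Uses: PER.  Proof: as VAA (copy `SB/VAA.lean`, `Ext` replaced by `ExU`). -/
def SpecVAF : Prop := ∀ (f g : ℂ → ℂ) (Ω : Set ℂ) (ρ : ℝ), ExU f g Ω ρ → ∀ (z₀ : ℂ) (δ : ℝ),
  Disjoint (ball z₀ δ) (KK Ω ρ) → ∀ v : ℂ → ℂ, ContDiff ℝ ∞ v → HasCompactSupport v →
  tsupport v ⊆ ball z₀ δ →
  (∃ ε₀ > 0, ∀ ε : ℝ, |ε| < ε₀ → ∃ ψ : ℂ → ℂ, Dif (fun z => z + (ε : ℂ) * v z) ψ z₀ δ) →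
  ∃ ε₁ > 0, ∀ ε : ℝ, |ε| < ε₁ → ∀ F : ℂ → ℂ, Conf F ((fun z => z + (ε : ℂ) * v z) '' Ω) →
    ‖deriv F 0‖ ≤ 1

/-- VRF.  Uses: PAI RMT HOM DIF INQ VIN VAF VAB.  Proof: as VAR (copy `SB/VAR.lean`). -/
def SpecVRF : Prop := ∀ (f g : ℂ → ℂ) (Ω : Set ℂ) (ρ : ℝ), ExU f g Ω ρ → ∀ (z₀ : ℂ) (δ : ℝ),
  0 < δ → (0 : ℂ) ∉ closedBall z₀ δ → Disjoint (ball z₀ δ) (KK Ω ρ) → ∀ v : ℂ → ℂ,
  ContDiff ℝ ∞ v → HasCompactSupport v → tsupport v ⊆ ball z₀ δ →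
  ∫ z in Ω ∩ ball z₀ δ, dB v z * qG g z = 0

/-- LCF [150].  Uses: KCL INQ VRF WEY.  Proof: as LOC (copy `SB/LOC.lean`): `indicator Ω (qG g) = h` a.e.
on `ball z₀ δ`.  If `Ω` meets the ball then `h` is not identically `0` (`qG g ≠ 0` off `0`), so its
zeros in the ball (preconnected) are isolated, so countable, a null set; `h = 0` a.e. on
`ball z₀ δ \ Ω`, so this is a null set. -/
def SpecLCF : Prop := ∀ (f g : ℂ → ℂ) (Ω : Set ℂ) (ρ : ℝ), ExU f g Ω ρ → ∀ z₀ : ℂ, z₀ ≠ 0 →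
  z₀ ∉ KK Ω ρ → ∃ δ > 0, (0 : ℂ) ∉ ball z₀ δ ∧
  ∃ h : ℂ → ℂ, AnalyticOnNhd ℂ h (ball z₀ δ) ∧ (∀ z ∈ Ω ∩ ball z₀ δ, qG g z = h z) ∧
    ((Ω ∩ ball z₀ δ).Nonempty → volume (ball z₀ δ \ Ω) = 0)

/-- ARA [150].  Uses: nothing.  The conformal coordinate.  Proof: near `z₁` `h` has an analytic square
root `k` (`k z = c (h z / h z₁)^(1/2)`, `c² = h z₁`), `k` has a primitive `ξ` with `ξ z₁ = 0`
(`DifferentiableOn.isExactOn_ball`), `ξ'(z₁) ≠ 0`, so `ξ` has a local inverse `ψ`, analytic near `0`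
(`HasStrictDerivAt.localInverse` / `AnalyticAt` inverse); choose `η` such that `ψ` is analytic and
injective on `Box η` with `ξ (ψ q) = q` and `ψ (Box η)` in the small ball where `ξ' = k`,
`k² = h`; then `ψ'(q) = 1/k (ψ q)`; finally `δ'`. -/
def SpecARA : Prop := ∀ (h : ℂ → ℂ) (z₁ : ℂ) (δ : ℝ), 0 < δ → AnalyticOnNhd ℂ h (ball z₁ δ) →
  h z₁ ≠ 0 → ∃ (ξ ψ : ℂ → ℂ) (δ' η : ℝ), 0 < δ' ∧ δ' ≤ δ ∧ 0 < η ∧
    AnalyticOnNhd ℂ ξ (ball z₁ δ') ∧ InjOn ξ (ball z₁ δ') ∧ ξ z₁ = 0 ∧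
    (∀ z ∈ ball z₁ δ', ξ z ∈ Box η ∧ ψ (ξ z) = z) ∧
    AnalyticOnNhd ℂ ψ (Box η) ∧ InjOn ψ (Box η) ∧
    (∀ q ∈ Box η, ψ q ∈ ball z₁ δ ∧ h (ψ q) * deriv ψ q ^ 2 = 1)

/-- ARB [280].  Uses: nothing.  Proof: let `p = g'/g`; for `ψ q ∈ Ω`, `(p (ψ q) ψ'(q))² = 1`, so
`p (ψ q) ψ'(q) = ± 1`.  (1) Let `ψ (u + i v) ∈ Ω`.  On the set `A` of `t ∈ (-η, η)` with
`ψ (u + i t) ∈ Ω` (open) the function `t ↦ - log ‖g (ψ (u + i t))‖` has derivative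
`- Re (± i) = 0`.  If `A ≠ (-η, η)`, the component of `A` containing `v` has an end point
`t₁ ∈ (-η, η)`, `ψ (u + i t₁) ∉ Ω`, where the function tends to `0` (`bd`), but it is a positive
constant: contradiction.  So `A = (-η, η)` and the function is constant on it.  (2) Let
`N = {u ∈ (-η, η) : ψ u ∉ Ω}`; by (1) `ψ (u + i v) ∉ Ω ↔ u ∈ N`.  `N` is relatively closed, `0 ∈ N`, and
contains no interval (else `ψ (Box η) \ Ω` contains a nonempty open set, of positive measure).  (3)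
`γ u = - log ‖g (ψ u)‖` on the complement of `N`: `γ > 0`, `γ' = ± 1`, `γ → 0` at `N`.  If
`0 < a ∈ N`, take `u₀ ∈ (0, a) \ N` and its component `(a', b')`, `a', b' ∈ N`: Rolle gives a
contradiction.  Same for `a < 0`.  So `N = {0}`.  (4) on `(0, η)` `γ'` is continuous with values
`± 1`, so constant, `γ → 0` at `0`, `γ > 0`: `γ u = u`; on `(-η, 0)`: `γ u = - u`. -/
def SpecARB : Prop := ∀ (f g : ℂ → ℂ) (Ω : Set ℂ) (ψ : ℂ → ℂ) (η : ℝ), Pair f g Ω → 0 < η →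
  AnalyticOnNhd ℂ ψ (Box η) → InjOn ψ (Box η) →
  (∀ q ∈ Box η, ψ q ∈ Ω → qG g (ψ q) * deriv ψ q ^ 2 = 1) →
  volume (ψ '' Box η \ Ω) = 0 → ψ 0 ∉ Ω →
  ∀ q ∈ Box η, (ψ q ∉ Ω ↔ q.re = 0) ∧ (ψ q ∈ Ω → - Real.log ‖g (ψ q)‖ = |q.re|)

/-- EXF [80].  Uses: PAI.  Proof: as EXT (copy `SB/EXT.lean`: `EXTM.ball_le`, `univ_id`; `S ≤ rho id ≤ 1`;
`rho f > 0`). -/
def SpecEXF : Prop := ∀ f : ℂ → ℂ, Univ f → rho f = S →
  ∃ g : ℂ → ℂ, ExU f g (f '' ball 0 1) S.toReal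

/-- FB [120].  Uses: EXF LCF ARA ARB.  THE THEOREM.  Proof: `Ω = f(D)` is open and contains `0`, so
`z₀ ∉ Ω`, `z₀ ≠ 0`, and `z₀ ∉ KK Ω S.toReal`.  LCF gives `δ₁`, `h`; `Ω` meets every ball around `z₀`, so
`h` is not identically zero near `z₀` and there is `δ ≤ δ₁` with `h ≠ 0` on `ball z₀ δ \ {z₀}`.  Let
`z₁` be as in the statement; take a ball around `z₁` in `ball z₀ δ` and apply ARA, ARB
(`h (ψ q) = qG g (ψ q)` if `ψ q ∈ Ω`), with `q = ξ z`, `ψ q = z`; `g (f w) = w`. -/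
def SpecFB : Prop := ∀ f : ℂ → ℂ, Univ f → rho f = S → ∀ z₀ ∈ frontier (f '' ball 0 1),
  (∀ c : ℂ, ball c S.toReal ⊆ f '' ball 0 1 → dist z₀ c ≠ S.toReal) →
  ∃ δ > 0, volume (ball z₀ δ \ f '' ball 0 1) = 0 ∧
    ∀ z₁ ∈ ball z₀ δ, z₁ ∉ f '' ball 0 1 → z₁ ≠ z₀ →
      ∃ δ' > 0, ∃ ξ : ℂ → ℂ, AnalyticOnNhd ℂ ξ (ball z₁ δ') ∧ InjOn ξ (ball z₁ δ') ∧ ξ z₁ = 0 ∧
        (∀ z ∈ ball z₁ δ', z ∉ f '' ball 0 1 ↔ (ξ z).re = 0) ∧
        ∀ w ∈ ball (0 : ℂ) 1, f w ∈ ball z₁ δ' → - Real.log ‖w‖ = |(ξ (f w)).re|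

end

end Pool.Agent.Lib.MP250511.SB
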