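import Pool.Agent.Lib.MP_250511_an.SB.SpecF

/-!
# MP_250511_an : complete local form of the free boundary of an extremal domain for `S`

THEOREM (`SpecFBB`, contains `SpecFB`).  At EVERY free boundary point `z₀` (not touched by a disc of
radius `S` in `Ω`) there are `N ≥ 2` and a conformal coordinate `ξ`, `ξ z₀ = 0`, such that the
complement of `Ω` is `{ξ^N ≤ 0}` near `z₀` (`N` analytic arcs meeting at equal angles; never a tip) and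
`(log |f⁻¹|)² = (|ξ|^N + Re ξ^N)/2`, i.e. `- log |f⁻¹| = |Re ξ^(N/2)|` (harmonic symmetry).

Same conventions; modules import `Pool.Agent.Lib.MP_250511_an.SB.SpecG`.
-/

set_option autoImplicit false

namespace Pool.Agent.Lib.MP250511.SB

open Complex Metric Set MeasureTheory Filter Topology
open scoped Real ENNReal ComplexConjugate ContDiff

noncomputable section

/-- an open half square -/
def HB (η : ℝ) : Set ℂ := {w | 0 < w.re ∧ w.re < η ∧ |w.im| < η}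

/-- NFA [220].  Uses: nothing.  Normal form of a quadratic differential.  Proof: let `n` be the order of
the zero of `h` at `z₀`, `N = n + 2`, `h z = (z - z₀)^n u z`, `u z₀ ≠ 0`; near `z₀`, `u = s²` with `s`
analytic (`s z = c (u z/u z₀)^(1/2)`).  Put `V z = 2 ∫_0^1 y^(N-1) s (z₀ + y² (z - z₀)) dy`: analytic
(differentiation under the integral), `V z₀ = (2/N) s z₀ ≠ 0`, and `(N/2) V + (z - z₀) V' = s`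
(because `d/dy (y^N s (z₀ + y² (z-z₀))) = N y^(N-1) s + 2 y^(N+1) (z - z₀) s'`).  Let
`ξ z = (z - z₀) c' (V z/V z₀)^(2/N)`, `c'^N = (V z₀)²`; so `ξ^N = (z - z₀)^N V²`,
`ξ'(z₀) ≠ 0`.  Differentiating, `N ξ^(N-1) ξ' = 2 (z - z₀)^(N-1) V s`, so (square, divide by
`ξ^N = (z-z₀)^N V²`) `N² ξ^(N-2) ξ'² = 4 (z - z₀)^(N-2) s² = 4 h` (also at `z₀` by continuity).  `χ` is
the local inverse of `ξ` (`HasStrictDerivAt.localInverse`), analytic and injective on a small ball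
`ball 0 r`, `χ' = 1/ξ'(χ)`; then `δ'` by continuity. -/
def SpecNFA : Prop := ∀ (h : ℂ → ℂ) (z₀ : ℂ) (δ : ℝ), 0 < δ → AnalyticOnNhd ℂ h (ball z₀ δ) →
  (∀ᶠ z in 𝓝[≠] z₀, h z ≠ 0) → ∃ (N : ℕ) (ξ χ : ℂ → ℂ) (δ' r : ℝ), 2 ≤ N ∧ 0 < δ' ∧ δ' ≤ δ ∧
    0 < r ∧ AnalyticOnNhd ℂ ξ (ball z₀ δ') ∧ InjOn ξ (ball z₀ δ') ∧ ξ z₀ = 0 ∧
    (∀ z ∈ ball z₀ δ', ‖ξ z‖ < r ∧ χ (ξ z) = z) ∧
    AnalyticOnNhd ℂ χ (ball 0 r) ∧ InjOn χ (ball 0 r) ∧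
    (∀ ζ ∈ ball (0 : ℂ) r, χ ζ ∈ ball z₀ δ ∧
      4 * (h (χ ζ) * deriv χ ζ ^ 2) = (N : ℂ) ^ 2 * ζ ^ (N - 2))

/-- NFB [280].  Uses: nothing.  The half plane version of ARB (copy `SB/ARB.lean`).  Proof: with
`p = g'/g`, `p (ψ w) ψ'(w) = ± 1` when `ψ w ∈ Ω`, `w ≠ 0`.  (0) Let `w = i v`, `0 < v < η`, and suppose
`ψ w ∈ Ω`.  On the open set `A = {t ∈ (0, η) : ψ (i t) ∈ Ω}` the function
`t ↦ - log ‖g (ψ (i t))‖ > 0` has derivative `- Re (± i) = 0`; the component of `A` containing `v` has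
a left end point `t₁ ≥ 0` with `ψ (i t₁) ∉ Ω` (`t₁ = 0`: `ψ 0 ∉ Ω`), where the function tends to `0`
(`bd`, continuity of `ψ`): contradiction.  Same for `v < 0`.  (1) for `0 < u < η` the vertical line
through `u` is in `ψ⁻¹ Ω` or disjoint from it, and the function is constant on it (as ARB (1)).  (2)
`N = {u ∈ (0, η) : ψ u ∉ Ω}` contains no interval (null set).  (3) `γ u = - log ‖g (ψ u)‖ > 0` off `N`,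
`γ' = ± 1`, `γ → 0` at the points of `N` and at `0` (`ψ u → ψ 0 ∉ Ω`).  If `a ∈ N`, a component
`(a', b')` of `(0, a) \ N` has `a' ∈ N ∪ {0}`, `b' ∈ N`: Rolle gives a contradiction.  So `N = ∅`,
`γ u = u`. -/
def SpecNFB : Prop := ∀ (f g : ℂ → ℂ) (Ω : Set ℂ) (ψ : ℂ → ℂ) (η : ℝ), Pair f g Ω → 0 < η →
  ContinuousOn ψ {w | 0 ≤ w.re ∧ w.re < η ∧ |w.im| < η} →
  (∀ w : ℂ, 0 ≤ w.re → w.re < η → |w.im| < η → w ≠ 0 → AnalyticAt ℂ ψ w) →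
  (∀ w : ℂ, 0 ≤ w.re → w.re < η → |w.im| < η → w ≠ 0 → ψ w ∈ Ω →
    qG g (ψ w) * deriv ψ w ^ 2 = 1) →
  InjOn ψ (HB η) → volume (ψ '' HB η \ Ω) = 0 → ψ 0 ∉ Ω →
  ∀ w : ℂ, 0 ≤ w.re → w.re < η → |w.im| < η →
    (ψ w ∉ Ω ↔ w.re = 0) ∧ (ψ w ∈ Ω → - Real.log ‖g (ψ w)‖ = w.re)

/-- NFC [200].  Uses: NFA NFB.  Proof: NFA gives `N, ξ, χ, δ', r`.  Take `η > 0` with
`(2 η)^(2/N) < r` and shrink `δ'` such that `‖ξ z‖^N < η²` on `ball z₀ δ'`.  `z = z₀`: clear.  Let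
`z ≠ z₀`, `ζ = ξ z ≠ 0`, `w = (ζ^N)^(1/2)` (principal, `Re w ≥ 0`, `w² = ζ^N`, `|w| < η`),
`ζ' = w^(2/N)` (cpow), so `ζ'^N = w² = ζ^N` and `ε = ζ/ζ'` satisfies `ε^N = 1`.  Let
`ψ v = χ (ε v^(2/N))`: continuous for `Re v ≥ 0` (at `0`: `0^(2/N) = 0`, `ψ 0 = χ 0 = z₀ ∉ Ω`), analytic
at `v ≠ 0`, `Re v ≥ 0` (`v ∈ slitPlane`); with `Z = ε v^(2/N)`, `Z^N = v²`,
`ψ' = χ'(Z) (2/N) Z/v`, so `h (ψ v) ψ'² = (N²/4) Z^(N-2) (4/N²) Z²/v² = 1`.  Injective on `HB η`: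
`ψ v₁ = ψ v₂` gives `Z₁ = Z₂`, `v₁² = v₂²`, `v₁ = v₂`.  `ψ '' HB η ⊆ ball z₀ δ`, so the null set
condition holds.  NFB at `w`: `ψ w = χ ζ = z`; and `|ζ|^N + Re ζ^N = |w|² + Re w² = 2 (Re w)²`. -/
def SpecNFC : Prop := ∀ (f g h : ℂ → ℂ) (Ω : Set ℂ) (z₀ : ℂ) (δ : ℝ), Pair f g Ω → 0 < δ →
  AnalyticOnNhd ℂ h (ball z₀ δ) → (∀ z ∈ Ω ∩ ball z₀ δ, qG g z = h z) →
  (∀ᶠ z in 𝓝[≠] z₀, h z ≠ 0) → volume (ball z₀ δ \ Ω) = 0 → z₀ ∉ Ω →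
  ∃ N ≥ 2, ∃ δ' > 0, ∃ ξ : ℂ → ℂ, AnalyticOnNhd ℂ ξ (ball z₀ δ') ∧ InjOn ξ (ball z₀ δ') ∧
    ξ z₀ = 0 ∧ ∀ z ∈ ball z₀ δ', (z ∉ Ω ↔ (ξ z ^ N).re = - ‖ξ z‖ ^ N) ∧
      (z ∈ Ω → 2 * Real.log ‖g z‖ ^ 2 = ‖ξ z‖ ^ N + (ξ z ^ N).re)

/-- NFD [80].  Uses: EXF LCF NFC.  THE THEOREM.  Proof: as `FB` (copy `SB/FB.lean`): `Ω = f(D)` is open
and contains `0`, so `z₀ ∉ Ω`, `z₀ ≠ 0`, `z₀ ∉ KK`; LCF gives `δ`, `h`; `h` is not `0` near `z₀` since `Ω`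
meets every ball around `z₀` and `qG g ≠ 0` off `0`, so `h ≠ 0` on a punctured neighbourhood; NFC;
`g (f w) = w`. -/
def SpecNFD : Prop := ∀ f : ℂ → ℂ, Univ f → rho f = S → ∀ z₀ ∈ frontier (f '' ball 0 1),
  (∀ c : ℂ, ball c S.toReal ⊆ f '' ball 0 1 → dist z₀ c ≠ S.toReal) →
  ∃ N ≥ 2, ∃ δ > 0, ∃ ξ : ℂ → ℂ, AnalyticOnNhd ℂ ξ (ball z₀ δ) ∧ InjOn ξ (ball z₀ δ) ∧
    ξ z₀ = 0 ∧ (∀ z ∈ ball z₀ δ, z ∉ f '' ball 0 1 ↔ (ξ z ^ N).re = - ‖ξ z‖ ^ N) ∧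
      ∀ w ∈ ball (0 : ℂ) 1, f w ∈ ball z₀ δ →
        2 * Real.log ‖w‖ ^ 2 = ‖ξ (f w)‖ ^ N + (ξ (f w) ^ N).re

end

end Pool.Agent.Lib.MP250511.SB
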