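import Pool.Agent.Lib.MP_250511_an.SB.SpecE

/-!
# MP_250511_an : the differential equation of the extremal functions for the schlicht Bloch constant

THEOREM (`SpecODE`).  With the measure `ν` of `SB/SpecE.lean`: for every extremal function `f` and every
`w ≠ 0` in the disc
`1/(w f'(w))² = 1/f(w)² - S⁻² ∫ conj (p - c)/(f(w) - p) dν(c, p)`
(a differential equation of Schiffer type: `w² f'² Q(f) = 1`, `Q` explicit in the contact forces).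

IDEA.  Put in the Euler-Lagrange equation the test field
`vZ = (z - ζ)⁻¹ (1 - chi δ (z - ζ)) chi R z (1 - chi r z)`; `dB vZ` has three parts, near `ζ` (mean value:
`π q(ζ)`), near `0` (residue) and near `∞` (tends to `0`), `q = (g'/g)²`.

Conventions as in `SB/SpecE.lean`; modules import `Pool.Agent.Lib.MP_250511_an.SB.SpecR`.
-/

set_option autoImplicit false

namespace Pool.Agent.Lib.MP250511.SB

open Complex Metric Set MeasureTheory Filter Topology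
open scoped Real ENNReal ComplexConjugate ContDiff

noncomputable section

/-- the kernel `T'(2 - ‖z‖²/r²)/r²`, `T` = `Real.smoothTransition` -/
def Ker (r : ℝ) (z : ℂ) : ℂ := ((deriv Real.smoothTransition (2 - ‖z‖ ^ 2 / r ^ 2) / r ^ 2 : ℝ) : ℂ)

/-- the constant field, cut off -/
def cR (r R : ℝ) (z : ℂ) : ℂ := ((chi R z * (1 - chi r z) : ℝ) : ℂ)

/-- the Cauchy kernel, cut off -/
def vZ (ζ : ℂ) (δ r R : ℝ) (z : ℂ) : ℂ :=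
  (z - ζ)⁻¹ * ((1 - chi δ (z - ζ) : ℝ) : ℂ) * cR r R z

/-- KER [100].  Uses: nothing.  PROOF.  `T = Real.smoothTransition` is smooth, constant on `(-∞, 0]` and
on `[1, ∞)`, so `T'` is continuous, zero off `(0, 1)`, bounded by some `B`.  `‖z‖ ≤ r` gives
`2 - ‖z‖²/r² ≥ 1`; `‖z‖² ≥ 2 r²` gives `≤ 0`.  `Ker` is even. -/
def SpecKER : Prop := (∀ r : ℝ, 0 < r → Continuous (Ker r) ∧ (∀ z, ‖z‖ ≤ r → Ker r z = 0) ∧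
    (∀ z, 2 * r ^ 2 ≤ ‖z‖ ^ 2 → Ker r z = 0) ∧ ∀ z, Ker r (-z) = Ker r z) ∧
  ∃ B : ℝ, 0 ≤ B ∧ ∀ r : ℝ, 0 < r → ∀ z, ‖Ker r z‖ ≤ B / r ^ 2

/-- MVP [180].  Uses: KER.  Mean value.  PROOF.  Translate to `a = 0`.  Polar coordinates
(`Complex.integral_comp_polarCoord_symm`), `Ker` is radial, the mean value property on circles
(`circleAverage` / `circleIntegral` of an analytic function on `closedBall 0 s`, `s < 2r`), and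
`∫_0^∞ T'(2 - s²/r²)/r² s ds = 1/2 [T(2 - s²/r²)]_∞^0 = (T 2 - 0)/2 = 1/2`, since
`d/ds T(2 - s²/r²) = - 2 (s/r²) T'(2 - s²/r²)`.  So the integral is `2π · 1/2 · w 0`. -/
def SpecMVP : Prop := ∀ (a : ℂ) (r : ℝ) (w : ℂ → ℂ), 0 < r → AnalyticOnNhd ℂ w (ball a (2 * r)) →
  ∫ z, Ker r (z - a) * w z = (π : ℂ) * w a

/-- LAU [120].  Uses: nothing.  PROOF.  `g 0 = 0`, `g'(0) = 1` (`dGF` at `0`), `g = z a z` with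
`a = dslope g 0` analytic on `Ω`, `a z ≠ 0` on `Ω` (`g z = 0` only at `z = 0`: `FG`; `a 0 = g'(0) = 1`).
`w₁ z = (g' z/a z)²`; for `z ≠ 0` in `Ω`: `qG g z = (g'/g)² = w₁ z/z²`.  `w₁` is analytic on `Ω`. -/
def SpecLAU : Prop := ∀ (f g : ℂ → ℂ) (Ω : Set ℂ), Pair f g Ω → deriv f 0 = 1 →
  ∃ w₁ : ℂ → ℂ, AnalyticOnNhd ℂ w₁ Ω ∧ w₁ 0 = 1 ∧ ∀ z ∈ Ω, z ≠ 0 → qG g z = w₁ z / z ^ 2

/-- INN [180].  Uses: KER MVP.  Inner integrals.  PROOF.  (1) For `W` analytic on `ball 0 (2r)`, by MVP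
applied to `dslope W 0` (analytic, value `W'(0)` at `0`) and since `∫ Ker r z W(0)/z = 0` (odd; `Ker = 0`
near `0`, so the integrand is continuous with compact support): `∫ Ker r z * (W z / z) = π W'(0)`.
(2) `Ker r z = 0` for `‖z‖ ≥ 2r`, so the integrals over `Ω` are integrals over the plane, and for
`z ≠ 0` in `ball 0 (2r)` (`z = 0` is a null set, and `Ker r 0 = 0`): `z q z = w₁ z/z`,
`z q z/(z - ζ) = W z/z`, `W = w₁/(z - ζ)` analytic on `ball 0 (2r)` as `‖ζ‖ ≥ 2r`, and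
`W'(0) = -w₁'(0)/ζ - w₁(0)/ζ²`.  (3) MVP at `ζ` with `w = q`. -/
def SpecINN : Prop := ∀ (Ω : Set ℂ) (q w₁ : ℂ → ℂ), IsOpen Ω → AnalyticOnNhd ℂ w₁ Ω → w₁ 0 = 1 →
  (∀ z ∈ Ω, z ≠ 0 → q z = w₁ z / z ^ 2) → ∀ r : ℝ, 0 < r → closedBall 0 (2 * r) ⊆ Ω →
  (∫ z in Ω, Ker r z * z * q z = (π : ℂ) * deriv w₁ 0) ∧
  ∀ ζ : ℂ, 2 * r ≤ ‖ζ‖ →
    (∫ z in Ω, Ker r z * (z / (z - ζ)) * q z = -((π : ℂ) * (deriv w₁ 0 / ζ + 1 / ζ ^ 2))) ∧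
    ∀ δ : ℝ, 0 < δ → closedBall ζ (2 * δ) ⊆ Ω → (0 : ℂ) ∉ closedBall ζ (2 * δ) →
      ∫ z in Ω, Ker δ (z - ζ) * q z = (π : ℂ) * q ζ

/-- OUT [120].  Uses: KER.  Outer integrals.  PROOF.  `Ker R z = 0` unless `R < ‖z‖ < 2 R`; there
`‖Ker R z * z‖ ≤ 2 B/R`, `‖z/(z - ζ)‖ ≤ 2` for `R > 2‖ζ‖`, so both integrals are bounded by
`C ∫_{Ω \ ball 0 R} ‖q‖` for `R = n + 1 ≥ 1`, which tends to `0` (`q` integrable on `Ω \ ball 0 s`). -/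
def SpecOUT : Prop := ∀ (Ω : Set ℂ) (q : ℂ → ℂ), IsOpen Ω → (∀ s : ℝ, 0 < s →
  IntegrableOn q (Ω \ ball 0 s)) →
  Tendsto (fun n : ℕ => ∫ z in Ω, Ker (n + 1) z * z * q z) atTop (𝓝 0) ∧
  ∀ ζ : ℂ, Tendsto (fun n : ℕ => ∫ z in Ω, Ker (n + 1) z * (z / (z - ζ)) * q z) atTop (𝓝 0)

/-- CVZ [180].  Uses: CUT.  The test fields.  PROOF.  `dB chi R z = - Ker R z * z` (chain rule,
`∂̄ ‖z‖² = z`), `dB (u v) = u dB v + v dB u`, `dB = 0` for holomorphic functions.  Smoothness of `vZ` at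
`ζ`: `1 - chi δ (z - ζ) = 0` on `ball ζ δ`.  Products: where `Ker δ (z - ζ) ≠ 0`, `‖z - ζ‖ < 2 δ`, so
`‖z‖ > 2 r` and `‖z‖ < R`, and the other cutoffs are `1`; where `Ker r z ≠ 0`, `‖z‖ < 2 r`, so
`‖z - ζ‖ ≥ 2 δ`, `chi δ (z - ζ) = 0`, `chi R z = 1`; where `Ker R z ≠ 0`, `‖z‖ > R`, so
`‖z - ζ‖ ≥ 2 δ` and `chi r z = 0`. -/
def SpecCVZ : Prop := ∀ r R : ℝ, 0 < r → 2 * r < R →
  (ContDiff ℝ ∞ (cR r R) ∧ HasCompactSupport (cR r R) ∧ (0 : ℂ) ∉ tsupport (cR r R) ∧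
    ∀ z, dB (cR r R) z = Ker r z * z - Ker R z * z) ∧
  ∀ (ζ : ℂ) (δ : ℝ), 0 < δ → 2 * r + 2 * δ ≤ ‖ζ‖ → ‖ζ‖ + 2 * δ ≤ R →
    ContDiff ℝ ∞ (vZ ζ δ r R) ∧ HasCompactSupport (vZ ζ δ r R) ∧
    (0 : ℂ) ∉ tsupport (vZ ζ δ r R) ∧
    ∀ z, dB (vZ ζ δ r R) z =
      Ker δ (z - ζ) + Ker r z * (z / (z - ζ)) - Ker R z * (z / (z - ζ))

/-- RHS [150].  Uses: CUT.  The right sides.  PROOF.  `Ω` contains `closedBall 0 (2r)` and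
`closedBall ζ (2δ)`, so for `(c, p) ∈ CC` (`p ∉ Ω`): `chi r p = 0`, `chi δ (p - ζ) = 0`, so
`cR p = chi R p`, `vZ p = (p - ζ)⁻¹ chi R p`, which tend to `1`, `(p - ζ)⁻¹` (eventually equal), and
`‖(p - ζ)⁻¹‖ ≤ 1/(2δ)`, `|p - c| = ρ`: dominated convergence.  Third: as the first, with `chi R c`. -/
def SpecRHS : Prop := ∀ (Ω : Set ℂ) (ρ : ℝ) (ν : Measure (ℂ × ℂ)), IsFiniteMeasure ν →
  ν (CC Ω ρ)ᶜ = 0 → ∀ r : ℝ, 0 < r → closedBall 0 (2 * r) ⊆ Ω →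
  Tendsto (fun n : ℕ => ∫ x, conj (x.2 - x.1) * cR r (n + 1) x.2 ∂ν) atTop
    (𝓝 (∫ x, conj (x.2 - x.1) ∂ν)) ∧
  Tendsto (fun n : ℕ => ∫ x, conj (x.2 - x.1) * ((chi (n + 1) x.1 : ℝ) : ℂ) ∂ν) atTop
    (𝓝 (∫ x, conj (x.2 - x.1) ∂ν)) ∧
  ∀ (ζ : ℂ) (δ : ℝ), 0 < δ → closedBall ζ (2 * δ) ⊆ Ω →
    Tendsto (fun n : ℕ => ∫ x, conj (x.2 - x.1) * vZ ζ δ r (n + 1) x.2 ∂ν) atTop
      (𝓝 (∫ x, conj (x.2 - x.1) / (x.2 - ζ) ∂ν))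

/-- REP [150].  Uses: ING KER LAU INN OUT CUT CVZ RHS.  PROOF.  `ζ ∈ Ω`, `ζ ≠ 0`; choose `r`, `δ` with
`closedBall 0 (2r) ⊆ Ω`, `closedBall ζ (2δ) ⊆ Ω`, `2r + 2δ ≤ ‖ζ‖`.  `q = qG g`, `A = w₁'(0)` (LAU).  The
integrals are linear: every `Ker` term times `q` is integrable on `Ω` (zero near `0`, bounded, ING).
(1) `v = cR r (n+1)`: `ρ²/π (π A - o(1)) = ∫ conj (p - c) cR dν → ∫ conj (p - c) dν`, which is `0` by the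
equilibrium with `b = chi (n+1)` (RHS): `A = 0`.  (2) `v = vZ`:
`ρ²/π (π q ζ - π (A/ζ + 1/ζ²) - o(1)) → ∫ conj (p - c)/(p - ζ) dν`. -/
def SpecREP : Prop := ∀ (f g : ℂ → ℂ) (Ω : Set ℂ) (ρ : ℝ) (ν : Measure (ℂ × ℂ)), Pair f g Ω →
  deriv f 0 = 1 → 0 < ρ → IsFiniteMeasure ν → ν (CC Ω ρ)ᶜ = 0 →
  (∀ v : ℂ → ℂ, ContDiff ℝ ∞ v → HasCompactSupport v → (0 : ℂ) ∉ tsupport v →
    ((ρ ^ 2 / π : ℝ) : ℂ) * ∫ z in Ω, dB v z * qG g z = ∫ x, conj (x.2 - x.1) * v x.2 ∂ν) →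
  (∀ b : ℂ → ℂ, Continuous b → HasCompactSupport b → ∫ x, conj (x.2 - x.1) * b x.1 ∂ν = 0) →
  ∀ ζ ∈ Ω, ζ ≠ 0 →
    qG g ζ = 1 / ζ ^ 2 - (∫ x, conj (x.2 - x.1) / (ζ - x.2) ∂ν) / (ρ : ℂ) ^ 2

/-- THE THEOREM (`ODE`).  Uses: EXF MUL MAS CPX REP. -/
def SpecODE : Prop := ∀ f : ℂ → ℂ, Univ f → rho f = S →
  ∃ ν : Measure (ℂ × ℂ), IsProbabilityMeasure ν ∧
    (∀ᵐ x ∂ν, ball x.1 S.toReal ⊆ f '' ball 0 1 ∧ x.2 ∉ f '' ball 0 1 ∧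
      dist x.2 x.1 = S.toReal) ∧
    (∀ b : ℂ → ℂ, Continuous b → HasCompactSupport b → ∫ x, conj (x.2 - x.1) * b x.1 ∂ν = 0) ∧
    ∀ w ∈ ball (0 : ℂ) 1, w ≠ 0 →
      1 / (w * deriv f w) ^ 2 = 1 / f w ^ 2 -
        (∫ x, conj (x.2 - x.1) / (f w - x.2) ∂ν) / (S.toReal : ℂ) ^ 2

end

end Pool.Agent.Lib.MP250511.SB
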