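import Pool.Agent.Lib.MP_250511_an.SB.SpecR

/-!
# MP_250511_an : the contact forces of an extremal domain reach to infinity

THEOREM (`SpecFUL`).  The measure `ν` of the differential equation (`SB/SpecR.lean`) is not
concentrated on a bounded set: in particular there are infinitely many contact pairs, and the
function `Q` of the equation `w² f'² Q(f) = 1` is never rational.

IDEA.  Otherwise `Q` is analytic near `∞`, and `Q(z) = O(|z|⁻³)` by the balance of forces and by total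
mass `1`; so `Q` is nearly constant on `ball z₁ (64 ρ)` for `z₁` far away; in the chart `ξ = ∫ √Q` the
complement `E` (of area zero) is one vertical line (ARB), so `Ω` contains a ball of radius `2ρ`.

Conventions as in `SB/SpecE.lean`; modules import `Pool.Agent.Lib.MP_250511_an.SB.SpecU`.
-/

set_option autoImplicit false

namespace Pool.Agent.Lib.MP250511.SB

open Complex Metric Set MeasureTheory Filter Topology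
open scoped Real ENNReal ComplexConjugate ContDiff

noncomputable section

/-- the function `Q` near `∞` -/
def HH (ρ : ℝ) (ν : Measure (ℂ × ℂ)) (z : ℂ) : ℂ :=
  -(∫ x, conj (x.2 - x.1) * x.2 ^ 2 / (z - x.2) ∂ν) / ((ρ : ℂ) ^ 2 * z ^ 2)

/-- MOM [180].  Uses: nothing.  PROOF.  For ν-a.e. `(c, p)`: `|p - c| = ρ`, `|p| ≤ M`, so `|c| ≤ M + ρ`;
`ν` is a probability measure, so all integrands below are bounded a.e. and integrable for `M < ‖z‖`.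
Let `b` be continuous with compact support (a bump) with `b = 1`, resp. `b(c) = c`, on `‖c‖ ≤ M + ρ`:
the equilibrium gives `∫ conj (p - c) dν = 0`, `∫ conj (p - c) c dν = 0`; so
`∫ conj (p - c) p dν = ∫ |p - c|² dν = ρ²`.  Now `1/(z - p) = 1/z + p/z² + p²/(z² (z - p))` gives
`∫ conj (p-c)/(z-p) = 0 + ρ²/z² + z⁻² ∫ conj (p-c) p²/(z-p)`: third claim.  Second: for
`‖z‖ ≥ 2 M + 1`, `|z - p| ≥ ‖z‖/2`.  First: `z ↦ ∫ h(x)/(z - x.2) dν` is analytic on `‖z‖ > M`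
(`hasDerivAt_integral_of_dominated_loc_of_deriv_le`, or `DifferentiableOn` on the open set), `h` bounded
a.e. -/
def SpecMOM : Prop := ∀ (Ω : Set ℂ) (ρ M : ℝ) (ν : Measure (ℂ × ℂ)), 0 < ρ → 0 ≤ M →
  IsProbabilityMeasure ν → ν (CC Ω ρ)ᶜ = 0 → (∀ᵐ x ∂ν, ‖x.2‖ ≤ M) →
  (∀ b : ℂ → ℂ, Continuous b → HasCompactSupport b → ∫ x, conj (x.2 - x.1) * b x.1 ∂ν = 0) →
  AnalyticOnNhd ℂ (HH ρ ν) {z | M < ‖z‖} ∧
  (∃ C : ℝ, ∀ z, 2 * M + 1 ≤ ‖z‖ → ‖HH ρ ν z‖ ≤ C / ‖z‖ ^ 3) ∧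
  ∀ z : ℂ, M < ‖z‖ →
    1 / z ^ 2 - (∫ x, conj (x.2 - x.1) / (z - x.2) ∂ν) / (ρ : ℂ) ^ 2 = HH ρ ν z

/-- ORD [180].  Uses: nothing.  Behaviour at `∞`.  PROOF.  `G t = H (1/t)` is analytic and bounded on
`0 < ‖t‖ < r`, so it extends analytically to `0` (removable singularity:
`Complex.analyticOnNhd_update_limUnder..`, `differentiableOn_update_limUnder_of_bddAbove`), and it is not
identically zero near `0` (else `H = 0` near `∞`, so on the connected set `M < ‖z‖`: identity theorem in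
`{M < ‖z‖}`, which is preconnected, or by analytic continuation of `G` on the punctured ball).  So
`G t = t^k a(t)`, `a` analytic, `a 0 ≠ 0` (`AnalyticAt.exists_eventuallyEq_pow_smul_nonzero_iff`);
`H z/H z₀ = (z₀/z)^k a(1/z)/a(1/z₀)`.  As `‖z₀‖ → ∞`, uniformly for `z ∈ ball z₀ L`: `z₀/z → 1`,
`a(1/z)/a(1/z₀) → 1`. -/
def SpecORD : Prop := ∀ (H : ℂ → ℂ) (M : ℝ), 0 ≤ M → AnalyticOnNhd ℂ H {z | M < ‖z‖} →
  (∃ C R : ℝ, ∀ z, R < ‖z‖ → ‖H z‖ ≤ C) → (¬ ∀ z : ℂ, M < ‖z‖ → H z = 0) →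
  ∀ L : ℝ, 0 < L → ∀ ε : ℝ, 0 < ε → ∃ R : ℝ, ∀ z₀ : ℂ, R < ‖z₀‖ →
    H z₀ ≠ 0 ∧ ∀ z ∈ ball z₀ L, ‖H z / H z₀ - 1‖ ≤ ε

/-- CHT [220].  Uses: nothing.  A chart of definite size.  PROOF.  `k₁² = H z₁`, `k z = k₁ (H z/H z₁)^(1/2)`
(principal branch, `|H z/H z₁ - 1| ≤ 1/100`): analytic on `ball z₁ L`, `k² = H`, `|k z - k₁| ≤ |k₁|/100`
(`|√(1+w) - 1| ≤ |w|`).  `ξ` = primitive of `k` on the ball (`DifferentiableOn.isExactOn_ball` or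
`..exists_primitive`), `ξ z₁ = 0`.  By the mean value inequality on the convex ball
`|ξ z - ξ z' - k₁ (z - z')| ≤ |k₁||z - z'|/100`: `ξ` is injective and
`ApproximatesLinearOn ξ (k₁ ·) (ball z₁ L) (|k₁|/100)`, so `ξ (closedBall z₁ (L/2))` contains
`closedBall 0 (0.49 |k₁| L)` (`ApproximatesLinearOn.surjOn_closedBall_of_nonlinearRightInverse`), hence
`Box η`, `η = |k₁| L/4` (points of norm `≤ √2 η ≤ 0.36 |k₁| L`).  `ψ` = the inverse on `Box η`: analytic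
(`ξ' = k ≠ 0`, inverse function theorem), `ψ' = 1/k(ψ)`.  Last claim: for `z ∈ ball z₁ (L/8)`,
`q = ξ z` satisfies `|q| ≤ 1.01 |k₁| L/8 < η`, `ψ q = z` (injectivity), and
`|q - k₁ (z - z₁)| ≤ |k₁||z - z₁|/100`. -/
def SpecCHT : Prop := ∀ (H : ℂ → ℂ) (z₁ : ℂ) (L : ℝ), 0 < L → AnalyticOnNhd ℂ H (ball z₁ L) →
  H z₁ ≠ 0 → (∀ z ∈ ball z₁ L, ‖H z / H z₁ - 1‖ ≤ 1 / 100) →
  ∃ (ψ : ℂ → ℂ) (η : ℝ) (k₁ : ℂ), 0 < η ∧ k₁ ≠ 0 ∧ AnalyticOnNhd ℂ ψ (Box η) ∧ InjOn ψ (Box η) ∧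
    ψ 0 = z₁ ∧ (∀ q ∈ Box η, ψ q ∈ ball z₁ L ∧ H (ψ q) * deriv ψ q ^ 2 = 1) ∧
    ∀ z ∈ ball z₁ (L / 8), ∃ q ∈ Box η, ψ q = z ∧ ‖q - k₁ * (z - z₁)‖ ≤ ‖k₁‖ * ‖z - z₁‖ / 100

/-- UNB [180].  Uses: ARB MOM ORD CHT.  PROOF.  Suppose `‖x.2‖ ≤ M` a.e., `M ≥ 0`.  By MOM and the formula
`qG g z = HH z` for `z ∈ Ω`, `M < ‖z‖`, `z ≠ 0`.  `HH` is not identically zero there: `Ωᶜ` is a null set,
so `Ω` meets `{M + 1 < ‖z‖}`, and `qG g ≠ 0` on `Ω \ {0}` (`dG`, and `g z = 0` only for `z = 0`).  ORD with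
`L = 64 ρ`, `ε = 1/100` gives `R`.  Some `z₁ ∉ Ω` has `‖z₁‖ > max R (M + 64 ρ)`: every ball of radius
`2 ρ` contains a point of `Ωᶜ` (`ExU.inr`), take one far away.  CHT at `z₁` (`H = HH`).  ARB with `ψ`, `η`
(`ψ (Box η) \ Ω` is a null set; `ψ q ∈ ball z₁ L ⊆ {M < ‖z‖}`): `ψ q ∉ Ω ↔ q.re = 0` on `Box η`.  Let
`e = conj k₁/‖k₁‖`, so `k₁ e = ‖k₁‖`; every `z` in `ball (z₁ + (L/16) e) (L/32)` is in `ball z₁ (L/8)`,
`‖z - z₁‖ ≤ 3L/32`, `Re (k₁ (z - z₁)) ≥ ‖k₁‖ (L/16 - L/32)`, so its `q` has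
`q.re ≥ ‖k₁‖ (L/32 - 3L/3200) > 0`: `z ∈ Ω`.  So `Ω` contains a ball of radius `L/32 = 2 ρ > ρ`. -/
def SpecUNB : Prop := ∀ (f g : ℂ → ℂ) (Ω : Set ℂ) (ρ : ℝ) (ν : Measure (ℂ × ℂ)), ExU f g Ω ρ →
  volume Ωᶜ = 0 → IsProbabilityMeasure ν → ν (CC Ω ρ)ᶜ = 0 →
  (∀ b : ℂ → ℂ, Continuous b → HasCompactSupport b → ∫ x, conj (x.2 - x.1) * b x.1 ∂ν = 0) →
  (∀ ζ ∈ Ω, ζ ≠ 0 →
    qG g ζ = 1 / ζ ^ 2 - (∫ x, conj (x.2 - x.1) / (ζ - x.2) ∂ν) / (ρ : ℂ) ^ 2) →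
  ∀ M : ℝ, ¬ ∀ᵐ x ∂ν, ‖x.2‖ ≤ M

/-- THE THEOREM (`FUL`).  Uses: EXF MUL MAS CPX REP UNB (and that the complement is a null set). -/
def SpecFUL : Prop := (∀ f : ℂ → ℂ, Univ f → rho f = S → volume (f '' ball 0 1)ᶜ = 0) →
  ∀ f : ℂ → ℂ, Univ f → rho f = S →
  ∃ ν : Measure (ℂ × ℂ), IsProbabilityMeasure ν ∧
    (∀ᵐ x ∂ν, ball x.1 S.toReal ⊆ f '' ball 0 1 ∧ x.2 ∉ f '' ball 0 1 ∧
      dist x.2 x.1 = S.toReal) ∧
    (∀ b : ℂ → ℂ, Continuous b → HasCompactSupport b → ∫ x, conj (x.2 - x.1) * b x.1 ∂ν = 0) ∧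
    (∀ w ∈ ball (0 : ℂ) 1, w ≠ 0 →
      1 / (w * deriv f w) ^ 2 = 1 / f w ^ 2 -
        (∫ x, conj (x.2 - x.1) / (f w - x.2) ∂ν) / (S.toReal : ℂ) ^ 2) ∧
    ∀ M : ℝ, ν {x | M < ‖x.2‖} ≠ 0

end

end Pool.Agent.Lib.MP250511.SB
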