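import Pool.Agent.Lib.MP_250511_an.SB.SpecU
import Pool.Agent.Lib.MP_250511_an.SB.SpecG

/-!
# MP_250511_an : extremal domains at isolated contact points, and near infinity

THEOREM (`SpecSTR`).  Let `z₀` be a point of the complement such that no OTHER point near `z₀` is touched
by a disc of radius `S` in `Ω` (`z₀` may be touched).  Then near `z₀` the complement is `{ξ^N ≤ 0}` with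
`N ≥ 1` (`N ≥ 2` if `z₀` is not touched), and `(log |f⁻¹|)² = (|ξ|^N + Re ξ^N)/2`.

IDEA.  By the differential equation `(g'/g)² = h₀ + F/(z - z₀)` near `z₀`, `F` a constant multiple of the
total contact force at `z₀`.  `F = 0`: the landed NFC.  `F ≠ 0`: the same with a simple pole, `N = 1`.

Conventions as in `SB/SpecE.lean`; modules import `Pool.Agent.Lib.MP_250511_an.SB.SpecV`.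
-/

set_option autoImplicit false

namespace Pool.Agent.Lib.MP250511.SB

open Complex Metric Set MeasureTheory Filter Topology
open scoped Real ENNReal ComplexConjugate ContDiff

noncomputable section

/-- NFP [300].  Uses: nothing.  Normal form at a simple pole (`N = 1`).  ADAPT `NFA`.  PROOF.  Near `z₀`,
`a = s²` with `s` analytic, `s z₀ ≠ 0`.  Put `V z = 2 ∫_0^1 s (z₀ + y² (z - z₀)) dy`: analytic,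
`V z₀ = 2 s z₀ ≠ 0`, and `V/2 + (z - z₀) V' = s` (because
`d/dy (y s (z₀ + y² (z-z₀))) = s + 2 y² (z - z₀) s'`).  Let `ξ z = (z - z₀) (V z)²`: `ξ z₀ = 0`,
`ξ' = V² + 2 (z - z₀) V V' = 2 V s`, `ξ'(z₀) = V z₀² ≠ 0`, so `(z - z₀) ξ'² = 4 (z - z₀) V² s² = 4 a ξ`.
`χ` is the local inverse of `ξ`, analytic and injective on a small `ball 0 r`, `χ' = 1/ξ'(χ)`:
`4 a(χ ζ) χ'(ζ)² ζ = χ ζ - z₀`. -/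
def SpecNFP : Prop := ∀ (a : ℂ → ℂ) (z₀ : ℂ) (δ : ℝ), 0 < δ → AnalyticOnNhd ℂ a (ball z₀ δ) →
  a z₀ ≠ 0 → ∃ (ξ χ : ℂ → ℂ) (δ' r : ℝ), 0 < δ' ∧ δ' ≤ δ ∧
    0 < r ∧ AnalyticOnNhd ℂ ξ (ball z₀ δ') ∧ InjOn ξ (ball z₀ δ') ∧ ξ z₀ = 0 ∧
    (∀ z ∈ ball z₀ δ', ‖ξ z‖ < r ∧ χ (ξ z) = z) ∧
    AnalyticOnNhd ℂ χ (ball 0 r) ∧ InjOn χ (ball 0 r) ∧
    (∀ ζ ∈ ball (0 : ℂ) r, χ ζ ∈ ball z₀ δ ∧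
      4 * (a (χ ζ) * deriv χ ζ ^ 2) * ζ = χ ζ - z₀)

/-- NFT [220].  Uses: NFP NFB.  The tip.  ADAPT `NFC` (`N = 1`, `ε = 1`).  PROOF.  NFP gives `ξ, χ, δ', r`.
Take `η > 0` with `4 η² < r` and shrink `δ'` such that `‖ξ z‖ < η²` on `ball z₀ δ'`.  `z = z₀`: clear
(`ξ z₀ = 0`, `z₀ ∉ Ω`).  Let `z ≠ z₀`, `ζ = ξ z ≠ 0`, `w = ζ^(1/2)` (principal, `Re w ≥ 0`, `w² = ζ`,
`|w| < η`).  Let `ψ v = χ (v²)`, analytic for `|v|² < r`, `ψ 0 = z₀ ∉ Ω`, `ψ' = 2 v χ'(v²)`; for `v ≠ 0`,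
`ψ v ≠ z₀` (`χ` injective, `χ 0 = z₀`) and with `ζ = v²`:
`qG g (ψ v) ψ'² = a (ψ v)/(ψ v - z₀) 4 v² χ'² = (4 a χ'² ζ)/(χ ζ - z₀) = 1`.  Injective on `HB η`
(`v₁² = v₂²`, real parts positive).  NFB at `w`: `ψ w = χ ζ = z`; `|ζ| + Re ζ = |w|² + Re w² = 2 (Re w)²`,
and `w.re = 0 ↔ ζ ≤ 0`. -/
def SpecNFT : Prop := ∀ (f g a : ℂ → ℂ) (Ω : Set ℂ) (z₀ : ℂ) (δ : ℝ), Pair f g Ω → 0 < δ →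
  AnalyticOnNhd ℂ a (ball z₀ δ) → a z₀ ≠ 0 → (∀ z ∈ Ω ∩ ball z₀ δ, qG g z = a z / (z - z₀)) →
  volume (ball z₀ δ \ Ω) = 0 → z₀ ∉ Ω →
  ∃ δ' > 0, ∃ ξ : ℂ → ℂ, AnalyticOnNhd ℂ ξ (ball z₀ δ') ∧ InjOn ξ (ball z₀ δ') ∧
    ξ z₀ = 0 ∧ ∀ z ∈ ball z₀ δ', (z ∉ Ω ↔ (ξ z).re = - ‖ξ z‖) ∧
      (z ∈ Ω → 2 * Real.log ‖g z‖ ^ 2 = ‖ξ z‖ + (ξ z).re)

/-- ISO [200].  Uses: nothing.  PROOF.  `A = {x | x.2 = z₀}` (closed, measurable).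
`∫ conj (p-c)/(z-p) dν = (∫_A conj (p-c) dν)/(z - z₀) + ∫_{Aᶜ} conj (p-c)/(z-p) dν` for
`z ∈ Ω ∩ ball z₀ δ` (`|z - p| ≥ dist z Ωᶜ > 0` for `p ∉ Ω`, `|p - c| = ρ` a.e.: integrable).  On `Aᶜ`,
a.e. `|p - z₀| ≥ δ` (hypothesis), so `h₁ z = ∫_{Aᶜ} conj (p-c)/(z-p) dν` is analytic on `ball z₀ δ`
(differentiation under the integral, locally `|z - p| ≥ δ - |z - z₀|`).  `h₀ = 1/z² - h₁/ρ²`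
(`0 ∉ ball z₀ δ`), `F = - (∫_A conj (p - c) dν)/ρ²`.  If `z₀` is not touched, `CC ∩ A = ∅`, so `ν A = 0`,
`F = 0`. -/
def SpecISO : Prop := ∀ (g : ℂ → ℂ) (Ω : Set ℂ) (ρ : ℝ) (ν : Measure (ℂ × ℂ)), 0 < ρ → IsOpen Ω →
  IsFiniteMeasure ν → ν (CC Ω ρ)ᶜ = 0 →
  (∀ ζ ∈ Ω, ζ ≠ 0 →
    qG g ζ = 1 / ζ ^ 2 - (∫ x, conj (x.2 - x.1) / (ζ - x.2) ∂ν) / (ρ : ℂ) ^ 2) →
  ∀ (z₀ : ℂ) (δ : ℝ), 0 < δ → (0 : ℂ) ∉ ball z₀ δ →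
  (∀ x ∈ CC Ω ρ, x.2 ∈ ball z₀ δ → x.2 = z₀) →
  ∃ (F : ℂ) (h₀ : ℂ → ℂ), AnalyticOnNhd ℂ h₀ (ball z₀ δ) ∧
    (∀ z ∈ Ω ∩ ball z₀ δ, z ≠ z₀ → qG g z = h₀ z + F / (z - z₀)) ∧
    ((∀ x ∈ CC Ω ρ, x.2 ≠ z₀) → F = 0)

/-- STR [150].  Uses: NFC NFT ISO.  PROOF.  `0 ∈ Ω`, so `z₀ ≠ 0`; shrink `δ` such that `0 ∉ ball z₀ δ`.  ISO.
`F = 0`: NFC with `h = h₀` (`h₀ ≠ 0` on a punctured ball: it is analytic and not identically zero near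
`z₀`, since `Ω` meets every ball around `z₀` (null complement) and `qG g ≠ 0` on `Ω \ {0}`).  `F ≠ 0`: then
`z₀` is touched; NFT with `a z = (z - z₀) h₀ z + F`, `N = 1` (`pow_one`). -/
def SpecSTR : Prop := ∀ (f g : ℂ → ℂ) (Ω : Set ℂ) (ρ : ℝ) (ν : Measure (ℂ × ℂ)), ExU f g Ω ρ →
  volume Ωᶜ = 0 → IsFiniteMeasure ν → ν (CC Ω ρ)ᶜ = 0 →
  (∀ ζ ∈ Ω, ζ ≠ 0 →
    qG g ζ = 1 / ζ ^ 2 - (∫ x, conj (x.2 - x.1) / (ζ - x.2) ∂ν) / (ρ : ℂ) ^ 2) →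
  ∀ (z₀ : ℂ) (δ : ℝ), 0 < δ → z₀ ∉ Ω → (∀ x ∈ CC Ω ρ, x.2 ∈ ball z₀ δ → x.2 = z₀) →
  ∃ N ≥ 1, ((∀ x ∈ CC Ω ρ, x.2 ≠ z₀) → 2 ≤ N) ∧ ∃ δ' > 0, ∃ ξ : ℂ → ℂ,
    AnalyticOnNhd ℂ ξ (ball z₀ δ') ∧ InjOn ξ (ball z₀ δ') ∧
    ξ z₀ = 0 ∧ ∀ z ∈ ball z₀ δ', (z ∉ Ω ↔ (ξ z ^ N).re = - ‖ξ z‖ ^ N) ∧
      (z ∈ Ω → 2 * Real.log ‖g z‖ ^ 2 = ‖ξ z‖ ^ N + (ξ z ^ N).re)

/-- NRT [120].  Uses: ARB ORD CHT.  (helper27)  `Q` has no analytic continuation with at most a pole at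
`∞`.  ADAPT `UNB` (landed).  PROOF.  Suppose `qG g z = H z` for `z ∈ Ω`, `M < ‖z‖`.  `H' z = H z/z^m` is
analytic on `{M < ‖z‖}` (`z ≠ 0`), bounded by `C`, not identically `0` (`Ω` meets `{M < ‖z‖}`, null
complement, and `qG g ≠ 0` on `Ω \ {0}`).  ORD for `H'` with `L = 64 ρ`, `ε = 1/300` and
`|(z/z₀)^m - 1| ≤ 1/300` for `‖z₀‖` large, `z ∈ ball z₀ L`, give `‖H z/H z₀ - 1‖ ≤ 1/100` on `ball z₀ L`.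
Then as in UNB: CHT at a far `z₁ ∉ Ω`, ARB, and `Ω` contains a ball of radius `2 ρ`, against `ExU.inr`. -/
def SpecNRT : Prop := ∀ (f g : ℂ → ℂ) (Ω : Set ℂ) (ρ : ℝ), ExU f g Ω ρ → volume Ωᶜ = 0 →
  ∀ (M C : ℝ) (m : ℕ) (H : ℂ → ℂ), 0 ≤ M → AnalyticOnNhd ℂ H {z | M < ‖z‖} →
  (∀ z, M < ‖z‖ → ‖H z‖ ≤ C * ‖z‖ ^ m) → ¬ ∀ z ∈ Ω, M < ‖z‖ → qG g z = H z

/-- THE THEOREM (`FINE`, helper36).  Uses: EXF MUL MAS CPX REP UNB STR NRT (and that the complement is a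
null set). -/
def SpecFINE : Prop := (∀ f : ℂ → ℂ, Univ f → rho f = S → volume (f '' ball 0 1)ᶜ = 0) →
  ∀ f : ℂ → ℂ, Univ f → rho f = S →
  (∃ ν : Measure (ℂ × ℂ), IsProbabilityMeasure ν ∧
    (∀ᵐ x ∂ν, ball x.1 S.toReal ⊆ f '' ball 0 1 ∧ x.2 ∉ f '' ball 0 1 ∧
      dist x.2 x.1 = S.toReal) ∧
    (∀ b : ℂ → ℂ, Continuous b → HasCompactSupport b → ∫ x, conj (x.2 - x.1) * b x.1 ∂ν = 0) ∧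
    (∀ w ∈ ball (0 : ℂ) 1, w ≠ 0 →
      1 / (w * deriv f w) ^ 2 = 1 / f w ^ 2 -
        (∫ x, conj (x.2 - x.1) / (f w - x.2) ∂ν) / (S.toReal : ℂ) ^ 2) ∧
    ∀ M : ℝ, ν {x | M < ‖x.2‖} ≠ 0) ∧
  (∀ (M C : ℝ) (m : ℕ) (H : ℂ → ℂ), AnalyticOnNhd ℂ H {z | M < ‖z‖} →
    (∀ z, M < ‖z‖ → ‖H z‖ ≤ C * ‖z‖ ^ m) →
    ¬ ∀ w ∈ ball (0 : ℂ) 1, M < ‖f w‖ → 1 / (w * deriv f w) ^ 2 = H (f w)) ∧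
  ∀ z₀ : ℂ, z₀ ∉ f '' ball 0 1 → ∀ δ₀ > 0,
    (∀ z ∈ ball z₀ δ₀, z ≠ z₀ → z ∉ f '' ball 0 1 →
      ∀ c : ℂ, ball c S.toReal ⊆ f '' ball 0 1 → dist z c ≠ S.toReal) →
    ∃ N ≥ 1, ((∀ c : ℂ, ball c S.toReal ⊆ f '' ball 0 1 → dist z₀ c ≠ S.toReal) → 2 ≤ N) ∧
      ∃ δ > 0, ∃ ξ : ℂ → ℂ, AnalyticOnNhd ℂ ξ (ball z₀ δ) ∧ InjOn ξ (ball z₀ δ) ∧
        ξ z₀ = 0 ∧ (∀ z ∈ ball z₀ δ, z ∉ f '' ball 0 1 ↔ (ξ z ^ N).re = - ‖ξ z‖ ^ N) ∧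
        ∀ w ∈ ball (0 : ℂ) 1, f w ∈ ball z₀ δ →
          2 * Real.log ‖w‖ ^ 2 = ‖ξ (f w)‖ ^ N + (ξ (f w) ^ N).re

end

end Pool.Agent.Lib.MP250511.SB
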