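import Pool.Agent.Lib.MP_250511_an.SB.SpecV

/-!
# MP_250511_an : the slit at an isolated contact point follows the resultant of the contact forces

Sharpening of `SB/SpecV.lean` (idea of helper27).  Let `R = ∫_{p = z₀} (p - c) dν` be the resultant of the
contact forces at `z₀`.  Near an isolated contact point `z₀` the complement is `{ξ^N ≤ 0}`; `N = 1` (a tip)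
iff `R ≠ 0`, and then `ξ'(z₀) = - 4 conj R/ρ²`: the slit leaves `z₀` in the direction of `R`
(`ξ ≤ 0`, `ξ ≈ ξ'(z₀) (z - z₀)`, so `z - z₀` is a positive multiple of `R`).

Modules import `Pool.Agent.Lib.MP_250511_an.SB.SpecW`; each is a small change of the landed module.
-/

set_option autoImplicit false

namespace Pool.Agent.Lib.MP250511.SB

open Complex Metric Set MeasureTheory Filter Topology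
open scoped Real ENNReal ComplexConjugate ContDiff

noncomputable section

/-- NPD.  `NFP` with one more conclusion: `deriv ξ z₀ = 4 * a z₀` (`ξ'(z₀) = (V z₀)² = 4 (s z₀)²`). -/
def SpecNPD : Prop := ∀ (a : ℂ → ℂ) (z₀ : ℂ) (δ : ℝ), 0 < δ → AnalyticOnNhd ℂ a (ball z₀ δ) →
  a z₀ ≠ 0 → ∃ (ξ χ : ℂ → ℂ) (δ' r : ℝ), 0 < δ' ∧ δ' ≤ δ ∧
    0 < r ∧ AnalyticOnNhd ℂ ξ (ball z₀ δ') ∧ InjOn ξ (ball z₀ δ') ∧ ξ z₀ = 0 ∧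
    (∀ z ∈ ball z₀ δ', ‖ξ z‖ < r ∧ χ (ξ z) = z) ∧
    AnalyticOnNhd ℂ χ (ball 0 r) ∧ InjOn χ (ball 0 r) ∧
    (∀ ζ ∈ ball (0 : ℂ) r, χ ζ ∈ ball z₀ δ ∧
      4 * (a (χ ζ) * deriv χ ζ ^ 2) * ζ = χ ζ - z₀) ∧ deriv ξ z₀ = 4 * a z₀

/-- NTD.  Uses: NPD NFB.  `NFT` with one more conclusion: `deriv ξ z₀ = 4 * a z₀`. -/
def SpecNTD : Prop := ∀ (f g a : ℂ → ℂ) (Ω : Set ℂ) (z₀ : ℂ) (δ : ℝ), Pair f g Ω → 0 < δ →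
  AnalyticOnNhd ℂ a (ball z₀ δ) → a z₀ ≠ 0 → (∀ z ∈ Ω ∩ ball z₀ δ, qG g z = a z / (z - z₀)) →
  volume (ball z₀ δ \ Ω) = 0 → z₀ ∉ Ω →
  ∃ δ' > 0, ∃ ξ : ℂ → ℂ, AnalyticOnNhd ℂ ξ (ball z₀ δ') ∧ InjOn ξ (ball z₀ δ') ∧
    ξ z₀ = 0 ∧ (∀ z ∈ ball z₀ δ', (z ∉ Ω ↔ (ξ z).re = - ‖ξ z‖) ∧
      (z ∈ Ω → 2 * Real.log ‖g z‖ ^ 2 = ‖ξ z‖ + (ξ z).re)) ∧ deriv ξ z₀ = 4 * a z₀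

/-- ISD.  `ISO` with the explicit residue. -/
def SpecISD : Prop := ∀ (g : ℂ → ℂ) (Ω : Set ℂ) (ρ : ℝ) (ν : Measure (ℂ × ℂ)), 0 < ρ → IsOpen Ω →
  IsFiniteMeasure ν → ν (CC Ω ρ)ᶜ = 0 →
  (∀ ζ ∈ Ω, ζ ≠ 0 →
    qG g ζ = 1 / ζ ^ 2 - (∫ x, conj (x.2 - x.1) / (ζ - x.2) ∂ν) / (ρ : ℂ) ^ 2) →
  ∀ (z₀ : ℂ) (δ : ℝ), 0 < δ → (0 : ℂ) ∉ ball z₀ δ →
  (∀ x ∈ CC Ω ρ, x.2 ∈ ball z₀ δ → x.2 = z₀) →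
  ∃ h₀ : ℂ → ℂ, AnalyticOnNhd ℂ h₀ (ball z₀ δ) ∧
    (∀ z ∈ Ω ∩ ball z₀ δ, z ≠ z₀ → qG g z = h₀ z +
      (- conj (∫ x in {x : ℂ × ℂ | x.2 = z₀}, (x.2 - x.1) ∂ν) / (ρ : ℂ) ^ 2) / (z - z₀)) ∧
    ((∀ x ∈ CC Ω ρ, x.2 ≠ z₀) → ∫ x in {x : ℂ × ℂ | x.2 = z₀}, (x.2 - x.1) ∂ν = 0)

/-- STD.  Uses: NFC NTD ISD.  `STR` with the resultant.  `R = 0`: NFC; `R ≠ 0`: NTD with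
`a z = (z - z₀) h₀ z - conj R/ρ²`, `N = 1`. -/
def SpecSTD : Prop := ∀ (f g : ℂ → ℂ) (Ω : Set ℂ) (ρ : ℝ) (ν : Measure (ℂ × ℂ)), ExU f g Ω ρ →
  volume Ωᶜ = 0 → IsFiniteMeasure ν → ν (CC Ω ρ)ᶜ = 0 →
  (∀ ζ ∈ Ω, ζ ≠ 0 →
    qG g ζ = 1 / ζ ^ 2 - (∫ x, conj (x.2 - x.1) / (ζ - x.2) ∂ν) / (ρ : ℂ) ^ 2) →
  ∀ (z₀ : ℂ) (δ : ℝ) (R : ℂ), 0 < δ → z₀ ∉ Ω → (∀ x ∈ CC Ω ρ, x.2 ∈ ball z₀ δ → x.2 = z₀) →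
  R = ∫ x in {x : ℂ × ℂ | x.2 = z₀}, (x.2 - x.1) ∂ν →
  ((∀ x ∈ CC Ω ρ, x.2 ≠ z₀) → R = 0) ∧
  ∃ N ≥ 1, (R = 0 → 2 ≤ N) ∧ ∃ δ' > 0, ∃ ξ : ℂ → ℂ,
    AnalyticOnNhd ℂ ξ (ball z₀ δ') ∧ InjOn ξ (ball z₀ δ') ∧
    (R ≠ 0 → N = 1 ∧ deriv ξ z₀ = - 4 * conj R / (ρ : ℂ) ^ 2) ∧
    ξ z₀ = 0 ∧ ∀ z ∈ ball z₀ δ', (z ∉ Ω ↔ (ξ z ^ N).re = - ‖ξ z‖ ^ N) ∧
      (z ∈ Ω → 2 * Real.log ‖g z‖ ^ 2 = ‖ξ z‖ ^ N + (ξ z ^ N).re)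

/-- THE THEOREM (`FIND`, helper36).  Uses: EXF MUL MAS CPX REP UNB STD NRT (and the null complement). -/
def SpecFIND : Prop := (∀ f : ℂ → ℂ, Univ f → rho f = S → volume (f '' ball 0 1)ᶜ = 0) →
  ∀ f : ℂ → ℂ, Univ f → rho f = S →
  (∃ ν : Measure (ℂ × ℂ), IsProbabilityMeasure ν ∧
    (∀ᵐ x ∂ν, ball x.1 S.toReal ⊆ f '' ball 0 1 ∧ x.2 ∉ f '' ball 0 1 ∧
      dist x.2 x.1 = S.toReal) ∧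
    (∀ b : ℂ → ℂ, Continuous b → HasCompactSupport b → ∫ x, conj (x.2 - x.1) * b x.1 ∂ν = 0) ∧
    (∀ w ∈ ball (0 : ℂ) 1, w ≠ 0 →
      1 / (w * deriv f w) ^ 2 = 1 / f w ^ 2 -
        (∫ x, conj (x.2 - x.1) / (f w - x.2) ∂ν) / (S.toReal : ℂ) ^ 2) ∧
    (∀ M : ℝ, ν {x | M < ‖x.2‖} ≠ 0) ∧
    ∀ (z₀ R : ℂ), z₀ ∉ f '' ball 0 1 → R = ∫ x in {x : ℂ × ℂ | x.2 = z₀}, (x.2 - x.1) ∂ν →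
      ∀ δ₀ > 0, (∀ z ∈ ball z₀ δ₀, z ≠ z₀ → z ∉ f '' ball 0 1 →
        ∀ c : ℂ, ball c S.toReal ⊆ f '' ball 0 1 → dist z c ≠ S.toReal) →
      ((∀ c : ℂ, ball c S.toReal ⊆ f '' ball 0 1 → dist z₀ c ≠ S.toReal) → R = 0) ∧
      ∃ N ≥ 1, (R = 0 → 2 ≤ N) ∧ ∃ δ > 0, ∃ ξ : ℂ → ℂ,
        AnalyticOnNhd ℂ ξ (ball z₀ δ) ∧ InjOn ξ (ball z₀ δ) ∧
        (R ≠ 0 → N = 1 ∧ deriv ξ z₀ = - 4 * conj R / (S.toReal : ℂ) ^ 2) ∧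
        ξ z₀ = 0 ∧ (∀ z ∈ ball z₀ δ, z ∉ f '' ball 0 1 ↔ (ξ z ^ N).re = - ‖ξ z‖ ^ N) ∧
        ∀ w ∈ ball (0 : ℂ) 1, f w ∈ ball z₀ δ →
          2 * Real.log ‖w‖ ^ 2 = ‖ξ (f w)‖ ^ N + (ξ (f w) ^ N).re) ∧
  ∀ (M C : ℝ) (m : ℕ) (H : ℂ → ℂ), AnalyticOnNhd ℂ H {z | M < ‖z‖} →
    (∀ z, M < ‖z‖ → ‖H z‖ ≤ C * ‖z‖ ^ m) →
    ¬ ∀ w ∈ ball (0 : ℂ) 1, M < ‖f w‖ → 1 / (w * deriv f w) ^ 2 = H (f w)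

end

end Pool.Agent.Lib.MP250511.SB
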