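import Pool.Agent.Lib.MP_250511_an.SB.SpecW

/-!
# MP_250511_an : the complement of an extremal domain is rectifiable

THEOREM (`SpecRCX`).  The complement `E` of an extremal domain lies in a countable union of Lipschitz
curves.  (The touched points satisfy a ball condition, so they lie locally on finitely many Lipschitz
graphs; the other points have a neighbourhood in which `E` is `{ξ^N ≤ 0}`.)

Modules import `Pool.Agent.Lib.MP_250511_an.SB.SpecX`.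
-/

set_option autoImplicit false

namespace Pool.Agent.Lib.MP250511.SB

open Complex Metric Set MeasureTheory Filter Topology
open scoped Real ENNReal NNReal ComplexConjugate ContDiff

noncomputable section

/-- `E` lies in a countable union of Lipschitz curves -/
def Rect (E : Set ℂ) : Prop := ∃ γ : ℕ → ℝ → ℂ, (∀ n, ∃ L : ℝ≥0, LipschitzWith L (γ n)) ∧
  E ⊆ ⋃ n, range (γ n)

/-- RLX [60].  Uses: nothing.  PROOF.  `T = ∅`: trivial.  On `s = u '' T` let `γ₀` be the inverse of `u`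
(`Function.invFunOn u T`; `u` is injective on `T`); it is Lipschitz on `s` with constant `K`
(`max K 0`).  `LipschitzOnWith.extend_finite_dimension` extends it to `ℝ`. -/
def SpecRLX : Prop := ∀ (T : Set ℂ) (u : ℂ → ℝ) (K : ℝ),
  (∀ p ∈ T, ∀ q ∈ T, ‖p - q‖ ≤ K * |u p - u q|) →
  ∃ γ : ℝ → ℂ, (∃ L : ℝ≥0, LipschitzWith L γ) ∧ T ⊆ range γ

/-- RCU [80].  Uses: nothing.  Countable unions (re-enumerate `ι × ℕ`; `ι` empty: constant curves), and the
local form (`TopologicalSpace.countable_cover_nhdsWithin`). -/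
def SpecRCU : Prop := (∀ (ι : Type) [Countable ι] (F : ι → Set ℂ), (∀ i, Rect (F i)) →
    Rect (⋃ i, F i)) ∧
  ∀ A : Set ℂ, (∀ z ∈ A, ∃ δ > 0, Rect (A ∩ ball z δ)) → Rect A

/-- RTC [120].  Uses: RLX RCU.  PROOF.  For `p ∈ KK` choose `c p` with `ball (c p) ρ ⊆ Ω`, `|p - c p| = ρ`, and
put `n p = (c p - p)/ρ`, `|n p| = 1`.  Let `D` be a countable dense subset of `ℂ`.  For `d, q ∈ D` let
`T d q = {p ∈ KK ∩ ball q (ρ/8) : |n p - d| < 1/8}`; they cover `KK`, so by RCU and RLX it is enough to find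
`u` for `T = T d q`: `u p = Re (conj (i d) p)`, `K = 2`.  For `p, p' ∈ T`, `h = p' - p`, `|h| ≤ ρ/4`:
`p' ∉ ball (c p) ρ`, i.e. `|h - ρ n p|² ≥ ρ²`, so `2 ρ Re (conj (n p) h) ≤ |h|²`,
`Re (conj (n p) h) ≤ |h|/8`, `Re (conj d h) ≤ |h|/4`; exchanging `p, p'`: `|Re (conj d h)| ≤ |h|/4`.  As
`|d| ≥ 7/8` and `(Re (conj d h))² + (Re (conj (i d) h))² = |d|² |h|²`, `|Re (conj (i d) h)| ≥ |h|/2`. -/
def SpecRTC : Prop := ∀ (Ω : Set ℂ) (ρ : ℝ), 0 < ρ → Rect (KK Ω ρ)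

/-- RST [120].  Uses: RLX RCU.  PROOF.  `ξ'(z₀) ≠ 0` (`ξ` analytic and injective near `z₀`; in the library:
see how `NFA`, `NPD` or `PKA` get it), so `ξ` has a strict derivative `≠ 0` at `z₀` and for some `δ' > 0`,
`c > 0`: `|ξ z - ξ z'| ≥ c |z - z'|` on `ball z₀ δ'` (`HasStrictDerivAt`, `ApproximatesLinearOn.antilipschitz`).
If `Re ξ^N = - |ξ|^N` then `ξ^N = - |ξ|^N`, so `ξ z = |ξ z| ω` with `ω^N = -1` (`ω = ξ/|ξ|`; any such `ω` if
`ξ = 0`).  There are finitely many such `ω`; for each of them RLX with `u z = |ξ z|`, `K = 1/c`. -/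
def SpecRST : Prop := ∀ (ξ : ℂ → ℂ) (z₀ : ℂ) (δ : ℝ) (N : ℕ), 0 < δ → 1 ≤ N →
  AnalyticOnNhd ℂ ξ (ball z₀ δ) → InjOn ξ (ball z₀ δ) → ξ z₀ = 0 →
  ∃ δ' > 0, δ' ≤ δ ∧ Rect ({z | (ξ z ^ N).re = - ‖ξ z‖ ^ N} ∩ ball z₀ δ')

/-- RCX (helper36).  Uses: EXF KCL RCU RTC RST and `SpecFIND`. -/
def SpecRCX : Prop := (∀ f : ℂ → ℂ, Univ f → rho f = S → volume (f '' ball 0 1)ᶜ = 0) →
  ∀ f : ℂ → ℂ, Univ f → rho f = S → Rect (f '' ball 0 1)ᶜ

end

end Pool.Agent.Lib.MP250511.SB
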