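import Pool.Agent.Lib.MP_250511_an.SB.SpecG

/-!
# MP_250511_an : the complement of every extremal domain for `S` has measure zero

THEOREM (`SpecAZ`).  If `f` is extremal for the schlicht Bloch constant (`rho f = S`) then the
complement of `Ω = f(D)` has area zero (in particular empty interior).

Plan.  `E = Ωᶜ`.  (1) every boundary point of `int E` is in `KK` (ZA), so if `int E` is not empty there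
are infinitely many two-sided wall points `ζ_j` (a disc of radius `ρ` in `Ω` and a disc of radius `κ` in
`E` touch at `ζ_j`; ZB).  (2) at such a point `G = - log |g|` is asymptotically linear,
`G = a (-x)⁺ + o(|z - ζ|)` (ZFA, ZFB: Poisson formula), and `∇G` converges strongly (ZG, ZH:
integration by parts across `E`).  (3) pushing `E` away by `N` bumps of size `ℓ` (ZI, ZJ, ZN) gains
`N c ℓ²` in `log` of the conformal radius by the energy inequality (ZD) and costs at most `C ℓ²` of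
the inradius, `C` independent of `N` (ZC): contradiction (ZK).  (4) `KK` is a null set by Lebesgue's
density theorem (ZL), and `E` is locally null off `KK` (LCF, AZ).

Same conventions; modules import `Pool.Agent.Lib.MP_250511_an.SB.SpecZ`.
-/

set_option autoImplicit false

namespace Pool.Agent.Lib.MP250511.SB

open Complex Metric Set MeasureTheory Filter Topology
open scoped Real ENNReal ComplexConjugate ContDiff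

noncomputable section

/-- two-sided wall point: `ball c ρ ⊆ Ω` and a ball of radius `κ` in the complement touch at `ζ`;
`(ζ - c)/ρ` is the unit normal `n` -/
structure TW (Ω : Set ℂ) (ρ κ : ℝ) (c ζ : ℂ) : Prop where
  sub : ball c ρ ⊆ Ω
  dist_eq : dist ζ c = ρ
  out : ζ ∉ Ω
  inner : ball (ζ + (κ : ℂ) * ((ζ - c) / (ρ : ℂ))) κ ⊆ Ωᶜ

/-- `- log |g|`, extended by `0` -/
def Gt (g : ℂ → ℂ) (Ω : Set ℂ) (z : ℂ) : ℝ :=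
  open Classical in if z ∈ Ω then - Real.log ‖g z‖ else 0

/-- the signed distance to the tangent line, `x = Re ((z - ζ) conj n)` -/
def xx (ζ n z : ℂ) : ℝ := ((z - ζ) * conj n).re

/-- the Laplacian -/
def lap (χ : ℂ → ℝ) (z : ℂ) : ℝ :=
  fderiv ℝ (fun w => fderiv ℝ χ w 1) z 1 + fderiv ℝ (fun w => fderiv ℝ χ w I) z I

/-- a radial bump function with support in the unit disc -/
def eta (w : ℂ) : ℝ := Real.smoothTransition (1 - 2 * ‖w‖ ^ 2)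

/-- the bump of size `ℓ` at `ζ` in the direction `n` -/
def vv (ζ n : ℂ) (ℓ : ℝ) (z : ℂ) : ℂ := ((ℓ * eta ((z - ζ) / (ℓ : ℂ)) : ℝ) : ℂ) * n

/-- the sum of `N` bumps -/
def VV (ζ n : ℕ → ℂ) (ℓ : ℝ) (N : ℕ) (z : ℂ) : ℂ := ∑ j ∈ Finset.range N, vv (ζ j) (n j) ℓ z

/-- ZA [60].  Uses: LCF.  Proof: let `z` be a frontier point of `W = interior Ωᶜ`.  `z ∉ W` (open),
`z ∈ closure W ⊆ Ωᶜ` (closed).  `z ≠ 0` since `0 ∈ Ω`.  If `z ∉ KK`, LCF gives a ball around `z`; it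
meets `Ω` (as `z ∉ interior Ωᶜ`) and meets `W`, so `ball \ Ω` contains a nonempty open set, of positive
measure: contradiction. -/
def SpecZA : Prop := ∀ (f g : ℂ → ℂ) (Ω : Set ℂ) (ρ : ℝ), ExU f g Ω ρ →
  frontier (interior Ωᶜ) ⊆ KK Ω ρ

/-- ZB [220].  Uses: nothing.  Infinitely many two-sided walls.  Proof: let `W = interior Ωᶜ`,
`w₀ ∈ W`, `d₀ = infDist w₀ Wᶜ > 0` (`0 ∈ Wᶜ`), `ball 0 c₀ ⊆ Ω`, `r₁ = min (d₀/2) (c₀/8)`.  For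
`w ∈ ball w₀ r₁`, `d = infDist w Wᶜ ∈ [d₀ - r₁, d₀ + r₁]` is attained at some `ζ ∈ frontier W`
(`ball w d ⊆ W`, so `ζ ∈ closure W`), so `ζ ∈ KK`, with centre `c`.  The open balls `ball w d ⊆ Ωᶜ` and
`ball c ρ ⊆ Ω` are disjoint, so `|w - c| ≥ d + ρ = |w - ζ| + |ζ - c|`; strict convexity gives
`(w - ζ)/d = (ζ - c)/ρ = n` (for every admissible `c`), so `w ∈ ζ + ℝ n` and
`ball (ζ + κ n) κ ⊆ ball w d` for `κ ≤ d`.  The set of all such `ζ` is infinite: otherwise the ball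
`ball w₀ r₁` would be contained in a finite union of lines.  So there is an injective sequence.  Take
`z₀ = w₀`, `δ = d₀ + c₀/2`, `κ = min (d₀/2) (c₀/8)`: `|ζ - w₀| ≤ d₀ + 2 r₁ ≤ d₀ + c₀/4`, and
`|w₀| ≥ d₀ + c₀` (the balls `ball w₀ d₀ ⊆ Ωᶜ`, `ball 0 c₀ ⊆ Ω` are disjoint), so
`0 ∉ closedBall z₀ δ`. -/
def SpecZB : Prop := ∀ (Ω : Set ℂ) (ρ : ℝ), 0 < ρ → IsOpen Ω → (0 : ℂ) ∈ Ω →
  frontier (interior Ωᶜ) ⊆ KK Ω ρ → (interior Ωᶜ).Nonempty →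
  ∃ κ > 0, ∃ (z₀ : ℂ) (δ : ℝ), 0 < δ ∧ (0 : ℂ) ∉ closedBall z₀ δ ∧ ∃ c ζ : ℕ → ℂ,
    Function.Injective ζ ∧ ∀ j, TW Ω ρ κ (c j) (ζ j) ∧ closedBall (ζ j) κ ⊆ ball z₀ δ

/-- ZC [220].  Uses: nothing.  The cost.  Proof (copy `SB/PKB.lean`, simpler): let `σ > 0` be smaller
than all `|ζ_i - ζ_j|`, `i ≠ j < N`.  Let `ball c' r' ⊆ φ '' Ω`, `r' > ρ`, `p ∈ ball c' r'`, `p ∉ Ω`.  If
`p` is in no `ball (ζ j) ℓ` then `φ p = p`, so `p ∉ φ '' Ω` (injective), contradiction.  So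
`p = ζ_j + (α₀ + i β₀) n`, `|α₀|, |β₀| < ℓ`; `|p - c_j| ≥ ρ` gives `α₀ ≥ - ℓ²/(2ρ)`.  Put
`α' = α₀ + ℓ²/(2ρ) + 16 ℓ²/κ`, `s_± = ζ_j + (α' + i (β₀ ± 3ℓ)) n`.  `0 < α' < κ/2` for small `ℓ` and
`(β₀ ± 3ℓ)² ≤ 16 ℓ² ≤ κ α'`, so `α'² + (β₀ ± 3ℓ)² < 2 κ α'`, i.e. `s_±` is in the inner ball, not in
`Ω`; `|s_± - ζ_j| ≥ 2ℓ` and `s_±` is in no other `ball (ζ i) ℓ` (separation), so `φ s_± = s_±` and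
`s_± ∉ φ '' Ω`.  So `|s_± - c'| ≥ r'`, `p' = (s_+ + s_-)/2`, `|p' - c'|² ≥ r'² - 9ℓ²`,
`|p' - p| = ℓ²/(2ρ) + 16ℓ²/κ`; hence `|p - c'| ≥ r' - C ℓ²`, `C = 9/ρ + 1/(2ρ) + 16/κ`, so
`ball c' (r' - C ℓ²) ⊆ Ω` and `r' ≤ ρ + C ℓ²`. -/
def SpecZC : Prop := ∀ (Ω : Set ℂ) (ρ κ : ℝ), 0 < ρ → 0 < κ →
  (∀ (c : ℂ) (r : ℝ), ball c r ⊆ Ω → r ≤ ρ) → ∀ c ζ : ℕ → ℂ, Function.Injective ζ →
  (∀ j, TW Ω ρ κ (c j) (ζ j)) → ∃ C > 0, ∀ N : ℕ, ∃ ℓ₁ > 0, ∀ ℓ : ℝ, 0 < ℓ → ℓ ≤ ℓ₁ →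
  ∀ φ ψ : ℂ → ℂ, (∀ z, ψ (φ z) = z) → (∀ z, φ (ψ z) = z) →
  (∀ z, (∀ j < N, z ∉ ball (ζ j) ℓ) → φ z = z) →
  ∀ (c' : ℂ) (r' : ℝ), ball c' r' ⊆ φ '' Ω → r' ≤ ρ + C * ℓ ^ 2

/-- ZD [200].  Uses: INQ FLU ENE CHV NEA.  The energy inequality.  Proof: copy `SB/VIN.lean`, without
`a = ‖F'(0)‖ ≤ 1`: `log (1/r₀) = L + log a - log (1 + C t) ≤ L + log a`, `m = L - ε₁`, so
`2π L + ∫_W XQ ≥ 2π m²/log (1/r₀) ≥ 2π (L - ε₁)²/(L + log a) ≥ 2π (L - 2 ε₁ - log a)` (for large `L`;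
`L²/(L + x) ≥ L - x`), `ε₁ → 0`. -/
def SpecZD : Prop := ∀ (f g F G φ ψ : ℂ → ℂ) (Ω : Set ℂ) (z₀ : ℂ) (δ : ℝ), Pair f g Ω →
  deriv f 0 = 1 → (0 : ℂ) ∉ closedBall z₀ δ → Dif φ ψ z₀ δ → Pair F G (φ '' Ω) →
  -(2 * π * Real.log ‖deriv F 0‖) ≤ ∫ z in Ω ∩ ball z₀ δ, XQ (qG g) φ z

/-- ZE [80].  Uses: nothing.  Proof: copy `SB/DIF.lean` (there `K` is any bound of the derivative). -/
def SpecZE : Prop := ∀ v : ℂ → ℂ, ContDiff ℝ ∞ v → HasCompactSupport v → ∀ (z₀ : ℂ) (δ : ℝ),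
  tsupport v ⊆ ball z₀ δ → ∀ K : ℝ, (∀ z, ‖fderiv ℝ v z‖ ≤ K) → ∀ ε : ℝ, |ε| * K ≤ 1 / 4 →
  ∃ ψ : ℂ → ℂ, Dif (fun z => z + (ε : ℂ) * v z) ψ z₀ δ

/-- ZFA [220].  Uses: nothing.  Upper barrier at a two-sided wall point.  Proof: `ζ ≠ 0`.  Take
`0 < r₁ ≤ ‖ζ‖/2`; there is `s₀ > 0` with `f (ball 0 s₀) ⊆ ball 0 (‖ζ‖/2)`, so `‖g z‖ ≥ s₀` on
`Ω ∩ closedBall ζ r₁`.  Let `n = (ζ - c)/ρ`, `z_κ = ζ + (κ/2) n`.  Points outside the inner ball satisfy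
`|z - ζ|² ≥ 2κ x`, so `|z - z_κ|² = |z - ζ|² - κ x + κ²/4 ≥ |z - ζ|²/2 + κ²/4`.  Take `m ∈ ℕ` with
`(1 + 2 r₁²/κ²)^(m/2) ≥ 1/s₀`.  For `0 < τ` small consider `V_τ = {z ∈ Ω ∩ ball ζ r₁ : ‖g z‖ < 1 - τ}`; its
closure is in `Ω` (`bd`), and `H z = (κ/2)^m / (g z (z - z_κ)^m)` is holomorphic near it (`g ≠ 0`); on the
frontier `‖H‖ ≤ 1/(1-τ)` (either `‖g‖ = 1 - τ` or `|z - ζ| = r₁`), so `‖H‖ ≤ 1/(1-τ)` on `V_τ`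
(`Complex.norm_le_of_forall_mem_frontier_norm_le`); `τ → 0`: `‖H‖ ≤ 1` on `Ω ∩ ball ζ r₁`, i.e.
`- log ‖g z‖ ≤ m log (|z - z_κ|/(κ/2)) ≤ (m/2) (|z - z_κ|²/(κ/2)² - 1) = 2m (|z - ζ|² - κ x)/κ²
≤ A (max 0 (-x) + |z - ζ|²)`. -/
def SpecZFA : Prop := ∀ (f g : ℂ → ℂ) (Ω : Set ℂ) (ρ κ : ℝ) (c ζ : ℂ), Pair f g Ω → 0 < ρ → 0 < κ →
  TW Ω ρ κ c ζ → ∃ A > 0, ∃ r > 0, ∀ z : ℂ, ‖z - ζ‖ < r →
    Gt g Ω z ≤ A * (max 0 (- xx ζ ((ζ - c) / (ρ : ℂ)) z) + ‖z - ζ‖ ^ 2)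

/-- ZFB [280].  Uses: PIK ZFA.  Asymptotics at a two-sided wall point.  Proof: `n = (ζ - c)/ρ`,
`x = xx ζ n`.  Take `0 < ρ' < ρ`, `ρ' ≤ ‖ζ‖/4`, `c' = ζ - ρ' n`: `closedBall c' ρ' \ {ζ} ⊆ ball c ρ ⊆ Ω`,
`0 ∉ closedBall c' ρ'`.  `Gt` is continuous on the closed ball (at `ζ` by `bd`) and harmonic inside
(`- log ‖g‖`, `g ≠ 0`); Poisson formula (`HarmonicContOnCl.circleAverage_poissonKernel_smul`):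
`G w = (ρ'² - |w - c'|²) Av_t [Gt t/|t - w|²]`, `ρ'² - |w - c'|² = 2ρ' (-x w) - |w - ζ|²`.  On the
circle `-x(t) = |t - ζ|²/(2ρ')`, so by ZFA `Gt t/|t - ζ|²` is bounded; put
`a = 2ρ' Av_t [Gt t/|t - ζ|²]`.  Fix `θ > 0`.  In the region `-x(w) ≥ θ |w - ζ|`, `w` near `ζ`:
`dist(w, circle) ≥ θ|w - ζ|/2`, so `|t - ζ| ≤ (1 + 2/θ)|t - w|`, the integrands `Gt t/|t - w|²` are
uniformly bounded and converge for `t ≠ ζ`: dominated convergence gives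
`|G w - a (-x w)| ≤ ε |w - ζ|` near `ζ`.  In `|x| < θ|z - ζ|`: `0 ≤ Gt ≤ A (θ + |z - ζ|)|z - ζ|` (ZFA) and
`a max(0,-x) ≤ a θ |z - ζ|`.  In `x ≥ θ|z - ζ|`, `|z - ζ| < 2κθ`: `z` is in the inner ball, both are `0`.
Choose `θ` first.  Lower bound for `a`: `w = ζ - t n`, PIK on `ball c ρ`, `s = 1 - t/ρ`:
`G w ≥ 1 - ‖g w‖ ≥ (t/ρ)(1 - ‖g c‖)/2`, `t → 0`. -/
def SpecZFB : Prop := ∀ (f g : ℂ → ℂ) (Ω : Set ℂ) (ρ κ : ℝ) (c ζ : ℂ), Pair f g Ω → 0 < ρ → 0 < κ →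
  TW Ω ρ κ c ζ → ∃ a : ℝ, (1 - ‖g c‖) / (2 * ρ) ≤ a ∧ ∀ ε > 0, ∃ r > 0, ∀ z : ℂ, ‖z - ζ‖ < r →
    |Gt g Ω z - a * max 0 (- xx ζ ((ζ - c) / (ρ : ℂ)) z)| ≤ ε * ‖z - ζ‖

/-- ZG [300].  Uses: nothing.  Integration by parts across the zero set.  Proof: for `τ > 0` put
`b s = (2 s - τ + τ³/(s+τ)²)/2`, `B s = s³/(2 (s+τ))` (`s ≥ 0`): `B' = b`, `b' = 1 - τ³/(s+τ)³ ∈ [0,1]`,
`B, b, b'` vanish at `0`; `β s = b (max (s-τ) 0)` is `C¹`, `BB s = B (max (s-τ) 0)` is `C²`,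
`BB' = β`.  `u = β ∘ G` and `BB ∘ G` are `C¹` on the ball (near a point off `O`, `G < τ`, so they
vanish), derivative `u'(e) = - β'(G) Re (p e)`.  (2): `∫ χ u'(e) = - ∫ u χ'(e)`
(`integral_mul_fderiv_eq_neg_fderiv_mul_of_integrable`, functions with compact support); `τ → 0`,
dominated convergence (`‖p‖ ≤ 1 + ‖p‖²`).  (1): for `e = 1, I` the functions
`- β(G) Re (p e)` (`= (BB ∘ G)'(e)`) are `C¹` on the ball and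
`Σ_e ∂_e (- β(G) Re (p e)) = β'(G) ‖p‖²` on `O` (`Re (p' e²)` sums to `0` over `e = 1, I`;
`Re(p)² + Re(pI)² = ‖p‖²`), so
`∫ χ β'(G) ‖p‖² = - Σ_e ∫ χ'(e) (BB ∘ G)'(e) = ∫ BB(G) lap χ`; `τ → 0`: `β' → 1` on `O`,
`BB(G) → G²/2`. -/
def SpecZG : Prop := ∀ (O : Set ℂ) (G : ℂ → ℝ) (p : ℂ → ℂ) (z₁ : ℂ) (R : ℝ), IsOpen O →
  ContinuousOn G (ball z₁ R) → (∀ z ∈ ball z₁ R, z ∉ O → G z = 0) →
  (∀ z ∈ O ∩ ball z₁ R, 0 < G z) → AnalyticOnNhd ℂ p (O ∩ ball z₁ R) →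
  (∀ z ∈ O ∩ ball z₁ R, DifferentiableAt ℝ G z ∧ ∀ h : ℂ, fderiv ℝ G z h = -(p z * h).re) →
  IntegrableOn (fun z => ‖p z‖ ^ 2) (O ∩ ball z₁ R) → ∀ χ : ℂ → ℝ, ContDiff ℝ ∞ χ →
  HasCompactSupport χ → tsupport χ ⊆ ball z₁ R →
  (∫ z in O ∩ ball z₁ R, χ z * ‖p z‖ ^ 2 = ∫ z in ball z₁ R, G z ^ 2 / 2 * lap χ z) ∧
  ∀ e : ℂ, ∫ z in O ∩ ball z₁ R, χ z * (p z * e).re = ∫ z in ball z₁ R, G z * fderiv ℝ χ z e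

/-- ZH [280].  Uses: INQ ZG.  Strong convergence of the gradient.  Proof: `n = (ζ - c)/ρ`, `p = g'/g`.
Let `χ₀` be a smooth bump, `0 ≤ χ₀ ≤ 1`, `= 1` on `ball 0 1`, support in `ball 0 2`,
`χ z = χ₀ ((z - ζ)/ℓ)`, so `|χ'(e)| ≤ C/ℓ`, `|lap χ| ≤ C/ℓ²`.  By ZG for `O = Ω` (`G = Gt g Ω`, continuous by
`bd`; `0` is not near `ζ`; INQ) with `e = n`:
`D = ∫_Ω χ |p - a conj n|² = ∫ (Gt²/2) lap χ - 2a ∫ Gt χ'(n) + a² ∫_Ω χ`.  By ZG for the half plane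
`O = H = {x < 0}`, `G = U = a max 0 (-x)`, `p = a conj n` (if `a > 0`; for `a = 0` clear): the same
expression with `U`, `H` is `0`.  Subtract: `D ≤ ∫ |Gt² - U²|/2 |lap χ| + 2a ∫ |Gt - U| |χ'(n)|
+ a² |(Ω Δ H) ∩ ball ζ (2ℓ)|`.  With `|Gt - U| ≤ ε' 2ℓ` on `ball ζ (2ℓ)`, `|Gt + U| ≤ (2a+1) 2ℓ`, the first
two terms are `≤ C ε' ℓ²`; `Ω Δ H` is contained in `{|x| ≤ C ℓ²}` there (outer and inner ball), area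
`≤ C ℓ³`. -/
def SpecZH : Prop := ∀ (f g : ℂ → ℂ) (Ω : Set ℂ) (ρ κ : ℝ) (c ζ : ℂ) (a : ℝ), Pair f g Ω → 0 < ρ →
  0 < κ → TW Ω ρ κ c ζ → 0 ≤ a → (∀ ε > 0, ∃ r > 0, ∀ z : ℂ, ‖z - ζ‖ < r →
    |Gt g Ω z - a * max 0 (- xx ζ ((ζ - c) / (ρ : ℂ)) z)| ≤ ε * ‖z - ζ‖) →
  ∀ ε > 0, ∃ r > 0, ∀ ℓ : ℝ, 0 < ℓ → ℓ < r →
    ∫ z in Ω ∩ ball ζ ℓ, ‖deriv g z / g z - (a : ℂ) * conj ((ζ - c) / (ρ : ℂ))‖ ^ 2 ≤ ε * ℓ ^ 2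

/-- ZI [150].  Uses: nothing.  Proof: `Real.smoothTransition` is smooth, `0` on `(-∞, 0]`, `1` on
`[1, ∞)`, and `‖w‖² = w.re² + w.im²`.  `∫_{re w < 0} ∂_x η = ∫ η (i y) dy > 0` (Fubini, fundamental
theorem of calculus).  Rotation `w = n w'` (measure preserving, `η` radial, so
`η'(n w')(n) = η'(w')(1)`). -/
def SpecZI : Prop := ContDiff ℝ ∞ eta ∧ HasCompactSupport eta ∧ tsupport eta ⊆ ball 0 1 ∧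
  (∀ w, 0 ≤ eta w ∧ eta w ≤ 1) ∧ ∃ c > 0, ∀ n : ℂ, ‖n‖ = 1 →
    ∫ w in {w : ℂ | (w * conj n).re < 0}, fderiv ℝ eta w n = c

/-- ZJ [280].  Uses: INQ ZH ZI.  The gain of one bump.  Proof: let `K` bound `‖η'‖`.  `v = vv ζ n ℓ`:
`dB v z = n (dB η)((z-ζ)/ℓ)` (with `η` complex valued), `|dZ v|, |dB v| ≤ K`, `v = 0` off `ball ζ ℓ`.  For
`ε ≤ 1/(4K+4)`: `|XQ q φ + 2ε Re (dB v q)| ≤ C ε² |q|`, `C = C(K)` (as in VAB).  By ZH and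
Cauchy-Schwarz, `∫_{Ω ∩ ball ζ ℓ} |q - a² conj n²| ≤ ε' ℓ²` for small `ℓ`; so
`∫ |q| ≤ (π a² + ε') ℓ²` and `2 Re ∫ dB v q ≥ 2 a² Re ∫_{Ω ∩ ball ζ ℓ} dB v conj n² - 2 K ε' ℓ²
≥ a² ∫_{H ∩ ball ζ ℓ} η'((z-ζ)/ℓ)(n) - 2Ka² |(Ω Δ H) ∩ ball ζ ℓ| - 2 K ε' ℓ² ≥ (a² c - ε'') ℓ²`
(`2 Re (n conj n² dB η) = 2 Re (conj n dB η) = η'(n)`, scaling, ZI; `|Ω Δ H| ≤ C ℓ³`).  So
`∫ XQ ≤ (- ε c a² + C ε² π a² + ε''') ℓ²`; take `ε = ε₀` with `C ε₀ π ≤ c/4` and `ℓ` small: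
`≤ -(ε₀ c/2) a² ℓ²` (`a > 0`). -/
def SpecZJ : Prop := ∃ K > 0, (∀ w, ‖fderiv ℝ eta w‖ ≤ K) ∧ ∃ ε₀ > 0, ε₀ * K ≤ 1 / 4 ∧ ∃ c₀ > 0,
  ∀ (f g : ℂ → ℂ) (Ω : Set ℂ) (ρ κ : ℝ) (c ζ : ℂ) (a : ℝ), Pair f g Ω → 0 < ρ →
  0 < κ → TW Ω ρ κ c ζ → 0 < a → (∀ ε > 0, ∃ r > 0, ∀ z : ℂ, ‖z - ζ‖ < r →
    |Gt g Ω z - a * max 0 (- xx ζ ((ζ - c) / (ρ : ℂ)) z)| ≤ ε * ‖z - ζ‖) →
  ∃ r > 0, ∀ ℓ : ℝ, 0 < ℓ → ℓ < r →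
    ∫ z in Ω ∩ ball ζ ℓ, XQ (qG g) (fun w => w + (ε₀ : ℂ) * vv ζ ((ζ - c) / (ρ : ℂ)) ℓ w) z ≤
      -(c₀ * a ^ 2 * ℓ ^ 2)

/-- ZN [180].  Uses: ZI.  Sums of separated bumps.  Proof: `vv ζ n ℓ` is smooth, its topological support
is in `ball ζ ℓ` (`tsupport eta ⊆ ball 0 1`, scaling), `‖D vv‖ ≤ K`.  For `2ℓ < |ζ_i - ζ_j|`
(`i ≠ j < N`) the supports are disjoint, so near every point at most one term of the sum is not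
identically zero. -/
def SpecZN : Prop := ∀ (K : ℝ), (∀ w, ‖fderiv ℝ eta w‖ ≤ K) → ∀ (ζ n : ℕ → ℂ),
  Function.Injective ζ → (∀ j, ‖n j‖ = 1) → ∀ (N : ℕ) (κ : ℝ) (z₀ : ℂ) (δ : ℝ), 0 < κ →
  (∀ j, closedBall (ζ j) κ ⊆ ball z₀ δ) → ∃ ℓ₂ > 0, ∀ ℓ : ℝ, 0 < ℓ → ℓ ≤ ℓ₂ →
    ContDiff ℝ ∞ (VV ζ n ℓ N) ∧ HasCompactSupport (VV ζ n ℓ N) ∧
    tsupport (VV ζ n ℓ N) ⊆ ball z₀ δ ∧ (∀ z, ‖fderiv ℝ (VV ζ n ℓ N) z‖ ≤ K) ∧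
    (∀ j < N, ∀ z ∈ ball (ζ j) ℓ, VV ζ n ℓ N z = vv (ζ j) (n j) ℓ z) ∧
    (∀ z, (∀ j < N, z ∉ ball (ζ j) ℓ) → VV ζ n ℓ N z = 0) ∧
    (∀ i < N, ∀ j < N, i ≠ j → Disjoint (ball (ζ i) ℓ) (ball (ζ j) ℓ)) ∧
    (∀ j < N, ball (ζ j) ℓ ⊆ ball z₀ δ)

/-- ZO [150].  Uses: nothing.  The energy of a sum.  Proof: on the open `ball (ζ j) ℓ` the two functions
inside `XQ` agree, so their derivatives and `XQ` agree there; off the closed balls `φ = id` near the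
point, `XQ = 0`; spheres are null sets.  So `∫_{Ω ∩ ball z₀ δ} XQ = Σ_j ∫_{Ω ∩ ball (ζ j) ℓ} XQ`
(integrable by hypothesis on each ball). -/
def SpecZO : Prop := ∀ (q v : ℂ → ℂ) (w : ℕ → ℂ → ℂ) (Ω : Set ℂ) (z₀ : ℂ) (δ ε ℓ : ℝ) (N : ℕ)
  (ζ : ℕ → ℂ), MeasurableSet Ω →
  (∀ j < N, ∀ z ∈ ball (ζ j) ℓ, v z = w j z) → (∀ z, (∀ j < N, z ∉ ball (ζ j) ℓ) → v z = 0) →
  (∀ i < N, ∀ j < N, i ≠ j → Disjoint (ball (ζ i) ℓ) (ball (ζ j) ℓ)) →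
  (∀ j < N, ball (ζ j) ℓ ⊆ ball z₀ δ) →
  (∀ j < N, IntegrableOn (XQ q (fun z => z + (ε : ℂ) * w j z)) (Ω ∩ ball (ζ j) ℓ)) →
  ∫ z in Ω ∩ ball z₀ δ, XQ q (fun z => z + (ε : ℂ) * v z) z =
    ∑ j ∈ Finset.range N, ∫ z in Ω ∩ ball (ζ j) ℓ, XQ q (fun z => z + (ε : ℂ) * w j z) z

/-- ZP [100].  Uses: INQ.  Proof: `XQ` is measurable and `|XQ| ≤ C |q|` (`|dZ φ|, |dB φ|` bounded,
`Jac φ ≥ 1/4` when `|ε| ‖v'‖ ≤ 1/4`), `q = qG g` is integrable (INQ). -/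
def SpecZP : Prop := ∀ (f g : ℂ → ℂ) (Ω : Set ℂ) (z₁ : ℂ) (r : ℝ), Pair f g Ω →
  (0 : ℂ) ∉ closedBall z₁ r → ∀ v : ℂ → ℂ, ContDiff ℝ ∞ v → ∀ K ε : ℝ,
  (∀ z, ‖fderiv ℝ v z‖ ≤ K) → |ε| * K ≤ 1 / 4 →
  IntegrableOn (XQ (qG g) (fun z => z + (ε : ℂ) * v z)) (Ω ∩ ball z₁ r)

/-- ZK [250].  Uses: PAI RMT KCL HOM ZA ZB ZC ZD ZE ZFB ZI ZJ ZN ZO ZP.  Proof: suppose the interior is
not empty.  ZA, ZB: `κ, z₀, δ, c_j, ζ_j`, `n_j = (ζ_j - c_j)/ρ`.  The `c_j` are in a compact subset of `Ω`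
(KCL; `‖c_j‖ ≤ ‖z₀‖ + δ + ρ`), so `‖g c_j‖ ≤ b₁ < 1` and by ZFB `a_j ≥ a₀ = (1 - b₁)/(2ρ) > 0`.  Let
`C` be from ZC, `K, ε₀, c₀` from ZJ.  Take `N` with `ρ N c₀ a₀²/(2π) > C`, then `ℓ` small (ZC, ZN, the
`N` radii of ZJ, `ℓ ≤ κ`), `v = VV ζ n ℓ N`, `φ = id + ε₀ v`.  ZE: `φ` is a `Dif` with `ψ`.  HOM, RMT,
PAI: `Pair F G (φ '' Ω)` (`φ '' Ω ≠ univ`, `0 = φ 0 ∈ φ '' Ω`).  ZD, ZO, ZP, ZJ:
`- 2π log ‖F'(0)‖ ≤ - N c₀ a₀² ℓ²`, so `‖F'(0)‖ ≥ 1 + N c₀ a₀² ℓ²/(2π)`.  `ExU.ext` with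
`ρ' = ρ + C ℓ²` (ZC): `ρ ‖F'(0)‖ ≤ ρ + C ℓ²`, contradiction. -/
def SpecZK : Prop := ∀ (f g : ℂ → ℂ) (Ω : Set ℂ) (ρ : ℝ), ExU f g Ω ρ → interior Ωᶜ = ∅

/-- ZL [150].  Uses: KCL.  `KK` is a null set.  Proof: `KK` is closed.  Lebesgue's density theorem
(`Besicovitch.ae_tendsto_measure_inter_div`): for a.e. `p ∈ KK`,
`volume (KK ∩ closedBall p r)/volume (closedBall p r) → 1` as `r → 0`.  But for `p ∈ KK` with centre `c`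
and `r ≤ ρ`, the ball of radius `r/2` with centre `p + (r/(2ρ)) (c - p)` is contained in
`ball c ρ ⊆ Ω` and in `closedBall p r`, and is disjoint from `KK`: the ratio is `≤ 3/4`. -/
def SpecZL : Prop := ∀ (Ω : Set ℂ) (ρ : ℝ), 0 < ρ → IsOpen Ω → volume (KK Ω ρ) = 0

/-- AZ [80].  Uses: EXF LCF ZK ZL.  THE THEOREM.  Proof: `Ω = f(D)`, EXF.  For `z ∈ Ωᶜ \ KK` (`z ≠ 0`) LCF
gives a ball with `volume (ball \ Ω) = 0` (it meets `Ω` by ZK); so `Ωᶜ \ KK` is locally null, hence null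
(`measure_null_of_locally_null`), and `KK` is null (ZL). -/
def SpecAZ : Prop := ∀ f : ℂ → ℂ, Univ f → rho f = S → volume (f '' ball 0 1)ᶜ = 0

end

end Pool.Agent.Lib.MP250511.SB
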