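import Pool.Agent.Lib.MP_250511_an.SB.Spec

/-!
# MP_250511_an, module VAB: the first variation
-/

set_option autoImplicit false

namespace Pool.Agent.Lib.MP250511.SB

open Complex Metric Set MeasureTheory Filter Topology
open scoped Real ENNReal ComplexConjugate ContDiff

namespace VABM

lemma hasF (v : ℂ → ℂ) (hv : ContDiff ℝ ∞ v) (ε : ℝ) (z : ℂ) :
    HasFDerivAt (fun z => z + (ε : ℂ) * v z)
      (ContinuousLinearMap.id ℝ ℂ + (ε : ℂ) • fderiv ℝ v z) z := by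
  have h1 : HasFDerivAt v (fderiv ℝ v z) z :=
    ((hv.differentiable (by simp)) z).hasFDerivAt
  exact (hasFDerivAt_id z).add (h1.const_mul (ε : ℂ))

lemma dZ_eq (v : ℂ → ℂ) (hv : ContDiff ℝ ∞ v) (ε : ℝ) (z : ℂ) :
    dZ (fun z => z + (ε : ℂ) * v z) z = 1 + (ε : ℂ) * dZ v z := by
  unfold dZ
  rw [(hasF v hv ε z).fderiv]
  simp only [ContinuousLinearMap.add_apply, ContinuousLinearMap.id_apply,
    ContinuousLinearMap.smul_apply, smul_eq_mul]
  linear_combination (-1 / 2) * Complex.I_sq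

lemma dB_eq (v : ℂ → ℂ) (hv : ContDiff ℝ ∞ v) (ε : ℝ) (z : ℂ) :
    dB (fun z => z + (ε : ℂ) * v z) z = (ε : ℂ) * dB v z := by
  unfold dB
  rw [(hasF v hv ε z).fderiv]
  simp only [ContinuousLinearMap.add_apply, ContinuousLinearMap.id_apply,
    ContinuousLinearMap.smul_apply, smul_eq_mul]
  linear_combination (1 / 2) * Complex.I_sq

lemma pw (α β Q : ℂ) (K ε : ℝ) (hK : 0 ≤ K) (hα : ‖α‖ ≤ K) (hβ : ‖β‖ ≤ K)
    (hε : |ε| * K ≤ 1 / 4) :
    |(2 * ‖Q‖ * ‖(ε : ℂ) * β‖ ^ 2 - 2 * (conj (1 + (ε : ℂ) * α) * ((ε : ℂ) * β) * Q).re) /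
        (‖1 + (ε : ℂ) * α‖ ^ 2 - ‖(ε : ℂ) * β‖ ^ 2) + 2 * ε * (β * Q).re| ≤
      24 * (|ε| * K) ^ 2 * ‖Q‖ := by
  have hQ : 0 ≤ ‖Q‖ := norm_nonneg Q
  have hx0 : 0 ≤ |ε| * K := mul_nonneg (abs_nonneg _) hK
  have hx2 : (|ε| * K) ^ 2 = ε ^ 2 * K ^ 2 := by rw [mul_pow, sq_abs]
  -- the two real parts
  have hR : (conj (1 + (ε : ℂ) * α) * ((ε : ℂ) * β) * Q).re =
      ε * (β * Q).re + ε ^ 2 * (conj α * β * Q).re := by
    have h1 : conj (1 + (ε : ℂ) * α) * ((ε : ℂ) * β) * Q =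
        (ε : ℂ) * (β * Q) + ((ε ^ 2 : ℝ) : ℂ) * (conj α * β * Q) := by
      rw [map_add, map_mul, Complex.conj_ofReal, map_one]
      push_cast
      ring
    rw [h1, Complex.add_re, Complex.re_ofReal_mul, Complex.re_ofReal_mul]
  have hR1 : |(β * Q).re| ≤ K * ‖Q‖ :=
    (Complex.abs_re_le_norm _).trans (by rw [norm_mul]; exact mul_le_mul_of_nonneg_right hβ hQ)
  have hR2 : |(conj α * β * Q).re| ≤ K ^ 2 * ‖Q‖ := by
    refine (Complex.abs_re_le_norm _).trans ?_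
    rw [norm_mul, norm_mul, RCLike.norm_conj]
    have h2 : ‖α‖ * ‖β‖ ≤ K * K := mul_le_mul hα hβ (norm_nonneg _) hK
    calc ‖α‖ * ‖β‖ * ‖Q‖ ≤ K * K * ‖Q‖ := mul_le_mul_of_nonneg_right h2 hQ
      _ = K ^ 2 * ‖Q‖ := by ring
  -- the Jacobian
  have hJ : ‖1 + (ε : ℂ) * α‖ ^ 2 - ‖(ε : ℂ) * β‖ ^ 2 =
      1 + (2 * (ε * α.re) + ε ^ 2 * (‖α‖ ^ 2 - ‖β‖ ^ 2)) := by
    rw [norm_mul (ε : ℂ) β, mul_pow, Complex.norm_real, Real.norm_eq_abs, sq_abs]
    rw [Complex.sq_norm, Complex.sq_norm α, Complex.normSq_apply, Complex.normSq_apply]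
    simp only [Complex.add_re, Complex.add_im, Complex.one_re, Complex.one_im,
      Complex.re_ofReal_mul, Complex.im_ofReal_mul]
    ring
  have hεβ : ‖(ε : ℂ) * β‖ ^ 2 = ε ^ 2 * ‖β‖ ^ 2 := by
    rw [norm_mul (ε : ℂ) β, mul_pow, Complex.norm_real, Real.norm_eq_abs, sq_abs]
  set D : ℝ := 2 * (ε * α.re) + ε ^ 2 * (‖α‖ ^ 2 - ‖β‖ ^ 2) with hD
  have hαre : |α.re| ≤ K := (Complex.abs_re_le_norm α).trans hα
  have hα2 : ‖α‖ ^ 2 ≤ K ^ 2 := by
    exact pow_le_pow_left₀ (norm_nonneg _) hα 2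
  have hβ2 : ‖β‖ ^ 2 ≤ K ^ 2 := by
    exact pow_le_pow_left₀ (norm_nonneg _) hβ 2
  have hDle : |D| ≤ 2 * (|ε| * K) + (|ε| * K) ^ 2 := by
    rw [hD]
    refine (abs_add_le _ _).trans ?_
    have h3 : |2 * (ε * α.re)| ≤ 2 * (|ε| * K) := by
      rw [abs_mul, abs_mul, abs_of_pos (by norm_num : (0 : ℝ) < 2)]
      have := mul_le_mul_of_nonneg_left hαre (abs_nonneg ε)
      linarith
    have h4 : |ε ^ 2 * (‖α‖ ^ 2 - ‖β‖ ^ 2)| ≤ (|ε| * K) ^ 2 := by
      rw [abs_mul, abs_of_nonneg (sq_nonneg ε), hx2]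
      refine mul_le_mul_of_nonneg_left ?_ (sq_nonneg ε)
      rw [abs_le]
      constructor <;> nlinarith [sq_nonneg ‖α‖, sq_nonneg ‖β‖]
    linarith
  have hDle2 : |D| ≤ 9 / 4 * (|ε| * K) := by
    nlinarith
  have hJpos : 7 / 16 ≤ 1 + D := by
    have := neg_abs_le D
    linarith
  rw [hR, hJ, hεβ]
  have hpos : 0 < 1 + D := by linarith
  have e1 : (2 * ‖Q‖ * (ε ^ 2 * ‖β‖ ^ 2) - 2 * (ε * (β * Q).re + ε ^ 2 * (conj α * β * Q).re)) /
      (1 + D) + 2 * ε * (β * Q).re =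
      (2 * ‖Q‖ * (ε ^ 2 * ‖β‖ ^ 2) - 2 * (ε ^ 2 * (conj α * β * Q).re) +
        2 * (ε * ((β * Q).re * D))) / (1 + D) := by
    field_simp
    ring
  rw [e1, abs_div, abs_of_pos hpos, div_le_iff₀ hpos]
  have hN : |2 * ‖Q‖ * (ε ^ 2 * ‖β‖ ^ 2) - 2 * (ε ^ 2 * (conj α * β * Q).re) +
        2 * (ε * ((β * Q).re * D))| ≤ 17 / 2 * (|ε| * K) ^ 2 * ‖Q‖ := by
    have a1 : |2 * ‖Q‖ * (ε ^ 2 * ‖β‖ ^ 2)| ≤ 2 * (|ε| * K) ^ 2 * ‖Q‖ := by
      rw [abs_of_nonneg (by positivity), hx2]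
      have := mul_le_mul_of_nonneg_left hβ2 (mul_nonneg (sq_nonneg ε) hQ)
      nlinarith
    have a2 : |2 * (ε ^ 2 * (conj α * β * Q).re)| ≤ 2 * (|ε| * K) ^ 2 * ‖Q‖ := by
      rw [abs_mul, abs_mul, abs_of_pos (by norm_num : (0 : ℝ) < 2), abs_of_nonneg (sq_nonneg ε),
        hx2]
      have := mul_le_mul_of_nonneg_left hR2 (sq_nonneg ε)
      nlinarith
    have a3 : |2 * (ε * ((β * Q).re * D))| ≤ 9 / 2 * (|ε| * K) ^ 2 * ‖Q‖ := by
      rw [abs_mul, abs_mul, abs_mul, abs_of_pos (by norm_num : (0 : ℝ) < 2)]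
      have h5 : |(β * Q).re| * |D| ≤ K * ‖Q‖ * (9 / 4 * (|ε| * K)) :=
        mul_le_mul hR1 hDle2 (abs_nonneg _) (mul_nonneg hK hQ)
      have h6 := mul_le_mul_of_nonneg_left h5 (abs_nonneg ε)
      nlinarith
    have a4 := abs_add_le (2 * ‖Q‖ * (ε ^ 2 * ‖β‖ ^ 2) - 2 * (ε ^ 2 * (conj α * β * Q).re))
      (2 * (ε * ((β * Q).re * D)))
    have a5 := abs_sub (2 * ‖Q‖ * (ε ^ 2 * ‖β‖ ^ 2)) (2 * (ε ^ 2 * (conj α * β * Q).re))
    linarith
  have hfin : 24 * (|ε| * K) ^ 2 * ‖Q‖ * (7 / 16) ≤ 24 * (|ε| * K) ^ 2 * ‖Q‖ * (1 + D) :=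
    mul_le_mul_of_nonneg_left hJpos (by positivity)
  have h0 : 0 ≤ (|ε| * K) ^ 2 * ‖Q‖ := by positivity
  linarith

end VABM

open VABM in
theorem specVAB : SpecVAB := by
  intro W q v hW hq hv hcs ⟨ε₁, hε₁, hmain⟩
  -- bounds for the derivatives
  have hcf : Continuous (fderiv ℝ v) := hv.continuous_fderiv (by simp)
  obtain ⟨K₀, hK₀⟩ := (hcs.fderiv (𝕜 := ℝ)).exists_bound_of_continuous hcf
  set K : ℝ := max K₀ 0 with hKdef
  have hK : 0 ≤ K := le_max_right _ _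
  have hfd : ∀ z, ‖fderiv ℝ v z‖ ≤ K := fun z => (hK₀ z).trans (le_max_left _ _)
  have hf1 : ∀ z, ‖fderiv ℝ v z 1‖ ≤ K := fun z => by
    have := (fderiv ℝ v z).le_opNorm 1
    rw [norm_one, mul_one] at this
    exact this.trans (hfd z)
  have hfI : ∀ z, ‖fderiv ℝ v z I‖ ≤ K := fun z => by
    have := (fderiv ℝ v z).le_opNorm I
    rw [Complex.norm_I, mul_one] at this
    exact this.trans (hfd z)
  have hα : ∀ z, ‖dZ v z‖ ≤ K := fun z => by
    unfold dZ
    rw [norm_div, Complex.norm_ofNat]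
    have h1 := norm_sub_le (fderiv ℝ v z 1) (I * fderiv ℝ v z I)
    rw [norm_mul, Complex.norm_I, one_mul] at h1
    have := hf1 z
    have := hfI z
    linarith
  have hβ : ∀ z, ‖dB v z‖ ≤ K := fun z => by
    unfold dB
    rw [norm_div, Complex.norm_ofNat]
    have h1 := norm_add_le (fderiv ℝ v z 1) (I * fderiv ℝ v z I)
    rw [norm_mul, Complex.norm_I, one_mul] at h1
    have := hf1 z
    have := hfI z
    linarith
  have hcZ : Continuous (dZ v) := by
    unfold dZ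
    exact ((hcf.clm_apply continuous_const).sub
      (continuous_const.mul (hcf.clm_apply continuous_const))).div_const 2
  have hcB : Continuous (dB v) := by
    unfold dB
    exact ((hcf.clm_apply continuous_const).add
      (continuous_const.mul (hcf.clm_apply continuous_const))).div_const 2
  have hqm : AEStronglyMeasurable q (volume.restrict W) := hq.1
  have hβq : Integrable (fun z => dB v z * q z) (volume.restrict W) := by
    refine Integrable.mono' (hq.norm.const_mul K) (hcB.aestronglyMeasurable.mul hqm) ?_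
    refine Eventually.of_forall fun z => ?_
    rw [norm_mul]
    exact mul_le_mul_of_nonneg_right (hβ z) (norm_nonneg _)
  have hβr : Integrable (fun z => (dB v z * q z).re) (volume.restrict W) := hβq.re
  have hXQ : ∀ (ε : ℝ) (z : ℂ), XQ q (fun z => z + (ε : ℂ) * v z) z =
      (2 * ‖q z‖ * ‖(ε : ℂ) * dB v z‖ ^ 2 -
        2 * (conj (1 + (ε : ℂ) * dZ v z) * ((ε : ℂ) * dB v z) * q z).re) /
        (‖1 + (ε : ℂ) * dZ v z‖ ^ 2 - ‖(ε : ℂ) * dB v z‖ ^ 2) := by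
    intro ε z
    unfold XQ Jac
    rw [dZ_eq v hv, dB_eq v hv]
  set I₀ : ℝ := ∫ z in W, (dB v z * q z).re with hI₀
  set C : ℝ := 24 * K ^ 2 * ∫ z in W, ‖q z‖ with hC
  have hC0 : 0 ≤ C := by
    rw [hC]
    exact mul_nonneg (by positivity) (integral_nonneg fun z => norm_nonneg _)
  have hI : (∫ z in W, dB v z * q z).re = I₀ := by
    rw [hI₀]
    exact (integral_re hβq).symm
  rw [hI]
  -- the key inequality
  have key : ∀ ε : ℝ, |ε| < ε₁ → |ε| * K ≤ 1 / 4 → 2 * ε * I₀ ≤ ε ^ 2 * C := by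
    intro ε h1 h2
    have h3 := hmain ε h1
    have hb : ∀ z, |XQ q (fun z => z + (ε : ℂ) * v z) z + 2 * ε * (dB v z * q z).re| ≤
        24 * (|ε| * K) ^ 2 * ‖q z‖ := by
      intro z
      rw [hXQ]
      exact pw (dZ v z) (dB v z) (q z) K ε hK (hα z) (hβ z) h2
    have hmeas : AEStronglyMeasurable (fun z => XQ q (fun z => z + (ε : ℂ) * v z) z)
        (volume.restrict W) := by
      have e : (fun z => XQ q (fun z => z + (ε : ℂ) * v z) z) = fun z =>
        (2 * ‖q z‖ * ‖(ε : ℂ) * dB v z‖ ^ 2 -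
        2 * (conj (1 + (ε : ℂ) * dZ v z) * ((ε : ℂ) * dB v z) * q z).re) /
        (‖1 + (ε : ℂ) * dZ v z‖ ^ 2 - ‖(ε : ℂ) * dB v z‖ ^ 2) := by
        funext z
        exact hXQ ε z
      rw [e]
      have hqa : AEMeasurable q (volume.restrict W) := hqm.aemeasurable
      have hBa : Measurable (dB v) := hcB.measurable
      have hZa : Measurable (dZ v) := hcZ.measurable
      have hBc : Measurable (fun z => (ε : ℂ) * dB v z) := hBa.const_mul _
      have hZc : Measurable (fun z => 1 + (ε : ℂ) * dZ v z) := (hZa.const_mul _).const_add _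
      have hZcc : Measurable (fun z => conj (1 + (ε : ℂ) * dZ v z)) :=
        Complex.continuous_conj.measurable.comp hZc
      have m1 : AEMeasurable (fun z => 2 * ‖q z‖ * ‖(ε : ℂ) * dB v z‖ ^ 2)
          (volume.restrict W) :=
        ((hqa.norm.const_mul 2)).mul (hBc.norm.pow_const 2).aemeasurable
      have m2 : AEMeasurable (fun z =>
          2 * (conj (1 + (ε : ℂ) * dZ v z) * ((ε : ℂ) * dB v z) * q z).re)
          (volume.restrict W) :=
        (Complex.measurable_re.comp_aemeasurable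
          (((hZcc.mul hBc).aemeasurable).mul hqa)).const_mul 2
      have m3 : AEMeasurable (fun z => ‖1 + (ε : ℂ) * dZ v z‖ ^ 2 - ‖(ε : ℂ) * dB v z‖ ^ 2)
          (volume.restrict W) :=
        ((hZc.norm.pow_const 2).sub (hBc.norm.pow_const 2)).aemeasurable
      exact ((m1.sub m2).div m3).aestronglyMeasurable
    have hint1 : Integrable (fun z => XQ q (fun z => z + (ε : ℂ) * v z) z +
        2 * ε * (dB v z * q z).re) (volume.restrict W) := by
      refine Integrable.mono' (hq.norm.const_mul (24 * (|ε| * K) ^ 2))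
        (hmeas.add (hβr.const_mul (2 * ε)).1) ?_
      refine Eventually.of_forall fun z => ?_
      rw [Real.norm_eq_abs]
      exact hb z
    have hint2 : Integrable (fun z => XQ q (fun z => z + (ε : ℂ) * v z) z)
        (volume.restrict W) := by
      have h5 := hint1.sub (hβr.const_mul (2 * ε))
      refine h5.congr (Eventually.of_forall fun z => ?_)
      simp
    have h6 : ∫ z in W, (XQ q (fun z => z + (ε : ℂ) * v z) z + 2 * ε * (dB v z * q z).re) ≤
        ∫ z in W, 24 * (|ε| * K) ^ 2 * ‖q z‖ :=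
      integral_mono hint1 (hq.norm.const_mul _) fun z => (le_abs_self _).trans (hb z)
    rw [integral_add hint2 (hβr.const_mul (2 * ε)), integral_const_mul, integral_const_mul] at h6
    have h7 : (|ε| * K) ^ 2 = ε ^ 2 * K ^ 2 := by rw [mul_pow, sq_abs]
    rw [h7] at h6
    have h8 : 24 * (ε ^ 2 * K ^ 2) * ∫ z in W, ‖q z‖ = ε ^ 2 * C := by
      rw [hC]
      ring
    rw [h8] at h6
    linarith
  -- conclusion
  have key2 : ∀ σ : ℝ, (σ = 1 ∨ σ = -1) → σ * I₀ ≤ 0 := by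
    intro σ hσ
    by_contra hcon
    have hpos : 0 < σ * I₀ := not_le.mp hcon
    have hσ1 : |σ| = 1 := by
      rcases hσ with h | h <;> rw [h] <;> simp
    have hσ2 : σ ^ 2 = 1 := by
      rcases hσ with h | h <;> rw [h] <;> norm_num
    -- small t
    set t : ℝ := min (ε₁ / 2) (min (1 / (4 * (K + 1))) (σ * I₀ / (C + 1))) with ht
    have ht0 : 0 < t := by
      rw [ht]
      refine lt_min (by linarith) (lt_min (by positivity) ?_)
      exact div_pos hpos (by linarith)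
    have ht1 : t ≤ ε₁ / 2 := min_le_left _ _
    have ht2 : t ≤ 1 / (4 * (K + 1)) := (min_le_right _ _).trans (min_le_left _ _)
    have ht3 : t ≤ σ * I₀ / (C + 1) := (min_le_right _ _).trans (min_le_right _ _)
    have habs : |σ * t| = t := by
      rw [abs_mul, hσ1, one_mul, abs_of_pos ht0]
    have h2 : |σ * t| * K ≤ 1 / 4 := by
      rw [habs]
      have h9 : t * (4 * (K + 1)) ≤ 1 := by
        rwa [le_div_iff₀ (by positivity)] at ht2
      nlinarith
    have h10 := key (σ * t) (by rw [habs]; linarith) h2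
    have h11 : (σ * t) ^ 2 = t ^ 2 := by rw [mul_pow, hσ2, one_mul]
    rw [h11] at h10
    have h12 : t * (C + 1) ≤ σ * I₀ := by
      rwa [le_div_iff₀ (by linarith)] at ht3
    have h13 : t * (2 * (σ * I₀)) ≤ t * (t * C) := by
      calc t * (2 * (σ * I₀)) = 2 * (σ * t) * I₀ := by ring
        _ ≤ t ^ 2 * C := h10
        _ = t * (t * C) := by ring
    have h14 : 2 * (σ * I₀) ≤ t * C := le_of_mul_le_mul_left h13 ht0
    nlinarith
  have k1 := key2 1 (Or.inl rfl)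
  have k2 := key2 (-1) (Or.inr rfl)
  linarith

end Pool.Agent.Lib.MP250511.SB
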