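import Pool.Agent.Lib.MP_250511_an.SB.SpecF

/-!
MP_250511_an, SB, module VAF: small deformations off the contact set do not increase the conformal
radius, for extremal domains which need not be starlike.
-/

set_option autoImplicit false

namespace Pool.Agent.Lib.MP250511.SB

open Complex Metric Set MeasureTheory Filter Topology
open scoped Real ENNReal ComplexConjugate ContDiff

theorem specVAF (hPER : SpecPER) : SpecVAF := by
  intro f g Ω ρ hE z₀ δ hdis v _ hcs hsupp hd
  obtain ⟨ε₀, hε₀, hd⟩ := hd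
  by_contra hcon
  push Not at hcon
  have hch : ∀ n : ℕ, ∃ ε : ℝ, |ε| < min ε₀ (1 / ((n : ℝ) + 1)) ∧ ∃ F : ℂ → ℂ,
      Conf F ((fun z => z + (ε : ℂ) * v z) '' Ω) ∧ 1 < ‖deriv F 0‖ := fun n =>
    hcon (min ε₀ (1 / ((n : ℝ) + 1))) (lt_min hε₀ (by positivity))
  choose ε hε F hF hF1 using hch
  have hε1 : ∀ n, |ε n| < ε₀ := fun n => (hε n).trans_le (min_le_left _ _)
  have hε0 : Tendsto ε atTop (𝓝 0) := by
    rw [tendsto_zero_iff_abs_tendsto_zero]
    refine squeeze_zero (fun n => abs_nonneg _)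
      (fun n => ((hε n).trans_le (min_le_right _ _)).le) ?_
    exact tendsto_one_div_add_atTop_nhds_zero_nat
  have hinj : ∀ n, Function.Injective (fun z => z + ((ε n : ℝ) : ℂ) * v z) := by
    intro n
    obtain ⟨ψ, hψ⟩ := hd (ε n) (hε1 n)
    exact Function.LeftInverse.injective hψ.l
  have hper := hPER Ω ρ hE.pos hE.op hE.inr (tsupport v) hcs
    (Disjoint.mono_left hsupp hdis)
    (fun n => ((fun z => z + ((ε n : ℝ) : ℂ) * v z) '' Ω)ᶜ) ?_ ?_
  · obtain ⟨n, hn⟩ := hper.exists
    have h1 := hE.ext (F n) _ (hF n) ρ (by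
      intro c r hcr
      apply hn c r
      intro e he heb
      exact he (hcr heb))
    have h2 := hF1 n
    have h3 := hE.pos
    nlinarith
  · refine Eventually.of_forall fun n e he hev => ?_
    rintro ⟨z, hz, hze⟩
    have hv : v e = 0 := image_eq_zero_of_notMem_tsupport hev
    have h1 : (fun z => z + ((ε n : ℝ) : ℂ) * v z) e = e := by
      show e + ((ε n : ℝ) : ℂ) * v e = e
      rw [hv, mul_zero, add_zero]
    have h2 : z = e := hinj n (hze.trans h1.symm)
    exact he (h2 ▸ hz)
  · intro e he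
    refine ⟨fun n => e + ((ε n : ℝ) : ℂ) * v e, Eventually.of_forall fun n => ?_, ?_⟩
    · rintro ⟨z, hz, hze⟩
      have h2 : z = e := hinj n hze
      exact he (h2 ▸ hz)
    · have h1 : Tendsto (fun n => e + ((ε n : ℝ) : ℂ) * v e) atTop
          (𝓝 (e + ((0 : ℝ) : ℂ) * v e)) := by
        refine tendsto_const_nhds.add (Tendsto.mul_const _ ?_)
        exact (Complex.continuous_ofReal.tendsto 0).comp hε0
      simpa using h1

end Pool.Agent.Lib.MP250511.SB
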