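import Pool.Agent.Lib.MP_250511_an.SB.Spec

/-!
# MP_250511_an, module VAR: stationarity of the extremal domain
-/

set_option autoImplicit false

namespace Pool.Agent.Lib.MP250511.SB

open Complex Metric Set MeasureTheory Filter Topology
open scoped Real ENNReal ComplexConjugate ContDiff

namespace VARM

theorem dB_mul_I (v : ℂ → ℂ) (hv : ContDiff ℝ ∞ v) (z : ℂ) :
    dB (fun w => I * v w) z = I * dB v z := by
  have hd : DifferentiableAt ℝ v z := (hv.differentiable (by simp)) z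
  unfold dB
  rw [fderiv_const_mul hd I]
  simp only [smul_apply, smul_eq_mul]
  ring

end VARM

theorem specVAR (hPAI : SpecPAI) (hRMT : SpecRMT) (hHOM : SpecHOM) (hDIF : SpecDIF)
    (hINQ : SpecINQ) (hVIN : SpecVIN) (hVAA : SpecVAA) (hVAB : SpecVAB) : SpecVAR := by
  intro f g Ω ρ hE z₀ δ hδ h0 hK v hv hcs hsup
  have hz : (0 : ℂ) ∉ ball z₀ δ := fun h => h0 (ball_subset_closedBall h)
  have h0Ω : (0 : ℂ) ∈ Ω := by
    rw [← hE.im]
    exact ⟨0, by simp, hE.zero⟩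
  have hΩ : Ω ≠ univ := by
    intro h
    have := hE.inr 0 (ρ + 1) (by rw [h]; exact subset_univ _)
    linarith
  have key : ∀ v : ℂ → ℂ, ContDiff ℝ ∞ v → HasCompactSupport v → tsupport v ⊆ ball z₀ δ →
      (∫ z in Ω ∩ ball z₀ δ, dB v z * qG g z).re = 0 := by
    intro v hv hcs hsup
    refine hVAB (Ω ∩ ball z₀ δ) (qG g) v (hE.op.measurableSet.inter measurableSet_ball)
      (hINQ f g Ω hE.toPair z₀ δ h0) hv hcs ?_
    obtain ⟨ε₀, hε₀, hd⟩ := hDIF v hv hcs z₀ δ hsup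
    obtain ⟨ε₁, hε₁, h1⟩ := hVAA f g Ω ρ hE z₀ δ hK v hv hcs hsup ⟨ε₀, hε₀, hd⟩
    refine ⟨min ε₀ ε₁, lt_min hε₀ hε₁, fun ε hε => ?_⟩
    obtain ⟨ψ, hψ⟩ := hd ε (lt_of_lt_of_le hε (min_le_left _ _))
    obtain ⟨hop, hsc⟩ := hHOM f (fun z => z + (ε : ℂ) * v z) ψ Ω z₀ δ hE.toConf hE.op hψ
    have hne : (fun z => z + (ε : ℂ) * v z) '' Ω ≠ univ := by
      intro h
      apply hΩ
      rw [eq_univ_iff_forall]
      intro z
      have hz1 : (fun z => z + (ε : ℂ) * v z) z ∈ (fun z => z + (ε : ℂ) * v z) '' Ω := by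
        rw [h]; exact mem_univ _
      obtain ⟨w, hw, hwz⟩ := hz1
      have h2 := congrArg ψ hwz
      rw [hψ.l, hψ.l] at h2
      rwa [← h2]
    have h0m : (0 : ℂ) ∈ (fun z => z + (ε : ℂ) * v z) '' Ω := ⟨0, h0Ω, hψ.id 0 hz⟩
    obtain ⟨F, hF⟩ := hRMT _ hop hsc hne h0m
    obtain ⟨G, hFG⟩ := hPAI F _ hF
    exact hVIN f g F G _ ψ Ω z₀ δ hE.toPair hE.one h0 hψ hFG
      (h1 ε (lt_of_lt_of_le hε (min_le_right _ _)) F hF)
  have hre := key v hv hcs hsup
  have hsup' : tsupport (fun w => I * v w) ⊆ tsupport v :=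
    closure_mono fun z hz hv0 => hz (by simp [hv0])
  have him := key (fun w => I * v w) (contDiff_const.mul hv) (hcs.mul_left)
    (hsup'.trans hsup)
  have he : (∫ z in Ω ∩ ball z₀ δ, dB (fun w => I * v w) z * qG g z) =
      I * ∫ z in Ω ∩ ball z₀ δ, dB v z * qG g z := by
    rw [← integral_const_mul]
    congr 1
    funext z
    rw [VARM.dB_mul_I v hv z, mul_assoc]
  rw [he] at him
  apply Complex.ext
  · exact hre
  · simpa using him

end Pool.Agent.Lib.MP250511.SB
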