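import Pool.Agent.Lib.MP_250511_an.SB.SpecE
import Pool.Agent.Lib.MP_250511_an.SB.VAB

/-!
# MP_250511_an, module VBG: the one-sided first variation
(a variation of module VAB, whose lemmas are used)
-/

set_option autoImplicit false

namespace Pool.Agent.Lib.MP250511.SB

open Complex Metric Set MeasureTheory Filter Topology
open scoped Real ENNReal ComplexConjugate ContDiff

open VABM in
theorem specVBG : SpecVBG := by
  intro W q v A hW hq hv hcs ⟨ε₁, hε₁, hmain⟩
  -- bounds for the derivatives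
  have hcf : Continuous (fderiv ℝ v) := hv.continuous_fderiv (by simp)
  obtain ⟨K₀, hK₀⟩ := (hcs.fderiv (𝕜 := ℝ)).exists_bound_of_continuous hcf
  set K : ℝ := max K₀ 0 with hKdef
  have hK : 0 ≤ K := le_max_right _ _
  have hfd : ∀ z, ‖fderiv ℝ v z‖ ≤ K := fun z => (hK₀ z).trans (le_max_left _ _)
  have hf1 : ∀ z, ‖fderiv ℝ v z 1‖ ≤ K := fun z => by
    have := (fderiv ℝ v z).le_opNorm 1
    rw [norm_one, mul_one] at this
    exact this.trans (hfd z)
  have hfI : ∀ z, ‖fderiv ℝ v z I‖ ≤ K := fun z => by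
    have := (fderiv ℝ v z).le_opNorm I
    rw [Complex.norm_I, mul_one] at this
    exact this.trans (hfd z)
  have hα : ∀ z, ‖dZ v z‖ ≤ K := fun z => by
    unfold dZ
    rw [norm_div, Complex.norm_ofNat]
    have h1 := norm_sub_le (fderiv ℝ v z 1) (I * fderiv ℝ v z I)
    rw [norm_mul, Complex.norm_I, one_mul] at h1
    have := hf1 z
    have := hfI z
    linarith
  have hβ : ∀ z, ‖dB v z‖ ≤ K := fun z => by
    unfold dB
    rw [norm_div, Complex.norm_ofNat]
    have h1 := norm_add_le (fderiv ℝ v z 1) (I * fderiv ℝ v z I)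
    rw [norm_mul, Complex.norm_I, one_mul] at h1
    have := hf1 z
    have := hfI z
    linarith
  have hcZ : Continuous (dZ v) := by
    unfold dZ
    exact ((hcf.clm_apply continuous_const).sub
      (continuous_const.mul (hcf.clm_apply continuous_const))).div_const 2
  have hcB : Continuous (dB v) := by
    unfold dB
    exact ((hcf.clm_apply continuous_const).add
      (continuous_const.mul (hcf.clm_apply continuous_const))).div_const 2
  have hqm : AEStronglyMeasurable q (volume.restrict W) := hq.1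
  have hβq : Integrable (fun z => dB v z * q z) (volume.restrict W) := by
    refine Integrable.mono' (hq.norm.const_mul K) (hcB.aestronglyMeasurable.mul hqm) ?_
    refine Eventually.of_forall fun z => ?_
    rw [norm_mul]
    exact mul_le_mul_of_nonneg_right (hβ z) (norm_nonneg _)
  have hβr : Integrable (fun z => (dB v z * q z).re) (volume.restrict W) := hβq.re
  have hXQ : ∀ (ε : ℝ) (z : ℂ), XQ q (fun z => z + (ε : ℂ) * v z) z =
      (2 * ‖q z‖ * ‖(ε : ℂ) * dB v z‖ ^ 2 -
        2 * (conj (1 + (ε : ℂ) * dZ v z) * ((ε : ℂ) * dB v z) * q z).re) /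
        (‖1 + (ε : ℂ) * dZ v z‖ ^ 2 - ‖(ε : ℂ) * dB v z‖ ^ 2) := by
    intro ε z
    unfold XQ Jac
    rw [dZ_eq v hv, dB_eq v hv]
  set I₀ : ℝ := ∫ z in W, (dB v z * q z).re with hI₀
  set C : ℝ := 24 * K ^ 2 * ∫ z in W, ‖q z‖ with hC
  have hC0 : 0 ≤ C := by
    rw [hC]
    exact mul_nonneg (by positivity) (integral_nonneg fun z => norm_nonneg _)
  have hI : (∫ z in W, dB v z * q z).re = I₀ := by
    rw [hI₀]
    exact (integral_re hβq).symm
  rw [hI]
  -- the key inequality
  have key : ∀ ε : ℝ, 0 < ε → ε < ε₁ → |ε| * K ≤ 1 / 4 → 2 * ε * I₀ ≤ A * ε + ε ^ 2 * C := by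
    intro ε h0 h1 h2
    have h3 := hmain ε h0 h1
    have hb : ∀ z, |XQ q (fun z => z + (ε : ℂ) * v z) z + 2 * ε * (dB v z * q z).re| ≤
        24 * (|ε| * K) ^ 2 * ‖q z‖ := by
      intro z
      rw [hXQ]
      exact pw (dZ v z) (dB v z) (q z) K ε hK (hα z) (hβ z) h2
    have hmeas : AEStronglyMeasurable (fun z => XQ q (fun z => z + (ε : ℂ) * v z) z)
        (volume.restrict W) := by
      have e : (fun z => XQ q (fun z => z + (ε : ℂ) * v z) z) = fun z =>
        (2 * ‖q z‖ * ‖(ε : ℂ) * dB v z‖ ^ 2 -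
        2 * (conj (1 + (ε : ℂ) * dZ v z) * ((ε : ℂ) * dB v z) * q z).re) /
        (‖1 + (ε : ℂ) * dZ v z‖ ^ 2 - ‖(ε : ℂ) * dB v z‖ ^ 2) := by
        funext z
        exact hXQ ε z
      rw [e]
      have hqa : AEMeasurable q (volume.restrict W) := hqm.aemeasurable
      have hBa : Measurable (dB v) := hcB.measurable
      have hZa : Measurable (dZ v) := hcZ.measurable
      have hBc : Measurable (fun z => (ε : ℂ) * dB v z) := hBa.const_mul _
      have hZc : Measurable (fun z => 1 + (ε : ℂ) * dZ v z) := (hZa.const_mul _).const_add _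
      have hZcc : Measurable (fun z => conj (1 + (ε : ℂ) * dZ v z)) :=
        Complex.continuous_conj.measurable.comp hZc
      have m1 : AEMeasurable (fun z => 2 * ‖q z‖ * ‖(ε : ℂ) * dB v z‖ ^ 2)
          (volume.restrict W) :=
        ((hqa.norm.const_mul 2)).mul (hBc.norm.pow_const 2).aemeasurable
      have m2 : AEMeasurable (fun z =>
          2 * (conj (1 + (ε : ℂ) * dZ v z) * ((ε : ℂ) * dB v z) * q z).re)
          (volume.restrict W) :=
        (Complex.measurable_re.comp_aemeasurable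
          (((hZcc.mul hBc).aemeasurable).mul hqa)).const_mul 2
      have m3 : AEMeasurable (fun z => ‖1 + (ε : ℂ) * dZ v z‖ ^ 2 - ‖(ε : ℂ) * dB v z‖ ^ 2)
          (volume.restrict W) :=
        ((hZc.norm.pow_const 2).sub (hBc.norm.pow_const 2)).aemeasurable
      exact ((m1.sub m2).div m3).aestronglyMeasurable
    have hint1 : Integrable (fun z => XQ q (fun z => z + (ε : ℂ) * v z) z +
        2 * ε * (dB v z * q z).re) (volume.restrict W) := by
      refine Integrable.mono' (hq.norm.const_mul (24 * (|ε| * K) ^ 2))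
        (hmeas.add (hβr.const_mul (2 * ε)).1) ?_
      refine Eventually.of_forall fun z => ?_
      rw [Real.norm_eq_abs]
      exact hb z
    have hint2 : Integrable (fun z => XQ q (fun z => z + (ε : ℂ) * v z) z)
        (volume.restrict W) := by
      have h5 := hint1.sub (hβr.const_mul (2 * ε))
      refine h5.congr (Eventually.of_forall fun z => ?_)
      simp
    have h6 : ∫ z in W, (XQ q (fun z => z + (ε : ℂ) * v z) z + 2 * ε * (dB v z * q z).re) ≤
        ∫ z in W, 24 * (|ε| * K) ^ 2 * ‖q z‖ :=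
      integral_mono hint1 (hq.norm.const_mul _) fun z => (le_abs_self _).trans (hb z)
    rw [integral_add hint2 (hβr.const_mul (2 * ε)), integral_const_mul, integral_const_mul] at h6
    have h7 : (|ε| * K) ^ 2 = ε ^ 2 * K ^ 2 := by rw [mul_pow, sq_abs]
    rw [h7] at h6
    have h8 : 24 * (ε ^ 2 * K ^ 2) * ∫ z in W, ‖q z‖ = ε ^ 2 * C := by
      rw [hC]
      ring
    rw [h8] at h6
    linarith
  -- conclusion
  by_contra hcon
  have hpos : 0 < 2 * I₀ - A := by linarith [not_le.mp hcon]
  -- small t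
  obtain ⟨t, ht⟩ : ∃ t : ℝ, t = min (ε₁ / 2) (min (1 / (4 * (K + 1))) ((2 * I₀ - A) / (C + 1))) :=
    ⟨_, rfl⟩
  have ht0 : 0 < t := by
    rw [ht]
    refine lt_min (by linarith) (lt_min (by positivity) ?_)
    exact div_pos hpos (by linarith)
  have ht1 : t ≤ ε₁ / 2 := ht.le.trans (min_le_left _ _)
  have ht2 : t ≤ 1 / (4 * (K + 1)) := ht.le.trans ((min_le_right _ _).trans (min_le_left _ _))
  have ht3 : t ≤ (2 * I₀ - A) / (C + 1) := ht.le.trans ((min_le_right _ _).trans (min_le_right _ _))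
  have habs : |t| = t := abs_of_pos ht0
  have h2 : |t| * K ≤ 1 / 4 := by
    rw [habs]
    have h9 : t * (4 * (K + 1)) ≤ 1 := by
      rwa [le_div_iff₀ (by positivity)] at ht2
    nlinarith
  have h10 := key t ht0 (by linarith) h2
  have h12 : t * (C + 1) ≤ 2 * I₀ - A := by
    rwa [le_div_iff₀ (by linarith)] at ht3
  have h13 : t * (2 * I₀ - A) ≤ t * (t * C) := by
    calc t * (2 * I₀ - A) = 2 * t * I₀ - A * t := by ring
      _ ≤ t ^ 2 * C := by linarith
      _ = t * (t * C) := by ring
  have h14 : 2 * I₀ - A ≤ t * C := le_of_mul_le_mul_left h13 ht0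
  nlinarith

end Pool.Agent.Lib.MP250511.SB
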