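import Pool.Agent.Lib.MP_250511_an.SB.Spec

/-! Module VIN: the energy inequality. -/

set_option autoImplicit false

namespace Pool.Agent.Lib.MP250511.SB

open Complex Metric Set MeasureTheory Filter Topology
open scoped Real ENNReal ComplexConjugate ContDiff

noncomputable section

namespace VINM

theorem YQ_eq (q φ : ℂ → ℂ) (z : ℂ) (hJ : 0 < Jac φ z) : YQ q φ z = ‖q z‖ + XQ q φ z := by
  unfold YQ XQ
  have h : Jac φ z ≠ 0 := hJ.ne'
  rw [eq_comm, ← sub_eq_zero]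
  have h2 : ‖q z‖ = ‖q z‖ * Jac φ z / Jac φ z := by
    rw [mul_div_assoc, div_self h, mul_one]
  rw [show ‖q z‖ + (2 * ‖q z‖ * ‖dB φ z‖ ^ 2 - 2 * (conj (dZ φ z) * dB φ z * q z).re) / Jac φ z =
    ‖q z‖ * Jac φ z / Jac φ z +
      (2 * ‖q z‖ * ‖dB φ z‖ ^ 2 - 2 * (conj (dZ φ z) * dB φ z * q z).re) / Jac φ z from by
      rw [← h2]]
  rw [← add_div, ← sub_div, div_eq_zero_iff]
  left
  unfold Jac
  ring

theorem YQ_nonneg (q φ : ℂ → ℂ) (z : ℂ) (hJ : 0 < Jac φ z) : 0 ≤ YQ q φ z := by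
  unfold YQ
  apply div_nonneg _ hJ.le
  have h1 : (conj (dZ φ z) * dB φ z * q z).re ≤ ‖dZ φ z‖ * ‖dB φ z‖ * ‖q z‖ := by
    refine (Complex.re_le_norm _).trans ?_
    rw [norm_mul, norm_mul, Complex.norm_conj]
  nlinarith [mul_nonneg (norm_nonneg (q z)) (sq_nonneg (‖dZ φ z‖ - ‖dB φ z‖))]

theorem cont_fd {φ : ℂ → ℂ} (h : ContDiff ℝ 1 φ) (v : ℂ) :
    Continuous fun z => fderiv ℝ φ z v :=
  (h.continuous_fderiv one_ne_zero).clm_apply continuous_const

theorem cont_dZ {φ : ℂ → ℂ} (h : ContDiff ℝ 1 φ) : Continuous (dZ φ) := by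
  unfold dZ
  exact ((cont_fd h 1).sub (continuous_const.mul (cont_fd h I))).div_const 2

theorem cont_dB {φ : ℂ → ℂ} (h : ContDiff ℝ 1 φ) : Continuous (dB φ) := by
  unfold dB
  exact ((cont_fd h 1).add (continuous_const.mul (cont_fd h I))).div_const 2

theorem cont_Jac {φ : ℂ → ℂ} (h : ContDiff ℝ 1 φ) : Continuous (Jac φ) := by
  unfold Jac
  exact ((cont_dZ h).norm.pow 2).sub ((cont_dB h).norm.pow 2)

theorem XQ_eq (q φ : ℂ → ℂ) (z : ℂ) : XQ q φ z =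
    (2 * ‖dB φ z‖ ^ 2 / Jac φ z) * ‖q z‖ -
      ((2 * conj (dZ φ z) * dB φ z / (Jac φ z : ℂ)) * q z).re := by
  have h : ((2 * conj (dZ φ z) * dB φ z / (Jac φ z : ℂ)) * q z) =
      (((2 : ℝ) : ℂ) * (conj (dZ φ z) * dB φ z * q z)) / (Jac φ z : ℂ) := by
    rw [Complex.ofReal_ofNat]
    ring
  rw [h, Complex.div_ofReal_re, Complex.re_ofReal_mul]
  unfold XQ
  ring

theorem XQ_int {q φ : ℂ → ℂ} {W : Set ℂ} {z₀ : ℂ} {δ : ℝ} (hW : MeasurableSet W)
    (hWs : W ⊆ closedBall z₀ δ) (hq : IntegrableOn q W) (h : ContDiff ℝ 1 φ)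
    (hJ : ∀ z, 0 < Jac φ z) : IntegrableOn (XQ q φ) W := by
  have h1 : IntegrableOn (fun z => (2 * ‖dB φ z‖ ^ 2 / Jac φ z) * ‖q z‖) W := by
    apply IntegrableOn.continuousOn_mul_of_subset _ hq.norm (isCompact_closedBall z₀ δ) hW hWs
    apply Continuous.continuousOn
    exact (continuous_const.mul ((cont_dB h).norm.pow 2)).div (cont_Jac h) fun z => (hJ z).ne'
  have h2 : IntegrableOn (fun z => (2 * conj (dZ φ z) * dB φ z / (Jac φ z : ℂ)) * q z) W := by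
    apply IntegrableOn.continuousOn_mul_of_subset _ hq (isCompact_closedBall z₀ δ) hW hWs
    apply Continuous.continuousOn
    refine ((continuous_const.mul (Complex.continuous_conj.comp (cont_dZ h))).mul (cont_dB h)).div
      (Complex.continuous_ofReal.comp (cont_Jac h)) fun z => ?_
    exact Complex.ofReal_ne_zero.2 (hJ z).ne'
  have h3 : IntegrableOn (fun z => ((2 * conj (dZ φ z) * dB φ z / (Jac φ z : ℂ)) * q z).re) W :=
    h2.re
  have h4 := h1.sub h3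
  have h5 : XQ q φ = fun z => (2 * ‖dB φ z‖ ^ 2 / Jac φ z) * ‖q z‖ -
      ((2 * conj (dZ φ z) * dB φ z / (Jac φ z : ℂ)) * q z).re := funext fun z => XQ_eq q φ z
  rw [h5]
  exact h4

/-- off the closed ball the map is the identity -/
theorem YQ_off {q φ ψ : ℂ → ℂ} {z₀ : ℂ} {δ : ℝ} (hd : Dif φ ψ z₀ δ) {z : ℂ}
    (hz : z ∉ closedBall z₀ δ) : YQ q φ z = ‖q z‖ := by
  have h1 : φ =ᶠ[𝓝 z] id := by
    filter_upwards [isClosed_closedBall.isOpen_compl.mem_nhds hz] with w hw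
    exact hd.id w fun h => hw (ball_subset_closedBall h)
  have h2 : fderiv ℝ φ z = ContinuousLinearMap.id ℝ ℂ := by
    rw [h1.fderiv_eq, fderiv_id]
  have h3 : dZ φ z = 1 := by
    unfold dZ
    rw [h2]
    simp only [ContinuousLinearMap.coe_id', id_eq, Complex.I_mul_I]
    norm_num
  have h4 : dB φ z = 0 := by
    unfold dB
    rw [h2]
    simp only [ContinuousLinearMap.coe_id', id_eq, Complex.I_mul_I]
    norm_num
  unfold YQ Jac
  rw [h3, h4]
  simp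

/-- `‖g‖` is bounded below near `z₀` -/
theorem exists_r {f g : ℂ → ℂ} {Ω : Set ℂ} (hfg : Pair f g Ω) {z₀ : ℂ} {δ : ℝ}
    (h0 : (0 : ℂ) ∉ closedBall z₀ δ) : ∃ r > 0, ∀ z ∈ Ω ∩ ball z₀ δ, r ≤ ‖g z‖ := by
  have h1 : ContinuousAt f 0 := (hfg.an 0 (mem_ball_self one_pos)).continuousAt
  have h2 : ∀ᶠ w in 𝓝 (0 : ℂ), f w ∈ (closedBall z₀ δ)ᶜ := by
    apply h1.eventually
    rw [hfg.zero]
    exact isClosed_closedBall.isOpen_compl.mem_nhds h0
  obtain ⟨r, hr, hb⟩ := Metric.eventually_nhds_iff.1 h2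
  refine ⟨r, hr, fun z hz => ?_⟩
  by_contra hlt
  push Not at hlt
  have h3 := hb (y := g z) (by rwa [dist_zero_right])
  rw [hfg.FG z hz.1] at h3
  exact h3 (ball_subset_closedBall hz.2)

theorem psiF_mem {F G φ ψ : ℂ → ℂ} {Ω : Set ℂ} {z₀ : ℂ} {δ : ℝ} (hd : Dif φ ψ z₀ δ)
    (hFG : Pair F G (φ '' Ω)) {ζ : ℂ} (hζ : ζ ∈ ball (0 : ℂ) 1) : ψ (F ζ) ∈ Ω := by
  have h1 : F ζ ∈ φ '' Ω := by
    rw [← hFG.im]
    exact ⟨ζ, hζ, rfl⟩
  obtain ⟨z, hz, hz2⟩ := h1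
  rw [← hz2, hd.l]
  exact hz

theorem g_ne {f g F G φ ψ : ℂ → ℂ} {Ω : Set ℂ} {z₀ : ℂ} {δ : ℝ} (hfg : Pair f g Ω)
    (h0 : (0 : ℂ) ∉ closedBall z₀ δ) (hd : Dif φ ψ z₀ δ)
    (hFG : Pair F G (φ '' Ω)) {ζ : ℂ} (hζ : ζ ∈ ball (0 : ℂ) 1) (hne : ζ ≠ 0) :
    g (ψ (F ζ)) ≠ 0 := by
  intro h1
  have h2 := hfg.FG _ (psiF_mem hd hFG hζ)
  rw [h1, hfg.zero] at h2
  have h3 : φ 0 = 0 := hd.id 0 fun h => h0 (ball_subset_closedBall h)
  have h4 : F ζ = 0 := by
    rw [← hd.r (F ζ), ← h2, h3]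
  apply hne
  apply hFG.inj hζ (mem_ball_self one_pos)
  rw [h4, hFG.zero]

theorem u_diff {f g F G φ ψ : ℂ → ℂ} {Ω : Set ℂ} {z₀ : ℂ} {δ : ℝ} (hfg : Pair f g Ω)
    (h0 : (0 : ℂ) ∉ closedBall z₀ δ) (hd : Dif φ ψ z₀ δ) (hFG : Pair F G (φ '' Ω)) :
    ContDiffOn ℝ 1 (fun w => - Real.log ‖g (ψ (F w))‖) (ball 0 1 \ {0}) := by
  have hF : ContDiffOn ℝ 1 F (ball 0 1 \ {0}) :=
    ((hFG.an.contDiffOn isOpen_ball.uniqueDiffOn).restrict_scalars ℝ).mono sdiff_subset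
  have hψ : ContDiffOn ℝ 1 (fun w => ψ (F w)) (ball 0 1 \ {0}) := hd.sm'.comp_contDiffOn hF
  have hg : ContDiffOn ℝ 1 g Ω :=
    (hfg.gan.contDiffOn hfg.op.uniqueDiffOn).restrict_scalars ℝ
  have h1 : ContDiffOn ℝ 1 (fun w => g (ψ (F w))) (ball 0 1 \ {0}) :=
    hg.comp hψ fun w hw => psiF_mem hd hFG hw.1
  have h2 : ∀ w ∈ ball (0 : ℂ) 1 \ {0}, g (ψ (F w)) ≠ 0 := fun w hw =>
    g_ne hfg h0 hd hFG hw.1 hw.2
  exact ((h1.norm ℝ h2).log fun w hw => norm_ne_zero_iff.2 (h2 w hw)).neg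

theorem u_small {f g F G φ ψ : ℂ → ℂ} {Ω : Set ℂ} {z₀ : ℂ} {δ : ℝ} (hfg : Pair f g Ω)
    (hd : Dif φ ψ z₀ δ) (hFG : Pair F G (φ '' Ω)) (ε : ℝ) (hε : 0 < ε) :
    ∃ s < 1, ∀ ζ : ℂ, s < ‖ζ‖ → ‖ζ‖ < 1 → - Real.log ‖g (ψ (F ζ))‖ ≤ ε := by
  have he : Real.exp (-ε) < 1 := by
    rw [Real.exp_lt_one_iff]
    linarith
  -- the compact set
  have hK : IsCompact (closedBall (0 : ℂ) (Real.exp (-ε))) := isCompact_closedBall _ _
  have hsub : closedBall (0 : ℂ) (Real.exp (-ε)) ⊆ ball 0 1 := closedBall_subset_ball he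
  have hc : ContinuousOn (fun w => ‖G (φ (f w))‖) (closedBall (0 : ℂ) (Real.exp (-ε))) := by
    apply ContinuousOn.norm
    apply hFG.gan.continuousOn.comp
    · exact hd.sm.continuous.comp_continuousOn (hfg.an.continuousOn.mono hsub)
    · intro w hw
      refine ⟨f w, ?_, rfl⟩
      rw [← hfg.im]
      exact ⟨w, hsub hw, rfl⟩
  obtain ⟨w₀, hw₀, hmax⟩ := hK.exists_isMaxOn ⟨0, by
    rw [mem_closedBall, dist_self]
    exact (Real.exp_pos _).le⟩ hc
  refine ⟨‖G (φ (f w₀))‖, ?_, ?_⟩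
  · apply hFG.gm
    refine ⟨f w₀, ?_, rfl⟩
    rw [← hfg.im]
    exact ⟨w₀, hsub hw₀, rfl⟩
  · intro ζ h1 h2
    have hζ : ζ ∈ ball (0 : ℂ) 1 := by rwa [mem_ball_zero_iff]
    have hm := psiF_mem hd hFG hζ
    have h3 : Real.exp (-ε) < ‖g (ψ (F ζ))‖ := by
      by_contra hle
      push Not at hle
      have h4 : g (ψ (F ζ)) ∈ closedBall (0 : ℂ) (Real.exp (-ε)) := by
        rwa [mem_closedBall, dist_zero_right]
      have h5 := hmax h4
      have h6 : ‖G (φ (f (g (ψ (F ζ)))))‖ ≤ ‖G (φ (f w₀))‖ := h5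
      rw [hfg.FG _ hm, hd.r, hFG.GF ζ hζ] at h6
      linarith
    have h4 := Real.log_le_log (Real.exp_pos _) h3.le
    rw [Real.log_exp] at h4
    linarith

end VINM

open VINM in
theorem specVIN (hINQ : SpecINQ) (hFLU : SpecFLU) (hENE : SpecENE) (hCHV : SpecCHV)
    (hNEA : SpecNEA) : SpecVIN := by
  intro f g F G φ ψ Ω z₀ δ hfg hf1 h0 hd hFG ha1
  have ha : 0 < ‖deriv F 0‖ := norm_pos_iff.2 (hFG.dF 0 (mem_ball_self one_pos))
  set a : ℝ := ‖deriv F 0‖ with hadef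
  set W : Set ℂ := Ω ∩ ball z₀ δ with hWdef
  have hWm : MeasurableSet W := (hfg.op.inter isOpen_ball).measurableSet
  have hWs : W ⊆ closedBall z₀ δ := fun z hz => ball_subset_closedBall hz.2
  have hqI : IntegrableOn (qG g) W := hINQ f g Ω hfg z₀ δ h0
  have hXI : IntegrableOn (XQ (qG g) φ) W := XQ_int hWm hWs hqI hd.sm hd.jac
  have hYe : YQ (qG g) φ = fun z => ‖qG g z‖ + XQ (qG g) φ z :=
    funext fun z => YQ_eq _ _ _ (hd.jac z)
  have hYI : IntegrableOn (YQ (qG g) φ) W := by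
    rw [hYe]
    exact hqI.norm.add hXI
  set Iq : ℝ := ∫ z in W, ‖qG g z‖ with hIq
  set IX : ℝ := ∫ z in W, XQ (qG g) φ z with hIX
  have hIqnn : 0 ≤ Iq := integral_nonneg fun z => norm_nonneg _
  have hIY : ∫ z in W, YQ (qG g) φ z = Iq + IX := by
    rw [hYe]
    exact integral_add hqI.norm hXI
  have hIYnn : 0 ≤ Iq + IX := by
    rw [← hIY]
    exact integral_nonneg fun z => YQ_nonneg _ _ _ (hd.jac z)
  obtain ⟨r, hr, hrW⟩ := exists_r hfg h0
  obtain ⟨C, hC, t₀, ht₀, hN⟩ := hNEA f g F G φ ψ Ω z₀ δ hfg hf1 h0 hd hFG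
  by_contra hneg
  push Not at hneg
  -- the small parameter
  have hc1 : ContinuousAt (fun t : ℝ => 1 + C * t) 0 := by fun_prop
  have hc2 : ContinuousAt (fun t : ℝ => 1 + C * ((t / a) * (1 + C * t))) 0 := by fun_prop
  have hc3 : ContinuousAt (fun t : ℝ => Real.log (1 + C * t) +
      Real.log (1 + C * ((t / a) * (1 + C * t)))) 0 := by
    apply ContinuousAt.add
    · exact hc1.log (by simp)
    · exact hc2.log (by simp)
  have hc4 : ContinuousAt (fun t : ℝ => t * ((1 + C * t) * (1 + C * ((t / a) * (1 + C * t))))) 0 :=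
    continuousAt_id.mul (hc1.mul hc2)
  have he1 : ∀ᶠ t in 𝓝[>] (0 : ℝ), Real.log (1 + C * t) +
      Real.log (1 + C * ((t / a) * (1 + C * t))) < -IX / (4 * π) := by
    apply Filter.Eventually.filter_mono nhdsWithin_le_nhds
    apply hc3.eventually_lt continuousAt_const
    have hpi := Real.pi_pos
    simp only [mul_zero, add_zero, Real.log_one, zero_div, zero_mul]
    apply div_pos (by linarith) (by linarith)
  have he2 : ∀ᶠ t in 𝓝[>] (0 : ℝ),
      t * ((1 + C * t) * (1 + C * ((t / a) * (1 + C * t)))) < 1 := by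
    apply Filter.Eventually.filter_mono nhdsWithin_le_nhds
    apply hc4.eventually_lt continuousAt_const
    simp
  have he3 : ∀ᶠ t in 𝓝[>] (0 : ℝ), t < t₀ :=
    Filter.Eventually.filter_mono nhdsWithin_le_nhds (Iio_mem_nhds ht₀)
  have he4 : ∀ᶠ t in 𝓝[>] (0 : ℝ), t < r :=
    Filter.Eventually.filter_mono nhdsWithin_le_nhds (Iio_mem_nhds hr)
  have he5 : ∀ᶠ t in 𝓝[>] (0 : ℝ), t < 1 :=
    Filter.Eventually.filter_mono nhdsWithin_le_nhds (Iio_mem_nhds one_pos)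
  obtain ⟨t, ht1, ht2, ht3, ht4, ht5, htpos⟩ := (he1.and (he2.and (he3.and (he4.and (he5.and
    (self_mem_nhdsWithin : ∀ᶠ t in 𝓝[>] (0 : ℝ), t ∈ Ioi (0 : ℝ))))))).exists
  replace htpos : 0 < t := htpos
  obtain ⟨hr1, hN1, hN2⟩ := hN t htpos ht3
  set r₀ : ℝ := (t / a) * (1 + C * t) with hr₀
  have hCt : 0 < C * t := mul_pos hC htpos
  have hr₀pos : 0 < r₀ := mul_pos (div_pos htpos ha) (by linarith)
  have hCr : 0 < C * r₀ := mul_pos hC hr₀pos
  set L : ℝ := - Real.log t with hL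
  have hLpos : 0 < L := by
    have := Real.log_neg htpos ht5
    linarith
  have hexp : Real.exp (-L) = t := by
    rw [hL, neg_neg, Real.exp_log htpos]
  set e : ℝ := Real.log (1 + C * t) + Real.log (1 + C * r₀) with he
  have hloga : Real.log a ≤ 0 := Real.log_nonpos ha.le ha1
  have hlogC : 0 ≤ Real.log (1 + C * t) := Real.log_nonneg (by linarith)
  have hℓ : Real.log (1 / r₀) = L + Real.log a - Real.log (1 + C * t) := by
    rw [one_div, Real.log_inv, hr₀, Real.log_mul (div_pos htpos ha).ne' (by linarith),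
      Real.log_div htpos.ne' ha.ne', hL]
    ring
  have hℓpos : 0 < Real.log (1 / r₀) := by
    apply Real.log_pos
    rw [one_div]
    exact one_lt_inv_iff₀.2 ⟨hr₀pos, hr1⟩
  have hℓle : Real.log (1 / r₀) ≤ L := by
    rw [hℓ]
    linarith
  have hprod : Real.log (a * r₀ * (1 + C * r₀)) = e - L := by
    have h1 : a * r₀ * (1 + C * r₀) = t * ((1 + C * t) * (1 + C * r₀)) := by
      rw [hr₀]
      field_simp
    rw [h1, Real.log_mul htpos.ne' (by positivity), Real.log_mul (by positivity) (by positivity),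
      he, hL]
    ring
  have hm : 0 ≤ L - e := by
    have h1 : Real.log (a * r₀ * (1 + C * r₀)) ≤ 0 := by
      apply Real.log_nonpos (by positivity)
      have h2 : a * r₀ * (1 + C * r₀) = t * ((1 + C * t) * (1 + C * r₀)) := by
        rw [hr₀]
        field_simp
      rw [h2]
      exact ht2.le
    linarith
  -- the energy
  have hE := hENE (fun w => - Real.log ‖g (ψ (F w))‖) r₀ (L - e) hr₀pos hr1 hm
    (u_diff hfg h0 hd hFG) (by
      intro ζ hζ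
      have hζb : ζ ∈ ball (0 : ℂ) 1 := by
        rw [mem_ball_zero_iff, hζ]
        exact hr1
      have hζ0 : ζ ≠ 0 := by
        rw [← norm_pos_iff, hζ]
        exact hr₀pos
      have h1 := hN2 ζ hζ
      have h2 : 0 < ‖g (ψ (F ζ))‖ := norm_pos_iff.2 (g_ne hfg h0 hd hFG hζb hζ0)
      have h3 := Real.log_le_log h2 h1
      rw [hζ, hprod] at h3
      show L - e ≤ - Real.log ‖g (ψ (F ζ))‖
      linarith)
    (fun ε hε => u_small hfg hd hFG ε hε)
  have hV := hCHV f g F G φ ψ Ω z₀ δ r₀ L hfg h0 hd hFG hr₀pos hr1 (by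
    intro ζ h1 h2
    rw [hexp]
    exact hN1 ζ h1 h2)
  have hFl := hFLU f g Ω hfg L hLpos
  set A : Set ℂ := {z | z ∈ Ω ∧ Real.exp (-L) < ‖g z‖} with hA
  have hAm : MeasurableSet A := by
    have h1 : ContinuousOn (fun z => ‖g z‖) Ω := hfg.gan.continuousOn.norm
    have h2 := h1.isOpen_inter_preimage hfg.op (isOpen_Ioi (a := Real.exp (-L)))
    exact h2.measurableSet
  have hAW : A ∩ ball z₀ δ = W := by
    ext z
    constructor
    · rintro ⟨h1, h2⟩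
      exact ⟨h1.1, h2⟩
    · rintro hz
      refine ⟨⟨hz.1, ?_⟩, hz.2⟩
      rw [hexp]
      exact lt_of_lt_of_le ht4 (hrW z hz)
  have hBm : MeasurableSet (ball z₀ δ) := measurableSet_ball
  -- off the ball
  have hoff : ∫⁻ z in A \ ball z₀ δ, ENNReal.ofReal (YQ (qG g) φ z) =
      ∫⁻ z in A \ ball z₀ δ, ENNReal.ofReal ‖qG g z‖ := by
    apply setLIntegral_congr_fun_ae (hAm.diff hBm)
    have h1 : ∀ᵐ z : ℂ, z ∉ sphere z₀ δ := by
      rw [ae_iff]
      simp only [not_not]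
      exact Measure.addHaar_sphere volume z₀ δ
    filter_upwards [h1] with z hz hzA
    rw [YQ_off hd]
    intro h2
    rw [mem_closedBall] at h2
    rcases h2.lt_or_eq with h3 | h3
    · exact hzA.2 (mem_ball.2 h3)
    · exact hz (mem_sphere.2 h3)
  have hS1 := lintegral_inter_add_sdiff (μ := volume) (fun z => ENNReal.ofReal ‖qG g z‖) A hBm
  have hS2 := lintegral_inter_add_sdiff (μ := volume)
    (fun z => ENNReal.ofReal (YQ (qG g) φ z)) A hBm
  rw [hAW] at hS1 hS2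
  rw [hFl] at hS1
  rw [hoff] at hS2
  have hW1 : ∫⁻ z in W, ENNReal.ofReal ‖qG g z‖ = ENNReal.ofReal Iq :=
    (ofReal_integral_eq_lintegral_ofReal hqI.norm
      (Filter.Eventually.of_forall fun z => norm_nonneg _)).symm
  have hW2 : ∫⁻ z in W, ENNReal.ofReal (YQ (qG g) φ z) = ENNReal.ofReal (Iq + IX) := by
    rw [← hIY]
    exact (ofReal_integral_eq_lintegral_ofReal hYI
      (Filter.Eventually.of_forall fun z => YQ_nonneg _ _ _ (hd.jac z))).symm
  rw [hW1] at hS1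
  rw [hW2] at hS2
  have hpi := Real.pi_pos
  have h2pL : 0 ≤ 2 * π * L := by positivity
  -- the remaining part
  set R : ℝ≥0∞ := ∫⁻ z in A \ ball z₀ δ, ENNReal.ofReal ‖qG g z‖ with hR
  have hRtop : R ≠ ⊤ := by
    intro h1
    rw [h1, add_top] at hS1
    exact ENNReal.ofReal_ne_top hS1.symm
  have hRr : R = ENNReal.ofReal R.toReal := (ENNReal.ofReal_toReal hRtop).symm
  have hRnn : 0 ≤ R.toReal := ENNReal.toReal_nonneg
  have hReq : Iq + R.toReal = 2 * π * L := by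
    rw [hRr, ← ENNReal.ofReal_add hIqnn hRnn] at hS1
    have h1 := congrArg ENNReal.toReal hS1
    rwa [ENNReal.toReal_ofReal (by positivity), ENNReal.toReal_ofReal h2pL] at h1
  have hchain : ENNReal.ofReal (2 * π * (L - e) ^ 2 / Real.log (1 / r₀)) ≤
      ENNReal.ofReal (Iq + IX + R.toReal) := by
    rw [ENNReal.ofReal_add hIYnn hRnn, ← hRr, hS2]
    exact hE.trans hV
  rw [ENNReal.ofReal_le_ofReal_iff (by positivity)] at hchain
  have h1 : 2 * π * (L - e) ^ 2 / L ≤ 2 * π * (L - e) ^ 2 / Real.log (1 / r₀) :=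
    div_le_div_of_nonneg_left (by positivity) hℓpos hℓle
  have h2 : 2 * π * (L - e) ^ 2 / L ≤ 2 * π * L + IX := by linarith
  rw [div_le_iff₀ hLpos] at h2
  have h3 : 2 * π * (L - e) ^ 2 = 2 * π * L ^ 2 - 4 * π * L * e + 2 * π * e ^ 2 := by ring
  have h4 : 0 ≤ 2 * π * e ^ 2 := by positivity
  have h5 : -(4 * π * e) * L ≤ IX * L := by
    have h6 : (2 * π * L + IX) * L = 2 * π * L ^ 2 + IX * L := by ring
    rw [h3, h6] at h2
    linarith
  have h6 : -(4 * π * e) ≤ IX := le_of_mul_le_mul_right h5 hLpos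
  rw [lt_div_iff₀ (by positivity)] at ht1
  linarith

end

end Pool.Agent.Lib.MP250511.SB
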