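import Pool.Agent.Lib.MP_250511_an.SB.Spec

/-!
# WAA: contact points of hyperbolas
-/

set_option autoImplicit false

namespace Pool.Agent.Lib.MP250511.SB

open Complex Metric Set MeasureTheory Filter Topology
open scoped Real ENNReal ComplexConjugate ContDiff

namespace WAAM

lemma conj_mul_self_eq {e : ℂ} (he : ‖e‖ = 1) : conj e * e = 1 := by
  rw [mul_comm, Complex.mul_conj, Complex.normSq_eq_norm_sq, he]
  norm_num

/-- rays in the cone meet the ball -/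
lemma ray_ball {w₀ : ℂ} {δ₀ K : ℝ} (hw : w₀ ≠ 0) (hδ : 0 < δ₀) (hK : 4 * ‖w₀‖ / δ₀ < K) {e : ℂ}
    (he : ‖e‖ = 1) (hew : ‖e - w₀ / (‖w₀‖ : ℂ)‖ ≤ δ₀ / (4 * ‖w₀‖)) {z : ℂ}
    (hx : 0 < (z * conj e).re) (hy : K ^ 2 * (z * conj e).im ^ 2 ≤ (z * conj e).re ^ 2) :
    ∃ s : ℝ, 0 < s ∧ (s : ℂ) * z ∈ ball w₀ δ₀ := by
  have hW : 0 < ‖w₀‖ := norm_pos_iff.2 hw
  have hK0 : 0 < K := lt_of_le_of_lt (by positivity) hK
  obtain ⟨u, hu⟩ : ∃ u : ℂ, u = z * conj e := ⟨_, rfl⟩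
  rw [← hu] at hx hy
  have hz : z = u * e := by rw [hu, mul_assoc, conj_mul_self_eq he, mul_one]
  have hR0 : 0 < ‖u‖ := by
    rw [norm_pos_iff]
    intro h
    rw [h] at hx
    simp at hx
  have hxR : u.re ≤ ‖u‖ := Complex.re_le_norm u
  have hRxy : ‖u‖ ≤ u.re + |u.im| := by
    have := Complex.norm_le_abs_re_add_abs_im u
    rwa [abs_of_pos hx] at this
  have hKy : K * |u.im| ≤ u.re := by
    have h1 : (K * |u.im|) ^ 2 ≤ u.re ^ 2 := by
      rw [mul_pow, sq_abs]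
      exact hy
    exact (le_abs_self _).trans (abs_le_of_sq_le_sq h1 hx.le)
  refine ⟨‖w₀‖ / ‖u‖, div_pos hW hR0, ?_⟩
  rw [mem_ball, dist_eq_norm]
  have e1 : ((‖w₀‖ / ‖u‖ : ℝ) : ℂ) * z - w₀ =
      ((‖w₀‖ / ‖u‖ : ℝ) : ℂ) * ((u - (‖u‖ : ℂ)) * e) + (‖w₀‖ : ℂ) * (e - w₀ / (‖w₀‖ : ℂ)) := by
    have h1 : (‖u‖ : ℂ) ≠ 0 := by exact_mod_cast hR0.ne'
    have h2 : (‖w₀‖ : ℂ) ≠ 0 := by exact_mod_cast hW.ne'
    rw [hz]
    push_cast
    field_simp
    ring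
  have e2 : ‖u - (‖u‖ : ℂ)‖ ≤ 2 * |u.im| := by
    have h1 := Complex.norm_le_abs_re_add_abs_im (u - (‖u‖ : ℂ))
    rw [Complex.sub_re, Complex.sub_im, Complex.ofReal_re, Complex.ofReal_im, sub_zero,
      abs_of_nonpos (by linarith : u.re - ‖u‖ ≤ 0)] at h1
    linarith
  have e3 : ‖((‖w₀‖ / ‖u‖ : ℝ) : ℂ) * ((u - (‖u‖ : ℂ)) * e)‖ < δ₀ / 2 := by
    rw [norm_mul, Complex.norm_real, Real.norm_of_nonneg (div_pos hW hR0).le,
      norm_mul (u - (‖u‖ : ℂ)) e, he, mul_one]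
    have h1 : 4 * ‖w₀‖ < K * δ₀ := by
      rwa [div_lt_iff₀ hδ] at hK
    have h2 : K * |u.im| ≤ ‖u‖ := hKy.trans hxR
    calc ‖w₀‖ / ‖u‖ * ‖u - (‖u‖ : ℂ)‖ ≤ ‖w₀‖ / ‖u‖ * (2 * |u.im|) :=
          mul_le_mul_of_nonneg_left e2 (div_pos hW hR0).le
      _ = 2 * ‖w₀‖ * |u.im| / ‖u‖ := by ring
      _ < δ₀ / 2 := by
        rw [div_lt_iff₀ hR0]
        have h3 : 0 ≤ |u.im| := abs_nonneg _
        have h4 : 2 * ‖w₀‖ * |u.im| * K < δ₀ / 2 * ‖u‖ * K := by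
          calc 2 * ‖w₀‖ * |u.im| * K = 2 * ‖w₀‖ * (K * |u.im|) := by ring
            _ ≤ 2 * ‖w₀‖ * ‖u‖ := by gcongr
            _ < K * δ₀ / 2 * ‖u‖ := by
              apply mul_lt_mul_of_pos_right _ hR0
              linarith
            _ = δ₀ / 2 * ‖u‖ * K := by ring
        exact lt_of_mul_lt_mul_right h4 hK0.le
  have e4 : ‖(‖w₀‖ : ℂ) * (e - w₀ / (‖w₀‖ : ℂ))‖ ≤ δ₀ / 4 := by
    rw [norm_mul, Complex.norm_real, norm_norm]
    calc ‖w₀‖ * ‖e - w₀ / (‖w₀‖ : ℂ)‖ ≤ ‖w₀‖ * (δ₀ / (4 * ‖w₀‖)) :=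
          mul_le_mul_of_nonneg_left hew hW.le
      _ = δ₀ / 4 := by
        field_simp
  rw [e1]
  have := norm_add_le (((‖w₀‖ / ‖u‖ : ℝ) : ℂ) * ((u - (‖u‖ : ℂ)) * e))
    ((‖w₀‖ : ℂ) * (e - w₀ / (‖w₀‖ : ℂ)))
  linarith

/-- the front point of a ray -/
lemma exists_front {Ω : Set ℂ} (hΩ : IsOpen Ω) (h0 : (0 : ℂ) ∈ Ω) {z : ℂ} {s : ℝ} (hs : 0 ≤ s)
    (hz : (s : ℂ) * z ∉ Ω) : ∃ t : ℝ, 0 < t ∧ t ≤ s ∧ Front Ω ((t : ℂ) * z) := by
  let A : Set ℝ := {t | 0 ≤ t ∧ t ≤ s ∧ (t : ℂ) * z ∉ Ω}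
  have hA1 : IsClosed A := by
    have h1 : IsClosed {t : ℝ | (t : ℂ) * z ∉ Ω} := by
      have hc : Continuous fun t : ℝ => (t : ℂ) * z := Complex.continuous_ofReal.mul continuous_const
      exact hΩ.isClosed_compl.preimage hc
    exact (isClosed_le continuous_const continuous_id).inter
      ((isClosed_le continuous_id continuous_const).inter h1)
  have hA2 : A.Nonempty := ⟨s, hs, le_rfl, hz⟩
  have hA3 : BddBelow A := ⟨0, fun t ht => ht.1⟩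
  have hmem : sInf A ∈ A := hA1.csInf_mem hA2 hA3
  have hpos : 0 < sInf A := by
    rcases hmem.1.lt_or_eq with h | h
    · exact h
    · exfalso
      apply hmem.2.2
      rw [← h, Complex.ofReal_zero, zero_mul]
      exact h0
  refine ⟨sInf A, hpos, hmem.2.1, hmem.2.2, ?_⟩
  intro r hr0 hr1
  by_contra hcon
  have h1 : r * sInf A ∈ A := by
    refine ⟨mul_nonneg hr0 hpos.le, ?_, ?_⟩
    · have : r * sInf A ≤ 1 * sInf A := mul_le_mul_of_nonneg_right hr1.le hpos.le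
      linarith [hmem.2.1]
    · rw [Complex.ofReal_mul, mul_assoc]
      exact hcon
  have h2 : sInf A ≤ r * sInf A := csInf_le hA3 h1
  have h3 : r * sInf A < 1 * sInf A := mul_lt_mul_of_pos_right hr1 hpos
  linarith

lemma Phi_smul (B : ℝ) (e z : ℂ) (t : ℝ) : Phi B e ((t : ℂ) * z) = t ^ 2 * Phi B e z := by
  unfold Phi
  rw [mul_assoc, Complex.re_ofReal_mul, Complex.im_ofReal_mul]
  ring

lemma re_smul (e z : ℂ) (t : ℝ) : (((t : ℂ) * z) * conj e).re = t * (z * conj e).re := by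
  rw [mul_assoc, Complex.re_ofReal_mul]

end WAAM

open WAAM in
theorem specWAA (hFRO : SpecFRO) (hKCL : SpecKCL) : SpecWAA := by
  intro f g Ω ρ hE w₀ δ₀ hδ hball
  have hΩ : IsOpen Ω := hE.op
  have h0 : (0 : ℂ) ∈ Ω := by
    rw [← hE.im]
    exact ⟨0, mem_ball_self one_pos, hE.zero⟩
  obtain ⟨c₀, hc0, hcΩ⟩ := Metric.isOpen_iff.1 hΩ 0 h0
  have hw₀ : w₀ ∉ Ω := hball (mem_ball_self hδ)
  have hwne : w₀ ≠ 0 := fun h => hw₀ (h ▸ h0)
  have hW : 0 < ‖w₀‖ := norm_pos_iff.2 hwne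
  have hout : ∀ p, p ∉ Ω → c₀ ≤ ‖p‖ := by
    intro p hp
    by_contra h
    exact hp (hcΩ (by rw [mem_ball, dist_zero_right]; exact not_le.1 h))
  have hKc : IsClosed (KK Ω ρ) := (hKCL Ω ρ hE.pos hΩ).1
  let K : ℝ := 4 * ‖w₀‖ / δ₀ + 2
  have hKp : 4 * ‖w₀‖ / δ₀ < K := by
    show _ < _ + 2
    linarith
  have hK2 : 1 < K := by
    have : 0 < 4 * ‖w₀‖ / δ₀ := by positivity
    show 1 < _ + 2
    linarith
  refine ⟨K ^ 2, δ₀ / (4 * ‖w₀‖), c₀, ‖w₀‖ + δ₀, by nlinarith, by positivity, hc0,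
    (hout w₀ hw₀).trans (by linarith), ?_⟩
  intro e he hew
  -- the front points in the cone
  let F : Set ℂ := {p | Front Ω p ∧ 0 < (p * conj e).re ∧ 0 < Phi (K ^ 2) e p}
  have hcone : ∀ z : ℂ, 0 < (z * conj e).re → 0 < Phi (K ^ 2) e z →
      ∃ s : ℝ, 0 < s ∧ (s : ℂ) * z ∈ ball w₀ δ₀ := by
    intro z hx hP
    refine ray_ball hwne hδ hKp he hew hx ?_
    unfold Phi at hP
    linarith
  have hFM : ∀ p ∈ F, ‖p‖ ≤ ‖w₀‖ + δ₀ := by
    rintro p ⟨hp1, hp2, hp3⟩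
    obtain ⟨s, hs, hsp⟩ := hcone p hp2 hp3
    have h1 : 1 ≤ s := by
      by_contra h
      exact hball hsp (hp1.2 s hs.le (not_le.1 h))
    rw [mem_ball, dist_eq_norm] at hsp
    have h2 : ‖(s : ℂ) * p‖ ≤ ‖(s : ℂ) * p - w₀‖ + ‖w₀‖ := by
      have := norm_add_le ((s : ℂ) * p - w₀) w₀
      rwa [sub_add_cancel] at this
    rw [norm_mul, Complex.norm_real, Real.norm_of_nonneg hs.le] at h2
    have h3 : 1 * ‖p‖ ≤ s * ‖p‖ := mul_le_mul_of_nonneg_right h1 (norm_nonneg _)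
    linarith
  have hFb : F ⊆ closedBall (0 : ℂ) (‖w₀‖ + δ₀) := fun p hp => by
    rw [mem_closedBall, dist_zero_right]
    exact hFM p hp
  have hFc : IsCompact (closure F) :=
    (isCompact_closedBall (0 : ℂ) (‖w₀‖ + δ₀)).of_isClosed_subset isClosed_closure
      (closure_minimal hFb isClosed_closedBall)
  -- the front point on the ray of `e`
  have hee : (e * conj e) = 1 := by rw [mul_comm]; exact conj_mul_self_eq he
  have hPe : Phi (K ^ 2) e e = 1 := by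
    unfold Phi
    rw [hee, Complex.one_re, Complex.one_im]
    ring
  have hxe : (e * conj e).re = 1 := by rw [hee, Complex.one_re]
  obtain ⟨s, hs, hse⟩ := hcone e (by rw [hxe]; exact one_pos) (by rw [hPe]; exact one_pos)
  obtain ⟨t, ht, -, hfe⟩ := exists_front hΩ h0 hs.le (hball hse)
  have htc : c₀ ≤ t := by
    have := hout _ hfe.1
    rwa [norm_mul, he, mul_one, Complex.norm_real, Real.norm_of_nonneg ht.le] at this
  have hpe : (t : ℂ) * e ∈ F := by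
    refine ⟨hfe, ?_, ?_⟩
    · rw [re_smul, hxe, mul_one]
      exact ht
    · rw [Phi_smul, hPe, mul_one]
      positivity
  have hcont : Continuous fun z : ℂ => Phi (K ^ 2) e z := by
    unfold Phi
    have h1 : Continuous fun z : ℂ => z * conj e := continuous_id.mul continuous_const
    exact ((Complex.continuous_re.comp h1).pow 2).sub
      (continuous_const.mul ((Complex.continuous_im.comp h1).pow 2))
  obtain ⟨ζ, hζ, hmax⟩ := hFc.exists_isMaxOn ⟨_, subset_closure hpe⟩ hcont.continuousOn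
  have hm : c₀ ^ 2 ≤ Phi (K ^ 2) e ζ := by
    have h1 : Phi (K ^ 2) e ((t : ℂ) * e) ≤ Phi (K ^ 2) e ζ := hmax (subset_closure hpe)
    rw [Phi_smul, hPe, mul_one] at h1
    exact (pow_le_pow_left₀ hc0.le htc 2).trans h1
  have hFK : F ⊆ KK Ω ρ := fun p hp => hFRO f g Ω ρ hE p hp.1
  have hζK : ζ ∈ KK Ω ρ := closure_minimal hFK hKc hζ
  have hζM : ‖ζ‖ ≤ ‖w₀‖ + δ₀ := by
    have := closure_minimal hFb isClosed_closedBall hζ
    rwa [mem_closedBall, dist_zero_right] at this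
  have hζx : 0 ≤ (ζ * conj e).re := by
    have hcl : IsClosed {p : ℂ | 0 ≤ (p * conj e).re} :=
      isClosed_le continuous_const
        (Complex.continuous_re.comp (continuous_id.mul continuous_const))
    exact closure_minimal (fun p hp => hp.2.1.le) hcl hζ
  refine ⟨ζ, Phi (K ^ 2) e ζ, hζK, hout ζ hζK.1, hζM, hm, rfl, ?_, ?_⟩
  · have h1 : c₀ ^ 2 ≤ (ζ * conj e).re ^ 2 := by
      refine hm.trans ?_
      unfold Phi
      have : 0 ≤ K ^ 2 * (ζ * conj e).im ^ 2 := by positivity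
      linarith
    exact (le_abs_self _).trans (abs_le_of_sq_le_sq h1 hζx)
  · intro z hzx hzm hzΩ
    have hc2 : 0 < c₀ ^ 2 := by positivity
    have hPz : 0 < Phi (K ^ 2) e z := by linarith
    obtain ⟨s', hs', hsz⟩ := hcone z hzx hPz
    obtain ⟨t', ht', -, hfz⟩ := exists_front hΩ h0 hs'.le (hball hsz)
    have ht1 : 1 < t' := by
      by_contra h
      exact hfz.1 (star_mul hE.star hzΩ ht'.le (not_lt.1 h))
    have hzF : (t' : ℂ) * z ∈ F := by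
      refine ⟨hfz, ?_, ?_⟩
      · rw [re_smul]
        exact mul_pos ht' hzx
      · rw [Phi_smul]
        positivity
    have h2 : Phi (K ^ 2) e ((t' : ℂ) * z) ≤ Phi (K ^ 2) e ζ := hmax (subset_closure hzF)
    rw [Phi_smul] at h2
    have h3 : 1 * Phi (K ^ 2) e z < t' ^ 2 * Phi (K ^ 2) e z := by
      apply mul_lt_mul_of_pos_right _ hPz
      nlinarith
    linarith

end Pool.Agent.Lib.MP250511.SB
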