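import Pool.Agent.Lib.MP_250511_an.SB.Spec

/-!
# MP_250511_an, SB, module WAB: from a contact point to a wall
-/

set_option autoImplicit false

namespace Pool.Agent.Lib.MP250511.SB

open Complex Metric Set MeasureTheory Filter Topology
open scoped Real ENNReal ComplexConjugate ContDiff

noncomputable section

namespace WABM

/-- the real form of the first step -/
theorem step {ρ B x y s t m : ℝ} (hρ : 0 < ρ) (hx : 0 < x)
    (hm : x ^ 2 - B * y ^ 2 = m)
    (H : ∀ α β : ℝ, (ρ + α) ^ 2 + β ^ 2 < ρ ^ 2 → 0 < x + (α * s - β * t) →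
      (x + (α * s - β * t)) ^ 2 - B * (y + (α * t + β * s)) ^ 2 < m) (α β : ℝ) (hα : α < 0) :
    2 * (x * s - B * y * t) * α + -2 * (x * t + B * y * s) * β ≤ 0 := by
  by_contra hc
  push Not at hc
  set D := 2 * (x * s - B * y * t) * α + -2 * (x * t + B * y * s) * β with hD
  set Q := (α * s - β * t) ^ 2 - B * (α * t + β * s) ^ 2 with hQ
  have e1 : ∀ᶠ r in 𝓝 (0 : ℝ), 2 * ρ * α + r * (α ^ 2 + β ^ 2) < 0 := by
    have h : Tendsto (fun r : ℝ => 2 * ρ * α + r * (α ^ 2 + β ^ 2)) (𝓝 0)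
        (𝓝 (2 * ρ * α + 0 * (α ^ 2 + β ^ 2))) := Continuous.tendsto (by fun_prop) 0
    refine h.eventually_lt_const ?_
    nlinarith [mul_pos hρ (neg_pos.2 hα)]
  have e2 : ∀ᶠ r in 𝓝 (0 : ℝ), 0 < x + r * (α * s - β * t) := by
    have h : Tendsto (fun r : ℝ => x + r * (α * s - β * t)) (𝓝 0)
        (𝓝 (x + 0 * (α * s - β * t))) := Continuous.tendsto (by fun_prop) 0
    refine h.eventually_const_lt ?_
    linarith
  have e3 : ∀ᶠ r in 𝓝 (0 : ℝ), 0 < D + r * Q := by
    have h : Tendsto (fun r : ℝ => D + r * Q) (𝓝 0) (𝓝 (D + 0 * Q)) :=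
      Continuous.tendsto (by fun_prop) 0
    refine h.eventually_const_lt ?_
    linarith
  have e4 : ∀ᶠ r in 𝓝[>] (0 : ℝ), (2 * ρ * α + r * (α ^ 2 + β ^ 2) < 0 ∧
      0 < x + r * (α * s - β * t) ∧ 0 < D + r * Q) ∧ 0 < r :=
    ((e1.and (e2.and e3)).filter_mono nhdsWithin_le_nhds).and self_mem_nhdsWithin
  obtain ⟨r, ⟨f1, f2, f3⟩, r0⟩ := e4.exists
  have g1 : (ρ + r * α) ^ 2 + (r * β) ^ 2 < ρ ^ 2 := by
    have := mul_neg_of_pos_of_neg r0 f1
    nlinarith
  have g2 : 0 < x + (r * α * s - r * β * t) := by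
    have : x + (r * α * s - r * β * t) = x + r * (α * s - β * t) := by ring
    rw [this]
    exact f2
  have g3 := H (r * α) (r * β) g1 g2
  have g4 : (x + (r * α * s - r * β * t)) ^ 2 - B * (y + (r * α * t + r * β * s)) ^ 2 =
      m + r * (D + r * Q) := by
    rw [hD, hQ, ← hm]
    ring
  rw [g4] at g3
  have := mul_pos r0 f3
  linarith

end WABM

open WABM in
theorem specWAB : SpecWAB := by
  intro ρ B c₀ M hρ hB hc hcM
  have hM : 0 < M := hc.trans_le hcM
  have hB0 : 0 < B := by linarith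
  refine ⟨c₀ ^ 2 / (B * M), by positivity, B * M / c₀ ^ 2, by positivity,
    min (c₀ ^ 2 / (B * M)) (c₀ / 4), by positivity, ?_⟩
  intro Ω e ζ c m he hsub hdist hout h1 h2 hm hPhi hx hcont
  have hρc : (ρ : ℂ) ≠ 0 := Complex.ofReal_ne_zero.2 hρ.ne'
  obtain ⟨n, hn⟩ : ∃ n : ℂ, n = (ζ - c) / (ρ : ℂ) := ⟨_, rfl⟩
  have hζc : ζ - c = (ρ : ℂ) * n := by
    rw [hn, mul_div_cancel₀ _ hρc]
  have hn1 : ‖n‖ = 1 := by
    rw [hn, norm_div, Complex.norm_real, Real.norm_of_nonneg hρ.le, ← dist_eq_norm, hdist,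
      div_self hρ.ne']
  have nsq : ∀ z : ℂ, (z * conj e).re ^ 2 + (z * conj e).im ^ 2 = ‖z‖ ^ 2 := by
    intro z
    have : ‖z * conj e‖ = ‖z‖ := by rw [norm_mul, Complex.norm_conj, he, mul_one]
    rw [← this, ← Complex.normSq_eq_norm_sq, Complex.normSq_apply]
    ring
  obtain ⟨x, hxd⟩ : ∃ x : ℝ, x = (ζ * conj e).re := ⟨_, rfl⟩
  obtain ⟨y, hyd⟩ : ∃ y : ℝ, y = (ζ * conj e).im := ⟨_, rfl⟩
  obtain ⟨s, hsd⟩ : ∃ s : ℝ, s = (n * conj e).re := ⟨_, rfl⟩
  obtain ⟨t, htd⟩ : ∃ t : ℝ, t = (n * conj e).im := ⟨_, rfl⟩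
  have hst : s ^ 2 + t ^ 2 = 1 := by rw [hsd, htd, nsq, hn1]; norm_num
  have hxy : x ^ 2 + y ^ 2 = ‖ζ‖ ^ 2 := by rw [hxd, hyd, nsq]
  have hxc : c₀ ≤ x := by rw [hxd]; exact hx
  have hx0 : 0 < x := hc.trans_le hxc
  have hmxy : x ^ 2 - B * y ^ 2 = m := by
    rw [← hPhi, hxd, hyd]
    rfl
  have hmv : ∀ α β : ℝ, ((ζ + ((α : ℂ) + (β : ℂ) * I) * n) * conj e).re = x + (α * s - β * t) ∧
      ((ζ + ((α : ℂ) + (β : ℂ) * I) * n) * conj e).im = y + (α * t + β * s) := by
    intro α β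
    have e1 : (ζ + ((α : ℂ) + (β : ℂ) * I) * n) * conj e =
        ζ * conj e + ((α : ℂ) + (β : ℂ) * I) * (n * conj e) := by ring
    rw [e1, hxd, hyd, hsd, htd]
    constructor
    · rw [Complex.add_re, Complex.mul_re ((α : ℂ) + (β : ℂ) * I)]
      simp
    · rw [Complex.add_im, Complex.mul_im ((α : ℂ) + (β : ℂ) * I)]
      simp
  have hball : ∀ α β : ℝ, (ρ + α) ^ 2 + β ^ 2 < ρ ^ 2 → ζ + ((α : ℂ) + (β : ℂ) * I) * n ∈ Ω := by
    intro α β h
    apply hsub
    rw [mem_ball, dist_eq_norm]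
    have e1 : ζ + ((α : ℂ) + (β : ℂ) * I) * n - c = (((ρ + α : ℝ) : ℂ) + ((β : ℝ) : ℂ) * I) * n := by
      calc ζ + ((α : ℂ) + (β : ℂ) * I) * n - c = (ζ - c) + ((α : ℂ) + (β : ℂ) * I) * n := by ring
        _ = (((ρ + α : ℝ) : ℂ) + ((β : ℝ) : ℂ) * I) * n := by
            rw [hζc]
            push_cast
            ring
    rw [e1, norm_mul, hn1, mul_one]
    refine lt_of_pow_lt_pow_left₀ 2 hρ.le ?_
    rw [← Complex.normSq_eq_norm_sq, Complex.normSq_add_mul_I]
    exact h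
  have hstep := step (ρ := ρ) (B := B) (x := x) (y := y) (s := s) (t := t) (m := m) hρ hx0 hmxy
    (by
      intro α β g1 g2
      by_contra hcc
      push Not at hcc
      refine hcont (ζ + ((α : ℂ) + (β : ℂ) * I) * n) ?_ ?_ (hball α β g1)
      · rw [(hmv α β).1]
        exact g2
      · unfold Phi
        rw [(hmv α β).1, (hmv α β).2]
        exact hcc)
  obtain ⟨p, hp⟩ : ∃ p : ℝ, p = 2 * (x * s - B * y * t) := ⟨_, rfl⟩
  obtain ⟨q, hq⟩ : ∃ q : ℝ, q = -2 * (x * t + B * y * s) := ⟨_, rfl⟩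
  rw [← hp, ← hq] at hstep
  have hp0 : 0 ≤ p := by
    have := hstep (-1) 0 (by norm_num)
    linarith
  have hq0 : q = 0 := by
    by_contra hq0
    have := hstep (-1) ((p + 1) / q) (by norm_num)
    rw [mul_div_cancel₀ _ hq0] at this
    linarith
  have c1 : 2 * x = p * s := by
    have : 2 * x = p * s - q * t := by
      rw [hp, hq]
      linear_combination (-2 * x) * hst
    rw [this, hq0]
    ring
  have c2 : -2 * B * y = p * t := by
    have : -2 * B * y = p * t + q * s := by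
      rw [hp, hq]
      linear_combination (2 * B * y) * hst
    rw [this, hq0]
    ring
  have c3 : p * (s * x + t * y) = 2 * m := by
    rw [← hmxy]
    linear_combination (-x) * c1 + (-y) * c2
  have hm0 : 0 < m := lt_of_lt_of_le (by positivity) hm
  have hp1 : 0 < p := by
    rcases hp0.lt_or_eq with h | h
    · exact h
    · rw [← h] at c3
      linarith
  have hζ2 : x ^ 2 + y ^ 2 ≤ M ^ 2 := by
    rw [hxy]
    exact pow_le_pow_left₀ (norm_nonneg _) h2 2
  have hp2 : p ^ 2 = 4 * (x ^ 2 + B ^ 2 * y ^ 2) := by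
    have : p ^ 2 = (p * s) ^ 2 + (p * t) ^ 2 := by
      linear_combination (-(p ^ 2)) * hst
    rw [this, ← c1, ← c2]
    ring
  have hpM : p ≤ 2 * B * M := by
    refine le_of_sq_le_sq ?_ (by positivity)
    rw [hp2]
    nlinarith [sq_nonneg x, sq_nonneg y, mul_nonneg (sq_nonneg B) (sub_nonneg.2 hζ2),
      mul_nonneg (by nlinarith : (0 : ℝ) ≤ B ^ 2 - 1) (sq_nonneg x)]
  have hsx : s * x + t * y ≤ M := by
    refine le_of_sq_le_sq ?_ hM.le
    nlinarith [sq_nonneg (s * y - t * x)]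
  have hsx0 : 0 < s * x + t * y := by
    by_contra h
    push Not at h
    nlinarith
  have hpl : 2 * c₀ ^ 2 / M ≤ p := by
    rw [div_le_iff₀ hM]
    nlinarith
  have hκ : c₀ ^ 2 / (B * M) ≤ s * x + t * y := by
    rw [div_le_iff₀ (by positivity)]
    nlinarith
  -- the gradient
  have hν : ((1 - B : ℝ) : ℂ) * ζ + ((1 + B : ℝ) : ℂ) * conj ζ * e ^ 2 = (p : ℂ) * n := by
    have hee : conj e * e = 1 := by
      rw [mul_comm, Complex.mul_conj, Complex.normSq_eq_norm_sq, he]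
      norm_num
    have ez : ζ = (ζ * conj e) * e := by rw [mul_assoc, hee, mul_one]
    have en : n = (n * conj e) * e := by rw [mul_assoc, hee, mul_one]
    have ezc : conj ζ * e ^ 2 = conj (ζ * conj e) * e := by
      rw [map_mul, Complex.conj_conj]
      ring
    have ez' : ζ * conj e = (x : ℂ) + (y : ℂ) * I := by
      rw [hxd, hyd]
      exact (Complex.re_add_im _).symm
    have en' : n * conj e = (s : ℂ) + (t : ℂ) * I := by
      rw [hsd, htd]
      exact (Complex.re_add_im _).symm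
    have ezc' : conj (ζ * conj e) = (x : ℂ) - (y : ℂ) * I := by
      rw [ez', map_add, map_mul, Complex.conj_ofReal, Complex.conj_ofReal, Complex.conj_I]
      ring
    have k1 : (2 : ℂ) * (x : ℂ) = (p : ℂ) * (s : ℂ) := by exact_mod_cast c1
    have k2 : (-2 : ℂ) * (B : ℂ) * (y : ℂ) = (p : ℂ) * (t : ℂ) := by exact_mod_cast c2
    calc ((1 - B : ℝ) : ℂ) * ζ + ((1 + B : ℝ) : ℂ) * conj ζ * e ^ 2
        = ((1 - B : ℝ) : ℂ) * ((ζ * conj e) * e) + ((1 + B : ℝ) : ℂ) * (conj ζ * e ^ 2) := by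
          rw [← ez]
          ring
      _ = (((1 - B : ℝ) : ℂ) * ((x : ℂ) + (y : ℂ) * I) +
          ((1 + B : ℝ) : ℂ) * ((x : ℂ) - (y : ℂ) * I)) * e := by
          rw [ezc, ezc', ez']
          ring
      _ = (2 * (x : ℂ) + (-2 : ℂ) * (B : ℂ) * (y : ℂ) * I) * e := by
          push_cast
          ring
      _ = (p : ℂ) * ((n * conj e) * e) := by
          rw [k1, k2, en']
          ring
      _ = (p : ℂ) * n := by rw [← en]
  have hνn : ‖((1 - B : ℝ) : ℂ) * ζ + ((1 + B : ℝ) : ℂ) * conj ζ * e ^ 2‖ = p := by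
    rw [hν, norm_mul, hn1, mul_one, Complex.norm_real, Real.norm_of_nonneg hp0]
  refine ⟨?_, ?_, ?_⟩
  · rw [hνn, hν, hn]
  · rw [← norm_pos_iff, hνn]
    exact hp1
  · refine ⟨hsub, hdist, hout, h2, ?_, ?_⟩
    · have hee : conj e * e = 1 := by
        rw [mul_comm, Complex.mul_conj, Complex.normSq_eq_norm_sq, he]
        norm_num
      have e1 : (conj (ζ - c) * ζ).re / ρ = s * x + t * y := by
        have e2 : conj (ζ - c) * ζ = (ρ : ℂ) * (conj (n * conj e) * (ζ * conj e)) := by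
          rw [hζc, map_mul, map_mul, Complex.conj_ofReal, Complex.conj_conj]
          linear_combination (-((ρ : ℂ) * conj n * ζ)) * hee
        rw [e2, Complex.re_ofReal_mul, mul_comm, mul_div_cancel_right₀ _ hρ.ne',
          Complex.mul_re, Complex.conj_re, Complex.conj_im, hsd, hxd, htd, hyd]
        ring
      rw [e1]
      exact hκ
    · intro α β hα hβ hL
      rw [← hn]
      have hδ1 : |α| ≤ c₀ ^ 2 / (B * M) := hα.trans (min_le_left _ _)
      have hδ2 : |α| ≤ c₀ / 4 := hα.trans (min_le_right _ _)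
      have hδ3 : |β| ≤ c₀ / 4 := hβ.trans (min_le_right _ _)
      have hα0 : 0 ≤ α := le_trans (by positivity) hL
      have hB2 : B * β ^ 2 ≤ c₀ ^ 2 / M * α := by
        have e1 : B * β ^ 2 = c₀ ^ 2 / M * (B * M / c₀ ^ 2 * β ^ 2) := by
          field_simp
        rw [e1]
        exact mul_le_mul_of_nonneg_left hL (by positivity)
      have hA2 : B * α ^ 2 ≤ c₀ ^ 2 / M * α := by
        rw [abs_of_nonneg hα0] at hδ1
        have e1 : c₀ ^ 2 / M * α = B * (c₀ ^ 2 / (B * M)) * α := by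
          field_simp
        rw [e1, pow_two, ← mul_assoc]
        exact mul_le_mul_of_nonneg_right (mul_le_mul_of_nonneg_left hδ1 hB0.le) hα0
      have hpα : 2 * (c₀ ^ 2 / M) * α ≤ p * α := by
        refine mul_le_mul_of_nonneg_right ?_ hα0
        rw [← mul_div_assoc]
        exact hpl
      refine hcont _ ?_ ?_
      · rw [(hmv α β).1]
        have hs1 : |s| ≤ 1 := by
          rw [abs_le]
          constructor <;> nlinarith [sq_nonneg t]
        have ht1 : |t| ≤ 1 := by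
          rw [abs_le]
          constructor <;> nlinarith [sq_nonneg s]
        have a1 : |α * s| ≤ c₀ / 4 := by
          rw [abs_mul]
          calc |α| * |s| ≤ |α| * 1 := mul_le_mul_of_nonneg_left hs1 (abs_nonneg _)
            _ ≤ c₀ / 4 := by rw [mul_one]; exact hδ2
        have a2 : |β * t| ≤ c₀ / 4 := by
          rw [abs_mul]
          calc |β| * |t| ≤ |β| * 1 := mul_le_mul_of_nonneg_left ht1 (abs_nonneg _)
            _ ≤ c₀ / 4 := by rw [mul_one]; exact hδ3
        have a3 := (abs_le.1 a1).1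
        have a4 := (abs_le.1 a2).2
        linarith
      · unfold Phi
        rw [(hmv α β).1, (hmv α β).2]
        have e1 : (x + (α * s - β * t)) ^ 2 - B * (y + (α * t + β * s)) ^ 2 =
            m + p * α + q * β + ((α * s - β * t) ^ 2 - B * (α * t + β * s) ^ 2) := by
          rw [hp, hq, ← hmxy]
          ring
        have e2 : (α * t + β * s) ^ 2 ≤ α ^ 2 + β ^ 2 := by
          have : α ^ 2 + β ^ 2 = (α * t + β * s) ^ 2 + (α * s - β * t) ^ 2 := by
            linear_combination (-(α ^ 2 + β ^ 2)) * hst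
          rw [this]
          nlinarith [sq_nonneg (α * s - β * t)]
        have e3 : B * (α * t + β * s) ^ 2 ≤ B * α ^ 2 + B * β ^ 2 := by
          rw [← mul_add]
          exact mul_le_mul_of_nonneg_left e2 hB0.le
        rw [e1, hq0]
        nlinarith [sq_nonneg (α * s - β * t)]

end

end Pool.Agent.Lib.MP250511.SB
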