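import Pool.Agent.Lib.MP_250511_an.SB.Spec

/-!
# MP_250511_an, SB, module WAL: infinitely many uniform wall points
-/

set_option autoImplicit false

namespace Pool.Agent.Lib.MP250511.SB

open Complex Metric Set MeasureTheory Filter Topology
open scoped Real ENNReal ComplexConjugate ContDiff

namespace WALM

lemma quad {A b n e : ℂ} (hn : ‖n‖ = 1) (he : ‖e‖ = 1) {a : ℝ}
    (h1 : A + b * e ^ 2 = (a : ℂ) * n) :
    a ^ 2 - 2 * a * (n * conj A).re + ‖A‖ ^ 2 = ‖b‖ ^ 2 := by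
  have h2 : b * e ^ 2 = (a : ℂ) * n - A := by linear_combination h1
  have h3 : normSq (b * e ^ 2) = normSq ((a : ℂ) * n - A) := by rw [h2]
  rw [Complex.normSq_sub, Complex.normSq_mul, Complex.normSq_mul, map_pow,
    Complex.normSq_eq_norm_sq b, Complex.normSq_eq_norm_sq e, Complex.normSq_eq_norm_sq n,
    Complex.normSq_eq_norm_sq A, hn, he, Complex.normSq_ofReal, mul_assoc (a : ℂ),
    Complex.re_ofReal_mul] at h3
  linear_combination -h3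

lemma same {A b n e e' : ℂ} (hn : ‖n‖ = 1) (he : ‖e‖ = 1) (he' : ‖e'‖ = 1) (hAb : ‖A‖ < ‖b‖)
    (h1 : A + b * e ^ 2 = (‖A + b * e ^ 2‖ : ℂ) * n)
    (h2 : A + b * e' ^ 2 = (‖A + b * e' ^ 2‖ : ℂ) * n)
    (h1' : A + b * e ^ 2 ≠ 0) (h2' : A + b * e' ^ 2 ≠ 0) : e ^ 2 = e' ^ 2 := by
  have q1 := quad hn he h1
  have q2 := quad hn he' h2
  have a1 : 0 < ‖A + b * e ^ 2‖ := norm_pos_iff.2 h1'
  have a2 : 0 < ‖A + b * e' ^ 2‖ := norm_pos_iff.2 h2'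
  set a := ‖A + b * e ^ 2‖ with ha
  set a' := ‖A + b * e' ^ 2‖ with ha'
  set y := (n * conj A).re with hy
  have hlt : ‖A‖ ^ 2 < ‖b‖ ^ 2 := pow_lt_pow_left₀ hAb (norm_nonneg _) (by norm_num)
  have hprod : (a - a') * (a + a' - 2 * y) = 0 := by linear_combination q1 - q2
  have haa : a = a' := by
    rcases mul_eq_zero.1 hprod with h | h
    · linarith
    · exfalso
      have h3 : 0 < a * (a - 2 * y) := by nlinarith
      have h4 : 0 < a - 2 * y := by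
        by_contra hcon
        rw [not_lt] at hcon
        have := mul_nonpos_of_nonneg_of_nonpos a1.le hcon
        linarith
      linarith
  have hb : b ≠ 0 := by
    rintro rfl
    rw [norm_zero] at hAb
    exact absurd hAb (not_lt.2 (norm_nonneg _))
  have h5 : b * (e ^ 2 - e' ^ 2) = 0 := by
    have h6 : A + b * e ^ 2 = A + b * e' ^ 2 := by
      rw [h1, h2, haa]
    linear_combination h6
  rcases mul_eq_zero.1 h5 with h6 | h6
  · exact absurd h6 hb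
  · exact sub_eq_zero.1 h6

end WALM

open WALM in
theorem specWAL (hWAA : SpecWAA) (hWAB : SpecWAB) : SpecWAL := by
  intro f g Ω ρ hE hne
  obtain ⟨w₀, hw₀⟩ := hne
  obtain ⟨δ₀, hδ₀, hball⟩ := Metric.isOpen_iff.1 isOpen_interior w₀ hw₀
  have hball' : ball w₀ δ₀ ⊆ Ωᶜ := hball.trans interior_subset
  have h0 : (0 : ℂ) ∈ Ω := by
    rw [← hE.im]
    exact ⟨0, mem_ball_self one_pos, hE.zero⟩
  have hw0 : w₀ ≠ 0 := by
    rintro rfl
    exact (hball' (mem_ball_self hδ₀)) h0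
  have hnw : ‖w₀‖ ≠ 0 := norm_ne_zero_iff.2 hw0
  have hnwC : (‖w₀‖ : ℂ) ≠ 0 := Complex.ofReal_ne_zero.2 hnw
  obtain ⟨B, η, c₀, M, hB, hη, hc₀, hcM, hA⟩ := hWAA f g Ω ρ hE w₀ δ₀ hδ₀ hball'
  obtain ⟨κ, hκ, L, hL, δ, hδ, hW⟩ := hWAB ρ B c₀ M hE.pos hB hc₀ hcM
  set η' : ℝ := min η 1 with hη'
  have hη'0 : 0 < η' := lt_min hη one_pos
  have hη'1 : η' ≤ 1 := min_le_right _ _
  set θ : ℕ → ℝ := fun j => η' / (j + 1) with hθ
  have hθ0 : ∀ j, 0 < θ j := fun j => by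
    rw [hθ]
    positivity
  have hθη : ∀ j, θ j ≤ η' := fun j => by
    rw [hθ]
    have : (1 : ℝ) ≤ (j : ℝ) + 1 := by
      have : (0 : ℝ) ≤ j := Nat.cast_nonneg j
      linarith
    exact div_le_self hη'0.le this
  set e : ℕ → ℂ := fun j => w₀ / (‖w₀‖ : ℂ) * Complex.exp (I * (θ j : ℂ)) with he
  have hw1 : ‖w₀ / (‖w₀‖ : ℂ)‖ = 1 := by
    rw [norm_div, Complex.norm_real, norm_norm, div_self hnw]
  have hexp1 : ∀ j, ‖Complex.exp (I * (θ j : ℂ))‖ = 1 := fun j => by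
    rw [mul_comm]
    exact Complex.norm_exp_ofReal_mul_I (θ j)
  have he1 : ∀ j, ‖e j‖ = 1 := fun j => by
    rw [he]
    show ‖w₀ / (‖w₀‖ : ℂ) * Complex.exp (I * (θ j : ℂ))‖ = 1
    rw [norm_mul, hw1, hexp1, one_mul]
  have heη : ∀ j, ‖e j - w₀ / (‖w₀‖ : ℂ)‖ ≤ η := fun j => by
    have h1 : e j - w₀ / (‖w₀‖ : ℂ) = w₀ / (‖w₀‖ : ℂ) * (Complex.exp (I * (θ j : ℂ)) - 1) := by
      rw [he]
      show w₀ / (‖w₀‖ : ℂ) * Complex.exp (I * (θ j : ℂ)) - w₀ / (‖w₀‖ : ℂ) = _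
      ring
    rw [h1, norm_mul, hw1, one_mul]
    have h2 : ‖Complex.exp (I * (θ j : ℂ)) - 1‖ ≤ ‖θ j‖ := Real.norm_exp_I_mul_ofReal_sub_one_le
    rw [Real.norm_of_nonneg (hθ0 j).le] at h2
    exact h2.trans ((hθη j).trans (min_le_left _ _))
  have hinj : ∀ i j, e i ^ 2 = e j ^ 2 → i = j := by
    intro i j h
    have h1 : (w₀ / (‖w₀‖ : ℂ)) ^ 2 ≠ 0 := pow_ne_zero 2 (div_ne_zero hw0 hnwC)
    have h2 : (w₀ / (‖w₀‖ : ℂ)) ^ 2 * (Complex.exp (I * (θ i : ℂ))) ^ 2 =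
        (w₀ / (‖w₀‖ : ℂ)) ^ 2 * (Complex.exp (I * (θ j : ℂ))) ^ 2 := by
      rw [← mul_pow, ← mul_pow]
      exact h
    have h3 := mul_left_cancel₀ h1 h2
    rw [← Complex.exp_nat_mul, ← Complex.exp_nat_mul] at h3
    have him : ∀ k, (((2 : ℕ) : ℂ) * (I * (θ k : ℂ))).im = 2 * θ k := fun k => by
      simp
    have hpi := Real.pi_gt_three
    have h4 := Complex.exp_inj_of_neg_pi_lt_of_le_pi (x := ((2 : ℕ) : ℂ) * (I * (θ i : ℂ)))
      (y := ((2 : ℕ) : ℂ) * (I * (θ j : ℂ)))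
      (by rw [him]; linarith [hθ0 i]) (by rw [him]; linarith [hθη i])
      (by rw [him]; linarith [hθ0 j]) (by rw [him]; linarith [hθη j]) h3
    have h5 : 2 * θ i = 2 * θ j := by rw [← him, ← him, h4]
    have h6 : θ i = θ j := by linarith
    have h7 : η' / ((i : ℝ) + 1) = η' / ((j : ℝ) + 1) := h6
    have hi : (0 : ℝ) < (i : ℝ) + 1 := by positivity
    have hj : (0 : ℝ) < (j : ℝ) + 1 := by positivity
    rw [div_eq_div_iff hi.ne' hj.ne'] at h7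
    have h8 := mul_left_cancel₀ hη'0.ne' h7
    have h9 : (j : ℝ) = i := by linarith
    exact_mod_cast h9.symm
  have hex := fun j => hA (e j) (he1 j) (heη j)
  choose ζ m hKK hζ1 hζ2 hm hPhi hre hout using hex
  have hKK' : ∀ j, ζ j ∉ Ω ∧ ∃ c : ℂ, ball c ρ ⊆ Ω ∧ dist (ζ j) c = ρ := fun j => hKK j
  choose hζout c hc1 hc2 using hKK'
  refine ⟨κ, hκ, L, hL, δ, hδ, M, lt_of_lt_of_le hc₀ hcM, c, ζ, ?_, ?_⟩
  · intro i j hij
    apply hinj
    have w1 := hW Ω (e i) (ζ i) (c i) (m i) (he1 i) (hc1 i) (hc2 i) (hζout i) (hζ1 i) (hζ2 i)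
      (hm i) (hPhi i) (hre i) (hout i)
    have w2 := hW Ω (e j) (ζ i) (c i) (m j) (he1 j) (hc1 i) (hc2 i) (hζout i) (hζ1 i) (hζ2 i)
      (hm j) (by rw [hij]; exact hPhi j) (by rw [hij]; exact hre j) (hout j)
    have hn : ‖(ζ i - c i) / (ρ : ℂ)‖ = 1 := by
      rw [norm_div, ← dist_eq_norm, hc2 i, Complex.norm_real, Real.norm_of_nonneg hE.pos.le,
        div_self hE.pos.ne']
    refine same hn (he1 i) (he1 j) ?_ w1.1 w2.1 w1.2.1 w2.2.1
    rw [norm_mul, norm_mul, Complex.norm_real, Complex.norm_real, Complex.norm_conj]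
    refine mul_lt_mul_of_pos_right ?_ (lt_of_lt_of_le hc₀ (hζ1 i))
    rw [Real.norm_of_nonneg (by linarith : (0 : ℝ) ≤ 1 + B), Real.norm_of_nonpos (by linarith)]
    linarith
  · intro j
    exact (hW Ω (e j) (ζ j) (c j) (m j) (he1 j) (hc1 j) (hc2 j) (hζout j) (hζ1 j) (hζ2 j)
      (hm j) (hPhi j) (hre j) (hout j)).2.2

end Pool.Agent.Lib.MP250511.SB
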