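import Pool.Agent.Lib.MP_250511_an.SB.Spec
import Pool.Agent.Lib.MP_1707ab_an.Local1

/-!
# MP_250511_an : Weyl's lemma for the Cauchy-Riemann operator (module WEY)
-/

set_option autoImplicit false

namespace Pool.Agent.Lib.MP250511.SB

open Complex Metric Set MeasureTheory Filter Topology
open scoped Real ENNReal ComplexConjugate ContDiff

namespace WEYM

open Pool.Agent.Lib.MP_1707ab_an (Test db Cau)

theorem dB_eq (v : ℂ → ℂ) (z : ℂ) : dB v z = db v z := rfl

/-- The Cauchy transform is holomorphic where the function vanishes. -/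
theorem cau_diff {G : ℂ → ℂ} (hG : Integrable G) {z₀ : ℂ} {r : ℝ}
    (h0 : ∀ x ∈ ball z₀ r, G x = 0) : DifferentiableOn ℂ (Cau G) (ball z₀ r) := by
  intro z₁ hz₁
  apply DifferentiableAt.differentiableWithinAt
  have hz₁' : dist z₁ z₀ < r := hz₁
  set s : ℝ := (r - dist z₁ z₀) / 2 with hs
  have hs0 : 0 < s := by rw [hs]; linarith
  have hfar : ∀ z ∈ ball z₁ s, ∀ x, G x ≠ 0 → s ≤ ‖z - x‖ := by
    intro z hz x hx
    have h1 : r ≤ dist x z₀ := by
      by_contra hcon
      exact hx (h0 x (by simpa using not_le.1 hcon))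
    have h2 : dist z z₁ < s := hz
    have h3 := dist_triangle x z z₀
    have h4 := dist_triangle z z₁ z₀
    rw [← dist_eq_norm, dist_comm z x]
    rw [hs] at h2 ⊢
    linarith
  have hmeas : ∀ z : ℂ, AEStronglyMeasurable (fun x => G x * (z - x)⁻¹) volume := fun z =>
    hG.1.mul ((measurable_const.sub measurable_id).inv).aestronglyMeasurable
  have hmeas2 : AEStronglyMeasurable (fun x => -(G x * ((z₁ - x) ^ 2)⁻¹)) volume :=
    (hG.1.mul (((measurable_const.sub measurable_id).pow_const 2).inv).aestronglyMeasurable).neg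
  have hint : Integrable (fun x => G x * (z₁ - x)⁻¹) := by
    refine (hG.norm.const_mul (1 / s)).mono' (hmeas z₁) (Eventually.of_forall fun x => ?_)
    by_cases hx : G x = 0
    · simp [hx]
    · rw [norm_mul, norm_inv, mul_comm (1 / s)]
      refine mul_le_mul_of_nonneg_left ?_ (norm_nonneg _)
      rw [one_div]
      exact inv_anti₀ hs0 (hfar z₁ (mem_ball_self hs0) x hx)
  have key := hasDerivAt_integral_of_dominated_loc_of_deriv_le (μ := volume)
    (F := fun z x => G x * (z - x)⁻¹) (F' := fun z x => -(G x * ((z - x) ^ 2)⁻¹)) (x₀ := z₁)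
    (s := ball z₁ s) (bound := fun x => (1 / s ^ 2) * ‖G x‖) (ball_mem_nhds z₁ hs0)
    (Eventually.of_forall hmeas) hint hmeas2
    (Eventually.of_forall fun x z hz => by
      by_cases hx : G x = 0
      · simp [hx]
      · rw [norm_neg, norm_mul, norm_inv, norm_pow, mul_comm (1 / s ^ 2)]
        refine mul_le_mul_of_nonneg_left ?_ (norm_nonneg _)
        rw [one_div]
        exact inv_anti₀ (by positivity) (pow_le_pow_left₀ hs0.le (hfar z hz x hx) 2))
    (hG.norm.const_mul _)
    (Eventually.of_forall fun x z hz => by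
      by_cases hx : G x = 0
      · simp only [hx, zero_mul, neg_zero]
        exact hasDerivAt_const _ _
      · have hne : z - x ≠ 0 := by
          intro h
          have := hfar z hz x hx
          rw [h, norm_zero] at this
          linarith
        have h1 : HasDerivAt (fun z : ℂ => z - x) 1 z := (hasDerivAt_id z).sub_const x
        have h2 := (h1.inv hne).const_mul (G x)
        refine h2.congr_deriv ?_
        ring)
  have h3 : Cau G = fun z => (Real.pi : ℂ)⁻¹ * ∫ x, G x * (z - x)⁻¹ := by
    funext z
    unfold Cau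
    simp only [div_eq_mul_inv]
  rw [h3]
  exact (key.2.const_mul _).differentiableAt

theorem bdd_mul_int {f g : ℂ → ℂ} (hf : Test f) (hg : Integrable g) :
    Integrable (fun z => f z * g z) := by
  obtain ⟨C, hC⟩ := hf.2.exists_bound_of_continuous hf.1.continuous
  refine (hg.norm.const_mul C).mono' (hf.1.continuous.aestronglyMeasurable.mul hg.1)
    (Eventually.of_forall fun z => ?_)
  rw [norm_mul]
  exact mul_le_mul_of_nonneg_right (hC z) (norm_nonneg _)

end WEYM

open WEYM in
open Pool.Agent.Lib.MP_1707ab_an (Test db Cau) in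
/-- **WEY**. -/
theorem specWEY : SpecWEY := by
  intro z₀ δ w hδ hw hweak
  let χr : ContDiffBump z₀ := ⟨5 * δ / 8, 7 * δ / 8, by positivity, by linarith⟩
  let χ : ℂ → ℂ := fun z => ((χr z : ℝ) : ℂ)
  have hχs : ContDiff ℝ ∞ χ := Complex.ofRealCLM.contDiff.comp χr.contDiff
  have hχsub : tsupport χ ⊆ closedBall z₀ (7 * δ / 8) := by
    rw [← χr.tsupport_eq]
    refine closure_mono fun z hz => ?_
    simp only [Function.mem_support, ne_eq, χ] at hz ⊢
    intro h
    apply hz
    rw [h]; simp
  have hχc : HasCompactSupport χ :=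
    (isCompact_closedBall z₀ (7 * δ / 8)).of_isClosed_subset (isClosed_tsupport _) hχsub
  have hχt : Test χ := ⟨hχs, hχc⟩
  have hχ1 : ∀ z ∈ ball z₀ (5 * δ / 8), χ z = 1 := by
    intro z hz
    have : χr z = 1 := χr.one_of_mem_closedBall (ball_subset_closedBall hz)
    simp [χ, this]
  have hdχ : ∀ z ∈ ball z₀ (5 * δ / 8), db χ z = 0 := by
    intro z hz
    have h1 : χ =ᶠ[𝓝 z] fun _ => (1 : ℂ) := by
      filter_upwards [isOpen_ball.mem_nhds hz] with y hy
      exact hχ1 y hy
    rw [Pool.Agent.Lib.MP_1707ab_an.db_congr h1, Pool.Agent.Lib.MP_1707ab_an.db_const]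
  have hdχt : Test (db χ) := hχt.db
  set w₀ : ℂ → ℂ := (ball z₀ δ).indicator w with hw₀
  have hw₀i : Integrable w₀ := hw.integrable_indicator measurableSet_ball
  set G : ℂ → ℂ := fun x => db χ x * w₀ x with hG
  have hGi : Integrable G := bdd_mul_int hdχt hw₀i
  have hG0 : ∀ x ∈ ball z₀ (5 * δ / 8), G x = 0 := by
    intro x hx
    simp only [hG, hdχ x hx, zero_mul]
  have hdiff := cau_diff hGi hG0
  have hsub : ball z₀ (δ / 2) ⊆ ball z₀ (5 * δ / 8) := ball_subset_ball (by linarith)
  refine ⟨Cau G, (hdiff.mono hsub).analyticOnNhd isOpen_ball, ?_⟩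
  -- the identity for test functions
  have key : ∀ g : ℂ → ℝ, ContDiff ℝ ∞ g → HasCompactSupport g → tsupport g ⊆ ball z₀ (δ / 2) →
      ∫ x, g x • (w₀ x - Cau G x) = 0 := by
    intro g hg hgc hgs
    let v : ℂ → ℂ := fun z => ((g z : ℝ) : ℂ)
    have hvsub : tsupport v ⊆ tsupport g := by
      refine closure_mono fun z hz => ?_
      simp only [Function.mem_support, ne_eq, v] at hz ⊢
      intro h
      apply hz
      rw [h]; simp
    have hv : Test v := ⟨Complex.ofRealCLM.contDiff.comp hg,
      hgc.of_isClosed_subset (isClosed_tsupport _) hvsub⟩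
    have hv0 : ∀ z, v z ≠ 0 → z ∈ ball z₀ (δ / 2) := by
      intro z hz
      exact hgs (hvsub (subset_tsupport _ hz))
    have hus := Pool.Agent.Lib.MP_1707ab_an.specCauSmooth v hv
    have hdu := Pool.Agent.Lib.MP_1707ab_an.specDbCau v hv
    have hφ : Test (fun z => Cau v z * χ z) := Test.mul_left hus hχt
    have hφs : tsupport (fun z => Cau v z * χ z) ⊆ ball z₀ δ :=
      (Pool.Agent.Lib.MP_1707ab_an.tsupport_mul_subset _ _).trans
        (hχsub.trans (closedBall_subset_ball (by linarith)))
    have h1 := hweak _ hφ.1 hφ.2 hφs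
    have h2 : ∀ z, dB (fun z => Cau v z * χ z) z = v z + Cau v z * db χ z := by
      intro z
      rw [dB_eq, Pool.Agent.Lib.MP_1707ab_an.db_mul (hus.differentiable (by simp) z)
        (hχs.differentiable (by simp) z), hdu z]
      by_cases hz : v z = 0
      · rw [hz]; simp
      · rw [hχ1 z (hsub (hv0 z hz)), mul_one]
    have hΦt : Test (fun z => Cau v z * db χ z) := Test.mul_left hus hdχt
    have h3 : ∫ z, (v z * w₀ z + Cau v z * G z) = 0 := by
      rw [← h1, ← integral_indicator measurableSet_ball]
      congr 1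
      funext z
      by_cases hz : z ∈ ball z₀ δ
      · rw [indicator_of_mem hz, h2 z, hG, hw₀]
        simp only [indicator_of_mem hz]
        ring
      · rw [indicator_of_notMem hz, hG, hw₀]
        simp only [indicator_of_notMem hz]
        ring
    have hi1 : Integrable (fun z => v z * w₀ z) := bdd_mul_int hv hw₀i
    have hi2 : Integrable (fun z => Cau v z * G z) := by
      have := bdd_mul_int hΦt hw₀i
      refine this.congr (Eventually.of_forall fun z => ?_)
      simp only [hG]
      ring
    rw [integral_add hi1 hi2] at h3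
    -- Fubini
    have hprod : Integrable (fun p : ℂ × ℂ => G p.1 * v p.2) (volume.prod volume) :=
      hGi.mul_prod hv.integrable
    have hFi : Integrable (Function.uncurry fun x t : ℂ => G x * v t * (x - t)⁻¹)
        (volume.prod volume) := by
      refine (hprod.norm.const_mul (8 / δ)).mono' ?_ (Eventually.of_forall fun p => ?_)
      · exact hprod.1.mul ((measurable_fst.sub measurable_snd).inv).aestronglyMeasurable
      · simp only [Function.uncurry]
        rw [norm_mul]
        by_cases h0 : G p.1 * v p.2 = 0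
        · rw [h0]; simp
        · rw [mul_comm (8 / δ)]
          refine mul_le_mul_of_nonneg_left ?_ (norm_nonneg _)
          have hx : G p.1 ≠ 0 := fun h => h0 (by rw [h, zero_mul])
          have ht : v p.2 ≠ 0 := fun h => h0 (by rw [h, mul_zero])
          have h4 : 5 * δ / 8 ≤ dist p.1 z₀ := by
            by_contra hcon
            exact hx (hG0 p.1 (by simpa using not_le.1 hcon))
          have h5 : dist p.2 z₀ < δ / 2 := hv0 p.2 ht
          have h6 := dist_triangle p.1 p.2 z₀
          have h7 : δ / 8 ≤ ‖p.1 - p.2‖ := by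
            rw [← dist_eq_norm]
            linarith
          rw [norm_inv]
          have h8 := inv_anti₀ (by positivity : 0 < δ / 8) h7
          rwa [inv_div] at h8
    have hswap := integral_integral_swap hFi
    have hA : ∀ x, ∫ t, G x * v t * (x - t)⁻¹ = (Real.pi : ℂ) * (Cau v x * G x) := by
      intro x
      have hpi : (Real.pi : ℂ) ≠ 0 := by exact_mod_cast Real.pi_pos.ne'
      have e1 : ∫ t, G x * v t * (x - t)⁻¹ = G x * ∫ t, v t / (x - t) := by
        rw [← integral_const_mul]
        congr 1
        funext t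
        rw [div_eq_mul_inv]; ring
      rw [e1]
      unfold Cau
      field_simp
    have hB : ∀ t, ∫ x, G x * v t * (x - t)⁻¹ = -((Real.pi : ℂ) * (v t * Cau G t)) := by
      intro t
      have hpi : (Real.pi : ℂ) ≠ 0 := by exact_mod_cast Real.pi_pos.ne'
      have e1 : ∫ x, G x * v t * (x - t)⁻¹ = -(v t * ∫ x, G x / (t - x)) := by
        rw [← integral_const_mul, ← integral_neg]
        congr 1
        funext x
        have e2 : (x - t)⁻¹ = -(t - x)⁻¹ := by rw [← inv_neg, neg_sub]
        rw [div_eq_mul_inv, e2]; ring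
      rw [e1]
      unfold Cau
      field_simp
    have hi3 : Integrable (fun t => v t * Cau G t) := by
      have h4 : Integrable (fun t => ∫ x, G x * v t * (x - t)⁻¹) := hFi.integral_prod_right
      have hpi : (Real.pi : ℂ) ≠ 0 := by exact_mod_cast Real.pi_pos.ne'
      have h5 := h4.const_mul (-(Real.pi : ℂ)⁻¹)
      refine h5.congr (Eventually.of_forall fun t => ?_)
      simp only [hB t]
      field_simp
    have h6 : ∫ x, Cau v x * G x = -∫ t, v t * Cau G t := by
      have hpi : (Real.pi : ℂ) ≠ 0 := by exact_mod_cast Real.pi_pos.ne'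
      simp only [hA, hB] at hswap
      rw [integral_const_mul, integral_neg, integral_const_mul] at hswap
      apply mul_left_cancel₀ hpi
      rw [hswap]; ring
    rw [h6] at h3
    have h7 : ∫ x, g x • (w₀ x - Cau G x) = ∫ x, (v x * w₀ x - v x * Cau G x) := by
      congr 1
      funext x
      rw [Complex.real_smul]
      simp only [v]
      ring
    rw [h7, integral_sub hi1 hi3]
    linear_combination h3
  have hloc : LocallyIntegrableOn (fun x => w₀ x - Cau G x) (ball z₀ (δ / 2)) := by
    have h1 : LocallyIntegrableOn w₀ (ball z₀ (δ / 2)) :=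
      hw₀i.locallyIntegrable.locallyIntegrableOn _
    have h2 : LocallyIntegrableOn (Cau G) (ball z₀ (δ / 2)) :=
      (hdiff.mono hsub).continuousOn.locallyIntegrableOn measurableSet_ball
    exact h1.sub h2
  have hae := isOpen_ball.ae_eq_zero_of_integral_contDiff_smul_eq_zero hloc key
  rw [Filter.EventuallyEq, ae_restrict_iff' measurableSet_ball]
  filter_upwards [hae] with x hx hxb
  have h1 := hx hxb
  have h2 : w₀ x = w x := by
    rw [hw₀, indicator_of_mem (ball_subset_ball (by linarith) hxb)]
  rw [← h2]
  exact sub_eq_zero.1 h1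

end Pool.Agent.Lib.MP250511.SB
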