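import Pool.Agent.Lib.MP_250511_an.SB.SpecZ

/-!
# MP_250511_an : module ZA, the boundary of the interior of the complement is in `KK`
-/

set_option autoImplicit false

namespace Pool.Agent.Lib.MP250511.SB

open Complex Metric Set MeasureTheory Filter Topology
open scoped Real ENNReal ComplexConjugate ContDiff

theorem specZA (hLCF : SpecLCF) : SpecZA := by
  intro f g Ω ρ hE z hz
  have hop : IsOpen Ω := hE.op
  have h0 : (0 : ℂ) ∈ Ω := by
    have h1 : f 0 ∈ f '' ball 0 1 := mem_image_of_mem f (mem_ball_self one_pos)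
    have h2 : f '' ball 0 1 = Ω := hE.im
    rw [hE.zero] at h1
    rw [← h2]
    exact h1
  have hcl : IsClosed Ωᶜ := hop.isClosed_compl
  have hzcl : z ∈ closure (interior Ωᶜ) := frontier_subset_closure hz
  have hzint : z ∉ interior Ωᶜ := by
    have h1 := hz
    rw [isOpen_interior.frontier_eq] at h1
    exact h1.2
  have hzΩ : z ∉ Ω := by
    have h1 : closure (interior Ωᶜ) ⊆ Ωᶜ := closure_minimal interior_subset hcl
    exact h1 hzcl
  have hz0 : z ≠ 0 := fun h => hzΩ (h ▸ h0)
  by_contra hK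
  obtain ⟨δ, hδ, -, h, -, -, hvol⟩ := hLCF f g Ω ρ hE z hz0 hK
  -- the ball meets `Ω`
  have hne : (Ω ∩ ball z δ).Nonempty := by
    by_contra hcon
    apply hzint
    rw [mem_interior]
    refine ⟨ball z δ, ?_, isOpen_ball, mem_ball_self hδ⟩
    intro w hw hwΩ
    exact hcon ⟨w, hwΩ, hw⟩
  have hv := hvol hne
  -- the ball meets the interior of the complement
  obtain ⟨w, hwb, hwi⟩ : (ball z δ ∩ interior Ωᶜ).Nonempty :=
    mem_closure_iff.1 hzcl (ball z δ) isOpen_ball (mem_ball_self hδ)
  have hopen : IsOpen (ball z δ ∩ interior Ωᶜ) := isOpen_ball.inter isOpen_interior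
  have hpos : 0 < volume (ball z δ ∩ interior Ωᶜ) :=
    hopen.measure_pos volume ⟨w, hwb, hwi⟩
  have hle : volume (ball z δ ∩ interior Ωᶜ) ≤ volume (ball z δ \ Ω) := by
    apply measure_mono
    rintro x ⟨hx1, hx2⟩
    exact ⟨hx1, interior_subset hx2⟩
  rw [hv] at hle
  exact absurd hpos (not_lt.2 hle)

end Pool.Agent.Lib.MP250511.SB
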