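import Pool.Agent.Lib.MP_250511_an.SB.SpecZ

/-!
# Module ZB: infinitely many two-sided wall points
-/

set_option autoImplicit false

namespace Pool.Agent.Lib.MP250511.SB

open Complex Metric Set MeasureTheory Filter Topology
open scoped Real ENNReal ComplexConjugate ContDiff

noncomputable section

namespace ZBM

/-- touching balls -/
theorem touch {w c ζ : ℂ} {d ρ : ℝ} (hd : 0 < d) (hρ : 0 < ρ) (hwz : dist w ζ = d)
    (hzc : dist ζ c = ρ) (hdis : Disjoint (ball w d) (ball c ρ)) :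
    w = ζ + (d : ℂ) * ((ζ - c) / (ρ : ℂ)) := by
  have h1 : d + ρ ≤ dist w c := (disjoint_ball_ball_iff hd hρ).mp hdis
  have h2 : ‖(w - ζ) + (ζ - c)‖ = ‖w - ζ‖ + ‖ζ - c‖ := by
    apply le_antisymm (norm_add_le _ _)
    rw [sub_add_sub_cancel, ← dist_eq_norm, ← dist_eq_norm, ← dist_eq_norm, hwz, hzc]
    exact h1
  have h3 : SameRay ℝ (w - ζ) (ζ - c) := sameRay_iff_norm_add.mpr h2
  have h4 := sameRay_iff_norm_smul_eq.mp h3
  rw [← dist_eq_norm, ← dist_eq_norm, hwz, hzc, Complex.real_smul, Complex.real_smul] at h4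
  have hρ' : (ρ : ℂ) ≠ 0 := by exact_mod_cast hρ.ne'
  have h5 : (d : ℂ) * ((ζ - c) / (ρ : ℂ)) = w - ζ := by
    rw [mul_div_assoc', div_eq_iff hρ', h4]
    ring
  rw [h5]
  ring

/-- lines are null sets -/
theorem line_null (ζ n : ℂ) : volume {z : ℂ | ∃ t : ℝ, z = ζ + (t : ℂ) * n} = 0 := by
  have hne : AffineSubspace.mk' ζ (Submodule.span ℝ {n}) ≠ (⊤ : AffineSubspace ℝ ℂ) := by
    intro h
    have h1 : (Submodule.span ℝ {n} : Submodule ℝ ℂ) = ⊤ := by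
      rw [← AffineSubspace.direction_mk' ζ (Submodule.span ℝ {n}), h,
        AffineSubspace.direction_top]
    have h2 : Module.finrank ℝ (Submodule.span ℝ {n} : Submodule ℝ ℂ) ≤ 1 :=
      (finrank_span_le_card {n}).trans (by simp)
    rw [h1, finrank_top, Complex.finrank_real_complex] at h2
    omega
  have h := Measure.addHaar_affineSubspace volume _ hne
  refine measure_mono_null ?_ h
  rintro z ⟨t, rfl⟩
  rw [SetLike.mem_coe, AffineSubspace.mem_mk', Submodule.mem_span_singleton]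
  refine ⟨t, ?_⟩
  rw [Complex.real_smul, vsub_eq_sub]
  ring

end ZBM

open ZBM in
theorem specZB : SpecZB := by
  intro Ω ρ hρ hΩ h0 hKK hne
  obtain ⟨w₀, hw₀⟩ := hne
  have hWo : IsOpen (interior Ωᶜ) := isOpen_interior
  have hWs : interior Ωᶜ ⊆ Ωᶜ := interior_subset
  have h0W : (0 : ℂ) ∈ (interior Ωᶜ)ᶜ := fun h => hWs h h0
  have hWc : IsClosed (interior Ωᶜ)ᶜ := hWo.isClosed_compl
  have hWn : ((interior Ωᶜ)ᶜ : Set ℂ).Nonempty := ⟨0, h0W⟩
  obtain ⟨c₀, hc₀, hc₀s⟩ := Metric.isOpen_iff.mp hΩ 0 h0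
  obtain ⟨d₀, hd₀⟩ : ∃ d, d = infDist w₀ (interior Ωᶜ)ᶜ := ⟨_, rfl⟩
  have hd₀p : 0 < d₀ := by
    rw [hd₀]
    exact (hWc.notMem_iff_infDist_pos hWn).mp (fun h => h hw₀)
  obtain ⟨κ, hκ⟩ : ∃ κ, κ = min (d₀ / 2) (c₀ / 8) := ⟨_, rfl⟩
  have hκp : 0 < κ := by
    rw [hκ]
    exact lt_min (by linarith) (by linarith)
  have hκ1 : κ ≤ d₀ / 2 := by rw [hκ]; exact min_le_left _ _
  have hκ2 : κ ≤ c₀ / 8 := by rw [hκ]; exact min_le_right _ _
  -- the centres
  have hcc : ∀ ζ : ℂ, ∃ c : ℂ, ζ ∈ KK Ω ρ → ball c ρ ⊆ Ω ∧ dist ζ c = ρ := by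
    intro ζ
    by_cases h : ζ ∈ KK Ω ρ
    · obtain ⟨-, c, h1, h2⟩ := h
      exact ⟨c, fun _ => ⟨h1, h2⟩⟩
    · exact ⟨0, fun h' => absurd h' h⟩
  choose cc hcc using hcc
  have hbal : ∀ w : ℂ, ball w (infDist w (interior Ωᶜ)ᶜ) ⊆ interior Ωᶜ := fun w =>
    ball_infDist_compl_subset
  have hkey : ∀ w ∈ ball w₀ κ, ∃ ζ : ℂ, (TW Ω ρ κ (cc ζ) ζ ∧
      closedBall ζ κ ⊆ ball w₀ (d₀ + c₀ / 2)) ∧
      ∃ t : ℝ, w = ζ + (t : ℂ) * ((ζ - cc ζ) / (ρ : ℂ)) := by
    intro w hw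
    rw [mem_ball] at hw
    obtain ⟨d, hd⟩ : ∃ d, d = infDist w (interior Ωᶜ)ᶜ := ⟨_, rfl⟩
    have hdl : d₀ ≤ d + κ := by
      have h := infDist_le_infDist_add_dist (s := (interior Ωᶜ)ᶜ) (x := w₀) (y := w)
      rw [dist_comm] at h
      rw [hd, hd₀]
      linarith
    have hdu : d ≤ d₀ + κ := by
      have h := infDist_le_infDist_add_dist (s := (interior Ωᶜ)ᶜ) (x := w) (y := w₀)
      rw [hd, hd₀]
      linarith
    have hdκ : κ ≤ d := by linarith
    have hdp : 0 < d := by linarith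
    obtain ⟨ζ, hζ, hζd⟩ := hWc.exists_infDist_eq_dist hWn w
    rw [← hd] at hζd
    have hbw : ball w d ⊆ interior Ωᶜ := by
      rw [hd]
      exact hbal w
    have hfr : ζ ∈ frontier (interior Ωᶜ) := by
      refine ⟨?_, ?_⟩
      · apply closure_mono hbw
        rw [closure_ball w hdp.ne', mem_closedBall, dist_comm, ← hζd]
      · rw [hWo.interior_eq]
        exact hζ
    have hζK := hKK hfr
    obtain ⟨h1, h2⟩ := hcc ζ hζK
    have hdis : Disjoint (ball w d) (ball (cc ζ) ρ) := by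
      rw [Set.disjoint_left]
      intro z hz hz'
      exact hWs (hbw hz) (h1 hz')
    have hw2 := touch hdp hρ hζd.symm h2 hdis
    refine ⟨ζ, ⟨⟨h1, h2, hζK.1, ?_⟩, ?_⟩, d, hw2⟩
    · refine (ball_subset_ball' ?_).trans (hbw.trans hWs)
      have hn : ‖(ζ - cc ζ) / (ρ : ℂ)‖ = 1 := by
        rw [norm_div, ← dist_eq_norm, h2, Complex.norm_real, Real.norm_eq_abs, abs_of_pos hρ,
          div_self hρ.ne']
      have h3 : dist (ζ + (κ : ℂ) * ((ζ - cc ζ) / (ρ : ℂ))) w = d - κ := by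
        rw [hw2, dist_eq_norm, add_sub_add_left_eq_sub, ← sub_mul, norm_mul, hn, mul_one,
          ← Complex.ofReal_sub, Complex.norm_real, Real.norm_eq_abs, abs_sub_comm,
          abs_of_nonneg (by linarith)]
      rw [h3]
      linarith
    · apply closedBall_subset_ball'
      have h3 := dist_triangle ζ w w₀
      rw [dist_comm ζ w, ← hζd] at h3
      linarith
  -- infinitely many
  have hinf : {ζ : ℂ | TW Ω ρ κ (cc ζ) ζ ∧ closedBall ζ κ ⊆ ball w₀ (d₀ + c₀ / 2)}.Infinite := by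
    intro hfin
    have h1 : volume (⋃ ζ ∈ {ζ : ℂ | TW Ω ρ κ (cc ζ) ζ ∧ closedBall ζ κ ⊆ ball w₀ (d₀ + c₀ / 2)},
        {z : ℂ | ∃ t : ℝ, z = ζ + (t : ℂ) * ((ζ - cc ζ) / (ρ : ℂ))}) = 0 :=
      (measure_biUnion_null_iff hfin.countable).mpr fun ζ _ => line_null _ _
    have h2 : volume (ball w₀ κ) = 0 := by
      refine measure_mono_null ?_ h1
      intro w hw
      obtain ⟨ζ, h3, t, h4⟩ := hkey w hw
      exact mem_biUnion h3 ⟨t, h4⟩
    exact (measure_ball_pos volume w₀ hκp).ne' h2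
  refine ⟨κ, hκp, w₀, d₀ + c₀ / 2, by linarith, ?_, fun j => cc (hinf.natEmbedding _ j).1,
    fun j => (hinf.natEmbedding _ j).1, ?_, ?_⟩
  · intro h
    rw [mem_closedBall, dist_comm] at h
    have hdis : Disjoint (ball w₀ d₀) (ball (0 : ℂ) c₀) := by
      rw [Set.disjoint_left]
      intro z hz hz'
      rw [hd₀] at hz
      exact hWs (hbal w₀ hz) (hc₀s hz')
    have h1 := (disjoint_ball_ball_iff hd₀p hc₀).mp hdis
    linarith
  · intro i j hij
    exact (hinf.natEmbedding _).injective (Subtype.ext hij)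
  · intro j
    exact (hinf.natEmbedding _ j).2

end

end Pool.Agent.Lib.MP250511.SB
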