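import Pool.Agent.Lib.MP_250511_an.SB.SpecZ
import Pool.Agent.Lib.MP_250511_an.SB.VIN

/-! Module ZD: the energy inequality without a bound of the conformal radius. -/

set_option autoImplicit false

namespace Pool.Agent.Lib.MP250511.SB

open Complex Metric Set MeasureTheory Filter Topology
open scoped Real ENNReal ComplexConjugate ContDiff

noncomputable section

open VINM in
theorem specZD (hINQ : SpecINQ) (hFLU : SpecFLU) (hENE : SpecENE) (hCHV : SpecCHV)
    (hNEA : SpecNEA) : SpecZD := by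
  intro f g F G φ ψ Ω z₀ δ hfg hf1 h0 hd hFG
  have ha : 0 < ‖deriv F 0‖ := norm_pos_iff.2 (hFG.dF 0 (mem_ball_self one_pos))
  set a : ℝ := ‖deriv F 0‖ with hadef
  set W : Set ℂ := Ω ∩ ball z₀ δ with hWdef
  have hWm : MeasurableSet W := (hfg.op.inter isOpen_ball).measurableSet
  have hWs : W ⊆ closedBall z₀ δ := fun z hz => ball_subset_closedBall hz.2
  have hqI : IntegrableOn (qG g) W := hINQ f g Ω hfg z₀ δ h0
  have hXI : IntegrableOn (XQ (qG g) φ) W := XQ_int hWm hWs hqI hd.sm hd.jac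
  have hYe : YQ (qG g) φ = fun z => ‖qG g z‖ + XQ (qG g) φ z :=
    funext fun z => YQ_eq _ _ _ (hd.jac z)
  have hYI : IntegrableOn (YQ (qG g) φ) W := by
    rw [hYe]
    exact hqI.norm.add hXI
  set Iq : ℝ := ∫ z in W, ‖qG g z‖ with hIq
  set IX : ℝ := ∫ z in W, XQ (qG g) φ z with hIX
  have hIqnn : 0 ≤ Iq := integral_nonneg fun z => norm_nonneg _
  have hIY : ∫ z in W, YQ (qG g) φ z = Iq + IX := by
    rw [hYe]
    exact integral_add hqI.norm hXI
  have hIYnn : 0 ≤ Iq + IX := by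
    rw [← hIY]
    exact integral_nonneg fun z => YQ_nonneg _ _ _ (hd.jac z)
  obtain ⟨r, hr, hrW⟩ := exists_r hfg h0
  obtain ⟨C, hC, t₀, ht₀, hN⟩ := hNEA f g F G φ ψ Ω z₀ δ hfg hf1 h0 hd hFG
  by_contra hneg
  push Not at hneg
  have hpi := Real.pi_pos
  set D : ℝ := -(2 * π * Real.log a) - IX with hD
  have hDpos : 0 < D := by
    rw [hD]
    linarith
  -- the small parameter
  have hc1 : ContinuousAt (fun t : ℝ => 1 + C * t) 0 := by fun_prop
  have hc2 : ContinuousAt (fun t : ℝ => 1 + C * ((t / a) * (1 + C * t))) 0 := by fun_prop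
  have hc3 : ContinuousAt (fun t : ℝ => Real.log (1 + C * t) +
      Real.log (1 + C * ((t / a) * (1 + C * t)))) 0 := by
    apply ContinuousAt.add
    · exact hc1.log (by simp)
    · exact hc2.log (by simp)
  have hc4 : ContinuousAt (fun t : ℝ => t * ((1 + C * t) * (1 + C * ((t / a) * (1 + C * t))))) 0 :=
    continuousAt_id.mul (hc1.mul hc2)
  have he1 : ∀ᶠ t in 𝓝[>] (0 : ℝ), Real.log (1 + C * t) +
      Real.log (1 + C * ((t / a) * (1 + C * t))) < D / (8 * π) := by
    apply Filter.Eventually.filter_mono nhdsWithin_le_nhds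
    apply hc3.eventually_lt continuousAt_const
    simp only [mul_zero, add_zero, Real.log_one, zero_div, zero_mul]
    exact div_pos hDpos (by linarith)
  have he2 : ∀ᶠ t in 𝓝[>] (0 : ℝ),
      t * ((1 + C * t) * (1 + C * ((t / a) * (1 + C * t)))) < 1 := by
    apply Filter.Eventually.filter_mono nhdsWithin_le_nhds
    apply hc4.eventually_lt continuousAt_const
    simp
  have he3 : ∀ᶠ t in 𝓝[>] (0 : ℝ), t < t₀ :=
    Filter.Eventually.filter_mono nhdsWithin_le_nhds (Iio_mem_nhds ht₀)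
  have he4 : ∀ᶠ t in 𝓝[>] (0 : ℝ), t < r :=
    Filter.Eventually.filter_mono nhdsWithin_le_nhds (Iio_mem_nhds hr)
  have he5 : ∀ᶠ t in 𝓝[>] (0 : ℝ), t < 1 :=
    Filter.Eventually.filter_mono nhdsWithin_le_nhds (Iio_mem_nhds one_pos)
  have he6 : ∀ᶠ t in 𝓝[>] (0 : ℝ), t < Real.exp (-(2 * |IX * Real.log a| / D)) :=
    Filter.Eventually.filter_mono nhdsWithin_le_nhds (Iio_mem_nhds (Real.exp_pos _))
  obtain ⟨t, ht1, ht2, ht3, ht4, ht5, ht6, htpos⟩ := (he1.and (he2.and (he3.and (he4.and (he5.and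
    (he6.and (self_mem_nhdsWithin : ∀ᶠ t in 𝓝[>] (0 : ℝ), t ∈ Ioi (0 : ℝ)))))))).exists
  replace htpos : 0 < t := htpos
  obtain ⟨hr1, hN1, hN2⟩ := hN t htpos ht3
  set r₀ : ℝ := (t / a) * (1 + C * t) with hr₀
  have hCt : 0 < C * t := mul_pos hC htpos
  have hr₀pos : 0 < r₀ := mul_pos (div_pos htpos ha) (by linarith)
  have hCr : 0 < C * r₀ := mul_pos hC hr₀pos
  set L : ℝ := - Real.log t with hL
  have hLpos : 0 < L := by
    have := Real.log_neg htpos ht5
    linarith
  have hexp : Real.exp (-L) = t := by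
    rw [hL, neg_neg, Real.exp_log htpos]
  set e : ℝ := Real.log (1 + C * t) + Real.log (1 + C * r₀) with he
  have hLbig : 2 * |IX * Real.log a| / D < L := by
    have h1 := Real.log_lt_log htpos ht6
    rw [Real.log_exp] at h1
    linarith
  have hlogC : 0 ≤ Real.log (1 + C * t) := Real.log_nonneg (by linarith)
  have hℓ : Real.log (1 / r₀) = L + Real.log a - Real.log (1 + C * t) := by
    rw [one_div, Real.log_inv, hr₀, Real.log_mul (div_pos htpos ha).ne' (by linarith),
      Real.log_div htpos.ne' ha.ne', hL]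
    ring
  have hℓpos : 0 < Real.log (1 / r₀) := by
    apply Real.log_pos
    rw [one_div]
    exact one_lt_inv_iff₀.2 ⟨hr₀pos, hr1⟩
  have hℓle : Real.log (1 / r₀) ≤ L + Real.log a := by
    rw [hℓ]
    linarith
  have hprod : Real.log (a * r₀ * (1 + C * r₀)) = e - L := by
    have h1 : a * r₀ * (1 + C * r₀) = t * ((1 + C * t) * (1 + C * r₀)) := by
      rw [hr₀]
      field_simp
    rw [h1, Real.log_mul htpos.ne' (by positivity), Real.log_mul (by positivity) (by positivity),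
      he, hL]
    ring
  have hm : 0 ≤ L - e := by
    have h1 : Real.log (a * r₀ * (1 + C * r₀)) ≤ 0 := by
      apply Real.log_nonpos (by positivity)
      have h2 : a * r₀ * (1 + C * r₀) = t * ((1 + C * t) * (1 + C * r₀)) := by
        rw [hr₀]
        field_simp
      rw [h2]
      exact ht2.le
    linarith
  -- the energy
  have hE := hENE (fun w => - Real.log ‖g (ψ (F w))‖) r₀ (L - e) hr₀pos hr1 hm
    (u_diff hfg h0 hd hFG) (by
      intro ζ hζ
      have hζb : ζ ∈ ball (0 : ℂ) 1 := by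
        rw [mem_ball_zero_iff, hζ]
        exact hr1
      have hζ0 : ζ ≠ 0 := by
        rw [← norm_pos_iff, hζ]
        exact hr₀pos
      have h1 := hN2 ζ hζ
      have h2 : 0 < ‖g (ψ (F ζ))‖ := norm_pos_iff.2 (g_ne hfg h0 hd hFG hζb hζ0)
      have h3 := Real.log_le_log h2 h1
      rw [hζ, hprod] at h3
      show L - e ≤ - Real.log ‖g (ψ (F ζ))‖
      linarith)
    (fun ε hε => u_small hfg hd hFG ε hε)
  have hV := hCHV f g F G φ ψ Ω z₀ δ r₀ L hfg h0 hd hFG hr₀pos hr1 (by
    intro ζ h1 h2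
    rw [hexp]
    exact hN1 ζ h1 h2)
  have hFl := hFLU f g Ω hfg L hLpos
  set A : Set ℂ := {z | z ∈ Ω ∧ Real.exp (-L) < ‖g z‖} with hA
  have hAm : MeasurableSet A := by
    have h1 : ContinuousOn (fun z => ‖g z‖) Ω := hfg.gan.continuousOn.norm
    have h2 := h1.isOpen_inter_preimage hfg.op (isOpen_Ioi (a := Real.exp (-L)))
    exact h2.measurableSet
  have hAW : A ∩ ball z₀ δ = W := by
    ext z
    constructor
    · rintro ⟨h1, h2⟩
      exact ⟨h1.1, h2⟩
    · rintro hz
      refine ⟨⟨hz.1, ?_⟩, hz.2⟩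
      rw [hexp]
      exact lt_of_lt_of_le ht4 (hrW z hz)
  have hBm : MeasurableSet (ball z₀ δ) := measurableSet_ball
  -- off the ball
  have hoff : ∫⁻ z in A \ ball z₀ δ, ENNReal.ofReal (YQ (qG g) φ z) =
      ∫⁻ z in A \ ball z₀ δ, ENNReal.ofReal ‖qG g z‖ := by
    apply setLIntegral_congr_fun_ae (hAm.diff hBm)
    have h1 : ∀ᵐ z : ℂ, z ∉ sphere z₀ δ := by
      rw [ae_iff]
      simp only [not_not]
      exact Measure.addHaar_sphere volume z₀ δ
    filter_upwards [h1] with z hz hzA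
    rw [YQ_off hd]
    intro h2
    rw [mem_closedBall] at h2
    rcases h2.lt_or_eq with h3 | h3
    · exact hzA.2 (mem_ball.2 h3)
    · exact hz (mem_sphere.2 h3)
  have hS1 := lintegral_inter_add_sdiff (μ := volume) (fun z => ENNReal.ofReal ‖qG g z‖) A hBm
  have hS2 := lintegral_inter_add_sdiff (μ := volume)
    (fun z => ENNReal.ofReal (YQ (qG g) φ z)) A hBm
  rw [hAW] at hS1 hS2
  rw [hFl] at hS1
  rw [hoff] at hS2
  have hW1 : ∫⁻ z in W, ENNReal.ofReal ‖qG g z‖ = ENNReal.ofReal Iq :=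
    (ofReal_integral_eq_lintegral_ofReal hqI.norm
      (Filter.Eventually.of_forall fun z => norm_nonneg _)).symm
  have hW2 : ∫⁻ z in W, ENNReal.ofReal (YQ (qG g) φ z) = ENNReal.ofReal (Iq + IX) := by
    rw [← hIY]
    exact (ofReal_integral_eq_lintegral_ofReal hYI
      (Filter.Eventually.of_forall fun z => YQ_nonneg _ _ _ (hd.jac z))).symm
  rw [hW1] at hS1
  rw [hW2] at hS2
  have h2pL : 0 ≤ 2 * π * L := by positivity
  -- the remaining part
  set R : ℝ≥0∞ := ∫⁻ z in A \ ball z₀ δ, ENNReal.ofReal ‖qG g z‖ with hR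
  have hRtop : R ≠ ⊤ := by
    intro h1
    rw [h1, add_top] at hS1
    exact ENNReal.ofReal_ne_top hS1.symm
  have hRr : R = ENNReal.ofReal R.toReal := (ENNReal.ofReal_toReal hRtop).symm
  have hRnn : 0 ≤ R.toReal := ENNReal.toReal_nonneg
  have hReq : Iq + R.toReal = 2 * π * L := by
    rw [hRr, ← ENNReal.ofReal_add hIqnn hRnn] at hS1
    have h1 := congrArg ENNReal.toReal hS1
    rwa [ENNReal.toReal_ofReal (by positivity), ENNReal.toReal_ofReal h2pL] at h1
  have hchain : ENNReal.ofReal (2 * π * (L - e) ^ 2 / Real.log (1 / r₀)) ≤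
      ENNReal.ofReal (Iq + IX + R.toReal) := by
    rw [ENNReal.ofReal_add hIYnn hRnn, ← hRr, hS2]
    exact hE.trans hV
  rw [ENNReal.ofReal_le_ofReal_iff (add_nonneg hIYnn hRnn)] at hchain
  have h2 : 2 * π * (L - e) ^ 2 / Real.log (1 / r₀) ≤ 2 * π * L + IX := by linarith
  have hnn : 0 ≤ 2 * π * L + IX := le_trans (by positivity) h2
  rw [div_le_iff₀ hℓpos] at h2
  have h3 := h2.trans (mul_le_mul_of_nonneg_left hℓle hnn)
  have h4 : 2 * π * (L - e) ^ 2 = 2 * π * L ^ 2 - 4 * π * e * L + 2 * π * e ^ 2 := by ring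
  have h5 : (2 * π * L + IX) * (L + Real.log a) =
      2 * π * L ^ 2 - D * L + IX * Real.log a := by
    rw [hD]
    ring
  rw [h4, h5] at h3
  have h6 : 0 ≤ 2 * π * e ^ 2 := by positivity
  have h7 : 4 * π * e * L < D / 2 * L := by
    apply mul_lt_mul_of_pos_right _ hLpos
    rw [lt_div_iff₀ (by positivity)] at ht1
    linarith
  have h8 : IX * Real.log a < D / 2 * L := by
    rw [div_lt_iff₀ hDpos] at hLbig
    have h9 := le_abs_self (IX * Real.log a)
    linarith
  linarith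

end

end Pool.Agent.Lib.MP250511.SB
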