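import Pool.Agent.Lib.MP_250511_an.SB.SpecZ

/-! # Module ZFA: upper barrier at a two-sided wall point -/

set_option autoImplicit false

namespace Pool.Agent.Lib.MP250511.SB

open Complex Metric Set MeasureTheory Filter Topology
open scoped Real ENNReal ComplexConjugate ContDiff

namespace ZFAM

/-- `|w - t n|² = |w|² - 2 t Re (w conj n) + t²` -/
lemma sq_sub (w n : ℂ) (t : ℝ) (hn : ‖n‖ = 1) :
    ‖w - (t : ℂ) * n‖ ^ 2 = ‖w‖ ^ 2 - 2 * t * (w * conj n).re + t ^ 2 := by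
  have h1 : n.re ^ 2 + n.im ^ 2 = 1 := by
    have h := Complex.normSq_eq_norm_sq n
    rw [hn, Complex.normSq_apply] at h
    nlinarith
  rw [← Complex.normSq_eq_norm_sq, ← Complex.normSq_eq_norm_sq]
  simp only [Complex.normSq_apply, Complex.sub_re, Complex.sub_im, Complex.mul_re, Complex.mul_im,
    Complex.conj_re, Complex.conj_im, Complex.ofReal_re, Complex.ofReal_im]
  linear_combination t ^ 2 * h1

/-- the maximum principle -/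
lemma barrier {f g : ℂ → ℂ} {Ω : Set ℂ} (P : Pair f g Ω) (ζ zk : ℂ) (r₁ s₀ b : ℝ) (m : ℕ)
    (hs0 : 0 < s₀) (hb : 0 < b)
    (hs : ∀ z ∈ Ω, ‖z - ζ‖ ≤ r₁ → s₀ ≤ ‖g z‖) (hbk : ∀ z ∈ Ω, b ≤ ‖z - zk‖)
    (hm : ∀ z ∈ Ω, ‖z - ζ‖ = r₁ → b ^ m ≤ s₀ * ‖z - zk‖ ^ m) :
    ∀ z ∈ Ω, ‖z - ζ‖ < r₁ → b ^ m ≤ ‖g z‖ * ‖z - zk‖ ^ m := by
  have hbm : 0 < b ^ m := pow_pos hb m
  -- the inequality up to `1 - τ`
  have key : ∀ τ : ℝ, 0 < τ → τ < 1 → ∀ z ∈ Ω, ‖z - ζ‖ < r₁ → ‖g z‖ < 1 - τ →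
      (1 - τ) * b ^ m ≤ ‖g z‖ * ‖z - zk‖ ^ m := by
    intro τ hτ hτ1 z hz hzr hgz
    have h1τ : 0 < 1 - τ := by linarith
    obtain ⟨V, hV⟩ : ∃ V : Set ℂ, V = Ω ∩ (ball ζ r₁ ∩ Ω ∩ g ⁻¹' ball 0 (1 - τ)) := ⟨_, rfl⟩
    have hVmem : ∀ w, w ∈ V ↔ w ∈ Ω ∧ ‖w - ζ‖ < r₁ ∧ ‖g w‖ < 1 - τ := by
      intro w
      rw [hV]
      simp only [mem_inter_iff, mem_ball, mem_preimage, dist_eq_norm, sub_zero]
      tauto
    have hgc : ContinuousOn g Ω := P.gan.continuousOn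
    have hVo : IsOpen V := by
      rw [hV]
      refine P.op.inter ?_
      rw [inter_assoc]
      exact isOpen_ball.inter (hgc.isOpen_inter_preimage P.op isOpen_ball)
    have hcl : ∀ w ∈ closure V, w ∈ Ω ∧ ‖w - ζ‖ ≤ r₁ ∧ ‖g w‖ ≤ 1 - τ := by
      intro w hw
      have hwΩ : w ∈ Ω := by
        by_contra hn
        obtain ⟨δ, hδ, hδ'⟩ := P.bd w hn (1 - τ) (by linarith)
        obtain ⟨w', hw', hd⟩ := Metric.mem_closure_iff.mp hw δ hδ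
        rw [dist_comm] at hd
        have h1 := (hVmem w').mp hw'
        linarith [hδ' w' h1.1 hd]
      refine ⟨hwΩ, ?_, ?_⟩
      · have h1 : w ∈ closedBall ζ r₁ := by
          refine closure_minimal ?_ isClosed_closedBall hw
          intro w' hw'
          rw [mem_closedBall, dist_eq_norm]
          exact ((hVmem w').mp hw').2.1.le
        rwa [mem_closedBall, dist_eq_norm] at h1
      · have hca : ContinuousAt (fun w => ‖g w‖) w :=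
          (hgc.continuousAt (P.op.mem_nhds hwΩ)).norm
        by_contra hn
        push Not at hn
        have h1 : ∀ᶠ w' in 𝓝 w, 1 - τ < ‖g w'‖ := hca.eventually (lt_mem_nhds hn)
        obtain ⟨w', h2, h3⟩ := (mem_closure_iff_nhds.mp hw _ h1)
        have h4 := ((hVmem w').mp h3).2.2
        have h5 : 1 - τ < ‖g w'‖ := h2
        linarith
    have hzkΩ : ∀ w ∈ Ω, w - zk ≠ 0 := by
      intro w hw h0
      have h1 := hbk w hw
      rw [h0, norm_zero] at h1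
      linarith
    have hg0 : ∀ w ∈ Ω, ‖w - ζ‖ ≤ r₁ → g w ≠ 0 := by
      intro w hw hwr h0
      have h1 := hs w hw hwr
      rw [h0, norm_zero] at h1
      linarith
    let H : ℂ → ℂ := fun w => ((b ^ m : ℝ) : ℂ) / (g w * (w - zk) ^ m)
    have hHn : ∀ w, ‖H w‖ = b ^ m / (‖g w‖ * ‖w - zk‖ ^ m) := by
      intro w
      show ‖((b ^ m : ℝ) : ℂ) / (g w * (w - zk) ^ m)‖ = _
      rw [norm_div, norm_mul, norm_pow, Complex.norm_real, Real.norm_eq_abs, abs_of_pos hbm]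
    have hdiff : DifferentiableOn ℂ H (closure V) := by
      intro w hw
      obtain ⟨h1, h2, -⟩ := hcl w hw
      have h3 : DifferentiableAt ℂ g w := (P.gan w h1).differentiableAt
      have h4 : g w * (w - zk) ^ m ≠ 0 := mul_ne_zero (hg0 w h1 h2) (pow_ne_zero _ (hzkΩ w h1))
      exact ((differentiableAt_const _).div
        (h3.mul ((differentiableAt_id.sub (differentiableAt_const _)).pow m)) h4).differentiableWithinAt
    have hbd : Bornology.IsBounded V := by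
      refine (isBounded_ball (x := ζ) (r := r₁)).subset ?_
      intro w hw
      rw [mem_ball, dist_eq_norm]
      exact ((hVmem w).mp hw).2.1
    have hfr : ∀ w ∈ frontier V, ‖H w‖ ≤ 1 / (1 - τ) := by
      intro w hw
      rw [frontier, hVo.interior_eq] at hw
      obtain ⟨h1, h2, h3⟩ := hcl w hw.1
      have hk : b ≤ ‖w - zk‖ := hbk w h1
      have hkm : b ^ m ≤ ‖w - zk‖ ^ m := pow_le_pow_left₀ hb.le hk m
      have hkp : 0 < ‖w - zk‖ ^ m := hbm.trans_le hkm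
      have hgp : 0 < ‖g w‖ := norm_pos_iff.mpr (hg0 w h1 h2)
      rw [hHn, div_le_div_iff₀ (mul_pos hgp hkp) h1τ, one_mul]
      rcases h2.lt_or_eq with h4 | h4
      · have h5 : ‖g w‖ = 1 - τ := by
          rcases h3.lt_or_eq with h5 | h5
          · exact absurd ((hVmem w).mpr ⟨h1, h4, h5⟩) hw.2
          · exact h5
        rw [h5, mul_comm (b ^ m)]
        exact mul_le_mul_of_nonneg_left hkm h1τ.le
      · have h5 := hm w h1 h4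
        have h6 := hs w h1 h2
        calc b ^ m * (1 - τ) ≤ b ^ m := by nlinarith
          _ ≤ s₀ * ‖w - zk‖ ^ m := h5
          _ ≤ ‖g w‖ * ‖w - zk‖ ^ m := by gcongr
    have hzV : z ∈ V := (hVmem z).mpr ⟨hz, hzr, hgz⟩
    have hmax := Complex.norm_le_of_forall_mem_frontier_norm_le hbd hdiff.diffContOnCl hfr
      (subset_closure hzV)
    have hk : b ≤ ‖z - zk‖ := hbk z hz
    have hkp : 0 < ‖z - zk‖ ^ m := hbm.trans_le (pow_le_pow_left₀ hb.le hk m)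
    have hgp : 0 < ‖g z‖ := norm_pos_iff.mpr (hg0 z hz hzr.le)
    rw [hHn, div_le_div_iff₀ (mul_pos hgp hkp) h1τ, one_mul] at hmax
    linarith
  -- `τ → 0`
  intro z hz hzr
  have hgz := P.gm z hz
  have hg0 : 0 < ‖g z‖ := lt_of_lt_of_le hs0 (hs z hz hzr.le)
  by_contra hn
  push Not at hn
  have hX : 0 ≤ ‖g z‖ * ‖z - zk‖ ^ m := by positivity
  obtain ⟨τ, hτ⟩ : ∃ τ : ℝ, τ = min ((1 - ‖g z‖) / 2)
    ((b ^ m - ‖g z‖ * ‖z - zk‖ ^ m) / (2 * b ^ m)) := ⟨_, rfl⟩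
  have hτ0 : 0 < τ := by
    rw [hτ]
    refine lt_min (by linarith) (div_pos (by linarith) (by linarith))
  have hτ1 : τ ≤ (1 - ‖g z‖) / 2 := by rw [hτ]; exact min_le_left _ _
  have hτ2 : τ ≤ (b ^ m - ‖g z‖ * ‖z - zk‖ ^ m) / (2 * b ^ m) := by rw [hτ]; exact min_le_right _ _
  have h1 := key τ hτ0 (by linarith) z hz hzr (by linarith)
  rw [le_div_iff₀ (by linarith)] at hτ2
  nlinarith

end ZFAM

open ZFAM in
theorem specZFA : SpecZFA := by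
  intro f g Ω ρ κ c ζ P hρ hκ T
  obtain ⟨n, hn⟩ : ∃ n : ℂ, n = (ζ - c) / (ρ : ℂ) := ⟨_, rfl⟩
  have hin := T.inner
  rw [← hn] at hin ⊢
  have hn1 : ‖n‖ = 1 := by
    rw [hn, norm_div, Complex.norm_real, Real.norm_eq_abs, abs_of_pos hρ, ← dist_eq_norm,
      T.dist_eq, div_self hρ.ne']
  -- `0 ∈ Ω`
  have h0Ω : (0 : ℂ) ∈ Ω := by
    rw [← P.im]
    exact ⟨0, mem_ball_self one_pos, P.zero⟩
  have hζ0 : 0 < ‖ζ‖ := by
    rw [norm_pos_iff]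
    rintro rfl
    exact T.out h0Ω
  -- `s₀`
  have hfc : ContinuousAt f 0 := (P.an 0 (mem_ball_self one_pos)).continuousAt
  obtain ⟨s₀, hs0, hs0'⟩ := Metric.continuousAt_iff.mp hfc (‖ζ‖ / 2) (by linarith)
  have hs : ∀ z ∈ Ω, ‖z - ζ‖ ≤ ‖ζ‖ / 2 → s₀ ≤ ‖g z‖ := by
    intro z hz hzr
    by_contra hc
    push Not at hc
    have h1 := hs0' (x := g z) (by rw [dist_zero_right]; exact hc)
    rw [P.FG z hz, P.zero, dist_zero_right] at h1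
    have h2 : ‖ζ‖ ≤ ‖z‖ + ‖z - ζ‖ := by
      have h3 : ζ = z - (z - ζ) := by ring
      calc ‖ζ‖ = ‖z - (z - ζ)‖ := by rw [← h3]
        _ ≤ ‖z‖ + ‖z - ζ‖ := norm_sub_le _ _
    linarith
  -- the geometry
  have hsq : ∀ (z : ℂ) (t : ℝ), ‖z - (ζ + (t : ℂ) * n)‖ ^ 2 =
      ‖z - ζ‖ ^ 2 - 2 * t * xx ζ n z + t ^ 2 := by
    intro z t
    have h1 := sq_sub (z - ζ) n t hn1
    rw [show z - (ζ + (t : ℂ) * n) = z - ζ - (t : ℂ) * n by ring]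
    exact h1
  have hout : ∀ z ∈ Ω, 2 * κ * xx ζ n z ≤ ‖z - ζ‖ ^ 2 := by
    intro z hz
    have h1 : κ ≤ ‖z - (ζ + (κ : ℂ) * n)‖ := by
      by_contra hc
      push Not at hc
      exact hin (by rw [mem_ball, dist_eq_norm]; exact hc) hz
    have h2 := hsq z κ
    have h3 : κ ^ 2 ≤ ‖z - (ζ + (κ : ℂ) * n)‖ ^ 2 := pow_le_pow_left₀ hκ.le h1 2
    linarith
  obtain ⟨zk, hzk⟩ : ∃ zk : ℂ, zk = ζ + ((κ / 2 : ℝ) : ℂ) * n := ⟨_, rfl⟩
  have hk2 : ∀ z : ℂ, ‖z - zk‖ ^ 2 = ‖z - ζ‖ ^ 2 - κ * xx ζ n z + κ ^ 2 / 4 := by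
    intro z
    rw [hzk, hsq z (κ / 2)]
    ring
  have hk3 : ∀ z ∈ Ω, ‖z - ζ‖ ^ 2 / 2 + κ ^ 2 / 4 ≤ ‖z - zk‖ ^ 2 := by
    intro z hz
    rw [hk2 z]
    linarith [hout z hz]
  have hbk : ∀ z ∈ Ω, κ / 2 ≤ ‖z - zk‖ := by
    intro z hz
    have h1 := hk3 z hz
    have h2 : (κ / 2) ^ 2 ≤ ‖z - zk‖ ^ 2 := by nlinarith [sq_nonneg ‖z - ζ‖]
    exact (pow_le_pow_iff_left₀ (by linarith) (norm_nonneg _) two_ne_zero).mp h2
  -- the exponent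
  obtain ⟨q, hq⟩ : ∃ q : ℝ, q = 1 + 2 * (‖ζ‖ / 2) ^ 2 / κ ^ 2 := ⟨_, rfl⟩
  have hq1 : 1 < q := by
    rw [hq]
    have h1 : 0 < 2 * (‖ζ‖ / 2) ^ 2 / κ ^ 2 := by positivity
    linarith
  obtain ⟨m, hm⟩ := pow_unbounded_of_one_lt (1 / s₀ ^ 2) hq1
  have hmb : ∀ z ∈ Ω, ‖z - ζ‖ = ‖ζ‖ / 2 → (κ / 2) ^ m ≤ s₀ * ‖z - zk‖ ^ m := by
    intro z hz hzr
    have h1 := hk3 z hz
    rw [hzr] at h1
    have h2 : (κ / 2) ^ 2 * q ≤ ‖z - zk‖ ^ 2 := by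
      refine le_trans (le_of_eq ?_) h1
      rw [hq]
      field_simp
      ring
    have h3 : ((κ / 2) ^ 2 * q) ^ m ≤ (‖z - zk‖ ^ 2) ^ m :=
      pow_le_pow_left₀ (by positivity) h2 m
    have h4 : 1 ≤ s₀ ^ 2 * q ^ m := by
      rw [div_lt_iff₀ (by positivity)] at hm
      linarith
    have h5 : ((κ / 2) ^ m) ^ 2 ≤ (s₀ * ‖z - zk‖ ^ m) ^ 2 := by
      calc ((κ / 2) ^ m) ^ 2 = ((κ / 2) ^ 2) ^ m * 1 := by
            rw [mul_one, ← pow_mul, ← pow_mul, mul_comm m 2]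
        _ ≤ ((κ / 2) ^ 2) ^ m * (s₀ ^ 2 * q ^ m) := by gcongr
        _ = s₀ ^ 2 * ((κ / 2) ^ 2 * q) ^ m := by rw [mul_pow ((κ / 2) ^ 2) q m]; ring
        _ ≤ s₀ ^ 2 * (‖z - zk‖ ^ 2) ^ m := by gcongr
        _ = (s₀ * ‖z - zk‖ ^ m) ^ 2 := by
            rw [mul_pow, ← pow_mul, ← pow_mul, mul_comm m 2]
    exact (pow_le_pow_iff_left₀ (by positivity) (by positivity) two_ne_zero).mp h5
  have hbar := barrier P ζ zk (‖ζ‖ / 2) s₀ (κ / 2) m hs0 (by linarith) hs hbk hmb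
  refine ⟨2 * m / κ ^ 2 + 2 * m / κ + 1, by positivity, ‖ζ‖ / 2, by linarith, ?_⟩
  intro z hzr
  have hmx : 0 ≤ max 0 (-xx ζ n z) := le_max_left _ _
  have hA : 0 ≤ 2 * (m : ℝ) / κ ^ 2 + 2 * m / κ + 1 := by positivity
  by_cases hz : z ∈ Ω
  · rw [Gt, if_pos hz]
    have hgp : 0 < ‖g z‖ := lt_of_lt_of_le hs0 (hs z hz hzr.le)
    have hkp : 0 < ‖z - zk‖ := lt_of_lt_of_le (by linarith) (hbk z hz)
    have h1 := Real.log_le_log (by positivity) (hbar z hz hzr)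
    rw [Real.log_pow, Real.log_mul hgp.ne' (by positivity), Real.log_pow] at h1
    have h2 := Real.log_le_sub_one_of_pos (x := ‖z - zk‖ ^ 2 / (κ / 2) ^ 2) (by positivity)
    rw [Real.log_div (by positivity) (by positivity), Real.log_pow, Real.log_pow, hk2 z] at h2
    push_cast at h2
    have h3 : (‖z - ζ‖ ^ 2 - κ * xx ζ n z + κ ^ 2 / 4) / (κ / 2) ^ 2 - 1 =
        4 / κ ^ 2 * ‖z - ζ‖ ^ 2 + 4 / κ * (-xx ζ n z) := by
      field_simp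
      ring
    rw [h3] at h2
    have hm0 : (0 : ℝ) ≤ m := Nat.cast_nonneg m
    have h4 : -Real.log ‖g z‖ ≤ m / 2 * (4 / κ ^ 2 * ‖z - ζ‖ ^ 2 + 4 / κ * (-xx ζ n z)) := by
      have h5 := mul_le_mul_of_nonneg_left h2 (show (0 : ℝ) ≤ m / 2 by positivity)
      linarith
    have h6 : (m : ℝ) / 2 * (4 / κ ^ 2 * ‖z - ζ‖ ^ 2 + 4 / κ * (-xx ζ n z)) =
        2 * m / κ ^ 2 * ‖z - ζ‖ ^ 2 + 2 * m / κ * (-xx ζ n z) := by
      ring
    rw [h6] at h4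
    have h7 : 2 * (m : ℝ) / κ * (-xx ζ n z) ≤ 2 * m / κ * max 0 (-xx ζ n z) :=
      mul_le_mul_of_nonneg_left (le_max_right _ _) (by positivity)
    have h8 : 0 ≤ 2 * (m : ℝ) / κ ^ 2 * max 0 (-xx ζ n z) := by positivity
    have h9 : 0 ≤ 2 * (m : ℝ) / κ * ‖z - ζ‖ ^ 2 := by positivity
    have h10 : 0 ≤ ‖z - ζ‖ ^ 2 := sq_nonneg _
    nlinarith
  · rw [Gt, if_neg hz]
    positivity

end Pool.Agent.Lib.MP250511.SB
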