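import Pool.Agent.Lib.MP_250511_an.SB.SpecZ

/-!
# MP_250511_an, module ZFB: the asymptotics at a two-sided wall point
-/

set_option autoImplicit false

namespace Pool.Agent.Lib.MP250511.SB

open Complex Metric Set MeasureTheory Filter Topology
open scoped Real ENNReal ComplexConjugate ContDiff

namespace ZFBM

theorem norm_sq_add (w : ℂ) (R : ℝ) :
    ‖w + (R : ℂ)‖ ^ 2 = ‖w‖ ^ 2 + 2 * R * w.re + R ^ 2 := by
  rw [← Complex.normSq_eq_norm_sq, ← Complex.normSq_eq_norm_sq, Complex.normSq_apply,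
    Complex.normSq_apply]
  simp only [add_re, ofReal_re, add_im, ofReal_im]
  ring

theorem re_sphere {R : ℝ} {t : ℂ} (hR : 0 < R) (ht : ‖t + (R : ℂ)‖ = R) :
    -t.re = ‖t‖ ^ 2 / (2 * R) := by
  have h := norm_sq_add t R
  rw [ht] at h
  field_simp
  linarith

/-- the distance to the circle in a Stolz angle -/
theorem stolz {R θ : ℝ} {t w : ℂ} (hR : 0 < R) (hθ : 0 < θ) (hθ1 : θ ≤ 1)
    (ht : ‖t + (R : ℂ)‖ = R) (hw : θ * ‖w‖ ≤ - w.re) (hw' : ‖w‖ ≤ R * θ) :
    ‖t‖ ≤ (1 + 2 / θ) * ‖t - w‖ := by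
  have h1 := norm_sq_add w R
  have hn : 0 ≤ ‖w‖ := norm_nonneg w
  have h2 : θ * ‖w‖ ≤ R := by
    calc θ * ‖w‖ ≤ 1 * (R * θ) := mul_le_mul hθ1 hw' hn zero_le_one
      _ ≤ R := by nlinarith
  have h3 : ‖w + (R : ℂ)‖ ^ 2 ≤ (R - θ * ‖w‖ / 2) ^ 2 := by
    have h4 : ‖w‖ ^ 2 ≤ R * θ * ‖w‖ := by nlinarith
    have h5 : 2 * R * w.re ≤ - (2 * R * (θ * ‖w‖)) := by nlinarith
    have h6 : 0 ≤ (θ * ‖w‖) ^ 2 := sq_nonneg _
    rw [h1]
    nlinarith
  have h7 : ‖w + (R : ℂ)‖ ≤ R - θ * ‖w‖ / 2 := by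
    have h8 : 0 ≤ R - θ * ‖w‖ / 2 := by
      have : 0 ≤ θ * ‖w‖ := by positivity
      linarith
    exact (pow_le_pow_iff_left₀ (norm_nonneg _) h8 two_ne_zero).1 h3
  have h9 : ‖t + (R : ℂ)‖ ≤ ‖t - w‖ + ‖w + (R : ℂ)‖ := by
    have := norm_add_le (t - w) (w + (R : ℂ))
    have e : t - w + (w + (R : ℂ)) = t + R := by ring
    rwa [e] at this
  have h10 : ‖w‖ ≤ 2 / θ * ‖t - w‖ := by
    rw [div_mul_eq_mul_div, le_div_iff₀ hθ]
    rw [ht] at h9
    linarith
  have h11 : ‖t‖ ≤ ‖t - w‖ + ‖w‖ := by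
    have := norm_add_le (t - w) w
    rwa [sub_add_cancel] at this
  linarith

theorem tendsto_avg {K : ℂ → ℝ} {R B θ : ℝ} (hR : 0 < R) (hθ : 0 < θ) (hθ1 : θ ≤ 1) (hB : 0 ≤ B)
    (hc : ContinuousOn K (closedBall (-(R : ℂ)) R)) (h0 : ∀ w, 0 ≤ K w)
    (hK : ∀ t : ℂ, ‖t + (R : ℂ)‖ = R → K t ≤ B * ‖t‖ ^ 2) :
    Tendsto (fun w : ℂ => Real.circleAverage (fun t => K t / ‖t - w‖ ^ 2) (-(R : ℂ)) R)
      (𝓝[{w : ℂ | θ * ‖w‖ ≤ - w.re}] 0)
      (𝓝 (Real.circleAverage (fun t => K t / ‖t‖ ^ 2) (-(R : ℂ)) R)) := by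
  have hcm : ∀ x : ℝ, ‖circleMap (-(R : ℂ)) R x + (R : ℂ)‖ = R := by
    intro x
    have h := circleMap_mem_sphere' (-(R : ℂ)) R x
    rw [mem_sphere, dist_eq_norm, sub_neg_eq_add, abs_of_pos hR] at h
    exact h
  have hKc : Continuous fun x : ℝ => K (circleMap (-(R : ℂ)) R x) := by
    refine hc.comp_continuous (continuous_circleMap _ _) fun x => ?_
    rw [mem_closedBall, dist_eq_norm, sub_neg_eq_add]
    exact (hcm x).le
  unfold Real.circleAverage
  refine Tendsto.const_smul ?_ _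
  refine intervalIntegral.tendsto_integral_filter_of_dominated_convergence
    (fun _ => B * (1 + 2 / θ) ^ 2) ?_ ?_ ?_ ?_
  · refine Eventually.of_forall fun w => ?_
    have h1 : Continuous fun x : ℝ => ‖circleMap (-(R : ℂ)) R x - w‖ ^ 2 :=
      (((continuous_circleMap _ _).sub continuous_const).norm).pow 2
    exact (hKc.measurable.div h1.measurable).aestronglyMeasurable
  · filter_upwards [self_mem_nhdsWithin,
      mem_nhdsWithin_of_mem_nhds (ball_mem_nhds (0 : ℂ) (mul_pos hR hθ))] with w hw1 hw2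
    refine Eventually.of_forall fun x _ => ?_
    have hw2' : ‖w‖ ≤ R * θ := by
      rw [mem_ball_zero_iff] at hw2
      exact hw2.le
    have h1 := stolz hR hθ hθ1 (hcm x) hw1 hw2'
    have h2 := hK _ (hcm x)
    rw [Real.norm_of_nonneg (div_nonneg (h0 _) (sq_nonneg _))]
    rcases (norm_nonneg (circleMap (-(R : ℂ)) R x - w)).eq_or_lt with h3 | h3
    · rw [← h3]
      simp only [ne_eq, OfNat.ofNat_ne_zero, not_false_eq_true, zero_pow, div_zero]
      positivity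
    · rw [div_le_iff₀ (by positivity)]
      refine h2.trans ?_
      rw [mul_assoc, ← mul_pow]
      exact mul_le_mul_of_nonneg_left (pow_le_pow_left₀ (norm_nonneg _) h1 2) hB
  · exact intervalIntegrable_const
  · have hcnt : {x : ℝ | circleMap (-(R : ℂ)) R x = 0}.Countable := by
      have := (Set.countable_singleton (0 : ℂ)).preimage_circleMap (-(R : ℂ)) hR.ne'
      exact this
    have hae := (compl_mem_ae_iff (μ := volume)).2 (hcnt.measure_zero volume)
    filter_upwards [hae] with x hx _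
    have hx' : circleMap (-(R : ℂ)) R x ≠ 0 := hx
    have h1 : ContinuousAt (fun w : ℂ => K (circleMap (-(R : ℂ)) R x) /
        ‖circleMap (-(R : ℂ)) R x - w‖ ^ 2) 0 := by
      refine ContinuousAt.div continuousAt_const ?_ ?_
      · exact ((continuousAt_const.sub continuousAt_id).norm).pow 2
      · rw [sub_zero]
        positivity
    have h2 := h1.tendsto.mono_left (nhdsWithin_le_nhds (s := {w : ℂ | θ * ‖w‖ ≤ - w.re}))
    rw [sub_zero] at h2
    exact h2

/-- the Poisson formula in our disc -/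
theorem poisson {K : ℂ → ℝ} {R : ℝ} (hR : 0 < R)
    (hH : InnerProductSpace.HarmonicContOnCl K (ball (-(R : ℂ)) R)) (w : ℂ)
    (hw : ‖w‖ ^ 2 < -(2 * R * w.re)) :
    K w = (-(2 * R * w.re) - ‖w‖ ^ 2) *
      Real.circleAverage (fun t => K t / ‖t - w‖ ^ 2) (-(R : ℂ)) R := by
  have hwb : w ∈ ball (-(R : ℂ)) R := by
    rw [mem_ball, dist_eq_norm, sub_neg_eq_add]
    have h1 := norm_sq_add w R
    have h2 : ‖w + (R : ℂ)‖ ^ 2 < R ^ 2 := by linarith
    exact lt_of_pow_lt_pow_left₀ 2 hR.le h2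
  rw [← hH.circleAverage_poissonKernel_smul hwb]
  have h3 : EqOn (poissonKernel (-(R : ℂ)) w • K)
      (fun t => (-(2 * R * w.re) - ‖w‖ ^ 2) • (K t / ‖t - w‖ ^ 2)) (sphere (-(R : ℂ)) |R|) := by
    intro t ht
    rw [mem_sphere, dist_eq_norm, abs_of_pos hR] at ht
    simp only [Pi.smul_apply', smul_eq_mul]
    rw [poissonKernel_def, ht]
    have e1 : t - -(R : ℂ) - (w - -(R : ℂ)) = t - w := by ring
    have e2 : ‖w - -(R : ℂ)‖ ^ 2 = ‖w‖ ^ 2 + 2 * R * w.re + R ^ 2 := by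
      rw [sub_neg_eq_add, norm_sq_add]
    rw [e1, e2]
    ring
  rw [Real.circleAverage_congr_sphere h3, Real.circleAverage_fun_smul, smul_eq_mul]

/-- the abstract statement -/
theorem asymp {K : ℂ → ℝ} {R A r₀ : ℝ} (hR : 0 < R) (hA : 0 < A) (hr₀ : 0 < r₀)
    (h0 : ∀ w, 0 ≤ K w)
    (hup : ∀ w : ℂ, ‖w‖ < r₀ → K w ≤ A * (max 0 (-w.re) + ‖w‖ ^ 2))
    (hH : InnerProductSpace.HarmonicContOnCl K (ball (-(R : ℂ)) R)) :
    ∃ a : ℝ, ∀ ε > 0, ∃ r > 0, ∀ w : ℂ, ‖w‖ < r → |K w - a * max 0 (-w.re)| ≤ ε * ‖w‖ := by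
  have hc := hH.continuousOn_ball
  -- the bound on the circle
  obtain ⟨B, hB, hKB⟩ : ∃ B : ℝ, 0 ≤ B ∧ ∀ t : ℂ, ‖t + (R : ℂ)‖ = R → K t ≤ B * ‖t‖ ^ 2 := by
    obtain ⟨M₀, hM₀⟩ := (isCompact_closedBall (-(R : ℂ)) R).exists_bound_of_continuousOn hc
    have hM₀' : 0 ≤ M₀ := by
      refine (norm_nonneg _).trans (hM₀ (-(R : ℂ)) (mem_closedBall_self hR.le))
    refine ⟨A * (1 / (2 * R) + 1) + M₀ / r₀ ^ 2, by positivity, fun t ht => ?_⟩
    have hre := re_sphere hR ht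
    have hsq : 0 ≤ ‖t‖ ^ 2 := sq_nonneg _
    rcases lt_or_ge ‖t‖ r₀ with h | h
    · have h1 := hup t h
      have h2 : max 0 (-t.re) = ‖t‖ ^ 2 / (2 * R) := by
        rw [hre]
        exact max_eq_right (by positivity)
      rw [h2] at h1
      have h3 : A * (‖t‖ ^ 2 / (2 * R) + ‖t‖ ^ 2) = A * (1 / (2 * R) + 1) * ‖t‖ ^ 2 := by ring
      have h4 : 0 ≤ M₀ / r₀ ^ 2 * ‖t‖ ^ 2 := by positivity
      rw [h3] at h1
      linarith
    · have h1 := hM₀ t (by
        rw [mem_closedBall, dist_eq_norm, sub_neg_eq_add]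
        exact ht.le)
      rw [Real.norm_of_nonneg (h0 t)] at h1
      have h2 : M₀ ≤ M₀ / r₀ ^ 2 * ‖t‖ ^ 2 := by
        rw [div_mul_eq_mul_div, le_div_iff₀ (by positivity)]
        exact mul_le_mul_of_nonneg_left (pow_le_pow_left₀ hr₀.le h 2) hM₀'
      have h3 : 0 ≤ A * (1 / (2 * R) + 1) * ‖t‖ ^ 2 := by positivity
      linarith
  set M0 : ℝ := Real.circleAverage (fun t => K t / ‖t‖ ^ 2) (-(R : ℂ)) R with hM0
  have hM0p : 0 ≤ M0 := Real.circleAverage_nonneg_of_nonneg fun t _ =>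
    div_nonneg (h0 t) (sq_nonneg _)
  have ha : 0 ≤ 2 * R * M0 := by positivity
  refine ⟨2 * R * M0, fun ε hε => ?_⟩
  set a : ℝ := 2 * R * M0 with hadef
  set θ : ℝ := min 1 (ε / (2 * (A + a + 1))) with hθdef
  have hθ : 0 < θ := lt_min one_pos (by positivity)
  have hθ1 : θ ≤ 1 := min_le_left _ _
  have hθ2 : θ * (A + a + 1) ≤ ε / 2 := by
    have h1 : θ ≤ ε / (2 * (A + a + 1)) := min_le_right _ _
    rw [le_div_iff₀ (by positivity)] at h1
    linarith
  have hT := tendsto_avg hR hθ hθ1 hB hc h0 hKB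
  obtain ⟨δ, hδ, hM⟩ := Metric.tendsto_nhdsWithin_nhds.1 hT (ε / (4 * R)) (by positivity)
  set M1 : ℝ := M0 + ε / (4 * R) with hM1
  have hM1p : 0 < M1 := by positivity
  refine ⟨min (min δ r₀) (min (2 * R * θ) (min (ε / (2 * M1)) (ε / (2 * A)))), by positivity,
    fun w hw => ?_⟩
  rw [lt_min_iff, lt_min_iff, lt_min_iff, lt_min_iff] at hw
  obtain ⟨⟨hw1, hw2⟩, hw3, hw4, hw5⟩ := hw
  have hn : 0 ≤ ‖w‖ := norm_nonneg w
  by_cases hs : θ * ‖w‖ ≤ - w.re
  · -- the Stolz angle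
    rcases hn.eq_or_lt with hz | hz
    · have hwz : w = 0 := norm_eq_zero.1 hz.symm
      have h1 := hup w hw2
      rw [hwz] at h1 ⊢
      simp only [zero_re, neg_zero, max_self, norm_zero, ne_eq, OfNat.ofNat_ne_zero,
        not_false_eq_true, zero_pow, add_zero, mul_zero, sub_zero] at h1 ⊢
      rw [abs_of_nonneg (h0 0)]
      exact h1
    · have hin : ‖w‖ ^ 2 < -(2 * R * w.re) := by
        have h1 : ‖w‖ ^ 2 < 2 * R * θ * ‖w‖ := by nlinarith
        have h2 : 2 * R * (θ * ‖w‖) ≤ 2 * R * (-w.re) :=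
          mul_le_mul_of_nonneg_left hs (by positivity)
        linarith
      have hP := poisson hR hH w hin
      have hd := hM hs (by rw [dist_zero_right]; exact hw1)
      set Mw : ℝ := Real.circleAverage (fun t => K t / ‖t - w‖ ^ 2) (-(R : ℂ)) R with hMw
      rw [Real.dist_eq] at hd
      have hmax : max 0 (-w.re) = -w.re := max_eq_right (by
        have : 0 ≤ θ * ‖w‖ := by positivity
        linarith)
      have hMwle : |Mw| ≤ M1 := by
        have h1 : |Mw| ≤ |Mw - M0| + |M0| := by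
          have := abs_add_le (Mw - M0) M0
          rwa [sub_add_cancel] at this
        rw [abs_of_nonneg hM0p] at h1
        linarith
      have hre : |w.re| ≤ ‖w‖ := Complex.abs_re_le_norm w
      rw [hmax, hP]
      have e : (-(2 * R * w.re) - ‖w‖ ^ 2) * Mw - a * -w.re =
          -(2 * R * w.re * (Mw - M0)) - ‖w‖ ^ 2 * Mw := by
        rw [hadef]
        ring
      rw [e]
      have h3 : |2 * R * w.re * (Mw - M0)| ≤ ε / 2 * ‖w‖ := by
        rw [abs_mul, abs_mul, abs_of_pos (by positivity : (0 : ℝ) < 2 * R)]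
        calc 2 * R * |w.re| * |Mw - M0| ≤ 2 * R * ‖w‖ * (ε / (4 * R)) := by
              apply mul_le_mul _ hd.le (abs_nonneg _) (by positivity)
              exact mul_le_mul_of_nonneg_left hre (by positivity)
          _ = ε / 2 * ‖w‖ := by
              field_simp
              ring
      have h4 : |‖w‖ ^ 2 * Mw| ≤ ε / 2 * ‖w‖ := by
        rw [abs_mul, abs_of_nonneg (sq_nonneg _)]
        have h5 : ‖w‖ * M1 ≤ ε / 2 := by
          rw [lt_div_iff₀ (by positivity)] at hw4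
          linarith
        calc ‖w‖ ^ 2 * |Mw| ≤ ‖w‖ ^ 2 * M1 := mul_le_mul_of_nonneg_left hMwle (sq_nonneg _)
          _ = ‖w‖ * M1 * ‖w‖ := by ring
          _ ≤ ε / 2 * ‖w‖ := mul_le_mul_of_nonneg_right h5 hn
      calc |-(2 * R * w.re * (Mw - M0)) - ‖w‖ ^ 2 * Mw| ≤
            |-(2 * R * w.re * (Mw - M0))| + |‖w‖ ^ 2 * Mw| := abs_sub _ _
        _ = |2 * R * w.re * (Mw - M0)| + |‖w‖ ^ 2 * Mw| := by rw [abs_neg]
        _ ≤ ε * ‖w‖ := by linarith
  · rw [not_le] at hs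
    have hmax : max 0 (-w.re) ≤ θ * ‖w‖ := max_le (by positivity) hs.le
    have hmax0 : 0 ≤ max 0 (-w.re) := le_max_left _ _
    have h1 := hup w hw2
    have h2 : A * ‖w‖ ≤ ε / 2 := by
      rw [lt_div_iff₀ (by positivity)] at hw5
      linarith
    have h3 : K w ≤ A * (θ * ‖w‖) + A * ‖w‖ * ‖w‖ := by
      calc K w ≤ A * (max 0 (-w.re) + ‖w‖ ^ 2) := h1
        _ ≤ A * (θ * ‖w‖ + ‖w‖ ^ 2) := by
            apply mul_le_mul_of_nonneg_left _ hA.le
            linarith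
        _ = _ := by ring
    have h4 : a * max 0 (-w.re) ≤ a * (θ * ‖w‖) := mul_le_mul_of_nonneg_left hmax ha
    have h5 : A * ‖w‖ * ‖w‖ ≤ ε / 2 * ‖w‖ := mul_le_mul_of_nonneg_right h2 hn
    have h6 : θ * (A + a + 1) * ‖w‖ ≤ ε / 2 * ‖w‖ := mul_le_mul_of_nonneg_right hθ2 hn
    have h7 : 0 ≤ a * max 0 (-w.re) := by positivity
    have h8 : 0 ≤ θ * ‖w‖ := by positivity
    have h9 := h0 w
    rw [abs_le]
    constructor
    · nlinarith
    · nlinarith

end ZFBM

open ZFBM in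
theorem specZFB (hPIK : SpecPIK) (hZFA : SpecZFA) : SpecZFB := by
  intro f g Ω ρ κ c ζ hP hρ hκ hTW
  obtain ⟨A, hA, r₀, hr₀, hup⟩ := hZFA f g Ω ρ κ c ζ hP hρ hκ hTW
  have hρc : (ρ : ℂ) ≠ 0 := by exact_mod_cast hρ.ne'
  set n : ℂ := (ζ - c) / (ρ : ℂ) with hn
  have hζc : ζ - c = (ρ : ℂ) * n := by
    rw [hn]
    field_simp
  have hn1 : ‖n‖ = 1 := by
    rw [hn, norm_div, Complex.norm_real, Real.norm_of_nonneg hρ.le, ← dist_eq_norm, hTW.dist_eq,
      div_self hρ.ne']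
  have hnn : n * conj n = 1 := by
    rw [Complex.mul_conj, Complex.normSq_eq_norm_sq, hn1]
    norm_num
  have h0Ω : (0 : ℂ) ∈ Ω := by
    rw [← hP.im]
    exact ⟨0, mem_ball_self one_pos, hP.zero⟩
  have hζ0 : ζ ≠ 0 := by
    intro h
    exact hTW.out (h ▸ h0Ω)
  have hζp : 0 < ‖ζ‖ := norm_pos_iff.2 hζ0
  have hg0 : ∀ z ∈ Ω, z ≠ 0 → g z ≠ 0 := by
    intro z hz hz0 h
    apply hz0
    rw [← hP.FG z hz, h, hP.zero]
  set R : ℝ := min (ρ / 2) (‖ζ‖ / 4) with hR
  have hRp : 0 < R := lt_min (by positivity) (by positivity)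
  have hRρ : R < ρ := lt_of_le_of_lt (min_le_left _ _) (by linarith)
  have hRζ : R ≤ ‖ζ‖ / 4 := min_le_right _ _
  set K : ℂ → ℝ := fun w => Gt g Ω (ζ + w * n) with hK
  have hshift : ∀ w : ℂ, ‖ζ + w * n - ζ‖ = ‖w‖ := by
    intro w
    rw [add_sub_cancel_left, norm_mul, hn1, mul_one]
  have hxx : ∀ w : ℂ, xx ζ n (ζ + w * n) = w.re := by
    intro w
    rw [xx, add_sub_cancel_left, mul_assoc, hnn, mul_one]
  have hec : ∀ w : ℂ, ζ + w * n - c = (w + (ρ : ℂ)) * n := by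
    intro w
    linear_combination hζc
  have hin : ∀ w : ℂ, w ≠ 0 → ‖w + (R : ℂ)‖ ≤ R → ζ + w * n ∈ Ω := by
    intro w hw0 hw
    apply hTW.sub
    rw [mem_ball, dist_eq_norm, hec, norm_mul, hn1, mul_one]
    have h1 := norm_sq_add w R
    have h2 := norm_sq_add w ρ
    have h3 : 0 < ‖w‖ := norm_pos_iff.2 hw0
    have h4 : ‖w + (R : ℂ)‖ ^ 2 ≤ R ^ 2 := pow_le_pow_left₀ (norm_nonneg _) hw 2
    have h5 : ‖w‖ ^ 2 ≤ -(2 * R * w.re) := by linarith
    have h3' : 0 < ‖w‖ ^ 2 := by positivity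
    have h6 : w.re < 0 := by
      by_contra h
      push Not at h
      have := mul_nonneg hRp.le h
      linarith
    have h7 : ‖w‖ ^ 2 < -(2 * ρ * w.re) := by nlinarith
    have h8 : ‖w + (ρ : ℂ)‖ ^ 2 < ρ ^ 2 := by linarith
    exact lt_of_pow_lt_pow_left₀ 2 hρ.le h8
  have h0 : ∀ w, 0 ≤ K w := by
    intro w
    show 0 ≤ Gt g Ω (ζ + w * n)
    unfold Gt
    split_ifs with h
    · rw [neg_nonneg]
      exact Real.log_nonpos (norm_nonneg _) (hP.gm _ h).le
    · exact le_rfl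
  have hup' : ∀ w : ℂ, ‖w‖ < r₀ → K w ≤ A * (max 0 (-w.re) + ‖w‖ ^ 2) := by
    intro w hw
    have h1 := hup (ζ + w * n) (by rw [hshift]; exact hw)
    rw [hxx, hshift] at h1
    exact h1
  have hharm : ∀ w : ℂ, w ≠ 0 → ‖w + (R : ℂ)‖ ≤ R → InnerProductSpace.HarmonicAt K w := by
    intro w hw0 hw
    have hz := hin w hw0 hw
    have hwn : ‖w‖ ≤ 2 * R := by
      have h1 := norm_sub_le (w + (R : ℂ)) (R : ℂ)
      rw [add_sub_cancel_right, Complex.norm_real, Real.norm_of_nonneg hRp.le] at h1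
      linarith
    have hz0 : ζ + w * n ≠ 0 := by
      intro h
      have h1 : ζ = -(w * n) := by linear_combination h
      have h2 : ‖ζ‖ = ‖w‖ := by rw [h1, norm_neg, norm_mul, hn1, mul_one]
      linarith
    have han : AnalyticAt ℂ (fun w => g (ζ + w * n)) w := by
      have h1 : AnalyticAt ℂ g (ζ + w * n) := hP.gan _ hz
      have h2 : AnalyticAt ℂ (fun w : ℂ => ζ + w * n) w := by fun_prop
      exact AnalyticAt.comp' (g := g) (f := fun w : ℂ => ζ + w * n) h1 h2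
    have hh := (han.harmonicAt_log_norm (hg0 _ hz hz0)).neg
    refine (InnerProductSpace.harmonicAt_congr_nhds ?_).2 hh
    have hcont : Continuous fun w : ℂ => ζ + w * n := by fun_prop
    have hev : ∀ᶠ w' in 𝓝 w, ζ + w' * n ∈ Ω := (hP.op.preimage hcont).mem_nhds hz
    filter_upwards [hev] with w' hw'
    show Gt g Ω (ζ + w' * n) = -Real.log ‖g (ζ + w' * n)‖
    rw [Gt, if_pos hw']
  have hH : InnerProductSpace.HarmonicContOnCl K (ball (-(R : ℂ)) R) := by
    refine InnerProductSpace.HarmonicContOnCl.mk_ball ?_ ?_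
    · intro w hw
      rw [mem_ball, dist_eq_norm, sub_neg_eq_add] at hw
      refine hharm w ?_ hw.le
      intro h
      rw [h, zero_add, Complex.norm_real, Real.norm_of_nonneg hRp.le] at hw
      exact lt_irrefl _ hw
    · intro w hw
      rw [mem_closedBall, dist_eq_norm, sub_neg_eq_add] at hw
      apply ContinuousAt.continuousWithinAt
      by_cases hw0 : w = 0
      · rw [hw0]
        have hK0 : K 0 = 0 := by
          refine le_antisymm ?_ (h0 0)
          have h1 := hup' 0 (by rw [norm_zero]; exact hr₀)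
          simpa using h1
        show Tendsto K (𝓝 0) (𝓝 (K 0))
        rw [hK0]
        have hcont : Continuous fun w : ℂ => A * (max 0 (-w.re) + ‖w‖ ^ 2) := by fun_prop
        have ht := hcont.tendsto 0
        simp only [zero_re, neg_zero, max_self, norm_zero, ne_eq, OfNat.ofNat_ne_zero,
          not_false_eq_true, zero_pow, add_zero, mul_zero] at ht
        refine squeeze_zero' (Eventually.of_forall h0) ?_ ht
        filter_upwards [ball_mem_nhds (0 : ℂ) hr₀] with w hw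
        exact hup' w (by rwa [mem_ball_zero_iff] at hw)
      · exact (hharm w hw0 hw).1.continuousAt
  obtain ⟨a, ha⟩ := asymp hRp hA hr₀ h0 hup' hH
  refine ⟨a, ?_, ?_⟩
  · by_contra hlt
    rw [not_le] at hlt
    set m : ℝ := (1 - ‖g c‖) / (2 * ρ) with hm
    obtain ⟨r, hr, h⟩ := ha ((m - a) / 2) (by linarith)
    set t : ℝ := min (r / 2) (min (ρ / 2) (‖ζ‖ / 2)) with ht
    have htp : 0 < t := lt_min (by positivity) (lt_min (by positivity) (by positivity))
    have htr : t < r := lt_of_le_of_lt (min_le_left _ _) (by linarith)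
    have htρ : t < ρ := lt_of_le_of_lt ((min_le_right _ _).trans (min_le_left _ _)) (by linarith)
    have htζ : t < ‖ζ‖ := lt_of_le_of_lt ((min_le_right _ _).trans (min_le_right _ _))
      (by linarith)
    have hnt : ‖(-(t : ℂ))‖ = t := by
      rw [norm_neg, Complex.norm_real, Real.norm_of_nonneg htp.le]
    have h1 := h (-(t : ℂ)) (by rw [hnt]; exact htr)
    rw [hnt, neg_re, ofReal_re, neg_neg, max_eq_right htp.le, abs_le] at h1
    set z : ℂ := ζ + -(t : ℂ) * n with hz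
    have hdz : dist z c = ρ - t := by
      rw [dist_eq_norm, hz, hec, norm_mul, hn1, mul_one]
      have e : -(t : ℂ) + (ρ : ℂ) = ((ρ - t : ℝ) : ℂ) := by
        push_cast
        ring
      rw [e, Complex.norm_real, Real.norm_of_nonneg (by linarith)]
    have hzb : z ∈ ball c ρ := by
      rw [mem_ball, hdz]
      linarith
    have hzΩ : z ∈ Ω := hTW.sub hzb
    have hz0 : z ≠ 0 := by
      intro h2
      have h3 : ζ = (t : ℂ) * n := by
        rw [hz] at h2
        linear_combination h2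
      have h4 : ‖ζ‖ = t := by
        rw [h3, norm_mul, hn1, mul_one, Complex.norm_real, Real.norm_of_nonneg htp.le]
      linarith
    have hpk := (hPIK g c ρ (hP.gan.mono hTW.sub) (fun z hz => hP.gm z (hTW.sub hz)) z hzb
      (1 - t / ρ) (by
        have : 0 < t / ρ := by positivity
        linarith) (by
        rw [hdz]
        apply le_of_eq
        field_simp)).1
    have hKz : K (-(t : ℂ)) = -Real.log ‖g z‖ := by
      show Gt g Ω z = -Real.log ‖g z‖
      rw [Gt, if_pos hzΩ]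
    have hlog := Real.log_le_sub_one_of_pos (norm_pos_iff.2 (hg0 z hzΩ hz0))
    have h5 : m * t ≤ K (-(t : ℂ)) := by
      rw [hKz]
      have e : (1 - (1 - t / ρ)) * (1 - ‖g c‖) / 2 = m * t := by
        rw [hm]
        field_simp
        ring
      rw [e] at hpk
      linarith
    have h6 : K (-(t : ℂ)) ≤ a * t + (m - a) / 2 * t := by linarith [h1.2]
    nlinarith
  · intro ε hε
    obtain ⟨r, hr, h⟩ := ha ε hε
    refine ⟨r, hr, fun z hz => ?_⟩
    have e : ζ + (z - ζ) * conj n * n = z := by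
      have : (z - ζ) * conj n * n = (z - ζ) * (n * conj n) := by ring
      rw [this, hnn]
      ring
    have hnw : ‖(z - ζ) * conj n‖ = ‖z - ζ‖ := by
      rw [norm_mul, RCLike.norm_conj, hn1, mul_one]
    have h1 := h ((z - ζ) * conj n) (by rw [hnw]; exact hz)
    rw [hnw] at h1
    have h2 : K ((z - ζ) * conj n) = Gt g Ω z := by
      show Gt g Ω (ζ + (z - ζ) * conj n * n) = Gt g Ω z
      rw [e]
    rw [h2] at h1
    exact h1

end Pool.Agent.Lib.MP250511.SB
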