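import Pool.Agent.Lib.MP_250511_an.SB.SpecZ

/-!
# MP_250511_an, module ZG: integration by parts across the zero set
-/

set_option autoImplicit false

namespace Pool.Agent.Lib.MP250511.SB

open Complex Metric Set MeasureTheory Filter Topology
open scoped Real ENNReal ComplexConjugate ContDiff

noncomputable section

namespace ZGM

theorem two_le' : (2 : ℕ∞ω) ≤ (∞ : ℕ∞ω) := by
  show ((2 : ℕ∞) : ℕ∞ω) ≤ ((⊤ : ℕ∞) : ℕ∞ω)
  exact WithTop.coe_le_coe.2 le_top

theorem two_le : ((1 : ℕ∞ω) + 1) ≤ (∞ : ℕ∞ω) := by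
  rw [show ((1 : ℕ∞ω) + 1) = 2 by norm_num]
  exact two_le'

/-- a product with a cutoff function is integrable -/
theorem cut_int {χ u : ℂ → ℝ} {z₁ : ℂ} {R : ℝ} (hχ : Continuous χ) (hc : HasCompactSupport χ)
    (ht : tsupport χ ⊆ ball z₁ R) (hu : ∀ z ∈ ball z₁ R, ContinuousAt u z) :
    Integrable (fun z => χ z * u z) := by
  have hcont : Continuous (fun z => χ z * u z) := by
    refine continuous_of_tsupport fun x hx => ?_
    exact hχ.continuousAt.mul (hu x (ht (tsupport_mul_subset_left hx)))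
  exact hcont.integrable_of_hasCompactSupport hc.mul_right

/-- integration by parts -/
theorem bp {χ u : ℂ → ℝ} {z₁ : ℂ} {R : ℝ} (hχ : ContDiff ℝ 1 χ) (hc : HasCompactSupport χ)
    (ht : tsupport χ ⊆ ball z₁ R) (hu : ∀ z ∈ ball z₁ R, ContDiffAt ℝ 1 u z) (e : ℂ) :
    ∫ z in ball z₁ R, χ z * fderiv ℝ u z e = - ∫ z in ball z₁ R, fderiv ℝ χ z e * u z := by
  have hcont' : ∀ z ∈ ball z₁ R, ContinuousAt (fun w => fderiv ℝ u w e) z := by
    intro z hz
    have h1 : ContDiffAt ℝ 0 (fderiv ℝ u) z := (hu z hz).fderiv_right (m := 0) (by simp)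
    exact h1.continuousAt.clm_apply continuousAt_const
  have hχ' : Continuous (fun z => fderiv ℝ χ z e) :=
    (hχ.continuous_fderiv one_ne_zero).clm_apply continuous_const
  have ht' : tsupport (fun z => fderiv ℝ χ z e) ⊆ ball z₁ R :=
    (tsupport_fderiv_apply_subset ℝ e).trans ht
  have h1 : Integrable (fun z => fderiv ℝ χ z e * u z) :=
    cut_int hχ' (hc.fderiv_apply ℝ e) ht' (fun z hz => (hu z hz).continuousAt)
  have h2 : Integrable (fun z => χ z * fderiv ℝ u z e) := cut_int hχ.continuous hc ht hcont'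
  have h3 : Integrable (fun z => χ z * u z) :=
    cut_int hχ.continuous hc ht (fun z hz => (hu z hz).continuousAt)
  have h := integral_mul_fderiv_eq_neg_fderiv_mul_of_integrable (μ := volume) (f := χ) (g := u)
    (v := e) h1 h2 h3 (fun x _ => (hχ.differentiable one_ne_zero) x)
    (fun x hx => (hu x (ht hx)).differentiableAt one_ne_zero)
  have h4 : ∀ z, z ∉ ball z₁ R → χ z * fderiv ℝ u z e = 0 := by
    intro z hz
    rw [image_eq_zero_of_notMem_tsupport (fun hh => hz (ht hh)), zero_mul]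
  have h5 : ∀ z, z ∉ ball z₁ R → fderiv ℝ χ z e * u z = 0 := by
    intro z hz
    have h7 : fderiv ℝ χ z e = 0 :=
      image_eq_zero_of_notMem_tsupport (f := fun z => fderiv ℝ χ z e) (fun hh => hz (ht' hh))
    rw [h7, zero_mul]
  rw [setIntegral_eq_integral_of_forall_compl_eq_zero h4,
    setIntegral_eq_integral_of_forall_compl_eq_zero h5]
  exact h

/-- the map `c ↦ (h ↦ - Re (c h))` -/
def Lam : ℂ →L[ℝ] (ℂ →L[ℝ] ℝ) :=
  -((ContinuousLinearMap.compL ℝ ℂ ℂ ℝ Complex.reCLM).comp (ContinuousLinearMap.mul ℝ ℂ))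

theorem Lam_apply (c h : ℂ) : Lam c h = -(c * h).re := by
  simp [Lam]

/-- the hypotheses on `G` and `p` -/
structure Hyp (O : Set ℂ) (G : ℂ → ℝ) (p : ℂ → ℂ) (z₁ : ℂ) (R : ℝ) : Prop where
  op : IsOpen O
  cont : ContinuousOn G (ball z₁ R)
  zero : ∀ z ∈ ball z₁ R, z ∉ O → G z = 0
  pos : ∀ z ∈ O ∩ ball z₁ R, 0 < G z
  an : AnalyticOnNhd ℂ p (O ∩ ball z₁ R)
  der : ∀ z ∈ O ∩ ball z₁ R, DifferentiableAt ℝ G z ∧ ∀ h : ℂ, fderiv ℝ G z h = -(p z * h).re
  int : IntegrableOn (fun z => ‖p z‖ ^ 2) (O ∩ ball z₁ R)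

variable {O : Set ℂ} {G : ℂ → ℝ} {p : ℂ → ℂ} {z₁ : ℂ} {R : ℝ}

theorem opU (H : Hyp O G p z₁ R) : IsOpen (O ∩ ball z₁ R) := H.op.inter isOpen_ball

/-- `G` is twice continuously differentiable on `O` -/
theorem G_smooth (H : Hyp O G p z₁ R) : ContDiffOn ℝ 2 G (O ∩ ball z₁ R) := by
  have h1 : ContDiffOn ℝ 1 (fderiv ℝ G) (O ∩ ball z₁ R) := by
    have h2 : ContDiffOn ℝ 1 p (O ∩ ball z₁ R) :=
      (H.an.contDiffOn (n := 1) (opU H).uniqueDiffOn).restrict_scalars ℝ
    have h3 : ContDiffOn ℝ 1 (fun z => Lam (p z)) (O ∩ ball z₁ R) :=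
      Lam.contDiff.comp_contDiffOn h2
    refine h3.congr ?_
    intro z hz
    ext h
    rw [Lam_apply]
    exact (H.der z hz).2 h
  have h4 : ((1 : ℕ∞ω) + 1) = 2 := by norm_num
  rw [← h4, contDiffOn_succ_iff_fderiv_of_isOpen (opU H)]
  refine ⟨fun z hz => ((H.der z hz).1).differentiableWithinAt, ?_, h1⟩
  intro h5
  exact absurd h5 (by simp)

/-- near a point off `O` the composition with `b` vanishes -/
theorem comp_zero (H : Hyp O G p z₁ R) (b : ℝ → ℝ) (τ : ℝ) (hτ : 0 < τ) (hb0 : ∀ s ≤ τ, b s = 0)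
    (z : ℂ) (hz : z ∈ ball z₁ R) (hzO : z ∉ O) : (fun w => b (G w)) =ᶠ[𝓝 z] fun _ => 0 := by
  have h1 : ContinuousAt G z := H.cont.continuousAt (isOpen_ball.mem_nhds hz)
  have h2 : ∀ᶠ w in 𝓝 z, G w < τ := by
    apply h1.eventually_lt continuousAt_const
    rw [H.zero z hz hzO]
    exact hτ
  filter_upwards [h2] with w hw
  exact hb0 _ hw.le

/-- the composition with `b` is twice continuously differentiable -/
theorem comp_smooth (H : Hyp O G p z₁ R) (b : ℝ → ℝ) (hb : ContDiff ℝ 2 b) (τ : ℝ) (hτ : 0 < τ)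
    (hb0 : ∀ s ≤ τ, b s = 0) (z : ℂ) (hz : z ∈ ball z₁ R) :
    ContDiffAt ℝ 2 (fun w => b (G w)) z := by
  by_cases hzO : z ∈ O
  · have h1 : ContDiffAt ℝ 2 G z := (G_smooth H).contDiffAt ((opU H).mem_nhds ⟨hzO, hz⟩)
    exact hb.contDiffAt.comp z h1
  · exact contDiffAt_const.congr_of_eventuallyEq (comp_zero H b τ hτ hb0 z hz hzO)

/-- the derivative of the composition -/
theorem comp_der (H : Hyp O G p z₁ R) (b : ℝ → ℝ) (hb : ContDiff ℝ 2 b) (z : ℂ)
    (hz : z ∈ O ∩ ball z₁ R) :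
    HasFDerivAt (fun w => b (G w)) (deriv b (G z) • Lam (p z)) z := by
  have h1 : HasFDerivAt G (Lam (p z)) z := by
    have h2 := (H.der z hz).1.hasFDerivAt
    have h3 : fderiv ℝ G z = Lam (p z) := by
      ext h
      rw [Lam_apply]
      exact (H.der z hz).2 h
    rw [h3] at h2
    exact h2
  have h4 : HasDerivAt b (deriv b (G z)) (G z) :=
    ((hb.differentiable two_ne_zero) (G z)).hasDerivAt
  exact h4.comp_hasFDerivAt z h1

/-- the second derivative of the composition -/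
theorem comp_der2 (H : Hyp O G p z₁ R) (b : ℝ → ℝ) (hb : ContDiff ℝ 2 b) (z : ℂ)
    (hz : z ∈ O ∩ ball z₁ R) (e : ℂ) :
    fderiv ℝ (fun w => fderiv ℝ (fun w' => b (G w')) w e) z e =
      deriv b (G z) * (-(deriv p z * e * e).re) + deriv (deriv b) (G z) * (p z * e).re ^ 2 := by
  have h1 : (fun w => fderiv ℝ (fun w' => b (G w')) w e) =ᶠ[𝓝 z]
      fun w => deriv b (G w) * Lam.flip e (p w) := by
    filter_upwards [(opU H).mem_nhds hz] with w hw
    rw [(comp_der H b hb w hw).fderiv]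
    rfl
  rw [h1.fderiv_eq]
  have hb' : ContDiff ℝ 1 (deriv b) := by
    have h2 : ContDiff ℝ (1 + 1) b := by
      have h3 : ((1 : ℕ∞ω) + 1) = 2 := by norm_num
      rw [h3]; exact hb
    exact (contDiff_succ_iff_deriv.1 h2).2.2
  have h2 : HasFDerivAt G (Lam (p z)) z := by
    have h2 := (H.der z hz).1.hasFDerivAt
    have h3 : fderiv ℝ G z = Lam (p z) := by
      ext h
      rw [Lam_apply]
      exact (H.der z hz).2 h
    rw [h3] at h2
    exact h2
  have h4 : HasDerivAt (deriv b) (deriv (deriv b) (G z)) (G z) :=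
    ((hb'.differentiable one_ne_zero) (G z)).hasDerivAt
  have h5 : HasFDerivAt (fun w => deriv b (G w)) (deriv (deriv b) (G z) • Lam (p z)) z :=
    h4.comp_hasFDerivAt z h2
  have h6 : HasDerivAt p (deriv p z) z := (H.an z hz).differentiableAt.hasDerivAt
  have h7 : HasFDerivAt p ((ContinuousLinearMap.toSpanSingleton ℂ (deriv p z)).restrictScalars ℝ)
      z := h6.hasFDerivAt.restrictScalars ℝ
  have h8 : HasFDerivAt (fun w => Lam.flip e (p w)) ((Lam.flip e).comp
      ((ContinuousLinearMap.toSpanSingleton ℂ (deriv p z)).restrictScalars ℝ)) z :=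
    (Lam.flip e).hasFDerivAt.comp z h7
  have h9 := h5.mul h8
  rw [show (fun w => deriv b (G w) * Lam.flip e (p w)) =
    (fun w => deriv b (G w)) * fun w => Lam.flip e (p w) from rfl, h9.fderiv]
  simp only [add_apply, smul_apply,
    ContinuousLinearMap.comp_apply, ContinuousLinearMap.flip_apply, Lam_apply, smul_eq_mul,
    ContinuousLinearMap.coe_restrictScalars', ContinuousLinearMap.toSpanSingleton_apply]
  have h10 : (e * deriv p z * e).re = (deriv p z * e * e).re := by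
    rw [mul_comm e (deriv p z)]
  rw [h10]
  ring

/-- the first identity, for a truncation `b` -/
theorem id2 (H : Hyp O G p z₁ R) (b : ℝ → ℝ) (hb : ContDiff ℝ 2 b) (τ : ℝ) (hτ : 0 < τ)
    (hb0 : ∀ s ≤ τ, b s = 0) (χ : ℂ → ℝ) (hχ : ContDiff ℝ ∞ χ) (hc : HasCompactSupport χ)
    (ht : tsupport χ ⊆ ball z₁ R) (e : ℂ) :
    ∫ z in O ∩ ball z₁ R, χ z * (deriv b (G z) * (p z * e).re) =
      ∫ z in ball z₁ R, b (G z) * fderiv ℝ χ z e := by
  have h1 := bp (u := fun w => b (G w)) (hχ.of_le (by exact_mod_cast le_top)) hc ht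
    (fun z hz => (comp_smooth H b hb τ hτ hb0 z hz).of_le (by norm_num)) e
  have h2 : ∫ z in ball z₁ R, χ z * fderiv ℝ (fun w => b (G w)) z e =
      ∫ z in O ∩ ball z₁ R, χ z * fderiv ℝ (fun w => b (G w)) z e := by
    refine setIntegral_eq_of_subset_of_forall_sdiff_eq_zero measurableSet_ball
      Set.inter_subset_right ?_
    intro z hz
    have h3 : z ∉ O := fun h => hz.2 ⟨h, hz.1⟩
    rw [(comp_zero H b τ hτ hb0 z hz.1 h3).fderiv_eq]
    simp
  have h4 : ∫ z in O ∩ ball z₁ R, χ z * fderiv ℝ (fun w => b (G w)) z e =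
      - ∫ z in O ∩ ball z₁ R, χ z * (deriv b (G z) * (p z * e).re) := by
    rw [← integral_neg]
    refine setIntegral_congr_fun (opU H).measurableSet ?_
    intro z hz
    show χ z * fderiv ℝ (fun w => b (G w)) z e = -(χ z * (deriv b (G z) * (p z * e).re))
    rw [(comp_der H b hb z hz).fderiv]
    simp only [smul_apply, Lam_apply, smul_eq_mul]
    ring
  rw [h2, h4, neg_inj] at h1
  rw [h1]
  refine integral_congr_ae (Eventually.of_forall fun z => ?_)
  show fderiv ℝ χ z e * b (G z) = b (G z) * fderiv ℝ χ z e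
  ring

/-- integration by parts twice in one direction -/
theorem bp2 (H : Hyp O G p z₁ R) (b : ℝ → ℝ) (hb : ContDiff ℝ 2 b) (τ : ℝ) (hτ : 0 < τ)
    (hb0 : ∀ s ≤ τ, b s = 0) (χ : ℂ → ℝ) (hχ : ContDiff ℝ ∞ χ) (hc : HasCompactSupport χ)
    (ht : tsupport χ ⊆ ball z₁ R) (e : ℂ) :
    ∫ z in ball z₁ R, χ z * fderiv ℝ (fun w => fderiv ℝ (fun w' => b (G w')) w e) z e =
      ∫ z in ball z₁ R, fderiv ℝ (fun w => fderiv ℝ χ w e) z e * b (G z) := by
  have hu : ∀ z ∈ ball z₁ R, ContDiffAt ℝ 1 (fun w => fderiv ℝ (fun w' => b (G w')) w e) z := by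
    intro z hz
    have h1 : ContDiffAt ℝ 1 (fderiv ℝ (fun w' => b (G w'))) z :=
      (comp_smooth H b hb τ hτ hb0 z hz).fderiv_right (m := 1) (by norm_num)
    exact h1.clm_apply contDiffAt_const
  have h1 := bp (u := fun w => fderiv ℝ (fun w' => b (G w')) w e)
    (hχ.of_le (by exact_mod_cast le_top)) hc ht hu e
  have hχ1 : ContDiff ℝ 1 (fun z => fderiv ℝ χ z e) := by
    have h2 : ContDiff ℝ 1 (fderiv ℝ χ) := hχ.fderiv_right (m := 1) two_le
    exact h2.clm_apply contDiff_const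
  have h2 := bp (χ := fun z => fderiv ℝ χ z e) (u := fun w => b (G w)) hχ1 (hc.fderiv_apply ℝ e)
    ((tsupport_fderiv_apply_subset ℝ e).trans ht)
    (fun z hz => (comp_smooth H b hb τ hτ hb0 z hz).of_le (by norm_num)) e
  rw [h1, h2, neg_neg]

/-- the integrands are integrable -/
theorem bp2_int (H : Hyp O G p z₁ R) (b : ℝ → ℝ) (hb : ContDiff ℝ 2 b) (τ : ℝ) (hτ : 0 < τ)
    (hb0 : ∀ s ≤ τ, b s = 0) (χ : ℂ → ℝ) (hχ : ContDiff ℝ ∞ χ) (hc : HasCompactSupport χ)
    (ht : tsupport χ ⊆ ball z₁ R) (e : ℂ) :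
    Integrable (fun z => χ z * fderiv ℝ (fun w => fderiv ℝ (fun w' => b (G w')) w e) z e) ∧
    Integrable (fun z => fderiv ℝ (fun w => fderiv ℝ χ w e) z e * b (G z)) := by
  have hu : ∀ z ∈ ball z₁ R, ContDiffAt ℝ 1 (fun w => fderiv ℝ (fun w' => b (G w')) w e) z := by
    intro z hz
    have h1 : ContDiffAt ℝ 1 (fderiv ℝ (fun w' => b (G w'))) z :=
      (comp_smooth H b hb τ hτ hb0 z hz).fderiv_right (m := 1) (by norm_num)
    exact h1.clm_apply contDiffAt_const
  have hχ1 : ContDiff ℝ 1 (fun z => fderiv ℝ χ z e) := by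
    have h2 : ContDiff ℝ 1 (fderiv ℝ χ) := hχ.fderiv_right (m := 1) two_le
    exact h2.clm_apply contDiff_const
  refine ⟨cut_int hχ.continuous hc ht ?_, cut_int ?_ ((hc.fderiv_apply ℝ e).fderiv_apply ℝ e)
    ((tsupport_fderiv_apply_subset ℝ e).trans ((tsupport_fderiv_apply_subset ℝ e).trans ht))
    (fun z hz => (comp_smooth H b hb τ hτ hb0 z hz).continuousAt)⟩
  · intro z hz
    have h1 : ContDiffAt ℝ 0 (fderiv ℝ (fun w => fderiv ℝ (fun w' => b (G w')) w e)) z :=
      (hu z hz).fderiv_right (m := 0) (by simp)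
    exact h1.continuousAt.clm_apply continuousAt_const
  · exact (hχ1.continuous_fderiv one_ne_zero).clm_apply continuous_const

/-- the second identity, for a truncation `b` -/
theorem id1 (H : Hyp O G p z₁ R) (b : ℝ → ℝ) (hb : ContDiff ℝ 2 b) (τ : ℝ) (hτ : 0 < τ)
    (hb0 : ∀ s ≤ τ, b s = 0) (χ : ℂ → ℝ) (hχ : ContDiff ℝ ∞ χ) (hc : HasCompactSupport χ)
    (ht : tsupport χ ⊆ ball z₁ R) :
    ∫ z in O ∩ ball z₁ R, χ z * (deriv (deriv b) (G z) * ‖p z‖ ^ 2) =
      ∫ z in ball z₁ R, b (G z) * lap χ z := by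
  have i1 := bp2_int H b hb τ hτ hb0 χ hχ hc ht 1
  have iI := bp2_int H b hb τ hτ hb0 χ hχ hc ht I
  have e1 := bp2 H b hb τ hτ hb0 χ hχ hc ht 1
  have eI := bp2 H b hb τ hτ hb0 χ hχ hc ht I
  have h1 : ∫ z in ball z₁ R, b (G z) * lap χ z =
      ∫ z in ball z₁ R, (χ z * fderiv ℝ (fun w => fderiv ℝ (fun w' => b (G w')) w 1) z 1 +
        χ z * fderiv ℝ (fun w => fderiv ℝ (fun w' => b (G w')) w I) z I) := by
    rw [integral_add i1.1.integrableOn iI.1.integrableOn, e1, eI,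
      ← integral_add i1.2.integrableOn iI.2.integrableOn]
    refine integral_congr_ae (Eventually.of_forall fun z => ?_)
    show b (G z) * lap χ z = _
    unfold lap
    ring
  rw [h1]
  symm
  have h2 : ∫ z in ball z₁ R, (χ z * fderiv ℝ (fun w => fderiv ℝ (fun w' => b (G w')) w 1) z 1 +
        χ z * fderiv ℝ (fun w => fderiv ℝ (fun w' => b (G w')) w I) z I) =
      ∫ z in O ∩ ball z₁ R, (χ z * fderiv ℝ (fun w => fderiv ℝ (fun w' => b (G w')) w 1) z 1 +
        χ z * fderiv ℝ (fun w => fderiv ℝ (fun w' => b (G w')) w I) z I) := by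
    refine setIntegral_eq_of_subset_of_forall_sdiff_eq_zero measurableSet_ball
      Set.inter_subset_right ?_
    intro z hz
    have h3 : z ∉ O := fun h => hz.2 ⟨h, hz.1⟩
    have h4 : ∀ e : ℂ, fderiv ℝ (fun w => fderiv ℝ (fun w' => b (G w')) w e) z e = 0 := by
      intro e
      have h5 := (comp_zero H b τ hτ hb0 z hz.1 h3).fderiv (𝕜 := ℝ)
      have h6 : (fun w => fderiv ℝ (fun w' => b (G w')) w e) =ᶠ[𝓝 z] fun _ => 0 := by
        filter_upwards [h5] with w hw
        rw [hw]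
        simp
      rw [h6.fderiv_eq]
      simp
    rw [h4, h4]
    ring
  rw [h2]
  refine setIntegral_congr_fun (opU H).measurableSet ?_
  intro z hz
  show χ z * fderiv ℝ (fun w => fderiv ℝ (fun w' => b (G w')) w 1) z 1 +
        χ z * fderiv ℝ (fun w => fderiv ℝ (fun w' => b (G w')) w I) z I =
      χ z * (deriv (deriv b) (G z) * ‖p z‖ ^ 2)
  rw [comp_der2 H b hb z hz 1, comp_der2 H b hb z hz I]
  have h7 : ‖p z‖ ^ 2 = (p z).re ^ 2 + (p z).im ^ 2 := by
    rw [← Complex.normSq_eq_norm_sq, Complex.normSq_apply]; ring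
  have h8 : (deriv p z * I * I).re = -(deriv p z).re := by
    rw [mul_assoc, I_mul_I]; simp
  have h9 : (p z * I).re = -(p z).im := by simp
  rw [h7, h8, h9, mul_one, mul_one, mul_one]
  ring

/-! ### The truncations -/

/-- the truncation of a smooth function `q` -/
def tr (q : ℝ → ℝ) (s : ℝ) : ℝ := q s * Real.smoothTransition (s - 1)

theorem tr_smooth {q : ℝ → ℝ} (hq : ContDiff ℝ ∞ q) : ContDiff ℝ ∞ (tr q) :=
  hq.mul (Real.smoothTransition.contDiff.comp (contDiff_id.sub contDiff_const))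

theorem tr_zero (q : ℝ → ℝ) (s : ℝ) (hs : s ≤ 1) : tr q s = 0 := by
  unfold tr
  rw [Real.smoothTransition.zero_of_nonpos (by linarith), mul_zero]

theorem tr_eq (q : ℝ → ℝ) (s : ℝ) (hs : 2 ≤ s) : tr q s = q s := by
  unfold tr
  rw [Real.smoothTransition.one_of_one_le (by linarith), mul_one]

theorem tr_eventually (q : ℝ → ℝ) (s : ℝ) (hs : 2 < s) : tr q =ᶠ[𝓝 s] q := by
  filter_upwards [lt_mem_nhds hs] with x hx
  exact tr_eq q x hx.le

theorem tr_eventually_zero (q : ℝ → ℝ) (s : ℝ) (hs : s < 1) : tr q =ᶠ[𝓝 s] fun _ => 0 := by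
  filter_upwards [gt_mem_nhds hs] with x hx
  exact tr_zero q x hx.le

/-- a continuous function which is constant near `-∞` and near `∞` is bounded -/
theorem bdd_of {f : ℝ → ℝ} (hf : Continuous f) (c d : ℝ) (h1 : ∀ s < 1, f s = c)
    (h2 : ∀ s, 2 < s → f s = d) : ∃ C : ℝ, 0 ≤ C ∧ ∀ s, |f s| ≤ C := by
  obtain ⟨C, hC⟩ := (isCompact_Icc (a := (1 : ℝ)) (b := 2)).exists_bound_of_continuousOn
    hf.continuousOn
  refine ⟨max |C| (max |c| |d|), le_trans (abs_nonneg _) (le_max_left _ _), fun s => ?_⟩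
  by_cases hs1 : s < 1
  · rw [h1 s hs1]
    exact (le_max_left _ _).trans (le_max_right _ _)
  · by_cases hs2 : 2 < s
    · rw [h2 s hs2]
      exact (le_max_right _ _).trans (le_max_right _ _)
    · have h3 := hC s ⟨not_lt.1 hs1, not_lt.1 hs2⟩
      rw [Real.norm_eq_abs] at h3
      exact (h3.trans (le_abs_self C)).trans (le_max_left _ _)

theorem deriv_scale {B : ℝ → ℝ} (hB : Differentiable ℝ B) (c N : ℝ) :
    deriv (fun s => c * B (N * s)) = fun s => (c * N) * deriv B (N * s) := by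
  funext s
  have h1 : HasDerivAt (fun s => B (N * s)) (deriv B (N * s) * N) s := by
    have h2 : HasDerivAt (fun s : ℝ => N * s) N s := by
      simpa using (hasDerivAt_id s).const_mul N
    exact (hB (N * s)).hasDerivAt.comp s h2
  have h3 := h1.const_mul c
  rw [h3.deriv]
  ring

/-- the quadratic truncation -/
theorem quad : ∃ B : ℝ → ℝ, ContDiff ℝ ∞ B ∧ (∀ s ≤ 1, B s = 0) ∧ (∀ s, 2 ≤ s → B s = s ^ 2 / 2) ∧
    (∀ s, |B s| ≤ s ^ 2 / 2) ∧ (∀ s, 2 < s → deriv (deriv B) s = 1) ∧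
    ∃ C : ℝ, 0 ≤ C ∧ ∀ s, |deriv (deriv B) s| ≤ C := by
  have hq : ContDiff ℝ ∞ (fun s : ℝ => s ^ 2 / 2) := (contDiff_id.pow 2).div_const 2
  have hB := tr_smooth hq
  have h2 : ∀ s : ℝ, 2 < s → deriv (deriv (tr fun s : ℝ => s ^ 2 / 2)) s = 1 := by
    intro s hs
    have h3 := tr_eventually (fun s : ℝ => s ^ 2 / 2) s hs
    rw [h3.deriv.deriv_eq]
    have h4 : deriv (fun s : ℝ => s ^ 2 / 2) = fun s => s := by
      funext x
      have h5 : HasDerivAt (fun s : ℝ => s ^ 2 / 2) (2 * x / 2) x := by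
        simpa using (hasDerivAt_pow 2 x).div_const 2
      rw [h5.deriv]; ring
    rw [h4]
    simp
  have h1 : ∀ s : ℝ, s < 1 → deriv (deriv (tr fun s : ℝ => s ^ 2 / 2)) s = 0 := by
    intro s hs
    have h3 := tr_eventually_zero (fun s : ℝ => s ^ 2 / 2) s hs
    rw [h3.deriv.deriv_eq]
    simp
  have hcont : Continuous (deriv (deriv (tr fun s : ℝ => s ^ 2 / 2))) := by
    have h3 : ContDiff ℝ ∞ (deriv (tr fun s : ℝ => s ^ 2 / 2)) :=
      (contDiff_infty_iff_deriv.1 hB).2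
    exact (contDiff_infty_iff_deriv.1 h3).2.continuous
  refine ⟨tr fun s => s ^ 2 / 2, hB, tr_zero _, tr_eq _, ?_, h2, bdd_of hcont 0 1 h1 h2⟩
  intro s
  unfold tr
  rw [abs_mul, abs_of_nonneg (by positivity : (0 : ℝ) ≤ s ^ 2 / 2),
    abs_of_nonneg (Real.smoothTransition.nonneg _)]
  exact mul_le_of_le_one_right (by positivity) (Real.smoothTransition.le_one _)

/-- the linear truncation -/
theorem linr : ∃ B : ℝ → ℝ, ContDiff ℝ ∞ B ∧ (∀ s ≤ 1, B s = 0) ∧ (∀ s, 2 ≤ s → B s = s) ∧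
    (∀ s, |B s| ≤ |s|) ∧ (∀ s, 2 < s → deriv B s = 1) ∧
    ∃ C : ℝ, 0 ≤ C ∧ ∀ s, |deriv B s| ≤ C := by
  have hq : ContDiff ℝ ∞ (fun s : ℝ => s) := contDiff_id
  have hB := tr_smooth hq
  have h2 : ∀ s : ℝ, 2 < s → deriv (tr fun s : ℝ => s) s = 1 := by
    intro s hs
    rw [(tr_eventually (fun s : ℝ => s) s hs).deriv_eq]
    simp
  have h1 : ∀ s : ℝ, s < 1 → deriv (tr fun s : ℝ => s) s = 0 := by
    intro s hs
    rw [(tr_eventually_zero (fun s : ℝ => s) s hs).deriv_eq]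
    simp
  have hcont : Continuous (deriv (tr fun s : ℝ => s)) :=
    (contDiff_infty_iff_deriv.1 hB).2.continuous
  refine ⟨tr fun s => s, hB, tr_zero _, tr_eq _, ?_, h2, bdd_of hcont 0 1 h1 h2⟩
  intro s
  unfold tr
  rw [abs_mul, abs_of_nonneg (Real.smoothTransition.nonneg _)]
  exact mul_le_of_le_one_right (abs_nonneg _) (Real.smoothTransition.le_one _)

theorem ev_large (s : ℝ) (hs : 0 < s) : ∀ᶠ n : ℕ in atTop, 2 < ((n : ℝ) + 1) * s := by
  obtain ⟨m, hm⟩ := exists_nat_gt (2 / s)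
  filter_upwards [eventually_ge_atTop m] with n hn
  have h1 : (m : ℝ) ≤ n := by exact_mod_cast hn
  have h2 : 2 / s < (n : ℝ) + 1 := by linarith
  rwa [div_lt_iff₀ hs] at h2

/-- the first identity -/
theorem lim2 (H : Hyp O G p z₁ R) (χ : ℂ → ℝ) (hχ : ContDiff ℝ ∞ χ) (hc : HasCompactSupport χ)
    (ht : tsupport χ ⊆ ball z₁ R) (e : ℂ) :
    ∫ z in O ∩ ball z₁ R, χ z * (p z * e).re = ∫ z in ball z₁ R, G z * fderiv ℝ χ z e := by
  obtain ⟨B, hB, hB0, hB1, hBb, hBd, C, hC0, hC⟩ := linr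
  obtain ⟨M, hM⟩ := hc.exists_bound_of_continuous hχ.continuous
  have hB' : Continuous (deriv B) := (contDiff_infty_iff_deriv.1 hB).2.continuous
  have hBdiff : Differentiable ℝ B := hB.differentiable (by simp)
  have hM0 : 0 ≤ M := (norm_nonneg _).trans (hM z₁)
  have hGc : ContinuousOn G (O ∩ ball z₁ R) := H.cont.mono inter_subset_right
  have hpc : ContinuousOn p (O ∩ ball z₁ R) := H.an.continuousOn
  have hχ' : Continuous (fun z => fderiv ℝ χ z e) :=
    (hχ.continuous_fderiv (by simp)).clm_apply continuous_const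
  have hid : ∀ n : ℕ, ∫ z in O ∩ ball z₁ R, χ z * (deriv B (((n : ℝ) + 1) * G z) * (p z * e).re)
      = ∫ z in ball z₁ R, (((n : ℝ) + 1)⁻¹ * B (((n : ℝ) + 1) * G z)) * fderiv ℝ χ z e := by
    intro n
    have hN : (0 : ℝ) < (n : ℝ) + 1 := by positivity
    have hb : ContDiff ℝ 2 (fun s : ℝ => ((n : ℝ) + 1)⁻¹ * B (((n : ℝ) + 1) * s)) := by
      have h1 : ContDiff ℝ ∞ (fun s : ℝ => ((n : ℝ) + 1)⁻¹ * B (((n : ℝ) + 1) * s)) :=
        contDiff_const.mul (hB.comp (contDiff_const.mul contDiff_id))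
      exact h1.of_le two_le'
    have h2 := id2 H (fun s : ℝ => ((n : ℝ) + 1)⁻¹ * B (((n : ℝ) + 1) * s)) hb
      (((n : ℝ) + 1)⁻¹) (by positivity) (fun s hs => by
        have h3 : ((n : ℝ) + 1) * s ≤ 1 := by
          have h4 := mul_le_mul_of_nonneg_left hs hN.le
          rwa [mul_inv_cancel₀ hN.ne'] at h4
        rw [hB0 _ h3, mul_zero]) χ hχ hc ht e
    have h5 : deriv (fun s : ℝ => ((n : ℝ) + 1)⁻¹ * B (((n : ℝ) + 1) * s)) =
        fun s => deriv B (((n : ℝ) + 1) * s) := by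
      rw [deriv_scale hBdiff]
      funext s
      rw [inv_mul_cancel₀ hN.ne', one_mul]
    rw [h5] at h2
    exact h2
  have hL : Tendsto (fun n : ℕ => ∫ z in O ∩ ball z₁ R,
      χ z * (deriv B (((n : ℝ) + 1) * G z) * (p z * e).re)) atTop
      (𝓝 (∫ z in O ∩ ball z₁ R, χ z * (p z * e).re)) := by
    refine tendsto_integral_of_dominated_convergence
      (fun z => (M * C * ‖e‖) * (1 + ‖p z‖ ^ 2)) ?_ ?_ ?_ ?_
    · intro n
      refine ContinuousOn.aestronglyMeasurable ?_ (opU H).measurableSet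
      exact hχ.continuous.continuousOn.mul
        ((hB'.comp_continuousOn (continuousOn_const.mul hGc)).mul
          (Complex.continuous_re.comp_continuousOn (hpc.mul continuousOn_const)))
    · refine Integrable.const_mul ?_ _
      refine Integrable.add ?_ H.int
      refine integrable_const_iff.2 (Or.inr ?_)
      refine ⟨?_⟩
      rw [Measure.restrict_apply_univ]
      exact (measure_mono inter_subset_right).trans_lt measure_ball_lt_top
    · intro n
      refine ae_restrict_of_forall_mem (opU H).measurableSet ?_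
      intro z hz
      have h1 : |(p z * e).re| ≤ ‖e‖ * (1 + ‖p z‖ ^ 2) := by
        refine (Complex.abs_re_le_norm _).trans ?_
        rw [norm_mul, mul_comm]
        refine mul_le_mul_of_nonneg_left ?_ (norm_nonneg _)
        nlinarith [sq_nonneg (‖p z‖ - 1), norm_nonneg (p z)]
      rw [Real.norm_eq_abs, abs_mul, abs_mul]
      have h2 : |χ z| ≤ M := hM z
      have h3 := hC (((n : ℝ) + 1) * G z)
      have h4 : |deriv B (((n : ℝ) + 1) * G z)| * |(p z * e).re| ≤
          C * (‖e‖ * (1 + ‖p z‖ ^ 2)) := mul_le_mul h3 h1 (abs_nonneg _) hC0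
      have h5 := mul_le_mul h2 h4 (by positivity) hM0
      have h6 : M * (C * (‖e‖ * (1 + ‖p z‖ ^ 2))) = M * C * ‖e‖ * (1 + ‖p z‖ ^ 2) := by ring
      rw [← h6]
      exact h5
    · refine ae_restrict_of_forall_mem (opU H).measurableSet ?_
      intro z hz
      refine tendsto_const_nhds.congr' ?_
      filter_upwards [ev_large (G z) (H.pos z hz)] with n hn
      rw [hBd _ hn, one_mul]
  have hR : Tendsto (fun n : ℕ => ∫ z in ball z₁ R,
      (((n : ℝ) + 1)⁻¹ * B (((n : ℝ) + 1) * G z)) * fderiv ℝ χ z e) atTop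
      (𝓝 (∫ z in ball z₁ R, G z * fderiv ℝ χ z e)) := by
    refine tendsto_integral_of_dominated_convergence
      (fun z => ‖fderiv ℝ χ z e * G z‖) ?_ ?_ ?_ ?_
    · intro n
      refine ContinuousOn.aestronglyMeasurable ?_ measurableSet_ball
      exact (continuousOn_const.mul (hB.continuous.comp_continuousOn
        (continuousOn_const.mul H.cont))).mul hχ'.continuousOn
    · exact ((cut_int (χ := fun z => fderiv ℝ χ z e) hχ' (hc.fderiv_apply ℝ e)
        ((tsupport_fderiv_apply_subset ℝ e).trans ht)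
        (fun z hz => H.cont.continuousAt (isOpen_ball.mem_nhds hz))).norm).integrableOn
    · intro n
      refine ae_restrict_of_forall_mem measurableSet_ball ?_
      intro z hz
      have hN : (0 : ℝ) < (n : ℝ) + 1 := by positivity
      have h1 := hBb (((n : ℝ) + 1) * G z)
      rw [Real.norm_eq_abs, Real.norm_eq_abs, abs_mul, abs_mul, abs_mul, abs_of_pos (inv_pos.2 hN),
        mul_comm |fderiv ℝ χ z e|]
      refine mul_le_mul_of_nonneg_right ?_ (abs_nonneg _)
      rw [abs_mul, abs_of_pos hN] at h1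
      rw [inv_mul_le_iff₀ hN]
      exact h1
    · refine ae_restrict_of_forall_mem measurableSet_ball ?_
      intro z hz
      refine tendsto_const_nhds.congr' ?_
      by_cases hzO : z ∈ O
      · filter_upwards [ev_large (G z) (H.pos z ⟨hzO, hz⟩)] with n hn
        have hN : (0 : ℝ) < (n : ℝ) + 1 := by positivity
        rw [hB1 _ hn.le, inv_mul_cancel_left₀ hN.ne']
      · filter_upwards with n
        rw [H.zero z hz hzO, mul_zero, hB0 0 zero_le_one, mul_zero]
  have hLR : (fun n : ℕ => ∫ z in O ∩ ball z₁ R,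
      χ z * (deriv B (((n : ℝ) + 1) * G z) * (p z * e).re)) = fun n : ℕ => ∫ z in ball z₁ R,
      (((n : ℝ) + 1)⁻¹ * B (((n : ℝ) + 1) * G z)) * fderiv ℝ χ z e := funext hid
  rw [hLR] at hL
  exact tendsto_nhds_unique hL hR

/-- the second identity -/
theorem lim1 (H : Hyp O G p z₁ R) (χ : ℂ → ℝ) (hχ : ContDiff ℝ ∞ χ) (hc : HasCompactSupport χ)
    (ht : tsupport χ ⊆ ball z₁ R) :
    ∫ z in O ∩ ball z₁ R, χ z * ‖p z‖ ^ 2 = ∫ z in ball z₁ R, G z ^ 2 / 2 * lap χ z := by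
  obtain ⟨B, hB, hB0, hB1, hBb, hBd, C, hC0, hC⟩ := quad
  obtain ⟨M, hM⟩ := hc.exists_bound_of_continuous hχ.continuous
  have hB1d : ContDiff ℝ ∞ (deriv B) := (contDiff_infty_iff_deriv.1 hB).2
  have hB' : Continuous (deriv (deriv B)) := (contDiff_infty_iff_deriv.1 hB1d).2.continuous
  have hBdiff : Differentiable ℝ B := hB.differentiable (by simp)
  have hB1diff : Differentiable ℝ (deriv B) := hB1d.differentiable (by simp)
  have hM0 : 0 ≤ M := (norm_nonneg _).trans (hM z₁)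
  have hGc : ContinuousOn G (O ∩ ball z₁ R) := H.cont.mono inter_subset_right
  have hpc : ContinuousOn p (O ∩ ball z₁ R) := H.an.continuousOn
  have hχ2 : ∀ e : ℂ, Continuous (fun z => fderiv ℝ (fun w => fderiv ℝ χ w e) z e) := by
    intro e
    have hχ1 : ContDiff ℝ 1 (fun z => fderiv ℝ χ z e) := by
      have h2 : ContDiff ℝ 1 (fderiv ℝ χ) := hχ.fderiv_right (m := 1) two_le
      exact h2.clm_apply contDiff_const
    exact (hχ1.continuous_fderiv one_ne_zero).clm_apply continuous_const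
  have hlap : Continuous (lap χ) := (hχ2 1).add (hχ2 I)
  have hGG : ∀ z ∈ ball z₁ R, ContinuousAt (fun w => G w ^ 2 / 2) z := fun z hz =>
    ((H.cont.continuousAt (isOpen_ball.mem_nhds hz)).pow 2).div_const 2
  have hlapint : Integrable (fun z => lap χ z * (G z ^ 2 / 2)) := by
    have h1 : ∀ e : ℂ, Integrable (fun z => fderiv ℝ (fun w => fderiv ℝ χ w e) z e *
        (G z ^ 2 / 2)) := fun e => cut_int (hχ2 e) ((hc.fderiv_apply ℝ e).fderiv_apply ℝ e)
      ((tsupport_fderiv_apply_subset ℝ e).trans ((tsupport_fderiv_apply_subset ℝ e).trans ht)) hGG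
    refine ((h1 1).add (h1 I)).congr (Eventually.of_forall fun z => ?_)
    show fderiv ℝ (fun w => fderiv ℝ χ w 1) z 1 * (G z ^ 2 / 2) +
      fderiv ℝ (fun w => fderiv ℝ χ w I) z I * (G z ^ 2 / 2) = lap χ z * (G z ^ 2 / 2)
    unfold lap
    ring
  have hid : ∀ n : ℕ, ∫ z in O ∩ ball z₁ R,
      χ z * (deriv (deriv B) (((n : ℝ) + 1) * G z) * ‖p z‖ ^ 2)
      = ∫ z in ball z₁ R, ((((n : ℝ) + 1)⁻¹ ^ 2) * B (((n : ℝ) + 1) * G z)) * lap χ z := by
    intro n
    have hN : (0 : ℝ) < (n : ℝ) + 1 := by positivity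
    have hb : ContDiff ℝ 2 (fun s : ℝ => (((n : ℝ) + 1)⁻¹ ^ 2) * B (((n : ℝ) + 1) * s)) := by
      have h1 : ContDiff ℝ ∞ (fun s : ℝ => (((n : ℝ) + 1)⁻¹ ^ 2) * B (((n : ℝ) + 1) * s)) :=
        contDiff_const.mul (hB.comp (contDiff_const.mul contDiff_id))
      exact h1.of_le two_le'
    have h2 := id1 H (fun s : ℝ => (((n : ℝ) + 1)⁻¹ ^ 2) * B (((n : ℝ) + 1) * s)) hb
      (((n : ℝ) + 1)⁻¹) (by positivity) (fun s hs => by
        have h3 : ((n : ℝ) + 1) * s ≤ 1 := by
          have h4 := mul_le_mul_of_nonneg_left hs hN.le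
          rwa [mul_inv_cancel₀ hN.ne'] at h4
        rw [hB0 _ h3, mul_zero]) χ hχ hc ht
    have h5 : deriv (deriv (fun s : ℝ => (((n : ℝ) + 1)⁻¹ ^ 2) * B (((n : ℝ) + 1) * s))) =
        fun s => deriv (deriv B) (((n : ℝ) + 1) * s) := by
      rw [deriv_scale hBdiff, deriv_scale hB1diff]
      funext s
      have h6 : ((n : ℝ) + 1)⁻¹ ^ 2 * ((n : ℝ) + 1) * ((n : ℝ) + 1) = 1 := by
        field_simp
      rw [h6, one_mul]
    rw [h5] at h2
    exact h2
  have hL : Tendsto (fun n : ℕ => ∫ z in O ∩ ball z₁ R,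
      χ z * (deriv (deriv B) (((n : ℝ) + 1) * G z) * ‖p z‖ ^ 2)) atTop
      (𝓝 (∫ z in O ∩ ball z₁ R, χ z * ‖p z‖ ^ 2)) := by
    refine tendsto_integral_of_dominated_convergence
      (fun z => (M * C) * ‖p z‖ ^ 2) ?_ ?_ ?_ ?_
    · intro n
      refine ContinuousOn.aestronglyMeasurable ?_ (opU H).measurableSet
      exact hχ.continuous.continuousOn.mul
        ((hB'.comp_continuousOn (continuousOn_const.mul hGc)).mul (hpc.norm.pow 2))
    · exact Integrable.const_mul H.int _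
    · intro n
      refine ae_restrict_of_forall_mem (opU H).measurableSet ?_
      intro z hz
      rw [Real.norm_eq_abs, abs_mul, abs_mul]
      have h2 : |χ z| ≤ M := hM z
      have h3 := hC (((n : ℝ) + 1) * G z)
      have h1 : |‖p z‖ ^ 2| = ‖p z‖ ^ 2 := abs_of_nonneg (by positivity)
      rw [h1]
      have h4 : |deriv (deriv B) (((n : ℝ) + 1) * G z)| * ‖p z‖ ^ 2 ≤
          C * ‖p z‖ ^ 2 := mul_le_mul_of_nonneg_right h3 (by positivity)
      have h5 := mul_le_mul h2 h4 (by positivity) hM0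
      rw [mul_assoc]
      exact h5
    · refine ae_restrict_of_forall_mem (opU H).measurableSet ?_
      intro z hz
      refine tendsto_const_nhds.congr' ?_
      filter_upwards [ev_large (G z) (H.pos z hz)] with n hn
      rw [hBd _ hn, one_mul]
  have hR : Tendsto (fun n : ℕ => ∫ z in ball z₁ R,
      ((((n : ℝ) + 1)⁻¹ ^ 2) * B (((n : ℝ) + 1) * G z)) * lap χ z) atTop
      (𝓝 (∫ z in ball z₁ R, G z ^ 2 / 2 * lap χ z)) := by
    refine tendsto_integral_of_dominated_convergence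
      (fun z => ‖lap χ z * (G z ^ 2 / 2)‖) ?_ hlapint.norm.integrableOn ?_ ?_
    · intro n
      refine ContinuousOn.aestronglyMeasurable ?_ measurableSet_ball
      exact (continuousOn_const.mul (hB.continuous.comp_continuousOn
        (continuousOn_const.mul H.cont))).mul hlap.continuousOn
    · intro n
      refine ae_restrict_of_forall_mem measurableSet_ball ?_
      intro z hz
      have hN : (0 : ℝ) < (n : ℝ) + 1 := by positivity
      have h1 := hBb (((n : ℝ) + 1) * G z)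
      have h0 : (0 : ℝ) ≤ G z ^ 2 / 2 := by positivity
      have h3 : (0 : ℝ) < ((n : ℝ) + 1)⁻¹ ^ 2 := by positivity
      rw [Real.norm_eq_abs, Real.norm_eq_abs, abs_mul, abs_mul, abs_mul, abs_of_pos h3,
        mul_comm |lap χ z|, abs_of_nonneg h0]
      refine mul_le_mul_of_nonneg_right ?_ (abs_nonneg _)
      have h4 := mul_le_mul_of_nonneg_left h1 h3.le
      have h5 : ((n : ℝ) + 1)⁻¹ ^ 2 * ((((n : ℝ) + 1) * G z) ^ 2 / 2) = G z ^ 2 / 2 := by
        field_simp
      rw [h5] at h4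
      exact h4
    · refine ae_restrict_of_forall_mem measurableSet_ball ?_
      intro z hz
      refine tendsto_const_nhds.congr' ?_
      by_cases hzO : z ∈ O
      · filter_upwards [ev_large (G z) (H.pos z ⟨hzO, hz⟩)] with n hn
        have hN : (0 : ℝ) < (n : ℝ) + 1 := by positivity
        rw [hB1 _ hn.le]
        have h5 : ((n : ℝ) + 1)⁻¹ ^ 2 * ((((n : ℝ) + 1) * G z) ^ 2 / 2) = G z ^ 2 / 2 := by
          field_simp
        rw [h5]
      · filter_upwards with n
        rw [H.zero z hz hzO, mul_zero, hB0 0 zero_le_one]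
        simp
  have hLR : (fun n : ℕ => ∫ z in O ∩ ball z₁ R,
      χ z * (deriv (deriv B) (((n : ℝ) + 1) * G z) * ‖p z‖ ^ 2)) = fun n : ℕ => ∫ z in ball z₁ R,
      ((((n : ℝ) + 1)⁻¹ ^ 2) * B (((n : ℝ) + 1) * G z)) * lap χ z := funext hid
  rw [hLR] at hL
  exact tendsto_nhds_unique hL hR

end ZGM

theorem specZG : SpecZG := by
  intro O G p z₁ R hO hG h0 hpos hp hder hint χ hχ hc ht
  have H : ZGM.Hyp O G p z₁ R := ⟨hO, hG, h0, hpos, hp, hder, hint⟩
  exact ⟨ZGM.lim1 H χ hχ hc ht, fun e => ZGM.lim2 H χ hχ hc ht e⟩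

end

end Pool.Agent.Lib.MP250511.SB
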