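import Pool.Agent.Lib.MP_250511_an.SB.SpecZ

set_option autoImplicit false

namespace Pool.Agent.Lib.MP250511.SB

open Complex Metric Set MeasureTheory Filter Topology
open scoped Real ENNReal ComplexConjugate ContDiff

namespace ZHM

/-! ### The function `Gt` -/

lemma zero_mem {f g : ℂ → ℂ} {Ω : Set ℂ} (hP : Pair f g Ω) : (0 : ℂ) ∈ Ω := by
  rw [← hP.im]
  exact ⟨0, mem_ball_self one_pos, hP.zero⟩

lemma g_ne {f g : ℂ → ℂ} {Ω : Set ℂ} (hP : Pair f g Ω) {z : ℂ} (hz : z ∈ Ω) (h0 : z ≠ 0) :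
    g z ≠ 0 := by
  intro h
  have h1 := hP.FG z hz
  rw [h, hP.zero] at h1
  exact h0 h1.symm

lemma Gt_in {g : ℂ → ℂ} {Ω : Set ℂ} {z : ℂ} (hz : z ∈ Ω) : Gt g Ω z = - Real.log ‖g z‖ := by
  simp [Gt, hz]

lemma Gt_out {g : ℂ → ℂ} {Ω : Set ℂ} {z : ℂ} (hz : z ∉ Ω) : Gt g Ω z = 0 := by
  simp [Gt, hz]

lemma hasF {f g : ℂ → ℂ} {Ω : Set ℂ} (hP : Pair f g Ω) {z : ℂ} (hz : z ∈ Ω) (h0 : z ≠ 0) :
    HasFDerivAt (Gt g Ω) (-(Complex.reCLM.comp
      ((ContinuousLinearMap.toSpanSingleton ℂ (deriv g z / g z)).restrictScalars ℝ))) z := by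
  have hg := g_ne hP hz h0
  have hd : HasDerivAt g (deriv g z) z := (hP.gan z hz).differentiableAt.hasDerivAt
  have h1 : HasDerivAt (fun w => Complex.log (g w / g z)) (deriv g z / g z) z := by
    have := (hd.div_const (g z)).clog (by rw [div_self hg]; exact Complex.one_mem_slitPlane)
    rwa [div_self hg, div_one] at this
  have h2 := Complex.reCLM.hasFDerivAt.comp z (h1.hasFDerivAt.restrictScalars ℝ)
  have h3 := (h2.neg).sub_const (Real.log ‖g z‖)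
  refine h3.congr_of_eventuallyEq ?_
  filter_upwards [hP.op.mem_nhds hz, hd.continuousAt.eventually_ne hg] with w hw hw0
  rw [Gt_in hw]
  have h4 : Real.log (‖g w‖ / ‖g z‖) = Real.log ‖g w‖ - Real.log ‖g z‖ :=
    Real.log_div (norm_ne_zero_iff.2 hw0) (norm_ne_zero_iff.2 hg)
  simp [Complex.log_re, h4]

lemma Gt_diff {f g : ℂ → ℂ} {Ω : Set ℂ} (hP : Pair f g Ω) {z : ℂ} (hz : z ∈ Ω) (h0 : z ≠ 0) :
    DifferentiableAt ℝ (Gt g Ω) z ∧ ∀ h : ℂ, fderiv ℝ (Gt g Ω) z h =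
      -(deriv g z / g z * h).re := by
  have h1 := hasF hP hz h0
  refine ⟨h1.differentiableAt, fun h => ?_⟩
  rw [h1.fderiv]
  simp [mul_comm]

lemma Gt_cont {f g : ℂ → ℂ} {Ω : Set ℂ} (hP : Pair f g Ω) {z : ℂ} (h0 : z ≠ 0) :
    ContinuousAt (Gt g Ω) z := by
  by_cases hz : z ∈ Ω
  · exact (hasF hP hz h0).continuousAt
  · rw [Metric.continuousAt_iff]
    intro ε hε
    have hs : Real.exp (-ε) < 1 := by
      rw [← Real.exp_zero]
      exact Real.exp_lt_exp.2 (by linarith)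
    obtain ⟨δ, hδ, h⟩ := hP.bd z hz _ hs
    refine ⟨δ, hδ, fun {w} hw => ?_⟩
    rw [Gt_out hz]
    by_cases hwΩ : w ∈ Ω
    · rw [Gt_in hwΩ, Real.dist_eq, sub_zero, abs_neg]
      have h1 := h w hwΩ hw
      have h2 := hP.gm w hwΩ
      have h5 : 0 < ‖g w‖ := (Real.exp_pos _).trans h1
      have h3 : -ε < Real.log ‖g w‖ := by
        rw [Real.lt_log_iff_exp_lt h5]
        exact h1
      have h4 : Real.log ‖g w‖ < 0 := Real.log_neg h5 h2
      rw [abs_of_neg h4]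
      linarith
    · rw [Gt_out hwΩ, dist_self]
      exact hε

/-! ### The two applications of `ZG` -/

lemma p_an {f g : ℂ → ℂ} {Ω : Set ℂ} (hP : Pair f g Ω) {S : Set ℂ} (hS : S ⊆ Ω)
    (h0 : ∀ z ∈ S, z ≠ 0) : AnalyticOnNhd ℂ (fun z => deriv g z / g z) S := fun z hz =>
  ((hP.gan z (hS hz)).deriv).div (hP.gan z (hS hz)) (g_ne hP (hS hz) (h0 z hz))

lemma p_int (hINQ : SpecINQ) {f g : ℂ → ℂ} {Ω : Set ℂ} (hP : Pair f g Ω) {ζ : ℂ} {R : ℝ}
    (h0 : (0 : ℂ) ∉ closedBall ζ R) :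
    IntegrableOn (fun z => ‖deriv g z / g z‖ ^ 2) (Ω ∩ ball ζ R) := by
  have h1 := (hINQ f g Ω hP ζ R h0).norm
  refine h1.congr (Filter.Eventually.of_forall fun z => ?_)
  simp [qG, norm_pow]

lemma app1 (hINQ : SpecINQ) (hZG : SpecZG) {f g : ℂ → ℂ} {Ω : Set ℂ} (hP : Pair f g Ω) {ζ : ℂ}
    {R : ℝ} (h0 : (0 : ℂ) ∉ closedBall ζ R) {χ : ℂ → ℝ} (hχ : ContDiff ℝ ∞ χ)
    (hc : HasCompactSupport χ) (ht : tsupport χ ⊆ ball ζ R) :
    (∫ z in Ω ∩ ball ζ R, χ z * ‖deriv g z / g z‖ ^ 2 =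
      ∫ z in ball ζ R, Gt g Ω z ^ 2 / 2 * lap χ z) ∧
    ∀ e : ℂ, ∫ z in Ω ∩ ball ζ R, χ z * (deriv g z / g z * e).re =
      ∫ z in ball ζ R, Gt g Ω z * fderiv ℝ χ z e := by
  have hne : ∀ z ∈ ball ζ R, z ≠ 0 := by
    rintro z hz rfl
    exact h0 (ball_subset_closedBall hz)
  refine hZG Ω (Gt g Ω) (fun z => deriv g z / g z) ζ R hP.op
    (fun z hz => (Gt_cont hP (hne z hz)).continuousWithinAt) (fun z _ hz => Gt_out hz) ?_
    (p_an hP inter_subset_left fun z hz => hne z hz.2)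
    (fun z hz => Gt_diff hP hz.1 (hne z hz.2)) (p_int hINQ hP h0) χ hχ hc ht
  intro z hz
  rw [Gt_in hz.1]
  have h1 : Real.log ‖g z‖ < 0 :=
    Real.log_neg (norm_pos_iff.2 (g_ne hP hz.1 (hne z hz.2))) (hP.gm z hz.1)
  linarith

lemma xx_cont (ζ n : ℂ) : Continuous (xx ζ n) := by
  unfold xx
  fun_prop

lemma U_diff (ζ n : ℂ) {z : ℂ} (hz : xx ζ n z < 0) :
    DifferentiableAt ℝ (fun z => max 0 (- xx ζ n z)) z ∧ ∀ h : ℂ,
      fderiv ℝ (fun z => max 0 (- xx ζ n z)) z h = -(conj n * h).re := by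
  have h1 : HasFDerivAt (fun z : ℂ => (z - ζ) * conj n)
      ((ContinuousLinearMap.toSpanSingleton ℂ (conj n)).restrictScalars ℝ) z := by
    have : HasDerivAt (fun z : ℂ => (z - ζ) * conj n) (1 * conj n) z :=
      ((hasDerivAt_id z).sub_const ζ).mul_const (conj n)
    rw [one_mul] at this
    exact this.hasFDerivAt.restrictScalars ℝ
  have h2 := (Complex.reCLM.hasFDerivAt.comp z h1).neg
  have h3 : HasFDerivAt (fun z => max 0 (- xx ζ n z)) (-(Complex.reCLM.comp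
      ((ContinuousLinearMap.toSpanSingleton ℂ (conj n)).restrictScalars ℝ))) z := by
    refine h2.congr_of_eventuallyEq ?_
    filter_upwards [(isOpen_lt (xx_cont ζ n) continuous_const).mem_nhds hz] with w hw
    have hw' : xx ζ n w < 0 := hw
    rw [max_eq_right (by linarith)]
    rfl
  refine ⟨h3.differentiableAt, fun h => ?_⟩
  rw [h3.fderiv]
  simp [mul_comm]

lemma conj_mul_self {n : ℂ} (hn : ‖n‖ = 1) : conj n * n = 1 := by
  rw [mul_comm, Complex.mul_conj, Complex.normSq_eq_norm_sq, hn]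
  norm_num

lemma app2 (hZG : SpecZG) {ζ n : ℂ} (hn : ‖n‖ = 1)
    {R : ℝ} {χ : ℂ → ℝ} (hχ : ContDiff ℝ ∞ χ)
    (hc : HasCompactSupport χ) (ht : tsupport χ ⊆ ball ζ R) :
    (∫ z in {z | xx ζ n z < 0} ∩ ball ζ R, χ z =
      ∫ z in ball ζ R, (max 0 (- xx ζ n z)) ^ 2 / 2 * lap χ z) ∧
    ∫ z in {z | xx ζ n z < 0} ∩ ball ζ R, χ z =
      ∫ z in ball ζ R, (max 0 (- xx ζ n z)) * fderiv ℝ χ z n := by
  have hO : IsOpen {z | xx ζ n z < 0} := isOpen_lt (xx_cont ζ n) continuous_const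
  have hfin : volume ({z | xx ζ n z < 0} ∩ ball ζ R) ≠ ⊤ :=
    ((measure_mono inter_subset_right).trans_lt measure_ball_lt_top).ne
  have h := hZG {z | xx ζ n z < 0} (fun z => max 0 (- xx ζ n z)) (fun _ => conj n) ζ R hO
    (continuous_const.max (xx_cont ζ n).neg).continuousOn
    (fun z _ hz => by
      have hz' : ¬ xx ζ n z < 0 := hz
      rw [max_eq_left (by linarith)])
    (fun z hz => by
      have hz' : xx ζ n z < 0 := hz.1
      exact lt_max_of_lt_right (by linarith))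
    (fun z _ => analyticAt_const)
    (fun z hz => U_diff ζ n hz.1)
    (integrableOn_const hfin) χ hχ hc ht
  constructor
  · rw [← h.1]
    refine setIntegral_congr_fun (hO.inter isOpen_ball).measurableSet fun z _ => ?_
    simp [hn]
  · rw [← h.2 n]
    refine setIntegral_congr_fun (hO.inter isOpen_ball).measurableSet fun z _ => ?_
    simp only [conj_mul_self hn]
    simp

/-! ### The bump function -/

lemma sc {F : ℂ → ℝ} (hF : Differentiable ℝ F) (ζ : ℂ) (m : ℝ) (z e : ℂ) :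
    fderiv ℝ (fun z => F (m • (z - ζ))) z e = m * fderiv ℝ F (m • (z - ζ)) e := by
  have h1 : HasFDerivAt (fun z : ℂ => m • (z - ζ)) (m • ContinuousLinearMap.id ℝ ℂ) z :=
    ((hasFDerivAt_id z).sub_const ζ).const_smul m
  have h2 := ((hF (m • (z - ζ))).hasFDerivAt.comp z h1).fderiv
  have h3 : (F ∘ fun z : ℂ => m • (z - ζ)) = fun z => F (m • (z - ζ)) := rfl
  rw [h3] at h2
  rw [h2]
  simp

lemma bump : ∃ C > 0, ∀ (ζ : ℂ) (ℓ : ℝ), 0 < ℓ → ∃ χ : ℂ → ℝ, ContDiff ℝ ∞ χ ∧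
    HasCompactSupport χ ∧ tsupport χ ⊆ ball ζ (3 * ℓ) ∧ (∀ z, 0 ≤ χ z ∧ χ z ≤ 1) ∧
    (∀ z ∈ ball ζ ℓ, χ z = 1) ∧ (∀ z e, |fderiv ℝ χ z e| ≤ C / ℓ * ‖e‖) ∧
    ∀ z, |lap χ z| ≤ C / ℓ ^ 2 := by
  let χ₀ : ContDiffBump (0 : ℂ) := ⟨1, 2, one_pos, one_lt_two⟩
  have hsm : ContDiff ℝ ∞ (χ₀ : ℂ → ℝ) := χ₀.contDiff
  have hcs : HasCompactSupport (χ₀ : ℂ → ℝ) := χ₀.hasCompactSupport
  have hd1 : ContDiff ℝ ∞ (fderiv ℝ (χ₀ : ℂ → ℝ)) := hsm.fderiv_right (by norm_num)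
  have hdir : ∀ e : ℂ, ContDiff ℝ ∞ (fun w => fderiv ℝ (χ₀ : ℂ → ℝ) w e) := fun e =>
    hd1.clm_apply contDiff_const
  have hdirc : ∀ e : ℂ, HasCompactSupport (fun w => fderiv ℝ (χ₀ : ℂ → ℝ) w e) := fun e =>
    hcs.fderiv_apply ℝ e
  obtain ⟨C₁, hC₁⟩ := hd1.continuous.bounded_above_of_compact_support (hcs.fderiv ℝ)
  have h2 : ∀ e : ℂ, ∃ C, ∀ w, |fderiv ℝ (fun w => fderiv ℝ (χ₀ : ℂ → ℝ) w e) w e| ≤ C := by
    intro e
    have hc2 : Continuous (fun w => fderiv ℝ (fun w => fderiv ℝ (χ₀ : ℂ → ℝ) w e) w e) :=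
      (((hdir e).fderiv_right (m := ∞) (by norm_num)).clm_apply contDiff_const).continuous
    obtain ⟨C, hC⟩ := hc2.bounded_above_of_compact_support ((hdirc e).fderiv_apply ℝ e)
    exact ⟨C, hC⟩
  obtain ⟨C₂, hC₂⟩ := h2 1
  obtain ⟨C₃, hC₃⟩ := h2 I
  refine ⟨1 + |C₁| + |C₂| + |C₃|, by positivity, fun ζ ℓ hℓ => ?_⟩
  have hm : 0 < ℓ⁻¹ := inv_pos.2 hℓ
  have hsup : ∀ z : ℂ, ℓ⁻¹ • (z - ζ) ∈ closedBall (0 : ℂ) 2 → z ∈ closedBall ζ (2 * ℓ) := by
    intro z hz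
    rw [mem_closedBall_zero_iff, norm_smul, Real.norm_eq_abs, abs_of_pos hm] at hz
    rw [mem_closedBall, dist_eq_norm]
    rw [inv_mul_le_iff₀ hℓ] at hz
    linarith
  have htsup : tsupport (fun z : ℂ => χ₀ (ℓ⁻¹ • (z - ζ))) ⊆ closedBall ζ (2 * ℓ) := by
    refine closure_minimal (fun z hz => hsup z ?_) isClosed_closedBall
    have h3 : ℓ⁻¹ • (z - ζ) ∈ Function.support (χ₀ : ℂ → ℝ) := hz
    rw [χ₀.support_eq] at h3
    exact ball_subset_closedBall h3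
  refine ⟨fun z => χ₀ (ℓ⁻¹ • (z - ζ)), ?_, ?_, ?_, ?_, ?_, ?_, ?_⟩
  · exact hsm.comp ((contDiff_id.sub contDiff_const).const_smul ℓ⁻¹)
  · exact (isCompact_closedBall ζ (2 * ℓ)).of_isClosed_subset (isClosed_tsupport _) htsup
  · exact htsup.trans (closedBall_subset_ball (by linarith))
  · exact fun z => ⟨χ₀.nonneg, χ₀.le_one⟩
  · intro z hz
    refine χ₀.one_of_mem_closedBall ?_
    rw [mem_closedBall_zero_iff, norm_smul, Real.norm_eq_abs, abs_of_pos hm]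
    rw [mem_ball, dist_eq_norm] at hz
    rw [inv_mul_le_iff₀ hℓ]
    show ‖z - ζ‖ ≤ ℓ * 1
    linarith
  · intro z e
    rw [sc (hsm.differentiable (by norm_num)), abs_mul, abs_of_pos hm]
    have h4 : |fderiv ℝ (χ₀ : ℂ → ℝ) (ℓ⁻¹ • (z - ζ)) e| ≤ C₁ * ‖e‖ :=
      (ContinuousLinearMap.le_opNorm _ _).trans
        (mul_le_mul_of_nonneg_right (hC₁ _) (norm_nonneg _))
    calc ℓ⁻¹ * |fderiv ℝ (χ₀ : ℂ → ℝ) (ℓ⁻¹ • (z - ζ)) e|
        ≤ ℓ⁻¹ * ((1 + |C₁| + |C₂| + |C₃|) * ‖e‖) := by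
          refine mul_le_mul_of_nonneg_left (h4.trans ?_) hm.le
          refine mul_le_mul_of_nonneg_right ?_ (norm_nonneg _)
          have := le_abs_self C₁
          have := abs_nonneg C₂
          have := abs_nonneg C₃
          linarith
      _ = _ := by ring
  · intro z
    have h5 : ∀ e : ℂ, fderiv ℝ (fun w => fderiv ℝ (fun z : ℂ => χ₀ (ℓ⁻¹ • (z - ζ))) w e) z e =
        ℓ⁻¹ * (ℓ⁻¹ * fderiv ℝ (fun w => fderiv ℝ (χ₀ : ℂ → ℝ) w e) (ℓ⁻¹ • (z - ζ)) e) := by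
      intro e
      have h6 : (fun w => fderiv ℝ (fun z : ℂ => χ₀ (ℓ⁻¹ • (z - ζ))) w e) =
          fun w => ℓ⁻¹ * (fun w => fderiv ℝ (χ₀ : ℂ → ℝ) w e) (ℓ⁻¹ • (w - ζ)) := by
        funext w
        exact sc (hsm.differentiable (by norm_num)) ζ ℓ⁻¹ w e
      rw [h6]
      have h7 : DifferentiableAt ℝ (fun w : ℂ => (fun w => fderiv ℝ (χ₀ : ℂ → ℝ) w e)
          (ℓ⁻¹ • (w - ζ))) z := by
        have : ContDiff ℝ ∞ (fun w : ℂ => (fun w => fderiv ℝ (χ₀ : ℂ → ℝ) w e)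
          (ℓ⁻¹ • (w - ζ))) := (hdir e).comp ((contDiff_id.sub contDiff_const).const_smul ℓ⁻¹)
        exact this.differentiable (by norm_num) z
      rw [fderiv_const_mul h7, smul_apply,
        sc ((hdir e).differentiable (by norm_num)), smul_eq_mul]
    unfold lap
    rw [h5, h5]
    have h8 := hC₂ (ℓ⁻¹ • (z - ζ))
    have h9 := hC₃ (ℓ⁻¹ • (z - ζ))
    have h10 := abs_add_le (ℓ⁻¹ * (ℓ⁻¹ * fderiv ℝ (fun w => fderiv ℝ (χ₀ : ℂ → ℝ) w 1)
      (ℓ⁻¹ • (z - ζ)) 1)) (ℓ⁻¹ * (ℓ⁻¹ * fderiv ℝ (fun w => fderiv ℝ (χ₀ : ℂ → ℝ) w I)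
      (ℓ⁻¹ • (z - ζ)) I))
    refine h10.trans ?_
    rw [abs_mul, abs_mul, abs_mul, abs_mul, abs_of_pos hm]
    calc _ ≤ ℓ⁻¹ * (ℓ⁻¹ * C₂) + ℓ⁻¹ * (ℓ⁻¹ * C₃) := by gcongr
      _ ≤ ℓ⁻¹ * (ℓ⁻¹ * (1 + |C₁| + |C₂| + |C₃|)) := by
        rw [← mul_add, ← mul_add]
        refine mul_le_mul_of_nonneg_left (mul_le_mul_of_nonneg_left ?_ hm.le) hm.le
        have := le_abs_self C₂
        have := le_abs_self C₃
        have := abs_nonneg C₁
        linarith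
      _ = _ := by
        field_simp

/-! ### The area of a strip -/

lemma strip (ζ n : ℂ) (hn : ‖n‖ = 1) (A B : ℝ) :
    volume {z : ℂ | |((z - ζ) * conj n).re| ≤ A ∧ |((z - ζ) * conj n).im| ≤ B} =
      ENNReal.ofReal (2 * A) * ENNReal.ofReal (2 * B) := by
  let u : Circle := Circle.exp (arg (conj n))
  have hu : (u : ℂ) = conj n := by
    have h1 := Complex.norm_mul_exp_arg_mul_I (conj n)
    rw [RCLike.norm_conj, hn, Complex.ofReal_one, one_mul] at h1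
    exact h1
  have h2 : MeasurePreserving (rotation u) volume volume := (rotation u).measurePreserving
  have h3 : MeasurePreserving (fun z : ℂ => z - ζ) volume volume :=
    measurePreserving_sub_right volume ζ
  have h4 := h2.comp h3
  have h5 := Complex.volume_preserving_equiv_real_prod
  have hset : {z : ℂ | |((z - ζ) * conj n).re| ≤ A ∧ |((z - ζ) * conj n).im| ≤ B} =
      (Complex.measurableEquivRealProd ∘ ((rotation u) ∘ fun z : ℂ => z - ζ)) ⁻¹'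
        (Icc (-A) A ×ˢ Icc (-B) B) := by
    ext z
    simp only [mem_ofPred_eq, mem_preimage, Function.comp, rotation_apply, hu, mem_prod, mem_Icc,
      Complex.measurableEquivRealProd_apply, abs_le, mul_comm (conj n)]
  have h6 := h5.comp h4
  rw [hset, h6.measure_preimage (measurableSet_Icc.prod measurableSet_Icc).nullMeasurableSet,
    Measure.volume_eq_prod, Measure.prod_prod, Real.volume_Icc, Real.volume_Icc]
  congr 2 <;> ring

/-- the part of the strip near the inner ball -/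
lemma area {Ω : Set ℂ} {ζ n : ℂ} {κ ℓ : ℝ} (hn : ‖n‖ = 1) (hκ : 0 < κ) (hℓ : 0 < ℓ)
    (hin : ball (ζ + (κ : ℂ) * n) κ ⊆ Ωᶜ) :
    volume.real ((Ω \ {z | xx ζ n z < 0}) ∩ ball ζ (3 * ℓ)) ≤ 54 * ℓ ^ 3 / κ := by
  have hsub : (Ω \ {z | xx ζ n z < 0}) ∩ ball ζ (3 * ℓ) ⊆
      {z : ℂ | |((z - ζ) * conj n).re| ≤ 9 * ℓ ^ 2 / (2 * κ) ∧
        |((z - ζ) * conj n).im| ≤ 3 * ℓ} := by
    rintro z ⟨⟨hz, hx⟩, hb⟩
    have hx' : 0 ≤ ((z - ζ) * conj n).re := not_lt.1 hx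
    rw [mem_ball, dist_eq_norm] at hb
    have hw : ‖(z - ζ) * conj n‖ = ‖z - ζ‖ := by rw [norm_mul, RCLike.norm_conj, hn, mul_one]
    have h1 : κ ≤ ‖z - (ζ + (κ : ℂ) * n)‖ := by
      by_contra hlt
      push Not at hlt
      refine hin (a := z) ?_ hz
      rwa [mem_ball, dist_eq_norm]
    have h2 : ‖z - (ζ + (κ : ℂ) * n)‖ = ‖(z - ζ) * conj n - (κ : ℂ)‖ := by
      have h3 : (z - ζ) * conj n - (κ : ℂ) = (z - (ζ + (κ : ℂ) * n)) * conj n := by
        have := conj_mul_self hn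
        linear_combination (κ : ℂ) * this
      rw [h3, norm_mul, RCLike.norm_conj, hn, mul_one]
    rw [h2] at h1
    have h4 : κ ^ 2 ≤ ‖(z - ζ) * conj n - (κ : ℂ)‖ ^ 2 := by gcongr
    have h5 : ‖(z - ζ) * conj n - (κ : ℂ)‖ ^ 2 = ‖z - ζ‖ ^ 2 - 2 * κ * ((z - ζ) * conj n).re +
        κ ^ 2 := by
      rw [← hw, ← Complex.normSq_eq_norm_sq, ← Complex.normSq_eq_norm_sq, Complex.normSq_apply,
        Complex.normSq_apply]
      simp only [Complex.sub_re, Complex.sub_im, Complex.ofReal_re, Complex.ofReal_im]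
      ring
    have h6 : ‖z - ζ‖ ^ 2 ≤ (3 * ℓ) ^ 2 := by gcongr
    refine ⟨?_, ?_⟩
    · rw [abs_of_nonneg hx', le_div_iff₀ (by positivity)]
      nlinarith
    · exact (Complex.abs_im_le_norm _).trans (hw.le.trans hb.le)
  have h7 := measure_mono (μ := volume) hsub
  rw [strip ζ n hn] at h7
  rw [Measure.real]
  refine (ENNReal.toReal_mono (ENNReal.mul_lt_top ENNReal.ofReal_lt_top
    ENNReal.ofReal_lt_top).ne h7).trans ?_
  rw [ENNReal.toReal_mul, ENNReal.toReal_ofReal (by positivity),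
    ENNReal.toReal_ofReal (by positivity)]
  apply le_of_eq
  field_simp
  ring

lemma norm_sub_sq (p n : ℂ) (a : ℝ) (hn : ‖n‖ = 1) :
    ‖p - (a : ℂ) * conj n‖ ^ 2 = ‖p‖ ^ 2 - 2 * a * (p * n).re + a ^ 2 := by
  have h1 : n.re ^ 2 + n.im ^ 2 = 1 := by
    have h2 := Complex.normSq_eq_norm_sq n
    rw [hn, Complex.normSq_apply] at h2
    nlinarith
  rw [← Complex.normSq_eq_norm_sq, ← Complex.normSq_eq_norm_sq, Complex.normSq_apply,
    Complex.normSq_apply]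
  simp only [Complex.sub_re, Complex.sub_im, Complex.mul_re, Complex.mul_im, Complex.ofReal_re,
    Complex.ofReal_im, Complex.conj_re, Complex.conj_im]
  linear_combination a ^ 2 * h1

lemma lap_cont {χ : ℂ → ℝ} (hχ : ContDiff ℝ ∞ χ) : Continuous (lap χ) := by
  have hd1 : ContDiff ℝ ∞ (fderiv ℝ χ) := hχ.fderiv_right (by norm_num)
  have h : ∀ e : ℂ, Continuous (fun w => fderiv ℝ (fun w => fderiv ℝ χ w e) w e) := fun e =>
    (((hd1.clm_apply contDiff_const).fderiv_right (m := ∞) (by norm_num)).clm_apply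
      contDiff_const).continuous
  exact (h 1).add (h I)

lemma key (hINQ : SpecINQ) (hZG : SpecZG) {C : ℝ} (hC : 0 < C) {f g : ℂ → ℂ} {Ω : Set ℂ}
    {κ a ε ℓ : ℝ} {ζ n : ℂ} (hP : Pair f g Ω) (hκ : 0 < κ) (hn : ‖n‖ = 1)
    (hin : ball (ζ + (κ : ℂ) * n) κ ⊆ Ωᶜ) (ha : 0 ≤ a) (hε : 0 ≤ ε) (hε1 : ε ≤ 1) (hℓ : 0 < ℓ)
    (hlζ : 3 * ℓ < ‖ζ‖)
    (hG : ∀ z ∈ ball ζ (3 * ℓ), |Gt g Ω z - a * max 0 (- xx ζ n z)| ≤ ε * (3 * ℓ))
    {χ : ℂ → ℝ} (hχ : ContDiff ℝ ∞ χ) (hc : HasCompactSupport χ)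
    (ht : tsupport χ ⊆ ball ζ (3 * ℓ)) (h01 : ∀ z, 0 ≤ χ z ∧ χ z ≤ 1)
    (h1 : ∀ z ∈ ball ζ ℓ, χ z = 1) (hf : ∀ z e, |fderiv ℝ χ z e| ≤ C / ℓ * ‖e‖)
    (hl : ∀ z, |lap χ z| ≤ C / ℓ ^ 2) :
    ∫ z in Ω ∩ ball ζ ℓ, ‖deriv g z / g z - (a : ℂ) * conj n‖ ^ 2 ≤
      (41 * π * C * (1 + 2 * a) + 54 * π * a * C) * ε * ℓ ^ 2 + a ^ 2 * (54 * ℓ ^ 3 / κ) := by
  have h0 : (0 : ℂ) ∉ closedBall ζ (3 * ℓ) := by
    intro h
    rw [mem_closedBall, dist_eq_norm, zero_sub, norm_neg] at h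
    linarith
  have hne : ∀ z ∈ closedBall ζ (3 * ℓ), z ≠ 0 := by
    rintro z hz rfl
    exact h0 hz
  have hSm : MeasurableSet (Ω ∩ ball ζ (3 * ℓ)) := (hP.op.inter isOpen_ball).measurableSet
  have hpan := p_an hP (S := Ω ∩ ball ζ (3 * ℓ)) inter_subset_left
    fun z hz => hne z (ball_subset_closedBall hz.2)
  have hpint := p_int hINQ hP h0
  have hfin : volume (Ω ∩ ball ζ (3 * ℓ)) ≠ ⊤ :=
    ((measure_mono inter_subset_right).trans_lt measure_ball_lt_top).ne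
  have hone : IntegrableOn (fun _ : ℂ => (1 : ℝ)) (Ω ∩ ball ζ (3 * ℓ)) := integrableOn_const hfin
  have hχm : AEStronglyMeasurable χ (volume.restrict (Ω ∩ ball ζ (3 * ℓ))) :=
    hχ.continuous.aestronglyMeasurable
  have hχb : ∀ᵐ z ∂(volume.restrict (Ω ∩ ball ζ (3 * ℓ))), ‖χ z‖ ≤ 1 :=
    Filter.Eventually.of_forall fun z => by
      rw [Real.norm_eq_abs, abs_of_nonneg (h01 z).1]
      exact (h01 z).2
  have hren : IntegrableOn (fun z => (deriv g z / g z * n).re) (Ω ∩ ball ζ (3 * ℓ)) := by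
    refine Integrable.mono' (hone.add hpint) ?_ (Filter.Eventually.of_forall fun z => ?_)
    · refine ContinuousOn.aestronglyMeasurable (fun z hz => ?_) hSm
      exact (Complex.continuous_re.continuousAt.comp
        ((hpan z hz).continuousAt.mul continuousAt_const)).continuousWithinAt
    · rw [Real.norm_eq_abs]
      refine (Complex.abs_re_le_norm _).trans ?_
      rw [norm_mul, hn, mul_one]
      simp only [Pi.add_apply]
      nlinarith [sq_nonneg (‖deriv g z / g z‖ - 1)]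
  have i1 : IntegrableOn (fun z => χ z * ‖deriv g z / g z‖ ^ 2) (Ω ∩ ball ζ (3 * ℓ)) :=
    hpint.bdd_mul hχm hχb
  have i2 : IntegrableOn (fun z => χ z * (deriv g z / g z * n).re) (Ω ∩ ball ζ (3 * ℓ)) :=
    hren.bdd_mul hχm hχb
  have i3 : IntegrableOn χ (Ω ∩ ball ζ (3 * ℓ)) :=
    (hχ.continuous.integrable_of_hasCompactSupport hc).integrableOn
  have i4 : IntegrableOn (fun z => χ z * ‖deriv g z / g z‖ ^ 2 -
      2 * a * (χ z * (deriv g z / g z * n).re)) (Ω ∩ ball ζ (3 * ℓ)) := i1.sub (i2.const_mul _)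
  have hpt : ∀ z, χ z * ‖deriv g z / g z - (a : ℂ) * conj n‖ ^ 2 =
      χ z * ‖deriv g z / g z‖ ^ 2 - 2 * a * (χ z * (deriv g z / g z * n).re) + a ^ 2 * χ z := by
    intro z
    rw [norm_sub_sq _ _ _ hn]
    ring
  have e1 : ∫ z in Ω ∩ ball ζ ℓ, ‖deriv g z / g z - (a : ℂ) * conj n‖ ^ 2 ≤
      ∫ z in Ω ∩ ball ζ (3 * ℓ), χ z * ‖deriv g z / g z - (a : ℂ) * conj n‖ ^ 2 := by
    have e0 : ∫ z in Ω ∩ ball ζ ℓ, ‖deriv g z / g z - (a : ℂ) * conj n‖ ^ 2 =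
        ∫ z in Ω ∩ ball ζ ℓ, χ z * ‖deriv g z / g z - (a : ℂ) * conj n‖ ^ 2 := by
      refine setIntegral_congr_fun (hP.op.inter isOpen_ball).measurableSet fun z hz => ?_
      simp only [h1 z hz.2, one_mul]
    rw [e0]
    refine setIntegral_mono_set ?_ (Filter.Eventually.of_forall fun z =>
      mul_nonneg (h01 z).1 (by positivity)) (HasSubset.Subset.eventuallyLE
        (inter_subset_inter_right _ (ball_subset_ball (by linarith))))
    simp only [hpt]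
    exact i4.add (i3.const_mul _)
  have e2 : ∫ z in Ω ∩ ball ζ (3 * ℓ), χ z * ‖deriv g z / g z - (a : ℂ) * conj n‖ ^ 2 =
      (∫ z in Ω ∩ ball ζ (3 * ℓ), χ z * ‖deriv g z / g z‖ ^ 2) -
        2 * a * (∫ z in Ω ∩ ball ζ (3 * ℓ), χ z * (deriv g z / g z * n).re) +
        a ^ 2 * ∫ z in Ω ∩ ball ζ (3 * ℓ), χ z := by
    simp only [hpt]
    rw [integral_add i4 (i3.const_mul _), integral_sub i1 (i2.const_mul _), integral_const_mul,
      integral_const_mul]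
  have e3 := app1 hINQ hZG hP h0 hχ hc ht
  rw [e3.1, e3.2 n] at e2
  have e4 := app2 hZG hn (ζ := ζ) hχ hc ht
  have hHm : MeasurableSet {z | xx ζ n z < 0} :=
    (isOpen_lt (xx_cont ζ n) continuous_const).measurableSet
  have e5 : ∫ z in Ω ∩ ball ζ (3 * ℓ), χ z ≤
      (∫ z in {z | xx ζ n z < 0} ∩ ball ζ (3 * ℓ), χ z) + 54 * ℓ ^ 3 / κ := by
    have hχi : Integrable χ := hχ.continuous.integrable_of_hasCompactSupport hc
    have hDm : MeasurableSet ((Ω \ {z | xx ζ n z < 0}) ∩ ball ζ (3 * ℓ)) :=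
      (hP.op.measurableSet.diff hHm).inter isOpen_ball.measurableSet
    have hsub : Ω ∩ ball ζ (3 * ℓ) ⊆ ({z | xx ζ n z < 0} ∩ ball ζ (3 * ℓ)) ∪
        ((Ω \ {z | xx ζ n z < 0}) ∩ ball ζ (3 * ℓ)) := by
      rintro z ⟨hz, hb⟩
      by_cases hx : z ∈ {z | xx ζ n z < 0}
      · exact Or.inl ⟨hx, hb⟩
      · exact Or.inr ⟨⟨hz, hx⟩, hb⟩
    have hdis : Disjoint ({z | xx ζ n z < 0} ∩ ball ζ (3 * ℓ))
        ((Ω \ {z | xx ζ n z < 0}) ∩ ball ζ (3 * ℓ)) := by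
      rw [Set.disjoint_left]
      rintro z hz hz'
      exact hz'.1.2 hz.1
    have s1 : ∫ z in Ω ∩ ball ζ (3 * ℓ), χ z ≤
        ∫ z in ({z | xx ζ n z < 0} ∩ ball ζ (3 * ℓ)) ∪
          ((Ω \ {z | xx ζ n z < 0}) ∩ ball ζ (3 * ℓ)), χ z :=
      setIntegral_mono_set hχi.integrableOn (Filter.Eventually.of_forall fun z => (h01 z).1)
        hsub.eventuallyLE
    rw [setIntegral_union hdis hDm hχi.integrableOn hχi.integrableOn] at s1
    have hfin2 : volume ((Ω \ {z | xx ζ n z < 0}) ∩ ball ζ (3 * ℓ)) < ⊤ :=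
      (measure_mono inter_subset_right).trans_lt measure_ball_lt_top
    have s2 := norm_setIntegral_le_of_norm_le_const (f := χ) (C := 1) hfin2 (fun z _ => by
      rw [Real.norm_eq_abs, abs_of_nonneg (h01 z).1]
      exact (h01 z).2)
    have s3 := area hn hκ hℓ hin
    have s4 := le_abs_self (∫ z in (Ω \ {z | xx ζ n z < 0}) ∩ ball ζ (3 * ℓ), χ z)
    rw [Real.norm_eq_abs] at s2
    linarith
  -- integrability of the boundary terms
  have hGc : ContinuousOn (Gt g Ω) (closedBall ζ (3 * ℓ)) := fun z hz =>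
    (Gt_cont hP (hne z hz)).continuousWithinAt
  have hUc : ContinuousOn (fun z => max 0 (- xx ζ n z)) (closedBall ζ (3 * ℓ)) :=
    (continuous_const.max (xx_cont ζ n).neg).continuousOn
  have hLc : ContinuousOn (lap χ) (closedBall ζ (3 * ℓ)) := (lap_cont hχ).continuousOn
  have hDc : ContinuousOn (fun z => fderiv ℝ χ z n) (closedBall ζ (3 * ℓ)) :=
    ((hχ.continuous_fderiv (by norm_num)).clm_apply continuous_const).continuousOn
  have hI : ∀ F : ℂ → ℝ, ContinuousOn F (closedBall ζ (3 * ℓ)) → IntegrableOn F (ball ζ (3 * ℓ)) :=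
    fun F hF => (hF.integrableOn_compact (isCompact_closedBall _ _)).mono_set
      ball_subset_closedBall
  have j1 := hI (fun z => Gt g Ω z ^ 2 / 2 * lap χ z) (((hGc.pow 2).div_const 2).mul hLc)
  have j2 := hI (fun z => Gt g Ω z * fderiv ℝ χ z n) (hGc.mul hDc)
  have j3 := hI (fun z => (max 0 (- xx ζ n z)) ^ 2 / 2 * lap χ z)
    (((hUc.pow 2).div_const 2).mul hLc)
  have j4 := hI (fun z => (max 0 (- xx ζ n z)) * fderiv ℝ χ z n) (hUc.mul hDc)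
  have hvol : volume.real (ball ζ (3 * ℓ)) = 9 * π * ℓ ^ 2 := by
    rw [Measure.real, Complex.volume_ball]
    simp only [ENNReal.toReal_mul, ENNReal.toReal_pow, ENNReal.coe_toReal, NNReal.coe_real_pi,
      ENNReal.toReal_ofReal (show 0 ≤ 3 * ℓ by positivity)]
    ring
  have hU0 : ∀ z ∈ ball ζ (3 * ℓ), 0 ≤ max 0 (- xx ζ n z) ∧ max 0 (- xx ζ n z) ≤ 3 * ℓ := by
    intro z hz
    refine ⟨le_max_left _ _, max_le (by positivity) ?_⟩
    have h2 := Complex.abs_re_le_norm ((z - ζ) * conj n)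
    rw [norm_mul, RCLike.norm_conj, hn, mul_one] at h2
    rw [mem_ball, dist_eq_norm] at hz
    have h3 := neg_abs_le ((z - ζ) * conj n).re
    show -((z - ζ) * conj n).re ≤ _
    linarith
  have k1 : (∫ z in ball ζ (3 * ℓ), Gt g Ω z ^ 2 / 2 * lap χ z) - a ^ 2 *
      (∫ z in ball ζ (3 * ℓ), (max 0 (- xx ζ n z)) ^ 2 / 2 * lap χ z) ≤
      41 * π * C * (1 + 2 * a) * ε * ℓ ^ 2 := by
    rw [← integral_const_mul, ← integral_sub j1 (j3.const_mul _)]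
    have s1 := norm_setIntegral_le_of_norm_le_const (μ := volume) (s := ball ζ (3 * ℓ))
      (f := fun z => Gt g Ω z ^ 2 / 2 * lap χ z -
        a ^ 2 * ((max 0 (- xx ζ n z)) ^ 2 / 2 * lap χ z))
      (C := 9 / 2 * ε * (1 + 2 * a) * C) measure_ball_lt_top (fun z hz => by
        have t1 := hG z hz
        have t2 := hU0 z hz
        have t3 : |Gt g Ω z + a * max 0 (- xx ζ n z)| ≤ 3 * ℓ * (1 + 2 * a) := by
          have : Gt g Ω z + a * max 0 (- xx ζ n z) = (Gt g Ω z - a * max 0 (- xx ζ n z)) +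
            2 * a * max 0 (- xx ζ n z) := by ring
          rw [this]
          refine (abs_add_le _ _).trans ?_
          rw [abs_mul, abs_of_nonneg (by positivity : 0 ≤ 2 * a), abs_of_nonneg t2.1]
          have t4 : 2 * a * max 0 (- xx ζ n z) ≤ 2 * a * (3 * ℓ) := by gcongr; exact t2.2
          have t5 : ε * (3 * ℓ) ≤ 1 * (3 * ℓ) := by gcongr
          linarith
        have t6 : Gt g Ω z ^ 2 / 2 * lap χ z - a ^ 2 * ((max 0 (- xx ζ n z)) ^ 2 / 2 * lap χ z) =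
          (Gt g Ω z - a * max 0 (- xx ζ n z)) * (Gt g Ω z + a * max 0 (- xx ζ n z)) / 2 *
            lap χ z := by ring
        rw [t6, Real.norm_eq_abs, abs_mul, abs_div, abs_mul, abs_of_pos (two_pos : (0:ℝ) < 2)]
        calc _ ≤ (ε * (3 * ℓ)) * (3 * ℓ * (1 + 2 * a)) / 2 * (C / ℓ ^ 2) := by
              gcongr
              exact hl z
          _ = _ := by
              field_simp
              ring)
    rw [hvol, Real.norm_eq_abs] at s1
    refine (le_abs_self _).trans (s1.trans ?_)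
    have s5 : 0 ≤ π * C * (1 + 2 * a) * ε * ℓ ^ 2 := by positivity
    nlinarith
  have k2 : 2 * a * (a * (∫ z in ball ζ (3 * ℓ), (max 0 (- xx ζ n z)) * fderiv ℝ χ z n) -
      (∫ z in ball ζ (3 * ℓ), Gt g Ω z * fderiv ℝ χ z n)) ≤ 54 * π * a * C * ε * ℓ ^ 2 := by
    rw [← integral_const_mul, ← integral_sub (j4.const_mul _) j2]
    have s1 := norm_setIntegral_le_of_norm_le_const (μ := volume) (s := ball ζ (3 * ℓ))
      (f := fun z => a * ((max 0 (- xx ζ n z)) * fderiv ℝ χ z n) - Gt g Ω z * fderiv ℝ χ z n)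
      (C := 3 * ε * C) measure_ball_lt_top (fun z hz => by
        have t1 := hG z hz
        have t6 : a * ((max 0 (- xx ζ n z)) * fderiv ℝ χ z n) - Gt g Ω z * fderiv ℝ χ z n =
          -((Gt g Ω z - a * max 0 (- xx ζ n z)) * fderiv ℝ χ z n) := by ring
        rw [t6, Real.norm_eq_abs, abs_neg, abs_mul]
        have t7 := hf z n
        rw [hn, mul_one] at t7
        calc _ ≤ (ε * (3 * ℓ)) * (C / ℓ) := by
              gcongr
          _ = _ := by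
              field_simp)
    rw [hvol, Real.norm_eq_abs] at s1
    have s6 := (le_abs_self _).trans s1
    calc _ ≤ 2 * a * (3 * ε * C * (9 * π * ℓ ^ 2)) := by gcongr
      _ = _ := by ring
  have e6 : a ^ 2 * ∫ z in Ω ∩ ball ζ (3 * ℓ), χ z ≤ a ^ 2 *
      ((∫ z in {z | xx ζ n z < 0} ∩ ball ζ (3 * ℓ), χ z) + 54 * ℓ ^ 3 / κ) := by gcongr
  rw [e2] at e1
  have e7 := e4.1
  have e8 := e4.2
  rw [← e8] at k2
  rw [← e7] at k1
  nlinarith

end ZHM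

open ZHM in
theorem specZH (hINQ : SpecINQ) (hZG : SpecZG) : SpecZH := by
  intro f g Ω ρ κ c ζ a hP hρ hκ hT ha hG ε hε
  set n : ℂ := (ζ - c) / (ρ : ℂ) with hndef
  have hn : ‖n‖ = 1 := by
    rw [hndef, norm_div, Complex.norm_real, Real.norm_eq_abs, abs_of_pos hρ, ← dist_eq_norm,
      hT.dist_eq, div_self hρ.ne']
  have hζ : 0 < ‖ζ‖ := by
    rw [norm_pos_iff]
    rintro rfl
    exact hT.out (zero_mem hP)
  obtain ⟨C, hC, hb⟩ := bump
  set K : ℝ := 41 * π * C * (1 + 2 * a) + 54 * π * a * C with hK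
  have hKpos : 0 < K := by positivity
  obtain ⟨r, hr, hG'⟩ := hG (min 1 (ε / (2 * K))) (by positivity)
  refine ⟨min (min (r / 3) (‖ζ‖ / 3)) (ε * κ / (108 * (a ^ 2 + 1))), by positivity,
    fun ℓ hℓ hℓr => ?_⟩
  have hℓ1 : ℓ < r / 3 := hℓr.trans_le ((min_le_left _ _).trans (min_le_left _ _))
  have hℓ2 : ℓ < ‖ζ‖ / 3 := hℓr.trans_le ((min_le_left _ _).trans (min_le_right _ _))
  have hℓ3 : ℓ < ε * κ / (108 * (a ^ 2 + 1)) := hℓr.trans_le (min_le_right _ _)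
  obtain ⟨χ, hχ, hc, ht, h01, h1, hf, hl⟩ := hb ζ ℓ hℓ
  have hk := key hINQ hZG hC hP hκ hn hT.inner ha (ε := min 1 (ε / (2 * K))) (by positivity)
    (min_le_left _ _) hℓ (by linarith) (fun z hz => by
      rw [mem_ball, dist_eq_norm] at hz
      refine (hG' z (by linarith)).trans ?_
      gcongr) hχ hc ht h01 h1 hf hl
  refine hk.trans ?_
  have s1 : K * min 1 (ε / (2 * K)) * ℓ ^ 2 ≤ ε / 2 * ℓ ^ 2 := by
    have : K * min 1 (ε / (2 * K)) ≤ ε / 2 := by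
      calc _ ≤ K * (ε / (2 * K)) := by gcongr; exact min_le_right _ _
        _ = _ := by field_simp
    gcongr
  have s2 : a ^ 2 * (54 * ℓ ^ 3 / κ) ≤ ε / 2 * ℓ ^ 2 := by
    have s3 : ℓ * (108 * (a ^ 2 + 1)) < ε * κ := by
      rwa [lt_div_iff₀ (by positivity)] at hℓ3
    have s4 : a ^ 2 * (54 * ℓ ^ 3 / κ) = (a ^ 2 * 54 * ℓ / κ) * ℓ ^ 2 := by ring
    rw [s4]
    have s5 : a ^ 2 * 54 * ℓ / κ ≤ ε / 2 := by
      rw [div_le_div_iff₀ hκ two_pos]
      nlinarith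
    gcongr
  linarith

end Pool.Agent.Lib.MP250511.SB
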