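import Pool.Agent.Lib.MP_250511_an.SB.SpecZ

/-!
# MP_250511_an, SB, module ZI: the bump function
-/

set_option autoImplicit false

namespace Pool.Agent.Lib.MP250511.SB

open Complex Metric Set MeasureTheory Filter Topology
open scoped Real ENNReal ComplexConjugate ContDiff

noncomputable section

namespace ZIM

theorem eta_smooth : ContDiff ℝ ∞ eta := by
  unfold eta
  exact Real.smoothTransition.contDiff.comp
    (contDiff_const.sub (contDiff_const.mul (contDiff_norm_sq ℝ)))

theorem eta_zero {w : ℂ} (hw : 3 / 4 ≤ ‖w‖) : eta w = 0 := by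
  unfold eta
  refine Real.smoothTransition.zero_of_nonpos ?_
  nlinarith [norm_nonneg w]

theorem eta_supp : HasCompactSupport eta := by
  refine HasCompactSupport.intro (isCompact_closedBall (0 : ℂ) (3 / 4)) fun w hw => eta_zero ?_
  rw [mem_closedBall, dist_zero_right, not_le] at hw
  exact hw.le

theorem eta_tsupport : tsupport eta ⊆ ball 0 1 := by
  have h1 : tsupport eta ⊆ closedBall (0 : ℂ) (3 / 4) := by
    refine closure_minimal (fun w hw => ?_) isClosed_closedBall
    by_contra hcon
    rw [mem_closedBall, dist_zero_right, not_le] at hcon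
    exact hw (eta_zero hcon.le)
  exact h1.trans (closedBall_subset_ball (by norm_num))

theorem eta_rot {n : ℂ} (hn : ‖n‖ = 1) (w : ℂ) : eta (n * w) = eta w := by
  unfold eta
  rw [norm_mul, hn, one_mul]

theorem fderiv_rot {n : ℂ} (hn : ‖n‖ = 1) (w : ℂ) :
    fderiv ℝ eta (n * w) n = fderiv ℝ eta w 1 := by
  have hd : Differentiable ℝ eta := eta_smooth.differentiable (by simp)
  have h1 : HasFDerivAt eta (fderiv ℝ eta (n * w)) (n * w) := (hd _).hasFDerivAt
  have h2 : HasFDerivAt (fun w : ℂ => n * w) (ContinuousLinearMap.mul ℝ ℂ n) w :=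
    (ContinuousLinearMap.mul ℝ ℂ n).hasFDerivAt
  have h3 := HasFDerivAt.comp w h1 h2
  have e : (eta ∘ fun w : ℂ => n * w) = eta := by
    funext w
    exact eta_rot hn w
  rw [e] at h3
  rw [h3.fderiv]
  simp

/-- the integral for `n = 1` -/
def c₀ : ℝ := ∫ w in {w : ℂ | w.re < 0}, fderiv ℝ eta w 1

theorem meas_half : MeasurableSet {w : ℂ | w.re < 0} :=
  measurableSet_lt Complex.measurable_re measurable_const

theorem rot_integral {n : ℂ} (hn : ‖n‖ = 1) :
    ∫ w in {w : ℂ | (w * conj n).re < 0}, fderiv ℝ eta w n = c₀ := by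
  have hS : MeasurableSet {w : ℂ | (w * conj n).re < 0} :=
    measurableSet_lt (Complex.measurable_re.comp (by fun_prop)) measurable_const
  have hnn : n * conj n = 1 := by
    rw [Complex.mul_conj, Complex.normSq_eq_norm_sq, hn]
    norm_num
  have hmem : n ∈ Submonoid.unitSphere ℂ := by
    simp [Submonoid.unitSphere, hn]
  let a : Circle := ⟨n, hmem⟩
  have hrot : ∀ w : ℂ, rotation a w = n * w := fun w => rfl
  unfold c₀
  rw [← MeasureTheory.integral_indicator hS, ← MeasureTheory.integral_indicator meas_half]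
  have h2 := ((rotation a).measurePreserving).integral_comp
    (rotation a).toHomeomorph.measurableEmbedding
    (fun w => Set.indicator {w : ℂ | (w * conj n).re < 0} (fun w => fderiv ℝ eta w n) w)
  rw [← h2]
  refine integral_congr_ae (Eventually.of_forall fun w => ?_)
  simp only [hrot]
  have hiff : n * w ∈ {w : ℂ | (w * conj n).re < 0} ↔ w ∈ {w : ℂ | w.re < 0} := by
    have : n * w * conj n = w := by
      calc n * w * conj n = w * (n * conj n) := by ring
        _ = w := by rw [hnn, mul_one]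
    simp only [Set.mem_ofPred_eq, this]
  by_cases hw : w ∈ {w : ℂ | w.re < 0}
  · rw [Set.indicator_of_mem (hiff.2 hw), Set.indicator_of_mem hw, fderiv_rot hn]
  · rw [Set.indicator_of_notMem (fun h => hw (hiff.1 h)), Set.indicator_of_notMem hw]

theorem line (y : ℝ) : ∫ x in Iic (0 : ℝ), fderiv ℝ eta ((x : ℂ) + (y : ℂ) * I) 1 =
    eta ((y : ℂ) * I) := by
  have hd : Differentiable ℝ eta := eta_smooth.differentiable (by simp)
  have hder : ∀ x : ℝ, HasDerivAt (fun x : ℝ => eta ((x : ℂ) + (y : ℂ) * I))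
      (fderiv ℝ eta ((x : ℂ) + (y : ℂ) * I) 1) x := by
    intro x
    have h1 : HasFDerivAt eta (fderiv ℝ eta ((x : ℂ) + (y : ℂ) * I)) ((x : ℂ) + (y : ℂ) * I) :=
      (hd _).hasFDerivAt
    have h2 : HasDerivAt (fun x : ℝ => (x : ℂ) + (y : ℂ) * I) 1 x := by
      have := (hasDerivAt_id x).ofReal_comp.add_const ((y : ℂ) * I)
      simpa using this
    exact h1.comp_hasDerivAt x h2
  have hc : ContDiff ℝ 1 (fun x : ℝ => eta ((x : ℂ) + (y : ℂ) * I)) := by
    refine (eta_smooth.of_le (by simp)).comp ?_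
    exact Complex.ofRealCLM.contDiff.add contDiff_const
  have hs : HasCompactSupport (fun x : ℝ => eta ((x : ℂ) + (y : ℂ) * I)) := by
    refine HasCompactSupport.intro (isCompact_Icc (a := (-1 : ℝ)) (b := 1)) fun x hx => ?_
    refine eta_zero ?_
    have h1 : |x| ≤ ‖(x : ℂ) + (y : ℂ) * I‖ := by
      have := Complex.abs_re_le_norm ((x : ℂ) + (y : ℂ) * I)
      simpa using this
    have h2 : 1 < |x| := by
      by_contra hcon
      push Not at hcon
      exact hx (abs_le.1 hcon)
    linarith
  have h3 := HasCompactSupport.integral_Iic_deriv_eq hc hs 0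
  have e : ∀ x : ℝ, deriv (fun x : ℝ => eta ((x : ℂ) + (y : ℂ) * I)) x =
      fderiv ℝ eta ((x : ℂ) + (y : ℂ) * I) 1 := fun x => (hder x).deriv
  simp only [e] at h3
  rw [h3]
  simp

theorem c₀_eq : c₀ = ∫ y : ℝ, eta ((y : ℂ) * I) := by
  have hF1 : Continuous (fun w : ℂ => fderiv ℝ eta w 1) :=
    (eta_smooth.continuous_fderiv (by simp)).clm_apply continuous_const
  have hF2 : HasCompactSupport (fun w : ℂ => fderiv ℝ eta w 1) := eta_supp.fderiv_apply ℝ 1
  have hF : Integrable (fun w : ℂ => fderiv ℝ eta w 1) := hF1.integrable_of_hasCompactSupport hF2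
  have hI : Integrable (Set.indicator {w : ℂ | w.re < 0} (fun w : ℂ => fderiv ℝ eta w 1)) :=
    hF.indicator meas_half
  have hmp := Complex.volume_preserving_equiv_real_prod.symm
  have hI2 : Integrable (fun p : ℝ × ℝ => Set.indicator {w : ℂ | w.re < 0}
      (fun w : ℂ => fderiv ℝ eta w 1) (Complex.measurableEquivRealProd.symm p)) :=
    hmp.integrable_comp_of_integrable hI
  unfold c₀
  rw [← MeasureTheory.integral_indicator meas_half, ← hmp.integral_comp']
  rw [Measure.volume_eq_prod] at hI2 ⊢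
  rw [integral_prod_symm _ hI2]
  refine integral_congr_ae (Eventually.of_forall fun y => ?_)
  simp only
  rw [← line y, integral_Iic_eq_integral_Iio, ← MeasureTheory.integral_indicator measurableSet_Iio]
  refine integral_congr_ae (Eventually.of_forall fun x => ?_)
  simp only [Complex.measurableEquivRealProd_symm_apply]
  have e1 : (⟨x, y⟩ : ℂ) = (x : ℂ) + (y : ℂ) * I := Complex.mk_eq_add_mul_I x y
  by_cases hx : x < 0
  · rw [Set.indicator_of_mem (show (⟨x, y⟩ : ℂ) ∈ {w : ℂ | w.re < 0} from hx),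
      Set.indicator_of_mem (show x ∈ Iio (0 : ℝ) from hx), e1]
  · rw [Set.indicator_of_notMem (show (⟨x, y⟩ : ℂ) ∉ {w : ℂ | w.re < 0} from hx),
      Set.indicator_of_notMem (show x ∉ Iio (0 : ℝ) from hx)]

theorem c₀_pos : 0 < c₀ := by
  rw [c₀_eq]
  have hc : Continuous (fun y : ℝ => eta ((y : ℂ) * I)) :=
    eta_smooth.continuous.comp (by fun_prop)
  have hs : HasCompactSupport (fun y : ℝ => eta ((y : ℂ) * I)) := by
    refine HasCompactSupport.intro (isCompact_Icc (a := (-1 : ℝ)) (b := 1)) fun y hy => ?_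
    refine eta_zero ?_
    have h1 : ‖(y : ℂ) * I‖ = |y| := by simp
    have h2 : 1 < |y| := by
      by_contra hcon
      push Not at hcon
      exact hy (abs_le.1 hcon)
    rw [h1]
    linarith
  refine hc.integral_pos_of_hasCompactSupport_nonneg_nonzero hs
    (fun y => Real.smoothTransition.nonneg _) (x := 0) ?_
  unfold eta
  simp

end ZIM

open ZIM in
theorem specZI : SpecZI :=
  ⟨eta_smooth, eta_supp, eta_tsupport,
    fun _ => ⟨Real.smoothTransition.nonneg _, Real.smoothTransition.le_one _⟩,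
    c₀, c₀_pos, fun _ hn => rot_integral hn⟩

end

end Pool.Agent.Lib.MP250511.SB
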