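import Pool.Agent.Lib.MP_250511_an.SB.SpecZ
import Pool.Agent.Lib.MP_250511_an.SB.VAB

/-!
# MP_250511_an, module ZJ: the gain of one bump
-/

set_option autoImplicit false

namespace Pool.Agent.Lib.MP250511.SB

open Complex Metric Set MeasureTheory Filter Topology
open scoped Real ENNReal ComplexConjugate ContDiff

namespace ZJM

lemma conj_mul_self (n : ℂ) (hn : ‖n‖ = 1) : conj n * n = 1 := by
  rw [← Complex.normSq_eq_conj_mul_self, Complex.normSq_eq_norm_sq, hn]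
  norm_num

/-- `2 a x ≤ θ a² + x²/θ` -/
lemma amgm (a x θ : ℝ) (hθ : 0 < θ) : 2 * a * x ≤ θ * a ^ 2 + 1 / θ * x ^ 2 := by
  have h1 : 0 ≤ (θ * a - x) ^ 2 / θ := by positivity
  have h2 : (θ * a - x) ^ 2 / θ = θ * a ^ 2 + 1 / θ * x ^ 2 - 2 * a * x := by
    field_simp
    ring
  linarith

lemma e_bound (p n : ℂ) (a θ : ℝ) (ha : 0 ≤ a) (hn : ‖n‖ = 1) (hθ : 0 < θ) :
    ‖p ^ 2 - (a : ℂ) ^ 2 * conj n ^ 2‖ ≤
      (1 + 1 / θ) * ‖p - (a : ℂ) * conj n‖ ^ 2 + θ * a ^ 2 := by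
  have h1 : p ^ 2 - (a : ℂ) ^ 2 * conj n ^ 2 =
      (p - (a : ℂ) * conj n) * ((p - (a : ℂ) * conj n) + 2 * ((a : ℂ) * conj n)) := by ring
  have h2 : ‖2 * ((a : ℂ) * conj n)‖ = 2 * a := by
    rw [norm_mul, norm_mul, RCLike.norm_conj, hn, Complex.norm_real, Real.norm_eq_abs,
      abs_of_nonneg ha]
    norm_num
  rw [h1, norm_mul]
  set x := ‖p - (a : ℂ) * conj n‖ with hx
  have hx0 : 0 ≤ x := norm_nonneg _
  have h3 : ‖(p - (a : ℂ) * conj n) + 2 * ((a : ℂ) * conj n)‖ ≤ x + 2 * a := by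
    refine (norm_add_le _ _).trans ?_
    rw [h2]
  have h4 := amgm a x θ hθ
  calc x * ‖(p - (a : ℂ) * conj n) + 2 * ((a : ℂ) * conj n)‖ ≤ x * (x + 2 * a) :=
        mul_le_mul_of_nonneg_left h3 hx0
    _ = x ^ 2 + 2 * a * x := by ring
    _ ≤ (1 + 1 / θ) * x ^ 2 + θ * a ^ 2 := by linarith

lemma pw2 (α β p n : ℂ) (K ε a θ s : ℝ) (hK : 0 ≤ K) (hα : ‖α‖ ≤ K) (hβ : ‖β‖ ≤ K)
    (hε0 : 0 ≤ ε) (hε : ε * K ≤ 1 / 4) (ha : 0 ≤ a) (hn : ‖n‖ = 1) (hθ : 0 < θ)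
    (hs : 2 * (β * ((a : ℂ) ^ 2 * conj n ^ 2)).re = a ^ 2 * s) :
    (2 * ‖p ^ 2‖ * ‖(ε : ℂ) * β‖ ^ 2 -
        2 * (conj (1 + (ε : ℂ) * α) * ((ε : ℂ) * β) * p ^ 2).re) /
        (‖1 + (ε : ℂ) * α‖ ^ 2 - ‖(ε : ℂ) * β‖ ^ 2) ≤
      -(ε * a ^ 2 * s) + (2 * ε * K + 24 * (ε * K) ^ 2) *
        ((1 + 1 / θ) * ‖p - (a : ℂ) * conj n‖ ^ 2 + θ * a ^ 2) + 24 * (ε * K) ^ 2 * a ^ 2 := by
  have h1 := VABM.pw α β (p ^ 2) K ε hK hα hβ (by rw [abs_of_nonneg hε0]; exact hε)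
  rw [abs_of_nonneg hε0] at h1
  have h2 := (le_abs_self _).trans h1
  set E := p ^ 2 - (a : ℂ) ^ 2 * conj n ^ 2 with hE
  have h3 := e_bound p n a θ ha hn hθ
  rw [← hE] at h3
  have h4 : p ^ 2 = (a : ℂ) ^ 2 * conj n ^ 2 + E := by rw [hE]; ring
  have h5 : (β * p ^ 2).re = (β * ((a : ℂ) ^ 2 * conj n ^ 2)).re + (β * E).re := by
    rw [h4, mul_add, Complex.add_re]
  have h6 : -(K * ‖E‖) ≤ (β * E).re := by
    have h7 : |(β * E).re| ≤ K * ‖E‖ :=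
      (Complex.abs_re_le_norm _).trans
        (by rw [norm_mul]; exact mul_le_mul_of_nonneg_right hβ (norm_nonneg _))
    exact neg_le_of_abs_le h7
  have h8 : ‖p ^ 2‖ ≤ a ^ 2 + ‖E‖ := by
    have h9 : ‖(a : ℂ) ^ 2 * conj n ^ 2‖ = a ^ 2 := by
      rw [norm_mul, norm_pow, norm_pow, RCLike.norm_conj, hn, Complex.norm_real,
        Real.norm_eq_abs, sq_abs]
      ring
    calc ‖p ^ 2‖ = ‖(a : ℂ) ^ 2 * conj n ^ 2 + E‖ := by rw [← h4]
      _ ≤ ‖(a : ℂ) ^ 2 * conj n ^ 2‖ + ‖E‖ := norm_add_le _ _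
      _ = a ^ 2 + ‖E‖ := by rw [h9]
  have h10 : 24 * (ε * K) ^ 2 * ‖p ^ 2‖ ≤ 24 * (ε * K) ^ 2 * (a ^ 2 + ‖E‖) :=
    mul_le_mul_of_nonneg_left h8 (by positivity)
  have h11 : ε * -(K * ‖E‖) ≤ ε * (β * E).re := mul_le_mul_of_nonneg_left h6 hε0
  have h12 : (2 * ε * K + 24 * (ε * K) ^ 2) * ‖E‖ ≤ (2 * ε * K + 24 * (ε * K) ^ 2) *
      ((1 + 1 / θ) * ‖p - (a : ℂ) * conj n‖ ^ 2 + θ * a ^ 2) :=
    mul_le_mul_of_nonneg_left h3 (by positivity)
  have h13 : 2 * ε * (β * p ^ 2).re = ε * a ^ 2 * s + 2 * (ε * (β * E).re) := by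
    rw [h5]
    have : ε * (2 * (β * ((a : ℂ) ^ 2 * conj n ^ 2)).re) = ε * (a ^ 2 * s) := by rw [hs]
    linarith
  linarith

lemma aff_hasF (ζ : ℂ) (ℓ : ℝ) (z : ℂ) :
    HasFDerivAt (fun z : ℂ => (z - ζ) / (ℓ : ℂ)) ((ℓ⁻¹ : ℝ) • ContinuousLinearMap.id ℝ ℂ) z := by
  have h2 := ((hasFDerivAt_id (𝕜 := ℝ) z).sub_const ζ).const_smul (ℓ⁻¹ : ℝ)
  have h3 : (fun z : ℂ => (z - ζ) / (ℓ : ℂ)) = fun y : ℂ => (ℓ⁻¹ : ℝ) • (id y - ζ) := by
    funext y
    rw [Complex.real_smul]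
    push_cast
    rw [div_eq_inv_mul]
    rfl
  rw [h3]
  exact h2

lemma vv_eq (ζ n : ℂ) (ℓ : ℝ) :
    vv ζ n ℓ = fun y : ℂ => (ℓ * (eta ∘ fun z : ℂ => (z - ζ) / (ℓ : ℂ)) y) • n := by
  funext y
  unfold vv
  rw [Complex.real_smul]
  rfl

lemma vv_fderiv (heta : ContDiff ℝ ∞ eta) (ζ n : ℂ) (ℓ : ℝ) (hℓ : 0 < ℓ) (z h : ℂ) :
    fderiv ℝ (vv ζ n ℓ) z h = ((fderiv ℝ eta ((z - ζ) / (ℓ : ℂ)) h : ℝ) : ℂ) * n := by
  have h3 : HasFDerivAt eta (fderiv ℝ eta ((z - ζ) / (ℓ : ℂ))) ((z - ζ) / (ℓ : ℂ)) :=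
    ((heta.differentiable (by simp)) _).hasFDerivAt
  have h4 := (h3.comp z (aff_hasF ζ ℓ z)).const_mul ℓ
  have h5 := h4.smul_const n
  rw [vv_eq, h5.fderiv]
  show (ℓ * (fderiv ℝ eta ((z - ζ) / (ℓ : ℂ)) ((ℓ⁻¹ : ℝ) • h))) • n = _
  rw [map_smul, smul_eq_mul, ← mul_assoc, mul_inv_cancel₀ hℓ.ne', one_mul, Complex.real_smul]

lemma vv_smooth (heta : ContDiff ℝ ∞ eta) (ζ n : ℂ) (ℓ : ℝ) : ContDiff ℝ ∞ (vv ζ n ℓ) := by
  rw [vv_eq]
  have h1 : ContDiff ℝ ∞ (fun z : ℂ => (z - ζ) / (ℓ : ℂ)) := by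
    have h3 : (fun z : ℂ => (z - ζ) / (ℓ : ℂ)) = fun y : ℂ => (ℓ⁻¹ : ℝ) • (y - ζ) := by
      funext y
      rw [Complex.real_smul]
      push_cast
      rw [div_eq_inv_mul]
    rw [h3]
    exact (contDiff_id.sub contDiff_const).const_smul _
  exact (contDiff_const.mul (heta.comp h1)).smul contDiff_const

lemma dB_vv (heta : ContDiff ℝ ∞ eta) (ζ n : ℂ) (ℓ : ℝ) (hℓ : 0 < ℓ) (z : ℂ) :
    dB (vv ζ n ℓ) z = (((fderiv ℝ eta ((z - ζ) / (ℓ : ℂ)) 1 : ℝ) : ℂ) +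
      I * ((fderiv ℝ eta ((z - ζ) / (ℓ : ℂ)) I : ℝ) : ℂ)) / 2 * n := by
  unfold dB
  rw [vv_fderiv heta ζ n ℓ hℓ, vv_fderiv heta ζ n ℓ hℓ]
  ring

lemma two_re (heta : ContDiff ℝ ∞ eta) (ζ n : ℂ) (ℓ a : ℝ) (hℓ : 0 < ℓ) (hn : ‖n‖ = 1) (z : ℂ) :
    2 * (dB (vv ζ n ℓ) z * ((a : ℂ) ^ 2 * conj n ^ 2)).re =
      a ^ 2 * fderiv ℝ eta ((z - ζ) / (ℓ : ℂ)) n := by
  rw [dB_vv heta ζ n ℓ hℓ]
  set L := fderiv ℝ eta ((z - ζ) / (ℓ : ℂ)) with hL
  have h1 : L n = n.re * L 1 + n.im * L I := by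
    have h2 : n = n.re • (1 : ℂ) + n.im • I := by
      apply Complex.ext <;> simp
    conv_lhs => rw [h2]
    rw [map_add, map_smul, map_smul, smul_eq_mul, smul_eq_mul]
  have h3 : (((L 1 : ℝ) : ℂ) + I * ((L I : ℝ) : ℂ)) / 2 * n * ((a : ℂ) ^ 2 * conj n ^ 2) =
      ((a ^ 2 / 2 : ℝ) : ℂ) * (conj n * (((L 1 : ℝ) : ℂ) + I * ((L I : ℝ) : ℂ))) *
        (conj n * n) := by
    push_cast
    ring
  rw [h3, conj_mul_self n hn, mul_one, Complex.re_ofReal_mul, h1]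
  simp only [Complex.mul_re, Complex.add_re, Complex.add_im, Complex.conj_re, Complex.conj_im,
    Complex.ofReal_re, Complex.ofReal_im, Complex.I_re, Complex.I_im, Complex.mul_im]
  ring

lemma f_le (K : ℝ) (hK : ∀ w, ‖fderiv ℝ eta w‖ ≤ K) (w h : ℂ) (hh : ‖h‖ = 1) :
    |fderiv ℝ eta w h| ≤ K := by
  have h1 := (fderiv ℝ eta w).le_opNorm h
  rw [hh, mul_one, Real.norm_eq_abs] at h1
  exact h1.trans (hK w)

lemma fv_le (heta : ContDiff ℝ ∞ eta) (K : ℝ) (hK : ∀ w, ‖fderiv ℝ eta w‖ ≤ K) (ζ n : ℂ)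
    (ℓ : ℝ) (hℓ : 0 < ℓ) (hn : ‖n‖ = 1) (z h : ℂ) (hh : ‖h‖ = 1) :
    ‖fderiv ℝ (vv ζ n ℓ) z h‖ ≤ K := by
  rw [vv_fderiv heta ζ n ℓ hℓ, norm_mul, hn, mul_one, Complex.norm_real, Real.norm_eq_abs]
  exact f_le K hK _ h hh

lemma dZ_le (heta : ContDiff ℝ ∞ eta) (K : ℝ) (hK : ∀ w, ‖fderiv ℝ eta w‖ ≤ K) (ζ n : ℂ)
    (ℓ : ℝ) (hℓ : 0 < ℓ) (hn : ‖n‖ = 1) (z : ℂ) : ‖dZ (vv ζ n ℓ) z‖ ≤ K := by
  unfold dZ
  rw [norm_div, Complex.norm_ofNat]
  have h1 := norm_sub_le (fderiv ℝ (vv ζ n ℓ) z 1) (I * fderiv ℝ (vv ζ n ℓ) z I)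
  rw [norm_mul, Complex.norm_I, one_mul] at h1
  have h2 := fv_le heta K hK ζ n ℓ hℓ hn z 1 norm_one
  have h3 := fv_le heta K hK ζ n ℓ hℓ hn z I Complex.norm_I
  linarith

lemma dB_le (heta : ContDiff ℝ ∞ eta) (K : ℝ) (hK : ∀ w, ‖fderiv ℝ eta w‖ ≤ K) (ζ n : ℂ)
    (ℓ : ℝ) (hℓ : 0 < ℓ) (hn : ‖n‖ = 1) (z : ℂ) : ‖dB (vv ζ n ℓ) z‖ ≤ K := by
  unfold dB
  rw [norm_div, Complex.norm_ofNat]
  have h1 := norm_add_le (fderiv ℝ (vv ζ n ℓ) z 1) (I * fderiv ℝ (vv ζ n ℓ) z I)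
  rw [norm_mul, Complex.norm_I, one_mul] at h1
  have h2 := fv_le heta K hK ζ n ℓ hℓ hn z 1 norm_one
  have h3 := fv_le heta K hK ζ n ℓ hℓ hn z I Complex.norm_I
  linarith

lemma box_vol (T ℓ : ℝ) :
    volume {w : ℂ | |w.re| ≤ T ∧ |w.im| ≤ ℓ} = ENNReal.ofReal (2 * T) * ENNReal.ofReal (2 * ℓ) := by
  have h1 : {w : ℂ | |w.re| ≤ T ∧ |w.im| ≤ ℓ} =
      Complex.measurableEquivRealProd ⁻¹' (Icc (-T) T ×ˢ Icc (-ℓ) ℓ) := by
    ext w
    constructor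
    · intro hw
      exact ⟨abs_le.1 hw.1, abs_le.1 hw.2⟩
    · intro hw
      exact ⟨abs_le.2 hw.1, abs_le.2 hw.2⟩
  rw [h1, Complex.volume_preserving_equiv_real_prod.measure_preimage_equiv,
    Measure.volume_eq_prod, Measure.prod_prod, Real.volume_Icc, Real.volume_Icc]
  congr 2 <;> ring

lemma vol_strip (ζ n : ℂ) (T ℓ : ℝ) (hn : ‖n‖ = 1) :
    volume {z : ℂ | |((z - ζ) * conj n).re| ≤ T ∧ |((z - ζ) * conj n).im| ≤ ℓ} =
      ENNReal.ofReal (2 * T) * ENNReal.ofReal (2 * ℓ) := by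
  have hn' : ‖conj n‖ = 1 := by rw [RCLike.norm_conj, hn]
  let a : Circle := ⟨conj n, mem_sphere_zero_iff_norm.2 hn'⟩
  have h1 : MeasurePreserving (rotation a : ℂ → ℂ) volume volume :=
    (rotation a).measurePreserving
  have h2 : MeasurePreserving (fun z : ℂ => z - ζ) volume volume :=
    measurePreserving_sub_right volume ζ
  have h3 := h1.comp h2
  have h4 : {z : ℂ | |((z - ζ) * conj n).re| ≤ T ∧ |((z - ζ) * conj n).im| ≤ ℓ} =
      ((rotation a : ℂ → ℂ) ∘ fun z : ℂ => z - ζ) ⁻¹' {w : ℂ | |w.re| ≤ T ∧ |w.im| ≤ ℓ} := by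
    ext z
    have h5 : ((rotation a : ℂ → ℂ) ∘ fun z : ℂ => z - ζ) z = (z - ζ) * conj n := by
      show (rotation a) (z - ζ) = _
      rw [rotation_apply, mul_comm]
    show _ ↔ ((rotation a : ℂ → ℂ) ∘ fun z : ℂ => z - ζ) z ∈ {w : ℂ | |w.re| ≤ T ∧ |w.im| ≤ ℓ}
    rw [h5]
    rfl
  have h6 : MeasurableSet {w : ℂ | |w.re| ≤ T ∧ |w.im| ≤ ℓ} := by
    apply IsClosed.measurableSet
    exact (isClosed_le (continuous_abs.comp Complex.continuous_re) continuous_const).inter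
      (isClosed_le (continuous_abs.comp Complex.continuous_im) continuous_const)
  rw [h4, h3.measure_preimage h6.nullMeasurableSet, box_vol]

lemma diff_strip (Ω : Set ℂ) (ρ κ : ℝ) (c ζ n : ℂ) (hρ : 0 < ρ) (hκ : 0 < κ)
    (hTW : TW Ω ρ κ c ζ) (hnn : n = (ζ - c) / (ρ : ℂ)) (hn : ‖n‖ = 1) (ℓ : ℝ) (z : ℂ)
    (hz : z ∈ ball ζ ℓ) (h : ¬ (z ∈ Ω ↔ ((z - ζ) * conj n).re < 0)) :
    |((z - ζ) * conj n).re| ≤ (1 / (2 * κ) + 1 / (2 * ρ)) * ℓ ^ 2 ∧
      |((z - ζ) * conj n).im| ≤ ℓ := by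
  set w := (z - ζ) * conj n with hw
  have hwn : ‖w‖ = ‖z - ζ‖ := by rw [hw, norm_mul, RCLike.norm_conj, hn, mul_one]
  have hzw : z - ζ = w * n := by
    rw [hw, mul_assoc, conj_mul_self n hn, mul_one]
  have hℓw : ‖w‖ < ℓ := by
    rw [hwn, ← dist_eq_norm]
    exact mem_ball.1 hz
  have hw2 : ‖w‖ ^ 2 ≤ ℓ ^ 2 := pow_le_pow_left₀ (norm_nonneg _) hℓw.le 2
  have hwsq : ‖w‖ ^ 2 = w.re ^ 2 + w.im ^ 2 := by
    rw [Complex.sq_norm, Complex.normSq_apply]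
    ring
  have him : |w.im| ≤ ℓ := (Complex.abs_im_le_norm w).trans hℓw.le
  have hC1 : 0 ≤ 1 / (2 * κ) * ℓ ^ 2 := by positivity
  have hC2 : 0 ≤ 1 / (2 * ρ) * ℓ ^ 2 := by positivity
  refine ⟨?_, him⟩
  by_cases hzΩ : z ∈ Ω
  · have hx : 0 ≤ w.re := by
      by_contra hlt
      exact h ⟨fun _ => not_le.1 hlt, fun _ => hzΩ⟩
    have h1 : z ∉ ball (ζ + (κ : ℂ) * ((ζ - c) / (ρ : ℂ))) κ := fun hb => hTW.inner hb hzΩ
    rw [← hnn, mem_ball, not_lt, dist_eq_norm] at h1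
    have h2 : z - (ζ + (κ : ℂ) * n) = (w - (κ : ℂ)) * n := by
      rw [sub_mul, ← hzw]
      ring
    rw [h2, norm_mul, hn, mul_one] at h1
    have h3 : κ ^ 2 ≤ ‖w - (κ : ℂ)‖ ^ 2 := pow_le_pow_left₀ hκ.le h1 2
    have h4 : ‖w - (κ : ℂ)‖ ^ 2 = (w.re - κ) ^ 2 + w.im ^ 2 := by
      rw [Complex.sq_norm, Complex.normSq_apply]
      simp only [Complex.sub_re, Complex.sub_im, Complex.ofReal_re, Complex.ofReal_im]
      ring
    rw [abs_of_nonneg hx]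
    have h5 : 2 * κ * w.re ≤ ℓ ^ 2 := by nlinarith
    have h6 : w.re ≤ 1 / (2 * κ) * ℓ ^ 2 := by
      rw [div_mul_eq_mul_div, le_div_iff₀ (by positivity)]
      linarith
    linarith
  · have hx : w.re < 0 := by
      by_contra hge
      exact h ⟨fun hh => absurd hh hzΩ, fun hh => absurd hh hge⟩
    have h1 : z ∉ ball c ρ := fun hb => hzΩ (hTW.sub hb)
    rw [mem_ball, not_lt, dist_eq_norm] at h1
    have hρc : (ρ : ℂ) ≠ 0 := Complex.ofReal_ne_zero.2 hρ.ne'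
    have h2 : z - c = (w + (ρ : ℂ)) * n := by
      have h7 : (ρ : ℂ) * n = ζ - c := by
        rw [hnn]
        field_simp
      rw [add_mul, ← hzw, h7]
      ring
    rw [h2, norm_mul, hn, mul_one] at h1
    have h3 : ρ ^ 2 ≤ ‖w + (ρ : ℂ)‖ ^ 2 := pow_le_pow_left₀ hρ.le h1 2
    have h4 : ‖w + (ρ : ℂ)‖ ^ 2 = (w.re + ρ) ^ 2 + w.im ^ 2 := by
      rw [Complex.sq_norm, Complex.normSq_apply]
      simp only [Complex.add_re, Complex.add_im, Complex.ofReal_re, Complex.ofReal_im]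
      ring
    rw [abs_of_neg hx]
    have h5 : 2 * ρ * -w.re ≤ ℓ ^ 2 := by nlinarith
    have h6 : -w.re ≤ 1 / (2 * ρ) * ℓ ^ 2 := by
      rw [div_mul_eq_mul_div, le_div_iff₀ (by positivity)]
      linarith
    linarith

lemma F_zero (hts : tsupport eta ⊆ ball 0 1) (ζ n : ℂ) (ℓ : ℝ) (hℓ : 0 < ℓ) (z : ℂ)
    (hz : z ∉ ball ζ ℓ) : fderiv ℝ eta ((z - ζ) / (ℓ : ℂ)) n = 0 := by
  have h1 : (z - ζ) / (ℓ : ℂ) ∉ tsupport eta := by
    intro h
    have h2 := hts h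
    rw [mem_ball_zero_iff, norm_div, Complex.norm_real, Real.norm_eq_abs, abs_of_pos hℓ,
      div_lt_one hℓ, ← dist_eq_norm] at h2
    exact hz (mem_ball.2 h2)
  rw [fderiv_of_notMem_tsupport (𝕜 := ℝ) h1]
  rfl

lemma F_cont (heta : ContDiff ℝ ∞ eta) (ζ n : ℂ) (ℓ : ℝ) :
    Continuous fun z : ℂ => fderiv ℝ eta ((z - ζ) / (ℓ : ℂ)) n := by
  have h1 : Continuous (fderiv ℝ eta) := heta.continuous_fderiv (by simp)
  have h2 : Continuous fun z : ℂ => (z - ζ) / (ℓ : ℂ) := by fun_prop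
  exact (h1.comp h2).clm_apply continuous_const

lemma F_scale (c₁ : ℝ) (hc₁ : ∀ n : ℂ, ‖n‖ = 1 →
      ∫ w in {w : ℂ | (w * conj n).re < 0}, fderiv ℝ eta w n = c₁)
    (ζ n : ℂ) (ℓ : ℝ) (hℓ : 0 < ℓ) (hn : ‖n‖ = 1) :
    ∫ z, indicator {z : ℂ | ((z - ζ) * conj n).re < 0}
      (fun z => fderiv ℝ eta ((z - ζ) / (ℓ : ℂ)) n) z = c₁ * ℓ ^ 2 := by
  let G : ℂ → ℝ := indicator {w : ℂ | (w * conj n).re < 0} (fun w => fderiv ℝ eta w n)
  have hdiv : ∀ z : ℂ, (z - ζ) / (ℓ : ℂ) = ℓ⁻¹ • (z - ζ) := by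
    intro z
    rw [Complex.real_smul]
    push_cast
    rw [div_eq_inv_mul]
  have h1 : ∀ z, indicator {z : ℂ | ((z - ζ) * conj n).re < 0}
      (fun z => fderiv ℝ eta ((z - ζ) / (ℓ : ℂ)) n) z = G (ℓ⁻¹ • (z - ζ)) := by
    intro z
    have h2 : (ℓ⁻¹ • (z - ζ) * conj n).re = ℓ⁻¹ * ((z - ζ) * conj n).re := by
      rw [Complex.real_smul, mul_assoc, Complex.re_ofReal_mul]
    by_cases hz : ((z - ζ) * conj n).re < 0
    · have h3 : ℓ⁻¹ • (z - ζ) ∈ {w : ℂ | (w * conj n).re < 0} := by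
        show (ℓ⁻¹ • (z - ζ) * conj n).re < 0
        rw [h2]
        exact mul_neg_of_pos_of_neg (inv_pos.2 hℓ) hz
      show _ = indicator {w : ℂ | (w * conj n).re < 0} (fun w => fderiv ℝ eta w n) _
      rw [indicator_of_mem h3, indicator_of_mem (show z ∈ {z : ℂ | ((z - ζ) * conj n).re < 0} from hz),
        hdiv]
    · have h3 : ℓ⁻¹ • (z - ζ) ∉ {w : ℂ | (w * conj n).re < 0} := by
        intro h4
        have h5 : (ℓ⁻¹ • (z - ζ) * conj n).re < 0 := h4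
        rw [h2] at h5
        have h6 : 0 ≤ ((z - ζ) * conj n).re := not_lt.1 hz
        have h7 : 0 ≤ ℓ⁻¹ * ((z - ζ) * conj n).re := mul_nonneg (inv_nonneg.2 hℓ.le) h6
        linarith
      show _ = indicator {w : ℂ | (w * conj n).re < 0} (fun w => fderiv ℝ eta w n) _
      rw [indicator_of_notMem h3,
        indicator_of_notMem (show z ∉ {z : ℂ | ((z - ζ) * conj n).re < 0} from hz)]
  have h2 : ∫ z, G (ℓ⁻¹ • (z - ζ)) = ∫ z, G (ℓ⁻¹ • z) :=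
    integral_sub_right_eq_self (fun z => G (ℓ⁻¹ • z)) ζ
  have h3 : ∫ z, G (ℓ⁻¹ • z) = |ℓ ^ Module.finrank ℝ ℂ| • ∫ z, G z :=
    Measure.integral_comp_inv_smul volume G ℓ
  have h4 : ∫ z, G z = c₁ := by
    rw [← hc₁ n hn]
    apply integral_indicator
    exact (isOpen_lt (by fun_prop) continuous_const).measurableSet
  simp only [h1]
  rw [h2, h3, h4, Complex.finrank_real_complex, abs_of_nonneg (by positivity), smul_eq_mul]
  ring

lemma F_lower (heta : ContDiff ℝ ∞ eta) (hts : tsupport eta ⊆ ball 0 1) (K : ℝ)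
    (hK : ∀ w, ‖fderiv ℝ eta w‖ ≤ K) (c₁ : ℝ)
    (hc₁ : ∀ n : ℂ, ‖n‖ = 1 →
      ∫ w in {w : ℂ | (w * conj n).re < 0}, fderiv ℝ eta w n = c₁)
    (Ω : Set ℂ) (hΩ : MeasurableSet Ω) (ρ κ : ℝ) (c ζ n : ℂ) (hρ : 0 < ρ) (hκ : 0 < κ)
    (hTW : TW Ω ρ κ c ζ) (hnn : n = (ζ - c) / (ρ : ℂ)) (hn : ‖n‖ = 1) (ℓ : ℝ) (hℓ : 0 < ℓ) :
    c₁ * ℓ ^ 2 - K * (4 * ((1 / (2 * κ) + 1 / (2 * ρ)) * ℓ ^ 2) * ℓ) ≤
      ∫ z in Ω ∩ ball ζ ℓ, fderiv ℝ eta ((z - ζ) / (ℓ : ℂ)) n := by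
  set F : ℂ → ℝ := fun z => fderiv ℝ eta ((z - ζ) / (ℓ : ℂ)) n with hF
  set T : ℝ := (1 / (2 * κ) + 1 / (2 * ρ)) * ℓ ^ 2 with hT
  have hT0 : 0 ≤ T := by positivity
  have hFc : Continuous F := F_cont heta ζ n ℓ
  have hF0 : ∀ z, z ∉ ball ζ ℓ → F z = 0 := fun z hz => F_zero hts ζ n ℓ hℓ z hz
  have hFs : HasCompactSupport F :=
    HasCompactSupport.intro (isCompact_closedBall ζ ℓ)
      (fun z hz => hF0 z (fun h => hz (ball_subset_closedBall h)))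
  have hFi : Integrable F := hFc.integrable_of_hasCompactSupport hFs
  have hFK : ∀ z, |F z| ≤ K := fun z => f_le K hK _ n hn
  have hK0 : 0 ≤ K := (norm_nonneg _).trans (hK 0)
  set H : Set ℂ := {z : ℂ | ((z - ζ) * conj n).re < 0} with hH
  have hHm : MeasurableSet H := (isOpen_lt (by fun_prop) continuous_const).measurableSet
  have e1 : ∫ z in Ω ∩ ball ζ ℓ, F z = ∫ z, indicator Ω F z := by
    rw [← integral_indicator (hΩ.inter measurableSet_ball)]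
    congr 1
    funext z
    by_cases hz : z ∈ ball ζ ℓ
    · by_cases hz2 : z ∈ Ω
      · rw [indicator_of_mem (show z ∈ Ω ∩ ball ζ ℓ from ⟨hz2, hz⟩), indicator_of_mem hz2]
      · rw [indicator_of_notMem (fun h => hz2 h.1), indicator_of_notMem hz2]
    · rw [indicator_of_notMem (fun h => hz h.2)]
      by_cases hz2 : z ∈ Ω
      · rw [indicator_of_mem hz2, hF0 z hz]
      · rw [indicator_of_notMem hz2]
  have e2 : ∫ z, indicator H F z = c₁ * ℓ ^ 2 := F_scale c₁ hc₁ ζ n ℓ hℓ hn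
  set S : Set ℂ := {z : ℂ | |((z - ζ) * conj n).re| ≤ T ∧ |((z - ζ) * conj n).im| ≤ ℓ} with hS
  have hSv : volume S = ENNReal.ofReal (2 * T) * ENNReal.ofReal (2 * ℓ) := vol_strip ζ n T ℓ hn
  have hSf : volume S < ⊤ := by
    rw [hSv]
    exact ENNReal.mul_lt_top ENNReal.ofReal_lt_top ENNReal.ofReal_lt_top
  have hSr : volume.real S = 4 * T * ℓ := by
    rw [Measure.real, hSv, ENNReal.toReal_mul, ENNReal.toReal_ofReal (by positivity),
      ENNReal.toReal_ofReal (by positivity)]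
    ring
  have hSm : MeasurableSet S := by
    apply IsClosed.measurableSet
    have hcc : Continuous fun z : ℂ => (z - ζ) * conj n :=
      (continuous_id.sub continuous_const).mul continuous_const
    exact (isClosed_le (continuous_abs.comp (Complex.continuous_re.comp hcc))
      continuous_const).inter
      (isClosed_le (continuous_abs.comp (Complex.continuous_im.comp hcc)) continuous_const)
  have e3 : ∀ z, indicator H F z - indicator Ω F z =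
      indicator S (fun z => indicator H F z - indicator Ω F z) z := by
    intro z
    by_cases hzS : z ∈ S
    · rw [indicator_of_mem hzS]
    · rw [indicator_of_notMem hzS]
      by_cases hz : z ∈ ball ζ ℓ
      · have hiff : z ∈ Ω ↔ ((z - ζ) * conj n).re < 0 := by
          by_contra hcon
          exact hzS (diff_strip Ω ρ κ c ζ n hρ hκ hTW hnn hn ℓ z hz hcon)
        by_cases hz2 : z ∈ Ω
        · rw [indicator_of_mem hz2, indicator_of_mem (show z ∈ H from hiff.1 hz2), sub_self]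
        · rw [indicator_of_notMem hz2,
            indicator_of_notMem (show z ∉ H from fun h => hz2 (hiff.2 h)), sub_self]
      · have h0 := hF0 z hz
        have a1 : indicator H F z = 0 := by
          by_cases h : z ∈ H
          · rw [indicator_of_mem h, h0]
          · rw [indicator_of_notMem h]
        have a2 : indicator Ω F z = 0 := by
          by_cases h : z ∈ Ω
          · rw [indicator_of_mem h, h0]
          · rw [indicator_of_notMem h]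
        rw [a1, a2, sub_self]
  have hb : ∀ z, |indicator H F z - indicator Ω F z| ≤ K := by
    intro z
    by_cases h1 : z ∈ H
    · by_cases h2 : z ∈ Ω
      · rw [indicator_of_mem h1, indicator_of_mem h2, sub_self, abs_zero]
        exact hK0
      · rw [indicator_of_mem h1, indicator_of_notMem h2, sub_zero]
        exact hFK z
    · by_cases h2 : z ∈ Ω
      · rw [indicator_of_notMem h1, indicator_of_mem h2, zero_sub, abs_neg]
        exact hFK z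
      · rw [indicator_of_notMem h1, indicator_of_notMem h2, sub_self, abs_zero]
        exact hK0
  have e4 : |∫ z, (indicator H F z - indicator Ω F z)| ≤ K * (4 * T * ℓ) := by
    have h1 : ∫ z, (indicator H F z - indicator Ω F z) =
        ∫ z in S, (indicator H F z - indicator Ω F z) := by
      rw [← integral_indicator hSm]
      congr 1
      funext z
      exact e3 z
    rw [h1, ← hSr, ← Real.norm_eq_abs]
    exact norm_setIntegral_le_of_norm_le_const hSf (fun z _ => by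
      rw [Real.norm_eq_abs]
      exact hb z)
  rw [integral_sub (hFi.indicator hHm) (hFi.indicator hΩ), e2] at e4
  rw [e1]
  have h5 := (abs_le.1 e4).2
  linarith

end ZJM

open ZJM in
theorem specZJ (hINQ : SpecINQ) (hZH : SpecZH) (hZI : SpecZI) : SpecZJ := by
  obtain ⟨heta, hcs, hts, -, c₁, hc₁0, hc₁⟩ := hZI
  have hcf : Continuous (fderiv ℝ eta) := heta.continuous_fderiv (by simp)
  obtain ⟨K₀, hK₀⟩ := (hcs.fderiv (𝕜 := ℝ)).exists_bound_of_continuous hcf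
  set K : ℝ := max K₀ 1 with hKdef
  have hK1 : 1 ≤ K := le_max_right _ _
  have hKpos : 0 < K := by linarith
  have hK : ∀ w, ‖fderiv ℝ eta w‖ ≤ K := fun z => (hK₀ z).trans (le_max_left _ _)
  have hπ := Real.pi_pos
  set ε : ℝ := min (1 / (4 * K)) (c₁ / (192 * K ^ 2 * π)) with hεdef
  have hε0 : 0 < ε := lt_min (by positivity) (by positivity)
  have hεK : ε * K ≤ 1 / 4 := by
    have h1 : ε ≤ 1 / (4 * K) := min_le_left _ _
    rw [le_div_iff₀ (by positivity)] at h1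
    linarith
  have hε2 : 192 * K ^ 2 * π * ε ≤ c₁ := by
    have h1 : ε ≤ c₁ / (192 * K ^ 2 * π) := min_le_right _ _
    rw [le_div_iff₀ (by positivity)] at h1
    linarith
  refine ⟨K, hKpos, hK, ε, hε0, hεK, ε * c₁ / 2, by positivity, ?_⟩
  intro f g Ω ρ κ c ζ a hP hρ hκ hTW ha hasym
  set n : ℂ := (ζ - c) / (ρ : ℂ) with hnn
  have hn : ‖n‖ = 1 := by
    rw [hnn, norm_div, Complex.norm_real, Real.norm_eq_abs, abs_of_pos hρ, ← dist_eq_norm,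
      hTW.dist_eq, div_self hρ.ne']
  have hζ0 : ζ ≠ 0 := by
    intro h
    apply hTW.out
    rw [h, ← hP.im]
    exact ⟨0, mem_ball_self one_pos, hP.zero⟩
  have hΩm : MeasurableSet Ω := hP.op.measurableSet
  -- constants
  set θ : ℝ := c₁ / (64 * K * π) with hθdef
  have hθ : 0 < θ := by positivity
  set M : ℝ := 2 * ε * K + 24 * (ε * K) ^ 2 with hM
  have hM0 : 0 ≤ M := by positivity
  have hM8 : M ≤ 8 * ε * K := by
    rw [hM]
    nlinarith [mul_pos hε0 hKpos]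
  set ε' : ℝ := ε * c₁ * a ^ 2 / (8 * (M + 1) * (1 + 1 / θ)) with hε'
  have hε'0 : 0 < ε' := by positivity
  obtain ⟨r₁, hr₁, hr₁'⟩ := hZH f g Ω ρ κ c ζ a hP hρ hκ hTW ha.le hasym ε' hε'0
  set Cc : ℝ := 1 / (2 * κ) + 1 / (2 * ρ) with hCc
  have hCc0 : 0 < Cc := by positivity
  refine ⟨min r₁ (min ‖ζ‖ (c₁ / (32 * K * Cc))),
    lt_min hr₁ (lt_min (norm_pos_iff.2 hζ0) (by positivity)), ?_⟩
  intro ℓ hℓ hℓr
  have hl1 : ℓ < r₁ := lt_of_lt_of_le hℓr (min_le_left _ _)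
  have hl2 : ℓ < ‖ζ‖ := lt_of_lt_of_le hℓr ((min_le_right _ _).trans (min_le_left _ _))
  have hl3 : ℓ < c₁ / (32 * K * Cc) :=
    lt_of_lt_of_le hℓr ((min_le_right _ _).trans (min_le_right _ _))
  have h0 : (0 : ℂ) ∉ closedBall ζ ℓ := by
    intro h
    rw [mem_closedBall, dist_comm, dist_zero_right] at h
    linarith
  set W : Set ℂ := Ω ∩ ball ζ ℓ with hW
  have hWm : MeasurableSet W := hΩm.inter measurableSet_ball
  have hq : IntegrableOn (qG g) W := hINQ f g Ω hP ζ ℓ h0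
  have hWf : volume W < ⊤ := (measure_mono inter_subset_right).trans_lt measure_ball_lt_top
  have hWr : volume.real W ≤ π * ℓ ^ 2 := by
    have h1 : volume.real W ≤ volume.real (ball ζ ℓ) :=
      measureReal_mono inter_subset_right measure_ball_lt_top.ne
    have h2 : volume.real (ball ζ ℓ) = π * ℓ ^ 2 := by
      rw [Measure.real, Complex.volume_ball, ENNReal.toReal_mul, ENNReal.toReal_pow,
        ENNReal.toReal_ofReal hℓ.le, mul_comm]
      rfl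
    rw [← h2]
    exact h1
  have : IsFiniteMeasure (volume.restrict W) := ⟨by rw [Measure.restrict_apply_univ]; exact hWf⟩
  set v : ℂ → ℂ := vv ζ n ℓ with hv
  have hvs : ContDiff ℝ ∞ v := vv_smooth heta ζ n ℓ
  have hvf : Continuous (fderiv ℝ v) := hvs.continuous_fderiv (by simp)
  have hα : ∀ z, ‖dZ v z‖ ≤ K := fun z => dZ_le heta K hK ζ n ℓ hℓ hn z
  have hβ : ∀ z, ‖dB v z‖ ≤ K := fun z => dB_le heta K hK ζ n ℓ hℓ hn z
  have hcZ : Continuous (dZ v) := by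
    unfold dZ
    exact ((hvf.clm_apply continuous_const).sub
      (continuous_const.mul (hvf.clm_apply continuous_const))).div_const 2
  have hcB : Continuous (dB v) := by
    unfold dB
    exact ((hvf.clm_apply continuous_const).add
      (continuous_const.mul (hvf.clm_apply continuous_const))).div_const 2
  have hqm : AEStronglyMeasurable (qG g) (volume.restrict W) := hq.1
  have hXQ : ∀ z : ℂ, XQ (qG g) (fun z => z + (ε : ℂ) * v z) z =
      (2 * ‖qG g z‖ * ‖(ε : ℂ) * dB v z‖ ^ 2 -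
        2 * (conj (1 + (ε : ℂ) * dZ v z) * ((ε : ℂ) * dB v z) * qG g z).re) /
        (‖1 + (ε : ℂ) * dZ v z‖ ^ 2 - ‖(ε : ℂ) * dB v z‖ ^ 2) := by
    intro z
    unfold XQ Jac
    rw [VABM.dZ_eq v hvs, VABM.dB_eq v hvs]
  -- measurability and integrability of XQ
  have hmeas : AEStronglyMeasurable (fun z => XQ (qG g) (fun z => z + (ε : ℂ) * v z) z)
      (volume.restrict W) := by
    have e : (fun z => XQ (qG g) (fun z => z + (ε : ℂ) * v z) z) = fun z =>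
      (2 * ‖qG g z‖ * ‖(ε : ℂ) * dB v z‖ ^ 2 -
      2 * (conj (1 + (ε : ℂ) * dZ v z) * ((ε : ℂ) * dB v z) * qG g z).re) /
      (‖1 + (ε : ℂ) * dZ v z‖ ^ 2 - ‖(ε : ℂ) * dB v z‖ ^ 2) := by
      funext z
      exact hXQ z
    rw [e]
    have hqa : AEMeasurable (qG g) (volume.restrict W) := hqm.aemeasurable
    have hBa : Measurable (dB v) := hcB.measurable
    have hZa : Measurable (dZ v) := hcZ.measurable
    have hBc : Measurable (fun z => (ε : ℂ) * dB v z) := hBa.const_mul _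
    have hZc : Measurable (fun z => 1 + (ε : ℂ) * dZ v z) := (hZa.const_mul _).const_add _
    have hZcc : Measurable (fun z => conj (1 + (ε : ℂ) * dZ v z)) :=
      Complex.continuous_conj.measurable.comp hZc
    have m1 : AEMeasurable (fun z => 2 * ‖qG g z‖ * ‖(ε : ℂ) * dB v z‖ ^ 2)
        (volume.restrict W) :=
      ((hqa.norm.const_mul 2)).mul (hBc.norm.pow_const 2).aemeasurable
    have m2 : AEMeasurable (fun z =>
        2 * (conj (1 + (ε : ℂ) * dZ v z) * ((ε : ℂ) * dB v z) * qG g z).re)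
        (volume.restrict W) :=
      (Complex.measurable_re.comp_aemeasurable
        (((hZcc.mul hBc).aemeasurable).mul hqa)).const_mul 2
    have m3 : AEMeasurable (fun z => ‖1 + (ε : ℂ) * dZ v z‖ ^ 2 - ‖(ε : ℂ) * dB v z‖ ^ 2)
        (volume.restrict W) :=
      ((hZc.norm.pow_const 2).sub (hBc.norm.pow_const 2)).aemeasurable
    exact ((m1.sub m2).div m3).aestronglyMeasurable
  have hbX : ∀ z, ‖XQ (qG g) (fun z => z + (ε : ℂ) * v z) z‖ ≤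
      (24 * (ε * K) ^ 2 + 2 * ε * K) * ‖qG g z‖ := by
    intro z
    have h1 := VABM.pw (dZ v z) (dB v z) (qG g z) K ε hKpos.le (hα z) (hβ z)
      (by rw [abs_of_pos hε0]; exact hεK)
    rw [abs_of_pos hε0, ← hXQ z] at h1
    have h2 : |2 * ε * (dB v z * qG g z).re| ≤ 2 * ε * K * ‖qG g z‖ := by
      rw [abs_mul, abs_of_pos (by positivity : 0 < 2 * ε), mul_assoc (2 * ε)]
      apply mul_le_mul_of_nonneg_left _ (by positivity)
      exact (Complex.abs_re_le_norm _).trans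
        (by rw [norm_mul]; exact mul_le_mul_of_nonneg_right (hβ z) (norm_nonneg _))
    rw [Real.norm_eq_abs]
    have h3 := abs_add_le (XQ (qG g) (fun z => z + (ε : ℂ) * v z) z +
      2 * ε * (dB v z * qG g z).re) (-(2 * ε * (dB v z * qG g z).re))
    rw [add_neg_cancel_right, abs_neg] at h3
    linarith
  have hXi : Integrable (fun z => XQ (qG g) (fun z => z + (ε : ℂ) * v z) z)
      (volume.restrict W) :=
    Integrable.mono' (hq.norm.const_mul _) hmeas (Eventually.of_forall hbX)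
  -- the distance function
  set D : ℂ → ℝ := fun z => ‖deriv g z / g z - (a : ℂ) * conj n‖ ^ 2 with hD
  have hDi : Integrable D (volume.restrict W) := by
    have hg : AEStronglyMeasurable g (volume.restrict W) := by
      have h1 : ContinuousOn g W := hP.gan.continuousOn.mono inter_subset_left
      exact h1.aestronglyMeasurable hWm
    have hp : AEStronglyMeasurable (fun z => deriv g z / g z) (volume.restrict W) := by
      have h2 : AEMeasurable (fun z => deriv g z / g z) (volume.restrict W) :=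
        (measurable_deriv g).aemeasurable.div hg.aemeasurable
      exact h2.aestronglyMeasurable
    have hDm : AEStronglyMeasurable D (volume.restrict W) :=
      ((hp.sub aestronglyMeasurable_const).norm.pow 2)
    refine Integrable.mono' ((hq.norm.const_mul 2).add (integrable_const (2 * a ^ 2))) hDm
      (Eventually.of_forall fun z => ?_)
    rw [Real.norm_eq_abs, abs_of_nonneg (by positivity)]
    have h3 : ‖deriv g z / g z - (a : ℂ) * conj n‖ ≤ ‖deriv g z / g z‖ + a := by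
      refine (norm_sub_le _ _).trans ?_
      rw [norm_mul, RCLike.norm_conj, hn, Complex.norm_real, Real.norm_eq_abs, abs_of_pos ha,
        mul_one]
    have h4 : ‖qG g z‖ = ‖deriv g z / g z‖ ^ 2 := by
      unfold qG
      rw [norm_pow]
    have h5 := pow_le_pow_left₀ (norm_nonneg _) h3 2
    show ‖deriv g z / g z - (a : ℂ) * conj n‖ ^ 2 ≤ 2 * ‖qG g z‖ + 2 * a ^ 2
    rw [h4]
    nlinarith [sq_nonneg (‖deriv g z / g z‖ - a)]
  have hD1 : ∫ z in W, D z ≤ ε' * ℓ ^ 2 := hr₁' ℓ hℓ hl1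
  have hD0 : 0 ≤ ∫ z in W, D z := integral_nonneg fun z => by positivity
  -- the bump
  set F : ℂ → ℝ := fun z => fderiv ℝ eta ((z - ζ) / (ℓ : ℂ)) n with hF
  have hFc : Continuous F := F_cont heta ζ n ℓ
  have hFi : Integrable F (volume.restrict W) := by
    refine Integrable.mono' (integrable_const K) hFc.aestronglyMeasurable
      (Eventually.of_forall fun z => ?_)
    rw [Real.norm_eq_abs]
    exact f_le K hK _ n hn
  have hF1 : c₁ * ℓ ^ 2 - K * (4 * (Cc * ℓ ^ 2) * ℓ) ≤ ∫ z in W, F z :=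
    F_lower heta hts K hK c₁ hc₁ Ω hΩm ρ κ c ζ n hρ hκ hTW hnn hn ℓ hℓ
  -- the pointwise inequality
  have hpt : ∀ z, XQ (qG g) (fun z => z + (ε : ℂ) * v z) z ≤
      -(ε * a ^ 2) * F z + M * (1 + 1 / θ) * D z +
        (M * θ * a ^ 2 + 24 * (ε * K) ^ 2 * a ^ 2) := by
    intro z
    have h1 := pw2 (dZ v z) (dB v z) (deriv g z / g z) n K ε a θ (F z) hKpos.le (hα z) (hβ z)
      hε0.le hεK ha.le hn hθ (two_re heta ζ n ℓ a hℓ hn z)
    rw [hXQ z]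
    refine h1.trans (le_of_eq ?_)
    rw [hM, hD]
    ring
  have hint : ∫ z in W, XQ (qG g) (fun z => z + (ε : ℂ) * v z) z ≤
      -(ε * a ^ 2) * (∫ z in W, F z) + M * (1 + 1 / θ) * (∫ z in W, D z) +
        (M * θ * a ^ 2 + 24 * (ε * K) ^ 2 * a ^ 2) * volume.real W := by
    have i1 : Integrable (fun z => -(ε * a ^ 2) * F z) (volume.restrict W) := hFi.const_mul _
    have i2 : Integrable (fun z => M * (1 + 1 / θ) * D z) (volume.restrict W) :=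
      hDi.const_mul _
    have i3 : Integrable (fun _ : ℂ => M * θ * a ^ 2 + 24 * (ε * K) ^ 2 * a ^ 2)
      (volume.restrict W) := integrable_const _
    have h1 := integral_mono hXi ((i1.add i2).add i3) hpt
    have h2 : ∫ z in W, (-(ε * a ^ 2) * F z + M * (1 + 1 / θ) * D z +
        (M * θ * a ^ 2 + 24 * (ε * K) ^ 2 * a ^ 2)) =
        (∫ z in W, (-(ε * a ^ 2) * F z + M * (1 + 1 / θ) * D z)) +
        ∫ _ in W, (M * θ * a ^ 2 + 24 * (ε * K) ^ 2 * a ^ 2) := integral_add (i1.add i2) i3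
    have h2' : ∫ z in W, (-(ε * a ^ 2) * F z + M * (1 + 1 / θ) * D z) =
        (∫ z in W, -(ε * a ^ 2) * F z) + ∫ z in W, M * (1 + 1 / θ) * D z := integral_add i1 i2
    refine h1.trans (le_of_eq (h2.trans ?_))
    rw [h2', integral_const_mul, integral_const_mul, setIntegral_const, smul_eq_mul]
    ring
  refine hint.trans ?_
  have hl2' : 0 < ℓ ^ 2 := by positivity
  have ha2 : 0 < a ^ 2 := by positivity
  have t1 : ε * a ^ 2 * (K * (4 * (Cc * ℓ ^ 2) * ℓ)) ≤ ε * c₁ * a ^ 2 / 8 * ℓ ^ 2 := by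
    rw [lt_div_iff₀ (by positivity)] at hl3
    have h1 : K * (4 * (Cc * ℓ ^ 2) * ℓ) = ℓ * (32 * K * Cc) / 8 * ℓ ^ 2 := by ring
    rw [h1]
    have h2 : ℓ * (32 * K * Cc) / 8 * ℓ ^ 2 ≤ c₁ / 8 * ℓ ^ 2 :=
      mul_le_mul_of_nonneg_right (by linarith) hl2'.le
    have h3 := mul_le_mul_of_nonneg_left h2 (show 0 ≤ ε * a ^ 2 by positivity)
    refine h3.trans (le_of_eq (by ring))
  have t2 : 24 * (ε * K) ^ 2 * a ^ 2 * (π * ℓ ^ 2) ≤ ε * c₁ * a ^ 2 / 8 * ℓ ^ 2 := by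
    have h1 : 24 * (ε * K) ^ 2 * a ^ 2 * (π * ℓ ^ 2) =
        (192 * K ^ 2 * π * ε) * (ε * a ^ 2 / 8 * ℓ ^ 2) := by ring
    rw [h1]
    have h2 := mul_le_mul_of_nonneg_right hε2 (show 0 ≤ ε * a ^ 2 / 8 * ℓ ^ 2 by positivity)
    refine h2.trans (le_of_eq (by ring))
  have t3 : M * θ * a ^ 2 * (π * ℓ ^ 2) ≤ ε * c₁ * a ^ 2 / 8 * ℓ ^ 2 := by
    have h1 : M * (θ * a ^ 2 * (π * ℓ ^ 2)) ≤ 8 * ε * K * (θ * a ^ 2 * (π * ℓ ^ 2)) :=
      mul_le_mul_of_nonneg_right hM8 (by positivity)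
    have h2 : 8 * ε * K * (θ * a ^ 2 * (π * ℓ ^ 2)) = ε * c₁ * a ^ 2 / 8 * ℓ ^ 2 := by
      rw [hθdef]
      field_simp
      ring
    calc M * θ * a ^ 2 * (π * ℓ ^ 2) = M * (θ * a ^ 2 * (π * ℓ ^ 2)) := by ring
      _ ≤ _ := h1
      _ = _ := h2
  have t4 : M * (1 + 1 / θ) * (ε' * ℓ ^ 2) ≤ ε * c₁ * a ^ 2 / 8 * ℓ ^ 2 := by
    have h1 : M * (1 + 1 / θ) * (ε' * ℓ ^ 2) ≤ (M + 1) * (1 + 1 / θ) * (ε' * ℓ ^ 2) := by
      apply mul_le_mul_of_nonneg_right _ (by positivity)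
      apply mul_le_mul_of_nonneg_right _ (by positivity)
      linarith
    have h2 : (M + 1) * (1 + 1 / θ) * (ε' * ℓ ^ 2) = ε * c₁ * a ^ 2 / 8 * ℓ ^ 2 := by
      have h3 : (M + 1) ≠ 0 := by positivity
      have h4 : (1 + 1 / θ) ≠ 0 := by positivity
      rw [hε']
      field_simp
    exact h1.trans (le_of_eq h2)
  have s1 : -(ε * a ^ 2) * (∫ z in W, F z) ≤
      -(ε * a ^ 2) * (c₁ * ℓ ^ 2 - K * (4 * (Cc * ℓ ^ 2) * ℓ)) :=
    mul_le_mul_of_nonpos_left hF1 (by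
      have : 0 < ε * a ^ 2 := by positivity
      linarith)
  have s2 : M * (1 + 1 / θ) * (∫ z in W, D z) ≤ M * (1 + 1 / θ) * (ε' * ℓ ^ 2) :=
    mul_le_mul_of_nonneg_left hD1 (by positivity)
  have s3 : (M * θ * a ^ 2 + 24 * (ε * K) ^ 2 * a ^ 2) * volume.real W ≤
      (M * θ * a ^ 2 + 24 * (ε * K) ^ 2 * a ^ 2) * (π * ℓ ^ 2) :=
    mul_le_mul_of_nonneg_left hWr (by positivity)
  have s4 : -(ε * a ^ 2) * (c₁ * ℓ ^ 2 - K * (4 * (Cc * ℓ ^ 2) * ℓ)) =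
      -(ε * c₁ * a ^ 2 * ℓ ^ 2) + ε * a ^ 2 * (K * (4 * (Cc * ℓ ^ 2) * ℓ)) := by ring
  have s5 : (M * θ * a ^ 2 + 24 * (ε * K) ^ 2 * a ^ 2) * (π * ℓ ^ 2) =
      M * θ * a ^ 2 * (π * ℓ ^ 2) + 24 * (ε * K) ^ 2 * a ^ 2 * (π * ℓ ^ 2) := by ring
  have s6 : -(ε * c₁ / 2 * a ^ 2 * ℓ ^ 2) =
      -(ε * c₁ * a ^ 2 * ℓ ^ 2) + 4 * (ε * c₁ * a ^ 2 / 8 * ℓ ^ 2) := by ring
  rw [s6]
  rw [s4] at s1
  rw [s5] at s3
  linarith

end Pool.Agent.Lib.MP250511.SB
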