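import Pool.Agent.Lib.MP_250511_an.SB.SpecZ

/-!
# MP_250511_an, SB: module ZK (the complement of an extremal domain has empty interior)
-/

set_option autoImplicit false

namespace Pool.Agent.Lib.MP250511.SB

open Complex Metric Set MeasureTheory Filter Topology
open scoped Real ENNReal ComplexConjugate ContDiff

namespace ZKM

lemma exists_min (r : ℕ → ℝ) (hr : ∀ j, 0 < r j) (N : ℕ) :
    ∃ r₀ : ℝ, 0 < r₀ ∧ ∀ j < N, r₀ ≤ r j := by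
  induction N with
  | zero => exact ⟨1, one_pos, fun j hj => absurd hj (Nat.not_lt_zero j)⟩
  | succ N ih =>
    obtain ⟨r₀, h0, h1⟩ := ih
    refine ⟨min r₀ (r N), lt_min h0 (hr N), fun j hj => ?_⟩
    rcases Nat.lt_succ_iff_lt_or_eq.1 hj with h | h
    · exact (min_le_left _ _).trans (h1 j h)
    · rw [h]
      exact min_le_right _ _

lemma XQ_congr {q φ₁ φ₂ : ℂ → ℂ} {z : ℂ} (h : φ₁ =ᶠ[𝓝 z] φ₂) : XQ q φ₁ z = XQ q φ₂ z := by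
  have h1 : fderiv ℝ φ₁ z = fderiv ℝ φ₂ z := h.fderiv_eq
  unfold XQ Jac dZ dB
  rw [h1]

end ZKM

theorem specZK (hPAI : SpecPAI) (hRMT : SpecRMT) (hKCL : SpecKCL) (hHOM : SpecHOM)
    (hZA : SpecZA) (hZB : SpecZB) (hZC : SpecZC) (hZD : SpecZD) (hZE : SpecZE) (hZFB : SpecZFB)
    (_hZI : SpecZI) (hZJ : SpecZJ) (hZN : SpecZN) (hZO : SpecZO) (hZP : SpecZP) : SpecZK := by
  intro f g Ω ρ hE
  by_contra hne
  have hne' : (interior Ωᶜ).Nonempty := Set.nonempty_iff_ne_empty.2 hne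
  have hρ : 0 < ρ := hE.pos
  have hρC : (ρ : ℂ) ≠ 0 := by exact_mod_cast hρ.ne'
  have h0Ω : (0 : ℂ) ∈ Ω := by
    rw [← hE.im]
    exact ⟨0, by simp, hE.zero⟩
  have hΩ : Ω ≠ univ := by
    intro h
    have := hE.inr 0 (ρ + 1) (by rw [h]; exact subset_univ _)
    linarith
  obtain ⟨κ, hκ, z₀, δ, hδ, h0, c, ζ, hinj, hTW⟩ := hZB Ω ρ hρ hE.op h0Ω (hZA f g Ω ρ hE) hne'
  have hz : (0 : ℂ) ∉ ball z₀ δ := fun h => h0 (ball_subset_closedBall h)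
  -- the centres are in a compact set
  have hcomp := (hKCL Ω ρ hρ hE.op).2 (‖z₀‖ + δ + ρ)
  have hcm : ∀ j, c j ∈ {c : ℂ | ball c ρ ⊆ Ω ∧ ‖c‖ ≤ ‖z₀‖ + δ + ρ} := by
    intro j
    refine ⟨(hTW j).1.sub, ?_⟩
    have h1 : ζ j ∈ ball z₀ δ := (hTW j).2 (mem_closedBall_self hκ.le)
    have h2 : ‖ζ j - z₀‖ < δ := by
      rwa [mem_ball, dist_eq_norm] at h1
    have h3 : ‖ζ j - c j‖ = ρ := by
      have := (hTW j).1.dist_eq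
      rwa [dist_eq_norm] at this
    have h4 : ‖c j‖ ≤ ‖ζ j‖ + ‖ζ j - c j‖ := by
      have := norm_sub_le (ζ j) (ζ j - c j)
      rwa [sub_sub_cancel] at this
    have h5 : ‖ζ j‖ ≤ ‖z₀‖ + ‖ζ j - z₀‖ := by
      have := norm_add_le z₀ (ζ j - z₀)
      rwa [add_sub_cancel] at this
    linarith
  have hsubΩ : {c : ℂ | ball c ρ ⊆ Ω ∧ ‖c‖ ≤ ‖z₀‖ + δ + ρ} ⊆ Ω := fun x hx =>
    hx.1 (mem_ball_self hρ)
  have hgc : ContinuousOn (fun z => ‖g z‖) {c : ℂ | ball c ρ ⊆ Ω ∧ ‖c‖ ≤ ‖z₀‖ + δ + ρ} :=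
    (hE.gan.continuousOn.mono hsubΩ).norm
  obtain ⟨cs, hcs, hmax⟩ := hcomp.exists_isMaxOn ⟨c 0, hcm 0⟩ hgc
  have hb1 : ‖g cs‖ < 1 := hE.gm cs (hsubΩ hcs)
  have hbj : ∀ j, ‖g (c j)‖ ≤ ‖g cs‖ := fun j => hmax (hcm j)
  obtain ⟨a₀, ha₀⟩ : ∃ a₀ : ℝ, a₀ = (1 - ‖g cs‖) / (2 * ρ) := ⟨_, rfl⟩
  have ha₀p : 0 < a₀ := by
    rw [ha₀]
    have : 0 < 1 - ‖g cs‖ := by linarith
    positivity
  have hZF := fun j => hZFB f g Ω ρ κ (c j) (ζ j) hE.toPair hρ hκ (hTW j).1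
  choose a ha1 ha2 using hZF
  have ha : ∀ j, a₀ ≤ a j := by
    intro j
    refine le_trans ?_ (ha1 j)
    rw [ha₀]
    have := hbj j
    gcongr
  obtain ⟨C, hC, hCN⟩ := hZC Ω ρ κ hρ hκ hE.inr c ζ hinj (fun j => (hTW j).1)
  obtain ⟨K, hK, hKe, ε₀, hε₀, hεK, c₀, hc₀, hJ⟩ := hZJ
  have hJ' := fun j => hJ f g Ω ρ κ (c j) (ζ j) (a j) hE.toPair hρ hκ (hTW j).1
    (lt_of_lt_of_le ha₀p (ha j)) (ha2 j)
  choose r hr hrJ using hJ'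
  have hπ : 0 < 2 * π := by positivity
  have hden : 0 < ρ * (c₀ * a₀ ^ 2) := by positivity
  obtain ⟨N, hN⟩ := exists_nat_gt (2 * π * C / (ρ * (c₀ * a₀ ^ 2)))
  have hN' : 2 * π * C < N * (ρ * (c₀ * a₀ ^ 2)) := by
    rwa [div_lt_iff₀ hden] at hN
  obtain ⟨r₀, hr₀, hrj⟩ := ZKM.exists_min r hr N
  obtain ⟨ℓ₁, hℓ₁, h1⟩ := hCN N
  have hn : ∀ j, ‖(ζ j - c j) / (ρ : ℂ)‖ = 1 := by
    intro j
    have h3 : ‖ζ j - c j‖ = ρ := by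
      have := (hTW j).1.dist_eq
      rwa [dist_eq_norm] at this
    rw [norm_div, h3, norm_real, Real.norm_eq_abs, abs_of_pos hρ, div_self hρ.ne']
  obtain ⟨ℓ₂, hℓ₂, h2⟩ := hZN K hKe ζ (fun j => (ζ j - c j) / (ρ : ℂ)) hinj hn N κ z₀ δ hκ
    (fun j => (hTW j).2)
  obtain ⟨ℓ, hℓ, hle1, hle2, hle3⟩ : ∃ ℓ : ℝ, 0 < ℓ ∧ ℓ ≤ ℓ₁ ∧ ℓ ≤ ℓ₂ ∧ ℓ ≤ r₀ / 2 :=
    ⟨min ℓ₁ (min ℓ₂ (r₀ / 2)), lt_min hℓ₁ (lt_min hℓ₂ (by positivity)), min_le_left _ _,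
      (min_le_right _ _).trans (min_le_left _ _), (min_le_right _ _).trans (min_le_right _ _)⟩
  obtain ⟨hvs, hvc, hvt, hvK, hvb, hvz, hdis, hsubs⟩ := h2 ℓ hℓ hle2
  obtain ⟨v, hv⟩ : ∃ v : ℂ → ℂ, v = VV ζ (fun j => (ζ j - c j) / (ρ : ℂ)) ℓ N := ⟨_, rfl⟩
  rw [← hv] at hvs hvc hvt hvK hvb hvz
  have habs : |ε₀| * K ≤ 1 / 4 := by
    rwa [abs_of_pos hε₀]
  obtain ⟨ψ, hψ⟩ := hZE v hvs hvc z₀ δ hvt K hvK ε₀ habs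
  obtain ⟨hop, hsc⟩ := hHOM f (fun z => z + (ε₀ : ℂ) * v z) ψ Ω z₀ δ hE.toConf hE.op hψ
  have hne2 : (fun z => z + (ε₀ : ℂ) * v z) '' Ω ≠ univ := by
    intro h
    apply hΩ
    rw [eq_univ_iff_forall]
    intro z
    have hz1 : (fun z => z + (ε₀ : ℂ) * v z) z ∈ (fun z => z + (ε₀ : ℂ) * v z) '' Ω := by
      rw [h]; exact mem_univ _
    obtain ⟨w, hw, hwz⟩ := hz1
    have h2 := congrArg ψ hwz
    rw [hψ.l, hψ.l] at h2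
    rwa [← h2]
  have h0m : (0 : ℂ) ∈ (fun z => z + (ε₀ : ℂ) * v z) '' Ω := ⟨0, h0Ω, hψ.id 0 hz⟩
  obtain ⟨F, hF⟩ := hRMT _ hop hsc hne2 h0m
  obtain ⟨G, hFG⟩ := hPAI F _ hF
  have hD := hZD f g F G _ ψ Ω z₀ δ hE.toPair hE.one h0 hψ hFG
  have hint : ∀ j < N, IntegrableOn (XQ (qG g) (fun z => z + (ε₀ : ℂ) *
      vv (ζ j) ((ζ j - c j) / (ρ : ℂ)) ℓ z)) (Ω ∩ ball (ζ j) ℓ) := by
    intro j hj
    have hsm : IntegrableOn (XQ (qG g) (fun z => z + (ε₀ : ℂ) * v z)) (Ω ∩ ball z₀ δ) :=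
      hZP f g Ω z₀ δ hE.toPair h0 v hvs K ε₀ hvK habs
    have hsm2 : IntegrableOn (XQ (qG g) (fun z => z + (ε₀ : ℂ) * v z)) (Ω ∩ ball (ζ j) ℓ) :=
      hsm.mono_set (inter_subset_inter_right _ (hsubs j hj))
    refine hsm2.congr_fun ?_ (hE.op.measurableSet.inter measurableSet_ball)
    intro z hz
    apply ZKM.XQ_congr
    filter_upwards [isOpen_ball.mem_nhds hz.2] with w hw
    rw [hvb j hj w hw]
  have hO := hZO (qG g) v (fun j => vv (ζ j) ((ζ j - c j) / (ρ : ℂ)) ℓ) Ω z₀ δ ε₀ ℓ N ζ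
    hE.op.measurableSet hvb hvz hdis hsubs hint
  rw [hO] at hD
  have hsum : ∑ j ∈ Finset.range N, ∫ z in Ω ∩ ball (ζ j) ℓ, XQ (qG g)
      (fun z => z + (ε₀ : ℂ) * vv (ζ j) ((ζ j - c j) / (ρ : ℂ)) ℓ z) z ≤
      ∑ _j ∈ Finset.range N, (-(c₀ * a₀ ^ 2 * ℓ ^ 2)) := by
    apply Finset.sum_le_sum
    intro j hj
    have hjN : j < N := Finset.mem_range.1 hj
    have hlt : ℓ < r j := by
      have := hrj j hjN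
      linarith
    refine (hrJ j ℓ hℓ hlt).trans ?_
    have h3 : a₀ ^ 2 ≤ a j ^ 2 := by
      have := ha j
      gcongr
    have h4 : c₀ * a₀ ^ 2 * ℓ ^ 2 ≤ c₀ * a j ^ 2 * ℓ ^ 2 := by gcongr
    linarith
  rw [Finset.sum_const, Finset.card_range, nsmul_eq_mul] at hsum
  have hFp : 0 < ‖deriv F 0‖ := norm_pos_iff.2 (hFG.dF 0 (by simp))
  have hlog : Real.log ‖deriv F 0‖ ≤ ‖deriv F 0‖ - 1 := Real.log_le_sub_one_of_pos hFp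
  have hlow : N * (c₀ * a₀ ^ 2 * ℓ ^ 2) ≤ 2 * π * (‖deriv F 0‖ - 1) := by
    have h5 : 2 * π * Real.log ‖deriv F 0‖ ≤ 2 * π * (‖deriv F 0‖ - 1) :=
      mul_le_mul_of_nonneg_left hlog hπ.le
    linarith
  have hup := hE.ext F _ hF (ρ + C * ℓ ^ 2) (fun c' r' hb =>
    h1 ℓ hℓ hle1 (fun z => z + (ε₀ : ℂ) * v z) ψ hψ.l hψ.r
      (fun z hz => by
        show z + (ε₀ : ℂ) * v z = z
        rw [hvz z hz, mul_zero, add_zero]) c' r' hb)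
  have hℓ2 : 0 < ℓ ^ 2 := by positivity
  have h6 : ρ * (‖deriv F 0‖ - 1) ≤ C * ℓ ^ 2 := by linarith
  have h7 : 2 * π * (ρ * (‖deriv F 0‖ - 1)) ≤ 2 * π * (C * ℓ ^ 2) :=
    mul_le_mul_of_nonneg_left h6 hπ.le
  have h8 : ρ * (N * (c₀ * a₀ ^ 2 * ℓ ^ 2)) ≤ ρ * (2 * π * (‖deriv F 0‖ - 1)) :=
    mul_le_mul_of_nonneg_left hlow hρ.le
  have h9 : (2 * π * C) * ℓ ^ 2 < (N * (ρ * (c₀ * a₀ ^ 2))) * ℓ ^ 2 :=
    mul_lt_mul_of_pos_right hN' hℓ2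
  nlinarith [h7, h8, h9]

end Pool.Agent.Lib.MP250511.SB
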