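import Pool.Agent.Lib.MP_250511_an.SB.SpecZ

/-! MP_250511_an, module ZL: the set `KK` of the touched points is a null set (helper74). -/

set_option autoImplicit false

namespace Pool.Agent.Lib.MP250511.SB

open Complex Metric Set MeasureTheory Filter Topology
open scoped Real ENNReal ComplexConjugate ContDiff

namespace ZLM

/-- a ball of half the radius which does not meet `KK` -/
theorem hole {Ω : Set ℂ} {ρ : ℝ} (hρ : 0 < ρ) {p : ℂ} (hp : p ∈ KK Ω ρ) {r : ℝ} (hr : 0 < r)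
    (hr2 : r ≤ ρ) :
    ∃ y : ℂ, ball y (r / 2) ⊆ closedBall p r ∧ Disjoint (KK Ω ρ) (ball y (r / 2)) := by
  obtain ⟨_, c, hc, hd⟩ := hp
  rw [dist_eq_norm] at hd
  have hcp : ‖c - p‖ = ρ := by rw [norm_sub_rev]; exact hd
  have h1 : ‖((r / (2 * ρ) : ℝ) : ℂ) * (c - p)‖ = r / 2 := by
    rw [norm_mul, Complex.norm_real, Real.norm_of_nonneg (by positivity), hcp]
    field_simp
  have h3 : r / (2 * ρ) ≤ 1 := by
    rw [div_le_one (by positivity)]
    linarith
  refine ⟨p + ((r / (2 * ρ) : ℝ) : ℂ) * (c - p), ?_, ?_⟩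
  · intro z hz
    rw [mem_ball, dist_eq_norm] at hz
    rw [mem_closedBall, dist_eq_norm]
    have h2 : z - p = (z - (p + ((r / (2 * ρ) : ℝ) : ℂ) * (c - p))) +
        ((r / (2 * ρ) : ℝ) : ℂ) * (c - p) := by ring
    rw [h2]
    calc _ ≤ ‖z - (p + ((r / (2 * ρ) : ℝ) : ℂ) * (c - p))‖ +
          ‖((r / (2 * ρ) : ℝ) : ℂ) * (c - p)‖ := norm_add_le _ _
      _ ≤ r / 2 + r / 2 := add_le_add hz.le h1.le
      _ = r := by ring
  · rw [Set.disjoint_left]
    intro z hz hzb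
    apply hz.1
    apply hc
    rw [mem_ball, dist_eq_norm] at hzb ⊢
    have h2 : z - c = (z - (p + ((r / (2 * ρ) : ℝ) : ℂ) * (c - p))) +
        ((1 - r / (2 * ρ) : ℝ) : ℂ) * (p - c) := by
      push_cast
      ring
    have h4 : ‖((1 - r / (2 * ρ) : ℝ) : ℂ) * (p - c)‖ = ρ - r / 2 := by
      rw [norm_mul, Complex.norm_real, Real.norm_of_nonneg (by linarith), hd]
      field_simp
    rw [h2]
    calc _ ≤ ‖z - (p + ((r / (2 * ρ) : ℝ) : ℂ) * (c - p))‖ +
          ‖((1 - r / (2 * ρ) : ℝ) : ℂ) * (p - c)‖ := norm_add_le _ _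
      _ < r / 2 + (ρ - r / 2) := add_lt_add_of_lt_of_le hzb h4.le
      _ = ρ := by ring

theorem vol_eq (p y : ℂ) (r : ℝ) :
    volume (closedBall p r) = 4 * volume (ball y (r / 2)) := by
  rw [Complex.volume_closedBall, Complex.volume_ball]
  have h1 : ENNReal.ofReal r = 2 * ENNReal.ofReal (r / 2) := by
    rw [show (2 : ℝ≥0∞) = ENNReal.ofReal 2 by simp, ← ENNReal.ofReal_mul (by norm_num)]
    congr 1
    ring
  rw [h1, mul_pow, mul_assoc]
  norm_num

theorem ratio {Ω : Set ℂ} {ρ : ℝ} (hρ : 0 < ρ) {p : ℂ} (hp : p ∈ KK Ω ρ) {r : ℝ} (hr : 0 < r)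
    (hr2 : r ≤ ρ) :
    volume (KK Ω ρ ∩ closedBall p r) / volume (closedBall p r) ≤ 3 / 4 := by
  obtain ⟨y, h1, h2⟩ := hole hρ hp hr hr2
  have h3 : volume (KK Ω ρ ∩ closedBall p r) + volume (ball y (r / 2)) ≤
      volume (closedBall p r) := by
    rw [← measure_union (h2.mono_left inter_subset_left) measurableSet_ball]
    exact measure_mono (union_subset inter_subset_right h1)
  have hv := vol_eq p y r
  have hb : volume (ball y (r / 2)) ≠ ⊤ := measure_ball_lt_top.ne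
  rw [hv] at h3
  have h4 : volume (KK Ω ρ ∩ closedBall p r) ≤ 3 * volume (ball y (r / 2)) := by
    have h5 : (4 : ℝ≥0∞) * volume (ball y (r / 2)) =
        3 * volume (ball y (r / 2)) + volume (ball y (r / 2)) := by
      rw [show (4 : ℝ≥0∞) = 3 + 1 by norm_num, add_mul, one_mul]
    rw [h5] at h3
    exact (ENNReal.add_le_add_iff_right hb).1 h3
  apply ENNReal.div_le_of_le_mul
  rw [hv, ← mul_assoc, ENNReal.div_mul_cancel (by norm_num) (by norm_num)]
  exact h4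

end ZLM

theorem specZL (hKCL : SpecKCL) : SpecZL := by
  intro Ω ρ hρ hΩ
  by_contra hne
  have hm : MeasurableSet (KK Ω ρ) := (hKCL Ω ρ hρ hΩ).1.measurableSet
  have key := Besicovitch.ae_tendsto_measure_inter_div (volume : Measure ℂ) (KK Ω ρ)
  have hmem := ae_restrict_mem (μ := (volume : Measure ℂ)) hm
  have hr0 : (volume : Measure ℂ).restrict (KK Ω ρ) ≠ 0 := by
    rw [Ne, Measure.restrict_eq_zero]
    exact hne
  have : (ae ((volume : Measure ℂ).restrict (KK Ω ρ))).NeBot := ae_neBot.2 hr0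
  obtain ⟨p, hp1, hp2⟩ := (key.and hmem).exists
  have h34 : (3 / 4 : ℝ≥0∞) < 1 := by
    rw [ENNReal.div_lt_iff (Or.inl (by norm_num)) (Or.inl (by norm_num))]
    norm_num
  have e1 := hp1.eventually_const_lt h34
  have e2 : ∀ᶠ r : ℝ in 𝓝[>] (0 : ℝ), r ∈ Ioc (0 : ℝ) ρ := Ioc_mem_nhdsGT hρ
  obtain ⟨r, hr1, hr2⟩ := (e1.and e2).exists
  exact absurd (ZLM.ratio hρ hp2 hr2.1 hr2.2) (not_le.2 hr1)

end Pool.Agent.Lib.MP250511.SB
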