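import Pool.Agent.Lib.MP_250511_an.SB.SpecZ

/-!
# MP_250511_an : module ZN (sums of separated bumps)
-/

set_option autoImplicit false

namespace Pool.Agent.Lib.MP250511.SB

open Complex Metric Set MeasureTheory Filter Topology
open scoped Real ENNReal ComplexConjugate ContDiff

namespace ZNM

lemma vv_zero {ζ n : ℂ} {ℓ : ℝ} (hs : tsupport eta ⊆ ball 0 1) (hℓ : 0 < ℓ) {z : ℂ}
    (hz : z ∉ ball ζ ℓ) : vv ζ n ℓ z = 0 := by
  have h : eta ((z - ζ) / (ℓ : ℂ)) = 0 := by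
    by_contra hne
    have h1 := hs (subset_tsupport _ (Function.mem_support.2 hne))
    rw [mem_ball_zero_iff, norm_div, Complex.norm_real, Real.norm_of_nonneg hℓ.le,
      div_lt_one hℓ] at h1
    exact hz (by rwa [mem_ball, dist_eq_norm])
  simp [vv, h]

lemma tsupport_vv {ζ n : ℂ} {ℓ : ℝ} (hs : tsupport eta ⊆ ball 0 1) (hℓ : 0 < ℓ) :
    tsupport (vv ζ n ℓ) ⊆ ball ζ ℓ := by
  have hcont : Continuous (fun z : ℂ => (z - ζ) / (ℓ : ℂ)) :=
    (continuous_id.sub continuous_const).div_const _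
  have hc : IsClosed ((fun z : ℂ => (z - ζ) / (ℓ : ℂ)) ⁻¹' tsupport eta) :=
    (isClosed_tsupport _).preimage hcont
  refine (closure_minimal ?_ hc).trans ?_
  · intro z hz
    by_contra hne
    apply hz
    have h0 : eta ((z - ζ) / (ℓ : ℂ)) = 0 := image_eq_zero_of_notMem_tsupport hne
    simp [vv, h0]
  · intro z hz
    have h1 := hs hz
    rw [mem_ball_zero_iff, norm_div, Complex.norm_real, Real.norm_of_nonneg hℓ.le,
      div_lt_one hℓ] at h1
    rwa [mem_ball, dist_eq_norm]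

lemma contDiff_vv (hη : ContDiff ℝ ∞ eta) (ζ n : ℂ) (ℓ : ℝ) : ContDiff ℝ ∞ (vv ζ n ℓ) := by
  have h1 : ContDiff ℝ ∞ (fun z : ℂ => (z - ζ) / (ℓ : ℂ)) :=
    (contDiff_id.sub contDiff_const).div_const _
  have h2 : ContDiff ℝ ∞ (fun z : ℂ => ℓ * eta ((z - ζ) / (ℓ : ℂ))) :=
    contDiff_const.mul (hη.comp h1)
  exact (Complex.ofRealCLM.contDiff.comp h2).mul contDiff_const

lemma fderiv_vv_le {K : ℝ} (hK : ∀ w, ‖fderiv ℝ eta w‖ ≤ K) (hη : ContDiff ℝ ∞ eta)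
    {ζ n : ℂ} {ℓ : ℝ} (hn : ‖n‖ = 1) (hℓ : 0 < ℓ) (z : ℂ) :
    ‖fderiv ℝ (vv ζ n ℓ) z‖ ≤ K := by
  have hK0 : 0 ≤ K := (norm_nonneg _).trans (hK 0)
  have hd : DifferentiableAt ℝ eta ((z - ζ) / (ℓ : ℂ)) :=
    (hη.differentiable (by simp)).differentiableAt
  have h1 : HasFDerivAt (fun z : ℂ => (z - ζ) / (ℓ : ℂ))
      ((ℓ⁻¹ : ℝ) • ContinuousLinearMap.id ℝ ℂ) z := by
    have h := ((hasFDerivAt_id (𝕜 := ℝ) z).sub_const ζ).const_smul (ℓ⁻¹ : ℝ)
    refine h.congr_of_eventuallyEq (Filter.Eventually.of_forall fun w => ?_)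
    show (w - ζ) / (ℓ : ℂ) = (ℓ⁻¹ : ℝ) • (w - ζ)
    rw [Complex.real_smul, Complex.ofReal_inv, div_eq_inv_mul]
  have h2 := hd.hasFDerivAt.comp z h1
  have h3 : HasFDerivAt (fun z : ℂ => ℓ • eta ((z - ζ) / (ℓ : ℂ)))
      (ℓ • ((fderiv ℝ eta ((z - ζ) / (ℓ : ℂ))).comp ((ℓ⁻¹ : ℝ) • ContinuousLinearMap.id ℝ ℂ))) z :=
    h2.const_smul ℓ
  have h5 := (ContinuousLinearMap.toSpanSingleton ℝ n).hasFDerivAt.comp z h3
  have e : vv ζ n ℓ = (ContinuousLinearMap.toSpanSingleton ℝ n) ∘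
      (fun z : ℂ => ℓ • eta ((z - ζ) / (ℓ : ℂ))) := by
    funext w
    show ((ℓ * eta ((w - ζ) / (ℓ : ℂ)) : ℝ) : ℂ) * n = (ℓ * eta ((w - ζ) / (ℓ : ℂ))) • n
    rw [Complex.real_smul]
  rw [e, h5.fderiv]
  refine ContinuousLinearMap.opNorm_le_bound _ hK0 fun h => ?_
  show ‖(ℓ * (fderiv ℝ eta ((z - ζ) / (ℓ : ℂ)) ((ℓ⁻¹ : ℝ) • h))) • n‖ ≤ K * ‖h‖
  rw [norm_smul, hn, mul_one, map_smul, smul_eq_mul, ← mul_assoc, mul_inv_cancel₀ hℓ.ne', one_mul]
  exact (ContinuousLinearMap.le_opNorm _ h).trans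
    (mul_le_mul_of_nonneg_right (hK _) (norm_nonneg h))

lemma exists_sep {ζ : ℕ → ℂ} (hζ : Function.Injective ζ) (N : ℕ) :
    ∃ σ > 0, ∀ i < N, ∀ j < N, i ≠ j → σ ≤ dist (ζ i) (ζ j) := by
  have h : ∀ᶠ σ : ℝ in 𝓝[>] 0, ∀ i ∈ Finset.range N, ∀ j ∈ Finset.range N, i ≠ j →
      σ ≤ dist (ζ i) (ζ j) := by
    rw [Filter.eventually_all_finset]
    intro i _
    rw [Filter.eventually_all_finset]
    intro j _
    by_cases hij : i = j
    · exact Filter.Eventually.of_forall fun σ h => absurd hij h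
    · have hpos : 0 < dist (ζ i) (ζ j) := dist_pos.2 fun h => hij (hζ h)
      filter_upwards [mem_nhdsWithin_of_mem_nhds (Iio_mem_nhds hpos)] with σ hσ _
      exact (le_of_lt hσ)
  obtain ⟨σ, hσ, hσ0⟩ := (h.and self_mem_nhdsWithin).exists
  exact ⟨σ, hσ0, fun i hi j hj => hσ i (Finset.mem_range.2 hi) j (Finset.mem_range.2 hj)⟩

end ZNM

open ZNM in
theorem specZN (hZI : SpecZI) : SpecZN := by
  intro K hK ζ n hζ hn N κ z₀ δ hκ hball
  obtain ⟨hη, -, hs, -, -⟩ := hZI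
  have hK0 : 0 ≤ K := (norm_nonneg _).trans (hK 0)
  obtain ⟨σ, hσ, hsep⟩ := exists_sep hζ N
  refine ⟨min κ (σ / 2), by positivity, ?_⟩
  intro ℓ hℓ hℓ2
  have hℓκ : ℓ ≤ κ := hℓ2.trans (min_le_left _ _)
  have hℓσ : ℓ ≤ σ / 2 := hℓ2.trans (min_le_right _ _)
  have hdisj : ∀ i < N, ∀ j < N, i ≠ j → Disjoint (ball (ζ i) ℓ) (ball (ζ j) ℓ) := by
    intro i hi j hj hij
    apply ball_disjoint_ball
    have := hsep i hi j hj hij
    linarith
  have hcl : ∀ j, closedBall (ζ j) ℓ ⊆ ball z₀ δ := fun j =>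
    (closedBall_subset_closedBall hℓκ).trans (hball j)
  have hsub : ∀ j < N, ball (ζ j) ℓ ⊆ ball z₀ δ := fun j _ =>
    ball_subset_closedBall.trans (hcl j)
  have hon : ∀ j < N, ∀ z ∈ ball (ζ j) ℓ, VV ζ n ℓ N z = vv (ζ j) (n j) ℓ z := by
    intro j hj z hz
    rw [VV]
    rw [Finset.sum_eq_single_of_mem j (Finset.mem_range.2 hj)]
    intro i hi hij
    apply vv_zero hs hℓ
    intro hzi
    exact Set.disjoint_left.1 (hdisj i (Finset.mem_range.1 hi) j hj hij) hzi hz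
  have hoff : ∀ z, (∀ j < N, z ∉ ball (ζ j) ℓ) → VV ζ n ℓ N z = 0 := by
    intro z hz
    rw [VV]
    apply Finset.sum_eq_zero
    intro j hj
    exact vv_zero hs hℓ (hz j (Finset.mem_range.1 hj))
  have hcont : ContDiff ℝ ∞ (VV ζ n ℓ N) := by
    have e : VV ζ n ℓ N = fun z => ∑ j ∈ Finset.range N, vv (ζ j) (n j) ℓ z := rfl
    rw [e]
    exact ContDiff.sum fun j _ => contDiff_vv hη (ζ j) (n j) ℓ
  have hts : tsupport (VV ζ n ℓ N) ⊆ ball z₀ δ := by
    have hC : IsClosed (⋃ j ∈ Finset.range N, closedBall (ζ j) ℓ) :=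
      isClosed_biUnion_finset fun j _ => isClosed_closedBall
    refine (closure_minimal ?_ hC).trans ?_
    · intro z hz
      by_contra hne
      apply hz
      apply hoff
      intro j hj hzj
      apply hne
      rw [Set.mem_iUnion₂]
      exact ⟨j, Finset.mem_range.2 hj, ball_subset_closedBall hzj⟩
    · exact Set.iUnion₂_subset fun j _ => hcl j
  refine ⟨hcont, ?_, hts, ?_, hon, hoff, hdisj, hsub⟩
  · refine HasCompactSupport.intro (isCompact_closedBall z₀ δ) fun z hz => ?_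
    apply hoff
    intro j hj hzj
    exact hz (ball_subset_closedBall (hsub j hj hzj))
  · intro z
    by_cases hz : ∃ j < N, z ∈ ball (ζ j) ℓ
    · obtain ⟨j, hj, hzj⟩ := hz
      have he : VV ζ n ℓ N =ᶠ[𝓝 z] vv (ζ j) (n j) ℓ := by
        filter_upwards [isOpen_ball.mem_nhds hzj] with w hw
        exact hon j hj w hw
      rw [he.fderiv_eq]
      exact fderiv_vv_le hK hη (hn j) hℓ z
    · push Not at hz
      have he : VV ζ n ℓ N =ᶠ[𝓝 z] fun _ => 0 := by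
        have h : ∀ᶠ w in 𝓝 z, ∀ j ∈ Finset.range N, vv (ζ j) (n j) ℓ w = 0 := by
          rw [Filter.eventually_all_finset]
          intro j hj
          have hnot : z ∉ tsupport (vv (ζ j) (n j) ℓ) := fun h =>
            hz j (Finset.mem_range.1 hj) (tsupport_vv hs hℓ h)
          filter_upwards [(isClosed_tsupport _).isOpen_compl.mem_nhds hnot] with w hw
          exact image_eq_zero_of_notMem_tsupport hw
        filter_upwards [h] with w hw
        rw [VV]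
        exact Finset.sum_eq_zero hw
      rw [he.fderiv_eq]
      simpa using hK0

end Pool.Agent.Lib.MP250511.SB
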