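import Pool.Agent.Lib.MP_250511_an.SB.SpecZ

/-!
# ZO: the energy of a sum of separated bumps
-/

set_option autoImplicit false

namespace Pool.Agent.Lib.MP250511.SB

open Complex Metric Set MeasureTheory Filter Topology
open scoped Real ENNReal ComplexConjugate ContDiff

namespace ZOM

theorem XQ_congr {q φ ψ : ℂ → ℂ} {z : ℂ} (h : φ =ᶠ[𝓝 z] ψ) : XQ q φ z = XQ q ψ z := by
  have e : fderiv ℝ φ z = fderiv ℝ ψ z := h.fderiv_eq
  unfold XQ Jac dZ dB
  rw [e]

theorem XQ_id {q φ : ℂ → ℂ} {z : ℂ} (h : φ =ᶠ[𝓝 z] fun w => w) : XQ q φ z = 0 := by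
  rw [XQ_congr h]
  have e : fderiv ℝ (fun w : ℂ => w) z = ContinuousLinearMap.id ℝ ℂ := fderiv_fun_id
  have hB : dB (fun w : ℂ => w) z = 0 := by
    unfold dB
    rw [e]
    simp
  unfold XQ
  rw [hB]
  simp

end ZOM

open ZOM

theorem specZO : SpecZO := by
  intro q v w Ω z₀ δ ε ℓ N ζ hΩ hv h0 hdis hsub hint
  have hF1 : ∀ j < N, ∀ z ∈ ball (ζ j) ℓ, XQ q (fun z => z + (ε : ℂ) * v z) z =
      XQ q (fun z => z + (ε : ℂ) * w j z) z := by
    intro j hj z hz
    apply XQ_congr
    filter_upwards [isOpen_ball.mem_nhds hz] with y hy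
    rw [hv j hj y hy]
  have hF2 : ∀ z, (∀ j < N, z ∉ closedBall (ζ j) ℓ) → XQ q (fun z => z + (ε : ℂ) * v z) z = 0 := by
    intro z hz
    apply XQ_id
    have hopen : IsOpen (⋂ j ∈ Finset.range N, (closedBall (ζ j) ℓ)ᶜ) :=
      isOpen_biInter_finset fun j _ => isClosed_closedBall.isOpen_compl
    have hmem : z ∈ ⋂ j ∈ Finset.range N, (closedBall (ζ j) ℓ)ᶜ := by
      rw [mem_iInter₂]
      intro j hj
      exact hz j (Finset.mem_range.1 hj)
    filter_upwards [hopen.mem_nhds hmem] with y hy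
    rw [mem_iInter₂] at hy
    rw [h0 y fun j hj hy' => hy j (Finset.mem_range.2 hj) (ball_subset_closedBall hy')]
    simp
  set S : Set ℂ := Ω ∩ ball z₀ δ with hS
  have hSm : MeasurableSet S := hΩ.inter measurableSet_ball
  have hset : ∀ j < N, ball (ζ j) ℓ ∩ S = Ω ∩ ball (ζ j) ℓ := by
    intro j hj
    rw [hS]
    ext z
    constructor
    · rintro ⟨h1, h2, _⟩
      exact ⟨h2, h1⟩
    · rintro ⟨h1, h2⟩
      exact ⟨h2, h1, hsub j hj h2⟩
  have hae : ∀ᵐ z ∂(volume.restrict S), XQ q (fun z => z + (ε : ℂ) * v z) z =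
      ∑ j ∈ Finset.range N, (ball (ζ j) ℓ).indicator (XQ q (fun z => z + (ε : ℂ) * w j z)) z := by
    have hn : ∀ᵐ z ∂(volume : Measure ℂ), ∀ j ∈ Finset.range N, z ∉ sphere (ζ j) ℓ := by
      rw [Filter.eventually_all_finset]
      intro j _
      rw [ae_iff]
      simp only [not_not, ofPred_mem_eq]
      exact Measure.addHaar_sphere volume (ζ j) ℓ
    filter_upwards [ae_restrict_of_ae hn] with z hz
    by_cases h : ∃ j < N, z ∈ ball (ζ j) ℓ
    · obtain ⟨j, hj, hzj⟩ := h
      rw [hF1 j hj z hzj, Finset.sum_eq_single j]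
      · rw [indicator_of_mem hzj]
      · intro i hi hij
        apply indicator_of_notMem
        intro hzi
        exact Set.disjoint_left.1 (hdis i (Finset.mem_range.1 hi) j hj hij) hzi hzj
      · intro hj'
        exact absurd (Finset.mem_range.2 hj) hj'
    · push Not at h
      rw [hF2 z, Finset.sum_eq_zero]
      · intro j hj
        exact indicator_of_notMem (h j (Finset.mem_range.1 hj)) _
      · intro j hj hz'
        rw [← ball_union_sphere] at hz'
        rcases hz' with h1 | h1
        · exact h j hj h1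
        · exact hz j (Finset.mem_range.2 hj) h1
  rw [integral_congr_ae hae, integral_finsetSum]
  · apply Finset.sum_congr rfl
    intro j hj
    rw [integral_indicator measurableSet_ball, Measure.restrict_restrict measurableSet_ball,
      hset j (Finset.mem_range.1 hj)]
  · intro j hj
    rw [integrable_indicator_iff measurableSet_ball, IntegrableOn,
      Measure.restrict_restrict measurableSet_ball, hset j (Finset.mem_range.1 hj)]
    exact hint j (Finset.mem_range.1 hj)

end Pool.Agent.Lib.MP250511.SB
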