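import Pool.Agent.Lib.MP_250511_an.SB.SpecZ

/-!
# MP_250511_an, SB: module ZP (integrability of the change of the energy density)
-/

set_option autoImplicit false

namespace Pool.Agent.Lib.MP250511.SB

open Complex Metric Set MeasureTheory Filter Topology
open scoped Real ENNReal ComplexConjugate ContDiff

namespace ZPM

theorem fd {v : ℂ → ℂ} (hv : ContDiff ℝ ∞ v) (ε : ℝ) (z w : ℂ) :
    fderiv ℝ (fun z => z + (ε : ℂ) * v z) z w = w + (ε : ℂ) * fderiv ℝ v z w := by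
  have hd : DifferentiableAt ℝ v z := (hv.differentiable (by simp)) z
  have h : HasFDerivAt (fun z => z + (ε : ℂ) * v z)
      (ContinuousLinearMap.id ℝ ℂ + (ε : ℂ) • fderiv ℝ v z) z :=
    (hasFDerivAt_id z).add (hd.hasFDerivAt.const_mul (ε : ℂ))
  rw [h.fderiv]
  rfl

theorem dZ_eq {v : ℂ → ℂ} (hv : ContDiff ℝ ∞ v) (ε : ℝ) (z : ℂ) :
    dZ (fun z => z + (ε : ℂ) * v z) z = 1 + (ε : ℂ) * dZ v z := by
  rw [dZ, dZ, fd hv, fd hv]
  have hI := Complex.I_mul_I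
  linear_combination (-1 / 2 : ℂ) * hI

theorem dB_eq {v : ℂ → ℂ} (hv : ContDiff ℝ ∞ v) (ε : ℝ) (z : ℂ) :
    dB (fun z => z + (ε : ℂ) * v z) z = (ε : ℂ) * dB v z := by
  rw [dB, dB, fd hv, fd hv]
  have hI := Complex.I_mul_I
  linear_combination (1 / 2 : ℂ) * hI

theorem bd_apply {v : ℂ → ℂ} {K : ℝ} (hK : ∀ z, ‖fderiv ℝ v z‖ ≤ K) (z w : ℂ) (hw : ‖w‖ = 1) :
    ‖fderiv ℝ v z w‖ ≤ K := by
  have h := (fderiv ℝ v z).le_opNorm w
  rw [hw, mul_one] at h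
  exact h.trans (hK z)

theorem norm_dZ {v : ℂ → ℂ} {K : ℝ} (hK : ∀ z, ‖fderiv ℝ v z‖ ≤ K) (z : ℂ) : ‖dZ v z‖ ≤ K := by
  have h1 := bd_apply hK z 1 norm_one
  have h2 := bd_apply hK z I Complex.norm_I
  rw [dZ, norm_div]
  have h3 : ‖fderiv ℝ v z 1 - I * fderiv ℝ v z I‖ ≤ ‖fderiv ℝ v z 1‖ + ‖fderiv ℝ v z I‖ := by
    refine (norm_sub_le _ _).trans ?_
    rw [norm_mul, Complex.norm_I, one_mul]
  have h4 : ‖(2 : ℂ)‖ = 2 := by simp
  rw [h4, div_le_iff₀ (by norm_num)]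
  linarith

theorem norm_dB {v : ℂ → ℂ} {K : ℝ} (hK : ∀ z, ‖fderiv ℝ v z‖ ≤ K) (z : ℂ) : ‖dB v z‖ ≤ K := by
  have h1 := bd_apply hK z 1 norm_one
  have h2 := bd_apply hK z I Complex.norm_I
  rw [dB, norm_div]
  have h3 : ‖fderiv ℝ v z 1 + I * fderiv ℝ v z I‖ ≤ ‖fderiv ℝ v z 1‖ + ‖fderiv ℝ v z I‖ := by
    refine (norm_add_le _ _).trans ?_
    rw [norm_mul, Complex.norm_I, one_mul]
  have h4 : ‖(2 : ℂ)‖ = 2 := by simp
  rw [h4, div_le_iff₀ (by norm_num)]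
  linarith

theorem cont_dZ {v : ℂ → ℂ} (hv : ContDiff ℝ ∞ v) : Continuous (dZ v) := by
  have h : Continuous (fderiv ℝ v) := hv.continuous_fderiv (by simp)
  have h1 : Continuous (fun z => fderiv ℝ v z 1) := h.clm_apply continuous_const
  have h2 : Continuous (fun z => fderiv ℝ v z I) := h.clm_apply continuous_const
  exact (h1.sub (continuous_const.mul h2)).div_const 2

theorem cont_dB {v : ℂ → ℂ} (hv : ContDiff ℝ ∞ v) : Continuous (dB v) := by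
  have h : Continuous (fderiv ℝ v) := hv.continuous_fderiv (by simp)
  have h1 : Continuous (fun z => fderiv ℝ v z 1) := h.clm_apply continuous_const
  have h2 : Continuous (fun z => fderiv ℝ v z I) := h.clm_apply continuous_const
  exact (h1.add (continuous_const.mul h2)).div_const 2

theorem bound {q : ℂ} {a b : ℂ} (ha1 : ‖a‖ ≤ 5 / 4) (ha2 : 3 / 4 ≤ ‖a‖) (hb : ‖b‖ ≤ 1 / 4) :
    ‖(2 * ‖q‖ * ‖b‖ ^ 2 - 2 * (conj a * b * q).re) / (‖a‖ ^ 2 - ‖b‖ ^ 2)‖ ≤ 2 * ‖q‖ := by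
  have hq : 0 ≤ ‖q‖ := norm_nonneg q
  have hb0 : 0 ≤ ‖b‖ := norm_nonneg b
  have hJ : 1 / 2 ≤ ‖a‖ ^ 2 - ‖b‖ ^ 2 := by nlinarith
  have hre : |(conj a * b * q).re| ≤ ‖a‖ * ‖b‖ * ‖q‖ := by
    refine (Complex.abs_re_le_norm _).trans ?_
    rw [norm_mul, norm_mul, Complex.norm_conj]
  have hab : ‖a‖ * ‖b‖ ≤ 5 / 16 := by nlinarith [norm_nonneg a]
  have hre2 : |(conj a * b * q).re| ≤ 5 / 16 * ‖q‖ :=
    hre.trans (mul_le_mul_of_nonneg_right hab hq)
  have hbb : ‖b‖ ^ 2 ≤ 1 / 16 := by nlinarith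
  have hnum : |2 * ‖q‖ * ‖b‖ ^ 2 - 2 * (conj a * b * q).re| ≤ ‖q‖ := by
    have h1 := abs_le.mp hre2
    have h2 : 0 ≤ ‖q‖ * ‖b‖ ^ 2 := by positivity
    have h3 : ‖q‖ * ‖b‖ ^ 2 ≤ ‖q‖ * (1 / 16) := mul_le_mul_of_nonneg_left hbb hq
    rw [abs_le]
    constructor
    · nlinarith [h1.1, h1.2]
    · nlinarith [h1.1, h1.2]
  rw [norm_div, Real.norm_eq_abs, Real.norm_eq_abs, abs_of_pos (by linarith : (0 : ℝ) < ‖a‖ ^ 2 - ‖b‖ ^ 2),
    div_le_iff₀ (by linarith)]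
  nlinarith

end ZPM

open ZPM in
theorem specZP (hI : SpecINQ) : SpecZP := by
  intro f g Ω z₁ r hP h0 v hv K ε hK hε
  have hint := hI f g Ω hP z₁ r h0
  have hq : AEMeasurable (qG g) (volume.restrict (Ω ∩ ball z₁ r)) :=
    hint.aestronglyMeasurable.aemeasurable
  have eZ : dZ (fun z => z + (ε : ℂ) * v z) = fun z => 1 + (ε : ℂ) * dZ v z := funext (dZ_eq hv ε)
  have eB : dB (fun z => z + (ε : ℂ) * v z) = fun z => (ε : ℂ) * dB v z := funext (dB_eq hv ε)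
  have mZ : Measurable (dZ (fun z => z + (ε : ℂ) * v z)) := by
    rw [eZ]
    exact (continuous_const.add (continuous_const.mul (cont_dZ hv))).measurable
  have mB : Measurable (dB (fun z => z + (ε : ℂ) * v z)) := by
    rw [eB]
    exact (continuous_const.mul (cont_dB hv)).measurable
  have hK0 : 0 ≤ K := (norm_nonneg _).trans (hK 0)
  have bB : ∀ z, ‖dB (fun z => z + (ε : ℂ) * v z) z‖ ≤ 1 / 4 := by
    intro z
    rw [dB_eq hv, norm_mul, Complex.norm_real, Real.norm_eq_abs]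
    exact (mul_le_mul_of_nonneg_left (norm_dB hK z) (abs_nonneg ε)).trans hε
  have bZ : ∀ z, ‖(ε : ℂ) * dZ v z‖ ≤ 1 / 4 := by
    intro z
    rw [norm_mul, Complex.norm_real, Real.norm_eq_abs]
    exact (mul_le_mul_of_nonneg_left (norm_dZ hK z) (abs_nonneg ε)).trans hε
  have bZ1 : ∀ z, ‖dZ (fun z => z + (ε : ℂ) * v z) z‖ ≤ 5 / 4 := by
    intro z
    rw [dZ_eq hv]
    refine (norm_add_le _ _).trans ?_
    rw [norm_one]
    linarith [bZ z]
  have bZ2 : ∀ z, 3 / 4 ≤ ‖dZ (fun z => z + (ε : ℂ) * v z) z‖ := by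
    intro z
    rw [dZ_eq hv]
    have h := norm_sub_le (1 + (ε : ℂ) * dZ v z) ((ε : ℂ) * dZ v z)
    rw [add_sub_cancel_right, norm_one] at h
    linarith [bZ z]
  have hm : AEMeasurable (XQ (qG g) (fun z => z + (ε : ℂ) * v z))
      (volume.restrict (Ω ∩ ball z₁ r)) := by
    have h1 : AEMeasurable (fun z => 2 * ‖qG g z‖ * ‖dB (fun z => z + (ε : ℂ) * v z) z‖ ^ 2)
        (volume.restrict (Ω ∩ ball z₁ r)) :=
      (hq.norm.const_mul 2).mul (mB.norm.pow_const 2).aemeasurable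
    have h2 : AEMeasurable (fun z => 2 * (conj (dZ (fun z => z + (ε : ℂ) * v z) z) *
        dB (fun z => z + (ε : ℂ) * v z) z * qG g z).re) (volume.restrict (Ω ∩ ball z₁ r)) := by
      have h3 : Measurable (fun z => conj (dZ (fun z => z + (ε : ℂ) * v z) z) *
          dB (fun z => z + (ε : ℂ) * v z) z) :=
        (Complex.continuous_conj.measurable.comp mZ).mul mB
      exact (Complex.measurable_re.comp_aemeasurable (h3.aemeasurable.mul hq)).const_mul 2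
    have h4 : Measurable (Jac (fun z => z + (ε : ℂ) * v z)) :=
      (mZ.norm.pow_const 2).sub (mB.norm.pow_const 2)
    exact (h1.sub h2).div h4.aemeasurable
  refine Integrable.mono' (hint.norm.const_mul 2) hm.aestronglyMeasurable ?_
  exact Filter.Eventually.of_forall fun z => bound (bZ1 z) (bZ2 z) (bB z)

end Pool.Agent.Lib.MP250511.SB
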